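import Mathlib

/-!
# LR Braid: braid relations, elementary consequences
-/

set_option autoImplicit false

open Equiv

namespace Pool.Agent.LR

/-- The relations of the braid group with `m` strands for `φ 0, ..., φ (m - 2)`. -/
structure BraidRel {G : Type*} [Group G] (m : ℕ) (φ : ℕ → G) : Prop where
  far : ∀ i j, i + 2 ≤ j → j + 1 < m → φ i * φ j = φ j * φ i
  br : ∀ i, i + 2 < m → φ i * φ (i + 1) * φ i = φ (i + 1) * φ i * φ (i + 1)

section basic

variable {G : Type*} [Group G] {m : ℕ} {φ : ℕ → G}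

theorem eq_of_comm_braid {a b : G} (hc : a * b = b * a) (hb : a * b * a = b * a * b) : a = b := by
  rw [← hc] at hb
  exact mul_left_cancel hb

theorem BraidRel.shift (h : BraidRel m φ) (r m' : ℕ) (hm : m' + r ≤ m) : BraidRel m' fun i => φ (i + r) where
  far i j hij hj := h.far (i + r) (j + r) (by omega) (by omega)
  br i hi := by
    have := h.br (i + r) (by omega)
    rw [show i + 1 + r = i + r + 1 by ring]
    exact this

theorem BraidRel.mono (h : BraidRel m φ) {m' : ℕ} (hm : m' ≤ m) : BraidRel m' φ where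
  far i j hij hj := h.far i j hij (by omega)
  br i hi := h.br i (by omega)

theorem BraidRel.comm (h : BraidRel m φ) {i j : ℕ} (hi : i + 1 < m) (hj : j + 1 < m) (hij : i + 2 ≤ j ∨ j + 2 ≤ i) :
    φ i * φ j = φ j * φ i := by
  rcases hij with hij | hij
  · exact h.far i j hij hj
  · exact (h.far j i hij hi).symm

theorem BraidRel.up (h : BraidRel m φ) {i : ℕ} (hi : i + 3 < m) (he : φ i = φ (i + 1)) : φ (i + 1) = φ (i + 2) := by
  have h1 := h.far i (i + 2) le_rfl hi
  rw [he] at h1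
  exact eq_of_comm_braid h1 (h.br (i + 1) hi)

theorem BraidRel.down (h : BraidRel m φ) {i : ℕ} (hi : i + 3 < m) (he : φ (i + 1) = φ (i + 2)) : φ i = φ (i + 1) := by
  have h1 := h.far i (i + 2) le_rfl hi
  rw [← he] at h1
  exact eq_of_comm_braid h1 (h.br i (by omega))

theorem BraidRel.all_eq (h : BraidRel m φ) {i : ℕ} (hi : i + 2 < m) (he : φ i = φ (i + 1)) :
    ∀ j, j + 1 < m → φ j = φ 0 := by
  -- equality of the neighbours everywhere
  have h0 : ∀ r, r ≤ i → φ (i - r) = φ (i - r + 1) := by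
    intro r
    induction r with
    | zero => intro _; simpa using he
    | succ r ih =>
      intro hr
      have h1 := ih (by omega)
      have h2 : i - r = i - (r + 1) + 1 := by omega
      rw [h2] at h1
      exact h.down (by omega) h1
  have h1 : φ 0 = φ 1 := by simpa using h0 i le_rfl
  have h2 : ∀ j, j + 2 < m → φ j = φ (j + 1) := by
    intro j
    induction j with
    | zero => intro _; exact h1
    | succ j ih => intro hj; exact h.up (by omega) (ih (by omega))
  intro j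
  induction j with
  | zero => intro _; rfl
  | succ j ih => intro hj; rw [← h2 j (by omega)]; exact ih (by omega)

/-- If all quotients of neighbours lie in a commutative subgroup which is stable under conjugation by the
generators, then all generators are equal. -/
theorem BraidRel.eq_of_abelian (h : BraidRel m φ) (hm : 5 ≤ m) (K : Subgroup G) (hK : ∀ a ∈ K, ∀ b ∈ K, a * b = b * a)
    (hq : ∀ i, i + 2 < m → φ i * (φ (i + 1))⁻¹ ∈ K) (hn : ∀ i, i + 1 < m → ∀ g ∈ K, φ i * g * (φ i)⁻¹ ∈ K) :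
    φ 2 = φ 3 := by
  set a := φ 2 * (φ 3)⁻¹ with ha
  have haK : a ∈ K := hq 2 (by omega)
  have h0 : φ 0 * a * (φ 0)⁻¹ = a := by
    have h1 := h.far 0 2 (by omega) (by omega)
    have h2 := h.far 0 3 (by omega) (by omega)
    have h3 : φ 0 * (φ 3)⁻¹ = (φ 3)⁻¹ * φ 0 := by
      rw [eq_inv_mul_iff_mul_eq, ← mul_assoc, ← h2, mul_assoc, mul_inv_cancel, mul_one]
    rw [ha, ← mul_assoc, h1, mul_assoc (φ 2), h3, ← mul_assoc, mul_assoc, mul_inv_cancel, mul_one]
  have h1 : ∀ j, j + 1 < m → φ j * a * (φ j)⁻¹ = a := by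
    intro j
    induction j with
    | zero => intro _; exact h0
    | succ j ih =>
      intro hj
      have h2 := ih (by omega)
      have h3 := hq j (by omega)
      have h4 := hn (j + 1) hj a haK
      have h5 := hK _ h3 _ h4
      have h6 : φ j = φ j * (φ (j + 1))⁻¹ * φ (j + 1) := by group
      have h7 : φ j * a * (φ j)⁻¹ = φ j * (φ (j + 1))⁻¹ * (φ (j + 1) * a * (φ (j + 1))⁻¹) * (φ j * (φ (j + 1))⁻¹)⁻¹ := by
        group
      rw [h7, h5, mul_assoc, mul_inv_cancel, mul_one] at h2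
      exact h2
  have h2 := h1 3 (by omega)
  have h3 : φ 3 * a = a * φ 3 := by
    rw [mul_inv_eq_iff_eq_mul] at h2
    exact h2
  have h4 : φ 2 = a * φ 3 := by rw [ha]; group
  have h5 : φ 2 * φ 3 = φ 3 * φ 2 := by
    rw [h4, ← mul_assoc (φ 3), h3]
  exact eq_of_comm_braid h5 (h.br 2 (by omega))

end basic

theorem pinv {α : Type*} (a : Perm α) (x : α) : a (a⁻¹ x) = x := Equiv.apply_symm_apply a x

theorem pinv' {α : Type*} (a : Perm α) (x : α) : a⁻¹ (a x) = x := Equiv.symm_apply_apply a x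

/-- Permutations which commute with `c` and move each point inside its cycle. -/
def cycSub {α : Type*} (c : Perm α) : Subgroup (Perm α) where
  carrier := {g | g * c = c * g ∧ ∀ x, c.SameCycle x (g x)}
  mul_mem' := by
    rintro a b ⟨ha, ha'⟩ ⟨hb, hb'⟩
    refine ⟨by rw [mul_assoc, hb, ← mul_assoc, ha, mul_assoc], fun x => ?_⟩
    exact (hb' x).trans (ha' (b x))
  one_mem' := ⟨by simp, fun x => Equiv.Perm.SameCycle.refl _ _⟩
  inv_mem' := by
    rintro a ⟨ha, ha'⟩
    refine ⟨by rw [inv_mul_eq_iff_eq_mul, ← mul_assoc, ha, mul_assoc, mul_inv_cancel, mul_one], fun x => ?_⟩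
    have := ha' (a⁻¹ x)
    rw [pinv] at this
    exact this.symm

theorem comm_zpow {α : Type*} {c g : Perm α} (h : g * c = c * g) (i : ℤ) (x : α) : g ((c ^ i) x) = (c ^ i) (g x) := by
  have h1 : Commute g c := h
  have h2 := (h1.zpow_right i).eq
  exact congrArg (fun e : Perm α => e x) h2

theorem cycSub_comm {α : Type*} (c : Perm α) : ∀ a ∈ cycSub c, ∀ b ∈ cycSub c, a * b = b * a := by
  rintro a ⟨ha, ha'⟩ b ⟨hb, hb'⟩
  ext x
  obtain ⟨i, hi⟩ := ha' x
  obtain ⟨j, hj⟩ := hb' x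
  rw [Perm.mul_apply, Perm.mul_apply, ← hi, ← hj, comm_zpow ha, comm_zpow hb, ← hi, ← hj, ← Perm.mul_apply, ← Perm.mul_apply,
    ← zpow_add, ← zpow_add, add_comm]

theorem sameCycle_comm {α : Type*} {c g : Perm α} (h : g * c = c * g) {x y : α} (hxy : c.SameCycle x y) :
    c.SameCycle (g x) (g y) := by
  obtain ⟨i, hi⟩ := hxy
  exact ⟨i, by rw [← hi, comm_zpow h]⟩

theorem BraidRel.eq_of_cycles {α : Type*} {m : ℕ} {φ : ℕ → Perm α} (h : BraidRel m φ) (hm : 5 ≤ m) {c : Perm α}
    (hc : ∀ i, i + 1 < m → φ i * c = c * φ i)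
    (hs : ∀ i, i + 2 < m → ∀ x, c.SameCycle (φ i x) (φ (i + 1) x)) : φ 2 = φ 3 := by
  refine h.eq_of_abelian hm (cycSub c) (cycSub_comm c) ?_ ?_
  · intro i hi
    have h1 := hc i (by omega)
    have h2 := hc (i + 1) (by omega)
    have h3 : (φ (i + 1))⁻¹ * c = c * (φ (i + 1))⁻¹ := by
      rw [inv_mul_eq_iff_eq_mul, ← mul_assoc, h2, mul_assoc, mul_inv_cancel, mul_one]
    refine ⟨by rw [mul_assoc, h3, ← mul_assoc, h1, mul_assoc], fun x => ?_⟩
    have h4 := (hs i hi ((φ (i + 1))⁻¹ x)).symm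
    rw [pinv] at h4
    exact h4
  · rintro i hi g ⟨hg, hg'⟩
    have h1 := hc i hi
    have h3 : (φ i)⁻¹ * c = c * (φ i)⁻¹ := by
      rw [inv_mul_eq_iff_eq_mul, ← mul_assoc, h1, mul_assoc, mul_inv_cancel, mul_one]
    refine ⟨by rw [mul_assoc, h3, ← mul_assoc, mul_assoc (φ i), hg, ← mul_assoc, h1, mul_assoc, mul_assoc, mul_assoc],
      fun x => ?_⟩
    have h4 := sameCycle_comm h1 (hg' ((φ i)⁻¹ x))
    rw [pinv] at h4
    exact h4

end Pool.Agent.LR
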