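import Pool.Agent.LR.RootLoc

/-!
# LR Cover: continuous choice of the roots, global form

`exists_perm_on`.  For `x ∈ W` there is a permutation `s_x` with `ρ' x (s_x j) = ρ x j` (`OC.exists_perm`: two root lists of
the same polynomial; `ρ x` injective), unique as `ρ' x` is injective.  For fixed `s` the set of the `x ∈ W` with
`s_x = s` is relatively closed (the equations `ρ' x (s j) = ρ x j`), and `W` is a finite disjoint union of these sets, so
each is relatively clopen; `W` is preconnected, so `s_x` is constant on `W`.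

`roots_simply`.  `E' = {p : Y × (Fin n → ℂ) | IsRoots p.2 (H p.1)} → Y` is a covering map (`IsCoveringMap`): over the open
set `V` of `roots_local` the map `V × Perm (Fin n) → E'`, `(y, s) ↦ (y, ρ y ∘ s)` is a homeomorphism onto the preimage of
`V` (`OC.exists_perm`; continuity of the inverse: the permutation is locally constant, as `ρ y` is injective and
continuous).  Then lift `id : Y → Y` with `IsCoveringMap.existsUnique_continuousMap_lifts` (`Y` simply connected, locally
path connected).  Alternative: the covering `{p : Y × ℂ | (poly (H p.1)).eval p.2 = 0} → Y` with `n` sheets and `n` lifts.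
If `Y` is simply connected it is nonempty, choose the base point.

`exists_roots_on`: apply this to the subtype `U` (an open star-shaped set: contractible, so simply connected; open in a
normed space, so locally path connected) and extend `ρ` by `0` outside `U`.
-/

set_option autoImplicit false

open Topology Filter Polynomial

noncomputable section

namespace Pool.Agent.LR

open Pool.Agent.H60.OC (poly IsRoots)

/-- A root list is injective if some root list of the same polynomial is. -/
theorem cv_inj {n : ℕ} {x x' z : Fin n → ℂ} (h : IsRoots x z) (h' : IsRoots x' z)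
    (hx : Function.Injective x') : Function.Injective x := by
  obtain ⟨σ, hσ⟩ := Pool.Agent.H60.OC.exists_perm h h' hx
  intro i j hij
  have h1 : x' (σ.symm i) = x' (σ.symm j) := by
    rw [hσ]
    simpa using hij
  exact σ.symm.injective (hx h1)

/-- The permutation matching two root lists, in the other direction. -/
theorem cv_perm {n : ℕ} {x x' z : Fin n → ℂ} (h : IsRoots x z) (h' : IsRoots x' z)
    (hx : Function.Injective x) : ∃ s : Equiv.Perm (Fin n), ∀ j, x' (s j) = x j := by
  obtain ⟨σ, hσ⟩ := Pool.Agent.H60.OC.exists_perm h' h hx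
  exact ⟨σ, fun j => (congrFun hσ j).symm⟩

/-- The set where a fixed permutation matches: relatively closed. -/
theorem cv_closed {Y : Type} [TopologicalSpace Y] {n : ℕ} {ρ ρ' : Y → (Fin n → ℂ)}
    (hc : Continuous ρ) (hc' : Continuous ρ') (s : Equiv.Perm (Fin n)) :
    IsClosed {x | ∀ j, ρ' x (s j) = ρ x j} := by
  have e : {x | ∀ j, ρ' x (s j) = ρ x j} = ⋂ j, {x | ρ' x (s j) = ρ x j} := by
    ext x
    simp
  rw [e]
  exact isClosed_iInter fun j =>
    isClosed_eq ((continuous_apply (s j)).comp hc') ((continuous_apply j).comp hc)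

/-- The set where a fixed permutation matches is clopen. -/
theorem cv_clopen {Y : Type} [TopologicalSpace Y] {n : ℕ} {ρ ρ' : Y → (Fin n → ℂ)}
    (hc : Continuous ρ) (hc' : Continuous ρ') {H : Y → (Fin n → ℂ)}
    (hr : ∀ x, IsRoots (ρ x) (H x)) (hr' : ∀ x, IsRoots (ρ' x) (H x))
    (hi : ∀ x, Function.Injective (ρ x)) (s : Equiv.Perm (Fin n)) :
    IsClopen {x | ∀ j, ρ' x (s j) = ρ x j} := by
  refine ⟨cv_closed hc hc' s, ?_⟩
  rw [← isClosed_compl_iff]
  have e : {x | ∀ j, ρ' x (s j) = ρ x j}ᶜ =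
      ⋃ t ∈ {t : Equiv.Perm (Fin n) | t ≠ s}, {x | ∀ j, ρ' x (t j) = ρ x j} := by
    ext x
    simp only [Set.mem_compl_iff, Set.mem_iUnion, Set.mem_ofPred_eq, exists_prop]
    constructor
    · intro hx
      obtain ⟨t, ht⟩ := cv_perm (hr x) (hr' x) (hi x)
      refine ⟨t, fun hts => hx ?_, ht⟩
      rw [← hts]
      exact ht
    · rintro ⟨t, hts, ht⟩ hs
      apply hts
      have hi' : Function.Injective (ρ' x) := cv_inj (hr' x) (hr x) (hi x)
      ext1 j
      exact hi' ((ht j).trans (hs j).symm)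
  rw [e]
  exact (Set.toFinite _).isClosed_biUnion fun t _ => cv_closed hc hc' t

theorem exists_perm_on {Y : Type} [TopologicalSpace Y] {n : ℕ} {W : Set Y} (hW : IsPreconnected W)
    {ρ ρ' : Y → (Fin n → ℂ)} (hc : ContinuousOn ρ W) (hc' : ContinuousOn ρ' W) {H : Y → (Fin n → ℂ)}
    (hr : ∀ x ∈ W, IsRoots (ρ x) (H x)) (hr' : ∀ x ∈ W, IsRoots (ρ' x) (H x))
    (hi : ∀ x ∈ W, Function.Injective (ρ x)) :
    ∃ s : Equiv.Perm (Fin n), ∀ x ∈ W, ∀ j, ρ' x (s j) = ρ x j := by
  rcases W.eq_empty_or_nonempty with rfl | ⟨x₀, hx₀⟩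
  · exact ⟨1, fun x hx => absurd hx (Set.notMem_empty x)⟩
  · obtain ⟨s, hs⟩ := cv_perm (hr x₀ hx₀) (hr' x₀ hx₀) (hi x₀ hx₀)
    have : PreconnectedSpace W := isPreconnected_iff_preconnectedSpace.1 hW
    have hcl : IsClopen {x : W | ∀ j, ρ' x (s j) = ρ x j} :=
      cv_clopen (Y := W) (ρ := fun x : W => ρ x) (ρ' := fun x : W => ρ' x)
        (continuousOn_iff_continuous_domRestrict.1 hc) (continuousOn_iff_continuous_domRestrict.1 hc')
        (H := fun x : W => H x) (fun x => hr x x.2) (fun x => hr' x x.2) (fun x => hi x x.2) s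
    have huniv := hcl.eq_univ ⟨⟨x₀, hx₀⟩, hs⟩
    refine ⟨s, fun x hx => ?_⟩
    have : (⟨x, hx⟩ : W) ∈ {x : W | ∀ j, ρ' x (s j) = ρ x j} := by
      rw [huniv]
      exact Set.mem_univ _
    exact this

/-- The space of ordered root lists. -/
def CE {Y : Type} {n : ℕ} (H : Y → (Fin n → ℂ)) : Type :=
  {p : Y × (Fin n → ℂ) // IsRoots p.2 (H p.1)}

instance {Y : Type} [TopologicalSpace Y] {n : ℕ} (H : Y → (Fin n → ℂ)) : TopologicalSpace (CE H) :=
  inferInstanceAs (TopologicalSpace {p : Y × (Fin n → ℂ) // IsRoots p.2 (H p.1)})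

/-- The projection. -/
def cpr {Y : Type} {n : ℕ} (H : Y → (Fin n → ℂ)) : CE H → Y := fun p => p.1.1

theorem cpr_cont {Y : Type} [TopologicalSpace Y] {n : ℕ} (H : Y → (Fin n → ℂ)) :
    Continuous (cpr H) := continuous_fst.comp continuous_subtype_val

theorem csd_cont {Y : Type} [TopologicalSpace Y] {n : ℕ} (H : Y → (Fin n → ℂ)) :
    Continuous (fun p : CE H => p.1.2) := continuous_snd.comp continuous_subtype_val

theorem isRoots_perm {n : ℕ} {r z : Fin n → ℂ} (h : IsRoots r z) (s : Equiv.Perm (Fin n)) :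
    IsRoots (fun j => r (s j)) z := by
  unfold IsRoots at h ⊢
  rw [h]
  exact (Equiv.prod_comp s fun j => (X - C (r j) : ℂ[X])).symm

/-- The permutation part of the trivialisation is locally constant. -/
theorem cv_locconst {Z : Type} [TopologicalSpace Z] {n : ℕ} {a b : Z → (Fin n → ℂ)}
    (ha : Continuous a) (hb : Continuous b) {H : Z → (Fin n → ℂ)}
    (hr : ∀ x, IsRoots (a x) (H x)) (hr' : ∀ x, IsRoots (b x) (H x))
    (hi : ∀ x, Function.Injective (a x)) (g : Z → Equiv.Perm (Fin n))
    (hg : ∀ x j, b x (g x j) = a x j) :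
    ∀ s, IsOpen (g ⁻¹' {s}) := by
  intro s
  have e : g ⁻¹' {s} = {x | ∀ j, b x (s j) = a x j} := by
    ext x
    simp only [Set.mem_preimage, Set.mem_singleton_iff, Set.mem_ofPred_eq]
    constructor
    · intro h j
      rw [← h]
      exact hg x j
    · intro h
      have hi' : Function.Injective (b x) := cv_inj (hr' x) (hr x) (hi x)
      ext1 j
      exact hi' ((hg x j).trans (h j).symm)
  rw [e]
  exact (cv_clopen ha hb hr hr' hi s).2

theorem cv_even {Y : Type} [TopologicalSpace Y] {n : ℕ} {H : Y → (Fin n → ℂ)} (hH : Continuous H)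
    (hd : ∀ y, ∃ r, IsRoots r (H y) ∧ Function.Injective r) (y₀ : Y) :
    IsEvenlyCovered (cpr H) y₀ (cpr H ⁻¹' {y₀}) := by
  classical
  obtain ⟨V, ρ, hV, hy₀, hρ, hr⟩ := roots_local hH hd y₀
  let _ : TopologicalSpace (Equiv.Perm (Fin n)) := ⊥
  have : DiscreteTopology (Equiv.Perm (Fin n)) := ⟨rfl⟩
  have hρc : Continuous fun y : V => ρ y := continuousOn_iff_continuous_domRestrict.1 hρ
  have hinj : ∀ p : CE H, Function.Injective p.1.2 := fun p => by
    obtain ⟨r, h1, h2⟩ := hd p.1.1
    exact cv_inj p.2 h1 h2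
  have hg : ∀ p : cpr H ⁻¹' V, ∃ s : Equiv.Perm (Fin n), ∀ j, ρ (cpr H p.1) (s j) = p.1.1.2 j :=
    fun p => cv_perm p.1.2 (hr _ p.2) (hinj p.1)
  choose g hg using hg
  have hgo : ∀ s, IsOpen (g ⁻¹' {s}) :=
    cv_locconst (Z := cpr H ⁻¹' V) (a := fun p => p.1.1.2) (b := fun p => ρ (cpr H p.1))
      ((csd_cont H).comp continuous_subtype_val)
      (hρc.comp (f := fun p : cpr H ⁻¹' V => (⟨cpr H p.1, p.2⟩ : V))
        (((cpr_cont H).comp continuous_subtype_val).subtype_mk _))
      (H := fun p => H (cpr H p.1)) (fun p => p.1.2) (fun p => hr _ p.2) (fun p => hinj p.1) g hg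
  have hgc : Continuous g := continuous_discrete_rng.2 hgo
  have hρi : ∀ y ∈ V, Function.Injective (ρ y) := fun y hy => by
    obtain ⟨r, h1, h2⟩ := hd y
    exact cv_inj (hr y hy) h1 h2
  have hE : IsEvenlyCovered (cpr H) y₀ (Equiv.Perm (Fin n)) := by
    refine ⟨inferInstance, V, hy₀, hV, hV.preimage (cpr_cont H),
      { toFun := fun p => (⟨cpr H p.1, p.2⟩, g p)
        invFun := fun q => ⟨⟨(q.1.1, fun j => ρ q.1.1 (q.2 j)), isRoots_perm (hr _ q.1.2) q.2⟩, q.1.2⟩
        left_inv := ?_
        right_inv := ?_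
        continuous_toFun := ?_
        continuous_invFun := ?_ }, fun _ => rfl⟩
    · intro p
      apply Subtype.ext
      apply Subtype.ext
      refine Prod.ext rfl ?_
      funext j
      exact hg p j
    · rintro ⟨y, s⟩
      refine Prod.ext rfl ?_
      ext1 j
      have h1 := hg ⟨⟨(y.1, fun j => ρ y.1 (s j)), isRoots_perm (hr _ y.2) s⟩, y.2⟩ j
      exact hρi y.1 y.2 h1
    · exact (((cpr_cont H).comp continuous_subtype_val).subtype_mk _).prodMk hgc
    · refine Continuous.subtype_mk (Continuous.subtype_mk ?_ _) _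
      refine Continuous.prodMk (continuous_subtype_val.comp continuous_fst) ?_
      rw [continuous_prod_of_discrete_right]
      intro s
      exact continuous_pi fun j => (continuous_apply (s j)).comp hρc
  exact hE.to_isEvenlyCovered_preimage

theorem roots_simply {Y : Type} [TopologicalSpace Y] [SimplyConnectedSpace Y] [LocallyPathConnectedSpace Y] {n : ℕ}
    {H : Y → (Fin n → ℂ)} (hH : Continuous H) (hd : ∀ y, ∃ r, IsRoots r (H y) ∧ Function.Injective r) :
    ∃ ρ : Y → (Fin n → ℂ), Continuous ρ ∧ ∀ y, IsRoots (ρ y) (H y) := by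
  have hcov : IsCoveringMap (cpr H) := fun y => cv_even hH hd y
  obtain ⟨y₀⟩ : Nonempty Y := inferInstance
  obtain ⟨r, hr, -⟩ := hd y₀
  obtain ⟨F, ⟨-, hF⟩, -⟩ := hcov.existsUnique_continuousMap_lifts (ContinuousMap.id Y) y₀
    (⟨(y₀, r), hr⟩ : CE H) rfl
  refine ⟨fun y => (F y).1.2, (csd_cont H).comp F.continuous, fun y => ?_⟩
  have h1 : (F y).1.1 = y := congrFun hF y
  have h2 := (F y).2
  rw [h1] at h2
  exact h2

theorem exists_roots_on {k n : ℕ} {U : Set (Fin k → ℂ)} (hU : IsOpen U) {x₀ : Fin k → ℂ} (hx₀ : x₀ ∈ U)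
    (hs : StarConvex ℝ x₀ U) {H : (Fin k → ℂ) → (Fin n → ℂ)} (hH : ContinuousOn H U)
    (hd : ∀ x ∈ U, ∃ r, IsRoots r (H x) ∧ Function.Injective r) :
    ∃ ρ : (Fin k → ℂ) → (Fin n → ℂ), ContinuousOn ρ U ∧ ∀ x ∈ U, IsRoots (ρ x) (H x) := by
  classical
  have hcon : ContractibleSpace U := hs.contractibleSpace ⟨x₀, hx₀⟩
  have hloc : LocallyPathConnectedSpace U := hU.locallyPathConnectedSpace
  obtain ⟨ρ, hρ, hr⟩ := roots_simply (Y := U) (H := fun x : U => H x)
    (continuousOn_iff_continuous_domRestrict.1 hH) (fun x => hd x x.2)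
  refine ⟨fun x => if h : x ∈ U then ρ ⟨x, h⟩ else 0, ?_, fun x hx => ?_⟩
  · rw [continuousOn_iff_continuous_domRestrict]
    refine hρ.congr fun x => ?_
    simp [Set.domRestrict]
  · simp only [dif_pos hx]
    exact hr ⟨x, hx⟩

end Pool.Agent.LR
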