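import Pool.Agent.H60.OC.Root

/-!
# LR Defs: ordered points of the plane, the slit region, the normalised configuration

`XX k` is the set of the `x` with all differences `x_j - x_i` (`i < j`) off the closed negative real axis, `lg x` the sum
of their logarithms, `GG a x` a point of `SG k` (the polynomial with the roots `e^{-(lg x + pi i a) / N} (x_i - mean)`),
`WW s` a star-shaped set on which both `x` and `x ∘ s` lie in `XX k`.
-/

set_option autoImplicit false

noncomputable section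

namespace Pool.Agent.LR

open Pool.Agent.H60.OC (Pr NN nm zc SG MF IsRoots vd poly)

/-- All the differences `x_j - x_i` with `i < j` are off the closed negative real axis. -/
def XX (k : ℕ) : Set (Fin k → ℂ) := {x | ∀ i j : Fin k, i < j → x j - x i ∈ Complex.slitPlane}

/-- The sum of the logarithms of the differences. -/
def lg {k : ℕ} (x : Fin k → ℂ) : ℂ := ∑ p : Pr k, Complex.log (x p.1.2 - x p.1.1)

/-- The number of inversions. -/
def inv {k : ℕ} (σ : Equiv.Perm (Fin k)) : ℤ := ∑ p : Pr k, if σ p.1.2 < σ p.1.1 then 1 else 0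

/-- The normalised configuration: sum `0`, `prod_(i<j) (x_i - x_j)^2 = 1`. -/
def nrm {k : ℕ} (a : ℤ) (x : Fin k → ℂ) : Fin k → ℂ :=
  nm x (Complex.exp ((lg x + (Real.pi : ℂ) * Complex.I * (a : ℂ)) / (NN k : ℂ)))

/-- The corresponding point of `SG k`. -/
def GG {k : ℕ} (a : ℤ) (x : Fin k → ℂ) : Fin k → ℂ := zc (nrm a x)

/-- Configurations `x` for which both `x` and `x ∘ σ` are in `XX k`. -/
def WW {k : ℕ} (σ : Equiv.Perm (Fin k)) : Set (Fin k → ℂ) :=
  {x | ∀ i j : Fin k, i < j → ((x i).re < (x j).re ∨ (x i).im < (x j).im) ∧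
    (σ.symm j < σ.symm i → (x i).im < (x j).im)}

/-- The transposition of `i` and `i + 1` (`1` if `k ≤ i + 1`). -/
def sw {k : ℕ} (i : ℕ) : Equiv.Perm (Fin k) := if h : i + 1 < k then Equiv.swap ⟨i, by omega⟩ ⟨i + 1, h⟩ else 1

/-- The abstract system: a length function `d` and group elements `S π a`. -/
structure Sys {k : ℕ} {G : Type} [Group G] (d : Equiv.Perm (Fin k) → ℤ) (S : Equiv.Perm (Fin k) → ℤ → G) : Prop where
  d_one : d 1 = 0
  S_one : ∀ a, S 1 a = 1
  d_sw : ∀ i, i + 1 < k → d (sw i) = 1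
  d_mul : ∀ (π : Equiv.Perm (Fin k)) (i : ℕ) (hi : i + 1 < k), π ⟨i, by omega⟩ < π ⟨i + 1, hi⟩ → d (π * sw i) = d π + 1
  S_mul : ∀ (π : Equiv.Perm (Fin k)) (i : ℕ) (hi : i + 1 < k), π ⟨i, by omega⟩ < π ⟨i + 1, hi⟩ →
    ∀ a, S (π * sw i) a = S (sw i) (a + d π) * S π a

end Pool.Agent.LR
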