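import Pool.Agent.LR.EBase

/-!
# LR EAnM: the root functions are analytic functions of several variables

`x ↦ GG a x` is analytic on `XX k` in the sense of several variables: `lg` is a sum of logarithms of functions `x j - x i` (continuous linear) with
values in the slit plane (`AnalyticAt.clog`), then as in `EBase_GG_an` (`EBase.lean`), `zc`: the coefficients of `∏ (X - x_i)` are polynomials in the `x_i` (the
induction in `OC.coeff_an`, `H60/OC/RootAna.lean`, works for any analytic `γ : E → (Fin k → ℂ)`).  `f (GG a x)` is analytic: `HoloOn` gives near a point of `SG k` an analytic `g` with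
`f = g` on `SG k` near the point, `GG a x ∈ SG k` (`GG_mem`), `XX k` open (see `EBase_f_an`).

`ρ a x α` is a continuous simple root of the monic polynomial with coefficients `f (GG a x)`: implicit function theorem.  For instance: `Φ (x, t) = (x, P_x t)` on
`(Fin k → ℂ) × ℂ`, `P_x t = t^n + ∑ i, f (GG a x) i * t^(n-1-i)` (`poly`), is analytic near `(x₀, ρ a x₀ α)` with strict derivative
`(v, s) ↦ (v, D_x v + P'(ρ) s)`, invertible as `P' (ρ a x₀ α) = ∏_(β ≠ α) (ρ_α - ρ_β) ≠ 0`; so it is a local homeomorphism with analytic inverse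
(`HasStrictFDerivAt.toOpenPartialHomeomorph`, `OpenPartialHomeomorph.analyticAt_symm`), and by continuity `(x, ρ a x α) = Φ⁻¹ (x, 0)` for `x` near `x₀`.
(Alternatively: `x ↦ ρ a x α` is strictly differentiable at every point by the implicit function theorem with a strict derivative, and then analytic
by any form of Osgood's lemma.)
-/

set_option autoImplicit false

open Topology Filter

noncomputable section

namespace Pool.Agent.LR

open Pool.Agent.H60.OC (Pr NN nm zc SG MF IsRoots vd poly HoloOn)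

variable {k n : ℕ} {f : (Fin k → ℂ) → (Fin n → ℂ)} {ρ : ℤ → (Fin k → ℂ) → (Fin n → ℂ)}
  {θ : ℕ → Equiv.Perm (Fin n)} {z : Equiv.Perm (Fin n)}

private theorem EAnM_coeff {x₀ : Fin k → ℂ} {γ : (Fin k → ℂ) → (Fin k → ℂ)} (hγ : AnalyticAt ℂ γ x₀)
    (s : Finset (Fin k)) (m : ℕ) :
    AnalyticAt ℂ (fun w => (∏ j ∈ s, (Polynomial.X - Polynomial.C (γ w j)) : Polynomial ℂ).coeff m) x₀ := by
  classical
  have hγj : ∀ j, AnalyticAt ℂ (fun w => γ w j) x₀ := fun j => analyticAt_pi_iff.1 hγ j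
  induction s using Finset.induction_on generalizing m with
  | empty =>
    simp only [Finset.prod_empty]
    exact analyticAt_const
  | insert i s hi ih =>
    simp only [Finset.prod_insert hi, sub_mul, Polynomial.coeff_sub, Polynomial.coeff_C_mul]
    refine AnalyticAt.fun_sub ?_ ((hγj i).fun_mul (ih m))
    cases m with
    | zero =>
      simp only [Polynomial.coeff_X_mul_zero]
      exact analyticAt_const
    | succ m =>
      simp only [Polynomial.coeff_X_mul]
      exact ih m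

private theorem EAnM_zc {x₀ : Fin k → ℂ} {γ : (Fin k → ℂ) → (Fin k → ℂ)} (hγ : AnalyticAt ℂ γ x₀) :
    AnalyticAt ℂ (fun w => zc (γ w)) x₀ :=
  analyticAt_pi_iff.2 fun i => EAnM_coeff hγ Finset.univ (k - 1 - (i : ℕ))

private theorem EAnM_coord (x₀ : Fin k → ℂ) (j : Fin k) : AnalyticAt ℂ (fun x : Fin k → ℂ => x j) x₀ :=
  analyticAt_pi_iff.1 analyticAt_id j

private theorem EAnM_lg {x₀ : Fin k → ℂ} (hx : x₀ ∈ XX k) : AnalyticAt ℂ (fun x : Fin k → ℂ => lg x) x₀ := by
  unfold lg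
  refine Finset.analyticAt_fun_sum _ fun p _ => ?_
  exact ((EAnM_coord x₀ p.1.2).fun_sub (EAnM_coord x₀ p.1.1)).clog (hx _ _ p.2)

private theorem EAnM_GG (a : ℤ) {x₀ : Fin k → ℂ} (hx : x₀ ∈ XX k) :
    AnalyticAt ℂ (fun x : Fin k → ℂ => GG a x) x₀ := by
  have hl := EAnM_lg hx
  unfold GG
  refine EAnM_zc ?_
  refine analyticAt_pi_iff.2 fun i => ?_
  have h1 : AnalyticAt ℂ (fun x : Fin k → ℂ =>
      Complex.exp ((lg x + (Real.pi : ℂ) * Complex.I * (a : ℂ)) / (NN k : ℂ))) x₀ :=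
    ((hl.fun_add analyticAt_const).fun_mul (analyticAt_const (v := ((NN k : ℂ))⁻¹))).cexp
  have h2 : AnalyticAt ℂ (fun x : Fin k → ℂ => x i - (∑ j, x j) / (k : ℂ)) x₀ :=
    (EAnM_coord x₀ i).fun_sub ((Finset.analyticAt_fun_sum _ fun j _ => EAnM_coord x₀ j).fun_mul
      (analyticAt_const (v := ((k : ℂ))⁻¹)))
  exact h2.fun_div h1 (Complex.exp_ne_zero _)

private theorem EAnM_f {g : (Fin k → ℂ) → (Fin n → ℂ)} (hf : HoloOn (SG k) g) {γ : (Fin k → ℂ) → (Fin k → ℂ)}
    {x₀ : Fin k → ℂ} (hz : AnalyticAt ℂ γ x₀) (hmem : ∀ᶠ x in 𝓝 x₀, γ x ∈ SG k) :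
    AnalyticAt ℂ (fun x => g (γ x)) x₀ := by
  obtain ⟨g', hg, hfg⟩ := hf _ hmem.self_of_nhds
  have h1 : Tendsto γ (𝓝 x₀) (𝓝[SG k] (γ x₀)) := tendsto_nhdsWithin_iff.2 ⟨hz.continuousAt, hmem⟩
  have h2 : AnalyticAt ℂ (fun x => g' (γ x)) x₀ := AnalyticAt.comp_of_eq hg hz rfl
  refine h2.congr ?_
  filter_upwards [h1.eventually hfg] with w hw using hw.symm

/-- continuous simple roots are analytic (several variables) -/
theorem EAnM_root {E : Type*} [NormedAddCommGroup E] [NormedSpace ℂ E] [CompleteSpace E]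
    {c r : E → (Fin n → ℂ)} {x₀ : E} (hc : AnalyticAt ℂ c x₀) (hr : ContinuousAt r x₀)
    (hroot : ∀ᶠ x in 𝓝 x₀, IsRoots (r x) (c x)) (hi : Function.Injective (r x₀)) (i : Fin n) :
    AnalyticAt ℂ (fun x => r x i) x₀ := by
  classical
  have hcj : ∀ j, AnalyticAt ℂ (fun x => c x j) x₀ := fun j => analyticAt_pi_iff.1 hc j
  set t₀ := r x₀ i with ht₀
  -- the equation
  set F : E × ℂ → ℂ := fun q => (poly (c q.1)).eval q.2 with hF
  have hFeq : F = fun q => q.2 ^ n + ∑ j : Fin n, c q.1 j * q.2 ^ (n - 1 - (j : ℕ)) := by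
    funext q
    simp only [hF, poly, Polynomial.eval_add, Polynomial.eval_pow, Polynomial.eval_X,
      Polynomial.eval_finsetSum, Polynomial.eval_mul, Polynomial.eval_C]
  have hsnd : AnalyticAt ℂ (fun q : E × ℂ => q.2) (x₀, t₀) := analyticAt_snd
  have hfst : AnalyticAt ℂ (fun q : E × ℂ => q.1) (x₀, t₀) := analyticAt_fst
  have hFan : AnalyticAt ℂ F (x₀, t₀) := by
    rw [hFeq]
    refine (hsnd.fun_pow n).fun_add (Finset.analyticAt_fun_sum _ fun j _ => ?_)
    refine AnalyticAt.fun_mul ?_ (hsnd.fun_pow _)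
    exact AnalyticAt.comp_of_eq (g := fun x => c x j) (hcj j) hfst rfl
  -- the derivative
  set A : E × ℂ →L[ℂ] ℂ := fderiv ℂ F (x₀, t₀) with hA
  have hFd : HasStrictFDerivAt F A (x₀, t₀) := hFan.hasStrictFDerivAt
  have hA1 : A (0, 1) ≠ 0 := by
    have h1 : HasDerivAt (fun t : ℂ => F (x₀, t)) (A (0, 1)) t₀ := by
      have h2 : HasDerivAt (fun t : ℂ => (x₀, t)) ((0 : E), (1 : ℂ)) t₀ :=
        (hasDerivAt_const t₀ x₀).prodMk (hasDerivAt_id t₀)
      exact hFd.hasFDerivAt.comp_hasDerivAt t₀ h2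
    have hroot₀ : poly (c x₀) = ∏ j, (Polynomial.X - Polynomial.C (r x₀ j)) := hroot.self_of_nhds
    have h3 : HasDerivAt (fun t : ℂ => F (x₀, t)) ((poly (c x₀)).derivative.eval t₀) t₀ :=
      (poly (c x₀)).hasDerivAt t₀
    rw [h1.unique h3, hroot₀, ← Finset.mul_prod_erase Finset.univ _ (Finset.mem_univ i)]
    rw [Polynomial.derivative_mul]
    simp only [Polynomial.derivative_sub, Polynomial.derivative_X, Polynomial.derivative_C, sub_zero, one_mul,
      Polynomial.eval_add, Polynomial.eval_mul, Polynomial.eval_sub, Polynomial.eval_X, Polynomial.eval_C]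
    rw [← ht₀, sub_self, zero_mul, add_zero, Polynomial.eval_prod]
    refine Finset.prod_ne_zero_iff.2 fun j hj => ?_
    simp only [Polynomial.eval_sub, Polynomial.eval_X, Polynomial.eval_C]
    exact sub_ne_zero.2 fun h => (Finset.ne_of_mem_erase hj) (hi h).symm
  -- the map
  set Φ : E × ℂ → E × ℂ := fun q => (q.1, F q) with hΦ
  have hΦan : AnalyticAt ℂ Φ (x₀, t₀) := hfst.prod hFan
  set B : E →L[ℂ] ℂ := A.comp (ContinuousLinearMap.inl ℂ E ℂ) with hB
  have hAB : ∀ q : E × ℂ, A q = B q.1 + q.2 * A (0, 1) := by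
    intro q
    have h1 : q = (q.1, (0 : ℂ)) + q.2 • ((0 : E), (1 : ℂ)) := by
      ext <;> simp
    conv_lhs => rw [h1, map_add, map_smul]
    rfl
  set T : (E × ℂ) →L[ℂ] (E × ℂ) := (ContinuousLinearMap.fst ℂ E ℂ).prod A with hT
  set T' : (E × ℂ) →L[ℂ] (E × ℂ) := (ContinuousLinearMap.fst ℂ E ℂ).prod
    ((A (0, 1))⁻¹ • (ContinuousLinearMap.snd ℂ E ℂ - B.comp (ContinuousLinearMap.fst ℂ E ℂ))) with hT'
  have hl : Function.LeftInverse T' T := by
    intro q
    ext
    · simp [hT, hT']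
    · simp only [hT, hT', ContinuousLinearMap.prod_apply, ContinuousLinearMap.coe_fst', ContinuousLinearMap.smul_apply,
        ContinuousLinearMap.sub_apply, ContinuousLinearMap.coe_snd', ContinuousLinearMap.comp_apply, smul_eq_mul]
      rw [hAB q]
      field_simp
      ring
  have hrr : Function.RightInverse T' T := by
    intro q
    ext
    · simp [hT, hT']
    · simp only [hT, hT', ContinuousLinearMap.prod_apply, ContinuousLinearMap.coe_fst', ContinuousLinearMap.smul_apply,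
        ContinuousLinearMap.sub_apply, ContinuousLinearMap.coe_snd', ContinuousLinearMap.comp_apply, smul_eq_mul]
      rw [hAB]
      field_simp
      ring
  set e : (E × ℂ) ≃L[ℂ] (E × ℂ) := ContinuousLinearEquiv.equivOfInverse T T' hl hrr with he
  have heT : (e : (E × ℂ) →L[ℂ] (E × ℂ)) = T := rfl
  have hΦd : HasStrictFDerivAt Φ (e : (E × ℂ) →L[ℂ] (E × ℂ)) (x₀, t₀) := by
    rw [heT]
    exact hasStrictFDerivAt_fst.prodMk hFd
  set o := hΦd.toOpenPartialHomeomorph Φ with ho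
  have hoΦ : (o : E × ℂ → E × ℂ) = Φ := hΦd.toOpenPartialHomeomorph_coe
  have hsrc : (x₀, t₀) ∈ o.source := hΦd.mem_toOpenPartialHomeomorph_source
  have hsymm : AnalyticAt ℂ o.symm (o (x₀, t₀)) := by
    refine o.analyticAt_symm' (i := e) hsrc (by rw [hoΦ]; exact hΦan) ?_
    rw [hoΦ]
    exact hΦd.hasFDerivAt.fderiv
  have hval : ∀ᶠ x in 𝓝 x₀, F (x, r x i) = 0 := by
    filter_upwards [hroot] with x hx
    exact Pool.Agent.H60.OC.roots_eval hx i
  have ho0 : o (x₀, t₀) = (x₀, 0) := by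
    rw [hoΦ]
    exact Prod.ext rfl hval.self_of_nhds
  rw [ho0] at hsymm
  have hpair : AnalyticAt ℂ (fun x : E => (x, (0 : ℂ))) x₀ := analyticAt_id.prod analyticAt_const
  have hcomp : AnalyticAt ℂ (fun x : E => (o.symm (x, (0 : ℂ))).2) x₀ := by
    have h1 : AnalyticAt ℂ (fun x : E => o.symm (x, (0 : ℂ))) x₀ := AnalyticAt.comp_of_eq hsymm hpair rfl
    exact AnalyticAt.comp_of_eq (g := fun q : E × ℂ => q.2) analyticAt_snd h1 rfl
  refine hcomp.congr ?_
  have hcont : ContinuousAt (fun x => (x, r x i)) x₀ :=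
    continuousAt_id.prodMk ((continuousAt_pi.1 hr) i)
  have hev : ∀ᶠ x in 𝓝 x₀, (x, r x i) ∈ o.source :=
    hcont.eventually_mem (o.open_source.mem_nhds hsrc)
  filter_upwards [hev, hval] with x hx h0
  have h2 : o.symm (o (x, r x i)) = (x, r x i) := o.left_inv hx
  have h3 : o (x, r x i) = (x, 0) := by
    rw [hoΦ]
    exact Prod.ext rfl h0
  rw [h3] at h2
  rw [h2]

theorem Cx.anM (h : Cx k n f ρ θ z) (a : ℤ) (α : Fin n) : AnalyticOnNhd ℂ (fun x => ρ a x α) (XX k) := by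
  intro x₀ hx₀
  have hk := h.hk
  have hnear : ∀ᶠ x in 𝓝 x₀, x ∈ XX k := (XX_open k).mem_nhds hx₀
  have h1 : AnalyticAt ℂ (fun x => f (GG a x)) x₀ := by
    refine EAnM_f h.hol (EAnM_GG a hx₀) ?_
    filter_upwards [hnear] with w hw using GG_mem (by omega) a hw
  refine EAnM_root h1 ((h.cont a).continuousAt ((XX_open k).mem_nhds hx₀)) ?_ (h.inj a hx₀) α
  filter_upwards [hnear] with x hx using h.root a x hx

theorem Cx.VV_anM (h : Cx k n f ρ θ z) (a : ℤ) (p : Tr n) : AnalyticOnNhd ℂ (fun x => VV (ρ a x) p) (XX k) := by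
  intro x₀ hx₀
  unfold VV
  exact ((h.anM a p.1.1 x₀ hx₀).fun_sub (h.anM a p.1.2.1 x₀ hx₀)).fun_div
    ((h.anM a p.1.1 x₀ hx₀).fun_sub (h.anM a p.1.2.2 x₀ hx₀)) (sub_ne_zero.2 ((h.inj a hx₀).ne p.2.2.1))

end Pool.Agent.LR
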