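import Pool.Agent.LR.EDefs

/-!
# LR EDep: identity theorems on `XX k`, independence of coordinates

`open_id`: `XX k` is open and star-convex, so preconnected.

`real_id`: near the base point `(0, 1, .., k-1)`, `x = ξ + i η`; the function `t ↦ F (ξ + t η)` is analytic on the disc `|t| < 3` and zero for real `t`, so
zero (identity theorem), `t = i`: `F x = 0`; then `open_id`.

`dep`: `v_j = max 0 (j - C + 1)`; along the three segments `x → x + t v → x' + t v → x'` (`t` large) the derivative of `F` is `0`.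
-/

set_option autoImplicit false

open Topology Filter

noncomputable section

namespace Pool.Agent.LR

theorem EDep_preconn (k : ℕ) : IsPreconnected (XX k) :=
  ((XX_star k).isPathConnected (XX_base k)).isConnected.isPreconnected

theorem open_id {k : ℕ} {F : (Fin k → ℂ) → ℂ} (hF : AnalyticOnNhd ℂ F (XX k)) {O : Set (Fin k → ℂ)} (hO : IsOpen O)
    (hne : (O ∩ XX k).Nonempty) (h0 : ∀ x ∈ O ∩ XX k, F x = 0) : ∀ x ∈ XX k, F x = 0 := by
  obtain ⟨z, hz⟩ := hne
  have h := hF.eqOn_zero_of_preconnected_of_eventuallyEq_zero (EDep_preconn k) hz.2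
    (Filter.eventually_of_mem ((hO.inter (XX_open k)).mem_nhds hz) (fun x hx => h0 x hx))
  exact fun x hx => h hx

theorem real_id {k : ℕ} {F : (Fin k → ℂ) → ℂ} (hF : AnalyticOnNhd ℂ F (XX k))
    (h0 : ∀ x : Fin k → ℝ, StrictMono x → F (fun i => (x i : ℂ)) = 0) : ∀ x ∈ XX k, F x = 0 := by
  -- points close to the base point are in `XX k`
  have hnear : ∀ x : Fin k → ℂ, (∀ i, ‖x i - ((i : ℕ) : ℂ)‖ < 1 / 2) → x ∈ XX k := by
    intro x hx i j hij
    rw [Complex.mem_slitPlane_iff]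
    left
    have h1 : ((i : ℕ) : ℝ) + 1 ≤ ((j : ℕ) : ℝ) := by exact_mod_cast hij
    have h2 := (abs_lt.1 ((Complex.abs_re_le_norm _).trans_lt (hx i))).2
    have h3 := (abs_lt.1 ((Complex.abs_re_le_norm _).trans_lt (hx j))).1
    simp only [Complex.sub_re, Complex.natCast_re] at h2 h3 ⊢
    linarith
  set O : Set (Fin k → ℂ) := {x | ∀ i, ‖x i - ((i : ℕ) : ℂ)‖ < 1 / 8} with hOdef
  have hO : IsOpen O := by
    have : O = ⋂ i, {x : Fin k → ℂ | ‖x i - ((i : ℕ) : ℂ)‖ < 1 / 8} := by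
      ext x
      simp [hOdef]
    rw [this]
    exact isOpen_iInter_of_finite fun i =>
      isOpen_lt (((continuous_apply i).sub continuous_const).norm) continuous_const
  refine open_id hF hO ⟨fun i : Fin k => ((i : ℕ) : ℂ), fun i => by simp, XX_base k⟩ ?_
  rintro x ⟨hxO, hx⟩
  set ξ : Fin k → ℝ := fun i => (x i).re with hξ
  set η : Fin k → ℝ := fun i => (x i).im with hη
  have hb1 : ∀ i, |ξ i - ((i : ℕ) : ℝ)| < 1 / 8 := by
    intro i
    have := (Complex.abs_re_le_norm (x i - ((i : ℕ) : ℂ))).trans_lt (hxO i)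
    simpa [hξ] using this
  have hb2 : ∀ i, |η i| < 1 / 8 := by
    intro i
    have := (Complex.abs_im_le_norm (x i - ((i : ℕ) : ℂ))).trans_lt (hxO i)
    simpa [hη] using this
  set γ : ℂ → (Fin k → ℂ) := fun t i => (ξ i : ℂ) + t * (η i : ℂ) with hγ
  have hmem : ∀ t : ℂ, ‖t‖ < 3 → γ t ∈ XX k := by
    intro t ht
    apply hnear
    intro i
    have e1 : γ t i - ((i : ℕ) : ℂ) = ((ξ i - ((i : ℕ) : ℝ) : ℝ) : ℂ) + t * (η i : ℂ) := by
      simp only [hγ]
      push_cast
      ring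
    rw [e1]
    refine (norm_add_le _ _).trans_lt ?_
    rw [norm_mul, Complex.norm_real, Complex.norm_real, Real.norm_eq_abs, Real.norm_eq_abs]
    have h1 := hb1 i
    have h2 := hb2 i
    have h3 : ‖t‖ * |η i| ≤ 3 * (1 / 8) := mul_le_mul ht.le h2.le (abs_nonneg _) (by norm_num)
    linarith
  have hγd : Differentiable ℂ γ := by
    rw [differentiable_pi]
    intro i
    exact (differentiable_const _).add (differentiable_id.mul (differentiable_const _))
  have hg : AnalyticOnNhd ℂ (fun t => F (γ t)) (Metric.ball 0 3) := by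
    refine DifferentiableOn.analyticOnNhd ?_ Metric.isOpen_ball
    intro t ht
    have ht' : ‖t‖ < 3 := by simpa using ht
    exact ((hF _ (hmem t ht')).differentiableAt.comp t (hγd t)).differentiableWithinAt
  have hreal : ∀ t : ℝ, |t| < 3 → F (γ (t : ℂ)) = 0 := by
    intro t ht
    have h1 := h0 (fun i => ξ i + t * η i) (by
      intro i j hij
      have h1 : ((i : ℕ) : ℝ) + 1 ≤ ((j : ℕ) : ℝ) := by exact_mod_cast hij
      have hi1 := (abs_lt.1 (hb1 i)).2
      have hj1 := (abs_lt.1 (hb1 j)).1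
      have hi2 : |t * η i| ≤ 3 * (1 / 8) := by
        rw [abs_mul]
        exact mul_le_mul ht.le (hb2 i).le (abs_nonneg _) (by norm_num)
      have hj2 : |t * η j| ≤ 3 * (1 / 8) := by
        rw [abs_mul]
        exact mul_le_mul ht.le (hb2 j).le (abs_nonneg _) (by norm_num)
      have hi3 := (abs_le.1 hi2).2
      have hj3 := (abs_le.1 hj2).1
      show ξ i + t * η i < ξ j + t * η j
      linarith)
    have h2 : γ (t : ℂ) = fun i => ((ξ i + t * η i : ℝ) : ℂ) := by
      funext i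
      simp only [hγ]
      push_cast
      ring
    rw [h2]
    exact h1
  have hfreq : ∃ᶠ t in 𝓝[≠] (0 : ℂ), F (γ t) = 0 := by
    rw [frequently_nhdsWithin_iff]
    rw [Metric.nhds_basis_ball.frequently_iff]
    intro ε hε
    refine ⟨((min (ε / 2) 1 : ℝ) : ℂ), ?_, ?_, ?_⟩
    · rw [Metric.mem_ball, dist_zero_right, Complex.norm_real, Real.norm_eq_abs, abs_of_pos (by positivity)]
      exact (min_le_left _ _).trans_lt (by linarith)
    · apply hreal
      rw [abs_of_pos (by positivity)]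
      exact (min_le_right _ _).trans_lt (by norm_num)
    · have h3 : (0 : ℝ) < min (ε / 2) 1 := by positivity
      simp only [Set.mem_compl_iff, Set.mem_singleton_iff]
      exact_mod_cast h3.ne'
  have hz := hg.eqOn_zero_of_preconnected_of_frequently_eq_zero
    (convex_ball (0 : ℂ) 3).isPreconnected (by simp) hfreq
  have hI : (Complex.I : ℂ) ∈ Metric.ball (0 : ℂ) 3 := by
    rw [Metric.mem_ball, dist_zero_right, Complex.norm_I]
    norm_num
  have h4 := hz hI
  have h5 : γ Complex.I = x := by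
    funext i
    simp only [hγ, hξ, hη]
    rw [mul_comm]
    exact Complex.re_add_im (x i)
  have h6 : F (γ Complex.I) = 0 := h4
  rwa [h5] at h6

theorem EDep_seg {k C : ℕ} {F : (Fin k → ℂ) → ℂ} (hF : AnalyticOnNhd ℂ F (XX k))
    (hD : ∀ j : Fin k, C ≤ (j : ℕ) → ∀ x ∈ XX k, fderiv ℂ F x (Pi.single j 1) = 0) (y y' : Fin k → ℂ)
    (he : ∀ i : Fin k, (i : ℕ) < C → y i = y' i)
    (hs : ∀ s : ℝ, 0 ≤ s → s ≤ 1 → (fun i => y i + (s : ℂ) * (y' i - y i)) ∈ XX k) : F y = F y' := by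
  set γ : ℝ → (Fin k → ℂ) := fun s i => y i + (s : ℂ) * (y' i - y i) with hγ
  have hγd : ∀ s : ℝ, HasDerivAt γ (fun i => y' i - y i) s := by
    intro s
    rw [hasDerivAt_pi]
    intro i
    have h1 : HasDerivAt (fun s : ℝ => (s : ℂ)) 1 s := Complex.ofRealCLM.hasDerivAt
    have h2 := (h1.mul_const (y' i - y i)).const_add (y i)
    rw [one_mul] at h2
    exact h2
  have hzero : ∀ p ∈ XX k, fderiv ℂ F p (fun i => y' i - y i) = 0 := by
    intro p hp
    have h1 : (fun i => y' i - y i) = ∑ j : Fin k, (y' j - y j) • (Pi.single j (1 : ℂ) : Fin k → ℂ) := by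
      funext i
      rw [Finset.sum_apply]
      simp [Pi.single_apply]
    rw [h1, map_sum]
    refine Finset.sum_eq_zero fun j _ => ?_
    rw [map_smul]
    by_cases hj : (j : ℕ) < C
    · rw [he j hj, sub_self, zero_smul]
    · rw [hD j (not_lt.1 hj) p hp, smul_zero]
  have hd : ∀ s : ℝ, 0 ≤ s → s ≤ 1 → HasDerivAt (fun s => F (γ s)) 0 s := by
    intro s h1 h2
    have hp := hs s h1 h2
    have h3 : HasFDerivAt F ((fderiv ℂ F (γ s)).restrictScalars ℝ) (γ s) :=
      ((hF _ hp).differentiableAt.hasFDerivAt).restrictScalars ℝ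
    have h4 := h3.comp_hasDerivAt s (hγd s)
    have h5 : ((fderiv ℂ F (γ s)).restrictScalars ℝ) (fun i => y' i - y i) = 0 := hzero _ hp
    rw [h5] at h4
    exact h4
  have hc := constant_of_has_deriv_right_zero (f := fun s => F (γ s)) (a := 0) (b := 1)
    (fun s hs' => (hd s hs'.1 hs'.2).continuousAt.continuousWithinAt)
    (fun s hs' => (hd s hs'.1 hs'.2.le).hasDerivWithinAt) 1 (by simp)
  have e0 : γ 0 = y := by
    funext i
    simp [hγ]
  have e1 : γ 1 = y' := by
    funext i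
    simp [hγ]
  have hc' : F (γ 1) = F (γ 0) := hc
  rw [e0, e1] at hc'
  exact hc'.symm

theorem EDep_slit_add {z : ℂ} (hz : z ∈ Complex.slitPlane) {r : ℝ} (hr : 0 ≤ r) : z + (r : ℂ) ∈ Complex.slitPlane := by
  rw [Complex.mem_slitPlane_iff] at hz ⊢
  rcases hz with h | h
  · left
    simp only [Complex.add_re, Complex.ofReal_re]
    linarith
  · right
    simpa using h

theorem dep {k C : ℕ} {F : (Fin k → ℂ) → ℂ} (hF : AnalyticOnNhd ℂ F (XX k))
    (hD : ∀ j : Fin k, C ≤ (j : ℕ) → ∀ x ∈ XX k, fderiv ℂ F x (Pi.single j 1) = 0) {x x' : Fin k → ℂ} (hx : x ∈ XX k)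
    (hx' : x' ∈ XX k) (he : ∀ i : Fin k, (i : ℕ) < C → x i = x' i) : F x = F x' := by
  set v : Fin k → ℝ := fun j => max 0 (((j : ℕ) : ℝ) - C + 1) with hv
  have hv0 : ∀ j : Fin k, (j : ℕ) < C → v j = 0 := by
    intro j hj
    have : ((j : ℕ) : ℝ) + 1 ≤ C := by exact_mod_cast hj
    simp only [hv]
    exact max_eq_left (by linarith)
  have hvmono : ∀ i j : Fin k, i < j → v i ≤ v j := by
    intro i j hij
    have h1 : ((i : ℕ) : ℝ) ≤ ((j : ℕ) : ℝ) := by exact_mod_cast hij.le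
    simp only [hv]
    exact max_le_max le_rfl (by linarith)
  have hv1 : ∀ i j : Fin k, i < j → C ≤ (j : ℕ) → v i + 1 ≤ v j := by
    intro i j hij hj
    have h1 : ((i : ℕ) : ℝ) + 1 ≤ ((j : ℕ) : ℝ) := by exact_mod_cast hij
    have h2 : (C : ℝ) ≤ ((j : ℕ) : ℝ) := by exact_mod_cast hj
    have h3 : v j = ((j : ℕ) : ℝ) - C + 1 := by
      simp only [hv]
      exact max_eq_right (by linarith)
    rw [h3]
    simp only [hv]
    rcases max_cases 0 (((i : ℕ) : ℝ) - C + 1) with h | h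
    · rw [h.1]; linarith
    · rw [h.1]; linarith
  set T : ℝ := 1 + ∑ i, ‖x i‖ + ∑ i, ‖x' i‖ with hT
  have hTpos : 0 ≤ T := by positivity
  have hre : ∀ (w : Fin k → ℂ) (i j : Fin k), i ≠ j → |(w j - w i).re| ≤ ∑ l, ‖w l‖ := by
    intro w i j hij
    refine (Complex.abs_re_le_norm _).trans ((norm_sub_le _ _).trans ?_)
    rw [← Finset.sum_pair hij.symm (f := fun l => ‖w l‖)]
    exact Finset.sum_le_sum_of_subset_of_nonneg (Finset.subset_univ _) (fun _ _ _ => norm_nonneg _)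
  have hpos : ∀ w : Fin k → ℂ, (w = x ∨ w = x') → ∀ i j : Fin k, i < j → C ≤ (j : ℕ) →
      0 < (w j - w i).re + T * (v j - v i) := by
    intro w hw i j hij hj
    have h1 := hre w i j hij.ne
    have h2 : ∑ l, ‖w l‖ ≤ T - 1 := by
      have ha : 0 ≤ ∑ l, ‖x l‖ := Finset.sum_nonneg fun _ _ => norm_nonneg _
      have hb : 0 ≤ ∑ l, ‖x' l‖ := Finset.sum_nonneg fun _ _ => norm_nonneg _
      rcases hw with rfl | rfl <;> simp only [hT] <;> linarith
    have h3 := (abs_le.1 h1).1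
    have h4 : T * 1 ≤ T * (v j - v i) := mul_le_mul_of_nonneg_left (by linarith [hv1 i j hij hj]) hTpos
    linarith
  -- first and third segment
  have hseg1 : ∀ w : Fin k → ℂ, w ∈ XX k → F w = F (fun i => w i + ((T * v i : ℝ) : ℂ)) := by
    intro w hw
    refine EDep_seg hF hD _ _ (fun i hi => by simp [hv0 i hi]) ?_
    intro s hs0 hs1 i j hij
    have h1 := EDep_slit_add (hw i j hij) (r := s * (T * (v j - v i)))
      (mul_nonneg hs0 (mul_nonneg hTpos (by linarith [hvmono i j hij])))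
    have h2 : (w j + (s : ℂ) * (w j + ((T * v j : ℝ) : ℂ) - w j)) - (w i + (s : ℂ) * (w i + ((T * v i : ℝ) : ℂ) - w i)) =
        w j - w i + ((s * (T * (v j - v i)) : ℝ) : ℂ) := by
      push_cast
      ring
    show (w j + (s : ℂ) * (w j + ((T * v j : ℝ) : ℂ) - w j)) - (w i + (s : ℂ) * (w i + ((T * v i : ℝ) : ℂ) - w i)) ∈
      Complex.slitPlane
    rw [h2]
    exact h1
  have hseg2 : F (fun i => x i + ((T * v i : ℝ) : ℂ)) = F (fun i => x' i + ((T * v i : ℝ) : ℂ)) := by
    refine EDep_seg hF hD _ _ (fun i hi => by rw [he i hi]) ?_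
    intro s hs0 hs1 i j hij
    show (x j + ((T * v j : ℝ) : ℂ) + (s : ℂ) * (x' j + ((T * v j : ℝ) : ℂ) - (x j + ((T * v j : ℝ) : ℂ)))) -
      (x i + ((T * v i : ℝ) : ℂ) + (s : ℂ) * (x' i + ((T * v i : ℝ) : ℂ) - (x i + ((T * v i : ℝ) : ℂ)))) ∈
      Complex.slitPlane
    by_cases hj : (j : ℕ) < C
    · have hi : (i : ℕ) < C := lt_trans (by exact_mod_cast hij) hj
      have h1 := hx i j hij
      have h2 : (x j + ((T * v j : ℝ) : ℂ) + (s : ℂ) * (x' j + ((T * v j : ℝ) : ℂ) - (x j + ((T * v j : ℝ) : ℂ)))) -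
        (x i + ((T * v i : ℝ) : ℂ) + (s : ℂ) * (x' i + ((T * v i : ℝ) : ℂ) - (x i + ((T * v i : ℝ) : ℂ)))) =
          x j - x i := by
        rw [he i hi, he j hj, hv0 i hi, hv0 j hj]
        push_cast
        ring
      rw [h2]
      exact h1
    · have hp1 := hpos x (Or.inl rfl) i j hij (not_lt.1 hj)
      have hp2 := hpos x' (Or.inr rfl) i j hij (not_lt.1 hj)
      rw [Complex.mem_slitPlane_iff]
      left
      have h2 : ((x j + ((T * v j : ℝ) : ℂ) + (s : ℂ) * (x' j + ((T * v j : ℝ) : ℂ) - (x j + ((T * v j : ℝ) : ℂ)))) -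
        (x i + ((T * v i : ℝ) : ℂ) + (s : ℂ) * (x' i + ((T * v i : ℝ) : ℂ) - (x i + ((T * v i : ℝ) : ℂ))))).re =
          (1 - s) * ((x j - x i).re + T * (v j - v i)) + s * ((x' j - x' i).re + T * (v j - v i)) := by
        simp only [Complex.sub_re, Complex.add_re, Complex.mul_re, Complex.ofReal_re, Complex.ofReal_im, zero_mul, sub_zero]
        ring
      rw [h2]
      rcases eq_or_lt_of_le hs0 with h | h
      · rw [← h]
        linarith
      · have h3 : 0 ≤ (1 - s) * ((x j - x i).re + T * (v j - v i)) := mul_nonneg (by linarith) hp1.le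
        have h4 : 0 < s * ((x' j - x' i).re + T * (v j - v i)) := mul_pos h hp2
        linarith
  rw [hseg1 x hx, hseg2, ← hseg1 x' hx']

/-- One of two analytic functions with product zero near a point is zero. -/
theorem or_zero {k : ℕ} {F F' : (Fin k → ℂ) → ℂ} (hF : AnalyticOnNhd ℂ F (XX k)) (hF' : AnalyticOnNhd ℂ F' (XX k))
    {O : Set (Fin k → ℂ)} (hO : IsOpen O) (hne : (O ∩ XX k).Nonempty) (h0 : ∀ x ∈ O ∩ XX k, F x = 0 ∨ F' x = 0) :
    (∀ x ∈ XX k, F x = 0) ∨ ∀ x ∈ XX k, F' x = 0 := by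
  have hprod : ∀ x ∈ XX k, F x * F' x = 0 := by
    refine open_id (F := fun x => F x * F' x) (hF.mul hF') hO hne ?_
    intro x hx
    rcases h0 x hx with h | h
    · show F x * F' x = 0
      rw [h, zero_mul]
    · show F x * F' x = 0
      rw [h, mul_zero]
  by_cases hz : ∀ x ∈ XX k, F x = 0
  · exact Or.inl hz
  · right
    push Not at hz
    obtain ⟨x₁, hx₁, hne₁⟩ := hz
    have h1 : ∀ᶠ x in 𝓝 x₁, F x ≠ 0 := (hF x₁ hx₁).continuousAt.eventually_ne hne₁
    obtain ⟨O₁, hO₁, hO₁o, hx₁O⟩ := eventually_nhds_iff.1 h1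
    refine open_id hF' hO₁o ⟨x₁, hx₁O, hx₁⟩ ?_
    intro x hx
    exact (mul_eq_zero.1 (hprod x hx.2)).resolve_left (hO₁ x hx.1)

end Pool.Agent.LR
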