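import Pool.Agent.LR.EConst
import Pool.Agent.LR.EAnM
import Pool.Agent.LR.EDep

/-!
# LR EAlt: constant or invariant

Let `p = (α, β, γ) ∈ TC`, `p^ = (γ, β, α) ∈ TC`: `VV r p^ = 1 - VV r p` (`r` injective).  `Rq_const` at the position `C` (`Aw θ C C = 1`) for `p`, `p^`: on `UU k y C`, with `V w = VV (ρ b (ins y C w)) p`,
`V' w = VV (ρ (b+2) (ins y C w)) (ta g p)`: `V' = l V` and `1 - V' = l^ (1 - V)` (`ta g p^ = (ta g p)^`), so `(l^ - l) V = l^ - 1`: if `l^ = l` then `l = 1`, `V' = V`.  Otherwise `V = v` is constant on `UU k y C`.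

`alt1` (`g = 1`) in the second case: for `Im w < 0` `VV (ρ (b+1) (ins y (C+1) w)) p = V w = v` (`Cx.dn`, `θ C` fixes the components), so on all of `UU k y (C+1)` (identity theorem: analytic, `UU` open and preconnected,
contains the lower half plane); for `Im w > 0` `VV (ρ (b+2) (ins y C w)) p = VV (ρ (b+1) (ins y (C+1) w)) p = v` (`Cx.up`), so on `UU k y C` (identity theorem).
`altT` (`g = TT θ C`): for `Im w > 0` `VV (ρ (b+1) (ins y (C-1) w)) (ta (θ (C-1)) p) = V w = v` (`Cx.up`), so on `UU k y (C-1)`; for `Im w < 0`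
`VV (ρ (b+2) (ins y C w)) (ta (θ (C-1)) (ta (θ (C-1)) p)) = VV (ρ (b+1) (ins y (C-1) w)) (ta (θ (C-1)) p) = v` (`Cx.dn`), so on `UU k y C`.

`fa`: for a real strictly increasing `x : Fin k → ℝ` choose `y` strictly increasing with `y i = x i` (`i < C`), `y i = x (i+1)` (`C ≤ i`, `i + 1 < k`) and `w = x C`: `ins y C w = x` and `w ∈ UU k y C`; so `alt1`, `altT` give the equations
`VV (ρ (b+2) x) p = VV (ρ b x) p`, `VV (ρ (b+2) x) (ta T p) = VV (ρ b x) p` at `x`; the second one and the first one for `ta T p ∈ TC` give `VV (ρ b x) (ta T p) = VV (ρ b x) p`.  On `XX k`: `real_id` (`EDep.lean`), `Cx.VV_anM` (`EAnM.lean`).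
`Gd` for `g = 1`, `g = TT θ C`: `hop_one`, `hop_T`, `tau_Om`, `tau_T`, `Om_T`, `Cx.lgs`, `Lg.bra`, `Cx.bra`, `Cx.zc`.

`T_one`: if `x` is one of `α₀`, `α₁` clear.  Otherwise `p = (α₀, x, α₁) ∈ TC`, `ta T p = (α₀, T x, α₁)`, and `VV r (ta T p) = VV r p` gives `r (T x) = r x` at a point of `XX k`, so `T x = x` (`Cx.inj`).
-/

set_option autoImplicit false

open Topology Filter

noncomputable section

namespace Pool.Agent.LR

open Pool.Agent.H60.OC (Pr NN nm zc SG MF IsRoots vd poly HoloOn)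

variable {k n : ℕ} {f : (Fin k → ℂ) → (Fin n → ℂ)} {ρ : ℤ → (Fin k → ℂ) → (Fin n → ℂ)}
  {θ : ℕ → Equiv.Perm (Fin n)} {z : Equiv.Perm (Fin n)}
  {L : ℤ → Tr n → (Fin k → ℂ) → ℂ} {c : ℕ → ℤ → Tr n → ℤ} {m : ℤ → Tr n → ℤ} {C : ℕ}

/-- The triple with the first and the third component exchanged. -/
def EAlt_hat (p : Tr n) : Tr n := ⟨(p.1.2.2, p.1.2.1, p.1.1), p.2.2.2.symm, p.2.2.1.symm, p.2.1.symm⟩

theorem EAlt_hat_TC {p : Tr n} (hp : p ∈ TC k θ C) : EAlt_hat p ∈ TC k θ C := ⟨hp.2.2, hp.2.1, hp.1⟩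

theorem EAlt_hat_VV {r : Fin n → ℂ} (hr : Function.Injective r) (p : Tr n) :
    VV r (EAlt_hat p) = 1 - VV r p := by
  have h2 : r p.1.1 - r p.1.2.2 ≠ 0 := sub_ne_zero.2 (hr.ne p.2.2.1)
  have h3 : r p.1.2.2 - r p.1.1 ≠ 0 := sub_ne_zero.2 (hr.ne p.2.2.1.symm)
  show (r p.1.2.2 - r p.1.2.1) / (r p.1.2.2 - r p.1.1) = 1 - (r p.1.1 - r p.1.2.1) / (r p.1.1 - r p.1.2.2)
  field_simp
  ring

theorem EAlt_hat_ta (g : Equiv.Perm (Fin n)) (p : Tr n) : ta g (EAlt_hat p) = EAlt_hat (ta g p) := rfl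

theorem EAlt_an (h : Cx k n f ρ θ z) {y : ℕ → ℝ} {j : ℕ} (b : ℤ) (p : Tr n) :
    AnalyticOnNhd ℂ (fun w => VV (ρ b (ins y j w)) p) (UU k y j) :=
  fun w hw => h.VV_an b p (ins_an j w) hw

/-- The identity theorem on `UU`. -/
theorem EAlt_id {y : ℕ → ℝ} (hy : StrictMono y) {j : ℕ} (hj : j < k) {F : ℂ → ℂ}
    (hF : AnalyticOnNhd ℂ F (UU k y j)) {v : ℂ} {O : Set ℂ} (hO : IsOpen O) {w₀ : ℂ} (hw₀ : w₀ ∈ O)
    (hw₁ : w₀ ∈ UU k y j) (h0 : ∀ w ∈ O, F w = v) : ∀ w ∈ UU k y j, F w = v := by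
  have h1 := hF.eqOn_of_preconnected_of_eventuallyEq (g := fun _ => v) analyticOnNhd_const (UU_pre hy hj) hw₁
    (Filter.eventually_of_mem (hO.mem_nhds hw₀) h0)
  exact fun w hw => h1 hw

theorem EAlt_up {y : ℕ → ℝ} (hy : StrictMono y) {j : ℕ} (hj : j < k) {F : ℂ → ℂ}
    (hF : AnalyticOnNhd ℂ F (UU k y j)) {v : ℂ} (h0 : ∀ w : ℂ, 0 < w.im → F w = v) : ∀ w ∈ UU k y j, F w = v :=
  EAlt_id hy hj hF (O := {w : ℂ | 0 < w.im}) (isOpen_lt continuous_const Complex.continuous_im) (w₀ := Complex.I)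
    (by simp) (UU_im hy hj (by simp)) h0

theorem EAlt_dn {y : ℕ → ℝ} (hy : StrictMono y) {j : ℕ} (hj : j < k) {F : ℂ → ℂ}
    (hF : AnalyticOnNhd ℂ F (UU k y j)) {v : ℂ} (h0 : ∀ w : ℂ, w.im < 0 → F w = v) : ∀ w ∈ UU k y j, F w = v :=
  EAlt_id hy hj hF (O := {w : ℂ | w.im < 0}) (isOpen_lt Complex.continuous_im continuous_const) (w₀ := -Complex.I)
    (by simp) (UU_im hy hj (by simp)) h0

/-- Invariant or constant. -/
theorem EAlt_dich (h : Cx k n f ρ θ z) (hL : Lg k n ρ θ z L c m) (hCk : C + 6 ≤ k) {g : Equiv.Perm (Fin n)}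
    (hg : Gd k n θ z c C g) {y : ℕ → ℝ} (hy : StrictMono y) (b : ℤ) {p : Tr n} (hp : p ∈ TC k θ C) :
    (∀ w ∈ UU k y C, VV (ρ (b + 2) (ins y C w)) (ta g p) = VV (ρ b (ins y C w)) p) ∨
      ∃ v : ℂ, ∀ w ∈ UU k y C, VV (ρ b (ins y C w)) p = v := by
  obtain ⟨l, hl⟩ := h.Rq_const hL hCk hg hy (by omega : C < k) b hp
  obtain ⟨l', hl'⟩ := h.Rq_const hL hCk hg hy (by omega : C < k) b (EAlt_hat_TC hp)
  have e1 : ∀ w ∈ UU k y C, VV (ρ (b + 2) (ins y C w)) (ta g p) = l * VV (ρ b (ins y C w)) p := by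
    intro w hw
    have h1 := hl w hw
    unfold Rq at h1
    rw [Aw_ge θ le_rfl] at h1
    exact (div_eq_iff (VV_ne (h.inj b hw) p).1).1 h1
  have e2 : ∀ w ∈ UU k y C, 1 - VV (ρ (b + 2) (ins y C w)) (ta g p) = l' * (1 - VV (ρ b (ins y C w)) p) := by
    intro w hw
    have h1 := hl' w hw
    unfold Rq at h1
    rw [Aw_ge θ le_rfl] at h1
    have h2 := (div_eq_iff (VV_ne (h.inj b hw) (EAlt_hat p)).1).1 h1
    have h3 : VV (ρ (b + 2) (ins y C w)) (EAlt_hat (ta g p)) = l' * VV (ρ b (ins y C w)) (EAlt_hat p) := h2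
    rwa [EAlt_hat_VV (h.inj (b + 2) hw), EAlt_hat_VV (h.inj b hw)] at h3
  by_cases hll : l' = l
  · left
    intro w hw
    have h1 := e1 w hw
    have h2 := e2 w hw
    rw [hll] at h2
    have h3 : l = 1 := by linear_combination (-1 : ℂ) * h1 - h2
    rw [h1, h3, one_mul]
  · right
    refine ⟨(l' - 1) / (l' - l), fun w hw => ?_⟩
    have h1 := e1 w hw
    have h2 := e2 w hw
    rw [eq_div_iff (sub_ne_zero.2 hll)]
    linear_combination h2 + h1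

theorem EAlt_fix {p : Tr n} (hp : p ∈ TC k θ C) (hCk : C + 1 < k) : ta (θ C) p = p := by
  apply Subtype.ext
  show (θ C p.1.1, θ C p.1.2.1, θ C p.1.2.2) = (p.1.1, p.1.2.1, p.1.2.2)
  rw [hp.1 C le_rfl hCk, hp.2.1 C le_rfl hCk, hp.2.2 C le_rfl hCk]

theorem EAlt_Vup (h : Cx k n f ρ θ z) {y : ℕ → ℝ} (hy : StrictMono y) {j : ℕ} (hj : j + 1 < k) (a : ℤ) (q : Tr n)
    {w : ℂ} (hw : 0 < w.im) : VV (ρ (a + 1) (ins y j w)) (ta (θ j) q) = VV (ρ a (ins y (j + 1) w)) q := by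
  rw [VV_ta]
  congr 1
  funext α
  exact h.up hy hj a α hw

theorem EAlt_Vdn (h : Cx k n f ρ θ z) {y : ℕ → ℝ} (hy : StrictMono y) {j : ℕ} (hj : j + 1 < k) (a : ℤ) (q : Tr n)
    {w : ℂ} (hw : w.im < 0) : VV (ρ (a + 1) (ins y (j + 1) w)) (ta (θ j) q) = VV (ρ a (ins y j w)) q := by
  rw [VV_ta]
  congr 1
  funext α
  exact h.dn hy hj a α hw

theorem Cx.alt1 (h : Cx k n f ρ θ z) (hL : Lg k n ρ θ z L c m) (hCk : C + 6 ≤ k) (hg : Gd k n θ z c C 1) {y : ℕ → ℝ}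
    (hy : StrictMono y) (b : ℤ) {p : Tr n} (hp : p ∈ TC k θ C) {w : ℂ} (hw : w ∈ UU k y C) :
    VV (ρ (b + 2) (ins y C w)) p = VV (ρ b (ins y C w)) p := by
  rcases EAlt_dich h hL hCk hg hy b hp with h1 | ⟨v, hv⟩
  · exact h1 w hw
  · have hC1 : C + 1 < k := by omega
    have h2 : ∀ w ∈ UU k y (C + 1), VV (ρ (b + 1) (ins y (C + 1) w)) p = v := by
      refine EAlt_dn hy hC1 (EAlt_an h (b + 1) p) fun w hw => ?_
      have h3 := EAlt_Vdn h hy hC1 b p hw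
      rw [EAlt_fix hp hC1] at h3
      rw [h3]
      exact hv w (UU_im hy (by omega) (ne_of_lt hw))
    have h4 : ∀ w ∈ UU k y C, VV (ρ (b + 2) (ins y C w)) p = v := by
      refine EAlt_up hy (by omega) (EAlt_an h (b + 2) p) fun w hw => ?_
      have h3 := EAlt_Vup h hy hC1 (b + 1) p hw
      rw [EAlt_fix hp hC1, show b + 1 + 1 = b + 2 by ring] at h3
      rw [h3]
      exact h2 w (UU_im hy hC1 (ne_of_gt hw))
    rw [h4 w hw, hv w hw]

theorem Cx.altT (h : Cx k n f ρ θ z) (hL : Lg k n ρ θ z L c m) (hC : 1 ≤ C) (hCk : C + 6 ≤ k)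
    (hg : Gd k n θ z c C (TT θ C)) {y : ℕ → ℝ}
    (hy : StrictMono y) (b : ℤ) {p : Tr n} (hp : p ∈ TC k θ C) {w : ℂ} (hw : w ∈ UU k y C) :
    VV (ρ (b + 2) (ins y C w)) (ta (TT θ C) p) = VV (ρ b (ins y C w)) p := by
  rcases EAlt_dich h hL hCk hg hy b hp with h1 | ⟨v, hv⟩
  · exact h1 w hw
  · obtain ⟨D, rfl⟩ : ∃ D, C = D + 1 := ⟨C - 1, by omega⟩
    have hD1 : D + 1 < k := by omega
    have h2 : ∀ w ∈ UU k y D, VV (ρ (b + 1) (ins y D w)) (ta (θ D) p) = v := by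
      refine EAlt_up hy (by omega) (EAlt_an h (b + 1) _) fun w hw => ?_
      rw [EAlt_Vup h hy hD1 b p hw]
      exact hv w (UU_im hy (by omega) (ne_of_gt hw))
    have h4 : ∀ w ∈ UU k y (D + 1), VV (ρ (b + 2) (ins y (D + 1) w)) (ta (TT θ (D + 1)) p) = v := by
      refine EAlt_dn hy hD1 (EAlt_an h (b + 2) _) fun w hw => ?_
      have h3 := EAlt_Vdn h hy hD1 (b + 1) (ta (θ D) p) hw
      rw [show b + 1 + 1 = b + 2 by ring] at h3
      have e : ta (TT θ (D + 1)) p = ta (θ D) (ta (θ D) p) := rfl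
      rw [e, h3]
      exact h2 w (UU_im hy (by omega) (ne_of_lt hw))
    rw [h4 w hw, hv w hw]

/-- A real strictly increasing configuration is of the form `ins y C w`. -/
theorem EAlt_ins {k C : ℕ} (hCk : C + 1 < k) {x : Fin k → ℝ} (hx : StrictMono x) :
    ∃ (y : ℕ → ℝ) (w : ℂ), StrictMono y ∧ (ins y C w : Fin k → ℂ) = (fun i => (x i : ℂ)) ∧ w ∈ UU k y C := by
  have hxl : ∀ (i j : ℕ) (hi : i < k) (hj : j < k), i < j → x ⟨i, hi⟩ < x ⟨j, hj⟩ := fun i j hi hj hij =>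
    hx (Fin.mk_lt_mk.2 hij)
  let y : ℕ → ℝ := fun i => if h : i < C then x ⟨i, by omega⟩ else if h' : i + 1 < k then x ⟨i + 1, h'⟩ else
    x ⟨k - 1, by omega⟩ + ((i : ℝ) + 2 - (k : ℝ))
  have y1 : ∀ (i : ℕ) (h : i < C), y i = x ⟨i, by omega⟩ := fun i h => dif_pos h
  have y2 : ∀ (i : ℕ) (_ : C ≤ i) (h' : i + 1 < k), y i = x ⟨i + 1, h'⟩ := fun i h h' => by
    show dite _ _ _ = _
    rw [dif_neg (not_lt.2 h), dif_pos h']
  have y3 : ∀ (i : ℕ) (_ : C ≤ i) (_ : k ≤ i + 1), y i = x ⟨k - 1, by omega⟩ + ((i : ℝ) + 2 - (k : ℝ)) :=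
    fun i h h' => by
    show dite _ _ _ = _
    rw [dif_neg (not_lt.2 h), dif_neg (not_lt.2 h')]
  have hy : StrictMono y := by
    refine strictMono_nat_of_lt_succ fun i => ?_
    rcases lt_or_ge (i + 1) C with h | h
    · rw [y1 i (by omega), y1 (i + 1) h]
      exact hxl _ _ _ _ (by omega)
    · rcases lt_or_ge i C with h1 | h1
      · rw [y1 i h1, y2 (i + 1) h (by omega)]
        exact hxl _ _ _ _ (by omega)
      · rcases lt_or_ge (i + 1 + 1) k with h2 | h2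
        · rw [y2 i h1 (by omega), y2 (i + 1) h h2]
          exact hxl _ _ _ _ (by omega)
        · rcases lt_or_ge (i + 1) k with h3 | h3
          · rw [y2 i h1 h3, y3 (i + 1) h h2]
            have e1 : (⟨i + 1, h3⟩ : Fin k) = ⟨k - 1, by omega⟩ := Fin.ext (by show i + 1 = k - 1; omega)
            have e2 : (k : ℝ) = (i : ℝ) + 2 := by
              have : k = i + 2 := by omega
              rw [this]; push_cast; ring
            rw [e1, e2]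
            push_cast
            linarith
          · rw [y3 i h1 h3, y3 (i + 1) h h2]
            push_cast
            linarith
  have hins : (ins y C ((x ⟨C, by omega⟩ : ℝ) : ℂ) : Fin k → ℂ) = (fun i => (x i : ℂ)) := by
    funext i
    rcases lt_trichotomy (i : ℕ) C with h | h | h
    · rw [EU_ins_lt h, y1 _ h]
    · rw [EU_ins_eq h]
      congr 2
      exact Fin.ext h.symm
    · rw [EU_ins_gt h, y2 ((i : ℕ) - 1) (by omega) (by have := i.2; omega)]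
      congr 2
      exact Fin.ext (by show (i : ℕ) - 1 + 1 = (i : ℕ); omega)
  refine ⟨y, ((x ⟨C, by omega⟩ : ℝ) : ℂ), hy, hins, ?_⟩
  show (ins y C ((x ⟨C, by omega⟩ : ℝ) : ℂ) : Fin k → ℂ) ∈ XX k
  rw [hins]
  intro i j hij
  exact EU_real (hx hij)

theorem EAlt_gd1 (h : Cx k n f ρ θ z) (hL : Lg k n ρ θ z L c m) (hC : 1 ≤ C) (hCk : C + 6 ≤ k)
    (hT : ∀ x ∈ Om k θ C, θ C (θ (C - 1) (θ (C - 1) x)) = θ (C - 1) (θ (C - 1) x)) : Gd k n θ z c C 1 where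
  hop := hop_one hL.bra h.bra hCk
  om := fun x hx => hx
  zg := by rw [mul_one, one_mul]
  tau := fun _ _ _ _ => rfl
  tO := fun _ hj _ hx => tau_Om h.bra hC (by omega) hT hj hx

theorem EAlt_gdT (h : Cx k n f ρ θ z) (hL : Lg k n ρ θ z L c m) (hC : 1 ≤ C) (hCk : C + 6 ≤ k)
    (hT : ∀ x ∈ Om k θ C, θ C (θ (C - 1) (θ (C - 1) x)) = θ (C - 1) (θ (C - 1) x)) : Gd k n θ z c C (TT θ C) where
  hop := hop_T hL.bra h.bra hC hCk hT
  om := fun x hx => Om_T h.bra hC hT hx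
  zg := by
    have h1 := h.zc (C - 1) (by omega)
    show z * (θ (C - 1) * θ (C - 1)) = θ (C - 1) * θ (C - 1) * z
    rw [← mul_assoc, h1, mul_assoc, h1, mul_assoc]
  tau := fun _ hj _ hx => tau_T h.bra hC (by omega) hT hj hx
  tO := fun _ hj _ hx => tau_Om h.bra hC (by omega) hT hj hx

theorem Cx.fa (h : Cx k n f ρ θ z) (hC : 1 ≤ C) (hCk : C + 6 ≤ k)
    (hT : ∀ x ∈ Om k θ C, θ C (θ (C - 1) (θ (C - 1) x)) = θ (C - 1) (θ (C - 1) x)) {p : Tr n} (hp : p ∈ TC k θ C) (b : ℤ)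
    {x : Fin k → ℂ} (hx : x ∈ XX k) :
    VV (ρ (b + 2) x) p = VV (ρ b x) p ∧ VV (ρ b x) (ta (TT θ C) p) = VV (ρ b x) p := by
  obtain ⟨L, c, m, hL⟩ := h.lgs
  have hg1 := EAlt_gd1 h hL hC hCk hT
  have hgT := EAlt_gdT h hL hC hCk hT
  have hpT : ta (TT θ C) p ∈ TC k θ C := ⟨hgT.om _ hp.1, hgT.om _ hp.2.1, hgT.om _ hp.2.2⟩
  -- the equations at real configurations
  have hreal : ∀ x : Fin k → ℝ, StrictMono x →
      VV (ρ (b + 2) (fun i => (x i : ℂ))) p = VV (ρ b (fun i => (x i : ℂ))) p ∧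
      VV (ρ b (fun i => (x i : ℂ))) (ta (TT θ C) p) = VV (ρ b (fun i => (x i : ℂ))) p := by
    intro x hx
    obtain ⟨y, w, hy, hins, hw⟩ := EAlt_ins (C := C) (by omega) hx
    rw [← hins]
    refine ⟨h.alt1 hL hCk hg1 hy b hp hw, ?_⟩
    rw [← h.altT hL hC hCk hgT hy b hp hw, h.alt1 hL hCk hg1 hy b hpT hw]
  refine ⟨?_, ?_⟩
  · have h1 := real_id (F := fun x => VV (ρ (b + 2) x) p - VV (ρ b x) p)
      (fun x hx => (h.VV_anM (b + 2) p x hx).fun_sub (h.VV_anM b p x hx))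
      (fun x hx => sub_eq_zero.2 (hreal x hx).1) x hx
    exact sub_eq_zero.1 h1
  · have h1 := real_id (F := fun x => VV (ρ b x) (ta (TT θ C) p) - VV (ρ b x) p)
      (fun x hx => (h.VV_anM b _ x hx).fun_sub (h.VV_anM b p x hx))
      (fun x hx => sub_eq_zero.2 (hreal x hx).2) x hx
    exact sub_eq_zero.1 h1

theorem Cx.T_one (h : Cx k n f ρ θ z) (hC : 1 ≤ C) (hCk : C + 6 ≤ k)
    (hT : ∀ x ∈ Om k θ C, θ C (θ (C - 1) (θ (C - 1) x)) = θ (C - 1) (θ (C - 1) x)) {α₀ α₁ : Fin n}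
    (h0 : α₀ ∈ Om k θ C) (h1 : α₁ ∈ Om k θ C) (hne : α₀ ≠ α₁) (hT0 : TT θ C α₀ = α₀) (hT1 : TT θ C α₁ = α₁) {x : Fin n}
    (hx : x ∈ Om k θ C) : TT θ C x = x := by
  by_cases e0 : x = α₀
  · rw [e0]
    exact hT0
  by_cases e1 : x = α₁
  · rw [e1]
    exact hT1
  set p : Tr n := ⟨(α₀, x, α₁), fun h2 => e0 h2.symm, hne, e1⟩ with hp
  have hpT : p ∈ TC k θ C := ⟨h0, hx, h1⟩
  have hX : (fun i : Fin k => ((i : ℕ) : ℂ)) ∈ XX k := XX_base k
  obtain ⟨-, h3⟩ := h.fa hC hCk hT hpT 0 hX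
  have hinj := h.inj 0 hX
  set r := ρ 0 (fun i : Fin k => ((i : ℕ) : ℂ)) with hr
  have h4 : VV r (ta (TT θ C) p) = (r (TT θ C α₀) - r (TT θ C x)) / (r (TT θ C α₀) - r (TT θ C α₁)) := rfl
  have h5 : VV r p = (r α₀ - r x) / (r α₀ - r α₁) := rfl
  rw [h4, h5, hT0, hT1, div_left_inj' (sub_ne_zero.2 (hinj.ne hne))] at h3
  exact hinj (sub_right_injective h3)

end Pool.Agent.LR
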