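import Pool.Agent.LR.Defs

/-!
# LR Lam: splitting an abstract system

Write `s_{i,a} = S (sw i) a`, `q a = S (sw 0) (a + 1) * S (sw 0) a` (`= s_{i,a+1} s_{i,a}` for every `i`).

`perm_ind`: if `π ≠ 1` there is `i` with `π (i + 1) < π i` (a strictly monotone permutation of `Fin k` is `1`), and then
`π = π' * sw i` with `π' = π * sw i`, `π' i < π' (i + 1)`; induct on the number `B - ∑ p, p * π p` (the sum increases from `π` to
`π'`, it is bounded).

`q_tw`: `q (b + d π) * S π b = S π (b + 2) * q b`: by `perm_ind`; `π = 1` clear; `π' = π * sw i` with `π i < π (i+1)`: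
`q (b + dπ + 1) s_{i,b+dπ} S π b = s_{i,b+dπ+2} s_{i,b+dπ+1} s_{i,b+dπ} S π b = s_{i,b+2+dπ} q (b + dπ) S π b = s_{i,b+2+dπ} S π (b+2) q b =
S (π sw i) (b + 2) q b`.

`Q : ℤ → G` with `Q (b + 2) = q b * Q b` for all `b : ℤ` exists: define `Q` on `2 m` and `2 m + 1` separately (recursion on ℤ in
both directions; e.g. `Int.induction_on`-style recursion: there is `R : ℤ → G` with `R (m + 1) = c m * R m` for every
`c : ℤ → G`; apply it to `c m = q (2 m)` and `c m = q (2 m + 1)`).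

`L π a = S π (a - d π) * Q (a - d π)`.  One step: `L (π * sw i) (a + 1) = s_{i,a} * L π a` for ALL `π` and `i`.  If `π i < π (i+1)` it
is `S_mul`.  If `π (i+1) < π i` then `π = π' * sw i` with `π' = π * sw i`, `d π = d π' + 1`, `b = a - 1 - d π'`:
`s_{i,a} L π a = s_{i,a} s_{i,a-1} S π' b Q b = q (b + d π') S π' b Q b = S π' (b + 2) q b Q b = S π' (b+2) Q (b+2) = L π' (a + 1)`.
General `σ`: by `perm_ind` on `σ` (`π * (σ * sw i) = (π * σ) * sw i`).
-/

set_option autoImplicit false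

namespace Pool.Agent.LR

theorem lam_sw_eq {k : ℕ} (i : ℕ) (hi : i + 1 < k) :
    (sw i : Equiv.Perm (Fin k)) = Equiv.swap ⟨i, by omega⟩ ⟨i + 1, hi⟩ := by
  unfold sw
  rw [dif_pos hi]

theorem lam_sw_left {k : ℕ} (i : ℕ) (hi : i + 1 < k) :
    (sw i : Equiv.Perm (Fin k)) ⟨i, by omega⟩ = ⟨i + 1, hi⟩ := by
  rw [lam_sw_eq i hi, Equiv.swap_apply_left]

theorem lam_sw_right {k : ℕ} (i : ℕ) (hi : i + 1 < k) :
    (sw i : Equiv.Perm (Fin k)) ⟨i + 1, hi⟩ = ⟨i, by omega⟩ := by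
  rw [lam_sw_eq i hi, Equiv.swap_apply_right]

theorem lam_sw_sw {k : ℕ} (π : Equiv.Perm (Fin k)) (i : ℕ) : π * sw i * sw i = π := by
  unfold sw
  split_ifs
  · rw [mul_assoc, Equiv.swap_mul_self, mul_one]
  · simp

/-- The potential of `perm_ind`. -/
def lamPot {k : ℕ} (π : Equiv.Perm (Fin k)) : ℤ := ∑ p : Fin k, ((p : ℕ) : ℤ) * ((π p : ℕ) : ℤ)

theorem lamPot_le {k : ℕ} (π : Equiv.Perm (Fin k)) : lamPot π ≤ (k : ℤ) * (k * k) := by
  unfold lamPot
  calc ∑ p : Fin k, ((p : ℕ) : ℤ) * ((π p : ℕ) : ℤ) ≤ ∑ _p : Fin k, (k : ℤ) * k := by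
        refine Finset.sum_le_sum fun p _ => ?_
        have h1 : ((p : ℕ) : ℤ) ≤ k := by exact_mod_cast p.isLt.le
        have h2 : ((π p : ℕ) : ℤ) ≤ k := by exact_mod_cast (π p).isLt.le
        exact mul_le_mul h1 h2 (by positivity) (by positivity)
    _ = (k : ℤ) * (k * k) := by simp

theorem lamPot_lt {k : ℕ} (π : Equiv.Perm (Fin k)) (i : ℕ) (hi : i + 1 < k)
    (h : π ⟨i + 1, hi⟩ < π ⟨i, by omega⟩) : lamPot π < lamPot (π * sw i) := by
  have hne : (⟨i, by omega⟩ : Fin k) ≠ ⟨i + 1, hi⟩ := by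
    intro hh
    have := congrArg Fin.val hh
    simp at this
  have key : ∀ f : Fin k → ℤ, ∑ p : Fin k, f p = f ⟨i, by omega⟩ + f ⟨i + 1, hi⟩ +
      ∑ p ∈ (Finset.univ.erase (⟨i, by omega⟩ : Fin k)).erase ⟨i + 1, hi⟩, f p := by
    intro f
    rw [← Finset.add_sum_erase Finset.univ f (Finset.mem_univ (⟨i, by omega⟩ : Fin k)),
      ← Finset.add_sum_erase (Finset.univ.erase (⟨i, by omega⟩ : Fin k)) f
        (Finset.mem_erase.2 ⟨hne.symm, Finset.mem_univ _⟩)]
    ring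
  unfold lamPot
  rw [key, key]
  have hrest : ∑ p ∈ (Finset.univ.erase (⟨i, by omega⟩ : Fin k)).erase ⟨i + 1, hi⟩,
      ((p : ℕ) : ℤ) * (((π * sw i : Equiv.Perm (Fin k)) p : ℕ) : ℤ) =
      ∑ p ∈ (Finset.univ.erase (⟨i, by omega⟩ : Fin k)).erase ⟨i + 1, hi⟩,
      ((p : ℕ) : ℤ) * ((π p : ℕ) : ℤ) := by
    refine Finset.sum_congr rfl fun p hp => ?_
    have hp1 : p ≠ ⟨i + 1, hi⟩ := (Finset.mem_erase.1 hp).1
    have hp0 : p ≠ ⟨i, by omega⟩ := (Finset.mem_erase.1 (Finset.mem_erase.1 hp).2).1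
    rw [Equiv.Perm.mul_apply, lam_sw_eq i hi, Equiv.swap_apply_of_ne_of_ne hp0 hp1]
  rw [hrest, Equiv.Perm.mul_apply, Equiv.Perm.mul_apply, lam_sw_left i hi, lam_sw_right i hi]
  have h' : ((π ⟨i + 1, hi⟩ : ℕ) : ℤ) < ((π ⟨i, by omega⟩ : ℕ) : ℤ) := by exact_mod_cast h
  push_cast
  nlinarith [h']

theorem lam_eq_one {k : ℕ} (π : Equiv.Perm (Fin k))
    (h : ∀ (i : ℕ) (hi : i + 1 < k), ¬ π ⟨i + 1, hi⟩ < π ⟨i, by omega⟩) : π = 1 := by
  cases k with
  | zero => exact Subsingleton.elim _ _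
  | succ n =>
    have hm : StrictMono π := by
      rw [Fin.strictMono_iff_lt_succ]
      intro i
      have h1 := h i.val (by have := i.isLt; omega)
      have h2 : π (Fin.castSucc i) ≤ π (Fin.succ i) := not_lt.1 h1
      refine lt_of_le_of_ne h2 fun h3 => ?_
      have h4 := π.injective h3
      have h5 := congrArg Fin.val h4
      simp at h5
    have hs : StrictMono.orderIsoOfSurjective π hm π.surjective = OrderIso.refl (Fin (n + 1)) :=
      Subsingleton.elim _ _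
    ext p
    have := congrArg (fun e : Fin (n + 1) ≃o Fin (n + 1) => (e p : Fin (n + 1))) hs
    simpa using congrArg Fin.val this

theorem perm_ind {k : ℕ} {P : Equiv.Perm (Fin k) → Prop} (h1 : P 1)
    (hs : ∀ (π : Equiv.Perm (Fin k)) (i : ℕ) (hi : i + 1 < k), π ⟨i, by omega⟩ < π ⟨i + 1, hi⟩ → P π → P (π * sw i))
    (π : Equiv.Perm (Fin k)) : P π := by
  suffices H : ∀ (n : ℕ) (π : Equiv.Perm (Fin k)), (k : ℤ) * (k * k) - lamPot π ≤ n → P π by
    refine H ((k : ℤ) * (k * k) - lamPot π).toNat π ?_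
    exact Int.self_le_toNat _
  intro n
  induction n with
  | zero =>
    intro π hπ
    by_cases hc : ∃ (i : ℕ) (hi : i + 1 < k), π ⟨i + 1, hi⟩ < π ⟨i, by omega⟩
    · obtain ⟨i, hi, hlt⟩ := hc
      have h2 := lamPot_lt π i hi hlt
      have h3 := lamPot_le (π * sw i)
      exfalso
      push_cast at hπ
      linarith
    · push Not at hc
      rw [lam_eq_one π fun i hi => not_lt.2 (hc i hi)]
      exact h1
  | succ n ih =>
    intro π hπ
    by_cases hc : ∃ (i : ℕ) (hi : i + 1 < k), π ⟨i + 1, hi⟩ < π ⟨i, by omega⟩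
    · obtain ⟨i, hi, hlt⟩ := hc
      have h2 := lamPot_lt π i hi hlt
      have h3 : P (π * sw i) := by
        refine ih _ ?_
        push_cast at hπ
        linarith
      have h4 : (π * sw i : Equiv.Perm (Fin k)) ⟨i, by omega⟩ < (π * sw i : Equiv.Perm (Fin k)) ⟨i + 1, hi⟩ := by
        rw [Equiv.Perm.mul_apply, Equiv.Perm.mul_apply, lam_sw_left i hi, lam_sw_right i hi]
        exact hlt
      have h5 := hs (π * sw i) i hi h4 h3
      rwa [lam_sw_sw] at h5
    · push Not at hc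
      rw [lam_eq_one π fun i hi => not_lt.2 (hc i hi)]
      exact h1

/-- One-step recursion over `ℤ` in a group. -/
theorem lam_rec {G : Type} [Group G] (c : ℤ → G) : ∃ R : ℤ → G, ∀ m, R (m + 1) = c m * R m := by
  let P : ℕ → G := fun n => Nat.rec 1 (fun n x => c (n : ℤ) * x) n
  let M : ℕ → G := fun n => Nat.rec 1 (fun n x => (c (-((n : ℤ) + 1)))⁻¹ * x) n
  have hP : ∀ n, P (n + 1) = c (n : ℤ) * P n := fun n => rfl
  have hM : ∀ n, M (n + 1) = (c (-((n : ℤ) + 1)))⁻¹ * M n := fun n => rfl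
  refine ⟨fun m => match m with
    | Int.ofNat n => P n
    | Int.negSucc n => M (n + 1), ?_⟩
  intro m
  cases m with
  | ofNat n =>
    have h1 : (Int.ofNat n : ℤ) + 1 = Int.ofNat (n + 1) := rfl
    rw [h1]
    exact hP n
  | negSucc n =>
    have h0 : (Int.negSucc n : ℤ) = -((n : ℤ) + 1) := by
      rw [Int.negSucc_eq]
    cases n with
    | zero =>
      have h1 : (Int.negSucc 0 : ℤ) + 1 = Int.ofNat 0 := rfl
      rw [h1]
      change P 0 = c (Int.negSucc 0) * M (0 + 1)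
      rw [hM 0, h0, mul_inv_cancel_left]
      rfl
    | succ n =>
      have h1 : (Int.negSucc (n + 1) : ℤ) + 1 = Int.negSucc n := by
        rw [Int.negSucc_eq, Int.negSucc_eq]
        push_cast
        ring
      rw [h1]
      change M (n + 1) = c (Int.negSucc (n + 1)) * M (n + 1 + 1)
      rw [hM (n + 1), h0, mul_inv_cancel_left]

variable {k : ℕ} {G : Type} [Group G] {d : Equiv.Perm (Fin k) → ℤ} {S : Equiv.Perm (Fin k) → ℤ → G}

/-- The element `q a`. -/
def lamq (S : Equiv.Perm (Fin k) → ℤ → G) (a : ℤ) : G := S (sw 0) (a + 1) * S (sw 0) a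

theorem lam_q_tw (h : Sys d S) (hk : 2 ≤ k)
    (hq : ∀ (a : ℤ) (i j : ℕ), i + 1 < k → j + 1 < k → S (sw i) (a + 1) * S (sw i) a = S (sw j) (a + 1) * S (sw j) a)
    (π : Equiv.Perm (Fin k)) : ∀ b : ℤ, lamq S (b + d π) * S π b = S π (b + 2) * lamq S b := by
  have hqi : ∀ (i : ℕ), i + 1 < k → ∀ a, lamq S a = S (sw i) (a + 1) * S (sw i) a := fun i hi a =>
    hq a 0 i (by omega) hi
  refine perm_ind (P := fun π => ∀ b : ℤ, lamq S (b + d π) * S π b = S π (b + 2) * lamq S b) ?_ ?_ π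
  · intro b
    rw [h.d_one, h.S_one, h.S_one, mul_one, one_mul, add_zero]
  · intro π i hi hlt ih b
    rw [h.d_mul π i hi hlt, h.S_mul π i hi hlt b, h.S_mul π i hi hlt (b + 2)]
    have e1 : b + (d π + 1) = (b + d π) + 1 := by ring
    have e2 : b + 2 + d π = (b + d π) + 1 + 1 := by ring
    rw [e1, e2, hqi i hi ((b + d π) + 1)]
    calc S (sw i) (b + d π + 1 + 1) * S (sw i) (b + d π + 1) * (S (sw i) (b + d π) * S π b)
        = S (sw i) (b + d π + 1 + 1) * ((S (sw i) (b + d π + 1) * S (sw i) (b + d π)) * S π b) := by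
          simp only [mul_assoc]
      _ = S (sw i) (b + d π + 1 + 1) * (lamq S (b + d π) * S π b) := by rw [← hqi i hi (b + d π)]
      _ = S (sw i) (b + d π + 1 + 1) * (S π (b + 2) * lamq S b) := by rw [ih b]
      _ = S (sw i) (b + d π + 1 + 1) * S π (b + 2) * lamq S b := by rw [mul_assoc]

theorem lam_Q (q : ℤ → G) : ∃ Q : ℤ → G, ∀ b, Q (b + 2) = q b * Q b := by
  obtain ⟨R0, h0⟩ := lam_rec fun m => q (2 * m)
  obtain ⟨R1, h1⟩ := lam_rec fun m => q (2 * m + 1)
  refine ⟨fun b => if b % 2 = 0 then R0 (b / 2) else R1 (b / 2), ?_⟩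
  intro b
  have e1 : (b + 2) / 2 = b / 2 + 1 := by omega
  have e2 : (b + 2) % 2 = b % 2 := by omega
  simp only [e1, e2]
  split_ifs with hb
  · rw [h0]
    have : 2 * (b / 2) = b := by omega
    rw [this]
  · rw [h1]
    have : 2 * (b / 2) + 1 = b := by omega
    rw [this]

theorem Sys.split (h : Sys d S) (hk : 2 ≤ k)
    (hq : ∀ (a : ℤ) (i j : ℕ), i + 1 < k → j + 1 < k → S (sw i) (a + 1) * S (sw i) a = S (sw j) (a + 1) * S (sw j) a) :
    ∃ L : Equiv.Perm (Fin k) → ℤ → G, ∀ (π σ : Equiv.Perm (Fin k)) (a : ℤ), L (π * σ) (a + d σ) = S σ a * L π a := by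
  obtain ⟨Q, hQ⟩ := lam_Q (lamq S)
  have hqi : ∀ (i : ℕ), i + 1 < k → ∀ a, lamq S a = S (sw i) (a + 1) * S (sw i) a := fun i hi a =>
    hq a 0 i (by omega) hi
  have step : ∀ (π : Equiv.Perm (Fin k)) (i : ℕ), i + 1 < k → ∀ a : ℤ,
      S (π * sw i) (a + 1 - d (π * sw i)) * Q (a + 1 - d (π * sw i)) = S (sw i) a * (S π (a - d π) * Q (a - d π)) := by
    intro π i hi a
    rcases lt_trichotomy (π ⟨i, by omega⟩) (π ⟨i + 1, hi⟩) with hlt | heq | hgt
    · rw [h.d_mul π i hi hlt, h.S_mul π i hi hlt]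
      have e1 : a + 1 - (d π + 1) = a - d π := by ring
      rw [e1]
      have e2 : a - d π + d π = a := by ring
      rw [e2, mul_assoc]
    · exfalso
      have h4 := π.injective heq
      have h5 := congrArg Fin.val h4
      simp at h5
    · have h4 : (π * sw i : Equiv.Perm (Fin k)) ⟨i, by omega⟩ < (π * sw i : Equiv.Perm (Fin k)) ⟨i + 1, hi⟩ := by
        rw [Equiv.Perm.mul_apply, Equiv.Perm.mul_apply, lam_sw_left i hi, lam_sw_right i hi]
        exact hgt
      have hd := h.d_mul (π * sw i) i hi h4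
      have hS := h.S_mul (π * sw i) i hi h4
      rw [lam_sw_sw] at hd hS
      have tw := lam_q_tw h hk hq (π * sw i) (a - d π)
      rw [hS]
      have e1 : a + 1 - d (π * sw i) = a - d π + 2 := by rw [hd]; ring
      have e2 : a - d π + d (π * sw i) = a - 1 := by rw [hd]; ring
      rw [e1, hQ, e2]
      rw [e2, hqi i hi (a - 1)] at tw
      have e3 : a - 1 + 1 = a := by ring
      rw [e3] at tw
      calc S (π * sw i) (a - d π + 2) * (lamq S (a - d π) * Q (a - d π))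
          = (S (π * sw i) (a - d π + 2) * lamq S (a - d π)) * Q (a - d π) := by rw [mul_assoc]
        _ = (S (sw i) a * S (sw i) (a - 1) * S (π * sw i) (a - d π)) * Q (a - d π) := by rw [tw]
        _ = S (sw i) a * (S (sw i) (a - 1) * S (π * sw i) (a - d π) * Q (a - d π)) := by simp only [mul_assoc]
  refine ⟨fun π a => S π (a - d π) * Q (a - d π), ?_⟩
  intro π σ
  revert π
  refine perm_ind (P := fun σ => ∀ (π : Equiv.Perm (Fin k)) (a : ℤ),
    S (π * σ) (a + d σ - d (π * σ)) * Q (a + d σ - d (π * σ)) = S σ a * (S π (a - d π) * Q (a - d π))) ?_ ?_ σ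
  · intro π a
    rw [mul_one, h.d_one, h.S_one, one_mul, add_zero]
  · intro σ i hi hlt ih π a
    rw [h.d_mul σ i hi hlt, h.S_mul σ i hi hlt, ← mul_assoc π σ (sw i)]
    have e1 : a + (d σ + 1) = (a + d σ) + 1 := by ring
    rw [e1, step (π * σ) i hi (a + d σ), ih π a, mul_assoc]

end Pool.Agent.LR
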