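import Pool.Agent.LR.Defs

/-!
# LR SlitB: the sets `WW σ` and inversions

For `x ∈ WW σ`, `i < j`: `x_j - x_i` has positive real part or positive imaginary part, so it is in the slit plane.  If
`σ j < σ i` (an inversion; put `p = σ j < q = σ i`, `σ⁻¹ q = i < j = σ⁻¹ p`) then `Im x_p < Im x_q`, so `x_{σ j} - x_{σ i}` has
negative imaginary part, and `log (x_p - x_q) = log (x_q - x_p) - π i`.  Summing over the pairs (symmetric double sum
over `i ≠ j`, invariant under `σ`): `lg (x ∘ σ) = lg x - π i * inv σ`.  `WW σ` is star-convex about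
`x* = (j + i j)_j` (all conditions are of the form `Re x_i < Re x_j`, `Im x_i < Im x_j`, and `x*` satisfies all of them
strictly), so preconnected.  `nrm (a + inv σ) (x ∘ σ) = (nrm a x) ∘ σ` (same mean, same exponential) and `zc` is invariant
under permutations (`Equiv.prod_comp`).

Inversions: `inv 1 = 0` clear.  For `inv (π * sw i) = inv π + 1` (`π i < π (i + 1)`): the point `x_l = π⁻¹ l + i l` is in `WW τ`
for EVERY `τ`; `x ∘ π = (m + i π m)_m` is in `WW (sw i)` if `π i < π (i + 1)`; so `lg (x ∘ π ∘ sw i)` computed in two ways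
gives `inv (π * sw i) = inv π + inv (sw i)`; and `inv (sw i) = 1` directly (only the pair `(i, i + 1)` is inverted).
-/

set_option autoImplicit false

open Topology Filter

noncomputable section

namespace Pool.Agent.LR

open Pool.Agent.H60.OC (Pr NN nm zc SG MF IsRoots vd poly)

theorem WW_sub {k : ℕ} (σ : Equiv.Perm (Fin k)) : WW σ ⊆ XX k := by
  intro x hx i j hij
  rw [Complex.mem_slitPlane_iff, Complex.sub_re, Complex.sub_im]
  rcases (hx i j hij).1 with h | h
  · exact Or.inl (by linarith)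
  · exact Or.inr (by
      have : 0 < (x j).im - (x i).im := by linarith
      exact this.ne')

theorem WW_im {k : ℕ} {σ : Equiv.Perm (Fin k)} {x : Fin k → ℂ} (hx : x ∈ WW σ) {i j : Fin k} (hij : i < j)
    (h : σ j < σ i) : (x (σ j)).im < (x (σ i)).im := by
  refine (hx (σ j) (σ i) h).2 ?_
  rw [Equiv.symm_apply_apply, Equiv.symm_apply_apply]
  exact hij

theorem WW_comp {k : ℕ} (σ : Equiv.Perm (Fin k)) {x : Fin k → ℂ} (hx : x ∈ WW σ) : (fun i => x (σ i)) ∈ XX k := by
  intro i j hij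
  rcases lt_or_gt_of_ne (fun h => hij.ne (σ.injective h) : σ i ≠ σ j) with h | h
  · exact WW_sub σ hx (σ i) (σ j) h
  · have h1 := WW_im hx hij h
    rw [Complex.mem_slitPlane_iff, Complex.sub_re, Complex.sub_im]
    exact Or.inr (by
      have : (x (σ j)).im - (x (σ i)).im < 0 := by linarith
      exact this.ne)

theorem WW_comb {a b u u' v v' : ℝ} (ha : 0 ≤ a) (hb : 0 ≤ b) (hab : a + b = 1) (hu : u < u') (hv : v < v') :
    a * u + b * v < a * u' + b * v' := by
  rcases ha.eq_or_lt with h | h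
  · rw [← h] at hab ⊢
    rw [zero_add] at hab
    rw [hab]
    linarith
  · have h1 : a * u < a * u' := mul_lt_mul_of_pos_left hu h
    have h2 : b * v ≤ b * v' := mul_le_mul_of_nonneg_left hv.le hb
    linarith

theorem WW_conn {k : ℕ} (σ : Equiv.Perm (Fin k)) : IsPreconnected (WW σ) := by
  have hst : StarConvex ℝ (fun j : Fin k => (((j : ℕ) : ℂ) + Complex.I * ((j : ℕ) : ℂ))) (WW σ) := by
    intro x hx a b ha hb hab i j hij
    have hc : (((i : ℕ) : ℝ)) < (((j : ℕ) : ℝ)) := by exact_mod_cast hij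
    have hre : ∀ l : Fin k, ((a • (fun j : Fin k => (((j : ℕ) : ℂ) + Complex.I * ((j : ℕ) : ℂ))) + b • x) l).re =
        a * ((l : ℕ) : ℝ) + b * (x l).re := by
      intro l
      simp
    have him : ∀ l : Fin k, ((a • (fun j : Fin k => (((j : ℕ) : ℂ) + Complex.I * ((j : ℕ) : ℂ))) + b • x) l).im =
        a * ((l : ℕ) : ℝ) + b * (x l).im := by
      intro l
      simp
    rw [hre, hre, him, him]
    refine ⟨?_, fun h => WW_comb ha hb hab hc ((hx i j hij).2 h)⟩
    rcases (hx i j hij).1 with h | h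
    · exact Or.inl (WW_comb ha hb hab hc h)
    · exact Or.inr (WW_comb ha hb hab hc h)
  refine (hst.isPathConnected ?_).isConnected.isPreconnected
  intro i j hij
  have hc : (((i : ℕ) : ℝ)) < (((j : ℕ) : ℝ)) := by exact_mod_cast hij
  exact ⟨Or.inl (by simpa using hc), fun _ => by simpa using hc⟩

theorem pr_sum_two {k : ℕ} (f : Fin k → Fin k → ℂ) (hf : ∀ i j, f i j = f j i) :
    2 * ∑ p : Pr k, f p.1.1 p.1.2 = ∑ i, ∑ j, if i ≠ j then f i j else 0 := by
  have h1 : ∑ p : Pr k, f p.1.1 p.1.2 = ∑ i, ∑ j, if i < j then f i j else 0 := by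
    rw [← Finset.sum_subtype (Finset.univ.filter fun p : Fin k × Fin k => p.1 < p.2)
      (fun p => by simp) (fun p : Fin k × Fin k => f p.1 p.2), Finset.sum_filter, Fintype.sum_prod_type]
  have h2 : ∑ i, ∑ j, (if j < i then f i j else 0) = ∑ i, ∑ j, if i < j then f i j else 0 := by
    rw [Finset.sum_comm]
    refine Finset.sum_congr rfl fun i _ => Finset.sum_congr rfl fun j _ => ?_
    rw [hf]
  rw [h1, two_mul]
  conv_lhs => rw [← h2]
  rw [h2]
  conv_lhs => 
    arg 2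
    rw [← h2]
  rw [← Finset.sum_add_distrib]
  refine Finset.sum_congr rfl fun i _ => ?_
  rw [← Finset.sum_add_distrib]
  refine Finset.sum_congr rfl fun j _ => ?_
  rcases lt_trichotomy i j with h | h | h
  · rw [if_pos h, if_neg (not_lt.2 h.le), if_pos h.ne, add_zero]
  · subst h
    simp
  · rw [if_neg (not_lt.2 h.le), if_pos h, if_pos h.ne', zero_add]

theorem pr_sum_perm {k : ℕ} (f : Fin k → Fin k → ℂ) (hf : ∀ i j, f i j = f j i) (σ : Equiv.Perm (Fin k)) :
    ∑ p : Pr k, f (σ p.1.1) (σ p.1.2) = ∑ p : Pr k, f p.1.1 p.1.2 := by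
  have h1 := pr_sum_two f hf
  have h2 := pr_sum_two (fun i j => f (σ i) (σ j)) fun i j => hf _ _
  have h3 : (∑ i, ∑ j, if i ≠ j then f (σ i) (σ j) else 0) = ∑ i, ∑ j, if i ≠ j then f i j else 0 := by
    rw [← Equiv.sum_comp σ fun i => ∑ j, if i ≠ j then f i j else 0]
    refine Finset.sum_congr rfl fun i _ => ?_
    rw [← Equiv.sum_comp σ fun j => if σ i ≠ j then f (σ i) j else 0]
    refine Finset.sum_congr rfl fun j _ => ?_
    by_cases h : i = j
    · subst h
      simp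
    · rw [if_pos h, if_pos fun hh => h (σ.injective hh)]
  have h4 : (2 : ℂ) ≠ 0 := two_ne_zero
  refine mul_left_cancel₀ h4 ?_
  rw [h2, h3, h1]

theorem log_neg_im {z : ℂ} (hz : 0 < z.im) : Complex.log (-z) = Complex.log z - (Real.pi : ℂ) * Complex.I := by
  rw [Complex.log, Complex.log, norm_neg, Complex.arg_neg_eq_arg_sub_pi_of_im_pos hz]
  push_cast
  ring

theorem lg_comp {k : ℕ} (σ : Equiv.Perm (Fin k)) {x : Fin k → ℂ} (hx : x ∈ WW σ) :
    lg (fun i => x (σ i)) = lg x - (Real.pi : ℂ) * Complex.I * (inv σ : ℂ) := by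
  set f : Fin k → Fin k → ℂ := fun i j => if i < j then Complex.log (x j - x i) else Complex.log (x i - x j) with hf
  have hsym : ∀ i j, f i j = f j i := by
    intro i j
    rw [hf]
    rcases lt_trichotomy i j with h | h | h
    · simp only [if_pos h, if_neg (not_lt.2 h.le)]
    · rw [h]
    · simp only [if_pos h, if_neg (not_lt.2 h.le)]
  have h1 : lg x = ∑ p : Pr k, f p.1.1 p.1.2 := by
    rw [lg]
    refine Finset.sum_congr rfl fun p _ => ?_
    rw [hf]
    simp only [if_pos p.2]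
  rw [h1, ← pr_sum_perm f hsym σ, lg, inv]
  push_cast
  rw [Finset.mul_sum, ← Finset.sum_sub_distrib]
  refine Finset.sum_congr rfl fun p _ => ?_
  rcases lt_or_gt_of_ne (fun h => p.2.ne (σ.injective h) : σ p.1.1 ≠ σ p.1.2) with h | h
  · rw [hf, if_neg (not_lt.2 h.le)]
    simp only [if_pos h]
    ring
  · rw [hf, if_pos h]
    simp only [if_neg (not_lt.2 h.le)]
    have h2 := WW_im hx p.2 h
    have h3 : 0 < (x (σ p.1.1) - x (σ p.1.2)).im := by
      rw [Complex.sub_im]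
      linarith
    have h4 := log_neg_im h3
    rw [neg_sub] at h4
    rw [h4]
    ring

theorem nm_comp {k : ℕ} (σ : Equiv.Perm (Fin k)) (x : Fin k → ℂ) (t : ℂ) :
    nm (fun i => x (σ i)) t = fun i => nm x t (σ i) := by
  funext i
  unfold nm
  rw [Equiv.sum_comp σ x]

theorem zc_comp {k : ℕ} (σ : Equiv.Perm (Fin k)) (x : Fin k → ℂ) : zc (fun i => x (σ i)) = zc x := by
  funext i
  unfold zc
  rw [Equiv.prod_comp σ fun j => (Polynomial.X - Polynomial.C (x j) : Polynomial ℂ)]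

theorem GG_comp {k : ℕ} (σ : Equiv.Perm (Fin k)) (a : ℤ) {x : Fin k → ℂ} (hx : x ∈ WW σ) :
    GG (a + inv σ) (fun i => x (σ i)) = GG a x := by
  unfold GG nrm
  rw [lg_comp σ hx, nm_comp, zc_comp]
  congr 3
  push_cast
  ring

theorem wit_mem {k : ℕ} (π τ : Equiv.Perm (Fin k)) :
    (fun l : Fin k => (((π.symm l : Fin k) : ℕ) : ℂ) + Complex.I * ((l : ℕ) : ℂ)) ∈ WW τ := by
  intro i j hij
  have h : (((((π.symm i : Fin k) : ℕ) : ℂ) + Complex.I * ((i : ℕ) : ℂ)).im) <
      (((((π.symm j : Fin k) : ℕ) : ℂ) + Complex.I * ((j : ℕ) : ℂ)).im) := by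
    have hc : (((i : ℕ) : ℝ)) < (((j : ℕ) : ℝ)) := by exact_mod_cast hij
    simpa using hc
  exact ⟨Or.inr h, fun _ => h⟩

theorem sw_inv {k : ℕ} (i : ℕ) (hi : i + 1 < k) {a b : Fin k} (hab : a < b)
    (h : (sw i : Equiv.Perm (Fin k)) b < (sw i : Equiv.Perm (Fin k)) a) : a = ⟨i, by omega⟩ ∧ b = ⟨i + 1, hi⟩ := by
  rw [sw, dif_pos hi] at h
  have ha := hab
  rw [Fin.lt_def] at ha
  rw [Fin.lt_def] at h
  simp only [Equiv.swap_apply_def, Fin.ext_iff] at h ⊢
  have e1 : (((⟨i, by omega⟩ : Fin k) : Fin k) : ℕ) = i := rfl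
  have e2 : (((⟨i + 1, hi⟩ : Fin k) : Fin k) : ℕ) = i + 1 := rfl
  split_ifs at h <;> (try simp only [e1] at h) <;> (try simp only [e2] at h) <;> omega

theorem wit_mem_sw {k : ℕ} (π : Equiv.Perm (Fin k)) (i : ℕ) (hi : i + 1 < k) (h : π ⟨i, by omega⟩ < π ⟨i + 1, hi⟩) :
    (fun l : Fin k => ((l : ℕ) : ℂ) + Complex.I * (((π l : Fin k) : ℕ) : ℂ)) ∈ WW (sw i) := by
  intro a b hab
  have hc : (((a : ℕ) : ℝ)) < (((b : ℕ) : ℝ)) := by exact_mod_cast hab
  refine ⟨Or.inl (by simpa using hc), fun h1 => ?_⟩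
  have hs : (sw i : Equiv.Perm (Fin k)).symm = sw i := by
    rw [sw, dif_pos hi, Equiv.symm_swap]
  rw [hs] at h1
  obtain ⟨h2, h3⟩ := sw_inv i hi hab h1
  rw [h2, h3]
  have hd : (((π ⟨i, by omega⟩ : Fin k) : ℕ) : ℝ) < (((π ⟨i + 1, hi⟩ : Fin k) : ℕ) : ℝ) := by exact_mod_cast h
  simpa using hd

theorem inv_one {k : ℕ} : inv (1 : Equiv.Perm (Fin k)) = 0 := by
  rw [inv]
  refine Finset.sum_eq_zero fun p _ => ?_
  rw [if_neg]
  simp only [Equiv.Perm.coe_one, id_eq, not_lt]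
  exact p.2.le

theorem inv_sw {k : ℕ} (i : ℕ) (hi : i + 1 < k) : inv (sw i : Equiv.Perm (Fin k)) = 1 := by
  have h0 : (⟨i, by omega⟩ : Fin k) < ⟨i + 1, hi⟩ := by
    rw [Fin.lt_def]
    simp
  rw [inv, Finset.sum_eq_single (⟨(⟨i, by omega⟩, ⟨i + 1, hi⟩), h0⟩ : Pr k)]
  · rw [if_pos]
    simp only [sw, dif_pos hi, Equiv.swap_apply_left, Equiv.swap_apply_right]
    exact h0
  · intro p _ hp
    rw [if_neg]
    intro h
    obtain ⟨h1, h2⟩ := sw_inv i hi p.2 h
    apply hp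
    rw [Subtype.ext_iff, Prod.ext_iff]
    exact ⟨h1, h2⟩
  · intro h
    exact absurd (Finset.mem_univ _) h

theorem inv_mul_sw {k : ℕ} (π : Equiv.Perm (Fin k)) (i : ℕ) (hi : i + 1 < k) (h : π ⟨i, by omega⟩ < π ⟨i + 1, hi⟩) :
    inv (π * sw i) = inv π + 1 := by
  have h1 := lg_comp (π * sw i) (wit_mem π (π * sw i))
  have h2 := lg_comp π (wit_mem π π)
  have h3 := lg_comp (sw i) (wit_mem_sw π i hi h)
  rw [inv_sw i hi] at h3
  simp only [Equiv.Perm.mul_apply, Equiv.symm_apply_apply] at h1 h2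
  rw [h1, h2] at h3
  have hpi : ((Real.pi : ℂ) * Complex.I) ≠ 0 := mul_ne_zero (by exact_mod_cast Real.pi_ne_zero) Complex.I_ne_zero
  have h5 : (Real.pi : ℂ) * Complex.I * (inv (π * sw i) : ℂ) = (Real.pi : ℂ) * Complex.I * (((inv π + 1 : ℤ)) : ℂ) := by
    push_cast at h3 ⊢
    linear_combination -h3
  have h6 := mul_left_cancel₀ hpi h5
  exact_mod_cast h6

end Pool.Agent.LR
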