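import Pool.Agent.LR.SlitA
import Pool.Agent.LR.SlitB

/-!
# LR Glue: gluing the local root functions to a root function on `MF k`

`lexsort`: for `y` injective there is a permutation `π` with `y ∘ π` lexicographically increasing (real part, then
imaginary part).  (`Tuple.sort` for the linear order `ℝ ×ₗ ℝ`, or induction.)  Then `y ∘ π ∈ XX k`.

`glue`: for `y ∈ MF k` choose `π y` (lexsort) and `a y` (`lg_int` for `y ∘ π y`: `vd (y ∘ π)^2 = 1` by `OC.vd_perm`), and put
`μ y j = ρ (a y) (y ∘ π y) (L (π y) (a y) j)`.  Root property: `GG (a y) (y ∘ π y) = zc (y ∘ π y) = zc y` (`GG_of_lg`; `zc` is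
invariant under permutations), and a root list stays one after a permutation of the indices; if `IsRoots y z` then
`z = zc y` (`OC.poly_inj`, `OC.zc_roots`).

Continuity at `y₀ ∈ MF k`: `π₀ = π y₀`, `a₀ = a y₀`, `x₀ = y₀ ∘ π₀ ∈ XX k`.  For `y ∈ MF k` near `y₀` put `x = y ∘ π₀`; then `x ∈ XX k`
(open), `lg x = - π i a₀` (both sides are in `π i ℤ` and `lg` is continuous: eventually `|lg x - lg x₀| < π`), and with
`σ = π₀⁻¹ * π y` (`π y = π₀ * σ`, `x ∘ σ = y ∘ π y` is lexicographically increasing) `x ∈ WW σ`: let `i < j`; if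
`Re x₀ i < Re x₀ j` then also `Re x i < Re x j` (`y` near `y₀`), and `σ⁻¹ j < σ⁻¹ i` is impossible since `x ∘ σ` has increasing
real parts; else `Re x₀ i = Re x₀ j`, `Im x₀ i < Im x₀ j`, so `Im x i < Im x j` (`y` near `y₀`).  By `lg_comp`
`lg (x ∘ σ) = lg x - π i inv σ`, so `a y = a₀ + inv σ`.  Hence `μ y j = ρ (a₀ + inv σ) (x ∘ σ) (L (π₀ * σ) (a₀ + inv σ) j) =
ρ (a₀ + inv σ) (x ∘ σ) (S σ a₀ (L π₀ a₀ j)) = ρ a₀ x (L π₀ a₀ j) = ρ a₀ (y ∘ π₀) (L π₀ a₀ j)`, which is continuous in `y`.
-/

set_option autoImplicit false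

open Topology Filter

noncomputable section

namespace Pool.Agent.LR

open Pool.Agent.H60.OC (Pr NN nm zc SG MF IsRoots vd poly)

theorem lexsort {k : ℕ} (y : Fin k → ℂ) (hy : Function.Injective y) :
    ∃ π : Equiv.Perm (Fin k), ∀ i j, i < j →
      ((y (π i)).re < (y (π j)).re ∨ ((y (π i)).re = (y (π j)).re ∧ (y (π i)).im < (y (π j)).im)) := by
  classical
  obtain ⟨g, hg⟩ : ∃ g : Fin k → ℝ ×ₗ ℝ, g = fun i => toLex ((y i).re, (y i).im) := ⟨_, rfl⟩
  refine ⟨Tuple.sort g, fun i j hij => ?_⟩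
  have h1 : g (Tuple.sort g i) ≤ g (Tuple.sort g j) := Tuple.monotone_sort g hij.le
  have h2 : g (Tuple.sort g i) ≠ g (Tuple.sort g j) := by
    intro h
    rw [hg] at h
    have h3 := toLex.injective h
    rw [Prod.mk.injEq] at h3
    have h4 := hy (Complex.ext h3.1 h3.2)
    exact hij.ne ((Tuple.sort _).injective h4)
  have h3 := lt_of_le_of_ne h1 h2
  have h4 : ∀ p q : Fin k, g p < g q → ((y p).re < (y q).re ∨ ((y p).re = (y q).re ∧ (y p).im < (y q).im)) := by
    intro p q hpq
    rw [hg] at hpq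
    exact (Prod.Lex.toLex_lt_toLex).mp hpq
  exact h4 _ _ h3

theorem glue {k n : ℕ} {f : (Fin k → ℂ) → (Fin n → ℂ)}
    {ρ : ℤ → (Fin k → ℂ) → (Fin n → ℂ)} (hc : ∀ a, ContinuousOn (ρ a) (XX k))
    (hρ : ∀ a, ∀ x ∈ XX k, IsRoots (ρ a x) (f (GG a x)))
    {S : Equiv.Perm (Fin k) → ℤ → Equiv.Perm (Fin n)}
    (hS : ∀ (σ : Equiv.Perm (Fin k)) (a : ℤ), ∀ x ∈ WW σ, ∀ j, ρ (a + inv σ) (fun i => x (σ i)) (S σ a j) = ρ a x j)
    {L : Equiv.Perm (Fin k) → ℤ → Equiv.Perm (Fin n)}
    (hL : ∀ (π σ : Equiv.Perm (Fin k)) (a : ℤ), L (π * σ) (a + inv σ) = S σ a * L π a) :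
    ∃ μ : (Fin k → ℂ) → (Fin n → ℂ), ContinuousOn μ (MF k) ∧ ∀ x ∈ MF k, ∀ z, IsRoots x z → IsRoots (μ x) (f z) := by
  classical
  -- permutation invariance of root lists and of `zc`
  have hperm : ∀ (m : ℕ) (r z : Fin m → ℂ) (τ : Equiv.Perm (Fin m)), IsRoots r z → IsRoots (fun i => r (τ i)) z := by
    intro m r z τ h
    unfold IsRoots at h ⊢
    rw [h]
    exact (Equiv.prod_comp τ fun i => (Polynomial.X - Polynomial.C (r i))).symm
  have hzc : ∀ (m : ℕ) (r z : Fin m → ℂ), IsRoots r z → z = zc r := by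
    intro m r z h
    apply Pool.Agent.H60.OC.poly_inj
    have h1 := Pool.Agent.H60.OC.zc_roots r
    unfold IsRoots at h h1
    rw [h, h1]
  have hzcp : ∀ (r : Fin k → ℂ) (τ : Equiv.Perm (Fin k)), zc (fun i => r (τ i)) = zc r := by
    intro r τ
    exact (hzc k (fun i => r (τ i)) (zc r) (hperm k r (zc r) τ (Pool.Agent.H60.OC.zc_roots r))).symm
  have hvd : ∀ y ∈ MF k, ∀ τ : Equiv.Perm (Fin k), vd (fun i => y (τ i)) ^ 2 = 1 := by
    intro y hy τ
    rw [Pool.Agent.H60.OC.vd_perm, hy.2, mul_one]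
    rcases Int.units_eq_one_or (Equiv.Perm.sign τ) with h2 | h2 <;> rw [h2] <;> simp
  have hXX : ∀ x : Fin k → ℂ, (∀ i j, i < j → ((x i).re < (x j).re ∨ ((x i).re = (x j).re ∧ (x i).im < (x j).im))) →
      x ∈ XX k := by
    intro x hx i j hij
    rw [Complex.mem_slitPlane_iff, Complex.sub_re, Complex.sub_im]
    rcases hx i j hij with h | h
    · left
      linarith
    · right
      have := h.2
      intro h0
      linarith
  -- the choice of the permutation and of the integer
  have hch : ∀ y : Fin k → ℂ, ∃ (π : Equiv.Perm (Fin k)) (a : ℤ), y ∈ MF k →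
      (∀ i j, i < j → ((y (π i)).re < (y (π j)).re ∨ ((y (π i)).re = (y (π j)).re ∧ (y (π i)).im < (y (π j)).im))) ∧
      lg (fun i => y (π i)) = -((Real.pi : ℂ) * Complex.I * (a : ℂ)) := by
    intro y
    by_cases hy : y ∈ MF k
    · obtain ⟨π, hπ⟩ := lexsort y (Pool.Agent.H60.OC.inj_of_mem hy)
      obtain ⟨a, ha⟩ := lg_int (hXX (fun i => y (π i)) hπ) (hvd y hy π)
      exact ⟨π, a, fun _ => ⟨hπ, ha⟩⟩
    · exact ⟨1, 0, fun h => absurd h hy⟩
  choose π a hπa using hch
  refine ⟨fun y j => ρ (a y) (fun i => y (π y i)) (L (π y) (a y) j), ?_, ?_⟩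
  · intro y₀ hy₀
    obtain ⟨hlex₀, hlg₀⟩ := hπa y₀ hy₀
    have hx₀ := hXX (fun i => y₀ (π y₀ i)) hlex₀
    have hcomp : Continuous fun y : Fin k → ℂ => fun i => y (π y₀ i) := by fun_prop
    have hXXn : ∀ᶠ y in 𝓝 y₀, (fun i => y (π y₀ i)) ∈ XX k :=
      hcomp.continuousAt.eventually_mem ((XX_open k).mem_nhds hx₀)
    have hlgc : ContinuousAt (fun y : Fin k → ℂ => lg fun i => y (π y₀ i)) y₀ :=
      ((lg_cont k).continuousAt ((XX_open k).mem_nhds hx₀)).comp_of_eq hcomp.continuousAt rfl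
    have hlgn : ∀ᶠ y in 𝓝 y₀, ‖lg (fun i => y (π y₀ i)) - lg (fun i => y₀ (π y₀ i))‖ < Real.pi := by
      have h1 : ContinuousAt (fun y : Fin k → ℂ => ‖lg (fun i => y (π y₀ i)) - lg (fun i => y₀ (π y₀ i))‖) y₀ :=
        (hlgc.sub continuousAt_const).norm
      refine h1.eventually_lt continuousAt_const ?_
      rw [sub_self, norm_zero]
      exact Real.pi_pos
    have hre : ∀ᶠ y in 𝓝 y₀, ∀ i j : Fin k, (y₀ (π y₀ i)).re < (y₀ (π y₀ j)).re →
        (y (π y₀ i)).re < (y (π y₀ j)).re := by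
      rw [Filter.eventually_all]
      intro i
      rw [Filter.eventually_all]
      intro j
      by_cases h : (y₀ (π y₀ i)).re < (y₀ (π y₀ j)).re
      · have h1 : ContinuousAt (fun y : Fin k → ℂ => (y (π y₀ i)).re) y₀ :=
          (Complex.continuous_re.comp (continuous_apply _)).continuousAt
        have h2 : ContinuousAt (fun y : Fin k → ℂ => (y (π y₀ j)).re) y₀ :=
          (Complex.continuous_re.comp (continuous_apply _)).continuousAt
        filter_upwards [h1.eventually_lt h2 h] with y hy _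
        exact hy
      · exact Filter.Eventually.of_forall fun y h' => absurd h' h
    have him : ∀ᶠ y in 𝓝 y₀, ∀ i j : Fin k, (y₀ (π y₀ i)).im < (y₀ (π y₀ j)).im →
        (y (π y₀ i)).im < (y (π y₀ j)).im := by
      rw [Filter.eventually_all]
      intro i
      rw [Filter.eventually_all]
      intro j
      by_cases h : (y₀ (π y₀ i)).im < (y₀ (π y₀ j)).im
      · have h1 : ContinuousAt (fun y : Fin k → ℂ => (y (π y₀ i)).im) y₀ :=
          (Complex.continuous_im.comp (continuous_apply _)).continuousAt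
        have h2 : ContinuousAt (fun y : Fin k → ℂ => (y (π y₀ j)).im) y₀ :=
          (Complex.continuous_im.comp (continuous_apply _)).continuousAt
        filter_upwards [h1.eventually_lt h2 h] with y hy _
        exact hy
      · exact Filter.Eventually.of_forall fun y h' => absurd h' h
    have heq : ∀ᶠ y in 𝓝[MF k] y₀, (fun j => ρ (a y) (fun i => y (π y i)) (L (π y) (a y) j)) =
        fun j => ρ (a y₀) (fun i => y (π y₀ i)) (L (π y₀) (a y₀) j) := by
      filter_upwards [hXXn.filter_mono nhdsWithin_le_nhds, hlgn.filter_mono nhdsWithin_le_nhds,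
        hre.filter_mono nhdsWithin_le_nhds, him.filter_mono nhdsWithin_le_nhds, self_mem_nhdsWithin]
        with y h1 h2 h3 h4 hy
      obtain ⟨hlex, hlgy⟩ := hπa y hy
      -- the integer of `y ∘ π₀`
      have hlgx : lg (fun i => y (π y₀ i)) = -((Real.pi : ℂ) * Complex.I * (a y₀ : ℂ)) := by
        obtain ⟨b, hb⟩ := lg_int h1 (hvd y hy (π y₀))
        have h5 : b = a y₀ := by
          rw [hb, hlg₀] at h2
          have e1 : -((Real.pi : ℂ) * Complex.I * (b : ℂ)) - -((Real.pi : ℂ) * Complex.I * (a y₀ : ℂ)) =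
              (Real.pi : ℂ) * Complex.I * (((a y₀ - b : ℤ)) : ℂ) := by
            push_cast
            ring
          rw [e1, norm_mul, norm_mul, Complex.norm_I, mul_one, Complex.norm_real, Real.norm_eq_abs,
            abs_of_pos Real.pi_pos, Complex.norm_intCast] at h2
          have h6 : |((a y₀ - b : ℤ) : ℝ)| < 1 := by
            by_contra hcon
            push Not at hcon
            have := mul_le_mul_of_nonneg_left hcon Real.pi_pos.le
            linarith
          have h7 : |a y₀ - b| < 1 := by exact_mod_cast h6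
          have h8 := Int.abs_lt_one_iff.mp h7
          omega
        rw [hb, h5]
      obtain ⟨σ, hσ⟩ : ∃ σ : Equiv.Perm (Fin k), σ = (π y₀)⁻¹ * π y := ⟨_, rfl⟩
      have hπσ : π y = π y₀ * σ := by rw [hσ, mul_inv_cancel_left]
      have hxσ : (fun i => y (π y₀ (σ i))) = fun i => y (π y i) := by
        funext i
        rw [hπσ, Equiv.Perm.mul_apply]
      have hW : (fun i => y (π y₀ i)) ∈ WW σ := by
        intro i j hij
        have hl₀ := hlex₀ i j hij
        refine ⟨?_, fun hinv => ?_⟩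
        · rcases hl₀ with h | h
          · exact Or.inl (h3 i j h)
          · exact Or.inr (h4 i j h.2)
        · rcases hl₀ with h | h
          · exfalso
            have h5 := h3 i j h
            have h6 := hlex _ _ hinv
            rw [hπσ, Equiv.Perm.mul_apply, Equiv.Perm.mul_apply, Equiv.apply_symm_apply,
              Equiv.apply_symm_apply] at h6
            rcases h6 with h6 | h6
            · linarith
            · have := h6.1
              linarith
          · exact h4 i j h.2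
      have ha : a y = a y₀ + inv σ := by
        have h5 := lg_comp σ hW
        rw [hxσ, hlgy, hlgx] at h5
        have h6 : ((Real.pi : ℂ) * Complex.I) * ((a y : ℂ)) =
            ((Real.pi : ℂ) * Complex.I) * (((a y₀ + inv σ : ℤ)) : ℂ) := by
          push_cast
          linear_combination -h5
        have h7 : (Real.pi : ℂ) * Complex.I ≠ 0 :=
          mul_ne_zero (Complex.ofReal_ne_zero.mpr Real.pi_ne_zero) Complex.I_ne_zero
        exact_mod_cast mul_left_cancel₀ h7 h6
      funext j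
      rw [ha, ← hxσ]
      have e2 : L (π y) (a y₀ + inv σ) = S σ (a y₀) * L (π y₀) (a y₀) := by
        rw [hπσ]
        exact hL (π y₀) σ (a y₀)
      rw [e2, Equiv.Perm.mul_apply]
      exact hS σ (a y₀) _ hW (L (π y₀) (a y₀) j)
    have hcont : ContinuousWithinAt (fun y : Fin k → ℂ => fun j => ρ (a y₀) (fun i => y (π y₀ i)) (L (π y₀) (a y₀) j))
        (MF k) y₀ := by
      refine ContinuousAt.continuousWithinAt ?_
      have h1 : ContinuousAt (fun y : Fin k → ℂ => ρ (a y₀) (fun i => y (π y₀ i))) y₀ :=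
        ((hc (a y₀)).continuousAt ((XX_open k).mem_nhds hx₀)).comp_of_eq hcomp.continuousAt rfl
      exact continuousAt_pi.mpr fun j => (continuousAt_pi.mp h1) _
    exact hcont.congr_of_eventuallyEq heq (heq.self_of_nhdsWithin hy₀)
  · intro y hy z hz
    obtain ⟨hlex, hlgy⟩ := hπa y hy
    have h1 := hρ (a y) (fun i => y (π y i)) (hXX _ hlex)
    have hs : ∑ i, y (π y i) = 0 := by
      rw [Equiv.sum_comp (π y) y]
      exact hy.1
    rw [GG_of_lg (a y) hs hlgy, hzcp y (π y), ← hzc k y z hz] at h1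
    exact hperm n _ _ (L (π y) (a y)) h1

end Pool.Agent.LR
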