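import Pool.Agent.LR.GrpC

/-!
# Homomorphisms from braid groups to small symmetric groups

`Pool.Agent.LR.Grp.sq_eq`: for `r ≥ 8` and permutations `g 0, ..., g (r-1)` of fewer than
`2(r-1)` points which satisfy the braid relations all squares `g i ^ 2` agree.
-/

set_option autoImplicit false

namespace Pool.Agent.LR.Grp

open Equiv Equiv.Perm

universe u

theorem AllEq.of_equiv {β γ : Type*} [Fintype β] [DecidableEq β] [Fintype γ] [DecidableEq γ]
    {r : ℕ} (e : β ≃ γ) (h : AllEq r γ) : AllEq r β := by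
  intro g hg i hi
  have h1 : Br r (fun j => e.permCongrHom (g j)) := hg.map e.permCongrHom.toMonoidHom
  have h2 := h _ h1 i hi
  exact e.permCongrHom.injective h2

theorem allEq_of_comm {β : Type*} [Fintype β] [DecidableEq β] (hc : ∀ a b : Perm β, a * b = b * a)
    (r : ℕ) : AllEq r β := by
  intro g hg i hi
  by_cases hr : r ≤ 1
  · obtain rfl : i = 0 := by omega
    rfl
  · exact hg.all_eq_of_adj (i := 0) (by omega) (hg.eq_of_comm (by omega) (hc _ _)) i hi

theorem fin3_a' : ∀ a b : Perm (Fin 3), (a * a = 1 ∧ b * b = 1 ∧ a ≠ 1 ∧ b ≠ 1 ∧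
    a * b = b * a) → a = b := by decide

theorem fin3_a (a b : Perm (Fin 3)) (h1 : a * a = 1) (h2 : b * b = 1) (h3 : a ≠ 1) (h4 : b ≠ 1)
    (h5 : a * b = b * a) : a = b := fin3_a' a b ⟨h1, h2, h3, h4, h5⟩

theorem fin3_b : ∀ a b : Perm (Fin 3), a * a ≠ 1 → b * b ≠ 1 → a * b = b * a := by decide

theorem fin2_comm : ∀ a b : Perm (Fin 2), a * b = b * a := by decide

theorem conj_props {G : Type*} [Group G] {a b d : G} (h : d * a = b * d) :
    (a = 1 ↔ b = 1) ∧ (a * a = 1 ↔ b * b = 1) := by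
  have hb : b = d * a * d⁻¹ := by rw [h]; group
  subst hb
  constructor
  · simp
  · have : d * a * d⁻¹ * (d * a * d⁻¹) = d * (a * a) * d⁻¹ := by group
    rw [this]
    simp

theorem allEq_fin3 {r : ℕ} (hr : 4 ≤ r) : AllEq r (Fin 3) := by
  intro g hg i hi
  have h1 := conj_props (delta_conj hg r le_rfl 0 (by omega))
  have h2 := conj_props (delta_conj hg r le_rfl 1 (by omega))
  by_cases h3 : g 0 * g 0 = 1
  · by_cases h4 : g 0 = 1
    · exact hg.all_eq_of_adj (i := 0) (by omega) (by rw [h4, h1.1.1 h4]) i hi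
    · exact hg.all_eq_of_02 hr (fin3_a _ _ h3 (h2.2.1 (h1.2.1 h3)) h4
        (fun h5 => h4 (h1.1.2 (h2.1.2 h5))) (hg.comm 0 2 (by omega) (by omega))) i hi
  · exact hg.all_eq_of_adj (i := 0) (by omega) (hg.eq_of_comm (by omega)
      (fin3_b _ _ h3 (fun h5 => h3 (h1.2.2 h5)))) i hi

theorem allEq_small {β : Type*} [Fintype β] [DecidableEq β] (r : ℕ)
    (h : Fintype.card β ≤ 2 ∨ (Fintype.card β ≤ 3 ∧ 4 ≤ r)) : AllEq r β := by
  obtain ⟨n, hn⟩ : ∃ n, n = Fintype.card β := ⟨_, rfl⟩
  rw [← hn] at h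
  have e : β ≃ Fin n := Fintype.equivFinOfCardEq hn.symm
  refine AllEq.of_equiv e ?_
  have hn3 : n ≤ 3 := by omega
  interval_cases n
  · exact allEq_of_comm (fun a b => Subsingleton.elim _ _) r
  · exact allEq_of_comm (fun a b => Subsingleton.elim _ _) r
  · exact allEq_of_comm fin2_comm r
  · exact allEq_fin3 (by omega)

/-- the data of the counting argument from the statement on the cycles -/
theorem dat_of {α : Type u} [Fintype α] [DecidableEq α] {r : ℕ} (hr : 6 ≤ r) {g : ℕ → Perm α}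
    (h : Br r g) (hcyc : ∀ φ : Perm α, AllEq (r - 2) φ.cycleFactorsFinset) : Dat r g where
  br := h
  hr := by omega
  left := step hr h (hcyc _)
  right := by
    intro x hx j hj
    have h1 := step hr h.rev (hcyc _) x hx (r - 1 - j) (by omega) (by omega)
    have e1 : r - 1 - (r - 1 - j) = j := by omega
    have e2 : r - 1 - 2 = r - 3 := by omega
    rw [e1, e2] at h1
    exact h1

/-- braid generators in the permutations of at most `r` points are all equal -/
theorem allEq_of_card (r : ℕ) : ∀ (β : Type u) [Fintype β] [DecidableEq β],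
    (Fintype.card β ≤ 2 ∨ (Fintype.card β ≤ 3 ∧ 4 ≤ r) ∨ (Fintype.card β ≤ r ∧ 6 ≤ r)) →
    AllEq r β := by
  induction r using Nat.strong_induction_on with
  | _ r ih =>
    intro β _ _ h
    by_cases h1 : Fintype.card β ≤ 2 ∨ (Fintype.card β ≤ 3 ∧ 4 ≤ r)
    · exact allEq_small r h1
    · intro g hg
      have h2 : ∀ φ : Perm β, AllEq (r - 2) φ.cycleFactorsFinset := by
        intro φ
        apply ih (r - 2) (by omega)
        have h3 := two_mul_card_cycles_le φ
        by_cases h4 : Fintype.card φ.cycleFactorsFinset ≤ 2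
        · exact Or.inl h4
        · by_cases h5 : Fintype.card φ.cycleFactorsFinset ≤ 3
          · exact Or.inr (Or.inl ⟨h5, by omega⟩)
          · exact Or.inr (Or.inr ⟨by omega, by omega⟩)
      exact (dat_of (by omega) hg h2).all_eq (by omega)

/-- GROUP LEMMA -/
theorem sq_eq {α : Type u} [Fintype α] [DecidableEq α] {r : ℕ} (hr : 8 ≤ r) (g : ℕ → Perm α)
    (hc : ∀ i j, i + 2 ≤ j → j < r → g i * g j = g j * g i)
    (hb : ∀ i, i + 1 < r → g i * g (i + 1) * g i = g (i + 1) * g i * g (i + 1))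
    (hn : Fintype.card α < 2 * (r - 1)) :
    ∀ i, i < r → ∀ j, j < r → g i * g i = g j * g j := by
  have h : Br r g := ⟨hc, hb⟩
  refine (dat_of (by omega) h ?_).sq_eq hn
  intro φ
  apply allEq_of_card (r - 2)
  have h3 := two_mul_card_cycles_le φ
  exact Or.inr (Or.inr ⟨by omega, by omega⟩)

end Pool.Agent.LR.Grp
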