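import Pool.Agent.LR.Defs

/-!
# LR SlitA: the slit region and the normalised configuration

`XX k` is open (finitely many open conditions, `Complex.isOpen_slitPlane`), star-convex about `(0, 1, ..., k - 1)`: the
differences of that point are `j - i > 0`, and the slit plane is star-convex about every positive real number
(`Complex.starConvex_one_slitPlane` scaled; or directly: if `a w + b r` with `r > 0`, `w` in the slit plane, `a, b ≥ 0`,
`a + b = 1`).  `lg` is continuous on `XX k`.  `(exp (t / N)) ^ N = exp t` with `N = NN k` (`0 < N` for `k ≥ 2`;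
`OC.NN_pos`), so by `OC.vd_nm`: `vd (nrm a x) = vd x / exp (lg x + π i a)`, and `exp (lg x) = ∏_{pairs} (x_j - x_i) =
± vd x` (`OC.vd_eq`: the product of `x_i - x_j`), `exp (π i a) = ± 1`.  Hence `vd (nrm a x)^2 = 1` and `∑ nrm = 0` (see the
proof of `OC.nm_mem`), and `GG a x ∈ SG k` (see the proof of `OC.zc_mem`).  `zc` is continuous (coefficients of a
product of `X - C (x j)`: polynomials in `x`; see `OC.coeff_an` in `H60/OC/RootAna.lean` for an induction, or
`Multiset.prod_X_sub_C_coeff` / esymm).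
-/

set_option autoImplicit false

open Topology Filter Polynomial

noncomputable section

namespace Pool.Agent.LR

open Pool.Agent.H60.OC (Pr NN nm zc SG MF IsRoots vd poly)

private theorem SlitA_coeff {k : ℕ} (s : Finset (Fin k)) (m : ℕ) :
    Continuous fun x : Fin k → ℂ => (∏ j ∈ s, (X - C (x j)) : ℂ[X]).coeff m := by
  classical
  induction s using Finset.induction_on generalizing m with
  | empty =>
    simp only [Finset.prod_empty]
    exact continuous_const
  | insert i s hi ih =>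
    simp only [Finset.prod_insert hi, sub_mul, coeff_sub, coeff_C_mul]
    refine Continuous.sub ?_ ((continuous_apply i).mul (ih m))
    cases m with
    | zero =>
      simp only [coeff_X_mul_zero]
      exact continuous_const
    | succ m =>
      simp only [coeff_X_mul]
      exact ih m

theorem zc_continuous {k : ℕ} : Continuous (zc : (Fin k → ℂ) → (Fin k → ℂ)) :=
  continuous_pi fun i => SlitA_coeff Finset.univ (k - 1 - (i : ℕ))

theorem XX_open (k : ℕ) : IsOpen (XX k) := by
  have h : XX k = ⋂ p : Pr k, {x : Fin k → ℂ | x p.1.2 - x p.1.1 ∈ Complex.slitPlane} := by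
    ext x
    simp only [XX, Set.mem_ofPred_eq, Set.mem_iInter]
    exact ⟨fun h p => h _ _ p.2, fun h i j hij => h ⟨(i, j), hij⟩⟩
  rw [h]
  exact isOpen_iInter_of_finite fun p =>
    Complex.isOpen_slitPlane.preimage ((continuous_apply p.1.2).sub (continuous_apply p.1.1))

private theorem SlitA_pos {k : ℕ} {i j : Fin k} (hij : i < j) : (0 : ℝ) < ((j : ℕ) : ℝ) - ((i : ℕ) : ℝ) := by
  have h : ((i : ℕ) : ℝ) < ((j : ℕ) : ℝ) := by exact_mod_cast hij
  linarith

private theorem SlitA_cast {k : ℕ} (i j : Fin k) :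
    (((((j : ℕ) : ℝ) - ((i : ℕ) : ℝ) : ℝ)) : ℂ) = ((j : ℕ) : ℂ) - ((i : ℕ) : ℂ) := by
  push_cast
  rfl

theorem XX_base (k : ℕ) : (fun i : Fin k => ((i : ℕ) : ℂ)) ∈ XX k := by
  intro i j hij
  show ((j : ℕ) : ℂ) - ((i : ℕ) : ℂ) ∈ Complex.slitPlane
  rw [← SlitA_cast i j]
  exact Complex.ofReal_mem_slitPlane.2 (SlitA_pos hij)

theorem XX_star (k : ℕ) : StarConvex ℝ (fun i : Fin k => ((i : ℕ) : ℂ)) (XX k) := by
  intro x hx a b ha hb hab i j hij
  have h := Complex.starConvex_ofReal_slitPlane (SlitA_pos hij) (hx i j hij) ha hb hab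
  have he : (a • (fun i : Fin k => ((i : ℕ) : ℂ)) + b • x) j - (a • (fun i : Fin k => ((i : ℕ) : ℂ)) + b • x) i =
      a • ((((((j : ℕ) : ℝ) - ((i : ℕ) : ℝ) : ℝ)) : ℂ)) + b • (x j - x i) := by
    rw [SlitA_cast]
    simp only [Pi.add_apply, Pi.smul_apply, Complex.real_smul]
    ring
  rw [he]
  exact h

theorem lg_cont (k : ℕ) : ContinuousOn (lg (k := k)) (XX k) := by
  unfold lg
  refine continuousOn_finsetSum _ fun p _ => ?_
  exact ContinuousOn.clog ((continuous_apply p.1.2).sub (continuous_apply p.1.1)).continuousOn fun x hx => hx _ _ p.2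

theorem GG_cont (k : ℕ) (a : ℤ) : ContinuousOn (GG (k := k) a) (XX k) := by
  unfold GG
  refine zc_continuous.comp_continuousOn ?_
  unfold nrm nm
  refine continuousOn_pi.2 fun i => ?_
  refine ContinuousOn.div ?_ ?_ fun x _ => Complex.exp_ne_zero _
  · exact ((continuous_apply i).sub ((continuous_finsetSum _ fun j _ => continuous_apply j).div_const _)).continuousOn
  · exact Complex.continuous_exp.comp_continuousOn (((lg_cont k).add continuousOn_const).div_const _)

private theorem SlitA_exp {k : ℕ} {x : Fin k → ℂ} (hx : x ∈ XX k) : Complex.exp (lg x) ^ 2 = vd x ^ 2 := by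
  have h1 : Complex.exp (lg x) = ∏ p : Pr k, (x p.1.2 - x p.1.1) := by
    unfold lg
    rw [Complex.exp_sum]
    exact Finset.prod_congr rfl fun p _ => Complex.exp_log (Complex.slitPlane_ne_zero (hx _ _ p.2))
  rw [h1, Pool.Agent.H60.OC.vd_eq, ← Finset.prod_pow, ← Finset.prod_pow]
  refine Finset.prod_congr rfl fun p _ => ?_
  unfold Pool.Agent.H60.OC.ell
  ring

private theorem SlitA_vd {k : ℕ} {x : Fin k → ℂ} (hx : x ∈ XX k) : vd x ≠ 0 := by
  intro h
  have h1 := SlitA_exp hx
  rw [h] at h1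
  exact pow_ne_zero 2 (Complex.exp_ne_zero _) (h1.trans (by norm_num))

private theorem SlitA_two (a : ℤ) : Complex.exp ((Real.pi : ℂ) * Complex.I * (a : ℂ)) ^ 2 = 1 := by
  rw [← Complex.exp_nat_mul]
  have h : ((2 : ℕ) : ℂ) * ((Real.pi : ℂ) * Complex.I * (a : ℂ)) = (a : ℂ) * (2 * (Real.pi : ℂ) * Complex.I) := by
    push_cast
    ring
  rw [h]
  exact Complex.exp_int_mul_two_pi_mul_I a

theorem GG_mem {k : ℕ} (hk : 2 ≤ k) (a : ℤ) {x : Fin k → ℂ} (hx : x ∈ XX k) : GG a x ∈ SG k := by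
  have hkC : (k : ℂ) ≠ 0 := by
    have : k ≠ 0 := by omega
    exact_mod_cast this
  have hN : ((NN k : ℕ) : ℂ) ≠ 0 := by
    have h := (Pool.Agent.H60.OC.NN_pos hk).ne'
    exact_mod_cast h
  have hsum : ∑ i, nrm a x i = 0 := by
    unfold nrm nm
    rw [← Finset.sum_div, Finset.sum_sub_distrib, Finset.sum_const, Finset.card_univ, Fintype.card_fin, nsmul_eq_mul,
      mul_div_cancel₀ _ hkC, sub_self, zero_div]
  have hvd : vd (nrm a x) ^ 2 = 1 := by
    have ht : Complex.exp ((lg x + (Real.pi : ℂ) * Complex.I * (a : ℂ)) / (NN k : ℂ)) ^ NN k =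
        Complex.exp (lg x + (Real.pi : ℂ) * Complex.I * (a : ℂ)) := by
      rw [← Complex.exp_nat_mul, mul_div_cancel₀ _ hN]
    unfold nrm
    rw [Pool.Agent.H60.OC.vd_nm, ht, div_pow, Complex.exp_add, mul_pow, SlitA_exp hx, SlitA_two, mul_one]
    exact div_self (pow_ne_zero 2 (SlitA_vd hx))
  refine ⟨fun i hi => ?_, nrm a x, Pool.Agent.H60.OC.zc_roots _, hvd⟩
  have hk0 : 0 < k := by omega
  have h1 := Pool.Agent.H60.OC.sum_of_roots hk0 (Pool.Agent.H60.OC.zc_roots (nrm a x))
  rw [hsum, neg_zero] at h1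
  have h2 : i = ⟨0, hk0⟩ := Fin.ext hi
  rw [h2]
  exact h1

/-- If the product of the differences is `± 1`, the logarithm is an integer multiple of `π i`. -/
theorem lg_int {k : ℕ} {x : Fin k → ℂ} (hx : x ∈ XX k) (hv : vd x ^ 2 = 1) :
    ∃ a : ℤ, lg x = -((Real.pi : ℂ) * Complex.I * (a : ℂ)) := by
  have h1 := SlitA_exp hx
  rw [hv, ← Complex.exp_nat_mul] at h1
  obtain ⟨n, hn⟩ := Complex.exp_eq_one_iff.1 h1
  refine ⟨-n, ?_⟩
  push_cast at hn ⊢
  linear_combination (1 / 2 : ℂ) * hn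

theorem GG_of_lg {k : ℕ} (a : ℤ) {x : Fin k → ℂ} (hs : ∑ i, x i = 0)
    (hl : lg x = -((Real.pi : ℂ) * Complex.I * (a : ℂ))) : GG a x = zc x := by
  unfold GG
  congr 1
  funext i
  unfold nrm nm
  rw [hl, neg_add_cancel, zero_div, Complex.exp_zero, hs, zero_div, sub_zero, div_one]

end Pool.Agent.LR
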