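import Pool.Agent.LR.Defs
import Pool.Agent.LR.Braid

/-!
# LR SysRel: the relations of an abstract system

Write `s_{i,a} = S (sw i) a`.

`far`: for `i + 2 ≤ j`, `j + 1 < k` the permutations `sw i * sw j = sw j * sw i`; `S_mul` for `π = sw i` at `j`
(`sw i j = j < j + 1 = sw i (j + 1)`) gives `S (sw i * sw j) a = s_{j,a+1} * s_{i,a}`, and with the roles exchanged
`S (sw j * sw i) a = s_{i,a+1} * s_{j,a}`.

`braid`: `sw i * sw (i+1) * sw i = sw (i+1) * sw i * sw (i+1)`; `S_mul` twice on both sides (the conditions: `sw i (i+1) = i <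
i + 2 = sw i (i+2)`; `(sw i * sw (i+1)) i = i + 1`, `(sw i * sw (i+1)) (i+1) = i + 2`; similarly on the other side), `d (sw i) = 1`,
`d (sw i * sw (i+1)) = 2`.

`rel_hi`: with `κ = k - 2`: `φ_i = s_{κ,a}⁻¹ * s_{i,a}`, `i ≤ k - 4`.  From `far`: `s_{κ,a+1}⁻¹ s_{i,a+1} = s_{i,a} s_{κ,a}⁻¹` (for all `a`).
Multiply `s_{j,a+1} s_{i,a} = s_{i,a+1} s_{j,a}` (far) on the left by `s_{κ,a}⁻¹ s_{κ,a+1}⁻¹` to get `φ_j φ_i = φ_i φ_j`; multiply the braid
relation on the left by `s_{κ,a}⁻¹ s_{κ,a+1}⁻¹ s_{κ,a+2}⁻¹` to get `φ_i φ_{i+1} φ_i = φ_{i+1} φ_i φ_{i+1}`.  `rel_lo`: the same with `κ = 0` and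
`φ_i = s_{0,a}⁻¹ * s_{i+2,a}`.

`sq_hi`, `sq_lo`: `φ_i * φ_i = s_{κ,a}⁻¹ s_{κ,a+1}⁻¹ s_{i,a+1} s_{i,a}`, so if all the `φ_i * φ_i` are equal, the products
`s_{i,a+1} s_{i,a}` are equal for these `i`.

`q_all`: combine: `s_{i,a+1} s_{i,a}` is the same for all `i ≤ k - 4` and for all `2 ≤ i ≤ k - 2`; `k ≥ 6`, so for all `i`.
-/

set_option autoImplicit false

namespace Pool.Agent.LR

theorem sysrel_sw_val {k i : ℕ} (h : i + 1 < k) (x : Fin k) :
    ((sw (k := k) i x : Fin k) : ℕ) =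
      if (x : ℕ) = i then i + 1 else if (x : ℕ) = i + 1 then i else (x : ℕ) := by
  unfold sw
  rw [dif_pos h, Equiv.swap_apply_def]
  by_cases h1 : (x : ℕ) = i
  · rw [if_pos h1, if_pos (Fin.ext h1)]
  · rw [if_neg h1, if_neg (fun h2 => h1 (by rw [h2]))]
    by_cases h3 : (x : ℕ) = i + 1
    · rw [if_pos h3, if_pos (Fin.ext h3)]
    · rw [if_neg h3, if_neg (fun h2 => h3 (by rw [h2]))]

theorem sysrel_sw_comm {k i j : ℕ} (hij : i + 2 ≤ j) (hj : j + 1 < k) :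
    sw (k := k) i * sw j = sw j * sw i := by
  ext x
  rw [Equiv.Perm.mul_apply, Equiv.Perm.mul_apply, sysrel_sw_val (by omega), sysrel_sw_val hj,
    sysrel_sw_val hj, sysrel_sw_val (by omega)]
  split_ifs <;> omega

theorem sysrel_sw_braid {k i : ℕ} (hi : i + 2 < k) :
    sw (k := k) i * sw (i + 1) * sw i = sw (i + 1) * sw i * sw (i + 1) := by
  ext x
  simp only [Equiv.Perm.mul_apply]
  rw [sysrel_sw_val (by omega), sysrel_sw_val (by omega), sysrel_sw_val (by omega),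
    sysrel_sw_val (by omega), sysrel_sw_val (by omega), sysrel_sw_val (by omega)]
  split_ifs <;> omega

/-- The abstract computation behind `rel_hi`, `rel_lo`. -/
theorem sysrel_abs {G : Type} [Group G] {m : ℕ} {u : ℤ → G} {v : ℕ → ℤ → G}
    (hu : ∀ i, i + 1 < m → ∀ a, v i (a + 1) * u a = u (a + 1) * v i a)
    (hf : ∀ i j, i + 2 ≤ j → j + 1 < m → ∀ a, v j (a + 1) * v i a = v i (a + 1) * v j a)
    (hb : ∀ i, i + 2 < m → ∀ a, v i (a + 2) * v (i + 1) (a + 1) * v i a =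
      v (i + 1) (a + 2) * v i (a + 1) * v (i + 1) a) (a : ℤ) :
    BraidRel m (fun i => (u a)⁻¹ * v i a) ∧
      ∀ i, i + 1 < m → ((u a)⁻¹ * v i a) * ((u a)⁻¹ * v i a) =
        (u a)⁻¹ * (u (a + 1))⁻¹ * (v i (a + 1) * v i a) := by
  have key : ∀ i, i + 1 < m → ∀ b, v i b * (u b)⁻¹ = (u (b + 1))⁻¹ * v i (b + 1) := by
    intro i hi b
    rw [mul_inv_eq_iff_eq_mul, mul_assoc, eq_inv_mul_iff_mul_eq, hu i hi b]
  have two : ∀ i j, i + 1 < m → j + 1 < m →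
      ((u a)⁻¹ * v i a) * ((u a)⁻¹ * v j a) = (u a)⁻¹ * (u (a + 1))⁻¹ * (v i (a + 1) * v j a) := by
    intro i j hi hj
    calc ((u a)⁻¹ * v i a) * ((u a)⁻¹ * v j a) = (u a)⁻¹ * (v i a * (u a)⁻¹) * v j a := by group
      _ = (u a)⁻¹ * ((u (a + 1))⁻¹ * v i (a + 1)) * v j a := by rw [key i hi a]
      _ = _ := by group
  have three : ∀ i j l, i + 1 < m → j + 1 < m → l + 1 < m →
      ((u a)⁻¹ * v i a) * ((u a)⁻¹ * v j a) * ((u a)⁻¹ * v l a) =
        (u a)⁻¹ * (u (a + 1))⁻¹ * (u (a + 2))⁻¹ * (v i (a + 2) * v j (a + 1) * v l a) := by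
    intro i j l hi hj hl
    have e : a + 2 = a + 1 + 1 := by ring
    calc ((u a)⁻¹ * v i a) * ((u a)⁻¹ * v j a) * ((u a)⁻¹ * v l a)
        = (u a)⁻¹ * (v i a * (u a)⁻¹) * (v j a * (u a)⁻¹) * v l a := by group
      _ = (u a)⁻¹ * ((u (a + 1))⁻¹ * v i (a + 1)) * ((u (a + 1))⁻¹ * v j (a + 1)) * v l a := by
          rw [key i hi a, key j hj a]
      _ = (u a)⁻¹ * (u (a + 1))⁻¹ * (v i (a + 1) * (u (a + 1))⁻¹) * v j (a + 1) * v l a := by group
      _ = (u a)⁻¹ * (u (a + 1))⁻¹ * ((u (a + 1 + 1))⁻¹ * v i (a + 1 + 1)) * v j (a + 1) * v l a := by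
          rw [key i hi (a + 1)]
      _ = _ := by rw [e]; group
  refine ⟨⟨?_, ?_⟩, fun i hi => two i i hi hi⟩
  · intro i j hij hj
    show ((u a)⁻¹ * v i a) * ((u a)⁻¹ * v j a) = ((u a)⁻¹ * v j a) * ((u a)⁻¹ * v i a)
    rw [two i j (by omega) hj, two j i hj (by omega), hf i j hij hj a]
  · intro i hi
    show ((u a)⁻¹ * v i a) * ((u a)⁻¹ * v (i + 1) a) * ((u a)⁻¹ * v i a) =
      ((u a)⁻¹ * v (i + 1) a) * ((u a)⁻¹ * v i a) * ((u a)⁻¹ * v (i + 1) a)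
    rw [three i (i + 1) i (by omega) (by omega) (by omega),
      three (i + 1) i (i + 1) (by omega) (by omega) (by omega), hb i hi a]

variable {k : ℕ} {G : Type} [Group G] {d : Equiv.Perm (Fin k) → ℤ} {S : Equiv.Perm (Fin k) → ℤ → G}

theorem Sys.far (h : Sys d S) {i j : ℕ} (hij : i + 2 ≤ j) (hj : j + 1 < k) (a : ℤ) :
    S (sw j) (a + 1) * S (sw i) a = S (sw i) (a + 1) * S (sw j) a := by
  have h1 := h.S_mul (sw i) j hj (by
    rw [Fin.lt_def, sysrel_sw_val (by omega), sysrel_sw_val (by omega)]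
    simp only
    split_ifs <;> omega) a
  have h2 := h.S_mul (sw j) i (by omega) (by
    rw [Fin.lt_def, sysrel_sw_val hj, sysrel_sw_val hj]
    simp only
    split_ifs <;> omega) a
  rw [h.d_sw i (by omega)] at h1
  rw [h.d_sw j hj] at h2
  rw [← h1, ← h2, sysrel_sw_comm hij hj]

theorem Sys.braid (h : Sys d S) {i : ℕ} (hi : i + 2 < k) (a : ℤ) :
    S (sw i) (a + 2) * S (sw (i + 1)) (a + 1) * S (sw i) a =
      S (sw (i + 1)) (a + 2) * S (sw i) (a + 1) * S (sw (i + 1)) a := by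
  have hlt1 : sw (k := k) i ⟨i + 1, by omega⟩ < sw i ⟨i + 1 + 1, by omega⟩ := by
    rw [Fin.lt_def, sysrel_sw_val (by omega), sysrel_sw_val (by omega)]
    simp only
    split_ifs <;> omega
  have hlt2 : sw (k := k) (i + 1) ⟨i, by omega⟩ < sw (i + 1) ⟨i + 1, by omega⟩ := by
    rw [Fin.lt_def, sysrel_sw_val (by omega), sysrel_sw_val (by omega)]
    simp only
    split_ifs <;> omega
  have hlt3 : (sw i * sw (i + 1) : Equiv.Perm (Fin k)) ⟨i, by omega⟩ <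
      (sw i * sw (i + 1) : Equiv.Perm (Fin k)) ⟨i + 1, by omega⟩ := by
    rw [Equiv.Perm.mul_apply, Equiv.Perm.mul_apply, Fin.lt_def, sysrel_sw_val (by omega),
      sysrel_sw_val (by omega), sysrel_sw_val (by omega), sysrel_sw_val (by omega)]
    simp only
    split_ifs <;> omega
  have hlt4 : (sw (i + 1) * sw i : Equiv.Perm (Fin k)) ⟨i + 1, by omega⟩ <
      (sw (i + 1) * sw i : Equiv.Perm (Fin k)) ⟨i + 1 + 1, by omega⟩ := by
    rw [Equiv.Perm.mul_apply, Equiv.Perm.mul_apply, Fin.lt_def, sysrel_sw_val (by omega),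
      sysrel_sw_val (by omega), sysrel_sw_val (by omega), sysrel_sw_val (by omega)]
    simp only
    split_ifs <;> omega
  have a1 := h.S_mul (sw i) (i + 1) (by omega) hlt1 a
  have b1 := h.S_mul (sw (i + 1)) i (by omega) hlt2 a
  have a2 := h.S_mul (sw i * sw (i + 1)) i (by omega) hlt3 a
  have b2 := h.S_mul (sw (i + 1) * sw i) (i + 1) (by omega) hlt4 a
  have da := h.d_mul (sw i) (i + 1) (by omega) hlt1
  have db := h.d_mul (sw (i + 1)) i (by omega) hlt2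
  rw [h.d_sw i (by omega)] at a1 da
  rw [h.d_sw (i + 1) (by omega)] at b1 db
  rw [da, a1] at a2
  rw [db, b1] at b2
  have e : a + (1 + 1) = a + 2 := by ring
  rw [e] at a2 b2
  rw [mul_assoc, mul_assoc, ← a2, ← b2, sysrel_sw_braid hi]

theorem Sys.abs_hi (h : Sys d S) (hk : 4 ≤ k) (a : ℤ) :
    BraidRel (k - 2) (fun i => (S (sw (k - 2)) a)⁻¹ * S (sw i) a) ∧
      ∀ i, i + 1 < k - 2 → ((S (sw (k - 2)) a)⁻¹ * S (sw i) a) * ((S (sw (k - 2)) a)⁻¹ * S (sw i) a) =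
        (S (sw (k - 2)) a)⁻¹ * (S (sw (k - 2)) (a + 1))⁻¹ * (S (sw i) (a + 1) * S (sw i) a) :=
  sysrel_abs (m := k - 2) (u := fun a => S (sw (k - 2)) a) (v := fun i a => S (sw i) a)
    (fun i hi b => (h.far (i := i) (j := k - 2) (by omega) (by omega) b).symm)
    (fun _ _ hij hj b => h.far hij (by omega) b)
    (fun _ hi b => h.braid (by omega) b) a

theorem Sys.abs_lo (h : Sys d S) (hk : 4 ≤ k) (a : ℤ) :
    BraidRel (k - 2) (fun i => (S (sw 0) a)⁻¹ * S (sw (i + 2)) a) ∧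
      ∀ i, i + 1 < k - 2 → ((S (sw 0) a)⁻¹ * S (sw (i + 2)) a) * ((S (sw 0) a)⁻¹ * S (sw (i + 2)) a) =
        (S (sw 0) a)⁻¹ * (S (sw 0) (a + 1))⁻¹ * (S (sw (i + 2)) (a + 1) * S (sw (i + 2)) a) :=
  sysrel_abs (m := k - 2) (u := fun a => S (sw 0) a) (v := fun i a => S (sw (i + 2)) a)
    (fun i hi b => h.far (i := 0) (j := i + 2) (by omega) (by omega) b)
    (fun i j hij hj b => h.far (i := i + 2) (j := j + 2) (by omega) (by omega) b)
    (fun i hi b => h.braid (i := i + 2) (by omega) b) a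

theorem Sys.rel_hi (h : Sys d S) (hk : 4 ≤ k) (a : ℤ) :
    BraidRel (k - 2) (fun i => (S (sw (k - 2)) a)⁻¹ * S (sw i) a) :=
  (h.abs_hi hk a).1

theorem Sys.rel_lo (h : Sys d S) (hk : 4 ≤ k) (a : ℤ) :
    BraidRel (k - 2) (fun i => (S (sw 0) a)⁻¹ * S (sw (i + 2)) a) :=
  (h.abs_lo hk a).1

theorem Sys.q_all (h : Sys d S) (hk : 6 ≤ k)
    (hsq : ∀ φ : ℕ → G, BraidRel (k - 2) φ → ∀ i j, i + 1 < k - 2 → j + 1 < k - 2 → φ i * φ i = φ j * φ j)
    (a : ℤ) (i j : ℕ) (hi : i + 1 < k) (hj : j + 1 < k) :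
    S (sw i) (a + 1) * S (sw i) a = S (sw j) (a + 1) * S (sw j) a := by
  have hhi : ∀ i, i + 1 < k - 2 → S (sw i) (a + 1) * S (sw i) a = S (sw 2) (a + 1) * S (sw 2) a := by
    intro i hi
    obtain ⟨h1, h2⟩ := h.abs_hi (by omega) a
    have h3 := hsq _ h1 i 2 hi (by omega)
    rw [h2 i hi, h2 2 (by omega)] at h3
    exact mul_left_cancel h3
  have hlo : ∀ i, i + 1 < k - 2 →
      S (sw (i + 2)) (a + 1) * S (sw (i + 2)) a = S (sw 2) (a + 1) * S (sw 2) a := by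
    intro i hi
    obtain ⟨h1, h2⟩ := h.abs_lo (by omega) a
    have h3 := hsq _ h1 i 0 hi (by omega)
    rw [h2 i hi, h2 0 (by omega)] at h3
    exact mul_left_cancel h3
  have hall : ∀ i, i + 1 < k → S (sw i) (a + 1) * S (sw i) a = S (sw 2) (a + 1) * S (sw 2) a := by
    intro i hi
    by_cases h1 : i + 1 < k - 2
    · exact hhi i h1
    · have h2 := hlo (i - 2) (by omega)
      rw [show i - 2 + 2 = i by omega] at h2
      exact h2
  rw [hall i hi, hall j hj]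

end Pool.Agent.LR
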