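import Pool.Agent.H60.OC.Main
import Pool.Agent.LR.Cover
import Pool.Agent.LR.SlitA
import Pool.Agent.LR.SlitB
import Pool.Agent.LR.SysRel
import Pool.Agent.LR.Lam
import Pool.Agent.LR.Glue
import Pool.Agent.LR.Grp

/-!
# LR Main: continuous root functions on `MF k`, `11 ≤ k`, for continuous polynomials of degree `< 2 k - 8` on `SG k`
-/

set_option autoImplicit false

open Topology Filter

noncomputable section

namespace Pool.Agent.LR

open Pool.Agent.H60.OC (Pr NN nm zc SG MF IsRoots vd poly HoloOn)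

theorem HoloOn.continuousOn {a b : ℕ} {S : Set (Fin a → ℂ)} {f : (Fin a → ℂ) → (Fin b → ℂ)} (hf : HoloOn S f) :
    ContinuousOn f S := by
  intro z hz
  obtain ⟨g, hg, he⟩ := hf z hz
  have h1 : f z = g z := he.self_of_nhdsWithin hz
  exact (hg.continuousAt.continuousWithinAt (s := S)).congr_of_eventuallyEq he h1

/-- The system of a family of root functions. -/
theorem sys_of_roots {k n : ℕ} {ρ : ℤ → (Fin k → ℂ) → (Fin n → ℂ)}
    (hi : ∀ a, ∀ x ∈ XX k, Function.Injective (ρ a x))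
    {S : Equiv.Perm (Fin k) → ℤ → Equiv.Perm (Fin n)}
    (hS : ∀ (σ : Equiv.Perm (Fin k)) (a : ℤ), ∀ x ∈ WW σ, ∀ j, ρ (a + inv σ) (fun i => x (σ i)) (S σ a j) = ρ a x j) :
    Sys (G := Equiv.Perm (Fin n)) inv S := by
  refine ⟨inv_one, ?_, inv_sw, inv_mul_sw, ?_⟩
  · intro a
    ext j
    have h1 := wit_mem (1 : Equiv.Perm (Fin k)) 1
    have h2 := hS 1 a _ h1 j
    rw [inv_one, add_zero] at h2
    exact congrArg Fin.val (hi a _ (WW_sub _ h1) h2)
  · intro π i hik hlt a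
    ext j
    have h1 := wit_mem π (π * sw i)
    have h2 := hS (π * sw i) a _ h1 j
    have h3 := wit_mem π π
    have h4 := hS π a _ h3 j
    have h5 := wit_mem_sw π i hik hlt
    have h6 := hS (sw i) (a + inv π) _ h5 (S π a j)
    have h7 := WW_comp (sw i) h5
    have e1 : (fun l : Fin k => (((π.symm (π l) : Fin k) : ℕ) : ℂ) + Complex.I * (((π l : Fin k) : ℕ) : ℂ)) =
        (fun l : Fin k => ((l : ℕ) : ℂ) + Complex.I * (((π l : Fin k) : ℕ) : ℂ)) := by
      funext l
      rw [Equiv.symm_apply_apply]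
    rw [e1] at h4
    have e2 : (fun l : Fin k => (((π.symm ((π * sw i : Equiv.Perm (Fin k)) l) : Fin k) : ℕ) : ℂ) +
          Complex.I * ((((π * sw i : Equiv.Perm (Fin k)) l : Fin k) : ℕ) : ℂ)) =
        (fun l : Fin k => (((sw i : Equiv.Perm (Fin k)) l : ℕ) : ℂ) +
          Complex.I * (((π ((sw i : Equiv.Perm (Fin k)) l) : Fin k) : ℕ) : ℂ)) := by
      funext l
      rw [Equiv.Perm.mul_apply, Equiv.symm_apply_apply]
    rw [e2, inv_mul_sw π i hik hlt, ← h4, ← h6, inv_sw i hik, ← add_assoc] at h2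
    exact congrArg Fin.val (hi _ _ h7 h2)

theorem sq_all' {k n : ℕ} (hk : 11 ≤ k) (hn : n < 2 * k - 8) (φ : ℕ → Equiv.Perm (Fin n)) (hφ : BraidRel (k - 2) φ) :
    ∀ i j, i + 1 < k - 2 → j + 1 < k - 2 → φ i * φ i = φ j * φ j := by
  have h1 := Grp.sq_eq (r := k - 3) (by omega) φ (fun i j hij hj => hφ.far i j hij (by omega))
    (fun i hi => hφ.br i (by omega)) (by
      rw [Fintype.card_fin]
      omega)
  exact fun i j hi hj => h1 i (by omega) j (by omega)

/-- The roots of a continuous family of polynomials of degree `n < 2 k - 8` with distinct roots on `SG k` are continuous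
functions of the ordered roots of `P_z`. -/
theorem lift_exists {k n : ℕ} (hk : 11 ≤ k) (hn : n < 2 * k - 8) {f : (Fin k → ℂ) → (Fin n → ℂ)}
    (hcf : ContinuousOn f (SG k)) (hd : ∀ z ∈ SG k, ∃ r, IsRoots r (f z) ∧ Function.Injective r) :
    ∃ μ : (Fin k → ℂ) → (Fin n → ℂ), ContinuousOn μ (MF k) ∧ ∀ x ∈ MF k, ∀ z, IsRoots x z → IsRoots (μ x) (f z) := by
  -- the root functions
  have h1 : ∀ a : ℤ, ∃ ρ : (Fin k → ℂ) → (Fin n → ℂ), ContinuousOn ρ (XX k) ∧ ∀ x ∈ XX k, IsRoots (ρ x) (f (GG a x)) := by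
    intro a
    refine exists_roots_on (XX_open k) (XX_base k) (XX_star k) (H := fun x => f (GG a x)) ?_ ?_
    · exact hcf.comp (GG_cont k a) fun x hx => GG_mem (by omega) a hx
    · exact fun x hx => hd _ (GG_mem (by omega) a hx)
  choose ρ hρc hρ using h1
  have hinj : ∀ a, ∀ x ∈ XX k, Function.Injective (ρ a x) := by
    intro a x hx
    obtain ⟨r, hr, hri⟩ := hd _ (GG_mem (by omega) a hx)
    obtain ⟨σ, hσ⟩ := Pool.Agent.H60.OC.exists_perm (hρ a x hx) hr hri
    have h2 : ρ a x = fun i => r (σ.symm i) := by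
      funext i
      rw [hσ]
      simp
    rw [h2]
    exact hri.comp σ.symm.injective
  -- the system
  have h2 : ∀ (σ : Equiv.Perm (Fin k)) (a : ℤ), ∃ s : Equiv.Perm (Fin n), ∀ x ∈ WW σ, ∀ j,
      ρ (a + inv σ) (fun i => x (σ i)) (s j) = ρ a x j := by
    intro σ a
    refine exists_perm_on (WW_conn σ) (ρ := ρ a) (ρ' := fun x => ρ (a + inv σ) (fun i => x (σ i)))
      (H := fun x => f (GG a x)) ?_ ?_ ?_ ?_ ?_
    · exact (hρc a).mono (WW_sub σ)
    · refine (hρc (a + inv σ)).comp ?_ fun x hx => WW_comp σ hx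
      exact (continuous_pi fun i => continuous_apply (σ i)).continuousOn
    · exact fun x hx => hρ a x (WW_sub σ hx)
    · intro x hx
      rw [← GG_comp σ a hx]
      exact hρ _ _ (WW_comp σ hx)
    · exact fun x hx => hinj a x (WW_sub σ hx)
  choose S hS using h2
  have hsys : Sys (G := Equiv.Perm (Fin n)) inv S := sys_of_roots hinj hS
  have hq := fun a i j hi hj => hsys.q_all (by omega) (sq_all' hk hn) a i j hi hj
  obtain ⟨L, hL⟩ := hsys.split (by omega) hq
  exact glue hρc hρ hS hL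

theorem lin_range {k n : ℕ} (hk : 11 ≤ k) (hkn : k < n) (hn : n < 2 * k - 8) {f : (Fin k → ℂ) → (Fin n → ℂ)}
    (hmap : Set.MapsTo f (SG k) (SG n)) (hf : HoloOn (SG k) f) : ∀ z ∈ SG k, ∀ z' ∈ SG k, f z = f z' := by
  have hd : ∀ z ∈ SG k, ∃ r, IsRoots r (f z) ∧ Function.Injective r := by
    intro z hz
    obtain ⟨-, r, hr, hv⟩ := hmap hz
    refine ⟨r, hr, Pool.Agent.H60.OC.vd_ne_iff.1 fun h0 => ?_⟩
    rw [h0] at hv
    norm_num at hv
  obtain ⟨μ, hμc, hμ⟩ := lift_exists hk hn (HoloOn.continuousOn hf) hd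
  exact Pool.Agent.H60.OC.main_theorem (by omega) hkn hmap hf hμc hμ

end Pool.Agent.LR
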