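import Mathlib

/-!
# LR ECol: an abstract collision lemma

Let `z ∈ ball z₀ r` with `A = D G z (e_l) ≠ 0` and `B = D G z (e_m) ≠ 0`.  There is a vector `u` in the kernel of
`D G z` all of whose coordinates are not real: `u i = i` (the imaginary unit) for `i ≠ l, m`, `u l = w`,
`u m = - (A w + C) / B` where `C = D G z (∑_(i ≠ l, m) i e_i)`; the set of the bad `w` is contained in the union of two real
lines.  By the implicit function theorem there is a curve `γ` with `γ 0 = z`, `γ' 0 = u`, `G (γ t) = G z` for small `t`.  For small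
real `t ≠ 0` the point `z' = γ t` is in the ball, all `z' i - z i` are not real, so they are in the slit plane, and `G z' = G z`: contradiction.
-/

set_option autoImplicit false

open Topology Filter

noncomputable section

namespace Pool.Agent.LR

private theorem ECol_exists_w (α β : ℂ) (hα : α ≠ 0) : ∃ w : ℂ, w.im ≠ 0 ∧ (α * w + β).im ≠ 0 := by
  by_contra h
  push Not at h
  have h1 := h Complex.I (by simp)
  have h2 := h (2 * Complex.I) (by simp)
  have h3 := h (1 + Complex.I) (by simp)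
  simp [Complex.add_im, Complex.mul_im] at h1 h2 h3
  apply hα
  apply Complex.ext
  · simp only [Complex.zero_re]
    linarith
  · simp only [Complex.zero_im]
    linarith

private theorem ECol_exists_u {c : ℕ} (f' : (Fin c → ℂ) →L[ℂ] ℂ) {l m : Fin c} (hlm : l ≠ m)
    (hA : f' (Pi.single l 1) ≠ 0) (hB : f' (Pi.single m 1) ≠ 0) :
    ∃ u : Fin c → ℂ, f' u = 0 ∧ ∀ i, (u i).im ≠ 0 := by
  classical
  set A := f' (Pi.single l 1) with hAd
  set B := f' (Pi.single m 1) with hBd
  let v : Fin c → ℂ := fun i => if i = l then 0 else if i = m then 0 else Complex.I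
  obtain ⟨w, hw1, hw2⟩ := ECol_exists_w (A / B) (f' v / B) (div_ne_zero hA hB)
  refine ⟨v + w • Pi.single l 1 + (-(A / B * w + f' v / B)) • Pi.single m 1, ?_, ?_⟩
  · rw [map_add, map_add, map_smul, map_smul, ← hAd, ← hBd, smul_eq_mul, smul_eq_mul]
    field_simp
    ring
  · intro i
    by_cases hl : i = l
    · subst hl
      simp only [Pi.add_apply, Pi.smul_apply, Pi.single_eq_same, smul_eq_mul, mul_one,
        Pi.single_eq_of_ne hlm, mul_zero, add_zero, v, if_true, zero_add]
      exact hw1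
    · by_cases hm : i = m
      · subst hm
        simp only [Pi.add_apply, Pi.smul_apply, Pi.single_eq_same, smul_eq_mul, mul_one,
          Pi.single_eq_of_ne hl, mul_zero, add_zero, v, if_true, zero_add, if_neg hl]
        rw [Complex.neg_im]
        exact neg_ne_zero.2 hw2
      · simp only [Pi.add_apply, Pi.smul_apply, smul_eq_mul,
          Pi.single_eq_of_ne hl, Pi.single_eq_of_ne hm, mul_zero, add_zero, v, if_neg hl, if_neg hm]
        simp

theorem col_abs {c : ℕ} {z₀ : Fin c → ℂ} {r : ℝ} {G : (Fin c → ℂ) → ℂ} (hG : AnalyticOnNhd ℂ G (Metric.ball z₀ r))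
    (hne : ∀ z ∈ Metric.ball z₀ r, ∀ z' ∈ Metric.ball z₀ r, (∀ i, z' i - z i ∈ Complex.slitPlane) → G z ≠ G z')
    {l m : Fin c} (hlm : l ≠ m) {z : Fin c → ℂ} (hz : z ∈ Metric.ball z₀ r) :
    fderiv ℂ G z (Pi.single l 1) = 0 ∨ fderiv ℂ G z (Pi.single m 1) = 0 := by
  by_contra hcon
  push Not at hcon
  obtain ⟨hA, hB⟩ := hcon
  set f' := fderiv ℂ G z with hf'
  have hs : HasStrictFDerivAt G f' z := (hG z hz).hasStrictFDerivAt
  obtain ⟨u, hu0, hu⟩ := ECol_exists_u f' hlm hA hB
  have hr : f'.range = ⊤ := by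
    rw [LinearMap.range_eq_top]
    intro y
    refine ⟨(y / f' (Pi.single m 1)) • Pi.single m 1, ?_⟩
    have h1 : f' ((y / f' (Pi.single m 1)) • Pi.single m 1) = y := by
      rw [map_smul, smul_eq_mul, div_mul_cancel₀ _ hB]
    exact h1
  let u' : f'.ker := ⟨u, hu0⟩
  let γ : ℂ → (Fin c → ℂ) := fun t => hs.implicitFunction G f' hr (G z) (t • u')
  have hγ0 : γ 0 = z := by
    show hs.implicitFunction G f' hr (G z) ((0 : ℂ) • u') = z
    rw [zero_smul]
    exact hs.implicitFunction_apply_image hr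
  have hlin : HasDerivAt (fun t : ℂ => t • u') u' 0 := by
    have h1 := (hasDerivAt_id (0 : ℂ)).smul_const u'
    simpa using h1
  have hγd : HasDerivAt γ u 0 := by
    have h1 : HasFDerivAt (hs.implicitFunction G f' hr (G z)) f'.ker.subtypeL ((0 : ℂ) • u') := by
      rw [zero_smul]
      exact (hs.to_implicitFunction hr).hasFDerivAt
    have h2 := h1.comp_hasDerivAt (0 : ℂ) hlin
    exact h2
  have hγc : Tendsto γ (𝓝 0) (𝓝 z) := by
    have h1 := hγd.continuousAt.tendsto
    rwa [hγ0] at h1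
  -- the eventual properties
  have e1 : ∀ᶠ t : ℂ in 𝓝[≠] 0, γ t ∈ Metric.ball z₀ r :=
    (hγc.eventually (Metric.isOpen_ball.mem_nhds hz)).filter_mono nhdsWithin_le_nhds
  have e2 : ∀ᶠ t : ℂ in 𝓝[≠] 0, G (γ t) = G z := by
    have h1 := hs.map_implicitFunction_eq hr
    have h2 : Tendsto (fun t : ℂ => ((G z, t • u') : ℂ × f'.ker)) (𝓝 0) (𝓝 (G z, 0)) := by
      have h3 : Tendsto (fun t : ℂ => t • u') (𝓝 0) (𝓝 0) := by
        have h4 := hlin.continuousAt.tendsto
        simpa using h4
      exact tendsto_const_nhds.prodMk_nhds h3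
    exact (h2.eventually h1).filter_mono nhdsWithin_le_nhds
  have e3 : ∀ᶠ t : ℂ in 𝓝[≠] 0, ∀ i, (t⁻¹ * (γ t i - z i)).im ≠ 0 := by
    rw [eventually_all]
    intro i
    have h1 := hasDerivAt_iff_tendsto_slope.1 hγd
    have h2 : Tendsto (fun t => (slope γ 0 t i).im) (𝓝[≠] 0) (𝓝 (u i).im) :=
      (Complex.continuous_im.tendsto _).comp ((continuous_apply i).tendsto _ |>.comp h1)
    have h3 := h2.eventually (isOpen_ne.mem_nhds (hu i))
    refine h3.mono fun t ht => ?_
    have h4 : slope γ 0 t i = t⁻¹ * (γ t i - z i) := by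
      rw [slope_def_module, Pi.smul_apply, Pi.sub_apply, hγ0, sub_zero, smul_eq_mul]
    rw [← h4]
    exact ht
  have hreal : Tendsto (fun t : ℝ => (t : ℂ)) (𝓝[≠] 0) (𝓝[≠] 0) := by
    refine tendsto_nhdsWithin_iff.2 ⟨?_, ?_⟩
    · have h1 := (Complex.continuous_ofReal.tendsto (0 : ℝ))
      rw [Complex.ofReal_zero] at h1
      exact h1.mono_left nhdsWithin_le_nhds
    · filter_upwards [self_mem_nhdsWithin] with t ht
      simpa using ht
  obtain ⟨t, h1, h2, h3⟩ := (hreal.eventually (e1.and (e2.and e3))).exists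
  refine hne z hz (γ t) h1 (fun i => ?_) h2.symm
  rw [Complex.mem_slitPlane_iff]
  right
  intro h4
  apply h3 i
  rw [← Complex.ofReal_inv, Complex.im_ofReal_mul, h4, mul_zero]

end Pool.Agent.LR
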