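import Pool.Agent.LR.EMv
import Pool.Agent.LR.ECol

/-!
# LR EColl: the collision argument

`q = (α₀, α₂, α₁)`, `q'' = (α₀, α₃, α₁)`, `VV (ρ b x) q = G (x ∘ ι₀)`, `VV (ρ b x) q'' = G (x ∘ ι₁)`, `α₂ ≠ α₃`: so `G (x ∘ ι₀) ≠ G (x ∘ ι₁)` for all `x ∈ XX k` (if `VV r q = VV r q''` then `r α₂ = r α₃`, `r` injective).

`coll`: let `R = 2 c + 3`, `O` = the open set of the `u : Fin C → ℂ`, `C = 3 c + 2`, with `|u_i - i| < 1/8` for `i < 2 c + 2` and `|u_(2c+2+l) - (R + i l)| < 1/8` for `l < c` (`i` the imaginary unit): `O ⊆ XX C`.  Fix `u ∈ O`.  `G' (v) = G (u_0, .., u_(2c+1), v)`, `v ∈ Fin c → ℂ`, is analytic on the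
ball of radius `1/8` around `z₀ = (R + i l)_l` (sup norm), and the partial derivatives of `G'` at `v = (u_(2c+2+l))_l` are those of `G` at `u`.  For `v`, `v'` in the ball with all `v'_l - v_l` in the slit plane the configuration `x` with `x_i = u_i` (`i < 2c+2`), `x_(2c+2+l) = v_l`,
`x_(3c+2) = R - i`, `x_(3c+3+l) = v'_l`, `x_i = R + 5 + i` (`i ≥ 4 c + 3`) is in `XX k`: differences `x_j - x_i`, `i < j`: real part `> 0` if `i < 2 c + 2` or `j ≥ 4 c + 3` (and not both in the middle); inside the window: imaginary part near `l' - l ≠ 0`; `x_(3c+2) - v_l`: imaginary part near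
`- 1 - l ≠ 0`; `v'_l - x_(3c+2)`: imaginary part near `l + 1`; `v'_l' - v_l`: imaginary part near `l' - l ≠ 0` for `l ≠ l'`, and in the slit plane for `l = l'` by assumption.  `x ∘ ι₀ = (u, v)`, `x ∘ ι₁ = (u, v')`, so `G' v ≠ G' v'`.
`col_abs` (`ECol.lean`): one of the two partial derivatives of `G` at `u` is `0`.  So the product of the two analytic functions `u ↦ fderiv ℂ G u (Pi.single _ 1)` on `XX C` vanishes on the open nonempty set `O`: `or_zero` (`EDep.lean`, for `XX C`).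

`Rep_fderiv`: near `x ∈ XX k`, `VV (ρ b ·) q = G ∘ (· ∘ ι)`; chain rule: the derivative of `x ↦ x ∘ ι` in the direction `Pi.single (ι l) 1` is `Pi.single l 1` (`ι` injective), and `0` in a direction not in the range.
-/

set_option autoImplicit false

open Topology Filter

noncomputable section

namespace Pool.Agent.LR

open Pool.Agent.H60.OC (Pr NN nm zc SG MF IsRoots vd poly HoloOn)

variable {k n : ℕ} {f : (Fin k → ℂ) → (Fin n → ℂ)} {ρ : ℤ → (Fin k → ℂ) → (Fin n → ℂ)}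
  {θ : ℕ → Equiv.Perm (Fin n)} {z : Equiv.Perm (Fin n)} {C : ℕ}

/-- The configuration of the collision argument. -/
def EColl_x (c : ℕ) (u v v' : ℕ → ℂ) (i : ℕ) : ℂ :=
  if i < 2 * c + 2 then u i else if i < 3 * c + 2 then v (i - (2 * c + 2)) else
    if i = 3 * c + 2 then (2 * (c : ℂ) + 3) - Complex.I else
      if i < 4 * c + 3 then v' (i - (3 * c + 3)) else (2 * (c : ℂ) + 3) + 5 + (i : ℂ)

theorem EColl_re {w a : ℂ} (h : ‖w - a‖ < 1 / 8) : a.re - 1 / 8 < w.re ∧ w.re < a.re + 1 / 8 := by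
  have h1 := abs_lt.1 ((Complex.abs_re_le_norm _).trans_lt h)
  rw [Complex.sub_re] at h1
  constructor <;> linarith [h1.1, h1.2]

theorem EColl_im {w a : ℂ} (h : ‖w - a‖ < 1 / 8) : a.im - 1 / 8 < w.im ∧ w.im < a.im + 1 / 8 := by
  have h1 := abs_lt.1 ((Complex.abs_im_le_norm _).trans_lt h)
  rw [Complex.sub_im] at h1
  constructor <;> linarith [h1.1, h1.2]

theorem EColl_zone (c : ℕ) (u v v' : ℕ → ℂ) (hu : ∀ i < 2 * c + 2, ‖u i - (i : ℂ)‖ < 1 / 8)
    (hv : ∀ l < c, ‖v l - ((2 * (c : ℂ) + 3) + Complex.I * (l : ℂ))‖ < 1 / 8)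
    (hv' : ∀ l < c, ‖v' l - ((2 * (c : ℂ) + 3) + Complex.I * (l : ℂ))‖ < 1 / 8) (i : ℕ) :
    (i < 2 * c + 2 ∧ (i : ℝ) - 1 / 8 < (EColl_x c u v v' i).re ∧ (EColl_x c u v v' i).re < (i : ℝ) + 1 / 8) ∨
    (2 * c + 2 ≤ i ∧ i < 3 * c + 2 ∧ (2 * (c : ℝ) + 3) - 1 / 8 < (EColl_x c u v v' i).re ∧
      (EColl_x c u v v' i).re < (2 * (c : ℝ) + 3) + 1 / 8 ∧
      (i : ℝ) - (2 * c + 2) - 1 / 8 < (EColl_x c u v v' i).im ∧ (EColl_x c u v v' i).im < (i : ℝ) - (2 * c + 2) + 1 / 8 ∧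
      EColl_x c u v v' i = v (i - (2 * c + 2))) ∨
    (i = 3 * c + 2 ∧ (EColl_x c u v v' i).re = 2 * (c : ℝ) + 3 ∧ (EColl_x c u v v' i).im = -1) ∨
    (3 * c + 3 ≤ i ∧ i < 4 * c + 3 ∧ (2 * (c : ℝ) + 3) - 1 / 8 < (EColl_x c u v v' i).re ∧
      (EColl_x c u v v' i).re < (2 * (c : ℝ) + 3) + 1 / 8 ∧
      (i : ℝ) - (3 * c + 3) - 1 / 8 < (EColl_x c u v v' i).im ∧ (EColl_x c u v v' i).im < (i : ℝ) - (3 * c + 3) + 1 / 8 ∧
      EColl_x c u v v' i = v' (i - (3 * c + 3))) ∨
    (4 * c + 3 ≤ i ∧ (EColl_x c u v v' i).re = (2 * (c : ℝ) + 3) + 5 + (i : ℝ)) := by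
  by_cases h1 : i < 2 * c + 2
  · left
    have e : EColl_x c u v v' i = u i := by simp [EColl_x, h1]
    have h := EColl_re (hu i h1)
    rw [Complex.natCast_re] at h
    rw [e]
    exact ⟨h1, h.1, h.2⟩
  · right
    by_cases h2 : i < 3 * c + 2
    · left
      have e : EColl_x c u v v' i = v (i - (2 * c + 2)) := by simp [EColl_x, h1, h2]
      have hl : i - (2 * c + 2) < c := by omega
      have h := EColl_re (hv _ hl)
      have h' := EColl_im (hv _ hl)
      have hc : ((i - (2 * c + 2) : ℕ) : ℝ) = (i : ℝ) - (2 * c + 2) := by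
        rw [Nat.cast_sub (by omega)]
        push_cast
        ring
      simp only [Complex.add_re, Complex.add_im, Complex.mul_re, Complex.mul_im, Complex.I_re, Complex.I_im,
        Complex.natCast_re, Complex.natCast_im, Complex.re_ofNat, Complex.im_ofNat, hc] at h h'
      refine ⟨by omega, h2, ?_, ?_, ?_, ?_, e⟩
      · rw [e]; linarith [h.1]
      · rw [e]; linarith [h.2]
      · rw [e]; linarith [h'.1]
      · rw [e]; linarith [h'.2]
    · right
      by_cases h3 : i = 3 * c + 2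
      · left
        have e : EColl_x c u v v' i = (2 * (c : ℂ) + 3) - Complex.I := by
          rw [EColl_x, if_neg h1, if_neg h2, if_pos h3]
        rw [e]
        refine ⟨h3, ?_, ?_⟩
        · simp
        · simp
      · right
        by_cases h4 : i < 4 * c + 3
        · left
          have e : EColl_x c u v v' i = v' (i - (3 * c + 3)) := by simp [EColl_x, h1, h2, h3, h4]
          have hl : i - (3 * c + 3) < c := by omega
          have h := EColl_re (hv' _ hl)
          have h' := EColl_im (hv' _ hl)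
          have hc : ((i - (3 * c + 3) : ℕ) : ℝ) = (i : ℝ) - (3 * c + 3) := by
            rw [Nat.cast_sub (by omega)]
            push_cast
            ring
          simp only [Complex.add_re, Complex.add_im, Complex.mul_re, Complex.mul_im, Complex.I_re, Complex.I_im,
            Complex.natCast_re, Complex.natCast_im, Complex.re_ofNat, Complex.im_ofNat, hc] at h h'
          refine ⟨by omega, h4, ?_, ?_, ?_, ?_, e⟩
          · rw [e]; linarith [h.1]
          · rw [e]; linarith [h.2]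
          · rw [e]; linarith [h'.1]
          · rw [e]; linarith [h'.2]
        · right
          have e : EColl_x c u v v' i = (2 * (c : ℂ) + 3) + 5 + (i : ℂ) := by simp [EColl_x, h1, h2, h3, h4]
          rw [e]
          refine ⟨by omega, ?_⟩
          simp

theorem EColl_XX {k c : ℕ} {u v v' : ℕ → ℂ} (hu : ∀ i < 2 * c + 2, ‖u i - (i : ℂ)‖ < 1 / 8)
    (hv : ∀ l < c, ‖v l - ((2 * (c : ℂ) + 3) + Complex.I * (l : ℂ))‖ < 1 / 8)
    (hv' : ∀ l < c, ‖v' l - ((2 * (c : ℂ) + 3) + Complex.I * (l : ℂ))‖ < 1 / 8)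
    (hs : ∀ l < c, v' l - v l ∈ Complex.slitPlane) : (fun i : Fin k => EColl_x c u v v' i) ∈ XX k := by
  intro i j hij
  have hlt : (i : ℕ) < (j : ℕ) := hij
  have hR : ((i : ℕ) : ℝ) + 1 ≤ ((j : ℕ) : ℝ) := by exact_mod_cast hlt
  have hi := EColl_zone c u v v' hu hv hv' i
  have hj := EColl_zone c u v v' hu hv hv' j
  show EColl_x c u v v' j - EColl_x c u v v' i ∈ Complex.slitPlane
  rw [Complex.mem_slitPlane_iff, Complex.sub_re, Complex.sub_im]
  have cA : ∀ m : ℕ, m < 2 * c + 2 → (m : ℝ) ≤ 2 * (c : ℝ) + 1 := by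
    intro m hm
    have : m + 1 ≤ 2 * c + 2 := hm
    have h2 : ((m + 1 : ℕ) : ℝ) ≤ ((2 * c + 2 : ℕ) : ℝ) := by exact_mod_cast this
    push_cast at h2
    linarith
  rcases hi with ⟨a1, a2, a3⟩ | ⟨a1, a2, a3, a4, a5, a6, a7⟩ | ⟨a1, a2, a3⟩ | ⟨a1, a2, a3, a4, a5, a6, a7⟩ | ⟨a1, a2⟩
  · have hA := cA _ a1
    rcases hj with ⟨b1, b2, b3⟩ | ⟨b1, b2, b3, b4, b5, b6, b7⟩ | ⟨b1, b2, b3⟩ | ⟨b1, b2, b3, b4, b5, b6, b7⟩ | ⟨b1, b2⟩
    · left; linarith
    · left; linarith
    · left; linarith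
    · left; linarith
    · left; linarith
  · rcases hj with ⟨b1, b2, b3⟩ | ⟨b1, b2, b3, b4, b5, b6, b7⟩ | ⟨b1, b2, b3⟩ | ⟨b1, b2, b3, b4, b5, b6, b7⟩ | ⟨b1, b2⟩
    · omega
    · right
      intro h0
      linarith
    · right
      intro h0
      have : (2 * (c : ℝ) + 2) ≤ ((i : ℕ) : ℝ) := by exact_mod_cast a1
      linarith
    · by_cases he : (i : ℕ) + (c + 1) = j
      · have h1 := hs ((i : ℕ) - (2 * c + 2)) (by omega)
        have h2 : (j : ℕ) - (3 * c + 3) = (i : ℕ) - (2 * c + 2) := by omega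
        rw [h2] at b7
        rw [Complex.mem_slitPlane_iff, Complex.sub_re, Complex.sub_im] at h1
        rw [a7, b7]
        exact h1
      · right
        intro h0
        rcases lt_or_gt_of_ne he with h1 | h1
        · have h2 : ((i : ℕ) : ℝ) + (c + 1) + 1 ≤ ((j : ℕ) : ℝ) := by exact_mod_cast h1
          linarith
        · have h2 : ((j : ℕ) : ℝ) + 1 ≤ ((i : ℕ) : ℝ) + (c + 1) := by exact_mod_cast h1
          linarith
    · left
      have : (0 : ℝ) ≤ ((j : ℕ) : ℝ) := Nat.cast_nonneg _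
      linarith
  · rcases hj with ⟨b1, b2, b3⟩ | ⟨b1, b2, b3, b4, b5, b6, b7⟩ | ⟨b1, b2, b3⟩ | ⟨b1, b2, b3, b4, b5, b6, b7⟩ | ⟨b1, b2⟩
    · omega
    · omega
    · omega
    · right
      intro h0
      have : (3 * (c : ℝ) + 3) ≤ ((j : ℕ) : ℝ) := by exact_mod_cast b1
      linarith
    · left
      have : (0 : ℝ) ≤ ((j : ℕ) : ℝ) := Nat.cast_nonneg _
      linarith
  · rcases hj with ⟨b1, b2, b3⟩ | ⟨b1, b2, b3, b4, b5, b6, b7⟩ | ⟨b1, b2, b3⟩ | ⟨b1, b2, b3, b4, b5, b6, b7⟩ | ⟨b1, b2⟩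
    · omega
    · omega
    · omega
    · right
      intro h0
      linarith
    · left
      have : (0 : ℝ) ≤ ((j : ℕ) : ℝ) := Nat.cast_nonneg _
      linarith
  · rcases hj with ⟨b1, b2, b3⟩ | ⟨b1, b2, b3, b4, b5, b6, b7⟩ | ⟨b1, b2, b3⟩ | ⟨b1, b2, b3, b4, b5, b6, b7⟩ | ⟨b1, b2⟩
    · omega
    · omega
    · omega
    · omega
    · left
      linarith

theorem Rep_fderiv {q : Tr n} {G : (Fin C → ℂ) → ℂ} {ι : Fin C → Fin k} (hι : StrictMono ι)
    (hG : AnalyticOnNhd ℂ G (XX C)) (hR : Rep ρ q G ι) {l : Fin C}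
    (h0 : ∀ u ∈ XX C, fderiv ℂ G u (Pi.single l 1) = 0) (b : ℤ) {x : Fin k → ℂ} (hx : x ∈ XX k) :
    fderiv ℂ (fun x => VV (ρ b x) q) x (Pi.single (ι l) 1) = 0 := by
  classical
  set L : (Fin k → ℂ) →L[ℂ] (Fin C → ℂ) := ContinuousLinearMap.pi (fun l => ContinuousLinearMap.proj (ι l)) with hL
  have hLa : ∀ y : Fin k → ℂ, L y = fun l => y (ι l) := fun y => rfl
  have hmem : L x ∈ XX C := by
    intro i j hij
    exact hx (ι i) (ι j) (hι hij)
  have hev : (fun x => VV (ρ b x) q) =ᶠ[𝓝 x] (fun x => G (L x)) := by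
    filter_upwards [(XX_open k).mem_nhds hx] with y hy
    exact hR b y hy
  rw [hev.fderiv_eq]
  have h1 : HasFDerivAt G (fderiv ℂ G (L x)) (L x) := (hG _ hmem).differentiableAt.hasFDerivAt
  have h2 : HasFDerivAt (fun x => G (L x)) ((fderiv ℂ G (L x)).comp L) x := h1.comp x L.hasFDerivAt
  rw [h2.fderiv, ContinuousLinearMap.comp_apply]
  have h3 : L (Pi.single (ι l) 1) = Pi.single l 1 := by
    rw [hLa]
    funext m
    by_cases hm : m = l
    · subst hm
      rw [Pi.single_eq_same, Pi.single_eq_same]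
    · rw [Pi.single_eq_of_ne hm, Pi.single_eq_of_ne (fun h => hm (hι.injective h))]
  rw [h3]
  exact h0 _ hmem

/-- The window coordinates inserted. -/
def EColl_e (c : ℕ) (u : Fin (3 * c + 2) → ℂ) (w : Fin c → ℂ) : Fin (3 * c + 2) → ℂ := fun i =>
  if _ : (i : ℕ) < 2 * c + 2 then u i else w ⟨(i : ℕ) - (2 * c + 2), by omega⟩

/-- The linear part of `EColl_e`. -/
def EColl_L (c : ℕ) : (Fin c → ℂ) →L[ℂ] (Fin (3 * c + 2) → ℂ) := ContinuousLinearMap.pi (fun i =>
  if _ : (i : ℕ) < 2 * c + 2 then 0 else ContinuousLinearMap.proj ⟨(i : ℕ) - (2 * c + 2), by omega⟩)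

theorem EColl_L_apply (c : ℕ) (w : Fin c → ℂ) (i : Fin (3 * c + 2)) :
    EColl_L c w i = if _ : (i : ℕ) < 2 * c + 2 then 0 else w ⟨(i : ℕ) - (2 * c + 2), by omega⟩ := by
  unfold EColl_L
  rw [ContinuousLinearMap.pi_apply]
  split_ifs <;> rfl

theorem EColl_eL (c : ℕ) (u : Fin (3 * c + 2) → ℂ) (w : Fin c → ℂ) :
    EColl_e c u w = EColl_e c u 0 + EColl_L c w := by
  funext i
  rw [Pi.add_apply, EColl_L_apply]
  unfold EColl_e
  split_ifs
  · rw [add_zero]
  · simp

theorem EColl_L_single (c : ℕ) (l : ℕ) (hl : l < c) :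
    EColl_L c (Pi.single ⟨l, hl⟩ 1) = Pi.single ⟨2 * c + 2 + l, by omega⟩ 1 := by
  classical
  funext i
  rw [EColl_L_apply]
  by_cases h1 : (i : ℕ) < 2 * c + 2
  · rw [dif_pos h1, Pi.single_eq_of_ne]
    intro h
    have := congrArg (fun t : Fin (3 * c + 2) => (t : ℕ)) h
    dsimp only at this
    omega
  · rw [dif_neg h1]
    by_cases h2 : (i : ℕ) = 2 * c + 2 + l
    · have e1 : i = ⟨2 * c + 2 + l, by omega⟩ := Fin.ext h2
      have e2 : (⟨(i : ℕ) - (2 * c + 2), by omega⟩ : Fin c) = ⟨l, hl⟩ := Fin.ext (by simp only; omega)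
      rw [e2, Pi.single_eq_same, e1, Pi.single_eq_same]
    · rw [Pi.single_eq_of_ne, Pi.single_eq_of_ne]
      · intro h
        exact h2 (congrArg (fun t : Fin (3 * c + 2) => (t : ℕ)) h)
      · intro h
        have := congrArg (fun t : Fin c => (t : ℕ)) h
        dsimp only at this
        omega

/-- The centre of the window configuration. -/
def EColl_p (c : ℕ) (i : ℕ) : ℂ :=
  if i < 2 * c + 2 then (i : ℂ) else (2 * (c : ℂ) + 3) + Complex.I * ((i - (2 * c + 2) : ℕ) : ℂ)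

theorem EColl_hne (h : Cx k n f ρ θ z) {c : ℕ} (hk : 4 * c + 4 ≤ k) {q q'' : Tr n} {G : (Fin (3 * c + 2) → ℂ) → ℂ}
    (h0 : 3 * c + 2 + 0 ≤ k) (h1 : 3 * c + 2 + (c + 1) ≤ k)
    (hR : Rep ρ q G (iw k (3 * c + 2) c 0 h0)) (hR' : Rep ρ q'' G (iw k (3 * c + 2) c (c + 1) h1))
    (e1 : q.1.1 = q''.1.1) (e3 : q.1.2.2 = q''.1.2.2) (hne : q.1.2.1 ≠ q''.1.2.1) {u : Fin (3 * c + 2) → ℂ}
    (hu : ∀ i : Fin (3 * c + 2), ‖u i - EColl_p c i‖ < 1 / 8) {v v' : Fin c → ℂ}
    (hv : ∀ l : Fin c, ‖v l - ((2 * (c : ℂ) + 3) + Complex.I * ((l : ℕ) : ℂ))‖ < 1 / 8)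
    (hv' : ∀ l : Fin c, ‖v' l - ((2 * (c : ℂ) + 3) + Complex.I * ((l : ℕ) : ℂ))‖ < 1 / 8)
    (hs : ∀ l, v' l - v l ∈ Complex.slitPlane) : G (EColl_e c u v) ≠ G (EColl_e c u v') := by
  classical
  set un : ℕ → ℂ := fun i => if hi : i < 3 * c + 2 then u ⟨i, hi⟩ else 0 with hun
  set vn : ℕ → ℂ := fun l => if hl : l < c then v ⟨l, hl⟩ else 0 with hvn
  set vn' : ℕ → ℂ := fun l => if hl : l < c then v' ⟨l, hl⟩ else 0 with hvn'
  set x : Fin k → ℂ := fun i => EColl_x c un vn vn' i with hxd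
  have hx : x ∈ XX k := by
    apply EColl_XX
    · intro i hi
      have h3 : i < 3 * c + 2 := by omega
      have h2 := hu ⟨i, h3⟩
      simp only [EColl_p, hi, if_true] at h2
      simp only [hun, h3, dif_pos]
      exact h2
    · intro l hl
      simp only [hvn, hl, dif_pos]
      exact hv ⟨l, hl⟩
    · intro l hl
      simp only [hvn', hl, dif_pos]
      exact hv' ⟨l, hl⟩
    · intro l hl
      simp only [hvn, hvn', hl, dif_pos]
      exact hs ⟨l, hl⟩
  have ea : (fun l => x (iw k (3 * c + 2) c 0 h0 l)) = EColl_e c u v := by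
    funext i
    have hi := i.2
    have hval : ((iw k (3 * c + 2) c 0 h0 i : Fin k) : ℕ) = i := by
      unfold iw
      split_ifs <;> simp
    show EColl_x c un vn vn' ((iw k (3 * c + 2) c 0 h0 i : Fin k) : ℕ) = EColl_e c u v i
    rw [hval]
    unfold EColl_x EColl_e
    by_cases h2 : (i : ℕ) < 2 * c + 2
    · rw [if_pos h2, dif_pos h2]
      simp only [hun, hi, dif_pos]
    · rw [if_neg h2, dif_neg h2, if_pos hi]
      have h3 : (i : ℕ) - (2 * c + 2) < c := by omega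
      simp only [hvn, h3, dif_pos]
  have eb : (fun l => x (iw k (3 * c + 2) c (c + 1) h1 l)) = EColl_e c u v' := by
    funext i
    have hi := i.2
    show EColl_x c un vn vn' ((iw k (3 * c + 2) c (c + 1) h1 i : Fin k) : ℕ) = EColl_e c u v' i
    by_cases h2 : (i : ℕ) < 2 * c + 2
    · have hval : ((iw k (3 * c + 2) c (c + 1) h1 i : Fin k) : ℕ) = i := by
        unfold iw
        rw [dif_pos (by omega)]
      rw [hval]
      unfold EColl_x EColl_e
      rw [if_pos h2, dif_pos h2]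
      simp only [hun, hi, dif_pos]
    · have hval : ((iw k (3 * c + 2) c (c + 1) h1 i : Fin k) : ℕ) = (i : ℕ) + (c + 1) := by
        unfold iw
        rw [dif_neg (by omega)]
      rw [hval]
      unfold EColl_x EColl_e
      rw [if_neg (by omega), if_neg (by omega), if_neg (by omega), if_pos (by omega), dif_neg h2]
      have h3 : (i : ℕ) + (c + 1) - (3 * c + 3) = (i : ℕ) - (2 * c + 2) := by omega
      have h4 : (i : ℕ) - (2 * c + 2) < c := by omega
      rw [h3]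
      simp only [hvn', h4, dif_pos]
  have r1 := hR 0 x hx
  have r2 := hR' 0 x hx
  rw [ea] at r1
  rw [eb] at r2
  rw [← r1, ← r2]
  intro he
  have hinj := h.inj 0 hx
  have hd : (ρ 0 x) q.1.1 - (ρ 0 x) q.1.2.2 ≠ 0 := sub_ne_zero.2 (hinj.ne q.2.2.1)
  unfold VV at he
  rw [← e1, ← e3, div_left_inj' hd] at he
  exact hne (hinj (sub_right_injective he))

theorem Cx.coll (h : Cx k n f ρ θ z) {c : ℕ} (hk : 4 * c + 4 ≤ k) {q q'' : Tr n} {G : (Fin (3 * c + 2) → ℂ) → ℂ}
    (hG : AnalyticOnNhd ℂ G (XX (3 * c + 2))) (h0 : 3 * c + 2 + 0 ≤ k) (h1 : 3 * c + 2 + (c + 1) ≤ k)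
    (hR : Rep ρ q G (iw k (3 * c + 2) c 0 h0)) (hR' : Rep ρ q'' G (iw k (3 * c + 2) c (c + 1) h1))
    (e1 : q.1.1 = q''.1.1) (e3 : q.1.2.2 = q''.1.2.2) (hne : q.1.2.1 ≠ q''.1.2.1) {l m : ℕ} (hl : l < c) (hm : m < c)
    (hlm : l ≠ m) :
    (∀ u ∈ XX (3 * c + 2), fderiv ℂ G u (Pi.single ⟨2 * c + 2 + l, by omega⟩ 1) = 0) ∨
      ∀ u ∈ XX (3 * c + 2), fderiv ℂ G u (Pi.single ⟨2 * c + 2 + m, by omega⟩ 1) = 0 := by
  classical
  set O : Set (Fin (3 * c + 2) → ℂ) := {u | ∀ i : Fin (3 * c + 2), ‖u i - EColl_p c i‖ < 1 / 8} with hOd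
  have hOo : IsOpen O := by
    have : O = ⋂ i, {x : Fin (3 * c + 2) → ℂ | ‖x i - EColl_p c i‖ < 1 / 8} := by
      ext x
      simp [hOd]
    rw [this]
    exact isOpen_iInter_of_finite fun i =>
      isOpen_lt (((continuous_apply i).sub continuous_const).norm) continuous_const
  have hOX : O ⊆ XX (3 * c + 2) := by
    intro u hu i j hij
    have hlt : (i : ℕ) < (j : ℕ) := hij
    have hRR : ((i : ℕ) : ℝ) + 1 ≤ ((j : ℕ) : ℝ) := by exact_mod_cast hlt
    have hi := hu i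
    have hj := hu j
    rw [Complex.mem_slitPlane_iff, Complex.sub_re, Complex.sub_im]
    by_cases hj1 : (j : ℕ) < 2 * c + 2
    · have hi1 : (i : ℕ) < 2 * c + 2 := by omega
      simp only [EColl_p, hi1, hj1, if_true] at hi hj
      have a := EColl_re hi
      have b := EColl_re hj
      rw [Complex.natCast_re] at a b
      left
      linarith [a.2, b.1]
    · by_cases hi1 : (i : ℕ) < 2 * c + 2
      · have hA : ((i : ℕ) : ℝ) + 1 ≤ 2 * (c : ℝ) + 2 := by exact_mod_cast hi1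
        simp only [EColl_p, hi1, hj1, if_true, if_false] at hi hj
        have a := EColl_re hi
        have b := EColl_re hj
        simp only [Complex.add_re, Complex.mul_re, Complex.I_re, Complex.I_im,
          Complex.natCast_re, Complex.natCast_im, Complex.re_ofNat, Complex.im_ofNat] at a b
        left
        linarith [a.2, b.1]
      · simp only [EColl_p, hi1, hj1, if_false] at hi hj
        have a := EColl_im hi
        have b := EColl_im hj
        have ci : (((i : ℕ) - (2 * c + 2) : ℕ) : ℝ) + 1 ≤ (((j : ℕ) - (2 * c + 2) : ℕ) : ℝ) := by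
          have : (i : ℕ) - (2 * c + 2) + 1 ≤ (j : ℕ) - (2 * c + 2) := by omega
          exact_mod_cast this
        simp only [Complex.add_im, Complex.mul_im, Complex.I_re, Complex.I_im,
          Complex.natCast_re, Complex.natCast_im, Complex.re_ofNat, Complex.im_ofNat] at a b
        right
        intro h5
        linarith [a.2, b.1]
  -- the centre is in `O`
  have hOne : (O ∩ XX (3 * c + 2)).Nonempty := by
    refine ⟨fun i => EColl_p c i, ?_, ?_⟩
    · intro i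
      simp
    · apply hOX
      intro i
      simp
  set z₀ : Fin c → ℂ := fun l => (2 * (c : ℂ) + 3) + Complex.I * ((l : ℕ) : ℂ) with hz₀
  have hball : ∀ v : Fin c → ℂ, v ∈ Metric.ball z₀ (1 / 8) → ∀ l : Fin c,
      ‖v l - ((2 * (c : ℂ) + 3) + Complex.I * ((l : ℕ) : ℂ))‖ < 1 / 8 := by
    intro v hv l
    rw [Metric.mem_ball, dist_pi_lt_iff (by norm_num)] at hv
    have h2 := hv l
    rw [dist_eq_norm] at h2
    exact h2
  have heO : ∀ u ∈ O, ∀ v : Fin c → ℂ, v ∈ Metric.ball z₀ (1 / 8) → EColl_e c u v ∈ O := by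
    intro u hu v hv i
    unfold EColl_e
    by_cases h2 : (i : ℕ) < 2 * c + 2
    · rw [dif_pos h2]
      exact hu i
    · rw [dif_neg h2]
      have h3 := hball v hv ⟨(i : ℕ) - (2 * c + 2), by omega⟩
      simp only [EColl_p, h2, if_false]
      exact h3
  have hor : ∀ u ∈ O ∩ XX (3 * c + 2), fderiv ℂ G u (Pi.single ⟨2 * c + 2 + l, by omega⟩ 1) = 0 ∨
      fderiv ℂ G u (Pi.single ⟨2 * c + 2 + m, by omega⟩ 1) = 0 := by
    rintro u ⟨hu, -⟩
    set v₀ : Fin c → ℂ := fun l => u ⟨2 * c + 2 + (l : ℕ), by omega⟩ with hv₀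
    have hev₀ : EColl_e c u v₀ = u := by
      funext i
      unfold EColl_e
      by_cases h2 : (i : ℕ) < 2 * c + 2
      · rw [dif_pos h2]
      · rw [dif_neg h2]
        show u ⟨2 * c + 2 + ((i : ℕ) - (2 * c + 2)), _⟩ = u i
        congr 1
        apply Fin.ext
        show 2 * c + 2 + ((i : ℕ) - (2 * c + 2)) = i
        omega
    have hv₀b : v₀ ∈ Metric.ball z₀ (1 / 8) := by
      rw [Metric.mem_ball, dist_pi_lt_iff (by norm_num)]
      intro t
      rw [dist_eq_norm]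
      have h2 := hu ⟨2 * c + 2 + (t : ℕ), by omega⟩
      have h3 : ¬ 2 * c + 2 + (t : ℕ) < 2 * c + 2 := by omega
      have h4 : 2 * c + 2 + (t : ℕ) - (2 * c + 2) = t := by omega
      simp only [EColl_p, h3, if_false, h4] at h2
      exact h2
    set G' : (Fin c → ℂ) → ℂ := fun v => G (EColl_e c u v) with hG'
    have hder : ∀ v ∈ Metric.ball z₀ (1 / 8), HasFDerivAt (EColl_e c u) (EColl_L c) v := by
      intro v _
      have h2 : EColl_e c u = fun w => EColl_e c u 0 + EColl_L c w := by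
        funext w
        exact EColl_eL c u w
      rw [h2]
      exact (EColl_L c).hasFDerivAt.const_add _
    have han : AnalyticOnNhd ℂ G' (Metric.ball z₀ (1 / 8)) := by
      intro v hv
      have h2 : AnalyticAt ℂ (EColl_e c u) v := by
        have h3 : EColl_e c u = fun w => EColl_e c u 0 + EColl_L c w := by
          funext w
          exact EColl_eL c u w
        rw [h3]
        exact analyticAt_const.add ((EColl_L c).analyticAt v)
      exact (hG _ (hOX (heO u hu v hv))).comp h2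
    have hcol := col_abs (l := ⟨l, hl⟩) (m := ⟨m, hm⟩) han (by
      intro v hv v' hv' hs
      exact EColl_hne h hk h0 h1 hR hR' e1 e3 hne hu (hball v hv) (hball v' hv') hs)
      (by
        intro h2
        exact hlm (congrArg (fun t : Fin c => (t : ℕ)) h2)) hv₀b
    have hfd : ∀ t (ht : t < c), fderiv ℂ G' v₀ (Pi.single ⟨t, ht⟩ 1) =
        fderiv ℂ G u (Pi.single ⟨2 * c + 2 + t, by omega⟩ 1) := by
      intro t ht
      have h2 : HasFDerivAt G (fderiv ℂ G u) (EColl_e c u v₀) := by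
        rw [hev₀]
        exact (hG u (hOX hu)).differentiableAt.hasFDerivAt
      have h3 : HasFDerivAt G' ((fderiv ℂ G u).comp (EColl_L c)) v₀ := h2.comp v₀ (hder v₀ hv₀b)
      rw [h3.fderiv, ContinuousLinearMap.comp_apply, EColl_L_single]
    rw [hfd l hl, hfd m hm] at hcol
    exact hcol
  have hana : ∀ w : Fin (3 * c + 2) → ℂ, AnalyticOnNhd ℂ (fun u => fderiv ℂ G u w) (XX (3 * c + 2)) := by
    intro w u hu
    exact ((ContinuousLinearMap.apply ℂ ℂ w).analyticAt _).comp (hG.fderiv u hu)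
  exact or_zero (hana _) (hana _) hOo hOne hor

end Pool.Agent.LR
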