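import Pool.Agent.LR.QPer

/-!
# LR QG: the functions `Gt` on the injective configurations

`exists_lex`: `lexsort` (`LR/Glue.lean`).  `srt_spec`, `srt_unique`: `Lex (x ∘ π)` and `Lex (x ∘ π')` imply `π = π'` (`Lex` is a strict
linear order).  `lex_mem_WW`: for `x₀` injective, `Lex (x₀ ∘ π)` and `x` near `x₀`: `x ∘ π ∈ WW (π⁻¹ * srt x)` (exactly the argument
in `LR/Glue.lean`).

`G_of`: if `y = x ∘ π ∈ WW (π⁻¹ * srt x)` then `Gt t x` is the product computed with `y`: with `σ = π⁻¹ * srt x`, `x ∘ srt x = y ∘ σ`,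
`ρ (a + inv σ) (y ∘ σ) (Θ σ α) = ρ a y α` (`Ctx.trans`) and `Θ σ * T = T * Θ σ` give `vq (a + inv σ) (ta (Θ σ) p) (y ∘ σ) = vq a p y`; so the
product over `p` at level `a + inv σ` and `y ∘ σ` is the product over `p` at level `a` and `y` (reindex by `ta (Θ σ)`).  And the
product over `p` is `2 N`-periodic in `a` (`Ctx.per`, `z` commutes with `T`, reindex by `ta z`), so the product over `a` in
`range (2 N)` is invariant under shifts of `a` by integers.

`G_cont`, `G_an`: near `x₀` (injective) `Gt t` is the product with fixed `π` (`lex_mem_WW`), and `x ∘ π ∈ XX k`; `Ctx.vq_an`.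
-/

set_option autoImplicit false

open Topology Filter

noncomputable section

namespace Pool.Agent.LR

open Pool.Agent.H60.OC (Pr NN nm zc SG MF IsRoots vd poly HoloOn)

variable {k n : ℕ} {f : (Fin k → ℂ) → (Fin n → ℂ)} {ρ : ℤ → (Fin k → ℂ) → (Fin n → ℂ)}
  {θ : ℕ → Equiv.Perm (Fin n)} {T : Equiv.Perm (Fin n)} {blk : Fin n → Option (Fin k)}

theorem srt_spec {x : Fin k → ℂ} (hx : Function.Injective x) : Lex (fun i => x (srt x i)) := by
  have h : ∃ π : Equiv.Perm (Fin k), Lex (fun i => x (π i)) := lexsort x hx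
  have h1 : srt x = h.choose := by
    unfold srt
    rw [dif_pos h]
  rw [h1]
  exact h.choose_spec

theorem qg_lex_asymm {y : Fin k → ℂ} {i j : Fin k}
    (h1 : (y i).re < (y j).re ∨ ((y i).re = (y j).re ∧ (y i).im < (y j).im))
    (h2 : (y j).re < (y i).re ∨ ((y j).re = (y i).re ∧ (y j).im < (y i).im)) : False := by
  rcases h1 with h1 | ⟨h1, h1'⟩ <;> rcases h2 with h2 | ⟨h2, h2'⟩ <;> linarith

theorem qg_lex_perm {y : Fin k → ℂ} {σ : Equiv.Perm (Fin k)} (hy : Lex y) (hσ : Lex (fun i => y (σ i))) : σ = 1 := by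
  apply lam_eq_one
  intro i hi hlt
  exact qg_lex_asymm (hσ ⟨i, by omega⟩ ⟨i + 1, hi⟩ (by rw [Fin.lt_def]; simp)) (hy _ _ hlt)

theorem srt_unique {x : Fin k → ℂ} {π : Equiv.Perm (Fin k)} (hx : Lex (fun i => x (π i))) : srt x = π := by
  have h : ∃ π : Equiv.Perm (Fin k), Lex (fun i => x (π i)) := ⟨π, hx⟩
  have h1 : srt x = h.choose := by
    unfold srt
    rw [dif_pos h]
  have h2 : Lex (fun i => x (srt x i)) := by
    rw [h1]
    exact h.choose_spec
  have h3 : π⁻¹ * srt x = 1 := by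
    refine qg_lex_perm hx ?_
    have e : (fun i => x (π ((π⁻¹ * srt x : Equiv.Perm (Fin k)) i))) = fun i => x (srt x i) := by
      funext i
      rw [Equiv.Perm.mul_apply]
      congr 1
      exact Equiv.apply_symm_apply π _
    rw [e]
    exact h2
  rw [inv_mul_eq_one] at h3
  exact h3.symm

theorem lex_mem_XX {y : Fin k → ℂ} (hy : Lex y) : y ∈ XX k := by
  intro i j hij
  rw [Complex.mem_slitPlane_iff, Complex.sub_re, Complex.sub_im]
  rcases hy i j hij with h | h
  · left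
    linarith
  · right
    have := h.2
    intro h0
    linarith

theorem lex_mem_WW {x₀ : Fin k → ℂ} (hx : Function.Injective x₀) {π : Equiv.Perm (Fin k)}
    (hπ : Lex (fun i => x₀ (π i))) : ∀ᶠ x in 𝓝 x₀, (fun i => x (π i)) ∈ WW (π⁻¹ * srt x) := by
  have hre : ∀ᶠ y in 𝓝 x₀, ∀ i j : Fin k, (x₀ (π i)).re < (x₀ (π j)).re → (y (π i)).re < (y (π j)).re := by
    rw [Filter.eventually_all]
    intro i
    rw [Filter.eventually_all]
    intro j
    by_cases h : (x₀ (π i)).re < (x₀ (π j)).re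
    · have h1 : ContinuousAt (fun y : Fin k → ℂ => (y (π i)).re) x₀ :=
        (Complex.continuous_re.comp (continuous_apply _)).continuousAt
      have h2 : ContinuousAt (fun y : Fin k → ℂ => (y (π j)).re) x₀ :=
        (Complex.continuous_re.comp (continuous_apply _)).continuousAt
      filter_upwards [h1.eventually_lt h2 h] with y hy _
      exact hy
    · exact Filter.Eventually.of_forall fun y h' => absurd h' h
  have him : ∀ᶠ y in 𝓝 x₀, ∀ i j : Fin k, (x₀ (π i)).im < (x₀ (π j)).im → (y (π i)).im < (y (π j)).im := by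
    rw [Filter.eventually_all]
    intro i
    rw [Filter.eventually_all]
    intro j
    by_cases h : (x₀ (π i)).im < (x₀ (π j)).im
    · have h1 : ContinuousAt (fun y : Fin k → ℂ => (y (π i)).im) x₀ :=
        (Complex.continuous_im.comp (continuous_apply _)).continuousAt
      have h2 : ContinuousAt (fun y : Fin k → ℂ => (y (π j)).im) x₀ :=
        (Complex.continuous_im.comp (continuous_apply _)).continuousAt
      filter_upwards [h1.eventually_lt h2 h] with y hy _
      exact hy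
    · exact Filter.Eventually.of_forall fun y h' => absurd h' h
  have hinj : ∀ᶠ y : Fin k → ℂ in 𝓝 x₀, Function.Injective y := by
    have h1 : ∀ᶠ y : Fin k → ℂ in 𝓝 x₀, ∀ i j : Fin k, i ≠ j → y i ≠ y j := by
      rw [Filter.eventually_all]
      intro i
      rw [Filter.eventually_all]
      intro j
      by_cases h : i = j
      · exact Filter.Eventually.of_forall fun y h' => absurd h h'
      · have h2 : ContinuousAt (fun y : Fin k → ℂ => y i - y j) x₀ :=
          ((continuous_apply i).sub (continuous_apply j)).continuousAt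
        filter_upwards [h2.eventually_ne (sub_ne_zero.2 (hx.ne h))] with y hy _
        exact sub_ne_zero.1 hy
    filter_upwards [h1] with y hy i j hij
    by_contra hne
    exact hy i j hne hij
  filter_upwards [hre, him, hinj] with y h3 h4 h5 i j hij
  have hlex := srt_spec h5
  have hl₀ := hπ i j hij
  refine ⟨?_, fun hinv => ?_⟩
  · rcases hl₀ with h | h
    · exact Or.inl (h3 i j h)
    · exact Or.inr (h4 i j h.2)
  · rcases hl₀ with h | h
    · exfalso
      have h6 := h3 i j h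
      have h7 := hlex _ _ hinv
      have e : ∀ l : Fin k, srt y ((π⁻¹ * srt y : Equiv.Perm (Fin k)).symm l) = π l := by
        intro l
        have e1 : (π * (π⁻¹ * srt y)) ((π⁻¹ * srt y : Equiv.Perm (Fin k)).symm l) = π l := by
          rw [Equiv.Perm.mul_apply, Equiv.apply_symm_apply]
        rw [mul_inv_cancel_left] at e1
        exact e1
      simp only [e] at h7
      rcases h7 with h7 | h7
      · linarith
      · have := h7.1
        linarith
    · exact h4 i j h.2

/-- The product over the triples on one level. -/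
def qgP {k n : ℕ} (ρ : ℤ → (Fin k → ℂ) → (Fin n → ℂ)) (T : Equiv.Perm (Fin n)) (t : ℂ) (a : ℤ) (y : Fin k → ℂ) : ℂ :=
  ∏ p : Tr n, (t - vq ρ T a p y)

theorem qg_vq_ta {k' : ℕ} {ρ' : ℤ → (Fin k' → ℂ) → (Fin n → ℂ)} {g : Equiv.Perm (Fin n)} (hg : g * T = T * g) {a b : ℤ}
    {x y : Fin k' → ℂ} (h : ∀ α, ρ' b y (g α) = ρ' a x α) (p : Tr n) : vq ρ' T b (ta g p) y = vq ρ' T a p x := by
  have h1 : ∀ α, T (g α) = g (T α) := fun α => (congrArg (fun e : Equiv.Perm (Fin n) => e α) hg).symm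
  unfold vq VV ta
  simp only [Equiv.coe_fn_mk, h1, h]

theorem qg_prod {k' : ℕ} {ρ' : ℤ → (Fin k' → ℂ) → (Fin n → ℂ)} {g : Equiv.Perm (Fin n)} (hg : g * T = T * g) {a b : ℤ}
    {x y : Fin k' → ℂ} (h : ∀ α, ρ' b y (g α) = ρ' a x α) (t : ℂ) : qgP ρ' T t b y = qgP ρ' T t a x := by
  unfold qgP
  rw [← Equiv.prod_comp (ta g)]
  exact Finset.prod_congr rfl fun p _ => by rw [qg_vq_ta hg h]

theorem qg_shift {M : ℕ} (hM : 0 < M) {g : ℤ → ℂ} (hg : ∀ a, g (a + (M : ℤ)) = g a) (s : ℤ) :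
    ∏ a ∈ Finset.range M, g ((a : ℤ) + s) = ∏ a ∈ Finset.range M, g (a : ℤ) := by
  have step : ∀ s : ℤ, ∏ a ∈ Finset.range M, g ((a : ℤ) + (s + 1)) = ∏ a ∈ Finset.range M, g ((a : ℤ) + s) := by
    intro s
    obtain ⟨N, rfl⟩ : ∃ N, M = N + 1 := ⟨M - 1, by omega⟩
    rw [Finset.prod_range_succ, Finset.prod_range_succ']
    have h1 : g ((N : ℤ) + (s + 1)) = g (((0 : ℕ) : ℤ) + s) := by
      rw [← hg (((0 : ℕ) : ℤ) + s)]
      congr 1
      push_cast
      ring
    rw [h1]
    congr 1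
    refine Finset.prod_congr rfl fun a _ => ?_
    congr 1
    push_cast
    ring
  induction s using Int.induction_on with
  | zero => simp
  | succ n ih => rw [step, ih]
  | pred n ih =>
    rw [← ih, ← step]
    refine Finset.prod_congr rfl fun a _ => ?_
    congr 1
    ring

theorem Ctx.G_of (h : Ctx k n f ρ θ T blk) (t : ℂ) (x : Fin k → ℂ) (π : Equiv.Perm (Fin k))
    (hx : (fun i => x (π i)) ∈ WW (π⁻¹ * srt x)) :
    Gt ρ T t x = ∏ a ∈ Finset.range (2 * NN k), ∏ p : Tr n, (t - vq ρ T (a : ℤ) p (fun i => x (π i))) := by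
  have hk := h.hk
  have hN : 0 < NN k := Pool.Agent.H60.OC.NN_pos (by omega)
  obtain ⟨Θ, h1, h2, h3⟩ := h.trans
  obtain ⟨z, _, hz2, hz3⟩ := h.per
  obtain ⟨σ, hσ⟩ : ∃ σ : Equiv.Perm (Fin k), σ = π⁻¹ * srt x := ⟨_, rfl⟩
  rw [← hσ] at hx
  have hσ' : srt x = π * σ := by rw [hσ, mul_inv_cancel_left]
  have hW := WW_comp σ hx
  have e1 : (fun i => x (srt x i)) = fun i => x (π (σ i)) := by
    funext i
    rw [hσ', Equiv.Perm.mul_apply]
  have hy := h3 σ
  have e2 : ∀ a : ℤ, qgP ρ T t (a + inv σ) (fun i => x (π (σ i))) = qgP ρ T t a (fun i => x (π i)) := fun a =>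
    qg_prod (h.blkS.Θ_T h1 h2 σ) (fun α => hy a _ hx α) t
  have e3 : ∀ a : ℤ, qgP ρ T t (a + ((2 * NN k : ℕ) : ℤ)) (fun i => x (π (σ i))) =
      qgP ρ T t a (fun i => x (π (σ i))) := by
    intro a
    refine qg_prod hz2 (fun α => ?_) t
    have := hz3 a _ hW α
    push_cast
    exact this
  have e4 : Gt ρ T t x = ∏ a ∈ Finset.range (2 * NN k), qgP ρ T t (a : ℤ) (fun i => x (π (σ i))) := by
    unfold Gt
    rw [e1]
    rfl
  have e5 := qg_shift (M := 2 * NN k) (g := fun a => qgP ρ T t a (fun i => x (π (σ i)))) (by omega) e3 (inv σ)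
  rw [e4]
  refine e5.symm.trans ?_
  exact Finset.prod_congr rfl fun a _ => e2 a

theorem Ctx.qg_near (h : Ctx k n f ρ θ T blk) (t : ℂ) {x₀ : Fin k → ℂ} (hx : Function.Injective x₀) :
    ∀ᶠ x in 𝓝 x₀, Gt ρ T t x =
      ∏ a ∈ Finset.range (2 * NN k), ∏ p : Tr n, (t - vq ρ T (a : ℤ) p (fun i => x (srt x₀ i))) := by
  filter_upwards [lex_mem_WW hx (srt_spec hx)] with x hxW
  exact h.G_of t x (srt x₀) hxW

theorem Ctx.G_cont (h : Ctx k n f ρ θ T blk) (t : ℂ) {x : Fin k → ℂ} (hx : Function.Injective x) :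
    ContinuousAt (Gt ρ T t) x := by
  have hmem : (fun i => x (srt x i)) ∈ XX k := lex_mem_XX (srt_spec hx)
  have hc : Continuous fun y : Fin k → ℂ => fun i => y (srt x i) := by fun_prop
  refine ContinuousAt.congr ?_ ((h.qg_near t hx).mono fun y hy => hy.symm)
  refine tendsto_finsetProd _ fun a _ => tendsto_finsetProd _ fun p _ => ?_
  have h1 : ContinuousAt (vq ρ T (a : ℤ) p) (fun i => x (srt x i)) :=
    (h.vq_cont (a : ℤ) p).continuousAt ((XX_open k).mem_nhds hmem)
  have h2 : ContinuousAt (fun y : Fin k → ℂ => vq ρ T (a : ℤ) p (fun i => y (srt x i))) x :=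
    h1.comp_of_eq hc.continuousAt rfl
  exact tendsto_const_nhds.sub h2

theorem Ctx.G_an (h : Ctx k n f ρ θ T blk) (t : ℂ) {γ : ℂ → (Fin k → ℂ)} {w₀ : ℂ} (hγ : AnalyticAt ℂ γ w₀)
    (hx : Function.Injective (γ w₀)) : AnalyticAt ℂ (fun w => Gt ρ T t (γ w)) w₀ := by
  have hmem : (fun i => γ w₀ (srt (γ w₀) i)) ∈ XX k := lex_mem_XX (srt_spec hx)
  have h1 := hγ.continuousAt.eventually (h.qg_near t hx)
  refine AnalyticAt.congr ?_ (h1.mono fun y hy => hy.symm)
  refine Finset.analyticAt_fun_prod _ fun a _ => Finset.analyticAt_fun_prod _ fun p _ => ?_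
  have h2 : AnalyticAt ℂ (fun w => fun i => γ w (srt (γ w₀) i)) w₀ :=
    analyticAt_pi_iff.2 fun i => analyticAt_pi_iff.1 hγ _
  exact analyticAt_const.fun_sub (h.vq_an (a : ℤ) p h2 hmem)

end Pool.Agent.LR
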