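import Pool.Agent.LR.EPun
import Pool.Agent.LR.QG

/-!
# LR EConst: the quotients `Rq` are constant along a line

Fix `y`.  For `t : ℂ` and `j < k` put `F j w = ∏ b ∈ range (2 NN k), ∏ p ∈ TC (as a finset), (t - Rq ρ θ C g y j b p w)`.
Steps: labels: `ta (θ j) (ta (Aw θ C (j+1)) p) = ta (Aw θ C j) p` for `p ∈ TC` (`Aw_lt` for `j < C`; `Aw_ge` and `θ j` fixes the components for `j ≥ C`), also for `ta g p ∈ TC` (`Gd.om`).
For `Im w > 0`: `Rq j (b+1) p w = Rq (j+1) b p w` (`Cx.up`; `VV_ta`), for `Im w < 0`: `Rq (j+1) (b+1) (ta τ p) w = Rq j b p w` with `τ = tau θ C j` for `j < C` (`Aw_tau`, `Gd.tau`) and `τ = 1` for `j ≥ C` (`Cx.dn`).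
`Rq j (b + 2 NN k) (ta z p) w = Rq j b p w` (`Cx.per`; `z` commutes with `g` and all `θ i`, so with `Aw θ C j`, and preserves `Om`).  The permutations `ta τ`, `ta z` of `Tr n` preserve `TC` (they map it to itself: `Gd.tO`,
finite set, injective), so the products over `p` can be reindexed and the product over one level is `2 NN k`-periodic: the product over `range (2 NN k)` is invariant under shifts of `b` (`qg_shift` in `QG.lean`).
So `F j w = F (j+1) w` for all non-real `w`.  `F j` is analytic on `UU k y j` (`Cx.VV_an`, `ins_an`, `VV_ne`).  Bounded at the punctures and at infinity: `hop_bd`, `hop_inf` for all `b`, `p`.  `liouU` (`EU.lean`; `2 ≤ k`): `F j = c` on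
`UU k y j` for all `j`.

Now `w, w₁ ∈ UU k y j`, `t = Rq j b p w`: `0 = F j w = F j w₁` (`b` in the range; for other `b` use the periodicity), so `Rq j b p w` is one of the finitely many numbers `Rq j b' p' w₁`.  So `Rq j b p` is a continuous function on the preconnected set
`UU k y j` with values in a finite set: constant (see `QConst.lean`).
-/

set_option autoImplicit false

open Topology Filter

noncomputable section

namespace Pool.Agent.LR

open Pool.Agent.H60.OC (Pr NN nm zc SG MF IsRoots vd poly HoloOn)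

/-- The properties of `g` (`g = 1` or `g = TT θ C`) needed for the Liouville argument. -/
structure Gd (k n : ℕ) (θ : ℕ → Equiv.Perm (Fin n)) (z : Equiv.Perm (Fin n)) (c : ℕ → ℤ → Tr n → ℤ) (C : ℕ)
    (g : Equiv.Perm (Fin n)) : Prop where
  hop : Hop k θ c C g
  om : ∀ x ∈ Om k θ C, g x ∈ Om k θ C
  zg : z * g = g * z
  tau : ∀ j, j < C → ∀ x ∈ Om k θ C, tau θ C j (g x) = g (tau θ C j x)
  tO : ∀ j, j < C → ∀ x ∈ Om k θ C, Pool.Agent.LR.tau θ C j x ∈ Om k θ C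

variable {k n : ℕ} {f : (Fin k → ℂ) → (Fin n → ℂ)} {ρ : ℤ → (Fin k → ℂ) → (Fin n → ℂ)}
  {θ : ℕ → Equiv.Perm (Fin n)} {z : Equiv.Perm (Fin n)}
  {L : ℤ → Tr n → (Fin k → ℂ) → ℂ} {c : ℕ → ℤ → Tr n → ℤ} {m : ℤ → Tr n → ℤ} {C : ℕ} {g : Equiv.Perm (Fin n)}

/-! ### Triples -/

open Classical in
/-- The triples of indices in `Om k θ C`, as a finset. -/
def EConst_P (k : ℕ) {n : ℕ} (θ : ℕ → Equiv.Perm (Fin n)) (C : ℕ) : Finset (Tr n) :=
  Finset.univ.filter fun p => p ∈ TC k θ C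

theorem EConst_mem {p : Tr n} : p ∈ EConst_P k θ C ↔ p ∈ TC k θ C := by
  unfold EConst_P
  simp

/-- A permutation which preserves `Om` permutes the triples. -/
theorem EConst_TC {σ : Equiv.Perm (Fin n)} (hσ : ∀ x ∈ Om k θ C, σ x ∈ Om k θ C) {p : Tr n} (hp : p ∈ TC k θ C) :
    ta σ p ∈ TC k θ C := ⟨hσ _ hp.1, hσ _ hp.2.1, hσ _ hp.2.2⟩

theorem EConst_re {σ : Equiv.Perm (Fin n)} (hσ : ∀ x ∈ Om k θ C, σ x ∈ Om k θ C) (φ : Tr n → ℂ) :
    ∏ p ∈ EConst_P k θ C, φ (ta σ p) = ∏ p ∈ EConst_P k θ C, φ p := by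
  classical
  have himg : (EConst_P k θ C).image (ta σ) = EConst_P k θ C := by
    refine Finset.eq_of_subset_of_card_le ?_ ?_
    · intro q hq
      obtain ⟨p, hp, rfl⟩ := Finset.mem_image.1 hq
      exact EConst_mem.2 (EConst_TC hσ (EConst_mem.1 hp))
    · rw [Finset.card_image_of_injective _ (ta σ).injective]
  conv_rhs => rw [← himg]
  rw [Finset.prod_image fun p _ q _ hpq => (ta σ).injective hpq]

/-- Two permutations which agree on `Om`. -/
theorem EConst_ta {σ σ' : Equiv.Perm (Fin n)} (hσ : ∀ x ∈ Om k θ C, σ x = σ' x) {p : Tr n} (hp : p ∈ TC k θ C) :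
    ta σ p = ta σ' p := by
  apply Subtype.ext
  show (σ p.1.1, σ p.1.2.1, σ p.1.2.2) = (σ' p.1.1, σ' p.1.2.1, σ' p.1.2.2)
  rw [hσ _ hp.1, hσ _ hp.2.1, hσ _ hp.2.2]

theorem EConst_lab {j : ℕ} (hj : j + 1 < k) {p : Tr n} (hp : p ∈ TC k θ C) :
    ta (θ j) (ta (Aw θ C (j + 1)) p) = ta (Aw θ C j) p := by
  rcases lt_or_ge j C with h | h
  · rw [Aw_lt θ h]
    rfl
  · rw [Aw_ge θ h, Aw_ge θ (by omega : C ≤ j + 1)]
    exact EConst_ta (σ := θ j) (σ' := 1) (fun x hx => hx j h hj) hp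

/-- The permutation of the labels below the real axis. -/
def EConst_t (θ : ℕ → Equiv.Perm (Fin n)) (C j : ℕ) : Equiv.Perm (Fin n) := if j < C then tau θ C j else 1

theorem EConst_lab' {j : ℕ} (hj : j + 1 < k) {p : Tr n} (hp : p ∈ TC k θ C) :
    ta (θ j) (ta (Aw θ C j) p) = ta (Aw θ C (j + 1)) (ta (EConst_t θ C j) p) := by
  unfold EConst_t
  split_ifs with h
  · show ta (θ j * Aw θ C j) p = ta (Aw θ C (j + 1) * tau θ C j) p
    rw [Aw_tau h]
  · rw [Aw_ge θ (by omega : C ≤ j), Aw_ge θ (by omega : C ≤ j + 1)]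
    exact EConst_ta (σ := θ j) (σ' := 1) (fun x hx => hx j (by omega) hj) hp

theorem EConst_tO (hg : Gd k n θ z c C g) (j : ℕ) : ∀ x ∈ Om k θ C, EConst_t θ C j x ∈ Om k θ C := by
  intro x hx
  unfold EConst_t
  split_ifs with h
  · exact hg.tO j h x hx
  · exact hx

theorem EConst_tg (hg : Gd k n θ z c C g) (j : ℕ) {p : Tr n} (hp : p ∈ TC k θ C) :
    ta (EConst_t θ C j) (ta g p) = ta g (ta (EConst_t θ C j) p) := by
  show ta (EConst_t θ C j * g) p = ta (g * EConst_t θ C j) p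
  refine EConst_ta (fun x hx => ?_) hp
  unfold EConst_t
  split_ifs with h
  · exact hg.tau j h x hx
  · rfl

theorem EConst_zAw (h : Cx k n f ρ θ z) (hCk : C + 6 ≤ k) (j : ℕ) : z * Aw θ C j = Aw θ C j * z := by
  rcases lt_or_ge j C with hj | hj
  · induction hd : C - j generalizing j with
    | zero => omega
    | succ d ih =>
      rw [Aw_lt θ hj]
      have h1 := h.zc j (by omega)
      have h2 : z * Aw θ C (j + 1) = Aw θ C (j + 1) * z := by
        rcases lt_or_ge (j + 1) C with h3 | h3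
        · exact ih (j + 1) h3 (by omega)
        · rw [Aw_ge θ h3, one_mul, mul_one]
      rw [← mul_assoc, h1, mul_assoc, h2, mul_assoc]
  · rw [Aw_ge θ hj, one_mul, mul_one]

theorem EConst_zO (h : Cx k n f ρ θ z) : ∀ x ∈ Om k θ C, z x ∈ Om k θ C := by
  intro x hx i hi hik
  have h1 := h.zc i hik
  have h2 : (z * θ i) x = (θ i * z) x := by rw [h1]
  rw [Equiv.Perm.mul_apply, Equiv.Perm.mul_apply, hx i hi hik] at h2
  exact h2.symm

/-! ### The quotients -/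

theorem EConst_up (h : Cx k n f ρ θ z) (hg : Gd k n θ z c C g) {y : ℕ → ℝ} (hy : StrictMono y) {j : ℕ}
    (hj : j + 1 < k) (b : ℤ) {p : Tr n} (hp : p ∈ TC k θ C) {w : ℂ} (hw : 0 < w.im) :
    Rq ρ θ C g y j (b + 1) p w = Rq ρ θ C g y (j + 1) b p w := by
  have key : ∀ (a : ℤ) (q : Tr n), q ∈ TC k θ C →
      VV (ρ (a + 1) (ins y j w)) (ta (Aw θ C j) q) = VV (ρ a (ins y (j + 1) w)) (ta (Aw θ C (j + 1)) q) := by
    intro a q hq
    rw [← EConst_lab hj hq, VV_ta]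
    congr 1
    funext α
    exact h.up hy hj a α hw
  unfold Rq
  rw [show b + 1 + 2 = b + 2 + 1 by ring, key _ _ hp, key _ _ (EConst_TC hg.om hp)]

theorem EConst_dn (h : Cx k n f ρ θ z) (hg : Gd k n θ z c C g) {y : ℕ → ℝ} (hy : StrictMono y) {j : ℕ}
    (hj : j + 1 < k) (b : ℤ) {p : Tr n} (hp : p ∈ TC k θ C) {w : ℂ} (hw : w.im < 0) :
    Rq ρ θ C g y (j + 1) (b + 1) (ta (EConst_t θ C j) p) w = Rq ρ θ C g y j b p w := by
  have key : ∀ (a : ℤ) (q : Tr n), q ∈ TC k θ C →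
      VV (ρ (a + 1) (ins y (j + 1) w)) (ta (Aw θ C (j + 1)) (ta (EConst_t θ C j) q)) =
        VV (ρ a (ins y j w)) (ta (Aw θ C j) q) := by
    intro a q hq
    rw [← EConst_lab' hj hq, VV_ta]
    congr 1
    funext α
    exact h.dn hy hj a α hw
  unfold Rq
  rw [show b + 1 + 2 = b + 2 + 1 by ring, key _ _ hp, ← EConst_tg hg j hp, key _ _ (EConst_TC hg.om hp)]

theorem EConst_per (h : Cx k n f ρ θ z) (hCk : C + 6 ≤ k) (hg : Gd k n θ z c C g) {y : ℕ → ℝ} {j : ℕ}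
    (b : ℤ) (p : Tr n) {w : ℂ} (hw : w ∈ UU k y j) :
    Rq ρ θ C g y j (b + 2 * (NN k : ℤ)) (ta z p) w = Rq ρ θ C g y j b p w := by
  have key : ∀ (a : ℤ) (q : Tr n),
      VV (ρ (a + 2 * (NN k : ℤ)) (ins y j w)) (ta (Aw θ C j) (ta z q)) = VV (ρ a (ins y j w)) (ta (Aw θ C j) q) := by
    intro a q
    have e : ta (Aw θ C j) (ta z q) = ta z (ta (Aw θ C j) q) := by
      show ta (Aw θ C j * z) q = ta (z * Aw θ C j) q
      rw [EConst_zAw h hCk j]
    rw [e, VV_ta]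
    congr 1
    funext α
    exact h.per a _ hw α
  have e2 : ta g (ta z p) = ta z (ta g p) := by
    show ta (g * z) p = ta (z * g) p
    rw [hg.zg]
  unfold Rq
  rw [show b + 2 * (NN k : ℤ) + 2 = b + 2 + 2 * (NN k : ℤ) by ring, e2, key, key]

theorem EConst_an (h : Cx k n f ρ θ z) {y : ℕ → ℝ} {j : ℕ} (b : ℤ) (p : Tr n) {w : ℂ} (hw : w ∈ UU k y j) :
    AnalyticAt ℂ (Rq ρ θ C g y j b p) w := by
  unfold Rq
  exact (h.VV_an (b + 2) _ (ins_an j w) hw).fun_div (h.VV_an b _ (ins_an j w) hw) (VV_ne (h.inj b hw) _).1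

/-! ### Products -/

/-- The product over the triples. -/
def EConst_G (ρ : ℤ → (Fin k → ℂ) → (Fin n → ℂ)) (θ : ℕ → Equiv.Perm (Fin n)) (C : ℕ) (g : Equiv.Perm (Fin n))
    (y : ℕ → ℝ) (t : ℂ) (j : ℕ) (b : ℤ) (w : ℂ) : ℂ := ∏ p ∈ EConst_P k θ C, (t - Rq ρ θ C g y j b p w)

/-- The product over the levels and the triples. -/
def EConst_F (ρ : ℤ → (Fin k → ℂ) → (Fin n → ℂ)) (θ : ℕ → Equiv.Perm (Fin n)) (C : ℕ) (g : Equiv.Perm (Fin n))
    (y : ℕ → ℝ) (t : ℂ) (j : ℕ) (w : ℂ) : ℂ := ∏ b ∈ Finset.range (2 * NN k), EConst_G ρ θ C g y t j (b : ℤ) w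

theorem EConst_Gper (h : Cx k n f ρ θ z) (hCk : C + 6 ≤ k) (hg : Gd k n θ z c C g) {y : ℕ → ℝ} (t : ℂ) {j : ℕ}
    {w : ℂ} (hw : w ∈ UU k y j) (b : ℤ) :
    EConst_G ρ θ C g y t j (b + ((2 * NN k : ℕ) : ℤ)) w = EConst_G ρ θ C g y t j b w := by
  unfold EConst_G
  rw [← EConst_re (EConst_zO h) (fun p => t - Rq ρ θ C g y j (b + ((2 * NN k : ℕ) : ℤ)) p w)]
  refine Finset.prod_congr rfl fun p _ => ?_
  have := EConst_per h hCk hg (b := b) (p := p) hw
  push_cast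
  rw [this]

theorem EConst_shift (h : Cx k n f ρ θ z) (hCk : C + 6 ≤ k) (hg : Gd k n θ z c C g) {y : ℕ → ℝ} (t : ℂ) {j : ℕ}
    {w : ℂ} (hw : w ∈ UU k y j) (s : ℤ) :
    ∏ b ∈ Finset.range (2 * NN k), EConst_G ρ θ C g y t j ((b : ℤ) + s) w = EConst_F ρ θ C g y t j w := by
  have hk := h.hk
  have hN : 0 < NN k := Pool.Agent.H60.OC.NN_pos (by omega)
  exact qg_shift (M := 2 * NN k) (g := fun a => EConst_G ρ θ C g y t j a w) (by omega)
    (fun a => EConst_Gper h hCk hg t hw a) s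

theorem EConst_glue (h : Cx k n f ρ θ z) (hCk : C + 6 ≤ k) (hg : Gd k n θ z c C g) {y : ℕ → ℝ} (hy : StrictMono y)
    (t : ℂ) {j : ℕ} (hj : j + 1 < k) {w : ℂ} (hw : w.im ≠ 0) :
    EConst_F ρ θ C g y t j w = EConst_F ρ θ C g y t (j + 1) w := by
  rcases lt_or_gt_of_ne hw with hw' | hw'
  · rw [← EConst_shift h hCk hg t (UU_im hy hj hw) 1]
    unfold EConst_F EConst_G
    refine Finset.prod_congr rfl fun b _ => ?_
    rw [← EConst_re (EConst_tO hg j) (fun p => t - Rq ρ θ C g y (j + 1) ((b : ℤ) + 1) p w)]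
    refine Finset.prod_congr rfl fun p hp => ?_
    rw [EConst_dn h hg hy hj b (EConst_mem.1 hp) hw']
  · rw [← EConst_shift h hCk hg t (UU_im hy (by omega) hw) 1]
    unfold EConst_F EConst_G
    refine Finset.prod_congr rfl fun b _ => ?_
    refine Finset.prod_congr rfl fun p hp => ?_
    rw [EConst_up h hg hy hj b (EConst_mem.1 hp) hw']

/-! ### Boundedness -/

/-- Bounded near `0` on the slit plane. -/
def EConst_B (φ : ℂ → ℂ) : Prop :=
  ∃ δ > 0, ∃ B : ℝ, ∀ u : ℂ, 0 < ‖u‖ → ‖u‖ < δ → u ∈ Complex.slitPlane → ‖φ u‖ ≤ B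

theorem EConst_B_sub {φ : ℂ → ℂ} (h : EConst_B φ) (t : ℂ) : EConst_B fun u => t - φ u := by
  obtain ⟨δ, hδ, B, hB⟩ := h
  exact ⟨δ, hδ, ‖t‖ + B, fun u h1 h2 h3 => (norm_sub_le _ _).trans (add_le_add le_rfl (hB u h1 h2 h3))⟩

theorem EConst_B_prod {ι : Type*} (s : Finset ι) {φ : ι → ℂ → ℂ} (h : ∀ i ∈ s, EConst_B (φ i)) :
    EConst_B fun u => ∏ i ∈ s, φ i u := by
  classical
  induction s using Finset.induction_on with
  | empty => exact ⟨1, one_pos, 1, fun u _ _ _ => by simp⟩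
  | insert a s ha ih =>
    obtain ⟨δ, hδ, B, hB⟩ := h a (Finset.mem_insert_self a s)
    obtain ⟨δ', hδ', B', hB'⟩ := ih fun i hi => h i (Finset.mem_insert_of_mem hi)
    refine ⟨min δ δ', lt_min hδ hδ', |B| * |B'|, fun u h1 h2 h3 => ?_⟩
    show ‖∏ i ∈ insert a s, φ i u‖ ≤ |B| * |B'|
    rw [Finset.prod_insert ha, norm_mul]
    exact mul_le_mul ((hB u h1 (h2.trans_le (min_le_left _ _)) h3).trans (le_abs_self _))
      ((hB' u h1 (h2.trans_le (min_le_right _ _)) h3).trans (le_abs_self _)) (norm_nonneg _) (abs_nonneg _)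

theorem EConst_line (h : Cx k n f ρ θ z) (hL : Lg k n ρ θ z L c m) (hCk : C + 6 ≤ k) (hg : Gd k n θ z c C g)
    {y : ℕ → ℝ} (hy : StrictMono y) (t : ℂ) :
    ∃ l : ℂ, ∀ j, j < k → ∀ w ∈ UU k y j, EConst_F ρ θ C g y t j w = l := by
  have hk := h.hk
  refine liouU (by omega) hy ?_ ?_ ?_ ?_
  · intro j _ w hw
    unfold EConst_F EConst_G
    refine Finset.analyticAt_fun_prod _ fun b _ => Finset.analyticAt_fun_prod _ fun p _ => ?_
    exact analyticAt_const.fun_sub (EConst_an h (b : ℤ) p hw)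
  · exact fun j hj w hw => EConst_glue h hCk hg hy t hj hw
  · intro j hj
    have h1 : EConst_B fun u => ∏ b ∈ Finset.range (2 * NN k), ∏ p ∈ EConst_P k θ C,
        (t - Rq ρ θ C g y (j + 1) (b : ℤ) p (y j + u)) :=
      EConst_B_prod _ fun b _ => EConst_B_prod _ fun p hp =>
        EConst_B_sub (h.hop_bd hL hg.hop hy hj (b : ℤ) (EConst_mem.1 hp)) t
    exact h1
  · have h1 : EConst_B fun u => ∏ b ∈ Finset.range (2 * NN k), ∏ p ∈ EConst_P k θ C,
        (t - Rq ρ θ C g y (k - 1) (b : ℤ) p u⁻¹) :=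
      EConst_B_prod _ fun b _ => EConst_B_prod _ fun p hp =>
        EConst_B_sub (h.hop_inf hL (by omega) hg.hop hy (b : ℤ) (EConst_mem.1 hp)) t
    exact h1

theorem Cx.Rq_const (h : Cx k n f ρ θ z) (hL : Lg k n ρ θ z L c m) (hCk : C + 6 ≤ k) (hg : Gd k n θ z c C g) {y : ℕ → ℝ}
    (hy : StrictMono y) {j : ℕ} (hj : j < k) (b : ℤ) {p : Tr n} (hp : p ∈ TC k θ C) :
    ∃ l : ℂ, ∀ w ∈ UU k y j, Rq ρ θ C g y j b p w = l := by
  have hk := h.hk
  have hN : 0 < NN k := Pool.Agent.H60.OC.NN_pos (by omega)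
  by_cases hne : (UU k y j).Nonempty
  swap
  · exact ⟨0, fun w hw => absurd ⟨w, hw⟩ hne⟩
  obtain ⟨w₁, hw₁⟩ := hne
  refine ⟨Rq ρ θ C g y j b p w₁, fun w hw => ?_⟩
  have hfin : (Rq ρ θ C g y j b p '' UU k y j).Finite := by
    refine (Set.finite_range fun q : Fin (2 * NN k) × Tr n =>
      Rq ρ θ C g y j ((q.1 : ℕ) : ℤ) q.2 w₁).subset ?_
    rintro _ ⟨v, hv, rfl⟩
    obtain ⟨l, hl⟩ := EConst_line h hL hCk hg hy (Rq ρ θ C g y j b p v)
    have h1 : EConst_F ρ θ C g y (Rq ρ θ C g y j b p v) j v = 0 := by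
      rw [← EConst_shift h hCk hg _ hv b]
      refine Finset.prod_eq_zero (Finset.mem_range.2 (show 0 < 2 * NN k by omega)) ?_
      unfold EConst_G
      refine Finset.prod_eq_zero (EConst_mem.2 hp) ?_
      rw [Nat.cast_zero, zero_add, sub_self]
    rw [hl j hj v hv, ← hl j hj w₁ hw₁] at h1
    obtain ⟨a', ha', h2⟩ := Finset.prod_eq_zero_iff.1 h1
    obtain ⟨p', -, h3⟩ := Finset.prod_eq_zero_iff.1 h2
    exact ⟨(⟨a', Finset.mem_range.1 ha'⟩, p'), (sub_eq_zero.1 h3).symm⟩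
  have hpre : IsPreconnected (Rq ρ θ C g y j b p '' UU k y j) :=
    (UU_pre hy hj).image _ fun v hv => (EConst_an h b p hv).continuousAt.continuousWithinAt
  by_contra hcon
  exact hpre.infinite_of_nontrivial ⟨_, ⟨w, hw, rfl⟩, _, ⟨w₁, hw₁, rfl⟩, hcon⟩ hfin

end Pool.Agent.LR
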