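import Pool.Agent.LR.SlitA

/-!
# LR QId: identity theorem on the slit region

The set `C` of the points of `XX k` near which `g = c` is open.  It is relatively closed in `XX k`: let `x ∈ XX k` be in the closure of
`C`, `B ⊆ XX k` a ball around `x`, `x₁ ∈ C ∩ B`.  For `x' ∈ B` the function `w ↦ g (x₁ + w (x' - x₁))` is analytic on the convex open set
of the complex `w` with `x₁ + w (x' - x₁) ∈ B` (it contains `0` and `1`) and equal to `c` near `0`, so it is `c` at `1`.  `XX k` is
preconnected (`XX_star`), `C` contains `O`.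
-/

set_option autoImplicit false

open Topology Filter

noncomputable section

namespace Pool.Agent.LR

theorem id_XX {k : ℕ} {g : (Fin k → ℂ) → ℂ}
    (hg : ∀ (γ : ℂ → (Fin k → ℂ)) (w₀ : ℂ), AnalyticAt ℂ γ w₀ → γ w₀ ∈ XX k → AnalyticAt ℂ (fun w => g (γ w)) w₀)
    {O : Set (Fin k → ℂ)} (hO : IsOpen O) (hne : O.Nonempty) (hOX : O ⊆ XX k) {c : ℂ} (hc : ∀ x ∈ O, g x = c) :
    ∀ x ∈ XX k, g x = c := by
  have hopen : IsOpen {x : Fin k → ℂ | ∀ᶠ y in 𝓝 x, g y = c} := isOpen_setOfPred_eventually_nhds
  have hpre : IsPreconnected (XX k) :=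
    ((XX_star k).isPathConnected (XX_base k)).isConnected.isPreconnected
  have hsub : XX k ⊆ {x : Fin k → ℂ | ∀ᶠ y in 𝓝 x, g y = c} := by
    refine hpre.subset_of_closure_inter_subset hopen ?_ ?_
    · obtain ⟨x, hx⟩ := hne
      exact ⟨x, hOX hx, (hO.eventually_mem hx).mono fun y hy => hc y hy⟩
    · rintro x ⟨hx, hxX⟩
      obtain ⟨ε, hε, hB⟩ := Metric.isOpen_iff.1 (XX_open k) x hxX
      obtain ⟨x₁, hx₁, hx₁'⟩ := Metric.mem_closure_iff.1 hx ε hε
      have hx₁B : x₁ ∈ Metric.ball x ε := by rwa [Metric.mem_ball, dist_comm]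
      have key : ∀ x' ∈ Metric.ball x ε, g x' = c := by
        intro x' hx'
        set γ : ℂ → (Fin k → ℂ) := fun w => x₁ + w • (x' - x₁) with hγ
        have hγa : ∀ w, AnalyticAt ℂ γ w := fun w =>
          analyticAt_const.add (analyticAt_id.smul analyticAt_const)
        have hγc : Continuous γ := by
          rw [continuous_iff_continuousAt]
          exact fun w => (hγa w).continuousAt
        have hconv : Convex ℝ (γ ⁻¹' Metric.ball x ε) := by
          intro w₁ h₁ w₂ h₂ a b ha hb hab
          have e : γ (a • w₁ + b • w₂) = a • γ w₁ + b • γ w₂ := by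
            ext l
            have hab' : (a : ℂ) + b = 1 := by exact_mod_cast hab
            simp only [hγ, Pi.add_apply, Pi.smul_apply, Pi.sub_apply, smul_eq_mul,
              Complex.real_smul]
            linear_combination (-(x₁ l)) * hab'
          rw [Set.mem_preimage, e]
          exact convex_ball x ε h₁ h₂ ha hb hab
        have han : AnalyticOnNhd ℂ (fun w => g (γ w)) (γ ⁻¹' Metric.ball x ε) :=
          fun w hw => hg γ w (hγa w) (hB hw)
        have h0 : (0 : ℂ) ∈ γ ⁻¹' Metric.ball x ε := by
          rw [Set.mem_preimage]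
          simpa [hγ] using hx₁B
        have h1 : (1 : ℂ) ∈ γ ⁻¹' Metric.ball x ε := by
          rw [Set.mem_preimage]
          simpa [hγ] using hx'
        have hev : (fun w => g (γ w)) =ᶠ[𝓝 0] fun _ => c := by
          have h2 : Tendsto γ (𝓝 0) (𝓝 x₁) := by
            have := hγc.tendsto 0
            simpa [hγ] using this
          exact h2.eventually hx₁
        have h3 := han.eqOn_of_preconnected_of_eventuallyEq analyticOnNhd_const
          hconv.isPreconnected h0 hev h1
        simpa [hγ] using h3
      exact Filter.eventually_of_mem (Metric.ball_mem_nhds x hε) key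
  exact fun x hx => (hsub hx).self_of_nhds

end Pool.Agent.LR
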