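import Pool.Agent.LR.QSys
import Pool.Agent.LR.QId

/-!
# LR EDefs: root functions with constant transitions and a constant period; labels, states, the line configurations

`Cx`: a holomorphic map `f : SG k → SG n` with root functions `ρ a` on the slit region `XX k` for all levels `a`, whose transition
permutations are `θ i`, with period `z`.

`Om k θ C`: the indices fixed by all `θ i`, `i ≥ C`; `TC k θ C`: triples of such indices.  `Aw θ C j = θ j * θ (j+1) * ... * θ (C-1)`.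

`ins y j w`: the configuration of `k` points: `k - 1` real ones `y 0 < y 1 < ...` and `w`, where `w` has the position `j`.

`St n`: states `((p, m), b)`: a triple, the number of a branch of the logarithm, a level.  `SS θ c i`: the action of the half twist `i`
(level + 1), `PI`: the period (level + 2 N), `sig ν`: `m ↦ m + ν`.  `Lam L s x`: the logarithm at the state `s`.
-/

set_option autoImplicit false

noncomputable section

namespace Pool.Agent.LR

open Pool.Agent.H60.OC (Pr NN nm zc SG MF IsRoots vd poly HoloOn)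

/-- Root functions with constant transitions and a constant period. -/
structure Cx (k n : ℕ) (f : (Fin k → ℂ) → (Fin n → ℂ)) (ρ : ℤ → (Fin k → ℂ) → (Fin n → ℂ))
    (θ : ℕ → Equiv.Perm (Fin n)) (z : Equiv.Perm (Fin n)) : Prop where
  hk : 12 ≤ k
  hn : 3 ≤ n
  map : Set.MapsTo f (SG k) (SG n)
  hol : HoloOn (SG k) f
  cont : ∀ a, ContinuousOn (ρ a) (XX k)
  root : ∀ a, ∀ x ∈ XX k, IsRoots (ρ a x) (f (GG a x))
  tr : ∀ i, i + 1 < k → ∀ a, ∀ x ∈ WW (sw i), ∀ α,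
    ρ (a + 1) (fun l => x ((sw i : Equiv.Perm (Fin k)) l)) (θ i α) = ρ a x α
  zc : ∀ i, i + 1 < k → z * θ i = θ i * z
  per : ∀ a, ∀ x ∈ XX k, ∀ α, ρ (a + 2 * (NN k : ℤ)) x (z α) = ρ a x α

/-- The indices fixed by all `θ i` with `C ≤ i`. -/
def Om (k : ℕ) {n : ℕ} (θ : ℕ → Equiv.Perm (Fin n)) (C : ℕ) : Set (Fin n) := {α | ∀ i, C ≤ i → i + 1 < k → θ i α = α}

/-- The triples of indices in `Om k θ C`. -/
def TC (k : ℕ) {n : ℕ} (θ : ℕ → Equiv.Perm (Fin n)) (C : ℕ) : Set (Tr n) :=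
  {p | p.1.1 ∈ Om k θ C ∧ p.1.2.1 ∈ Om k θ C ∧ p.1.2.2 ∈ Om k θ C}

/-- `θ j * θ (j + 1) * ... * θ (C - 1)`, and `1` if `C ≤ j`. -/
def Aw {G : Type*} [Monoid G] (θ : ℕ → G) (C j : ℕ) : G := ((List.range' j (C - j)).map θ).prod

theorem Aw_ge {G : Type*} [Monoid G] (θ : ℕ → G) {C j : ℕ} (h : C ≤ j) : Aw θ C j = 1 := by
  unfold Aw
  rw [Nat.sub_eq_zero_of_le h]
  simp

theorem Aw_lt {G : Type*} [Monoid G] (θ : ℕ → G) {C j : ℕ} (h : j < C) : Aw θ C j = θ j * Aw θ C (j + 1) := by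
  unfold Aw
  obtain ⟨m, rfl⟩ : ∃ m, C = j + 1 + m := ⟨C - (j + 1), by omega⟩
  rw [show j + 1 + m - j = m + 1 by omega, show j + 1 + m - (j + 1) = m by omega, List.range'_succ]
  simp

/-- `k - 1` real points `y i` and the point `w` at position `j`. -/
def ins {k : ℕ} (y : ℕ → ℝ) (j : ℕ) (w : ℂ) : Fin k → ℂ := fun i =>
  if (i : ℕ) < j then (y (i : ℕ) : ℂ) else if (i : ℕ) = j then w else (y ((i : ℕ) - 1) : ℂ)

/-- The `w` for which `ins y j w` is in the slit region: the plane without two real rays. -/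
def UU (k : ℕ) (y : ℕ → ℝ) (j : ℕ) : Set ℂ := {w | (ins y j w : Fin k → ℂ) ∈ XX k}

/-- States: triple, branch number, level. -/
abbrev St (n : ℕ) : Type := (Tr n × ℤ) × ℤ

/-- The half twist `i` on the states. -/
def SS {n : ℕ} (θ : ℕ → Equiv.Perm (Fin n)) (c : ℕ → ℤ → Tr n → ℤ) (i : ℕ) : Equiv.Perm (St n) :=
  lv 1 (fun a => sh (θ i) (fun p => - c i a p))

/-- The period on the states. -/
def PI (k : ℕ) {n : ℕ} (z : Equiv.Perm (Fin n)) (m : ℤ → Tr n → ℤ) : Equiv.Perm (St n) :=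
  lv (2 * (NN k : ℤ)) (fun a => sh z (fun p => - m a p))

/-- `m ↦ m + ν`. -/
def sig {n : ℕ} (ν : ℤ) : Equiv.Perm (St n) where
  toFun s := ((s.1.1, s.1.2 + ν), s.2)
  invFun s := ((s.1.1, s.1.2 - ν), s.2)
  left_inv s := by simp
  right_inv s := by simp

/-- The branch of the logarithm at a state. -/
def Lam {k n : ℕ} (L : ℤ → Tr n → (Fin k → ℂ) → ℂ) (s : St n) (x : Fin k → ℂ) : ℂ :=
  L s.2 s.1.1 x + 2 * (Real.pi : ℂ) * Complex.I * (s.1.2 : ℂ)

/-- Logarithms `L a p` of the `VV (ρ a x) p` with their jumps `c` at the half twists and `m` at the period. -/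
structure Lg (k n : ℕ) (ρ : ℤ → (Fin k → ℂ) → (Fin n → ℂ)) (θ : ℕ → Equiv.Perm (Fin n)) (z : Equiv.Perm (Fin n))
    (L : ℤ → Tr n → (Fin k → ℂ) → ℂ) (c : ℕ → ℤ → Tr n → ℤ) (m : ℤ → Tr n → ℤ) : Prop where
  cont : ∀ a p, ContinuousOn (L a p) (XX k)
  exp : ∀ a p, ∀ x ∈ XX k, Complex.exp (L a p x) = VV (ρ a x) p
  jump : ∀ i, i + 1 < k → ∀ a p, ∀ x ∈ WW (sw i), L (a + 1) (ta (θ i) p) (fun l => x ((sw i : Equiv.Perm (Fin k)) l)) =
    L a p x + 2 * (Real.pi : ℂ) * Complex.I * (c i a p : ℂ)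
  pj : ∀ a p, ∀ x ∈ XX k, L (a + 2 * (NN k : ℤ)) (ta z p) x = L a p x + 2 * (Real.pi : ℂ) * Complex.I * (m a p : ℂ)
  bra : BraidRel k (SS θ c)
  com : ∀ i, i + 1 < k → PI k z m * SS θ c i = SS θ c i * PI k z m

theorem SS_apply {n : ℕ} (θ : ℕ → Equiv.Perm (Fin n)) (c : ℕ → ℤ → Tr n → ℤ) (i : ℕ) (p : Tr n) (t a : ℤ) :
    SS θ c i ((p, t), a) = ((ta (θ i) p, t + - c i a p), a + 1) := rfl

theorem PI_apply (k : ℕ) {n : ℕ} (z : Equiv.Perm (Fin n)) (m : ℤ → Tr n → ℤ) (p : Tr n) (t a : ℤ) :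
    PI k z m ((p, t), a) = ((ta z p, t + - m a p), a + 2 * (NN k : ℤ)) := rfl

theorem sig_apply {n : ℕ} (ν : ℤ) (p : Tr n) (t a : ℤ) : sig ν ((p, t), a) = ((p, t + ν), a) := rfl

end Pool.Agent.LR
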