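import Pool.Agent.LR.EDefs
import Pool.Agent.LR.Braid

/-!
# LR EGrp: the group lemmas on `Om k θ C`

`TT θ C = θ (C-1)^2`, `tau θ C j = (Aw θ C (j+1))⁻¹ * θ j ^ 2 * Aw θ C (j+1)`, `Aw θ C j = θ j * ... * θ (C-1)`.

`Om_low`: `θ i` with `i + 2 ≤ C` commutes with all `θ j`, `j ≥ C`.  `Om_T`: for `j ≥ C + 1` `θ j` commutes with `θ (C-1)`, for `j = C` the hypothesis `hT`.
`Aw_tau`: by definition.  `tau_eq`: `(θ_(j+1) ⋯ θ_(C-1))⁻¹ θ_j² (θ_(j+1) ⋯ θ_(C-1)) = (θ_j ⋯ θ_(C-2)) θ_(C-1)² (θ_j ⋯ θ_(C-2))⁻¹`: for `A = θ_j θ_(j+1) ⋯ θ_(C-1)`: `A θ_i = θ_(i+1) A` for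
`j ≤ i < C-1` (`dl_shift` in `LR/Sq.lean` or induction on `C`): for instance induction on `C - j` with
`θ_(j+1)⁻¹ θ_j² θ_(j+1) = θ_j θ_(j+1)² θ_j⁻¹`.  `tau_Om`: `tau_eq`, `Om_low` for the factors of `Aw θ (C-1) j` and their inverses, `Om_T`.
`tau_T`: let `t = θ_C θ_(C-1)² θ_C⁻¹ = θ_(C-1)⁻¹ θ_C² θ_(C-1)`.  `t x = T x` for `x ∈ Om` (`θ_C⁻¹ x = x`, `hT`).  For `j ≤ C - 2` `t` commutes with `tau j`: conjugated with `A = Aw θ C (j+1)` they are
`θ_C²` and `θ_j²` (`A t A⁻¹ = θ_(j+1) ⋯ θ_(C-2) θ_C² (..)⁻¹ = θ_C²`).  So `tau (T x) = tau (t x) = t (tau x) = T (tau x)` as `tau x ∈ Om`.  For `j = C - 1` `tau = T`.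
`tau_one`: `tau_eq` and `Om_low` for the inverse of `Aw θ (C-1) j`.
-/

set_option autoImplicit false

noncomputable section

namespace Pool.Agent.LR

variable {k n : ℕ} {θ : ℕ → Equiv.Perm (Fin n)} {C : ℕ}

/-- `θ (C - 1) ^ 2`. -/
def TT {n : ℕ} (θ : ℕ → Equiv.Perm (Fin n)) (C : ℕ) : Equiv.Perm (Fin n) := θ (C - 1) * θ (C - 1)

/-- The loop around the point `j`. -/
def tau {n : ℕ} (θ : ℕ → Equiv.Perm (Fin n)) (C j : ℕ) : Equiv.Perm (Fin n) :=
  (Aw θ C (j + 1))⁻¹ * (θ j * θ j) * Aw θ C (j + 1)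

/-- `A θ_i = θ_(i+1) A`. -/
theorem EGrp_shift {G : Type*} [Group G] {θ : ℕ → G} (hb : BraidRel k θ) (hCk : C < k) {j : ℕ} :
    ∀ {i : ℕ}, j ≤ i → i + 1 < C → Aw θ C j * θ i = θ (i + 1) * Aw θ C j := by
  -- commutation of `θ j` with `Aw θ C (j + 2)`
  have hcomm : ∀ r a b : ℕ, C ≤ b + r → a + 2 ≤ b → Aw θ C b * θ a = θ a * Aw θ C b := by
    intro r
    induction r with
    | zero =>
      intro a b hb' _
      rw [Aw_ge θ (by omega), one_mul, mul_one]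
    | succ r ih =>
      intro a b hb' hab
      rcases Nat.lt_or_ge b C with h1 | h1
      · rw [Aw_lt θ h1, mul_assoc, ih a (b + 1) (by omega) (by omega), ← mul_assoc, ← mul_assoc, hb.far a b hab (by omega)]
      · rw [Aw_ge θ h1, one_mul, mul_one]
  have hmain : ∀ r j i : ℕ, C ≤ j + r → j ≤ i → i + 1 < C → Aw θ C j * θ i = θ (i + 1) * Aw θ C j := by
    intro r
    induction r with
    | zero =>
      intro j i h1 h2 h3
      omega
    | succ r ih =>
      intro j i h1 h2 h3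
      rcases Nat.eq_or_lt_of_le h2 with h4 | h4
      · subst h4
        rw [Aw_lt θ (by omega : j < C), Aw_lt θ (by omega : j + 1 < C)]
        calc θ j * (θ (j + 1) * Aw θ C (j + 1 + 1)) * θ j = θ j * θ (j + 1) * (Aw θ C (j + 1 + 1) * θ j) := by
              simp only [mul_assoc]
          _ = θ j * θ (j + 1) * (θ j * Aw θ C (j + 1 + 1)) := by rw [hcomm (C - (j + 1 + 1)) j (j + 1 + 1) (by omega) (by omega)]
          _ = θ j * θ (j + 1) * θ j * Aw θ C (j + 1 + 1) := by simp only [mul_assoc]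
          _ = θ (j + 1) * θ j * θ (j + 1) * Aw θ C (j + 1 + 1) := by rw [hb.br j (by omega)]
          _ = _ := by simp only [mul_assoc]
      · rw [Aw_lt θ (by omega : j < C)]
        calc θ j * Aw θ C (j + 1) * θ i = θ j * (Aw θ C (j + 1) * θ i) := by rw [mul_assoc]
          _ = θ j * (θ (i + 1) * Aw θ C (j + 1)) := by rw [ih (j + 1) i (by omega) (by omega) h3]
          _ = θ j * θ (i + 1) * Aw θ C (j + 1) := by rw [mul_assoc]
          _ = θ (i + 1) * θ j * Aw θ C (j + 1) := by rw [hb.far j (i + 1) (by omega) (by omega)]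
          _ = _ := by rw [mul_assoc]
  intro i h2 h3
  exact hmain (C - j) j i (by omega) h2 h3

theorem EGrp_last {G : Type*} [Group G] (θ : ℕ → G) : ∀ r j : ℕ, C = j + r + 1 → Aw θ C j = Aw θ (C - 1) j * θ (C - 1) := by
  intro r
  induction r with
  | zero =>
    intro j h
    rw [Aw_lt θ (by omega : j < C), Aw_ge θ (by omega : C ≤ j + 1), Aw_ge θ (by omega : C - 1 ≤ j), one_mul, mul_one,
      show C - 1 = j by omega]
  | succ r ih =>
    intro j h
    rw [Aw_lt θ (by omega : j < C), ih (j + 1) (by omega), Aw_lt θ (by omega : j < C - 1), mul_assoc]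

theorem EGrp_mul {G : Type*} [Group G] {θ : ℕ → G} (hb : BraidRel k θ) (hCk : C < k) {j : ℕ} :
    ∀ r i : ℕ, C = i + r + 1 → j ≤ i → Aw θ C j * Aw θ (C - 1) i = Aw θ C (i + 1) * Aw θ C j := by
  intro r
  induction r with
  | zero =>
    intro i h _
    rw [Aw_ge θ (by omega : C - 1 ≤ i), Aw_ge θ (by omega : C ≤ i + 1), one_mul, mul_one]
  | succ r ih =>
    intro i h hji
    rw [Aw_lt θ (by omega : i < C - 1), ← mul_assoc, EGrp_shift hb hCk hji (by omega), mul_assoc,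
      ih (i + 1) (by omega) (by omega), Aw_lt θ (by omega : i + 1 < C), mul_assoc]

/-- `θ_j A² = A² θ_(C-1)`. -/
theorem EGrp_sq {G : Type*} [Group G] {θ : ℕ → G} (hb : BraidRel k θ) (hCk : C < k) {j : ℕ} (hj : j < C) :
    θ j * (Aw θ C j * Aw θ C j) = Aw θ C j * Aw θ C j * θ (C - 1) := by
  obtain ⟨r, hr⟩ : ∃ r, C = j + r + 1 := ⟨C - j - 1, by omega⟩
  have h1 : Aw θ C j * Aw θ C j = Aw θ C (j + 1) * Aw θ C j * θ (C - 1) := by
    calc Aw θ C j * Aw θ C j = Aw θ C j * (Aw θ (C - 1) j * θ (C - 1)) := by rw [← EGrp_last θ r j hr]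
      _ = (Aw θ C j * Aw θ (C - 1) j) * θ (C - 1) := by rw [mul_assoc]
      _ = _ := by rw [EGrp_mul hb hCk r j hr le_rfl]
  calc θ j * (Aw θ C j * Aw θ C j) = θ j * (Aw θ C (j + 1) * Aw θ C j * θ (C - 1)) := by rw [h1]
    _ = (θ j * Aw θ C (j + 1)) * Aw θ C j * θ (C - 1) := by simp only [mul_assoc]
    _ = _ := by rw [← Aw_lt θ hj]

theorem Om_low (hb : BraidRel k θ) {i : ℕ} (hi : i + 2 ≤ C) {x : Fin n} (hx : x ∈ Om k θ C) :
    θ i x ∈ Om k θ C ∧ (θ i)⁻¹ x ∈ Om k θ C := by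
  constructor
  · intro j hj hjk
    have h1 := hb.far i j (by omega) hjk
    have h2 := congrArg (fun g : Equiv.Perm (Fin n) => g x) h1
    simp only [Equiv.Perm.mul_apply] at h2
    rw [hx j hj hjk] at h2
    exact h2.symm
  · intro j hj hjk
    have h1 := hb.far i j (by omega) hjk
    have h3 : θ j * (θ i)⁻¹ = (θ i)⁻¹ * θ j := by
      rw [eq_inv_mul_iff_mul_eq, ← mul_assoc, h1, mul_inv_cancel_right]
    have h2 := congrArg (fun g : Equiv.Perm (Fin n) => g x) h3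
    simp only [Equiv.Perm.mul_apply] at h2
    rw [hx j hj hjk] at h2
    exact h2

theorem Om_T (hb : BraidRel k θ) (hC : 1 ≤ C)
    (hT : ∀ x ∈ Om k θ C, θ C (θ (C - 1) (θ (C - 1) x)) = θ (C - 1) (θ (C - 1) x)) {x : Fin n} (hx : x ∈ Om k θ C) :
    TT θ C x ∈ Om k θ C := by
  intro j hj hjk
  rcases Nat.eq_or_lt_of_le hj with h1 | h1
  · subst h1
    exact hT x hx
  · have h2 := hb.far (C - 1) j (by omega) hjk
    have h3 : θ j * (θ (C - 1) * θ (C - 1)) = (θ (C - 1) * θ (C - 1)) * θ j := by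
      rw [← mul_assoc, ← h2, mul_assoc, ← h2, mul_assoc]
    have h4 := congrArg (fun g : Equiv.Perm (Fin n) => g x) h3
    simp only [Equiv.Perm.mul_apply] at h4
    rw [hx j hj hjk] at h4
    exact h4

theorem Aw_tau {j : ℕ} (hj : j < C) : θ j * Aw θ C j = Aw θ C (j + 1) * tau θ C j := by
  rw [Aw_lt θ hj, tau]
  group

theorem tau_eq (hb : BraidRel k θ) (hCk : C < k) {j : ℕ} (hj : j < C) :
    tau θ C j = Aw θ (C - 1) j * TT θ C * (Aw θ (C - 1) j)⁻¹ := by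
  obtain ⟨r, hr⟩ : ∃ r, C = j + r + 1 := ⟨C - j - 1, by omega⟩
  have h1 := EGrp_sq hb hCk hj
  have h2 := EGrp_last θ r j hr
  have h3 := Aw_lt θ hj
  set A := Aw θ C j with hA
  have h4 : Aw θ (C - 1) j = A * (θ (C - 1))⁻¹ := by rw [h2, mul_inv_cancel_right]
  have h5 : Aw θ C (j + 1) = (θ j)⁻¹ * A := by rw [h3, inv_mul_cancel_left]
  rw [tau, TT, h4, h5]
  have h6 : θ j * θ j * (A * A) = A * A * (θ (C - 1) * θ (C - 1)) := by
    rw [mul_assoc, h1, ← mul_assoc, h1, mul_assoc]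
  have h7 : A⁻¹ * (θ j * θ j) * A = A * (θ (C - 1) * θ (C - 1)) * A⁻¹ := by
    rw [eq_mul_inv_iff_mul_eq, mul_assoc, mul_assoc, inv_mul_eq_iff_eq_mul, h6]
    simp only [mul_assoc]
  calc ((θ j)⁻¹ * A)⁻¹ * (θ j * θ j) * ((θ j)⁻¹ * A) = A⁻¹ * (θ j * θ j) * A := by group
    _ = A * (θ (C - 1) * θ (C - 1)) * A⁻¹ := h7
    _ = _ := by group

theorem EGrp_Aw_low (hb : BraidRel k θ) : ∀ r j : ℕ, C - 1 ≤ j + r → ∀ {x : Fin n}, x ∈ Om k θ C →
    Aw θ (C - 1) j x ∈ Om k θ C ∧ (Aw θ (C - 1) j)⁻¹ x ∈ Om k θ C := by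
  intro r
  induction r with
  | zero =>
    intro j hj x hx
    rw [Aw_ge θ (by omega : C - 1 ≤ j)]
    exact ⟨hx, by simpa using hx⟩
  | succ r ih =>
    intro j hj x hx
    rcases Nat.lt_or_ge j (C - 1) with h1 | h1
    · rw [Aw_lt θ h1]
      constructor
      · rw [Equiv.Perm.mul_apply]
        exact (Om_low hb (by omega) (ih (j + 1) (by omega) hx).1).1
      · rw [mul_inv_rev, Equiv.Perm.mul_apply]
        exact (ih (j + 1) (by omega) (Om_low hb (by omega) hx).2).2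
    · rw [Aw_ge θ h1]
      exact ⟨hx, by simpa using hx⟩

theorem tau_Om (hb : BraidRel k θ) (hC : 1 ≤ C) (hCk : C < k)
    (hT : ∀ x ∈ Om k θ C, θ C (θ (C - 1) (θ (C - 1) x)) = θ (C - 1) (θ (C - 1) x)) {j : ℕ} (hj : j < C) {x : Fin n}
    (hx : x ∈ Om k θ C) : tau θ C j x ∈ Om k θ C := by
  rw [tau_eq hb hCk hj, Equiv.Perm.mul_apply, Equiv.Perm.mul_apply]
  exact (EGrp_Aw_low hb (C - 1 - j) j (by omega) (Om_T hb hC hT (EGrp_Aw_low hb (C - 1 - j) j (by omega) hx).2)).1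

theorem tau_T (hb : BraidRel k θ) (hC : 1 ≤ C) (hCk : C + 1 < k)
    (hT : ∀ x ∈ Om k θ C, θ C (θ (C - 1) (θ (C - 1) x)) = θ (C - 1) (θ (C - 1) x)) {j : ℕ} (hj : j < C) {x : Fin n}
    (hx : x ∈ Om k θ C) : tau θ C j (TT θ C x) = TT θ C (tau θ C j x) := by
  rcases Nat.lt_or_ge (j + 1) C with hj' | hj'
  · set t : Equiv.Perm (Fin n) := θ C * (θ (C - 1) * θ (C - 1)) * (θ C)⁻¹ with ht
    have hx' : ∀ y ∈ Om k θ C, t y = TT θ C y := by
      intro y hy
      have h1 : (θ C)⁻¹ y = y := by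
        rw [Equiv.Perm.inv_eq_iff_eq]
        exact (hy C le_rfl hCk).symm
      rw [ht, Equiv.Perm.mul_apply, Equiv.Perm.mul_apply, h1, TT]
      exact hT y hy
    -- the other form of `t`
    have hbr := hb.br (C - 1) (by omega)
    rw [show C - 1 + 1 = C by omega] at hbr
    have ht2 : t = (θ (C - 1))⁻¹ * (θ C * θ C) * θ (C - 1) := by
      rw [ht, mul_inv_eq_iff_eq_mul, ← mul_right_inj (θ (C - 1))]
      have h1 : θ (C - 1) * (θ C * (θ (C - 1) * θ (C - 1))) = θ C * θ C * (θ (C - 1) * θ C) := by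
        calc θ (C - 1) * (θ C * (θ (C - 1) * θ (C - 1))) = (θ (C - 1) * θ C * θ (C - 1)) * θ (C - 1) := by
              simp only [mul_assoc]
          _ = (θ C * θ (C - 1) * θ C) * θ (C - 1) := by rw [hbr]
          _ = θ C * (θ (C - 1) * θ C * θ (C - 1)) := by simp only [mul_assoc]
          _ = θ C * (θ C * θ (C - 1) * θ C) := by rw [hbr]
          _ = _ := by simp only [mul_assoc]
      rw [h1]
      simp only [← mul_assoc, mul_inv_cancel, one_mul]
    -- `Aw θ (C-1) (j+1)` commutes with `θ C`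
    have hcom : ∀ r i : ℕ, C - 1 ≤ i + r → Aw θ (C - 1) i * θ C = θ C * Aw θ (C - 1) i := by
      intro r
      induction r with
      | zero =>
        intro i hi
        rw [Aw_ge θ (by omega : C - 1 ≤ i), one_mul, mul_one]
      | succ r ih =>
        intro i hi
        rcases Nat.lt_or_ge i (C - 1) with h1 | h1
        · rw [Aw_lt θ h1, mul_assoc, ih (i + 1) (by omega), ← mul_assoc, hb.far i C (by omega) hCk, mul_assoc]
        · rw [Aw_ge θ h1, one_mul, mul_one]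
    have hlast := EGrp_last θ (C - (j + 1) - 1) (j + 1) (by omega : C = j + 1 + (C - (j + 1) - 1) + 1)
    have h2 := hcom (C - 1 - (j + 1)) (j + 1) (by omega)
    have h3 := hb.far j C (by omega) hCk
    set B := Aw θ (C - 1) (j + 1) with hB
    have h4 : tau θ C j * t = t * tau θ C j := by
      rw [ht2, tau, hlast]
      have h5 : B⁻¹ * (θ j * θ j) * B * (θ C * θ C) = (θ C * θ C) * (B⁻¹ * (θ j * θ j) * B) := by
        have c1 : Commute B (θ C) := h2
        have c2 : Commute (θ j) (θ C) := h3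
        have c3 : Commute (B⁻¹ * (θ j * θ j) * B) (θ C) := (c1.inv_left.mul_left (c2.mul_left c2)).mul_left c1
        exact (c3.mul_right c3).eq
      calc (B * θ (C - 1))⁻¹ * (θ j * θ j) * (B * θ (C - 1)) * ((θ (C - 1))⁻¹ * (θ C * θ C) * θ (C - 1)) =
            (θ (C - 1))⁻¹ * (B⁻¹ * (θ j * θ j) * B * (θ C * θ C)) * θ (C - 1) := by group
        _ = (θ (C - 1))⁻¹ * ((θ C * θ C) * (B⁻¹ * (θ j * θ j) * B)) * θ (C - 1) := by rw [h5]
        _ = _ := by group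
    have h5 := congrArg (fun g : Equiv.Perm (Fin n) => g x) h4
    simp only [Equiv.Perm.mul_apply] at h5
    rw [hx' x hx, hx' _ (tau_Om hb hC (by omega) hT hj hx)] at h5
    exact h5
  · have h1 : j + 1 = C := by omega
    have h2 : tau θ C j = TT θ C := by
      rw [tau, Aw_ge θ (by omega : C ≤ j + 1), TT, show C - 1 = j by omega]
      simp
    rw [h2]

theorem tau_one (hb : BraidRel k θ) (hCk : C < k) (h1 : ∀ x ∈ Om k θ C, TT θ C x = x) {j : ℕ} (hj : j < C) {x : Fin n}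
    (hx : x ∈ Om k θ C) : tau θ C j x = x := by
  rw [tau_eq hb hCk hj, Equiv.Perm.mul_apply, Equiv.Perm.mul_apply, h1 _ (EGrp_Aw_low hb (C - 1 - j) j (by omega) hx).2]
  exact pinv _ _

end Pool.Agent.LR
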