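import Pool.Agent.LR.QDefs
import Pool.Agent.H41.LR.Pic
import Pool.Agent.H41.LR.Schottky

/-!
# LR QPA: abstract puncture lemma

`u` runs over the punctured disc `0 < |u| < ε`; for each integer `r` there are functions `v r`, `v' r` on the part where `(-1)^r u` is in
the slit plane, without the values `0`, `1`; neighbouring ones agree where `(-1)^r u` has positive imaginary part; they are
`2 M`-periodic in `r`; `q r` is a continuous logarithm of `v' r / v r`, with jumps `2 π i d r`, and period jump `2 π i e r`; the total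
`∑_{r < 2 M} d r - e 0` is zero.  Conclusion: `v' 0 / v 0` is bounded near `0`.

Proof: for `w` with `Re w < log ε` let `r(w)` be an integer with `|Im w - π r| ≤ π / 2`, then `(-1)^r e^w` is in the slit plane; put
`Vt w = v (r w) (e^w)`, `Vt' w = v' (r w) (e^w)`, `E w = q (r w) (e^w) - 2 π i D (r w)` with `D 0 = 0`, `D (r+1) = D r + d r`.  If
`|Im w - π r| < π` then also `Vt w = v r (e^w)` etc. (the neighbouring charts agree: `Im w` in `(π r, π (r + 1))` means
`Im ((-1)^r e^w) > 0`), so `Vt`, `Vt'` are analytic, `E` is continuous, `exp E = Vt' / Vt`, all on the half plane.  `Vt`, `Vt'` have the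
period `2 π i M`, and `E (w + 2 π i M) - E w = 2 π i (e r - (D (r + 2M) - D r))` is a continuous integer-valued function, so
constant, `= 2 π i (e 0 - ∑_{r<2M} d r) = 0`.  So `g ξ = Vt (M log ξ)`, `g' ξ = Vt' (M log ξ)`, `h ξ = E (M log ξ)` (principal logarithm) are well
defined on `0 < |ξ| < ε^(1/M)`, `g`, `g'` analytic without the values `0`, `1` (at a point of the negative axis use the periodicity
and another branch of the logarithm), so meromorphic at `0` (Picard: `H41.LR.picard`, `schottky` in `H41/LR/Pic.lean`, `Schottky.lean`, see the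
use in `H60/OC/Punct.lean`), and `h` is continuous with `exp h = g' / g`.  The meromorphic function `g' / g` has order `s` at
`0`: `g' / g = ξ^s * G ξ`, `G` analytic, `G 0 ≠ 0`, `G = exp H` near `0`, so `exp (h - H) = ξ^s` with `h - H` continuous on a punctured
disc; on a small circle this forces `s = 0` (no continuous logarithm of `ξ^s`, `s ≠ 0`: `h - H - s * (log |ξ| + i t)` along
`ξ = δ e^{it}`, `0 ≤ t ≤ 2 π`, takes values in `2 π i ℤ`, constant, but changes by `- 2 π i s`).  So `g' / g` is bounded near `0`; and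
for `u` in the slit plane, `v' 0 u / v 0 u = (g' / g) ξ` with `ξ = exp (log u / M)`.
-/

set_option autoImplicit false

open Topology Filter

noncomputable section

namespace Pool.Agent.LR

/-- The domain of the chart `r`. -/
def Dm (ε : ℝ) (r : ℤ) : Set ℂ := {u | 0 < ‖u‖ ∧ ‖u‖ < ε ∧ (-1 : ℂ) ^ r * u ∈ Complex.slitPlane}

/-- A continuous logarithm of `1` on a preconnected set is constant. -/
private theorem QPA_const {S : Set ℂ} (hS : IsPreconnected S) {F : ℂ → ℂ} (hF : ContinuousOn F S)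
    (h1 : ∀ w ∈ S, Complex.exp (F w) = 1) {a b : ℂ} (ha : a ∈ S) (hb : b ∈ S) : F a = F b := by
  have hpi : (0 : ℝ) < 2 * Real.pi := by positivity
  have hval : ∀ w ∈ S, ∃ n : ℤ, F w = n * (2 * Real.pi * Complex.I) := fun w hw =>
    Complex.exp_eq_one_iff.1 (h1 w hw)
  have him : ∀ (w : ℂ) (n : ℤ), F w = n * (2 * Real.pi * Complex.I) → (F w).im / (2 * Real.pi) = n := by
    intro w n hn
    rw [hn]
    have : ((n : ℂ) * (2 * (Real.pi : ℂ) * Complex.I)).im = n * (2 * Real.pi) := by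
      simp
    rw [this, mul_div_assoc, div_self hpi.ne', mul_one]
  have hc : ContinuousOn (fun w => (F w).im / (2 * Real.pi)) S :=
    (Complex.continuous_im.comp_continuousOn hF).div_const _
  have key : ∀ a ∈ S, ∀ b ∈ S, ∀ m n : ℤ, F a = m * (2 * Real.pi * Complex.I) →
      F b = n * (2 * Real.pi * Complex.I) → ¬ m < n := by
    intro a ha b hb m n hm hn hmn
    have hmem : ((m : ℝ) + 1 / 2) ∈ Set.Icc ((F a).im / (2 * Real.pi)) ((F b).im / (2 * Real.pi)) := by
      rw [him a m hm, him b n hn]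
      have : (m : ℝ) + 1 ≤ n := by exact_mod_cast hmn
      exact ⟨by linarith, by linarith⟩
    obtain ⟨c, hcS, hcv⟩ := hS.intermediate_value ha hb hc hmem
    obtain ⟨k, hk⟩ := hval c hcS
    have h3 : (F c).im / (2 * Real.pi) = (m : ℝ) + 1 / 2 := hcv
    rw [him c k hk] at h3
    have h4 : (2 * k : ℤ) = 2 * m + 1 := by
      have : (2 * (k : ℝ)) = 2 * m + 1 := by linarith
      exact_mod_cast this
    omega
  obtain ⟨m, hm⟩ := hval a ha
  obtain ⟨n, hn⟩ := hval b hb
  have h5 := key a ha b hb m n hm hn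
  have h6 := key b hb a ha n m hn hm
  have h7 : m = n := by omega
  rw [hm, hn, h7]

/-- `u` is `P`-periodic on a half plane, for integer multiples of the period. -/
private theorem QPA_per {x₀ : ℝ} {P : ℂ} (hP : P.re = 0) {V : ℂ → ℂ}
    (h : ∀ w : ℂ, w.re < x₀ → V (w + P) = V w) (k : ℤ) :
    ∀ w : ℂ, w.re < x₀ → V (w + k * P) = V w := by
  induction k using Int.induction_on with
  | zero => intro w _; simp
  | succ i ih =>
    intro w hw
    have h1 : w + ((i + 1 : ℤ) : ℂ) * P = (w + (i : ℤ) * P) + P := by push_cast; ring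
    rw [h1, h _ (by simp [hP, hw]), ih w hw]
  | pred i ih =>
    intro w hw
    have h1 : w + ((-(i : ℤ) : ℤ) : ℂ) * P = (w + ((-(i : ℤ) - 1 : ℤ) : ℂ) * P) + P := by push_cast; ring
    have h2 := ih w hw
    rw [h1, h _ (by simp [hP, hw])] at h2
    exact h2

/-- The values on a half plane of a function with period `2 π i M` depend on `exp (w / M)` only. -/
private theorem QPA_perexp {x₀ : ℝ} {M : ℕ} {V : ℂ → ℂ}
    (h : ∀ w : ℂ, w.re < x₀ → V (w + 2 * (Real.pi : ℂ) * Complex.I * M) = V w)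
    {z z' : ℂ} (hz : ((M : ℂ) * z').re < x₀) (he : Complex.exp z = Complex.exp z') :
    V (M * z) = V (M * z') := by
  obtain ⟨n, hn⟩ := Complex.exp_eq_exp_iff_exists_int.1 he
  have h1 := QPA_per (P := 2 * (Real.pi : ℂ) * Complex.I * M) (by simp) h n (M * z') hz
  rw [← h1, hn]
  congr 1
  ring

private theorem QPA_re_log (M : ℕ) (ξ : ℂ) : ((M : ℂ) * Complex.log ξ).re = M * Real.log ‖ξ‖ := by
  rw [← Complex.log_re]
  simp

/-- The function `ξ ↦ V (M log ξ)`. -/
private theorem QPA_diff {x₀ : ℝ} {M : ℕ} (hM : 0 < M) {V : ℂ → ℂ}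
    (hV : ∀ w : ℂ, w.re < x₀ → AnalyticAt ℂ V w)
    (h : ∀ w : ℂ, w.re < x₀ → V (w + 2 * (Real.pi : ℂ) * Complex.I * M) = V w) :
    DifferentiableOn ℂ (fun ξ => V (M * Complex.log ξ)) (Metric.ball 0 (Real.exp (x₀ / M)) \ {0}) := by
  have hM' : (0 : ℝ) < M := by exact_mod_cast hM
  have hlt : ∀ ξ : ℂ, ξ ∈ Metric.ball (0 : ℂ) (Real.exp (x₀ / M)) \ {0} → (M : ℝ) * Real.log ‖ξ‖ < x₀ := by
    intro ξ hξ
    have h1 : 0 < ‖ξ‖ := norm_pos_iff.2 hξ.2
    have h2 : ‖ξ‖ < Real.exp (x₀ / M) := by simpa using hξ.1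
    have h3 : Real.log ‖ξ‖ < x₀ / M := (Real.log_lt_iff_lt_exp h1).2 h2
    rw [lt_div_iff₀ hM'] at h3
    linarith
  intro ξ₀ hξ₀
  have h0 : ξ₀ ≠ 0 := hξ₀.2
  have hb : DifferentiableAt ℂ (fun ξ => V (M * (Complex.log ξ₀ + Complex.log (ξ / ξ₀)))) ξ₀ := by
    have h1 : DifferentiableAt ℂ (fun ξ : ℂ => (M : ℂ) * (Complex.log ξ₀ + Complex.log (ξ / ξ₀))) ξ₀ := by
      have h2 : DifferentiableAt ℂ (fun ξ : ℂ => Complex.log (ξ / ξ₀)) ξ₀ := by
        refine DifferentiableAt.clog (differentiableAt_id.div_const ξ₀) ?_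
        simp [div_self h0]
      exact (h2.const_add _).const_mul _
    refine DifferentiableAt.comp ξ₀ (g := V) ?_ h1
    apply AnalyticAt.differentiableAt
    apply hV
    rw [div_self h0, Complex.log_one, add_zero, QPA_re_log]
    exact hlt ξ₀ hξ₀
  refine DifferentiableAt.differentiableWithinAt ?_
  refine hb.congr_of_eventuallyEq ?_
  have h3 : ∀ᶠ ξ in 𝓝 ξ₀, ξ ∈ Metric.ball (0 : ℂ) (Real.exp (x₀ / M)) \ {0} :=
    (Metric.isOpen_ball.sdiff isClosed_singleton).mem_nhds hξ₀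
  filter_upwards [h3] with ξ hξ
  have h4 : ξ ≠ 0 := hξ.2
  have h5 : Complex.exp (Complex.log ξ₀ + Complex.log (ξ / ξ₀)) = Complex.exp (Complex.log ξ) := by
    rw [Complex.exp_add, Complex.exp_log h0, Complex.exp_log (div_ne_zero h4 h0), Complex.exp_log h4]
    field_simp
  refine (QPA_perexp h ?_ h5).symm
  rw [QPA_re_log]
  exact hlt ξ hξ

/-- The abstract statement on a left half plane. -/
private theorem QPA_half {x₀ : ℝ} {M : ℕ} (hM : 0 < M) {V V' E : ℂ → ℂ}
    (hV : ∀ w : ℂ, w.re < x₀ → AnalyticAt ℂ V w) (hV' : ∀ w : ℂ, w.re < x₀ → AnalyticAt ℂ V' w)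
    (hO : ∀ w : ℂ, w.re < x₀ → V w ≠ 0 ∧ V w ≠ 1) (hO' : ∀ w : ℂ, w.re < x₀ → V' w ≠ 0 ∧ V' w ≠ 1)
    (hE : ContinuousOn E {w : ℂ | w.re < x₀})
    (hEe : ∀ w : ℂ, w.re < x₀ → Complex.exp (E w) = V' w / V w)
    (hp : ∀ w : ℂ, w.re < x₀ → V (w + 2 * (Real.pi : ℂ) * Complex.I * M) = V w)
    (hp' : ∀ w : ℂ, w.re < x₀ → V' (w + 2 * (Real.pi : ℂ) * Complex.I * M) = V' w)
    (hpE : ∀ w : ℂ, w.re < x₀ → E (w + 2 * (Real.pi : ℂ) * Complex.I * M) = E w) :
    ∃ x₁ B : ℝ, ∀ w : ℂ, w.re < x₁ → ‖V' w / V w‖ ≤ B := by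
  have hM' : (0 : ℝ) < M := by exact_mod_cast hM
  have hMC : (M : ℂ) ≠ 0 := by exact_mod_cast hM.ne'
  have hr : 0 < Real.exp (x₀ / M) := Real.exp_pos _
  have hlt : ∀ ξ : ℂ, ξ ∈ Metric.ball (0 : ℂ) (Real.exp (x₀ / M)) \ {0} →
      ((M : ℂ) * Complex.log ξ).re < x₀ := by
    intro ξ hξ
    rw [QPA_re_log]
    have h1 : 0 < ‖ξ‖ := norm_pos_iff.2 hξ.2
    have h2 : ‖ξ‖ < Real.exp (x₀ / M) := by simpa using hξ.1
    have h3 : Real.log ‖ξ‖ < x₀ / M := (Real.log_lt_iff_lt_exp h1).2 h2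
    rw [lt_div_iff₀ hM'] at h3
    linarith
  set g : ℂ → ℂ := fun ξ => V (M * Complex.log ξ) with hg
  set g' : ℂ → ℂ := fun ξ => V' (M * Complex.log ξ) with hg'
  have hgm : MeromorphicAt g 0 := Pool.Agent.H41.LR.picard Pool.Agent.H41.LR.schottky hr
    (QPA_diff hM hV hp) (fun ξ hξ => hO _ (hlt ξ hξ))
  have hgm' : MeromorphicAt g' 0 := Pool.Agent.H41.LR.picard Pool.Agent.H41.LR.schottky hr
    (QPA_diff hM hV' hp') (fun ξ hξ => hO' _ (hlt ξ hξ))
  set φ : ℂ → ℂ := g' / g with hφ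
  have hφm : MeromorphicAt φ 0 := hgm'.div hgm
  have hφ0 : ∀ ξ : ℂ, ξ ∈ Metric.ball (0 : ℂ) (Real.exp (x₀ / M)) \ {0} → φ ξ ≠ 0 := by
    intro ξ hξ
    exact div_ne_zero (hO' _ (hlt ξ hξ)).1 (hO _ (hlt ξ hξ)).1
  have hord : meromorphicOrderAt φ 0 ≠ ⊤ := by
    intro h1
    rw [meromorphicOrderAt_eq_top_iff] at h1
    have h2 : ∀ᶠ w in 𝓝[≠] (0 : ℂ), w ∈ Metric.ball (0 : ℂ) (Real.exp (x₀ / M)) \ {0} := by
      have h3 : ∀ᶠ w in 𝓝[≠] (0 : ℂ), w ∈ Metric.ball (0 : ℂ) (Real.exp (x₀ / M)) :=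
        nhdsWithin_le_nhds (Metric.ball_mem_nhds _ hr)
      filter_upwards [h3, self_mem_nhdsWithin] with w h4 h5 using ⟨h4, h5⟩
    obtain ⟨w, h3, h4⟩ := (h1.and h2).exists
    exact hφ0 w h4 h3
  obtain ⟨H, hHa, hH0, hHe⟩ := (meromorphicOrderAt_ne_top_iff hφm).1 hord
  set s : ℤ := (meromorphicOrderAt φ 0).untop₀ with hs
  rw [Filter.EventuallyEq, eventually_nhdsWithin_iff] at hHe
  have hpos : 0 < ‖H 0‖ := norm_pos_iff.2 hH0
  have hslit : ∀ᶠ ξ in 𝓝 (0 : ℂ), H ξ / H 0 ∈ Complex.slitPlane := by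
    have h1 : ContinuousAt (fun ξ => H ξ / H 0) 0 := hHa.continuousAt.div_const _
    refine h1.preimage_mem_nhds (Complex.isOpen_slitPlane.mem_nhds ?_)
    simp [div_self hH0]
  have hbd : ∀ᶠ ξ in 𝓝 (0 : ℂ), ‖H ξ‖ < 2 * ‖H 0‖ :=
    hHa.continuousAt.norm.eventually_lt continuousAt_const (by linarith)
  obtain ⟨δ, hδ, hδb⟩ := Metric.eventually_nhds_iff_ball.1
    (((hHe.and hHa.eventually_analyticAt).and hslit).and hbd)
  set δ' : ℝ := min δ (Real.exp (x₀ / M)) with hδ'
  have hδ'0 : 0 < δ' := lt_min hδ hr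
  set x₁ : ℝ := M * Real.log δ' with hx₁
  -- for `w` far to the left, `ξ = exp (w / M)`
  have hξ : ∀ w : ℂ, w.re < x₁ → ‖Complex.exp (w / M)‖ < δ' := by
    intro w hw
    rw [Complex.norm_exp]
    have h1 : (w / (M : ℂ)).re = w.re / M := by
      rw [Complex.div_natCast_re]
    rw [h1]
    have h2 : w.re / M < Real.log δ' := by
      rw [div_lt_iff₀ hM']
      linarith
    calc Real.exp (w.re / M) < Real.exp (Real.log δ') := Real.exp_lt_exp.2 h2
      _ = δ' := Real.exp_log hδ'0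
  have hx₁₀ : ∀ w : ℂ, w.re < x₁ → w.re < x₀ := by
    intro w hw
    have h1 : Real.log δ' ≤ x₀ / M := by
      rw [Real.log_le_iff_le_exp hδ'0]
      exact min_le_right _ _
    have h2 : x₁ ≤ x₀ := by
      rw [hx₁]
      calc (M : ℝ) * Real.log δ' ≤ M * (x₀ / M) := mul_le_mul_of_nonneg_left h1 hM'.le
        _ = x₀ := by field_simp
    linarith
  have hφw : ∀ w : ℂ, w.re < x₁ → φ (Complex.exp (w / M)) = V' w / V w := by
    intro w hw
    have h1 : Complex.exp (Complex.log (Complex.exp (w / M))) = Complex.exp (w / M) :=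
      Complex.exp_log (Complex.exp_ne_zero _)
    have h2 : (M : ℂ) * (w / M) = w := by field_simp
    have h3 : g (Complex.exp (w / M)) = V w := by
      have := QPA_perexp hp (z := Complex.log (Complex.exp (w / M))) (z' := w / M)
        (by rw [h2]; exact hx₁₀ w hw) h1
      rw [h2] at this
      exact this
    have h4 : g' (Complex.exp (w / M)) = V' w := by
      have := QPA_perexp hp' (z := Complex.log (Complex.exp (w / M))) (z' := w / M)
        (by rw [h2]; exact hx₁₀ w hw) h1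
      rw [h2] at this
      exact this
    show g' _ / g _ = _
    rw [h3, h4]
  have hmem : ∀ w : ℂ, w.re < x₁ → Complex.exp (w / M) ∈ Metric.ball (0 : ℂ) δ := by
    intro w hw
    rw [mem_ball_zero_iff]
    exact (hξ w hw).trans_le (min_le_left _ _)
  -- the logarithm
  set F : ℂ → ℂ := fun w => E w - s * (w / M) - Complex.log (H (Complex.exp (w / M)) / H 0) -
    Complex.log (H 0) with hF
  have hFe : ∀ w ∈ {w : ℂ | w.re < x₁}, Complex.exp (F w) = 1 := by
    intro w hw
    obtain ⟨⟨⟨h1, -⟩, h3⟩, -⟩ := hδb _ (hmem w hw)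
    have h4 : φ (Complex.exp (w / M)) = Complex.exp (w / M) ^ s * H (Complex.exp (w / M)) := by
      have := h1 (by simp)
      rw [sub_zero, smul_eq_mul] at this
      exact this
    have h5 : H (Complex.exp (w / M)) / H 0 ≠ 0 := Complex.slitPlane_ne_zero h3
    rw [hF]
    simp only
    rw [Complex.exp_sub, Complex.exp_sub, Complex.exp_sub, hEe w (hx₁₀ w hw), Complex.exp_log h5,
      Complex.exp_log hH0, Complex.exp_int_mul, ← hφw w hw, h4]
    have h6 : Complex.exp (w / M) ^ s ≠ 0 := zpow_ne_zero _ (Complex.exp_ne_zero _)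
    have h7 : H (Complex.exp (w / M)) ≠ 0 := fun h => h5 (by rw [h, zero_div])
    field_simp
  have hFc : ContinuousOn F {w : ℂ | w.re < x₁} := by
    intro w hw
    obtain ⟨⟨⟨-, h2⟩, h3⟩, -⟩ := hδb _ (hmem w hw)
    have h4 : ContinuousWithinAt E {w : ℂ | w.re < x₁} w :=
      (hE w (hx₁₀ w hw)).mono fun z hz => hx₁₀ z hz
    have h5 : ContinuousAt (fun w : ℂ => Complex.exp (w / M)) w :=
      (Complex.continuous_exp.comp (continuous_id.div_const _)).continuousAt
    have h6 : ContinuousAt (fun w : ℂ => Complex.log (H (Complex.exp (w / M)) / H 0)) w := by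
      refine ContinuousAt.clog ?_ h3
      exact (ContinuousAt.comp (f := fun w : ℂ => Complex.exp (w / M)) (x := w) (g := H)
        h2.continuousAt h5).div_const _
    have h7 : ContinuousAt (fun w : ℂ => (s : ℂ) * (w / M)) w :=
      (continuous_const.mul (continuous_id.div_const _)).continuousAt
    exact ((h4.sub h7.continuousWithinAt).sub h6.continuousWithinAt).sub continuousWithinAt_const
  have hconn : IsPreconnected {w : ℂ | w.re < x₁} :=
    (convex_halfSpace_re_lt x₁).isPreconnected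
  have hs0 : s = 0 := by
    set w₀ : ℂ := ((x₁ - 1 : ℝ) : ℂ) with hw₀
    have ha : w₀ ∈ {w : ℂ | w.re < x₁} := by simp [hw₀]
    have hb : w₀ + 2 * (Real.pi : ℂ) * Complex.I * M ∈ {w : ℂ | w.re < x₁} := by simp [hw₀]
    have h1 := QPA_const hconn hFc hFe ha hb
    have h2 : Complex.exp ((w₀ + 2 * (Real.pi : ℂ) * Complex.I * M) / M) = Complex.exp (w₀ / M) := by
      have : (w₀ + 2 * (Real.pi : ℂ) * Complex.I * M) / M = w₀ / M + 2 * (Real.pi : ℂ) * Complex.I := by
        field_simp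
      rw [this, Complex.exp_periodic]
    have h3 : F (w₀ + 2 * (Real.pi : ℂ) * Complex.I * M) = F w₀ - s * (2 * (Real.pi : ℂ) * Complex.I) := by
      rw [hF]
      simp only
      rw [h2, hpE w₀ (hx₁₀ w₀ ha)]
      field_simp
      ring
    rw [h3] at h1
    have h4 : (s : ℂ) * (2 * (Real.pi : ℂ) * Complex.I) = 0 := by linear_combination h1
    have h5 : (2 * (Real.pi : ℂ) * Complex.I) ≠ 0 := by
      simp [Real.pi_ne_zero]
    have h6 : (s : ℂ) = 0 := (mul_eq_zero.1 h4).resolve_right h5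
    exact_mod_cast h6
  refine ⟨x₁, 2 * ‖H 0‖, fun w hw => ?_⟩
  obtain ⟨⟨⟨h1, -⟩, -⟩, h4⟩ := hδb _ (hmem w hw)
  have h5 : φ (Complex.exp (w / M)) = Complex.exp (w / M) ^ s * H (Complex.exp (w / M)) := by
    have := h1 (by simp)
    rw [sub_zero, smul_eq_mul] at this
    exact this
  rw [← hφw w hw, h5, hs0, zpow_zero, one_mul]
  exact h4.le

private theorem QPA_D (d : ℤ → ℤ) : ∃ D : ℤ → ℤ, D 0 = 0 ∧ ∀ r, D (r + 1) = D r + d r := by
  refine ⟨fun r => ∑ i ∈ Finset.Ico 0 r, d i - ∑ i ∈ Finset.Ico r 0, d i, by simp, ?_⟩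
  intro r
  rcases le_or_gt 0 r with h | h
  · have h1 : Finset.Ico 0 (r + 1) = insert r (Finset.Ico 0 r) := by
      ext x
      simp only [Finset.mem_insert, Finset.mem_Ico]
      omega
    have h2 : Finset.Ico (r + 1) 0 = ∅ := Finset.Ico_eq_empty_of_le (by omega)
    have h3 : Finset.Ico r 0 = ∅ := Finset.Ico_eq_empty_of_le (by omega)
    simp only [h1, h2, h3, Finset.sum_empty, sub_zero]
    rw [Finset.sum_insert (by simp)]
    ring
  · have h1 : Finset.Ico r 0 = insert r (Finset.Ico (r + 1) 0) := by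
      ext x
      simp only [Finset.mem_insert, Finset.mem_Ico]
      omega
    have h2 : Finset.Ico 0 (r + 1) = ∅ := Finset.Ico_eq_empty_of_le (by omega)
    have h3 : Finset.Ico 0 r = ∅ := Finset.Ico_eq_empty_of_le (by omega)
    simp only [h1, h2, h3, Finset.sum_empty, zero_sub]
    rw [Finset.sum_insert (by simp)]
    ring

private theorem QPA_open (ε : ℝ) (r : ℤ) : IsOpen (Dm ε r) := by
  have h1 : Dm ε r = {u : ℂ | 0 < ‖u‖} ∩ ({u : ℂ | ‖u‖ < ε} ∩ ((fun u : ℂ => (-1 : ℂ) ^ r * u) ⁻¹' Complex.slitPlane)) := by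
    ext u
    simp [Dm]
  rw [h1]
  exact (isOpen_lt continuous_const continuous_norm).inter ((isOpen_lt continuous_norm continuous_const).inter
    (Complex.isOpen_slitPlane.preimage (continuous_const.mul continuous_id)))

private theorem QPA_sign (w : ℂ) (r : ℤ) : (-1 : ℂ) ^ r * Complex.exp w =
    Complex.exp (w - r * (Real.pi * Complex.I)) := by
  rw [Complex.exp_sub, Complex.exp_int_mul, Complex.exp_pi_mul_I]
  have h1 : (-1 : ℂ) ^ r * (-1 : ℂ) ^ r = 1 := by
    rw [← mul_zpow]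
    simp
  have h2 : (-1 : ℂ) ^ r ≠ 0 := zpow_ne_zero _ (by norm_num)
  field_simp
  linear_combination h1

private theorem QPA_im (w : ℂ) (r : ℤ) : ((-1 : ℂ) ^ r * Complex.exp w).im =
    Real.exp w.re * Real.sin (w.im - Real.pi * r) := by
  rw [QPA_sign, Complex.exp_im]
  have h1 : (w - (r : ℂ) * (Real.pi * Complex.I)).re = w.re := by simp
  have h2 : (w - (r : ℂ) * (Real.pi * Complex.I)).im = w.im - Real.pi * r := by
    simp
    ring
  rw [h1, h2]

private theorem QPA_re (w : ℂ) (r : ℤ) : ((-1 : ℂ) ^ r * Complex.exp w).re =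
    Real.exp w.re * Real.cos (w.im - Real.pi * r) := by
  rw [QPA_sign, Complex.exp_re]
  have h1 : (w - (r : ℂ) * (Real.pi * Complex.I)).re = w.re := by simp
  have h2 : (w - (r : ℂ) * (Real.pi * Complex.I)).im = w.im - Real.pi * r := by
    simp
    ring
  rw [h1, h2]

private theorem QPA_dom {ε : ℝ} (hε : 0 < ε) {w : ℂ} {r : ℤ} (hw : w.re < Real.log ε)
    (hr : |w.im - Real.pi * r| < Real.pi) : Complex.exp w ∈ Dm ε r := by
  refine ⟨norm_pos_iff.2 (Complex.exp_ne_zero _), ?_, ?_⟩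
  · rw [Complex.norm_exp]
    calc Real.exp w.re < Real.exp (Real.log ε) := Real.exp_lt_exp.2 hw
      _ = ε := Real.exp_log hε
  · rw [Complex.mem_slitPlane_iff, QPA_re, QPA_im]
    rw [abs_lt] at hr
    by_cases h0 : w.im - Real.pi * r = 0
    · left
      rw [h0, Real.cos_zero, mul_one]
      exact Real.exp_pos _
    · right
      refine mul_ne_zero (Real.exp_pos _).ne' ?_
      intro hs
      rcases lt_or_gt_of_ne h0 with h1 | h1
      · exact (Real.sin_neg_of_neg_of_neg_pi_lt h1 hr.1).ne hs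
      · exact (Real.sin_pos_of_pos_of_lt_pi h1 hr.2).ne' hs

theorem punct_abs {ε : ℝ} (hε : 0 < ε) {M : ℕ} (hM : 0 < M) {v v' q : ℤ → ℂ → ℂ} {d e : ℤ → ℤ}
    (han : ∀ r, ∀ u ∈ Dm ε r, AnalyticAt ℂ (v r) u) (han' : ∀ r, ∀ u ∈ Dm ε r, AnalyticAt ℂ (v' r) u)
    (hom : ∀ r, ∀ u ∈ Dm ε r, v r u ≠ 0 ∧ v r u ≠ 1) (hom' : ∀ r, ∀ u ∈ Dm ε r, v' r u ≠ 0 ∧ v' r u ≠ 1)
    (hq : ∀ r, ContinuousOn (q r) (Dm ε r)) (hqe : ∀ r, ∀ u ∈ Dm ε r, Complex.exp (q r u) = v' r u / v r u)
    (hgl : ∀ r, ∀ u ∈ Dm ε r, 0 < ((-1 : ℂ) ^ r * u).im → v (r + 1) u = v r u ∧ v' (r + 1) u = v' r u ∧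
      q (r + 1) u = q r u + 2 * (Real.pi : ℂ) * Complex.I * (d r : ℂ))
    (hpe : ∀ r, ∀ u ∈ Dm ε r, v (r + 2 * M) u = v r u ∧ v' (r + 2 * M) u = v' r u ∧
      q (r + 2 * M) u = q r u + 2 * (Real.pi : ℂ) * Complex.I * (e r : ℂ))
    (htot : ∑ r ∈ Finset.range (2 * M), d r = e 0) :
    ∃ δ > 0, ∃ B : ℝ, ∀ u ∈ Dm δ 0, ‖v' 0 u / v 0 u‖ ≤ B := by
  obtain ⟨D, hD0, hD⟩ := QPA_D d
  have hDn : ∀ n : ℕ, D n = ∑ i ∈ Finset.range n, d i := by
    intro n
    induction n with
    | zero => simp [hD0]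
    | succ n ih =>
      rw [Finset.sum_range_succ, ← ih]
      push_cast
      exact hD n
  have h2pi : (2 * (Real.pi : ℂ) * Complex.I) ≠ 0 := by simp [Real.pi_ne_zero]
  -- the total period jump
  have hce : ∀ r : ℤ, e r + d (r + 2 * M) = d r + e (r + 1) := by
    intro r
    set u : ℂ := (-1 : ℂ) ^ r * ((ε / 2 : ℝ) * Complex.I) with hu
    have hsq : (-1 : ℂ) ^ r * (-1 : ℂ) ^ r = 1 := by
      rw [← mul_zpow]
      simp
    have hu1 : (-1 : ℂ) ^ r * u = (ε / 2 : ℝ) * Complex.I := by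
      rw [hu, ← mul_assoc, hsq, one_mul]
    have hu2 : (-1 : ℂ) ^ (r + 1) * u = -((ε / 2 : ℝ) * Complex.I) := by
      rw [zpow_add₀ (by norm_num), zpow_one, mul_assoc, mul_comm (-1 : ℂ) u, ← mul_assoc, hu1]
      ring
    have hu3 : (-1 : ℂ) ^ (r + 2 * M) * u = (ε / 2 : ℝ) * Complex.I := by
      have : (-1 : ℂ) ^ (2 * (M : ℤ)) = 1 := by
        rw [zpow_mul]
        simp
      rw [zpow_add₀ (by norm_num), this, mul_one, hu1]
    have hn : ‖u‖ = ε / 2 := by
      rw [hu, norm_mul, norm_zpow, norm_neg, norm_one, one_zpow, one_mul, norm_mul, Complex.norm_I, mul_one,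
        Complex.norm_real, Real.norm_of_nonneg (by positivity)]
    have him : (((ε / 2 : ℝ) : ℂ) * Complex.I).im = ε / 2 := by simp
    have hsl : ((ε / 2 : ℝ) : ℂ) * Complex.I ∈ Complex.slitPlane := by
      rw [Complex.mem_slitPlane_iff]
      right
      rw [him]
      positivity
    have hsl' : -(((ε / 2 : ℝ) : ℂ) * Complex.I) ∈ Complex.slitPlane := by
      rw [Complex.mem_slitPlane_iff]
      right
      rw [Complex.neg_im, him]
      simp [hε.ne']
    have hn1 : 0 < ‖u‖ ∧ ‖u‖ < ε := by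
      rw [hn]
      exact ⟨by positivity, by linarith⟩
    have hm : u ∈ Dm ε r := ⟨hn1.1, hn1.2, by rw [hu1]; exact hsl⟩
    have hm1 : u ∈ Dm ε (r + 1) := ⟨hn1.1, hn1.2, by rw [hu2]; exact hsl'⟩
    have hm2 : u ∈ Dm ε (r + 2 * M) := ⟨hn1.1, hn1.2, by rw [hu3]; exact hsl⟩
    have e1 := (hgl r u hm (by rw [hu1, him]; positivity)).2.2
    have e2 := (hgl (r + 2 * M) u hm2 (by rw [hu3, him]; positivity)).2.2
    have e3 := (hpe r u hm).2.2
    have e4 := (hpe (r + 1) u hm1).2.2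
    rw [show r + 1 + 2 * (M : ℤ) = r + 2 * M + 1 by ring, e2, e3, e1] at e4
    have e5 : (2 * (Real.pi : ℂ) * Complex.I) * ((e r : ℂ) + (d (r + 2 * M) : ℂ))
        = (2 * (Real.pi : ℂ) * Complex.I) * ((d r : ℂ) + (e (r + 1) : ℂ)) := by
      linear_combination e4
    have e6 := mul_left_cancel₀ h2pi e5
    exact_mod_cast e6
  have he : ∀ r : ℤ, e r = D (r + 2 * M) - D r := by
    intro r
    induction r using Int.induction_on with
    | zero =>
      have := hDn (2 * M)
      push_cast at this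
      rw [zero_add, this, hD0, sub_zero, htot]
    | succ i ih =>
      have h1 := hce i
      have h2 := hD i
      have h3 := hD (i + 2 * M)
      rw [show (i : ℤ) + 1 + 2 * (M : ℤ) = i + 2 * M + 1 by ring]
      omega
    | pred i ih =>
      have h1 := hce (-(i : ℤ) - 1)
      have h2 := hD (-(i : ℤ) - 1)
      have h3 := hD (-(i : ℤ) - 1 + 2 * M)
      rw [show -(i : ℤ) - 1 + 1 = -i by ring] at h1 h2
      rw [show -(i : ℤ) - 1 + 2 * (M : ℤ) + 1 = -i + 2 * M by ring] at h3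
      omega
  -- the functions on the half plane
  set x₀ : ℝ := Real.log ε with hx₀
  set R : ℂ → ℤ := fun w => round (w.im / Real.pi) with hR
  have hpi := Real.pi_pos
  have hRb : ∀ w : ℂ, |w.im - Real.pi * R w| ≤ Real.pi / 2 := by
    intro w
    have h1 : |w.im / Real.pi - round (w.im / Real.pi)| ≤ 1 / 2 := abs_sub_round _
    have h2 : w.im - Real.pi * R w = Real.pi * (w.im / Real.pi - round (w.im / Real.pi)) := by
      rw [hR]
      field_simp
    rw [h2, abs_mul, abs_of_pos hpi]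
    calc Real.pi * |w.im / Real.pi - round (w.im / Real.pi)| ≤ Real.pi * (1 / 2) :=
        mul_le_mul_of_nonneg_left h1 hpi.le
      _ = Real.pi / 2 := by ring
  have hRb' : ∀ w : ℂ, |w.im - Real.pi * R w| < Real.pi := fun w => (hRb w).trans_lt (by linarith)
  set V : ℂ → ℂ := fun w => v (R w) (Complex.exp w) with hV
  set V' : ℂ → ℂ := fun w => v' (R w) (Complex.exp w) with hV'
  set E : ℂ → ℂ := fun w => q (R w) (Complex.exp w) - 2 * (Real.pi : ℂ) * Complex.I * (D (R w) : ℂ) with hE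
  have hch : ∀ (w : ℂ) (r : ℤ), w.re < x₀ → |w.im - Real.pi * r| < Real.pi →
      V w = v r (Complex.exp w) ∧ V' w = v' r (Complex.exp w) ∧
      E w = q r (Complex.exp w) - 2 * (Real.pi : ℂ) * Complex.I * (D r : ℂ) := by
    intro w r hw hr
    have h1 := hRb w
    have hstep : ∀ a : ℤ, 0 < w.im - Real.pi * a → w.im - Real.pi * a < Real.pi →
        v (a + 1) (Complex.exp w) = v a (Complex.exp w) ∧ v' (a + 1) (Complex.exp w) = v' a (Complex.exp w) ∧
        q (a + 1) (Complex.exp w) = q a (Complex.exp w) + 2 * (Real.pi : ℂ) * Complex.I * (d a : ℂ) := by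
      intro a h2 h3
      refine hgl a _ (QPA_dom hε hw (abs_lt.2 ⟨by linarith, h3⟩)) ?_
      rw [QPA_im]
      exact mul_pos (Real.exp_pos _) (Real.sin_pos_of_pos_of_lt_pi h2 h3)
    rw [abs_le] at h1
    rw [abs_lt] at hr
    have h4 : R w = r ∨ R w + 1 = r ∨ R w = r + 1 := by
      have h5 : (r : ℝ) - R w < 2 := by
        by_contra hcon
        push Not at hcon
        nlinarith [mul_le_mul_of_nonneg_left hcon hpi.le]
      have h6 : (R w : ℝ) - r < 2 := by
        by_contra hcon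
        push Not at hcon
        nlinarith [mul_le_mul_of_nonneg_left hcon hpi.le]
      have h7 : r - R w < 2 := by exact_mod_cast h5
      have h8 : R w - r < 2 := by exact_mod_cast h6
      omega
    rcases h4 with h4 | h4 | h4
    · rw [← h4]
      exact ⟨rfl, rfl, rfl⟩
    · have hc : (r : ℝ) = R w + 1 := by rw [← h4]; push_cast; ring
      rw [hc] at hr
      obtain ⟨a1, a2, a3⟩ := hstep (R w) (by linarith [hr.1]) (by linarith)
      rw [← h4]
      refine ⟨a1.symm, a2.symm, ?_⟩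
      rw [a3, hD]
      show q (R w) (Complex.exp w) - _ = _
      push_cast
      ring
    · have hc : (R w : ℝ) = r + 1 := by rw [h4]; push_cast; ring
      rw [hc] at h1
      obtain ⟨a1, a2, a3⟩ := hstep r (by linarith [h1.1]) hr.2
      refine ⟨?_, ?_, ?_⟩
      · show v (R w) (Complex.exp w) = _
        rw [h4, a1]
      · show v' (R w) (Complex.exp w) = _
        rw [h4, a2]
      · show q (R w) (Complex.exp w) - 2 * (Real.pi : ℂ) * Complex.I * (D (R w) : ℂ) = _
        rw [h4, a3, hD]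
        push_cast
        ring
  have hdom : ∀ w : ℂ, w.re < x₀ → Complex.exp w ∈ Dm ε (R w) := fun w hw => QPA_dom hε hw (hRb' w)
  -- near a point one chart suffices
  have hnear : ∀ w₀ : ℂ, w₀.re < x₀ → ∀ᶠ w in 𝓝 w₀, V w = v (R w₀) (Complex.exp w) ∧
      V' w = v' (R w₀) (Complex.exp w) ∧
      E w = q (R w₀) (Complex.exp w) - 2 * (Real.pi : ℂ) * Complex.I * (D (R w₀) : ℂ) := by
    intro w₀ hw₀
    have h1 : ∀ᶠ w : ℂ in 𝓝 w₀, w.re < x₀ :=
      Complex.continuous_re.continuousAt.eventually_lt continuousAt_const hw₀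
    have h2 : ∀ᶠ w : ℂ in 𝓝 w₀, |w.im - Real.pi * R w₀| < Real.pi := by
      have h3 : ContinuousAt (fun w : ℂ => |w.im - Real.pi * R w₀|) w₀ :=
        ((Complex.continuous_im.sub continuous_const).abs).continuousAt
      exact h3.eventually_lt continuousAt_const (hRb' w₀)
    filter_upwards [h1, h2] with w h3 h4 using hch w _ h3 h4
  have hVa : ∀ w : ℂ, w.re < x₀ → AnalyticAt ℂ V w := by
    intro w hw
    have h1 : AnalyticAt ℂ (fun z => v (R w) (Complex.exp z)) w :=
      AnalyticAt.fun_comp (g := v (R w)) (f := Complex.exp) (han (R w) _ (hdom w hw)) (Complex.differentiable_exp.analyticAt w)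
    refine h1.congr ?_
    filter_upwards [hnear w hw] with z hz using hz.1.symm
  have hVa' : ∀ w : ℂ, w.re < x₀ → AnalyticAt ℂ V' w := by
    intro w hw
    have h1 : AnalyticAt ℂ (fun z => v' (R w) (Complex.exp z)) w :=
      AnalyticAt.fun_comp (g := v' (R w)) (f := Complex.exp) (han' (R w) _ (hdom w hw)) (Complex.differentiable_exp.analyticAt w)
    refine h1.congr ?_
    filter_upwards [hnear w hw] with z hz using hz.2.1.symm
  have hEc : ContinuousOn E {w : ℂ | w.re < x₀} := by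
    intro w hw
    have h1 : ContinuousAt (q (R w)) (Complex.exp w) :=
      (hq (R w)).continuousAt ((QPA_open ε (R w)).mem_nhds (hdom w hw))
    have h2 : ContinuousAt (fun z => q (R w) (Complex.exp z) - 2 * (Real.pi : ℂ) * Complex.I * (D (R w) : ℂ)) w :=
      (ContinuousAt.comp (f := Complex.exp) (x := w) (g := q (R w)) h1 Complex.continuous_exp.continuousAt).sub
        continuousAt_const
    refine (h2.congr ?_).continuousWithinAt
    filter_upwards [hnear w hw] with z hz using hz.2.2.symm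
  have hexpI : ∀ n : ℤ, Complex.exp (2 * (Real.pi : ℂ) * Complex.I * (n : ℂ)) = 1 := by
    intro n
    rw [Complex.exp_eq_one_iff]
    exact ⟨n, by ring⟩
  have hEe : ∀ w : ℂ, w.re < x₀ → Complex.exp (E w) = V' w / V w := by
    intro w hw
    show Complex.exp (q (R w) (Complex.exp w) - 2 * (Real.pi : ℂ) * Complex.I * (D (R w) : ℂ)) = _
    rw [Complex.exp_sub, hexpI, div_one, hqe (R w) _ (hdom w hw)]
  have hshift : ∀ w : ℂ, R (w + 2 * (Real.pi : ℂ) * Complex.I * M) = R w + 2 * M := by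
    intro w
    have h1 : (w + 2 * (Real.pi : ℂ) * Complex.I * M).im / Real.pi = w.im / Real.pi + ((2 * M : ℤ) : ℝ) := by
      have : (w + 2 * (Real.pi : ℂ) * Complex.I * M).im = w.im + 2 * Real.pi * M := by simp
      rw [this]
      push_cast
      field_simp
    show round _ = _
    rw [h1, round_add_intCast]
  have hexpM : ∀ w : ℂ, Complex.exp (w + 2 * (Real.pi : ℂ) * Complex.I * M) = Complex.exp w := by
    intro w
    rw [Complex.exp_add]
    have := hexpI M
    push_cast at this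
    rw [this, mul_one]
  obtain ⟨x₁, B, hB⟩ := QPA_half hM hVa hVa' (fun w hw => hom (R w) _ (hdom w hw))
    (fun w hw => hom' (R w) _ (hdom w hw)) hEc hEe
    (by
      intro w hw
      show v (R _) (Complex.exp _) = v (R w) (Complex.exp w)
      rw [hshift, hexpM]
      exact (hpe (R w) _ (hdom w hw)).1)
    (by
      intro w hw
      show v' (R _) (Complex.exp _) = v' (R w) (Complex.exp w)
      rw [hshift, hexpM]
      exact (hpe (R w) _ (hdom w hw)).2.1)
    (by
      intro w hw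
      show q (R _) (Complex.exp _) - 2 * (Real.pi : ℂ) * Complex.I * (D (R _) : ℂ) =
        q (R w) (Complex.exp w) - 2 * (Real.pi : ℂ) * Complex.I * (D (R w) : ℂ)
      rw [hshift, hexpM, (hpe (R w) _ (hdom w hw)).2.2, he (R w)]
      push_cast
      ring)
  refine ⟨min ε (Real.exp x₁), lt_min hε (Real.exp_pos _), B, fun u hu => ?_⟩
  obtain ⟨hu1, hu2, hu3⟩ := hu
  rw [zpow_zero, one_mul] at hu3
  have hu0 : u ≠ 0 := norm_pos_iff.1 hu1
  have hw1 : (Complex.log u).re < x₁ := by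
    rw [Complex.log_re, Real.log_lt_iff_lt_exp hu1]
    exact hu2.trans_le (min_le_right _ _)
  have hw0 : (Complex.log u).re < x₀ := by
    rw [Complex.log_re]
    exact Real.log_lt_log hu1 (hu2.trans_le (min_le_left _ _))
  have him : |(Complex.log u).im - Real.pi * ((0 : ℤ) : ℝ)| < Real.pi := by
    rw [Int.cast_zero, mul_zero, sub_zero, Complex.log_im]
    rw [abs_lt]
    refine ⟨Complex.neg_pi_lt_arg u, ?_⟩
    exact lt_of_le_of_ne (Complex.arg_le_pi u) (Complex.mem_slitPlane_iff_arg.1 hu3).1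
  obtain ⟨a1, a2, -⟩ := hch (Complex.log u) 0 hw0 him
  have h3 := hB _ hw1
  rw [a1, a2, Complex.exp_log hu0] at h3
  exact h3

end Pool.Agent.LR
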