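import Pool.Agent.H41.LR.Pic
import Pool.Agent.H41.LR.Schottky
import Pool.Agent.H60.OC.Expo
import Pool.Agent.LR.QPA

/-!
# LR EUnit: functions on the plane minus finitely many points without the values 0, 1; winding numbers

`unit_form`: by Picard (`H41.LR.picard schottky`) `h` is meromorphic at every `s i` and `u ↦ h (u⁻¹)` is meromorphic at `0` (on a punctured disc
`0 < |u| < 1 / R` it is analytic without the values `0`, `1`).  The orders are finite, so `h` is comparable with a power of `|w - s i|` near `s i`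
(`EUnit_ord`) and with a power `|w|^(-m)` near infinity, and `OC.liou` applies to `h` or to `1 / h`.

`wind_eq`: along a small circle `u = ρ e^(i t)` the function `L u - e (log ρ + i t) - log (g u / g 0) - log (g 0)` is continuous with values in
`2 π i ℤ`, where `L = Le` for `|t| ≤ π / 2` and `L = Lo` for `π / 2 ≤ t ≤ 3 π / 2`; so it is constant on the two arcs (`EUnit_arc`), and
`(Le (i ρ) - Le (- i ρ)) + (Lo (- i ρ) - Lo (i ρ)) = 2 π i e`; the left side is `- 2 π i (c + c')`.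
-/

set_option autoImplicit false

open Topology Filter

noncomputable section

namespace Pool.Agent.LR

/-- The order of a function without the values `0`, `1` at an isolated singularity. -/
theorem EUnit_ord {f : ℂ → ℂ} {b : ℂ} {r : ℝ} (hr : 0 < r) (hf : DifferentiableOn ℂ f (Metric.ball b r \ {b}))
    (hO : Pool.Agent.H41.LR.Om f (Metric.ball b r \ {b})) :
    ∃ (m : ℤ) (C ε : ℝ), 0 < C ∧ 0 < ε ∧ ∀ z, z ≠ b → ‖z - b‖ < ε →
      ‖f z‖ ≤ C * ‖z - b‖ ^ m ∧ ‖z - b‖ ^ m ≤ C * ‖f z‖ := by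
  have hmer : MeromorphicAt f b := Pool.Agent.H41.LR.picard Pool.Agent.H41.LR.schottky hr hf hO
  have hord : meromorphicOrderAt f b ≠ ⊤ := by
    intro h1
    rw [meromorphicOrderAt_eq_top_iff] at h1
    have h2 : ∀ᶠ w in 𝓝[≠] b, w ∈ Metric.ball b r \ {b} := by
      have h3 : ∀ᶠ w in 𝓝[≠] b, w ∈ Metric.ball b r := nhdsWithin_le_nhds (Metric.ball_mem_nhds _ hr)
      filter_upwards [h3, self_mem_nhdsWithin] with w h4 h5 using ⟨h4, h5⟩
    obtain ⟨w, h3, h4⟩ := (h1.and h2).exists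
    exact (hO w h4).1 h3
  obtain ⟨H, hHa, hH0, hHe⟩ := (meromorphicOrderAt_ne_top_iff hmer).1 hord
  set m : ℤ := (meromorphicOrderAt f b).untop₀ with hm
  have hpos : 0 < ‖H b‖ := norm_pos_iff.2 hH0
  have hHc : ∀ᶠ w in 𝓝 b, ‖H w‖ < 2 * ‖H b‖ ∧ ‖H b‖ / 2 < ‖H w‖ := by
    have h2 := hHa.continuousAt.norm
    exact (h2.eventually_lt continuousAt_const (by linarith)).and (continuousAt_const.eventually_lt h2 (by linarith))
  rw [Filter.EventuallyEq, eventually_nhdsWithin_iff] at hHe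
  obtain ⟨δ, hδ, hδb⟩ := Metric.eventually_nhds_iff_ball.1 (hHc.and hHe)
  refine ⟨m, max (2 * ‖H b‖) (2 / ‖H b‖), δ, lt_max_of_lt_left (by positivity), hδ, ?_⟩
  intro z hz hzδ
  obtain ⟨⟨h1, h2⟩, h3⟩ := hδb z (by rw [mem_ball_iff_norm]; exact hzδ)
  have h4 : f z = (z - b) ^ m * H z := by
    have h5 := h3 hz
    rw [smul_eq_mul] at h5
    exact h5
  have h0 : 0 ≤ ‖z - b‖ ^ m := by positivity
  rw [h4, norm_mul, norm_zpow]
  constructor
  · calc ‖z - b‖ ^ m * ‖H z‖ ≤ ‖z - b‖ ^ m * max (2 * ‖H b‖) (2 / ‖H b‖) :=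
          mul_le_mul_of_nonneg_left (h1.le.trans (le_max_left _ _)) h0
      _ = _ := by ring
  · have h5 : 1 ≤ 2 / ‖H b‖ * ‖H z‖ := by
      rw [div_mul_eq_mul_div, le_div_iff₀ hpos]
      linarith
    have h6 : 1 ≤ max (2 * ‖H b‖) (2 / ‖H b‖) * ‖H z‖ :=
      h5.trans (mul_le_mul_of_nonneg_right (le_max_right _ _) (norm_nonneg _))
    calc ‖z - b‖ ^ m = ‖z - b‖ ^ m * 1 := (mul_one _).symm
      _ ≤ ‖z - b‖ ^ m * (max (2 * ‖H b‖) (2 / ‖H b‖) * ‖H z‖) := mul_le_mul_of_nonneg_left h6 h0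
      _ = _ := by ring

theorem unit_form {m : ℕ} {s : Fin m → ℂ} (hs : Function.Injective s) {h : ℂ → ℂ}
    (ha : ∀ w, (∀ i, w ≠ s i) → AnalyticAt ℂ h w) (h01 : ∀ w, (∀ i, w ≠ s i) → h w ≠ 0 ∧ h w ≠ 1) :
    ∃ (c : ℂ) (e : Fin m → ℤ), c ≠ 0 ∧ ∀ w, (∀ i, w ≠ s i) → h w = c * ∏ i, (w - s i) ^ e i := by
  -- near the points
  have hnear : ∀ i, ∃ (n : ℤ) (C ε : ℝ), 0 < C ∧ 0 < ε ∧ ∀ z, z ≠ s i → ‖z - s i‖ < ε → (∀ j, z ≠ s j) ∧
      ‖h z‖ ≤ C * ‖z - s i‖ ^ n ∧ ‖z - s i‖ ^ n ≤ C * ‖h z‖ := by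
    intro i
    have h1 : ∀ᶠ z in 𝓝 (s i), z ∉ Set.range s \ {s i} :=
      ((Set.finite_range s).subset Set.sdiff_subset).isClosed.isOpen_compl.mem_nhds (fun h => h.2 rfl)
    obtain ⟨r, hr, hrb⟩ := Metric.eventually_nhds_iff_ball.1 h1
    have hne : ∀ z ∈ Metric.ball (s i) r \ {s i}, ∀ j, z ≠ s j := by
      intro z hz j hj
      exact hrb z hz.1 ⟨⟨j, hj.symm⟩, hz.2⟩
    obtain ⟨n, C, ε, hC, hε, hb⟩ := EUnit_ord hr
      (fun z hz => (ha z (hne z hz)).differentiableAt.differentiableWithinAt) (fun z hz => h01 z (hne z hz))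
    refine ⟨n, C, min ε r, hC, lt_min hε hr, fun z hz hzε => ?_⟩
    refine ⟨hne z ⟨?_, hz⟩, hb z hz (hzε.trans_le (min_le_left _ _))⟩
    rw [mem_ball_iff_norm]
    exact hzε.trans_le (min_le_right _ _)
  choose e Ce εe hCe hεe he using hnear
  -- near infinity
  obtain ⟨R, hR0, hR⟩ : ∃ R : ℝ, 0 < R ∧ ∀ z : ℂ, R < ‖z‖ → ∀ j, z ≠ s j := by
    refine ⟨1 + ∑ j, ‖s j‖, by positivity, fun z hz j hj => ?_⟩
    have h1 : ‖s j‖ ≤ ∑ j, ‖s j‖ := Finset.single_le_sum (f := fun j => ‖s j‖) (fun _ _ => norm_nonneg _) (Finset.mem_univ j)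
    rw [hj] at hz
    linarith
  have hne : ∀ u ∈ Metric.ball (0 : ℂ) R⁻¹ \ {0}, R < ‖u⁻¹‖ := by
    intro u hu
    have h1 : 0 < ‖u‖ := norm_pos_iff.2 hu.2
    have h2 := hu.1
    rw [mem_ball_zero_iff] at h2
    rw [norm_inv]
    exact (lt_inv_comm₀ h1 hR0).1 h2
  obtain ⟨n, C, ε, hC, hε, hb⟩ := EUnit_ord (f := fun u => h u⁻¹) (b := 0) (inv_pos.2 hR0)
    (fun u hu => ((ha _ (hR _ (hne u hu))).differentiableAt.comp u (differentiableAt_inv hu.2)).differentiableWithinAt)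
    (fun u hu => h01 _ (hR _ (hne u hu)))
  have hinf : ∀ z : ℂ, max R (ε⁻¹) < ‖z‖ → ‖h z‖ ≤ C * ‖z‖ ^ (-(n : ℝ)) ∧ ‖z‖ ^ (-(n : ℝ)) ≤ C * ‖h z‖ := by
    intro z hz
    have hz0 : 0 < ‖z‖ := (hR0.trans_le (le_max_left _ _)).trans hz
    have h1 := hb z⁻¹ (inv_ne_zero (norm_pos_iff.1 hz0)) (by
      rw [sub_zero, norm_inv]
      exact (inv_lt_comm₀ hε hz0).1 ((le_max_right _ _).trans_lt hz))
    rw [sub_zero, norm_inv, inv_inv] at h1
    have h2 : (‖z‖⁻¹) ^ n = ‖z‖ ^ (-(n : ℝ)) := by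
      rw [inv_zpow, ← zpow_neg, ← Real.rpow_intCast]
      push_cast
      rfl
    rw [h2] at h1
    exact h1
  have hceil : ∀ i, ⌈((e i : ℤ) : ℝ)⌉ = e i := fun i => Int.ceil_intCast _
  rcases le_total (-(n : ℝ)) (∑ i, (e i : ℝ)) with hcase | hcase
  · obtain ⟨k, hk, -⟩ := Pool.Agent.H60.OC.liou hs (a := h) (fun z hz => (ha z hz).differentiableAt)
      (e := fun i => (e i : ℝ)) (fun i => ⟨Ce i, εe i, hεe i, fun z hz hzε => by
        rw [Real.rpow_intCast]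
        exact (he i z hz hzε).2.1⟩)
      (ρ := (n : ℝ)) ⟨max R (ε⁻¹) + 1, C, fun z hz => (hinf z (by linarith)).1⟩ (by
        simp only [hceil]
        exact hcase)
    simp only [hceil] at hk
    refine ⟨k, e, ?_, hk⟩
    rintro rfl
    have h1 := hk ((R + 1 : ℝ) : ℂ) (hR _ (by
      rw [Complex.norm_real, Real.norm_eq_abs, abs_of_pos (by linarith)]
      linarith))
    rw [zero_mul] at h1
    exact (h01 ((R + 1 : ℝ) : ℂ) (hR _ (by
      rw [Complex.norm_real, Real.norm_eq_abs, abs_of_pos (by linarith)]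
      linarith))).1 h1
  · have hge : ∀ (x y D t : ℝ), 0 < x → 0 < y → 0 < D → t = y⁻¹ → y ≤ D * x → x⁻¹ ≤ D * t := by
      intro x y D t hx hy hD ht hle
      rw [ht, ← div_eq_mul_inv, inv_eq_one_div, div_le_div_iff₀ hx hy]
      linarith
    obtain ⟨k, hk, -⟩ := Pool.Agent.H60.OC.liou hs (a := fun z => (h z)⁻¹)
      (fun z hz => (ha z hz).differentiableAt.inv (h01 z hz).1)
      (e := fun i => (((-e i : ℤ)) : ℝ)) (fun i => ⟨Ce i, εe i, hεe i, fun z hz hzε => by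
        have h1 := he i z hz hzε
        have h2 : 0 < ‖z - s i‖ := norm_pos_iff.2 (sub_ne_zero.2 hz)
        rw [Real.rpow_intCast, norm_inv]
        exact hge _ _ _ _ (norm_pos_iff.2 (h01 z h1.1).1) (zpow_pos h2 (e i)) (hCe i) (zpow_neg _ _) h1.2.2⟩)
      (ρ := -(n : ℝ)) ⟨max R (ε⁻¹) + 1, C, fun z hz => by
        have h1 := hinf z (by linarith)
        have h0 : 0 < ‖z‖ := (hR0.trans_le (le_max_left _ _)).trans (by linarith : max R (ε⁻¹) < ‖z‖)
        rw [norm_inv]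
        refine hge _ _ _ _ (norm_pos_iff.2 (h01 z (hR z ((le_max_left _ _).trans_lt (by linarith)))).1)
          (Real.rpow_pos_of_pos h0 _) hC ?_ h1.2
        rw [← Real.rpow_neg h0.le]⟩ (by
        have h1 : ∀ i, ⌈(((-e i : ℤ)) : ℝ)⌉ = -e i := fun i => Int.ceil_intCast _
        simp only [h1]
        push_cast
        rw [Finset.sum_neg_distrib]
        linarith)
    simp only [Int.ceil_intCast] at hk
    have hk0 : k ≠ 0 := by
      rintro rfl
      have h1 := hk ((R + 1 : ℝ) : ℂ) (hR _ (by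
        rw [Complex.norm_real, Real.norm_eq_abs, abs_of_pos (by linarith)]
        linarith))
      rw [zero_mul] at h1
      exact inv_ne_zero (h01 ((R + 1 : ℝ) : ℂ) (hR _ (by
        rw [Complex.norm_real, Real.norm_eq_abs, abs_of_pos (by linarith)]
        linarith))).1 h1
    refine ⟨k⁻¹, e, inv_ne_zero hk0, fun w hw => ?_⟩
    have h1 := hk w hw
    have h2 : ∏ i, (w - s i) ^ (-e i) = (∏ i, (w - s i) ^ e i)⁻¹ := by
      rw [← Finset.prod_inv_distrib]
      exact Finset.prod_congr rfl fun i _ => zpow_neg _ _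
    rw [h2] at h1
    rw [← inv_inv (h w), h1, mul_inv, inv_inv]

/-- A continuous logarithm of `1` on an interval is constant. -/
theorem EUnit_const {α β : ℝ} (hαβ : α ≤ β) {F : ℝ → ℂ} (hF : ContinuousOn F (Set.Icc α β))
    (h1 : ∀ t ∈ Set.Icc α β, Complex.exp (F t) = 1) : F α = F β := by
  have hval : ∀ w ∈ Set.Icc α β, ∃ n : ℤ, F w = n * (2 * Real.pi * Complex.I) := fun w hw =>
    Complex.exp_eq_one_iff.1 (h1 w hw)
  have him : ∀ (w : ℝ) (n : ℤ), F w = n * (2 * Real.pi * Complex.I) → (F w).im / (2 * Real.pi) = n := by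
    intro w n hn
    rw [hn]
    have : ((n : ℂ) * (2 * (Real.pi : ℂ) * Complex.I)).im = n * (2 * Real.pi) := by
      simp
    rw [this, mul_div_assoc, div_self (by positivity), mul_one]
  have hc : ContinuousOn (fun w => (F w).im / (2 * Real.pi)) (Set.Icc α β) :=
    (Complex.continuous_im.comp_continuousOn hF).div_const _
  have key : ∀ a ∈ Set.Icc α β, ∀ b ∈ Set.Icc α β, ∀ m n : ℤ, F a = m * (2 * Real.pi * Complex.I) →
      F b = n * (2 * Real.pi * Complex.I) → ¬ m < n := by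
    intro a ha b hb m n hm hn hmn
    have hmem : ((m : ℝ) + 1 / 2) ∈ Set.Icc ((F a).im / (2 * Real.pi)) ((F b).im / (2 * Real.pi)) := by
      rw [him a m hm, him b n hn]
      have : (m : ℝ) + 1 ≤ n := by exact_mod_cast hmn
      exact ⟨by linarith, by linarith⟩
    obtain ⟨c, hcS, hcv⟩ := isPreconnected_Icc.intermediate_value ha hb hc hmem
    obtain ⟨k, hk⟩ := hval c hcS
    have h3 : (F c).im / (2 * Real.pi) = (m : ℝ) + 1 / 2 := hcv
    rw [him c k hk] at h3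
    have h4 : (2 * k : ℤ) = 2 * m + 1 := by
      have : (2 * (k : ℝ)) = 2 * m + 1 := by linarith
      exact_mod_cast this
    omega
  have ha : α ∈ Set.Icc α β := Set.left_mem_Icc.2 hαβ
  have hb : β ∈ Set.Icc α β := Set.right_mem_Icc.2 hαβ
  obtain ⟨m, hm⟩ := hval α ha
  obtain ⟨n, hn⟩ := hval β hb
  have h5 := key α ha β hb m n hm hn
  have h6 := key β hb α ha n m hn hm
  have h7 : m = n := by omega
  rw [hm, hn, h7]

/-- The logarithm along an arc. -/
theorem EUnit_arc {g : ℂ → ℂ} {L : ℂ → ℂ} {S : Set ℂ} {α β ρ : ℝ} {e : ℤ} (hαβ : α ≤ β) (hρ : 0 < ρ) (hg0 : g 0 ≠ 0)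
    (hL : ContinuousOn L S) (hS : ∀ t ∈ Set.Icc α β, (ρ : ℂ) * Complex.exp ((t : ℝ) * Complex.I) ∈ S)
    (hexp : ∀ u ∈ S, ‖u‖ = ρ → Complex.exp (L u) = u ^ e * g u)
    (hsl : ∀ u, ‖u‖ = ρ → g u / g 0 ∈ Complex.slitPlane) :
    L (ρ * Complex.exp ((β : ℝ) * Complex.I)) - L (ρ * Complex.exp ((α : ℝ) * Complex.I)) =
      e * ((β - α : ℝ) : ℂ) * Complex.I + Complex.log (g (ρ * Complex.exp ((β : ℝ) * Complex.I)) / g 0) -
        Complex.log (g (ρ * Complex.exp ((α : ℝ) * Complex.I)) / g 0) := by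
  set E : ℝ → ℂ := fun t => (ρ : ℂ) * Complex.exp ((t : ℝ) * Complex.I) with hE
  have hEc : Continuous E := by
    rw [hE]
    fun_prop
  have hEn : ∀ t, ‖E t‖ = ρ := by
    intro t
    rw [hE]
    show ‖(ρ : ℂ) * Complex.exp ((t : ℝ) * Complex.I)‖ = ρ
    rw [norm_mul, Complex.norm_exp_ofReal_mul_I, mul_one, Complex.norm_real, Real.norm_eq_abs, abs_of_pos hρ]
  have hE0 : ∀ t, E t ≠ 0 := fun t h0 => by
    have := hEn t
    rw [h0, norm_zero] at this
    exact hρ.ne this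
  have hρc : ((ρ : ℝ) : ℂ) ≠ 0 := by exact_mod_cast hρ.ne'
  have hLE : ContinuousOn (fun t => L (E t)) (Set.Icc α β) := hL.comp hEc.continuousOn hS
  have hgE : ∀ t ∈ Set.Icc α β, g (E t) = Complex.exp (L (E t)) * (E t) ^ (-e) := by
    intro t ht
    rw [hexp _ (hS t ht) (hEn t), zpow_neg, mul_comm _ (g (E t)), mul_assoc, mul_inv_cancel₀ (zpow_ne_zero _ (hE0 t)), mul_one]
  have hgc : ContinuousOn (fun t => g (E t)) (Set.Icc α β) := by
    have h1 : ContinuousOn (fun t => Complex.exp (L (E t)) * (E t) ^ (-e)) (Set.Icc α β) :=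
      (Complex.continuous_exp.comp_continuousOn hLE).mul
        (hEc.continuousOn.zpow₀ _ fun t _ => Or.inl (hE0 t))
    exact h1.congr hgE
  set F : ℝ → ℂ := fun t => L (E t) - e * (Real.log ρ + t * Complex.I) - Complex.log (g (E t) / g 0) - Complex.log (g 0) with hF
  have hFc : ContinuousOn F (Set.Icc α β) := by
    refine ((hLE.sub ?_).sub ?_).sub continuousOn_const
    · have : Continuous fun t : ℝ => (e : ℂ) * ((Real.log ρ : ℝ) + (t : ℂ) * Complex.I) := by fun_prop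
      exact this.continuousOn
    · exact (hgc.div_const _).clog fun t _ => hsl _ (hEn t)
  have hF1 : ∀ t ∈ Set.Icc α β, Complex.exp (F t) = 1 := by
    intro t ht
    have hgt : g (E t) / g 0 ≠ 0 := Complex.slitPlane_ne_zero (hsl _ (hEn t))
    have h2 : Complex.exp ((e : ℂ) * ((Real.log ρ : ℝ) + (t : ℂ) * Complex.I)) = (E t) ^ e := by
      rw [Complex.exp_int_mul, Complex.exp_add, ← Complex.ofReal_exp, Real.exp_log hρ]
    rw [hF]
    show Complex.exp (L (E t) - e * ((Real.log ρ : ℝ) + t * Complex.I) - Complex.log (g (E t) / g 0) - Complex.log (g 0)) = 1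
    rw [Complex.exp_sub, Complex.exp_sub, Complex.exp_sub, Complex.exp_log hgt, Complex.exp_log hg0, h2,
      hexp _ (hS t ht) (hEn t)]
    have h3 : (E t) ^ e ≠ 0 := zpow_ne_zero _ (hE0 t)
    have h4 : g (E t) ≠ 0 := fun h5 => hgt (by rw [h5, zero_div])
    rw [mul_div_cancel_left₀ _ h3, div_div_cancel₀ h4, div_self hg0]
  have h := EUnit_const hαβ hFc hF1
  have h' : L (E α) - e * (Real.log ρ + α * Complex.I) - Complex.log (g (E α) / g 0) - Complex.log (g 0) =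
    L (E β) - e * (Real.log ρ + β * Complex.I) - Complex.log (g (E β) / g 0) - Complex.log (g 0) := h
  show L (E β) - L (E α) = e * ((β - α : ℝ) : ℂ) * Complex.I + Complex.log (g (E β) / g 0) - Complex.log (g (E α) / g 0)
  push_cast
  linear_combination -h'

theorem wind_eq {ε : ℝ} (hε : 0 < ε) {Le Lo h g : ℂ → ℂ} {e c c' : ℤ} (hLe : ContinuousOn Le (Dm ε 0))
    (hLo : ContinuousOn Lo (Dm ε 1)) (hee : ∀ u ∈ Dm ε 0, Complex.exp (Le u) = h u)
    (heo : ∀ u ∈ Dm ε 1, Complex.exp (Lo u) = h u)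
    (hup : ∀ u : ℂ, 0 < ‖u‖ → ‖u‖ < ε → 0 < u.im → Lo u = Le u + 2 * (Real.pi : ℂ) * Complex.I * (c : ℂ))
    (hdn : ∀ u : ℂ, 0 < ‖u‖ → ‖u‖ < ε → u.im < 0 → Le u = Lo u + 2 * (Real.pi : ℂ) * Complex.I * (c' : ℂ))
    (hg : ContinuousAt g 0) (hg0 : g 0 ≠ 0) (hh : ∀ u : ℂ, 0 < ‖u‖ → ‖u‖ < ε → h u = u ^ e * g u) :
    e = - (c + c') := by
  have hpi := Real.pi_pos
  -- the radius
  have h1 : ∀ᶠ u in 𝓝 (0 : ℂ), g u / g 0 ∈ Complex.slitPlane := by
    have h2 : ContinuousAt (fun u => g u / g 0) 0 := hg.div_const _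
    refine h2.eventually_mem (Complex.isOpen_slitPlane.mem_nhds ?_)
    show g 0 / g 0 ∈ Complex.slitPlane
    rw [div_self hg0]
    exact Complex.one_mem_slitPlane
  obtain ⟨δ, hδ, hδb⟩ := Metric.eventually_nhds_iff_ball.1 h1
  obtain ⟨ρ, hρ, hρε, hρδ⟩ : ∃ ρ : ℝ, 0 < ρ ∧ ρ < ε ∧ ρ < δ :=
    ⟨min ε δ / 2, by positivity, by have := min_le_left ε δ; have : 0 < min ε δ := lt_min hε hδ; linarith,
      by have := min_le_right ε δ; have : 0 < min ε δ := lt_min hε hδ; linarith⟩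
  have hsl : ∀ u : ℂ, ‖u‖ = ρ → g u / g 0 ∈ Complex.slitPlane := fun u hu =>
    hδb u (by rw [mem_ball_zero_iff, hu]; exact hρδ)
  have hn : ∀ t : ℝ, ‖(ρ : ℂ) * Complex.exp ((t : ℝ) * Complex.I)‖ = ρ := by
    intro t
    rw [norm_mul, Complex.norm_exp_ofReal_mul_I, mul_one, Complex.norm_real, Real.norm_eq_abs, abs_of_pos hρ]
  have hre : ∀ t : ℝ, ((ρ : ℂ) * Complex.exp ((t : ℝ) * Complex.I)).re = ρ * Real.cos t := by
    intro t
    rw [Complex.re_ofReal_mul, Complex.exp_ofReal_mul_I_re]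
  have him : ∀ t : ℝ, ((ρ : ℂ) * Complex.exp ((t : ℝ) * Complex.I)).im = ρ * Real.sin t := by
    intro t
    rw [Complex.im_ofReal_mul, Complex.exp_ofReal_mul_I_im]
  have hS0 : ∀ t ∈ Set.Icc (-(Real.pi / 2)) (Real.pi / 2), (ρ : ℂ) * Complex.exp ((t : ℝ) * Complex.I) ∈ Dm ε 0 := by
    intro t ht
    refine ⟨by rw [hn]; exact hρ, by rw [hn]; exact hρε, ?_⟩
    rw [zpow_zero, one_mul, Complex.mem_slitPlane_iff, hre, him]
    by_contra hcon
    push Not at hcon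
    have h2 := Real.cos_nonneg_of_mem_Icc ht
    have h3 : Real.cos t ≤ 0 := by
      by_contra h4
      push Not at h4
      have := mul_pos hρ h4
      linarith [hcon.1]
    have h4 : Real.sin t = 0 := (mul_eq_zero.1 hcon.2).resolve_left hρ.ne'
    have h5 := Real.sin_sq_add_cos_sq t
    have h6 : Real.cos t = 0 := le_antisymm h3 h2
    rw [h4, h6] at h5
    norm_num at h5
  have hS1 : ∀ t ∈ Set.Icc (Real.pi / 2) (3 * Real.pi / 2), (ρ : ℂ) * Complex.exp ((t : ℝ) * Complex.I) ∈ Dm ε 1 := by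
    intro t ht
    refine ⟨by rw [hn]; exact hρ, by rw [hn]; exact hρε, ?_⟩
    rw [zpow_one, neg_one_mul, Complex.mem_slitPlane_iff, Complex.neg_re, Complex.neg_im, hre, him]
    by_contra hcon
    push Not at hcon
    have h2 := Real.cos_nonpos_of_pi_div_two_le_of_le ht.1 (by linarith [ht.2])
    have h3 : 0 ≤ Real.cos t := by
      by_contra h4
      push Not at h4
      have := mul_neg_of_pos_of_neg hρ h4
      linarith [hcon.1]
    have h4 : Real.sin t = 0 := (mul_eq_zero.1 (neg_eq_zero.1 hcon.2)).resolve_left hρ.ne'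
    have h5 := Real.sin_sq_add_cos_sq t
    have h6 : Real.cos t = 0 := le_antisymm h2 h3
    rw [h4, h6] at h5
    norm_num at h5
  have hA := EUnit_arc (e := e) (α := -(Real.pi / 2)) (β := Real.pi / 2) (by linarith) hρ hg0 hLe hS0 (by
    intro u hu hun
    rw [hee u hu, hh u hu.1 hu.2.1]) hsl
  have hB := EUnit_arc (e := e) (α := Real.pi / 2) (β := 3 * Real.pi / 2) (by linarith) hρ hg0 hLo hS1 (by
    intro u hu hun
    rw [heo u hu, hh u hu.1 hu.2.1]) hsl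
  set u₁ : ℂ := (ρ : ℂ) * Complex.exp (((Real.pi / 2 : ℝ) : ℂ) * Complex.I) with hu₁
  set u₂ : ℂ := (ρ : ℂ) * Complex.exp (((-(Real.pi / 2) : ℝ) : ℂ) * Complex.I) with hu₂
  have h32 : (ρ : ℂ) * Complex.exp (((3 * Real.pi / 2 : ℝ) : ℂ) * Complex.I) = u₂ := by
    rw [hu₂]
    congr 1
    rw [Complex.exp_eq_exp_iff_exists_int]
    refine ⟨1, ?_⟩
    push_cast
    ring
  rw [h32] at hB
  have hu1i : 0 < u₁.im := by
    rw [hu₁, him, Real.sin_pi_div_two, mul_one]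
    exact hρ
  have hu2i : u₂.im < 0 := by
    rw [hu₂, him, Real.sin_neg, Real.sin_pi_div_two]
    linarith
  have h3 := hup u₁ (by rw [hu₁, hn]; exact hρ) (by rw [hu₁, hn]; exact hρε) hu1i
  have h4 := hdn u₂ (by rw [hu₂, hn]; exact hρ) (by rw [hu₂, hn]; exact hρε) hu2i
  have h5 : 2 * (Real.pi : ℂ) * Complex.I * ((e + (c + c') : ℤ) : ℂ) = 0 := by
    push_cast at hA hB ⊢
    linear_combination -h3 - h4 - hA - hB
  have h6 : ((e + (c + c') : ℤ) : ℂ) = 0 := by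
    refine (mul_eq_zero.1 h5).resolve_left ?_
    exact Complex.two_pi_I_ne_zero
  have h7 : e + (c + c') = 0 := by exact_mod_cast h6
  omega

end Pool.Agent.LR
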