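import Pool.Agent.LR.EDefs

/-!
# LR EWW: `WW σ` is open; the antidiagonal point
-/

set_option autoImplicit false

open Topology Filter

noncomputable section

namespace Pool.Agent.LR

theorem WW_open {k : ℕ} (σ : Equiv.Perm (Fin k)) : IsOpen (WW σ) := by
  have h : WW σ = ⋂ i : Fin k, ⋂ j : Fin k, {x : Fin k → ℂ | i < j → ((x i).re < (x j).re ∨ (x i).im < (x j).im) ∧
      (σ.symm j < σ.symm i → (x i).im < (x j).im)} := by
    ext x
    simp [WW]
  rw [h]
  refine isOpen_iInter_of_finite fun i => isOpen_iInter_of_finite fun j => ?_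
  by_cases hij : i < j
  · by_cases hs : σ.symm j < σ.symm i
    · have : {x : Fin k → ℂ | i < j → ((x i).re < (x j).re ∨ (x i).im < (x j).im) ∧
          (σ.symm j < σ.symm i → (x i).im < (x j).im)} =
          ({x : Fin k → ℂ | (x i).re < (x j).re} ∪ {x : Fin k → ℂ | (x i).im < (x j).im}) ∩
            {x : Fin k → ℂ | (x i).im < (x j).im} := by
        ext x
        simp [hij, hs]
      rw [this]
      refine IsOpen.inter (IsOpen.union ?_ ?_) ?_
      · exact isOpen_lt (Complex.continuous_re.comp (continuous_apply i)) (Complex.continuous_re.comp (continuous_apply j))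
      · exact isOpen_lt (Complex.continuous_im.comp (continuous_apply i)) (Complex.continuous_im.comp (continuous_apply j))
      · exact isOpen_lt (Complex.continuous_im.comp (continuous_apply i)) (Complex.continuous_im.comp (continuous_apply j))
    · have : {x : Fin k → ℂ | i < j → ((x i).re < (x j).re ∨ (x i).im < (x j).im) ∧
          (σ.symm j < σ.symm i → (x i).im < (x j).im)} =
          ({x : Fin k → ℂ | (x i).re < (x j).re} ∪ {x : Fin k → ℂ | (x i).im < (x j).im}) := by
        ext x
        simp [hij, hs]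
      rw [this]
      refine IsOpen.union ?_ ?_
      · exact isOpen_lt (Complex.continuous_re.comp (continuous_apply i)) (Complex.continuous_re.comp (continuous_apply j))
      · exact isOpen_lt (Complex.continuous_im.comp (continuous_apply i)) (Complex.continuous_im.comp (continuous_apply j))
  · simp [hij]

theorem WW_nonempty {k : ℕ} (σ : Equiv.Perm (Fin k)) : (WW σ).Nonempty := ⟨_, wit_mem σ σ⟩

/-- The point with coordinates `(-1 + i) l`: all its permutations `x ∘ π` with `π i < π (i + 1)` are in `WW (sw i)`. -/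
theorem anti_mem {k : ℕ} (π : Equiv.Perm (Fin k)) {i : ℕ} (hi : i + 1 < k)
    (hlt : π ⟨i, by omega⟩ < π ⟨i + 1, hi⟩) :
    (fun l : Fin k => (-1 + Complex.I) * (((π l : Fin k) : ℕ) : ℂ)) ∈ WW (sw i : Equiv.Perm (Fin k)) := by
  have hre : ∀ l : Fin k, ((-1 + Complex.I) * (((l : Fin k) : ℕ) : ℂ)).re = -((l : ℕ) : ℝ) := by
    intro l
    simp
  have him : ∀ l : Fin k, ((-1 + Complex.I) * (((l : Fin k) : ℕ) : ℂ)).im = ((l : ℕ) : ℝ) := by
    intro l
    simp
  intro a b hab
  show (((-1 + Complex.I) * (((π a : Fin k) : ℕ) : ℂ)).re < ((-1 + Complex.I) * (((π b : Fin k) : ℕ) : ℂ)).re ∨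
    ((-1 + Complex.I) * (((π a : Fin k) : ℕ) : ℂ)).im < ((-1 + Complex.I) * (((π b : Fin k) : ℕ) : ℂ)).im) ∧ _
  rw [hre, hre, him, him]
  constructor
  · rcases lt_trichotomy (π a) (π b) with h | h | h
    · right
      exact_mod_cast h
    · exact absurd (π.injective h) hab.ne
    · left
      have : ((π b : Fin k) : ℕ) < ((π a : Fin k) : ℕ) := h
      have h2 : (((π b : Fin k) : ℕ) : ℝ) < (((π a : Fin k) : ℕ) : ℝ) := by exact_mod_cast this
      linarith
  · intro hs
    have e4 : (sw i : Equiv.Perm (Fin k)).symm = sw i := by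
      rw [sw, dif_pos hi, Equiv.symm_swap]
    rw [e4] at hs
    obtain ⟨e5, e6⟩ := sw_inv i hi hab hs
    rw [e5, e6]
    exact_mod_cast hlt

end Pool.Agent.LR
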