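import Pool.Agent.LR.ELine
import Pool.Agent.LR.EGrp
import Pool.Agent.LR.EUnit
import Pool.Agent.LR.EAnM
import Pool.Agent.LR.EDep
import Pool.Agent.LR.EWW

/-!
# LR EExp: a triple with trivial loops: product form along the lines, exponents

`Lv2 ρ q`: `VV (ρ (b+2) x) q = VV (ρ b x) q` for all levels `b` on `XX k`.  `lv2_step`: on `WW (sw i)` `VV (ρ (b+3) (x ∘ sw i)) (ta (θ i) q) = VV (ρ (b+2) x) q = VV (ρ b x) q = VV (ρ (b+1) (x ∘ sw i)) (ta (θ i) q)`, so the
two analytic functions `VV (ρ (b+3) ·) (ta (θ i) q)`, `VV (ρ (b+1) ·) (ta (θ i) q)` agree on the open nonempty set of the `x ∘ sw i`, `x ∈ WW (sw i)` (`wit_mem`, `WW_open`), so on `XX k` (`open_id`, `VV_anM`).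

`lgs2`: choose logarithms `L₀ q`, `L₁ q` on `XX k` (`exists_log`, `QLog.lean`) of `VV (ρ 0 ·) q`, `VV (ρ 1 ·) q` and put `l b q = L₀ q` or `L₁ q` by the parity of `b`: `exp (l b q x) = VV (ρ b x) q` for all `b` if
`Lv2 ρ q` (also for negative `b`).  Jumps: `l (b+1) (ta (θ i) q) (x ∘ sw i) = l b q x + 2 π i d i b q` on `WW (sw i)` (`log_const`, `WW_conn`), `d i (b+2) q = d i b q` as the functions are the same (choose `d` by parity too, or conclude at a point of
`WW (sw i)`).  Along the lines, as in `Lg.up`, `Lg.dn`: `l (b+1) (ta (θ j) q) (ins y j w) = l b q (ins y (j+1) w) + 2 π i d j b q` for `Im w > 0`, and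
`l (b+1) (ta (θ j) q) (ins y (j+1) w) = l b q (ins y j w) + 2 π i d j b q` for `Im w < 0` (continuous, with the same exponential by `Cx.up`, `Cx.dn`; equal at the points of `WW (sw j)`).

`exps`: fix `a`, `y`, `F j w = VV (ρ (a - j) (ins y j w)) (ta (Aw θ C j) P)`.  `Im w > 0`: `F j w = F (j+1) w` (`Cx.up` with the level `a - j - 1`; `Aw_lt`, and for `j ≥ C` `Aw_ge`, `θ j` fixes the components of `P`).  `Im w < 0`:
`F j w = VV (ρ (a-j+1) (ins y (j+1) w)) (ta (θ j) (ta (Aw θ C j) P))` (`Cx.dn`) `= VV (ρ (a-j-1) (ins y (j+1) w)) (ta (Aw θ C (j+1)) P) = F (j+1) w`: `θ j * Aw θ C j = Aw θ C (j+1) * tau θ C j` (`Aw_tau`), `ta (tau θ C j) P = P`, and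
`Lv2 ρ (ta (Aw θ C (j+1)) P)` (`lv2_step`).  `glueU` (`EU.lean`): `H` analytic off the `y i`, without the values `0`, `1` (`VV_ne`, `UU_cover`).  `unit_form`: `H w = κ ∏ (w - y i)^(e i)`.
Exponents (`wind_eq` at `u = w - y j`, `ε` small): `Le u = l (a-j-1) (ta (Aw θ C (j+1)) P) (ins y (j+1) (y j + u))`, `Lo u = l (a-j) (ta (Aw θ C j) P) (ins y j (y j + u))`, `exp` of both is `H`; `Im u > 0`: `Lo = Le + 2 π i d j (a-j-1) (ta (Aw θ C (j+1)) P)`,
`Im u < 0`: `Le = Lo + 2 π i d j (a-j) (ta (Aw θ C j) P)` (`l (a-j+1) = l (a-j-1)`, labels as above).  So `e j = - (d j (a-j-1) (ta (Aw θ C (j+1)) P) + d j (a-j) (ta (Aw θ C j) P)) =: E a j`, independent of `y`, `E (a+2) j = E a j`.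
For `j ≥ C`: `E a j = - (d j 0 P + d j 1 P)`.  Braid relation (`jump_eq`): for `C ≤ i`, `i + 2 < k`, at the point `x = ((-1 + i) l)_l` (`anti_mem`, `EWW.lean`: all `x ∘ π` with `π i < π (i+1)` are in `WW (sw i)`), the two ways of computing
`l (b+3) P (x ∘ ...)` give `d i b P + d (i+1) (b+1) P + d i b P = d (i+1) b P + d i (b+1) P + d (i+1) b P` (`2`-periodic), for `b = 0`, `1`; adding: `2 s_i + s_(i+1) = 2 s_(i+1) + s_i`, `s_i = d i 0 P + d i 1 P`: `s_i = s_(i+1)`.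
-/

set_option autoImplicit false

open Topology Filter

noncomputable section

namespace Pool.Agent.LR

open Pool.Agent.H60.OC (Pr NN nm zc SG MF IsRoots vd poly HoloOn)

/-- The quotient `q` has period `2` in the level. -/
def Lv2 {k n : ℕ} (ρ : ℤ → (Fin k → ℂ) → (Fin n → ℂ)) (q : Tr n) : Prop :=
  ∀ b : ℤ, ∀ x ∈ XX k, VV (ρ (b + 2) x) q = VV (ρ b x) q

variable {k n : ℕ} {f : (Fin k → ℂ) → (Fin n → ℂ)} {ρ : ℤ → (Fin k → ℂ) → (Fin n → ℂ)}
  {θ : ℕ → Equiv.Perm (Fin n)} {z : Equiv.Perm (Fin n)} {C : ℕ}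


theorem EExp_sw {k : ℕ} (i : ℕ) (l : Fin k) : (sw i : Equiv.Perm (Fin k)) ((sw i : Equiv.Perm (Fin k)) l) = l := by
  unfold sw
  split_ifs with h
  · exact Equiv.swap_apply_self _ _ _
  · rfl

theorem Cx.lv2_step (h : Cx k n f ρ θ z) {q : Tr n} (hq : Lv2 ρ q) {i : ℕ} (hi : i + 1 < k) : Lv2 ρ (ta (θ i) q) := by
  intro b
  have hcc : Continuous fun x : Fin k → ℂ => (fun l => x ((sw i : Equiv.Perm (Fin k)) l)) :=
    continuous_pi fun l => continuous_apply _
  have hO : IsOpen {x' : Fin k → ℂ | (fun l => x' ((sw i : Equiv.Perm (Fin k)) l)) ∈ WW (sw i : Equiv.Perm (Fin k))} :=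
    (WW_open (sw i)).preimage hcc
  have hF : AnalyticOnNhd ℂ (fun x => VV (ρ (b + 2) x) (ta (θ i) q) - VV (ρ b x) (ta (θ i) q)) (XX k) :=
    (h.VV_anM (b + 2) _).sub (h.VV_anM b _)
  have hne : ({x' : Fin k → ℂ | (fun l => x' ((sw i : Equiv.Perm (Fin k)) l)) ∈ WW (sw i : Equiv.Perm (Fin k))} ∩
      XX k).Nonempty := by
    obtain ⟨x, hx⟩ := WW_nonempty (sw i : Equiv.Perm (Fin k))
    refine ⟨fun l => x ((sw i : Equiv.Perm (Fin k)) l), ?_, WW_comp (sw i) hx⟩
    show (fun l => x ((sw i : Equiv.Perm (Fin k)) ((sw i : Equiv.Perm (Fin k)) l))) ∈ WW (sw i : Equiv.Perm (Fin k))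
    simp only [EExp_sw]
    exact hx
  have hz := open_id hF hO hne (by
    rintro x' ⟨hx', -⟩
    obtain ⟨x, hx⟩ : ∃ x : Fin k → ℂ, x = (fun l => x' ((sw i : Equiv.Perm (Fin k)) l)) := ⟨_, rfl⟩
    have hxW : x ∈ WW (sw i : Equiv.Perm (Fin k)) := by rw [hx]; exact hx'
    have hx'' : x' = (fun l => x ((sw i : Equiv.Perm (Fin k)) l)) := by
      rw [hx]
      funext l
      show x' l = x' ((sw i : Equiv.Perm (Fin k)) ((sw i : Equiv.Perm (Fin k)) l))
      rw [EExp_sw]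
    have hxX := WW_sub (sw i) hxW
    have h1 : VV (ρ (b + 2) x') (ta (θ i) q) = VV (ρ (b + 1) x) q := by
      rw [VV_ta, hx'']
      congr 1
      funext α
      have := h.tr i hi (b + 1) x hxW α
      rw [show b + 1 + 1 = b + 2 by ring] at this
      exact this
    have h2 : VV (ρ b x') (ta (θ i) q) = VV (ρ (b - 1) x) q := by
      rw [VV_ta, hx'']
      congr 1
      funext α
      have := h.tr i hi (b - 1) x hxW α
      rw [show b - 1 + 1 = b by ring] at this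
      exact this
    have h3 := hq (b - 1) x hxX
    rw [show b - 1 + 2 = b + 1 by ring] at h3
    show VV (ρ (b + 2) x') (ta (θ i) q) - VV (ρ b x') (ta (θ i) q) = 0
    rw [h1, h2, h3, sub_self])
  intro x hx
  exact sub_eq_zero.1 (hz x hx)

theorem Lv2.all {q : Tr n} (hq : Lv2 ρ q) {x : Fin k → ℂ} (hx : x ∈ XX k) (b m : ℤ) :
    VV (ρ (b + 2 * m) x) q = VV (ρ b x) q := by
  induction m using Int.induction_on with
  | zero => simp
  | succ m ih =>
    rw [show b + 2 * ((m : ℤ) + 1) = b + 2 * (m : ℤ) + 2 by ring, hq _ x hx, ih]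
  | pred m ih =>
    rw [← ih, ← hq (b + 2 * (-(m : ℤ) - 1)) x hx]
    congr 2
    ring

/-- The point at which the jump along the line is read off, upper half plane. -/
theorem EExp_up {y : ℕ → ℝ} (hy : StrictMono y) {j : ℕ} (hj : j + 1 < k) :
    (ins y (j + 1) ((y j : ℂ) + Complex.I) : Fin k → ℂ) ∈ WW (sw j : Equiv.Perm (Fin k)) := by
  intro a b hab
  have hab' : (a : ℕ) < (b : ℕ) := hab
  have hbk := b.2
  constructor
  · rcases lt_trichotomy (b : ℕ) (j + 1) with hb | hb | hb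
    · rw [EU_ins_lt hb, EU_ins_lt (hab'.trans hb)]
      left
      simpa using hy hab'
    · rw [EU_ins_eq hb, EU_ins_lt (show (a : ℕ) < j + 1 by omega)]
      right
      simp
    · rw [EU_ins_gt hb]
      left
      rcases lt_trichotomy (a : ℕ) (j + 1) with ha | ha | ha
      · rw [EU_ins_lt ha]
        simpa using hy (show (a : ℕ) < (b : ℕ) - 1 by omega)
      · rw [EU_ins_eq ha]
        simpa using hy (show j < (b : ℕ) - 1 by omega)
      · rw [EU_ins_gt ha]
        simpa using hy (show (a : ℕ) - 1 < (b : ℕ) - 1 by omega)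
  · intro hs
    have e4 : (sw j : Equiv.Perm (Fin k)).symm = sw j := by
      rw [sw, dif_pos hj, Equiv.symm_swap]
    rw [e4] at hs
    obtain ⟨e5, e6⟩ := sw_inv j hj hab hs
    rw [EU_ins_lt (show (a : ℕ) < j + 1 by rw [e5]; simp), EU_ins_eq (show (b : ℕ) = j + 1 by rw [e6])]
    simp

/-- The point at which the jump along the line is read off, lower half plane. -/
theorem EExp_dn {y : ℕ → ℝ} (hy : StrictMono y) {j : ℕ} (hj : j + 1 < k) :
    (ins y j ((y j : ℂ) - Complex.I) : Fin k → ℂ) ∈ WW (sw j : Equiv.Perm (Fin k)) := by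
  intro a b hab
  have hab' : (a : ℕ) < (b : ℕ) := hab
  have hbk := b.2
  constructor
  · rcases lt_trichotomy (b : ℕ) j with hb | hb | hb
    · rw [EU_ins_lt hb, EU_ins_lt (hab'.trans hb)]
      left
      simpa using hy hab'
    · rw [EU_ins_eq hb, EU_ins_lt (show (a : ℕ) < j by omega)]
      left
      simpa using hy (show (a : ℕ) < j by omega)
    · rw [EU_ins_gt hb]
      rcases lt_trichotomy (a : ℕ) j with ha | ha | ha
      · rw [EU_ins_lt ha]
        left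
        simpa using hy (show (a : ℕ) < (b : ℕ) - 1 by omega)
      · rw [EU_ins_eq ha]
        right
        simp
      · rw [EU_ins_gt ha]
        left
        simpa using hy (show (a : ℕ) - 1 < (b : ℕ) - 1 by omega)
  · intro hs
    have e4 : (sw j : Equiv.Perm (Fin k)).symm = sw j := by
      rw [sw, dif_pos hj, Equiv.symm_swap]
    rw [e4] at hs
    obtain ⟨e5, e6⟩ := sw_inv j hj hab hs
    rw [EU_ins_eq (show (a : ℕ) = j by rw [e5]), EU_ins_gt (show j < (b : ℕ) by rw [e6]; simp)]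
    simp

/-- Logarithms with period `2` in the level, on the triples with period `2`. -/
theorem Cx.lgs2 (h : Cx k n f ρ θ z) : ∃ (l : ℤ → Tr n → (Fin k → ℂ) → ℂ) (d : ℕ → ℤ → Tr n → ℤ),
    (∀ b q, l (b + 2) q = l b q) ∧ (∀ i b q, d i (b + 2) q = d i b q) ∧ (∀ b q, ContinuousOn (l b q) (XX k)) ∧
    (∀ q, Lv2 ρ q → ∀ b, ∀ x ∈ XX k, Complex.exp (l b q x) = VV (ρ b x) q) ∧
    (∀ q, Lv2 ρ q → ∀ i, i + 1 < k → ∀ b, ∀ x ∈ WW (sw i),
      l (b + 1) (ta (θ i) q) (fun j => x ((sw i : Equiv.Perm (Fin k)) j)) =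
        l b q x + 2 * (Real.pi : ℂ) * Complex.I * (d i b q : ℂ)) ∧
    (∀ q, Lv2 ρ q → ∀ j, j + 1 < k → ∀ b (y : ℕ → ℝ), StrictMono y → ∀ w : ℂ, 0 < w.im →
      l (b + 1) (ta (θ j) q) (ins y j w) = l b q (ins y (j + 1) w) + 2 * (Real.pi : ℂ) * Complex.I * (d j b q : ℂ)) ∧
    (∀ q, Lv2 ρ q → ∀ j, j + 1 < k → ∀ b (y : ℕ → ℝ), StrictMono y → ∀ w : ℂ, w.im < 0 →
      l (b + 1) (ta (θ j) q) (ins y (j + 1) w) = l b q (ins y j w) + 2 * (Real.pi : ℂ) * Complex.I * (d j b q : ℂ)) := by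
  have hex : ∀ (a : ℤ) (p : Tr n), ∃ L : (Fin k → ℂ) → ℂ, ContinuousOn L (XX k) ∧
      ∀ x ∈ XX k, Complex.exp (L x) = VV (ρ a x) p := by
    intro a p
    refine exists_log (XX_open k) (XX_base k) (XX_star k) (h.VV_anM a p).continuousOn fun x hx => (VV_ne (h.inj a hx) p).1
  choose L hL hE using hex
  obtain ⟨l, hl⟩ : ∃ l : ℤ → Tr n → (Fin k → ℂ) → ℂ, ∀ b q, l b q = L (b % 2) q := ⟨fun b q => L (b % 2) q, fun _ _ => rfl⟩
  have hl2 : ∀ b q, l (b + 2) q = l b q := fun b q => by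
    rw [hl, hl, show (b + 2) % 2 = b % 2 by omega]
  have hlc : ∀ b q, ContinuousOn (l b q) (XX k) := fun b q => by rw [hl]; exact hL _ _
  have hle : ∀ q, Lv2 ρ q → ∀ b, ∀ x ∈ XX k, Complex.exp (l b q x) = VV (ρ b x) q := by
    intro q hq b x hx
    rw [hl, hE _ _ x hx, ← hq.all hx (b % 2) (b / 2)]
    congr 2
    omega
  have hco : ∀ σ : Equiv.Perm (Fin k), Continuous fun x : Fin k → ℂ => (fun l => x (σ l)) :=
    fun σ => continuous_pi fun l => continuous_apply (σ l)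
  have hd : ∀ (i : ℕ) (b : ℤ) (q : Tr n), ∃ c : ℤ, Lv2 ρ q → i + 1 < k → ∀ x ∈ WW (sw i : Equiv.Perm (Fin k)),
      l (b + 1) (ta (θ i) q) (fun j => x ((sw i : Equiv.Perm (Fin k)) j)) =
        l b q x + 2 * (Real.pi : ℂ) * Complex.I * (c : ℂ) := by
    intro i b q
    by_cases hq : Lv2 ρ q
    · by_cases hi : i + 1 < k
      · have hq' := h.lv2_step hq hi
        obtain ⟨c, hc⟩ := log_const (L := fun x => l (b + 1) (ta (θ i) q) (fun j => x ((sw i : Equiv.Perm (Fin k)) j)))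
          (L' := l b q) (WW_conn (sw i : Equiv.Perm (Fin k)))
          ((hlc _ _).comp (hco (sw i)).continuousOn fun x hx => WW_comp (sw i) hx) ((hlc _ _).mono (WW_sub (sw i)))
          (by
            intro x hx
            show Complex.exp (l (b + 1) (ta (θ i) q) (fun j => x ((sw i : Equiv.Perm (Fin k)) j))) = Complex.exp (l b q x)
            rw [hle _ hq' _ _ (WW_comp (sw i) hx), hle _ hq _ _ (WW_sub (sw i) hx), VV_ta]
            congr 1
            funext α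
            exact h.tr i hi b x hx α)
        exact ⟨c, fun _ _ => hc⟩
      · exact ⟨0, fun _ h' => absurd h' hi⟩
    · exact ⟨0, fun h' => absurd h' hq⟩
  choose d₀ hd₀ using hd
  obtain ⟨d, hdd⟩ : ∃ d : ℕ → ℤ → Tr n → ℤ, ∀ i b q, d i b q = d₀ i (b % 2) q := ⟨fun i b q => d₀ i (b % 2) q, fun _ _ _ => rfl⟩
  have hj : ∀ q, Lv2 ρ q → ∀ i, i + 1 < k → ∀ b, ∀ x ∈ WW (sw i : Equiv.Perm (Fin k)),
      l (b + 1) (ta (θ i) q) (fun j => x ((sw i : Equiv.Perm (Fin k)) j)) =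
        l b q x + 2 * (Real.pi : ℂ) * Complex.I * (d i b q : ℂ) := by
    intro q hq i hi b x hx
    have h1 := hd₀ i (b % 2) q hq hi x hx
    rw [hdd, hl, hl, ← show (b % 2 + 1) % 2 = (b + 1) % 2 by omega, ← hl]
    rw [h1, hl, show b % 2 % 2 = b % 2 by omega]
  refine ⟨l, d, hl2, ?_, hlc, hle, hj, ?_, ?_⟩
  · intro i b q
    rw [hdd, hdd, show (b + 2) % 2 = b % 2 by omega]
  · intro q hq j hjk b y hy w hw
    have hq' := h.lv2_step hq hjk
    have hcp : IsPreconnected ((fun w => (ins y (j + 1) w : Fin k → ℂ)) '' {w : ℂ | 0 < w.im}) :=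
      (convex_halfSpace_im_gt 0).isPreconnected.image _ fun w _ => (ins_an (j + 1) w).continuousAt.continuousWithinAt
    have hsub : (fun w => (ins y (j + 1) w : Fin k → ℂ)) '' {w : ℂ | 0 < w.im} ⊆ XX k := by
      rintro _ ⟨w, hw, rfl⟩
      exact UU_im hy hjk (ne_of_gt hw)
    have hsub' : ∀ x ∈ (fun w => (ins y (j + 1) w : Fin k → ℂ)) '' {w : ℂ | 0 < w.im},
        (fun l => x ((sw j : Equiv.Perm (Fin k)) l)) ∈ XX k := by
      rintro _ ⟨w, hw, rfl⟩
      show (fun l => (ins y (j + 1) w : Fin k → ℂ) ((sw j : Equiv.Perm (Fin k)) l)) ∈ XX k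
      rw [(ins_sw hjk w).1]
      exact UU_im hy (by omega) (ne_of_gt hw)
    obtain ⟨c, hc⟩ := log_const (L := fun x => l (b + 1) (ta (θ j) q) (fun l => x ((sw j : Equiv.Perm (Fin k)) l)))
      (L' := l b q) hcp ((hlc _ _).comp (hco (sw j)).continuousOn hsub') ((hlc _ _).mono hsub)
      (by
        rintro _ ⟨w, hw, rfl⟩
        show Complex.exp (l (b + 1) (ta (θ j) q) (fun l => (ins y (j + 1) w : Fin k → ℂ) ((sw j : Equiv.Perm (Fin k)) l))) =
          Complex.exp (l b q (ins y (j + 1) w))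
        rw [(ins_sw hjk w).1, hle _ hq' _ _ (UU_im hy (by omega) (ne_of_gt hw)),
          hle _ hq _ _ (UU_im hy hjk (ne_of_gt hw)), VV_ta]
        congr 1
        funext α
        exact h.up hy hjk b α hw)
    have h0 : (0 : ℝ) < ((y j : ℂ) + Complex.I).im := by simp
    have h1 := hc _ ⟨(y j : ℂ) + Complex.I, h0, rfl⟩
    have h2 := hj q hq j hjk b _ (EExp_up hy hjk)
    have h3 : (2 * (Real.pi : ℂ) * Complex.I * (c : ℂ)) = 2 * (Real.pi : ℂ) * Complex.I * (d j b q : ℂ) := by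
      have h1' : l (b + 1) (ta (θ j) q) (fun l => (ins y (j + 1) ((y j : ℂ) + Complex.I) : Fin k → ℂ)
        ((sw j : Equiv.Perm (Fin k)) l)) = l b q (ins y (j + 1) ((y j : ℂ) + Complex.I)) + 2 * (Real.pi : ℂ) * Complex.I * (c : ℂ) := h1
      rw [h2] at h1'
      exact (add_left_cancel h1').symm
    have h4 := hc _ ⟨w, hw, rfl⟩
    have h4' : l (b + 1) (ta (θ j) q) (fun l => (ins y (j + 1) w : Fin k → ℂ) ((sw j : Equiv.Perm (Fin k)) l)) =
      l b q (ins y (j + 1) w) + 2 * (Real.pi : ℂ) * Complex.I * (c : ℂ) := h4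
    rw [(ins_sw hjk w).1, h3] at h4'
    exact h4'
  · intro q hq j hjk b y hy w hw
    have hq' := h.lv2_step hq hjk
    have hcp : IsPreconnected ((fun w => (ins y j w : Fin k → ℂ)) '' {w : ℂ | w.im < 0}) :=
      (convex_halfSpace_im_lt 0).isPreconnected.image _ fun w _ => (ins_an j w).continuousAt.continuousWithinAt
    have hsub : (fun w => (ins y j w : Fin k → ℂ)) '' {w : ℂ | w.im < 0} ⊆ XX k := by
      rintro _ ⟨w, hw, rfl⟩
      exact UU_im hy (by omega) (ne_of_lt hw)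
    have hsub' : ∀ x ∈ (fun w => (ins y j w : Fin k → ℂ)) '' {w : ℂ | w.im < 0},
        (fun l => x ((sw j : Equiv.Perm (Fin k)) l)) ∈ XX k := by
      rintro _ ⟨w, hw, rfl⟩
      show (fun l => (ins y j w : Fin k → ℂ) ((sw j : Equiv.Perm (Fin k)) l)) ∈ XX k
      rw [(ins_sw hjk w).2]
      exact UU_im hy hjk (ne_of_lt hw)
    obtain ⟨c, hc⟩ := log_const (L := fun x => l (b + 1) (ta (θ j) q) (fun l => x ((sw j : Equiv.Perm (Fin k)) l)))
      (L' := l b q) hcp ((hlc _ _).comp (hco (sw j)).continuousOn hsub') ((hlc _ _).mono hsub)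
      (by
        rintro _ ⟨w, hw, rfl⟩
        show Complex.exp (l (b + 1) (ta (θ j) q) (fun l => (ins y j w : Fin k → ℂ) ((sw j : Equiv.Perm (Fin k)) l))) =
          Complex.exp (l b q (ins y j w))
        rw [(ins_sw hjk w).2, hle _ hq' _ _ (UU_im hy hjk (ne_of_lt hw)),
          hle _ hq _ _ (UU_im hy (by omega) (ne_of_lt hw)), VV_ta]
        congr 1
        funext α
        exact h.dn hy hjk b α hw)
    have h0 : ((y j : ℂ) - Complex.I).im < 0 := by simp
    have h1 := hc _ ⟨(y j : ℂ) - Complex.I, h0, rfl⟩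
    have h2 := hj q hq j hjk b _ (EExp_dn hy hjk)
    have h3 : (2 * (Real.pi : ℂ) * Complex.I * (c : ℂ)) = 2 * (Real.pi : ℂ) * Complex.I * (d j b q : ℂ) := by
      have h1' : l (b + 1) (ta (θ j) q) (fun l => (ins y j ((y j : ℂ) - Complex.I) : Fin k → ℂ)
        ((sw j : Equiv.Perm (Fin k)) l)) = l b q (ins y j ((y j : ℂ) - Complex.I)) + 2 * (Real.pi : ℂ) * Complex.I * (c : ℂ) := h1
      rw [h2] at h1'
      exact (add_left_cancel h1').symm
    have h4 := hc _ ⟨w, hw, rfl⟩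
    have h4' : l (b + 1) (ta (θ j) q) (fun l => (ins y j w : Fin k → ℂ) ((sw j : Equiv.Perm (Fin k)) l)) =
      l b q (ins y j w) + 2 * (Real.pi : ℂ) * Complex.I * (c : ℂ) := h4
    rw [(ins_sw hjk w).2, h3] at h4'
    exact h4'

/-- The jumps of a triple fixed by `θ i`, `θ (i + 1)`. -/
theorem jump_eq {P : Tr n} {l : ℤ → Tr n → (Fin k → ℂ) → ℂ} {d : ℕ → ℤ → Tr n → ℤ}
    (hl : ∀ b, l (b + 2) P = l b P) (hd : ∀ i b, d i (b + 2) P = d i b P) {i : ℕ} (hi : i + 2 < k)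
    (h0 : ∀ b, ∀ x ∈ WW (sw i), l (b + 1) P (fun j => x ((sw i : Equiv.Perm (Fin k)) j)) =
        l b P x + 2 * (Real.pi : ℂ) * Complex.I * (d i b P : ℂ))
    (h1 : ∀ b, ∀ x ∈ WW (sw (i + 1)), l (b + 1) P (fun j => x ((sw (i + 1) : Equiv.Perm (Fin k)) j)) =
        l b P x + 2 * (Real.pi : ℂ) * Complex.I * (d (i + 1) b P : ℂ)) :
    d i 0 P + d i 1 P = d (i + 1) 0 P + d (i + 1) 1 P := by
  obtain ⟨A, hA⟩ : ∃ A : Equiv.Perm (Fin k) → (Fin k → ℂ),
      ∀ π, A π = fun l : Fin k => (-1 + Complex.I) * (((π l : Fin k) : ℕ) : ℂ) := ⟨_, fun _ => rfl⟩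
  have hi0 : i + 1 < k := by omega
  have hi1 : i + 1 + 1 < k := by omega
  have k0 : ∀ b (π : Equiv.Perm (Fin k)), π ⟨i, by omega⟩ < π ⟨i + 1, hi0⟩ →
      l (b + 1) P (A (π * sw i)) = l b P (A π) + 2 * (Real.pi : ℂ) * Complex.I * (d i b P : ℂ) := by
    intro b π hπ
    have := h0 b _ (anti_mem π hi0 hπ)
    rw [hA, hA]
    exact this
  have k1 : ∀ b (π : Equiv.Perm (Fin k)), π ⟨i + 1, by omega⟩ < π ⟨i + 1 + 1, hi1⟩ →
      l (b + 1) P (A (π * sw (i + 1))) = l b P (A π) + 2 * (Real.pi : ℂ) * Complex.I * (d (i + 1) b P : ℂ) := by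
    intro b π hπ
    have := h1 b _ (anti_mem π hi1 hπ)
    rw [hA, hA]
    exact this
  obtain ⟨u, hu⟩ : ∃ u : Fin k, u = ⟨i, by omega⟩ := ⟨_, rfl⟩
  obtain ⟨v, hv⟩ : ∃ v : Fin k, v = ⟨i + 1, hi0⟩ := ⟨_, rfl⟩
  obtain ⟨t, ht⟩ : ∃ t : Fin k, t = ⟨i + 1 + 1, hi1⟩ := ⟨_, rfl⟩
  have huv : u < v := by rw [hu, hv, Fin.mk_lt_mk]; omega
  have hvt : v < t := by rw [hv, ht, Fin.mk_lt_mk]; omega
  have hut := huv.trans hvt
  have s0 : (sw i : Equiv.Perm (Fin k)) = Equiv.swap u v := by rw [sw, dif_pos hi0, hu, hv]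
  have s1 : (sw (i + 1) : Equiv.Perm (Fin k)) = Equiv.swap v t := by rw [sw, dif_pos hi1, hv, ht]
  have s0u : (sw i : Equiv.Perm (Fin k)) u = v := by rw [s0, Equiv.swap_apply_left]
  have s0v : (sw i : Equiv.Perm (Fin k)) v = u := by rw [s0, Equiv.swap_apply_right]
  have s0t : (sw i : Equiv.Perm (Fin k)) t = t := by rw [s0, Equiv.swap_apply_of_ne_of_ne hut.ne' hvt.ne']
  have s1u : (sw (i + 1) : Equiv.Perm (Fin k)) u = u := by rw [s1, Equiv.swap_apply_of_ne_of_ne huv.ne hut.ne]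
  have s1v : (sw (i + 1) : Equiv.Perm (Fin k)) v = t := by rw [s1, Equiv.swap_apply_left]
  have s1t : (sw (i + 1) : Equiv.Perm (Fin k)) t = v := by rw [s1, Equiv.swap_apply_right]
  rw [← hu, ← hv] at k0
  rw [← ht, show (⟨i + 1, by omega⟩ : Fin k) = v from hv.symm] at k1
  have br : (sw i * sw (i + 1) * sw i : Equiv.Perm (Fin k)) = sw (i + 1) * sw i * sw (i + 1) := by
    rw [s0, s1]
    ext x
    simp only [Equiv.Perm.mul_apply]
    by_cases hx1 : x = u
    · rw [hx1, Equiv.swap_apply_left, Equiv.swap_apply_left, Equiv.swap_apply_of_ne_of_ne hut.ne' hvt.ne',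
        Equiv.swap_apply_of_ne_of_ne huv.ne hut.ne, Equiv.swap_apply_left, Equiv.swap_apply_left]
    · by_cases hx2 : x = v
      · rw [hx2, Equiv.swap_apply_right, Equiv.swap_apply_of_ne_of_ne huv.ne hut.ne, Equiv.swap_apply_left,
          Equiv.swap_apply_left, Equiv.swap_apply_of_ne_of_ne hut.ne' hvt.ne', Equiv.swap_apply_right]
      · by_cases hx3 : x = t
        · rw [hx3, Equiv.swap_apply_of_ne_of_ne hut.ne' hvt.ne', Equiv.swap_apply_right, Equiv.swap_apply_right,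
            Equiv.swap_apply_of_ne_of_ne huv.ne hut.ne]
        · rw [Equiv.swap_apply_of_ne_of_ne hx1 hx2, Equiv.swap_apply_of_ne_of_ne hx2 hx3,
            Equiv.swap_apply_of_ne_of_ne hx1 hx2, Equiv.swap_apply_of_ne_of_ne hx2 hx3]
  have key : ∀ b, d i b P + d (i + 1) (b + 1) P + d i (b + 2) P = d (i + 1) b P + d i (b + 1) P + d (i + 1) (b + 2) P := by
    intro b
    have a1 := k0 b 1 huv
    have a2 := k1 (b + 1) (1 * sw i) (by
      rw [one_mul, s0v, s0t]; exact hut)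
    have a3 := k0 (b + 1 + 1) (1 * sw i * sw (i + 1)) (by
      rw [one_mul, Equiv.Perm.mul_apply, Equiv.Perm.mul_apply, s1u, s1v, s0u, s0t]; exact hvt)
    have b1 := k1 b 1 hvt
    have b2 := k0 (b + 1) (1 * sw (i + 1)) (by
      rw [one_mul, s1u, s1v]; exact hut)
    have b3 := k1 (b + 1 + 1) (1 * sw (i + 1) * sw i) (by
      rw [one_mul, Equiv.Perm.mul_apply, Equiv.Perm.mul_apply, s0v, s0t, s1u, s1t]; exact huv)
    have e : (1 * sw i * sw (i + 1) * sw i : Equiv.Perm (Fin k)) = 1 * sw (i + 1) * sw i * sw (i + 1) := by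
      rw [one_mul, one_mul, br]
    rw [a2, a1, e, b3, b2, b1] at a3
    have hpi : (2 * (Real.pi : ℂ) * Complex.I) ≠ 0 := Complex.two_pi_I_ne_zero
    have e2 : b + 1 + 1 = b + 2 := by ring
    rw [e2] at a3
    have a4 : (2 * (Real.pi : ℂ) * Complex.I) * ((d (i + 1) b P : ℂ) + (d i (b + 1) P : ℂ) + (d (i + 1) (b + 2) P : ℂ)) =
        (2 * (Real.pi : ℂ) * Complex.I) * ((d i b P : ℂ) + (d (i + 1) (b + 1) P : ℂ) + (d i (b + 2) P : ℂ)) := by
      linear_combination a3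
    have a5 := mul_left_cancel₀ hpi a4
    exact_mod_cast a5.symm
  have e0 := key 0
  have e1 := key 1
  have f0 := hd i 0
  have f1 := hd i 1
  have g0 := hd (i + 1) 0
  have g1 := hd (i + 1) 1
  norm_num at e0 e1 f0 f1 g0 g1
  omega


/-- All the triples `ta (Aw θ C j) P` have period `2`. -/
theorem EExp_lv (h : Cx k n f ρ θ z) (hCk : C < k) {P : Tr n} (hlv : Lv2 ρ P) : ∀ r j : ℕ, C ≤ j + r →
    Lv2 ρ (ta (Aw θ C j) P) := by
  intro r
  induction r with
  | zero =>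
    intro j hj
    rw [Aw_ge θ (by omega : C ≤ j), ta_one]
    exact hlv
  | succ r ih =>
    intro j hj
    rcases Nat.lt_or_ge j C with h1 | h1
    · rw [Aw_lt θ h1, ta_mul]
      exact h.lv2_step (ih (j + 1) (by omega)) (by omega)
    · rw [Aw_ge θ h1, ta_one]
      exact hlv

theorem EExp_fix {P : Tr n} (hP : P ∈ TC k θ C) {i : ℕ} (hi : C ≤ i) (hik : i + 1 < k) : ta (θ i) P = P := by
  obtain ⟨h1, h2, h3⟩ := hP
  apply Subtype.ext
  show (θ i P.1.1, θ i P.1.2.1, θ i P.1.2.2) = P.1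
  rw [h1 i hi hik, h2 i hi hik, h3 i hi hik]

theorem EExp_A {P : Tr n} (hP : P ∈ TC k θ C) {j : ℕ} (hjk : j + 1 < k) :
    ta (θ j) (ta (Aw θ C (j + 1)) P) = ta (Aw θ C j) P := by
  rcases Nat.lt_or_ge j C with h1 | h1
  · rw [Aw_lt θ h1, ta_mul]
    rfl
  · rw [Aw_ge θ h1, Aw_ge θ (by omega : C ≤ j + 1), ta_one]
    exact EExp_fix hP h1 hjk

theorem EExp_B {P : Tr n} (hP : P ∈ TC k θ C) (htau : ∀ j, j < C → ta (tau θ C j) P = P) {j : ℕ} (hjk : j + 1 < k) :
    ta (θ j) (ta (Aw θ C j) P) = ta (Aw θ C (j + 1)) P := by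
  rcases Nat.lt_or_ge j C with h1 | h1
  · have h2 : ta (θ j) (ta (Aw θ C j) P) = ta (θ j * Aw θ C j) P := rfl
    rw [h2, Aw_tau h1]
    show ta (Aw θ C (j + 1)) (ta (tau θ C j) P) = _
    rw [htau j h1]
  · rw [Aw_ge θ h1, Aw_ge θ (by omega : C ≤ j + 1), ta_one]
    exact EExp_fix hP h1 hjk

theorem EExp_inj {y : ℕ → ℝ} (hy : StrictMono y) {i j : ℕ} (hij : i ≠ j) : (y i : ℂ) ≠ (y j : ℂ) := by
  intro h
  exact hij (hy.injective (by exact_mod_cast h))

/-- Near `y j`, right of the cut. -/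
theorem EExp_near0 {y : ℕ → ℝ} (hy : StrictMono y) {j : ℕ} (hjk : j + 1 < k) {ε : ℝ} (hε : ε ≤ y (j + 1) - y j) {u : ℂ}
    (hu : u ∈ Dm ε 0) : (y j : ℂ) + u ∈ UU k y (j + 1) := by
  obtain ⟨h0, h1, h2⟩ := hu
  rw [zpow_zero, one_mul] at h2
  rw [mem_UU hy hjk]
  refine ⟨fun i hi => ?_, fun i hi hik => ?_⟩
  · have h3 : (0 : ℝ) ≤ y j - y i := sub_nonneg.2 (hy.monotone (by omega))
    have h4 := EDep_slit_add h2 h3
    have e : (y j : ℂ) + u - (y i : ℂ) = u + ((y j - y i : ℝ) : ℂ) := by push_cast; ring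
    rw [e]
    exact h4
  · rw [Complex.mem_slitPlane_iff]
    left
    have h3 : y (j + 1) ≤ y i := hy.monotone hi
    have h4 := Complex.abs_re_le_norm u
    have h5 := le_abs_self u.re
    simp only [Complex.sub_re, Complex.add_re, Complex.ofReal_re]
    linarith

/-- Near `y j`, left of the cut. -/
theorem EExp_near1 {y : ℕ → ℝ} (hy : StrictMono y) {j : ℕ} (hjk : j + 1 < k) {ε : ℝ} (hε : ∀ i, i < j → ε ≤ y j - y i)
    {u : ℂ} (hu : u ∈ Dm ε 1) : (y j : ℂ) + u ∈ UU k y j := by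
  obtain ⟨h0, h1, h2⟩ := hu
  rw [zpow_one] at h2
  rw [mem_UU hy (by omega)]
  refine ⟨fun i hi => ?_, fun i hi hik => ?_⟩
  · rw [Complex.mem_slitPlane_iff]
    left
    have h3 := hε i hi
    have h4 := Complex.abs_re_le_norm u
    have h5 := neg_abs_le u.re
    simp only [Complex.sub_re, Complex.add_re, Complex.ofReal_re]
    linarith
  · have h3 : (0 : ℝ) ≤ y i - y j := sub_nonneg.2 (hy.monotone hi)
    have h4 := EDep_slit_add h2 h3
    have e : (y i : ℂ) - ((y j : ℂ) + u) = -1 * u + ((y i - y j : ℝ) : ℂ) := by push_cast; ring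
    rw [e]
    exact h4

theorem Cx.exps (h : Cx k n f ρ θ z) (hCk : C < k) {P : Tr n} (hP : P ∈ TC k θ C) (hlv : Lv2 ρ P)
    (htau : ∀ j, j < C → ta (tau θ C j) P = P) :
    ∃ E : ℤ → ℕ → ℤ, (∀ a i, E (a + 2) i = E a i) ∧
      (∀ a i i', C ≤ i → C ≤ i' → i + 1 < k → i' + 1 < k → E a i = E a i') ∧
      ∀ (a : ℤ) (y : ℕ → ℝ), StrictMono y → ∃ κ : ℂ, κ ≠ 0 ∧ ∀ j, j < k → ∀ w ∈ UU k y j,
        VV (ρ (a - j) (ins y j w)) (ta (Aw θ C j) P) = κ * ∏ i ∈ Finset.range (k - 1), (w - y i) ^ E a i := by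
  obtain ⟨l, d, hl2, hd2, hlc, hle, hj, hup, hdn⟩ := h.lgs2
  have hlvA : ∀ j, Lv2 ρ (ta (Aw θ C j) P) := fun j => EExp_lv h hCk hlv C j (by omega)
  obtain ⟨E, hE⟩ : ∃ E : ℤ → ℕ → ℤ, ∀ a j, E a j =
      - (d j (a - j - 1) (ta (Aw θ C (j + 1)) P) + d j (a - j) (ta (Aw θ C j) P)) := ⟨_, fun _ _ => rfl⟩
  refine ⟨E, ?_, ?_, ?_⟩
  · intro a i
    rw [hE, hE, show a + 2 - (i : ℤ) - 1 = a - i - 1 + 2 by ring, show a + 2 - (i : ℤ) = a - i + 2 by ring, hd2, hd2]
  · -- the exponents of the positions `≥ C`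
    have hs : ∀ a i, C ≤ i → E a i = - (d i 0 P + d i 1 P) := by
      intro a i hi
      have hdm : ∀ m : ℤ, d i (2 * m) P = d i 0 P ∧ d i (2 * m + 1) P = d i 1 P := by
        intro m
        induction m using Int.induction_on with
        | zero => exact ⟨by rw [mul_zero], by rw [mul_zero, zero_add]⟩
        | succ m ih =>
          rw [show (2 : ℤ) * ((m : ℤ) + 1) = 2 * (m : ℤ) + 2 by ring, hd2,
            show (2 : ℤ) * (m : ℤ) + 2 + 1 = 2 * (m : ℤ) + 1 + 2 by ring, hd2]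
          exact ih
        | pred m ih =>
          rw [← hd2 i (2 * (-(m : ℤ) - 1)), ← hd2 i (2 * (-(m : ℤ) - 1) + 1),
            show (2 : ℤ) * (-(m : ℤ) - 1) + 2 = 2 * (-(m : ℤ)) by ring,
            show (2 : ℤ) * (-(m : ℤ) - 1) + 1 + 2 = 2 * (-(m : ℤ)) + 1 by ring]
          exact ih
      rw [hE, Aw_ge θ hi, Aw_ge θ (by omega : C ≤ i + 1), ta_one]
      show - (d i (a - i - 1) P + d i (a - i) P) = _
      rcases Int.even_or_odd' (a - i) with ⟨m, hm | hm⟩
      · rw [hm, show 2 * m - 1 = 2 * (m - 1) + 1 by ring, (hdm (m - 1)).2, (hdm m).1]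
        ring
      · rw [hm, show 2 * m + 1 - 1 = 2 * m by ring, (hdm m).1, (hdm m).2]
    have hstep : ∀ i, C ≤ i → i + 2 < k → d i 0 P + d i 1 P = d (i + 1) 0 P + d (i + 1) 1 P := by
      intro i hi hik
      refine jump_eq (l := l) (fun b => hl2 b P) (fun i b => hd2 i b P) hik ?_ ?_
      · intro b x hx
        have := hj P hlv i (by omega) b x hx
        rw [EExp_fix hP hi (by omega)] at this
        exact this
      · intro b x hx
        have := hj P hlv (i + 1) (by omega) b x hx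
        rw [EExp_fix hP (by omega : C ≤ i + 1) (by omega)] at this
        exact this
    have hall : ∀ m, C + m + 1 < k → d (C + m) 0 P + d (C + m) 1 P = d C 0 P + d C 1 P := by
      intro m
      induction m with
      | zero => intro _; rfl
      | succ m ih =>
        intro hm
        rw [← ih (by omega)]
        exact (hstep (C + m) (by omega) (by omega)).symm
    intro a i i' hi hi' hik hik'
    obtain ⟨m, rfl⟩ : ∃ m, i = C + m := ⟨i - C, by omega⟩
    obtain ⟨m', rfl⟩ : ∃ m', i' = C + m' := ⟨i' - C, by omega⟩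
    rw [hs a _ hi, hs a _ hi', hall m hik, hall m' hik']
  · intro a y hy
    have hk := h.hk
    obtain ⟨F, hF⟩ : ∃ F : ℕ → ℂ → ℂ, ∀ j w, F j w = VV (ρ (a - j) (ins y j w)) (ta (Aw θ C j) P) := ⟨_, fun _ _ => rfl⟩
    have hFan : ∀ j, j < k → ∀ w ∈ UU k y j, AnalyticAt ℂ (F j) w := by
      intro j _ w hw
      have h1 : AnalyticAt ℂ (fun x => VV (ρ (a - j) x) (ta (Aw θ C j) P)) (ins y j w : Fin k → ℂ) := h.VV_anM _ _ _ hw
      have h2 : AnalyticAt ℂ (fun w => (ins y j w : Fin k → ℂ)) w := ins_an j w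
      have h3 := h1.fun_comp h2
      have h4 : F j = fun w => VV (ρ (a - j) (ins y j w)) (ta (Aw θ C j) P) := funext (hF j)
      rw [h4]
      exact h3
    have hlev : ∀ j : ℕ, a - ((j + 1 : ℕ) : ℤ) = a - j - 1 := fun j => by push_cast; ring
    have hglue : ∀ j, j + 1 < k → ∀ w : ℂ, w.im ≠ 0 → F j w = F (j + 1) w := by
      intro j hjk w hw
      rw [hF, hF, hlev]
      rcases lt_or_gt_of_ne hw with hw' | hw'
      · -- lower half plane
        have h1 : VV (ρ (a - j) (ins y j w)) (ta (Aw θ C j) P) =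
            VV (ρ (a - j + 1) (ins y (j + 1) w)) (ta (θ j) (ta (Aw θ C j) P)) := by
          rw [VV_ta _ (θ j)]
          congr 1
          funext α
          exact (h.dn hy hjk (a - j) α hw').symm
        rw [h1, EExp_B hP htau hjk]
        have h2 := hlvA (j + 1) (a - j - 1) (ins y (j + 1) w) (UU_im hy hjk hw)
        rw [show a - (j : ℤ) - 1 + 2 = a - j + 1 by ring] at h2
        exact h2
      · have h1 : VV (ρ (a - j - 1 + 1) (ins y j w)) (ta (θ j) (ta (Aw θ C (j + 1)) P)) =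
            VV (ρ (a - j - 1) (ins y (j + 1) w)) (ta (Aw θ C (j + 1)) P) := by
          rw [VV_ta _ (θ j)]
          congr 1
          funext α
          exact h.up hy hjk (a - j - 1) α hw'
        rw [← h1, EExp_A hP hjk, show a - (j : ℤ) - 1 + 1 = a - j by ring]
    obtain ⟨H, hHa, hHF⟩ := glueU hy hFan hglue
    have hinj : Function.Injective (fun i : Fin (k - 1) => (y (i : ℕ) : ℂ)) := by
      intro i i' hii
      by_contra hne
      exact EExp_inj hy (fun h => hne (Fin.ext h)) hii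
    have hpts : ∀ w : ℂ, (∀ i : Fin (k - 1), w ≠ (y (i : ℕ) : ℂ)) → ∀ i, i + 1 < k → w ≠ y i :=
      fun w hw i hi => hw ⟨i, by omega⟩
    obtain ⟨κ, e, hκ, he⟩ := unit_form hinj (h := H) (fun w hw => hHa w (hpts w hw)) (by
      intro w hw
      obtain ⟨j, hjk, hwj⟩ := UU_cover (by omega : 1 ≤ k) hy (hpts w hw)
      rw [hHF j hjk w hwj, hF]
      exact VV_ne (h.inj _ hwj) _)
    have hHprod : ∀ w : ℂ, (∀ i : Fin (k - 1), w ≠ (y (i : ℕ) : ℂ)) → H w = κ * ∏ i, (w - (y ((i : Fin (k - 1)) : ℕ) : ℂ)) ^ e i := he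
    have hee : ∀ i : Fin (k - 1), e i = E a i := by
      rintro ⟨j, hjk1⟩
      have hjk : j + 1 < k := by omega
      obtain ⟨ε, hε, hε1, hε2⟩ : ∃ ε : ℝ, 0 < ε ∧ ε ≤ y (j + 1) - y j ∧ ∀ i, i < j → ε ≤ y j - y i := by
        have h1 : 0 < y (j + 1) - y j := sub_pos.2 (hy (Nat.lt_succ_self j))
        rcases Nat.eq_zero_or_pos j with h0 | h0
        · exact ⟨_, h1, le_rfl, fun i hi => absurd hi (by omega)⟩
        · have h2 : 0 < y j - y (j - 1) := sub_pos.2 (hy (by omega))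
          refine ⟨min (y (j + 1) - y j) (y j - y (j - 1)), lt_min h1 h2, min_le_left _ _, fun i hi => ?_⟩
          refine (min_le_right _ _).trans ?_
          have := hy.monotone (show i ≤ j - 1 by omega)
          linarith
      -- points near `y j` are different from the `y i`
      have hdisj : ∀ u : ℂ, 0 < ‖u‖ → ‖u‖ < ε → ∀ i : Fin (k - 1), (y j : ℂ) + u ≠ (y (i : ℕ) : ℂ) := by
        intro u hu0 hu1 i hcon
        have h1 : u = ((y (i : ℕ) - y j : ℝ) : ℂ) := by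
          push_cast
          linear_combination hcon
        rw [h1, Complex.norm_real, Real.norm_eq_abs] at hu0 hu1
        rcases lt_trichotomy (i : ℕ) j with h2 | h2 | h2
        · have h3 := hε2 _ h2
          have h4 := neg_abs_le (y (i : ℕ) - y j)
          linarith
        · rw [h2, sub_self, abs_zero] at hu0
          exact lt_irrefl _ hu0
        · have h3 := hy.monotone (show j + 1 ≤ (i : ℕ) by omega)
          have h4 := le_abs_self (y (i : ℕ) - y j)
          linarith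
      have hca : ∀ (m : ℕ), ContinuousOn (fun u : ℂ => (ins y m ((y j : ℂ) + u) : Fin k → ℂ)) Set.univ := by
        intro m u _
        have h1 : ContinuousAt (fun w => (ins y m w : Fin k → ℂ)) ((y j : ℂ) + u) := (ins_an m _).continuousAt
        have h2 : ContinuousAt (fun u : ℂ => (y j : ℂ) + u) u := by fun_prop
        exact (ContinuousAt.comp' (f := fun u : ℂ => (y j : ℂ) + u) h1 h2).continuousWithinAt
      have hw := wind_eq (ε := ε) hε (Le := fun u => l (a - j - 1) (ta (Aw θ C (j + 1)) P) (ins y (j + 1) ((y j : ℂ) + u)))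
        (Lo := fun u => l (a - j) (ta (Aw θ C j) P) (ins y j ((y j : ℂ) + u))) (h := fun u => H ((y j : ℂ) + u))
        (g := fun u => κ * ∏ i ∈ Finset.univ.erase (⟨j, hjk1⟩ : Fin (k - 1)), ((y j : ℂ) + u - (y (i : ℕ) : ℂ)) ^ e i)
        (e := e ⟨j, hjk1⟩) (c := d j (a - j - 1) (ta (Aw θ C (j + 1)) P)) (c' := d j (a - j) (ta (Aw θ C j) P))
        ?_ ?_ ?_ ?_ ?_ ?_ ?_ ?_ ?_
      · rw [hw, hE]
      · exact (hlc _ _).comp ((hca (j + 1)).mono (Set.subset_univ _)) fun u hu => EExp_near0 hy hjk hε1 hu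
      · exact (hlc _ _).comp ((hca j).mono (Set.subset_univ _)) fun u hu => EExp_near1 hy hjk hε2 hu
      · intro u hu
        have h1 := EExp_near0 hy hjk hε1 hu
        show Complex.exp (l (a - j - 1) (ta (Aw θ C (j + 1)) P) (ins y (j + 1) ((y j : ℂ) + u))) = H ((y j : ℂ) + u)
        rw [hle _ (hlvA (j + 1)) _ _ h1, hHF (j + 1) hjk _ h1, hF, hlev]
      · intro u hu
        have h1 := EExp_near1 hy hjk hε2 hu
        show Complex.exp (l (a - j) (ta (Aw θ C j) P) (ins y j ((y j : ℂ) + u))) = H ((y j : ℂ) + u)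
        rw [hle _ (hlvA j) _ _ h1, hHF j (by omega) _ h1, hF]
      · intro u _ _ hu
        have hu' : 0 < ((y j : ℂ) + u).im := by simpa using hu
        have h1 := hup _ (hlvA (j + 1)) j hjk (a - j - 1) y hy _ hu'
        rw [EExp_A hP hjk, show a - (j : ℤ) - 1 + 1 = a - j by ring] at h1
        exact h1
      · intro u _ _ hu
        have hu' : ((y j : ℂ) + u).im < 0 := by simpa using hu
        have h1 := hdn _ (hlvA j) j hjk (a - j) y hy _ hu'
        rw [EExp_B hP htau hjk, show a - (j : ℤ) + 1 = a - j - 1 + 2 by ring, hl2] at h1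
        exact h1
      · refine continuousAt_const.mul ?_
        refine tendsto_finsetProd _ fun i hi => ?_
        have hij : (i : ℕ) ≠ j := fun h => (Finset.ne_of_mem_erase hi) (Fin.ext h)
        have h1 : (y j : ℂ) + 0 - (y (i : ℕ) : ℂ) ≠ 0 := by
          rw [add_zero]
          exact sub_ne_zero.2 (EExp_inj hy hij.symm)
        have h2 : ContinuousAt (fun u : ℂ => (y j : ℂ) + u - (y (i : ℕ) : ℂ)) 0 := by fun_prop
        exact h2.zpow₀ (e i) (Or.inl h1)
      · refine mul_ne_zero hκ (Finset.prod_ne_zero_iff.2 fun i hi => ?_)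
        have hij : (i : ℕ) ≠ j := fun h => (Finset.ne_of_mem_erase hi) (Fin.ext h)
        refine zpow_ne_zero _ ?_
        rw [add_zero]
        exact sub_ne_zero.2 (EExp_inj hy hij.symm)
      · intro u hu0 hu1
        show H ((y j : ℂ) + u) = _
        rw [hHprod _ (hdisj u hu0 hu1), ← Finset.mul_prod_erase Finset.univ _ (Finset.mem_univ (⟨j, hjk1⟩ : Fin (k - 1)))]
        show κ * (((y j : ℂ) + u - (y j : ℂ)) ^ e ⟨j, hjk1⟩ * _) = _
        rw [add_sub_cancel_left]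
        ring
    refine ⟨κ, hκ, fun j hjk w hw => ?_⟩
    have h1 : ∀ i : Fin (k - 1), w ≠ (y (i : ℕ) : ℂ) := fun i => EU_ne hy hjk hw (by have := i.2; omega)
    rw [← hF, ← hHF j hjk w hw, hHprod w h1, Finset.prod_range]
    congr 1
    exact Finset.prod_congr rfl fun i _ => by rw [hee i]

end Pool.Agent.LR
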