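import Pool.Agent.H60.OC.Expo

/-!
# LR EFBA: an algebraic lemma on rational functions

`y 0 < y 1 < ...` real, `m = k - 1` points; the points `y i`, `i < C`, are called special, the others generic.  `A y w = κ y * ∏ (w - y i)^(E i)`,
`B y w = κ' y * ∏ (w - y i)^(E' i)`, `A + B = 1` off the `y i`.  The exponents of the generic points are equal: `N`, `N'`.

(1) `N > 0` is impossible: for a generic `i`, `w → y i`: `A → 0`, `B → 1`, so `N' = 0` (order of `B` at `y i`), `B y w = κ' y * g w`, `g w = ∏_(i < C) (w - y i)^(E' i)`, and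
`κ' y * g (y i) = 1` for all generic `i`.  With `i = C`, `C + 1` (`C + 1 < k - 1`): `g (y C) = g (y (C+1))`; `g` depends only on the special points, so moving `y (C+1)`: `g` is constant on an infinite
set of real numbers `> y C`, so `E' i = 0` for `i < C` (`OC.expo`), `B = κ' y`, constant, `= 1`, `A = 0`: contradiction to `κ y ≠ 0`.
(2) `N < 0` is impossible: dividing by `A`: `A⁻¹ = 1 + B / A`, so (1) applies to `A⁻¹`, `- B / A` with the exponents `- E`, `E' - E`.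
(3) In the same way `N' = 0`.
(4) `A y w = κ y * g w`, `B y w = κ' y * g' w` with `g`, `g'` depending only on the special points.  Let `y`, `y'` have the same special points and `κ y ≠ κ y'`:
`(κ y - κ y') g = - (κ' y - κ' y') g'` off finitely many points, so `κ' y ≠ κ' y'` (`g` has no zeros there), `g = λ g'` with a constant `λ`, `(κ y λ + κ' y) g' = 1`, `g'` is constant, `g` too, so `E i = 0` for all `i < C`
(`OC.expo`).
-/

set_option autoImplicit false

open Topology Filter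

noncomputable section

namespace Pool.Agent.LR

theorem EFBA_loc {s κ κ' : ℂ} {e e' : ℤ} {g g' : ℂ → ℂ} (hg : ContinuousAt g s) (hg' : ContinuousAt g' s)
    (hg0 : g' s ≠ 0) (hκ' : κ' ≠ 0) (he : 0 < e)
    (h : ∀ᶠ w in 𝓝[≠] s, κ * ((w - s) ^ e * g w) + κ' * ((w - s) ^ e' * g' w) = 1) :
    e' = 0 ∧ κ' * g' s = 1 := by
  have t1 : Tendsto (fun w : ℂ => w - s) (𝓝[≠] s) (𝓝 0) := by
    have h1 : Tendsto (fun w : ℂ => w - s) (𝓝 s) (𝓝 (s - s)) := (continuous_id.sub continuous_const).tendsto s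
    rw [sub_self] at h1
    exact h1.mono_left nhdsWithin_le_nhds
  have t2 : ∀ m : ℤ, 0 < m → Tendsto (fun w : ℂ => (w - s) ^ m) (𝓝[≠] s) (𝓝 0) := by
    intro m hm
    obtain ⟨n, rfl⟩ : ∃ n : ℕ, m = ((n + 1 : ℕ) : ℤ) := ⟨(m - 1).toNat, by omega⟩
    simp only [zpow_natCast]
    have h1 := t1.pow (n + 1)
    rwa [zero_pow (by omega)] at h1
  have tg : Tendsto g (𝓝[≠] s) (𝓝 (g s)) := hg.tendsto.mono_left nhdsWithin_le_nhds
  have tg' : Tendsto g' (𝓝[≠] s) (𝓝 (g' s)) := hg'.tendsto.mono_left nhdsWithin_le_nhds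
  have t3 : Tendsto (fun w : ℂ => κ * ((w - s) ^ e * g w)) (𝓝[≠] s) (𝓝 0) := by
    have h1 := ((t2 e he).mul tg).const_mul κ
    rwa [zero_mul, mul_zero] at h1
  have t4 : Tendsto (fun w : ℂ => κ' * ((w - s) ^ e' * g' w)) (𝓝[≠] s) (𝓝 1) := by
    have h1 := (tendsto_const_nhds (x := (1 : ℂ)) (f := 𝓝[≠] s)).sub t3
    rw [sub_zero] at h1
    refine h1.congr' (h.mono fun w hw => ?_)
    rw [← hw]
    ring
  have hne : κ' * g' s ≠ 0 := mul_ne_zero hκ' hg0
  rcases lt_trichotomy e' 0 with h0 | h0 | h0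
  · exfalso
    have h1 := (t2 (-e') (by omega)).mul t4
    rw [zero_mul] at h1
    have h2 : Tendsto (fun w : ℂ => κ' * g' w) (𝓝[≠] s) (𝓝 0) := by
      refine h1.congr' ?_
      filter_upwards [self_mem_nhdsWithin] with w hw
      have hw' : w - s ≠ 0 := sub_ne_zero.2 hw
      have h3 : (w - s) ^ (-e') * (w - s) ^ e' = 1 := by
        rw [← zpow_add₀ hw', neg_add_cancel, zpow_zero]
      calc (w - s) ^ (-e') * (κ' * ((w - s) ^ e' * g' w)) = ((w - s) ^ (-e') * (w - s) ^ e') * (κ' * g' w) := by ring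
        _ = κ' * g' w := by rw [h3, one_mul]
    exact hne (tendsto_nhds_unique (tg'.const_mul κ') h2)
  · subst h0
    refine ⟨rfl, ?_⟩
    simp only [zpow_zero, one_mul] at t4
    exact tendsto_nhds_unique (tg'.const_mul κ') t4
  · exfalso
    have h1 := ((t2 e' h0).mul tg').const_mul κ'
    rw [zero_mul, mul_zero] at h1
    exact zero_ne_one (tendsto_nhds_unique h1 t4)

theorem EFBA_prod {k C : ℕ} (hCk : C + 3 ≤ k) {E : ℕ → ℤ} (hE0 : ∀ i, C ≤ i → i + 1 < k → E i = 0) (y : ℕ → ℝ) (w : ℂ) :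
    ∏ i ∈ Finset.range (k - 1), (w - y i) ^ E i = ∏ j : Fin C, (w - y j) ^ E j := by
  have h1 : ∏ i ∈ Finset.range (k - 1), (w - (y i : ℂ)) ^ E i = ∏ i ∈ Finset.range C, (w - (y i : ℂ)) ^ E i := by
    symm
    refine Finset.prod_subset (fun i hi => ?_) fun i hi hi' => ?_
    · rw [Finset.mem_range] at hi ⊢
      omega
    · rw [Finset.mem_range] at hi hi'
      rw [hE0 i (by omega) (by omega), zpow_zero]
  rw [h1, Finset.prod_range]

theorem EFBA_inj {y : ℕ → ℝ} (hy : StrictMono y) (C : ℕ) : Function.Injective (fun j : Fin C => ((y j : ℝ) : ℂ)) := by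
  intro i j h
  have h0 : ((y i : ℝ) : ℂ) = ((y j : ℝ) : ℂ) := h
  have h1 : y i = y j := by exact_mod_cast h0
  exact Fin.ext (hy.injective h1)

theorem EFBA_inf (y : ℕ → ℝ) (k : ℕ) : {w : ℂ | ∀ i, i + 1 < k → w ≠ y i}.Infinite := by
  have h1 : ((((Finset.range k).image (fun i => ((y i : ℝ) : ℂ)) : Finset ℂ) : Set ℂ)ᶜ).Infinite :=
    (Finset.finite_toSet _).infinite_compl
  refine h1.mono fun w hw i hi h2 => ?_
  rw [Set.mem_compl_iff, Finset.mem_coe, Finset.mem_image] at hw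
  exact hw ⟨i, Finset.mem_range.2 (by omega), h2.symm⟩

/-- the orders at `y i` -/
theorem EFBA_at {k : ℕ} {E E' : ℕ → ℤ} {κ κ' : ℂ} (hκ' : κ' ≠ 0) {y : ℕ → ℝ} (hy : StrictMono y)
    (h : ∀ w : ℂ, (∀ i, i + 1 < k → w ≠ y i) →
      κ * ∏ i ∈ Finset.range (k - 1), (w - y i) ^ E i + κ' * ∏ i ∈ Finset.range (k - 1), (w - y i) ^ E' i = 1)
    {i : ℕ} (hi : i + 1 < k) (hEi : 0 < E i) :
    E' i = 0 ∧ κ' * ∏ j ∈ (Finset.range (k - 1)).erase i, ((y i : ℂ) - y j) ^ E' j = 1 := by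
  have hmem : i ∈ Finset.range (k - 1) := Finset.mem_range.2 (by omega)
  have hne : ∀ j ∈ (Finset.range (k - 1)).erase i, (y i : ℂ) - y j ≠ 0 := by
    intro j hj
    rw [sub_ne_zero]
    intro h1
    have h2 : y i = y j := by exact_mod_cast h1
    exact (Finset.mem_erase.1 hj).1 (hy.injective h2).symm
  have hcont : ∀ F : ℕ → ℤ, ContinuousAt (fun w : ℂ => ∏ j ∈ (Finset.range (k - 1)).erase i, (w - y j) ^ F j) (y i : ℂ) := by
    intro F
    refine tendsto_finset_prod _ fun j hj => ?_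
    exact ((continuous_id.sub continuous_const).continuousAt).zpow₀ _ (Or.inl (hne j hj))
  refine EFBA_loc (s := (y i : ℂ)) (κ := κ) (e := E i) (hcont E) (hcont E') (Finset.prod_ne_zero_iff.2 fun j hj => zpow_ne_zero _ (hne j hj))
    hκ' hEi ?_
  have hU : ∀ᶠ w in 𝓝[≠] (y i : ℂ), w ∈ ((((Finset.range k).erase i).image (fun j => ((y j : ℝ) : ℂ)) : Finset ℂ) : Set ℂ)ᶜ := by
    refine mem_nhdsWithin_of_mem_nhds (((Finset.finite_toSet _).isClosed.isOpen_compl).mem_nhds ?_)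
    intro h1
    rw [Finset.mem_coe, Finset.mem_image] at h1
    obtain ⟨j, hj, h2⟩ := h1
    have h3 : y j = y i := by exact_mod_cast h2
    exact (Finset.mem_erase.1 hj).1 (hy.injective h3)
  filter_upwards [hU, self_mem_nhdsWithin] with w hw hwi
  have h1 := h w (by
    intro j hj h2
    by_cases hji : j = i
    · exact hwi (by rw [h2, hji]; rfl)
    · apply hw
      rw [Finset.mem_coe, Finset.mem_image]
      exact ⟨j, Finset.mem_erase.2 ⟨hji, Finset.mem_range.2 (by omega)⟩, h2.symm⟩)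
  rw [← Finset.mul_prod_erase _ _ hmem, ← Finset.mul_prod_erase _ (fun j => (w - (y j : ℂ)) ^ E' j) hmem] at h1
  exact h1

theorem EFBA_pos {k C : ℕ} (hCk : C + 3 ≤ k) {E E' : ℕ → ℤ}
    (hE : ∀ i i', C ≤ i → C ≤ i' → i + 1 < k → i' + 1 < k → E i = E i')
    (hE' : ∀ i i', C ≤ i → C ≤ i' → i + 1 < k → i' + 1 < k → E' i = E' i')
    {κ κ' : (ℕ → ℝ) → ℂ} (hκ : ∀ y : ℕ → ℝ, StrictMono y → κ y ≠ 0 ∧ κ' y ≠ 0)
    (h : ∀ y : ℕ → ℝ, StrictMono y → ∀ w : ℂ, (∀ i, i + 1 < k → w ≠ y i) →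
      κ y * ∏ i ∈ Finset.range (k - 1), (w - y i) ^ E i + κ' y * ∏ i ∈ Finset.range (k - 1), (w - y i) ^ E' i = 1) :
    ¬ 0 < E C := by
  intro hN
  have hEp : ∀ i, C ≤ i → i + 1 < k → 0 < E i := fun i h1 h2 => by
    rw [hE i C h1 le_rfl h2 (by omega)]
    exact hN
  -- `N' = 0`
  have hy0 : StrictMono (fun i : ℕ => (i : ℝ)) := Nat.strictMono_cast
  have hE0 : ∀ i, C ≤ i → i + 1 < k → E' i = 0 := fun i h1 h2 =>
    (EFBA_at (hκ _ hy0).2 hy0 (h _ hy0) h2 (hEp i h1 h2)).1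
  -- the value at a generic point
  have hval : ∀ y : ℕ → ℝ, StrictMono y → ∀ i, C ≤ i → i + 1 < k → κ' y * ∏ j : Fin C, ((y i : ℂ) - y j) ^ E' j = 1 := by
    intro y hy i h1 h2
    have h3 := (EFBA_at (hκ _ hy).2 hy (h _ hy) h2 (hEp i h1 h2)).2
    rw [← h3, ← EFBA_prod hCk hE0 y (y i : ℂ)]
    congr 1
    rw [← Finset.mul_prod_erase _ _ (Finset.mem_range.2 (show i < k - 1 by omega)), hE0 i h1 h2, zpow_zero, one_mul]
  -- the special exponents
  have hsp : (fun j : Fin C => E' j) = 0 := by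
    refine Pool.Agent.H60.OC.expo (EFBA_inj hy0 C) (c := ∏ j : Fin C, (((C : ℝ) : ℂ) - ((j : ℕ) : ℝ)) ^ E' j)
      (T := (fun t : ℝ => (t : ℂ)) '' Set.Ioi (C : ℝ)) ?_ ?_
    · exact (Set.infinite_image_iff (Complex.ofReal_injective.injOn)).2 (Set.Ioi_infinite _)
    · rintro z ⟨t, ht, rfl⟩
      rw [Set.mem_Ioi] at ht
      refine ⟨fun j h1 => ?_, ?_⟩
      · have h0 : (t : ℂ) = ((((j : ℕ) : ℝ)) : ℂ) := h1
        have h2 : t = ((j : ℕ) : ℝ) := by exact_mod_cast h0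
        have h3 : (((j : ℕ) : ℝ)) < C := by exact_mod_cast j.2
        linarith
      · set y : ℕ → ℝ := fun i => if i ≤ C then (i : ℝ) else t + ((i : ℝ) - (C + 1)) with hyd
        have hy : StrictMono y := by
          refine strictMono_nat_of_lt_succ fun n => ?_
          simp only [hyd]
          rcases lt_trichotomy n C with h1 | h1 | h1
          · rw [if_pos h1.le, if_pos (by omega)]
            push_cast
            linarith
          · rw [if_pos h1.le, if_neg (by omega), h1]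
            push_cast
            linarith
          · rw [if_neg (by omega), if_neg (by omega)]
            push_cast
            linarith
        have e1 := hval y hy C le_rfl (by omega)
        have e2 := hval y hy (C + 1) (by omega) (by omega)
        have hk := (hκ y hy).2
        have e3 : ∏ j : Fin C, ((y (C + 1) : ℂ) - y j) ^ E' j = ∏ j : Fin C, ((y C : ℂ) - y j) ^ E' j :=
          mul_left_cancel₀ hk (e2.trans e1.symm)
        have yC : y C = C := by simp [hyd]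
        have yC1 : y (C + 1) = t := by
          simp [hyd]
        have yj : ∀ j : Fin C, y j = ((j : ℕ) : ℝ) := fun j => by
          simp only [hyd]
          rw [if_pos j.2.le]
        rw [yC, yC1] at e3
        simp only [yj] at e3
        exact e3
  have hall : ∀ w : ℂ, ∏ j : Fin C, (w - (((j : ℕ) : ℝ) : ℂ)) ^ E' j = 1 := by
    intro w
    refine Finset.prod_eq_one fun j _ => ?_
    rw [show E' j = 0 from congrFun hsp j, zpow_zero]
  -- `B` is constant
  have hB : κ' (fun i : ℕ => (i : ℝ)) = 1 := by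
    have h1 := hval _ hy0 C le_rfl (by omega)
    rw [hall, mul_one] at h1
    exact h1
  obtain ⟨w, hw⟩ := (EFBA_inf (fun i : ℕ => (i : ℝ)) k).nonempty
  have h1 := h _ hy0 w hw
  rw [EFBA_prod hCk hE0 (fun i : ℕ => (i : ℝ)) w, hall, hB, mul_one, add_eq_right, mul_eq_zero] at h1
  rcases h1 with h1 | h1
  · exact (hκ _ hy0).1 h1
  · rw [Finset.prod_eq_zero_iff] at h1
    obtain ⟨i, hi, h2⟩ := h1
    exact zpow_ne_zero _ (sub_ne_zero.2 (hw i (by rw [Finset.mem_range] at hi; omega))) h2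

theorem EFBA_zero {k C : ℕ} (hCk : C + 3 ≤ k) {E E' : ℕ → ℤ}
    (hE : ∀ i i', C ≤ i → C ≤ i' → i + 1 < k → i' + 1 < k → E i = E i')
    (hE' : ∀ i i', C ≤ i → C ≤ i' → i + 1 < k → i' + 1 < k → E' i = E' i')
    {κ κ' : (ℕ → ℝ) → ℂ} (hκ : ∀ y : ℕ → ℝ, StrictMono y → κ y ≠ 0 ∧ κ' y ≠ 0)
    (h : ∀ y : ℕ → ℝ, StrictMono y → ∀ w : ℂ, (∀ i, i + 1 < k → w ≠ y i) →
      κ y * ∏ i ∈ Finset.range (k - 1), (w - y i) ^ E i + κ' y * ∏ i ∈ Finset.range (k - 1), (w - y i) ^ E' i = 1) :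
    E C = 0 := by
  have h1 := EFBA_pos hCk hE hE' hκ h
  have h2 : ¬ 0 < -E C := by
    refine EFBA_pos (E := fun i => -E i) (E' := fun i => E' i - E i) (κ := fun y => (κ y)⁻¹)
      (κ' := fun y => -(κ' y * (κ y)⁻¹)) hCk (fun i i' a b c d => by
        show -E i = -E i'
        rw [hE i i' a b c d]) (fun i i' a b c d => by
        show E' i - E i = E' i' - E i'
        rw [hE i i' a b c d, hE' i i' a b c d]) (fun y hy => ?_) (fun y hy w hw => ?_)
    · obtain ⟨a, b⟩ := hκ y hy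
      exact ⟨inv_ne_zero a, neg_ne_zero.2 (mul_ne_zero b (inv_ne_zero a))⟩
    · obtain ⟨a, b⟩ := hκ y hy
      have h3 := h y hy w hw
      have hw' : ∀ i ∈ Finset.range (k - 1), w - (y i : ℂ) ≠ 0 := fun i hi =>
        sub_ne_zero.2 (hw i (by rw [Finset.mem_range] at hi; omega))
      set P := ∏ i ∈ Finset.range (k - 1), (w - (y i : ℂ)) ^ E i with hP
      set Q := ∏ i ∈ Finset.range (k - 1), (w - (y i : ℂ)) ^ E' i with hQ
      have hP0 : P ≠ 0 := Finset.prod_ne_zero_iff.2 fun i hi => zpow_ne_zero _ (hw' i hi)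
      have e1 : ∏ i ∈ Finset.range (k - 1), (w - (y i : ℂ)) ^ (-E i) = P⁻¹ := by
        rw [hP, ← Finset.prod_inv_distrib]
        exact Finset.prod_congr rfl fun i _ => zpow_neg _ _
      have e2 : ∏ i ∈ Finset.range (k - 1), (w - (y i : ℂ)) ^ (E' i - E i) = Q * P⁻¹ := by
        rw [hP, hQ, ← Finset.prod_inv_distrib, ← Finset.prod_mul_distrib]
        refine Finset.prod_congr rfl fun i hi => ?_
        rw [zpow_sub₀ (hw' i hi), div_eq_mul_inv]
      show (κ y)⁻¹ * ∏ i ∈ Finset.range (k - 1), (w - (y i : ℂ)) ^ (-E i) +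
        -(κ' y * (κ y)⁻¹) * ∏ i ∈ Finset.range (k - 1), (w - (y i : ℂ)) ^ (E' i - E i) = 1
      rw [e1, e2]
      field_simp
      linear_combination -h3
  omega

theorem fb_abs {k C : ℕ} (hCk : C + 3 ≤ k) {E E' : ℕ → ℤ}
    (hE : ∀ i i', C ≤ i → C ≤ i' → i + 1 < k → i' + 1 < k → E i = E i')
    (hE' : ∀ i i', C ≤ i → C ≤ i' → i + 1 < k → i' + 1 < k → E' i = E' i')
    {κ κ' : (ℕ → ℝ) → ℂ} (hκ : ∀ y : ℕ → ℝ, StrictMono y → κ y ≠ 0 ∧ κ' y ≠ 0)
    (h : ∀ y : ℕ → ℝ, StrictMono y → ∀ w : ℂ, (∀ i, i + 1 < k → w ≠ y i) →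
      κ y * ∏ i ∈ Finset.range (k - 1), (w - y i) ^ E i + κ' y * ∏ i ∈ Finset.range (k - 1), (w - y i) ^ E' i = 1) :
    (∀ i, C ≤ i → i + 1 < k → E i = 0) ∧ ((∀ i, i + 1 < k → E i = 0) ∨
      ∀ y y' : ℕ → ℝ, StrictMono y → StrictMono y' → (∀ i, i < C → y i = y' i) → κ y = κ y') := by
  have hN := EFBA_zero hCk hE hE' hκ h
  have hN' := EFBA_zero (κ := κ') (κ' := κ) hCk hE' hE (fun y hy => (hκ y hy).symm) (fun y hy w hw => by
    rw [add_comm]
    exact h y hy w hw)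
  have hE0 : ∀ i, C ≤ i → i + 1 < k → E i = 0 := fun i h1 h2 => (hE i C h1 le_rfl h2 (by omega)).trans hN
  have hE0' : ∀ i, C ≤ i → i + 1 < k → E' i = 0 := fun i h1 h2 => (hE' i C h1 le_rfl h2 (by omega)).trans hN'
  refine ⟨hE0, ?_⟩
  by_cases hcon : ∀ y y' : ℕ → ℝ, StrictMono y → StrictMono y' → (∀ i, i < C → y i = y' i) → κ y = κ y'
  · exact Or.inr hcon
  left
  push Not at hcon
  obtain ⟨y, y', hy, hy', hyy, hne⟩ := hcon
  have hg : ∀ (F : ℕ → ℤ) (w : ℂ), ∏ j : Fin C, (w - (y' j : ℂ)) ^ F j = ∏ j : Fin C, (w - (y j : ℂ)) ^ F j := by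
    intro F w
    refine Finset.prod_congr rfl fun j _ => ?_
    rw [hyy j j.2]
  have hnz : ∀ (F : ℕ → ℤ) (w : ℂ), (∀ i, i + 1 < k → w ≠ y i) → ∏ j : Fin C, (w - (y j : ℂ)) ^ F j ≠ 0 := by
    intro F w hw
    exact Finset.prod_ne_zero_iff.2 fun j _ => zpow_ne_zero _ (sub_ne_zero.2 (hw j (by have := j.2; omega)))
  -- the quotient of the two products is constant
  have h1 : (fun j : Fin C => E j - E' j) = 0 := by
    refine Pool.Agent.H60.OC.expo (EFBA_inj hy C) (c := -(κ' y - κ' y') / (κ y - κ y'))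
      (T := {w : ℂ | (∀ i, i + 1 < k → w ≠ y i) ∧ ∀ i, i + 1 < k → w ≠ y' i}) ?_ ?_
    · have h1 : ((((Finset.range k).image (fun i => ((y i : ℝ) : ℂ)) ∪ (Finset.range k).image (fun i => ((y' i : ℝ) : ℂ)) :
          Finset ℂ) : Set ℂ)ᶜ).Infinite := (Finset.finite_toSet _).infinite_compl
      refine h1.mono fun w hw => ?_
      rw [Set.mem_compl_iff, Finset.mem_coe, Finset.mem_union, Finset.mem_image, Finset.mem_image] at hw
      exact ⟨fun i hi h2 => hw (Or.inl ⟨i, Finset.mem_range.2 (by omega), h2.symm⟩),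
        fun i hi h2 => hw (Or.inr ⟨i, Finset.mem_range.2 (by omega), h2.symm⟩)⟩
    · rintro w ⟨hw, hw'⟩
      refine ⟨fun j => hw j (by have := j.2; omega), ?_⟩
      have e1 := h y hy w hw
      have e2 := h y' hy' w hw'
      rw [EFBA_prod hCk hE0, EFBA_prod hCk hE0'] at e1 e2
      rw [hg, hg] at e2
      have e3 : ∏ j : Fin C, (w - (y j : ℂ)) ^ (E j - E' j) =
          (∏ j : Fin C, (w - (y j : ℂ)) ^ E j) / ∏ j : Fin C, (w - (y j : ℂ)) ^ E' j := by
        rw [← Finset.prod_div_distrib]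
        exact Finset.prod_congr rfl fun j _ => zpow_sub₀ (sub_ne_zero.2 (hw j (by have := j.2; omega))) _ _
      rw [e3, div_eq_div_iff (hnz E' w hw) (sub_ne_zero.2 hne)]
      linear_combination e1 - e2
  have h2 : ∀ j : Fin C, E j = E' j := fun j => by
    have := congrFun h1 j
    simp only [Pi.zero_apply] at this
    omega
  have h3 : (fun j : Fin C => E j) = 0 := by
    refine Pool.Agent.H60.OC.expo (EFBA_inj hy C) (c := (κ y + κ' y)⁻¹) (EFBA_inf y k) ?_
    intro w hw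
    refine ⟨fun j => hw j (by have := j.2; omega), ?_⟩
    have e1 := h y hy w hw
    rw [EFBA_prod hCk hE0, EFBA_prod hCk hE0'] at e1
    have e2 : ∏ j : Fin C, (w - (y j : ℂ)) ^ E' j = ∏ j : Fin C, (w - (y j : ℂ)) ^ E j :=
      Finset.prod_congr rfl fun j _ => by rw [h2 j]
    rw [e2, ← add_mul] at e1
    exact eq_inv_of_mul_eq_one_right e1
  intro i hi
  by_cases hiC : i < C
  · exact congrFun h3 ⟨i, hiC⟩
  · exact hE0 i (by omega) hi

end Pool.Agent.LR
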