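import Pool.Agent.LR.EExp
import Pool.Agent.LR.EFBA

/-!
# LR EFB: a triple with trivial loops does not depend on the generic points, and not on the level

`p^ = (γ, β, α)` for `p = (α, β, γ)`: `VV r p^ = 1 - VV r p`; `p^ ∈ TC`, and the hypotheses hold for all triples in `TC`.  Fix `a`.  `Cx.exps` for `P` and `P^`: exponents `E a`, `E' a` and `κ a y`, `κ' a y` (choice).  For `w` different from
all `y i`, `i + 1 < k`, there is `j < k` with `w ∈ UU k y j` (`UU_cover`) and `VV + VV^ = 1` at `ins y j w` (`ta g P^ = (ta g P)^`): so `fb_abs` (`EFBA.lean`) applies: `E a i = 0` for all generic `i ≥ C`, and either (I) `E a i = 0` for all `i`, or (II) `κ a y`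
depends only on `y i`, `i < C`.  Let `b` be a level, `j ≥ C` a position, `a = b + j`.  In case (I): `VV (ρ b (ins y j w)) P = κ a y` does not depend on `w`; in case (II):
`VV (ρ b (ins y j w)) P = κ a y * ∏_(i < C) (w - y i)^(E a i)` depends only on `w` and the `y i`, `i < C`.  Every real strictly increasing `x` is `ins y j (x j)` for a strictly increasing `y` (`y i = x i` for `i < j`, `x (i+1)` for `i ≥ j`, `i + 1 < k`).  So the derivative of
`VV (ρ b ·) P` at real strictly increasing points in the direction `j` (case (I)), resp. in all directions `i ≥ C`, `i ≠ j` (case (II)), is `0`: the function `t ↦ VV (ρ b (x + t e_i)) P` is constant for small real `t`, and it has a complex derivative at `0`.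
Which case occurs depends only on the parity of `a` (`E (a+2) = E a`): say (I) for `a` iff `E a i = 0` for all `i`, `i + 1 < k`.
For `j₀ ≥ C`: if (I) holds for `a = b + j₀`: derivative in direction `j₀` is `0`.  If not, not for `b + j` with `j = j₀ ± 2` either, one of them is in `[C, k - 1]` (`C + 4 ≤ k`), so (II) holds with `j ≠ j₀`, and the derivative in direction `j₀` is `0`.
`x ↦ fderiv ℂ (fun x => VV (ρ b x) P) x (Pi.single j₀ 1)` is analytic on `XX k` (`VV_anM`, `AnalyticOnNhd.fderiv`), zero at the real increasing points: `real_id`.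

`fbl`: `dep` gives the independence of the coordinates `≥ C'`.  Level: for `x ∈ WW (sw i)`: `VV (ρ (b+1) x) P = VV (ρ (b+1) (x ∘ sw i)) P` by `dep` (`x`, `x ∘ sw i ∈ XX k` have the same coordinates `< C'`), `= VV (ρ b x) P` by `tr` (`ta (θ i) P = P`); so `VV (ρ (b+1) ·) P` and
`VV (ρ b ·) P` agree on the open nonempty set `WW (sw i)` (`EWW.lean`), so on `XX k` (`open_id`).  Induction on the difference of the levels.
-/

set_option autoImplicit false

open Topology Filter

noncomputable section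

namespace Pool.Agent.LR

open Pool.Agent.H60.OC (Pr NN nm zc SG MF IsRoots vd poly HoloOn)

variable {k n : ℕ} {f : (Fin k → ℂ) → (Fin n → ℂ)} {ρ : ℤ → (Fin k → ℂ) → (Fin n → ℂ)}
  {θ : ℕ → Equiv.Perm (Fin n)} {z : Equiv.Perm (Fin n)} {C : ℕ}

/-- The triple in the reverse order. -/
private def EFB_hat {n : ℕ} (P : Tr n) : Tr n :=
  ⟨(P.1.2.2, P.1.2.1, P.1.1), P.2.2.2.symm, P.2.2.1.symm, P.2.1.symm⟩

private theorem EFB_sum {r : Fin n → ℂ} (hr : Function.Injective r) (P : Tr n) : VV r P + VV r (EFB_hat P) = 1 := by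
  have h1 : r P.1.1 - r P.1.2.2 ≠ 0 := sub_ne_zero.2 (hr.ne P.2.2.1)
  have h2 : r P.1.2.2 - r P.1.1 ≠ 0 := sub_ne_zero.2 (hr.ne P.2.2.1.symm)
  show (r P.1.1 - r P.1.2.1) / (r P.1.1 - r P.1.2.2) + (r P.1.2.2 - r P.1.2.1) / (r P.1.2.2 - r P.1.1) = 1
  rw [div_add_div _ _ h1 h2, div_eq_one_iff_eq (mul_ne_zero h1 h2)]
  ring

/-- Extension of a finite sequence. -/
private def EFB_ext {k : ℕ} (x : Fin k → ℝ) (M : ℝ) (i : ℕ) : ℝ := if h : i < k then x ⟨i, h⟩ else M + i

private theorem EFB_ext_mono {x : Fin k → ℝ} (hx : StrictMono x) {M : ℝ} (hM : ∀ i, x i ≤ M) :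
    StrictMono (EFB_ext x M) := by
  intro i j hij
  unfold EFB_ext
  by_cases hj : j < k
  · have hi : i < k := by omega
    rw [dif_pos hi, dif_pos hj]
    exact hx (by rw [Fin.mk_lt_mk]; exact hij)
  · rw [dif_neg hj]
    have h1 : (i : ℝ) < j := by exact_mod_cast hij
    have h0 : (0 : ℝ) ≤ i := Nat.cast_nonneg i
    by_cases hi : i < k
    · rw [dif_pos hi]
      have := hM ⟨i, hi⟩
      linarith
    · rw [dif_neg hi]
      linarith

/-- Leave out the index `j`. -/
private def EFB_skip (X : ℕ → ℝ) (j i : ℕ) : ℝ := if i < j then X i else X (i + 1)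

private theorem EFB_skip_mono {X : ℕ → ℝ} (hX : StrictMono X) (j : ℕ) : StrictMono (EFB_skip X j) := by
  intro a b hab
  unfold EFB_skip
  by_cases ha : a < j
  · by_cases hb : b < j
    · rw [if_pos ha, if_pos hb]
      exact hX hab
    · rw [if_pos ha, if_neg hb]
      exact hX (by omega)
  · have hb : ¬ b < j := by omega
    rw [if_neg ha, if_neg hb]
    exact hX (by omega)

private theorem EFB_ins (x : Fin k → ℝ) (M : ℝ) (j : Fin k) :
    (ins (EFB_skip (EFB_ext x M) j) j ((x j : ℝ) : ℂ) : Fin k → ℂ) = fun i => ((x i : ℝ) : ℂ) := by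
  funext i
  have hi := i.2
  unfold ins
  by_cases h1 : (i : ℕ) < j
  · rw [if_pos h1, EFB_skip, if_pos h1, EFB_ext, dif_pos hi]
  · rw [if_neg h1]
    by_cases h2 : (i : ℕ) = j
    · rw [if_pos h2, Fin.ext h2]
    · have h3 : ¬ (i : ℕ) - 1 < j := by omega
      have h4 : (i : ℕ) - 1 + 1 = i := by omega
      rw [if_neg h2, EFB_skip, if_neg h3, h4, EFB_ext, dif_pos hi]

private theorem EFB_real {x : Fin k → ℝ} (hx : StrictMono x) : (fun i => ((x i : ℝ) : ℂ)) ∈ XX k := by
  intro i j hij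
  rw [Complex.mem_slitPlane_iff]
  left
  have := hx hij
  simp only [Complex.sub_re, Complex.ofReal_re]
  linarith

private theorem EFB_const (h : Cx k n f ρ θ z) (hCk : C + 4 ≤ k) (hlv : ∀ P ∈ TC k θ C, Lv2 ρ P)
    (htau : ∀ P ∈ TC k θ C, ∀ j, j < C → ta (tau θ C j) P = P) {P : Tr n} (hP : P ∈ TC k θ C) (b : ℤ) {j₀ : Fin k}
    (hj : C ≤ (j₀ : ℕ)) {x x' : Fin k → ℝ} (hx : StrictMono x) (hx' : StrictMono x') (he : ∀ i, i ≠ j₀ → x i = x' i) :
    VV (ρ b (fun i => ((x i : ℝ) : ℂ))) P = VV (ρ b (fun i => ((x' i : ℝ) : ℂ))) P := by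
  have hP' : EFB_hat P ∈ TC k θ C := ⟨hP.2.2, hP.2.1, hP.1⟩
  obtain ⟨E, hE2, hEg, hEf⟩ := h.exps (by omega : C < k) hP (hlv P hP) (htau P hP)
  obtain ⟨E', -, hEg', hEf'⟩ := h.exps (by omega : C < k) hP' (hlv _ hP') (htau _ hP')
  have hc : ∀ (a : ℤ) (y : ℕ → ℝ), ∃ κ : ℂ, StrictMono y → κ ≠ 0 ∧ ∀ j, j < k → ∀ w ∈ UU k y j,
      VV (ρ (a - j) (ins y j w)) (ta (Aw θ C j) P) = κ * ∏ i ∈ Finset.range (k - 1), (w - y i) ^ E a i := by
    intro a y
    by_cases hy : StrictMono y
    · obtain ⟨κ, h1, h2⟩ := hEf a y hy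
      exact ⟨κ, fun _ => ⟨h1, h2⟩⟩
    · exact ⟨0, fun h => absurd h hy⟩
  have hc' : ∀ (a : ℤ) (y : ℕ → ℝ), ∃ κ : ℂ, StrictMono y → κ ≠ 0 ∧ ∀ j, j < k → ∀ w ∈ UU k y j,
      VV (ρ (a - j) (ins y j w)) (ta (Aw θ C j) (EFB_hat P)) = κ * ∏ i ∈ Finset.range (k - 1), (w - y i) ^ E' a i := by
    intro a y
    by_cases hy : StrictMono y
    · obtain ⟨κ, h1, h2⟩ := hEf' a y hy
      exact ⟨κ, fun _ => ⟨h1, h2⟩⟩
    · exact ⟨0, fun h => absurd h hy⟩
  choose κ hκ using hc
  choose κ' hκ' using hc'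
  have key : ∀ a, (∀ i, C ≤ i → i + 1 < k → E a i = 0) ∧ ((∀ i, i + 1 < k → E a i = 0) ∨
      ∀ y y' : ℕ → ℝ, StrictMono y → StrictMono y' → (∀ i, i < C → y i = y' i) → κ a y = κ a y') := by
    intro a
    refine fb_abs (κ := κ a) (κ' := κ' a) (by omega) (hEg a) (hEg' a) (fun y hy => ⟨(hκ a y hy).1, (hκ' a y hy).1⟩) ?_
    intro y hy w hw
    obtain ⟨j, hjk, hwj⟩ := UU_cover (by omega) hy hw
    rw [← (hκ a y hy).2 j hjk w hwj, ← (hκ' a y hy).2 j hjk w hwj]
    exact EFB_sum (h.inj _ hwj) (ta (Aw θ C j) P)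
  obtain ⟨M, hM, hM'⟩ : ∃ M : ℝ, (∀ i, x i ≤ M) ∧ ∀ i, x' i ≤ M := by
    refine ⟨∑ i, |x i| + ∑ i, |x' i|, fun i => ?_, fun i => ?_⟩
    · have h1 : |x i| ≤ ∑ i, |x i| := Finset.single_le_sum (fun i _ => abs_nonneg (x i)) (Finset.mem_univ i)
      have h2 : 0 ≤ ∑ i, |x' i| := Finset.sum_nonneg fun i _ => abs_nonneg _
      linarith [le_abs_self (x i)]
    · have h1 : |x' i| ≤ ∑ i, |x' i| := Finset.single_le_sum (fun i _ => abs_nonneg (x' i)) (Finset.mem_univ i)
      have h2 : 0 ≤ ∑ i, |x i| := Finset.sum_nonneg fun i _ => abs_nonneg _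
      linarith [le_abs_self (x' i)]
  have hval : ∀ x : Fin k → ℝ, StrictMono x → (∀ i, x i ≤ M) → ∀ j : Fin k, C ≤ (j : ℕ) →
      VV (ρ b (fun i => ((x i : ℝ) : ℂ))) P = κ (b + (j : ℕ)) (EFB_skip (EFB_ext x M) j) *
        ∏ i ∈ Finset.range (k - 1), (((x j : ℝ) : ℂ) - (EFB_skip (EFB_ext x M) j i : ℝ)) ^ E (b + (j : ℕ)) i := by
    intro x hx hM j hjC
    have hmono := EFB_skip_mono (EFB_ext_mono hx hM) j
    have hmem : ((x j : ℝ) : ℂ) ∈ UU k (EFB_skip (EFB_ext x M) j) j := by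
      show (ins (EFB_skip (EFB_ext x M) j) j ((x j : ℝ) : ℂ) : Fin k → ℂ) ∈ XX k
      rw [EFB_ins]
      exact EFB_real hx
    have h1 := (hκ (b + (j : ℕ)) _ hmono).2 j j.2 _ hmem
    rw [add_sub_cancel_right, Aw_ge θ hjC, ta_one, Equiv.Perm.one_apply, EFB_ins] at h1
    exact h1
  have hext : ∀ i : ℕ, i ≠ (j₀ : ℕ) → EFB_ext x M i = EFB_ext x' M i := by
    intro i hi
    unfold EFB_ext
    by_cases hik : i < k
    · rw [dif_pos hik, dif_pos hik]
      exact he _ fun h1 => hi (congrArg Fin.val h1)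
    · rw [dif_neg hik, dif_neg hik]
  by_cases hI : ∀ i, i + 1 < k → E (b + (j₀ : ℕ)) i = 0
  · have hsk : EFB_skip (EFB_ext x M) j₀ = EFB_skip (EFB_ext x' M) j₀ := by
      funext i
      unfold EFB_skip
      by_cases hi : i < (j₀ : ℕ)
      · rw [if_pos hi, if_pos hi]
        exact hext i (by omega)
      · rw [if_neg hi, if_neg hi]
        exact hext (i + 1) (by omega)
    rw [hval x hx hM j₀ hj, hval x' hx' hM' j₀ hj, hsk]
    congr 1
    refine Finset.prod_congr rfl fun i hi => ?_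
    rw [hI i (by rw [Finset.mem_range] at hi; omega), zpow_zero, zpow_zero]
  · obtain ⟨j, hjC, hj0, hjp⟩ : ∃ j : Fin k, C ≤ (j : ℕ) ∧ j ≠ j₀ ∧ ∀ i, E (b + (j : ℕ)) i = E (b + (j₀ : ℕ)) i := by
      have hj0k := j₀.2
      by_cases h2 : (j₀ : ℕ) + 2 < k
      · refine ⟨⟨(j₀ : ℕ) + 2, h2⟩, by show C ≤ (j₀ : ℕ) + 2; omega, fun h1 => ?_, fun i => ?_⟩
        · have := congrArg Fin.val h1
          simp at this
        · rw [← hE2 (b + (j₀ : ℕ)) i]
          congr 1
          push_cast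
          ring
      · refine ⟨⟨(j₀ : ℕ) - 2, by omega⟩, by show C ≤ (j₀ : ℕ) - 2; omega, fun h1 => ?_, fun i => ?_⟩
        · have := congrArg Fin.val h1
          simp only at this
          omega
        · rw [← hE2 (b + (((j₀ : ℕ) - 2 : ℕ) : ℤ)) i]
          congr 1
          have : (((j₀ : ℕ) - 2 : ℕ) : ℤ) = (j₀ : ℕ) - 2 := by omega
          show b + (((j₀ : ℕ) - 2 : ℕ) : ℤ) + 2 = b + (j₀ : ℕ)
          rw [this]
          ring
    have hII := ((key (b + (j : ℕ))).2).resolve_left fun hall => hI fun i hi => by rw [← hjp]; exact hall i hi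
    have hxj : x j = x' j := he j hj0
    have hsk : ∀ i, i < C → EFB_skip (EFB_ext x M) j i = EFB_skip (EFB_ext x' M) j i := by
      intro i hi
      unfold EFB_skip
      rw [if_pos (by omega), if_pos (by omega)]
      exact hext i (by omega)
    rw [hval x hx hM j hjC, hval x' hx' hM' j hjC, hxj,
      hII _ _ (EFB_skip_mono (EFB_ext_mono hx hM) j) (EFB_skip_mono (EFB_ext_mono hx' hM') j) hsk]
    congr 1
    refine Finset.prod_congr rfl fun i hi => ?_
    rw [Finset.mem_range] at hi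
    by_cases hiC : i < C
    · rw [hsk i hiC]
    · rw [(key (b + (j : ℕ))).1 i (by omega) (by omega), zpow_zero, zpow_zero]

theorem Cx.fb (h : Cx k n f ρ θ z) (hCk : C + 4 ≤ k) (hlv : ∀ P ∈ TC k θ C, Lv2 ρ P)
    (htau : ∀ P ∈ TC k θ C, ∀ j, j < C → ta (tau θ C j) P = P) {P : Tr n} (hP : P ∈ TC k θ C) (b : ℤ) {j : Fin k}
    (hj : C ≤ (j : ℕ)) {x : Fin k → ℂ} (hx : x ∈ XX k) : fderiv ℂ (fun x => VV (ρ b x) P) x (Pi.single j 1) = 0 := by
  have hF := h.VV_anM b P
  have hG : AnalyticOnNhd ℂ (fun x => fderiv ℂ (fun x => VV (ρ b x) P) x (Pi.single j 1)) (XX k) := by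
    have h1 := hF.fderiv
    intro x hx
    exact ((ContinuousLinearMap.apply ℂ ℂ (Pi.single j (1 : ℂ) : Fin k → ℂ)).analyticAt _).comp (h1 x hx)
  refine real_id hG ?_ x hx
  clear hx x
  intro x hx
  set F : (Fin k → ℂ) → ℂ := fun x => VV (ρ b x) P with hFdef
  set γ : ℝ → (Fin k → ℂ) := fun t i => ((x i + t * (if i = j then 1 else 0) : ℝ) : ℂ) with hγdef
  have hγ0 : γ 0 = fun i => ((x i : ℝ) : ℂ) := by
    funext i
    simp [hγdef]
  have hγ : HasDerivAt γ (Pi.single j 1) 0 := by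
    rw [hasDerivAt_pi]
    intro i
    have h1 : HasDerivAt (fun t : ℝ => x i + t * (if i = j then (1 : ℝ) else 0)) (1 * (if i = j then (1 : ℝ) else 0)) 0 :=
      ((hasDerivAt_id (0 : ℝ)).mul_const _).const_add _
    have h2 := h1.ofReal_comp
    have h3 : ((1 * (if i = j then (1 : ℝ) else 0) : ℝ) : ℂ) = (Pi.single j (1 : ℂ) : Fin k → ℂ) i := by
      rw [Pi.single_apply]
      by_cases hij : i = j <;> simp [hij]
    rw [h3] at h2
    exact h2
  have h3 : HasFDerivAt F ((fderiv ℂ F (γ 0)).restrictScalars ℝ) (γ 0) := by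
    rw [hγ0]
    exact ((hF _ (EFB_real hx)).differentiableAt.hasFDerivAt).restrictScalars ℝ
  have h4 := h3.comp_hasDerivAt (0 : ℝ) hγ
  have hmono : ∀ᶠ t : ℝ in 𝓝 0, StrictMono fun i => x i + t * (if i = j then (1 : ℝ) else 0) := by
    have h5 : ∀ᶠ t : ℝ in 𝓝 0, ∀ i i' : Fin k, i < i' →
        x i + t * (if i = j then (1 : ℝ) else 0) < x i' + t * (if i' = j then (1 : ℝ) else 0) := by
      rw [Filter.eventually_all]
      intro i
      rw [Filter.eventually_all]
      intro i'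
      by_cases hii : i < i'
      · have h6 : ∀ i : Fin k, Tendsto (fun t : ℝ => x i + t * (if i = j then (1 : ℝ) else 0)) (𝓝 0) (𝓝 (x i)) := by
          intro i
          have h7 : Continuous fun t : ℝ => x i + t * (if i = j then (1 : ℝ) else 0) := by fun_prop
          have h8 := h7.tendsto 0
          rwa [zero_mul, add_zero] at h8
        filter_upwards [(h6 i).eventually_lt (h6 i') (hx hii)] with t ht _ using ht
      · exact Filter.Eventually.of_forall fun t h1 => absurd h1 hii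
    filter_upwards [h5] with t ht i i' hii using ht i i' hii
  have h5 : (fun t => F (γ t)) =ᶠ[𝓝 (0 : ℝ)] fun _ => F (γ 0) := by
    filter_upwards [hmono] with t ht
    have h6 := EFB_const h hCk hlv htau hP b hj ht hx (fun i hi => by simp [hi])
    rw [hγ0]
    exact h6
  have h6 : HasDerivAt (fun t => F (γ t)) 0 (0 : ℝ) := (hasDerivAt_const (0 : ℝ) (F (γ 0))).congr_of_eventuallyEq h5
  have h7 := h4.unique h6
  rw [hγ0] at h7
  exact h7

/-- If the quotient does not depend on the coordinates `≥ C'` and `θ i` fixes its indices for some `i ≥ C'`, it does not depend on the level. -/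
theorem Cx.fbl (h : Cx k n f ρ θ z) {C' i : ℕ} (hi : C' ≤ i) (hik : i + 1 < k) {P : Tr n} (hP : ta (θ i) P = P)
    (hD : ∀ b, ∀ j : Fin k, C' ≤ (j : ℕ) → ∀ x ∈ XX k, fderiv ℂ (fun x => VV (ρ b x) P) x (Pi.single j 1) = 0)
    {x x' : Fin k → ℂ} (hx : x ∈ XX k) (hx' : x' ∈ XX k) (he : ∀ i : Fin k, (i : ℕ) < C' → x i = x' i) (b b' : ℤ) :
    VV (ρ b x) P = VV (ρ b' x') P := by
  have hstep : ∀ b : ℤ, ∀ x ∈ XX k, VV (ρ (b + 1) x) P = VV (ρ b x) P := by
    intro b x hx
    have h1 := open_id (F := fun x => VV (ρ (b + 1) x) P - VV (ρ b x) P) ((h.VV_anM (b + 1) P).sub (h.VV_anM b P))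
      (WW_open (sw i : Equiv.Perm (Fin k))) (by
        obtain ⟨w, hw⟩ := WW_nonempty (sw i : Equiv.Perm (Fin k))
        exact ⟨w, hw, WW_sub _ hw⟩) (by
        rintro w ⟨hw, hwX⟩
        have h2 := dep (h.VV_anM (b + 1) P) (hD (b + 1)) hwX (WW_comp (sw i) hw) (by
          intro l hl
          have h3 : (sw i : Equiv.Perm (Fin k)) l = l := by
            rw [sw, dif_pos hik]
            refine Equiv.swap_apply_of_ne_of_ne ?_ ?_
            · intro h4
              have := congrArg Fin.val h4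
              simp only at this
              omega
            · intro h4
              have := congrArg Fin.val h4
              simp only at this
              omega
          rw [h3])
        have h3 : VV (ρ (b + 1) (fun l => w ((sw i : Equiv.Perm (Fin k)) l))) P = VV (ρ b w) P := by
          conv_lhs => rw [← hP]
          rw [VV_ta]
          congr 1
          funext α
          exact h.tr i hik b w hw α
        show VV (ρ (b + 1) w) P - VV (ρ b w) P = 0
        rw [sub_eq_zero]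
        exact h2.trans h3) x hx
    exact sub_eq_zero.1 h1
  have hall : ∀ m : ℕ, ∀ b : ℤ, ∀ x ∈ XX k, VV (ρ (b + m) x) P = VV (ρ b x) P := by
    intro m
    induction m with
    | zero =>
      intro b x _
      simp
    | succ m ih =>
      intro b x hx
      have h1 : b + ((m + 1 : ℕ) : ℤ) = (b + m) + 1 := by
        push_cast
        ring
      rw [h1, hstep _ x hx, ih b x hx]
  have h1 : VV (ρ b x) P = VV (ρ b x') P := dep (h.VV_anM b P) (hD b) hx hx' he
  rw [h1]
  rcases le_total b b' with hbb | hbb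
  · obtain ⟨m, hm⟩ := Int.eq_ofNat_of_zero_le (sub_nonneg.2 hbb)
    have h2 : b' = b + m := by omega
    rw [h2, hall m b x' hx']
  · obtain ⟨m, hm⟩ := Int.eq_ofNat_of_zero_le (sub_nonneg.2 hbb)
    have h2 : b = b' + m := by omega
    rw [h2, hall m b' x' hx']

end Pool.Agent.LR
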