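import Pool.Agent.LR.GrpA

/-!
# LR FamC: braid generators whose far members have disjoint supports

`θ 0, ..., θ (m - 1)` with the braid relations, `m ≥ 3`, far members with disjoint supports.  Then the points moved by
some `θ i` form blocks `0, ..., m`, copies of a set `U`, with a permutation `τ` of `U`: `θ i` maps the point `u` of block
`i` to the point `u` of block `i + 1` and the point `u` of block `i + 1` to the point `τ u` of block `i`, and fixes all
others.
-/

set_option autoImplicit false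

namespace Pool.Agent.LR.Fam

open Equiv Grp

variable {α : Type*} {m : ℕ} {θ : ℕ → Perm α}

/-- braid generators whose far members have disjoint supports -/
structure Dj (m : ℕ) (θ : ℕ → Perm α) : Prop where
  br : Br m θ
  hm : 3 ≤ m
  dj : ∀ i j, i + 2 ≤ j → j < m → ∀ x, θ i x = x ∨ θ j x = x

/-- block `j`: the points moved exactly by `θ (j - 1)` and `θ j` -/
def V (m : ℕ) (θ : ℕ → Perm α) (j : ℕ) : Set α := {x | ∀ i, i < m → (θ i x ≠ x ↔ (i = j ∨ i + 1 = j))}

theorem Dj.far_fix (d : Dj m θ) {i j : ℕ} (hi : i < m) (hj : j < m) (hij : i + 2 ≤ j ∨ j + 2 ≤ i) {x : α}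
    (hx : θ i x ≠ x) : θ j x = x := by
  rcases hij with h | h
  · exact (d.dj i j h hj x).resolve_left hx
  · exact (d.dj j i h hi x).resolve_right hx

theorem Dj.braid_at (d : Dj m θ) {i : ℕ} (hi : i + 1 < m) (x : α) :
    θ i (θ (i + 1) (θ i x)) = θ (i + 1) (θ i (θ (i + 1) x)) :=
  congrArg (fun g : Perm α => g x) (d.br.braid i hi)

theorem moved_iff (g : Perm α) (x : α) : g (g x) ≠ g x ↔ g x ≠ x :=
  not_congr ⟨fun h => g.injective h, fun h => congrArg g h⟩

/-- the image of a point moved by `θ i` alone is moved by the neighbour -/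
theorem Dj.up (d : Dj m θ) {i : ℕ} (hi : i + 1 < m) {x : α} (h1 : θ i x ≠ x) (h2 : θ (i + 1) x = x) :
    θ (i + 1) (θ i x) ≠ θ i x := by
  intro h3
  have h4 := d.braid_at hi x
  rw [h2, h3] at h4
  exact h1 ((θ i).injective h4)

theorem Dj.dn (d : Dj m θ) {i : ℕ} (hi : i + 1 < m) {x : α} (h1 : θ (i + 1) x ≠ x) (h2 : θ i x = x) :
    θ i (θ (i + 1) x) ≠ θ (i + 1) x := by
  intro h3
  have h4 := d.braid_at hi x
  rw [h2, h3] at h4
  exact h1 ((θ (i + 1)).injective h4.symm)

/-- an interior generator has no point of its own -/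
theorem Dj.two (d : Dj m θ) {i : ℕ} (hi : i + 2 < m) {x : α} (h1 : θ (i + 1) x ≠ x) :
    θ i x ≠ x ∨ θ (i + 2) x ≠ x := by
  by_contra hc
  push Not at hc
  have h2 := d.dn (i := i) (by omega) h1 hc.1
  have h3 := d.up (i := i + 1) (by omega) h1 hc.2
  rcases d.dj i (i + 2) le_rfl hi (θ (i + 1) x) with h4 | h4
  · exact h2 h4
  · exact h3 h4

theorem Dj.cover (d : Dj m θ) {i : ℕ} (hi : i < m) {x : α} (hx : θ i x ≠ x) : x ∈ V m θ i ∨ x ∈ V m θ (i + 1) := by
  have hm := d.hm
  by_cases h0 : i = 0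
  · subst h0
    by_cases h1 : θ 1 x = x
    · left
      intro j hj
      rcases Nat.lt_or_ge j 2 with h2 | h2
      · interval_cases j
        · exact ⟨fun _ => Or.inl rfl, fun _ => hx⟩
        · exact ⟨fun h => absurd h1 h, fun h => by omega⟩
      · exact ⟨fun h => absurd (d.far_fix hi hj (by omega) hx) h, fun h => by omega⟩
    · right
      intro j hj
      rcases Nat.lt_or_ge j 2 with h2 | h2
      · interval_cases j
        · exact ⟨fun _ => Or.inr rfl, fun _ => hx⟩
        · exact ⟨fun _ => Or.inl rfl, fun _ => h1⟩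
      · exact ⟨fun h => absurd (d.far_fix hi hj (by omega) hx) h, fun h => by omega⟩
  · obtain ⟨i, rfl⟩ : ∃ k, i = k + 1 := ⟨i - 1, by omega⟩
    by_cases h1 : θ i x = x
    · right
      intro j hj
      rcases eq_or_ne j (i + 1) with rfl | h2
      · exact ⟨fun _ => Or.inr rfl, fun _ => hx⟩
      · rcases eq_or_ne j (i + 2) with rfl | h3
        · exact ⟨fun _ => Or.inl rfl, fun _ => (d.two hj hx).resolve_left (fun h => h h1)⟩
        · constructor
          · intro h
            exfalso
            rcases eq_or_ne j i with rfl | h4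
            · exact h h1
            · exact h (d.far_fix hi hj (by omega) hx)
          · intro h; omega
    · left
      intro j hj
      rcases eq_or_ne j (i + 1) with rfl | h2
      · exact ⟨fun _ => Or.inl rfl, fun _ => hx⟩
      · rcases eq_or_ne j i with rfl | h3
        · exact ⟨fun _ => Or.inr rfl, fun _ => h1⟩
        · constructor
          · intro h
            exfalso
            rcases eq_or_ne j (i + 2) with rfl | h4
            · exact h (d.far_fix (i := i) (by omega) hj (by omega) h1)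
            · exact h (d.far_fix hi hj (by omega) hx)
          · intro h; omega

theorem V_unique (hm : 2 ≤ m) {i j : ℕ} (hi : i ≤ m) (hj : j ≤ m) {x : α} (h1 : x ∈ V m θ i) (h2 : x ∈ V m θ j) :
    i = j := by
  by_contra hij
  wlog hlt : i < j generalizing i j
  · exact this hj hi h2 h1 (fun h => hij h.symm) (by omega)
  rcases Nat.eq_zero_or_pos i with h0 | h0
  · have h4 := h1 (j - 1) (by omega)
    have h5 := h2 (j - 1) (by omega)
    have h6 : θ (j - 1) x ≠ x := h5.2 (Or.inr (by omega))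
    have h7 := h4.1 h6
    have h8 : j = 1 := by omega
    subst h8
    have h9 := (h1 1 (by omega))
    have h10 := (h2 1 (by omega)).2 (Or.inl rfl)
    have h11 := h9.1 h10
    omega
  · have h4 := h1 (i - 1) (by omega)
    have h5 := h2 (i - 1) (by omega)
    have h6 := h5.1 (h4.2 (Or.inr (by omega)))
    omega

theorem Dj.mem_V_moved {i j : ℕ} {x : α} (h : x ∈ V m θ j) (hi : i < m) (hij : i = j ∨ i + 1 = j) : θ i x ≠ x :=
  (h i hi).2 hij

theorem Dj.mem_V_fix {i j : ℕ} {x : α} (h : x ∈ V m θ j) (hi : i < m) (h1 : i ≠ j) (h2 : i + 1 ≠ j) : θ i x = x := by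
  by_contra h3
  rcases (h i hi).1 h3 with h4 | h4
  · exact h1 h4
  · exact h2 h4

/-- `θ i` maps block `i` to block `i + 1` if `i + 1 < m` -/
theorem Dj.map_up_aux (d : Dj m θ) {i : ℕ} (hi : i + 1 < m) {x : α} (hx : x ∈ V m θ i) : θ i x ∈ V m θ (i + 1) := by
  have h1 := Dj.mem_V_moved hx (i := i) (by omega) (Or.inl rfl)
  have h2 := Dj.mem_V_fix hx (i := i + 1) hi (by omega) (by omega)
  have h3 := d.up hi h1 h2
  rcases d.cover (i := i) (by omega) (x := θ i x) ((moved_iff _ _).2 h1) with h4 | h4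
  · exact absurd (Dj.mem_V_fix h4 (i := i + 1) hi (by omega) (by omega)) h3
  · exact h4

/-- `θ i` maps block `i + 1` to block `i` if `0 < i` -/
theorem Dj.map_dn_aux (d : Dj m θ) {i : ℕ} (hi : i + 1 < m) {x : α} (hx : x ∈ V m θ (i + 2)) :
    θ (i + 1) x ∈ V m θ (i + 1) := by
  have h1 := Dj.mem_V_moved hx (i := i + 1) (by omega) (Or.inr rfl)
  have h2 := Dj.mem_V_fix hx (i := i) (by omega) (by omega) (by omega)
  have h3 := d.dn hi h1 h2
  rcases d.cover (i := i + 1) (by omega) (x := θ (i + 1) x) ((moved_iff _ _).2 h1) with h4 | h4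
  · exact h4
  · exact absurd (Dj.mem_V_fix h4 (i := i) (by omega) (by omega) (by omega)) h3

theorem Dj.map_up (d : Dj m θ) {i : ℕ} (hi : i < m) {x : α} (hx : x ∈ V m θ i) : θ i x ∈ V m θ (i + 1) := by
  have hm := d.hm
  by_cases h0 : i + 1 < m
  · exact d.map_up_aux h0 hx
  · obtain ⟨i, rfl⟩ : ∃ k, i = k + 2 := ⟨i - 2, by omega⟩
    have h1 := Dj.mem_V_moved hx (i := i + 2) (by omega) (Or.inl rfl)
    rcases d.cover (i := i + 2) (by omega) (x := θ (i + 2) x) ((moved_iff _ _).2 h1) with h4 | h4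
    · exfalso
      have h5 := d.map_dn_aux (i := i) (by omega) hx
      have h6 := d.map_dn_aux (i := i) (by omega) h4
      have h7 := d.braid_at (i := i + 1) (by omega) x
      rw [Dj.mem_V_fix h5 (i := i + 2) (by omega) (by omega) (by omega),
        Dj.mem_V_fix h6 (i := i + 2) (by omega) (by omega) (by omega)] at h7
      have h8 := (θ (i + 1)).injective h7
      rw [h8] at h5
      have := V_unique (by omega) (by omega) (by omega) h5 h4
      omega
    · exact h4

theorem Dj.map_dn (d : Dj m θ) {i : ℕ} (hi : i < m) {x : α} (hx : x ∈ V m θ (i + 1)) : θ i x ∈ V m θ i := by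
  have hm := d.hm
  by_cases h0 : i = 0
  · subst h0
    have h1 := Dj.mem_V_moved hx (i := 0) (by omega) (Or.inr rfl)
    rcases d.cover (i := 0) (by omega) (x := θ 0 x) ((moved_iff _ _).2 h1) with h4 | h4
    · exact h4
    · exfalso
      have h5 := d.map_up_aux (i := 1) (by omega) hx
      have h6 := d.map_up_aux (i := 1) (by omega) h4
      have h7 := d.braid_at (i := 0) (by omega) x
      simp only [zero_add] at h7 h4
      rw [Dj.mem_V_fix h5 (i := 0) (by omega) (by omega) (by omega),
        Dj.mem_V_fix h6 (i := 0) (by omega) (by omega) (by omega)] at h7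
      have h8 := (θ 1).injective h7
      rw [← h8] at h5
      have := V_unique (by omega) (by omega) (by omega) h5 h4
      omega
  · obtain ⟨i, rfl⟩ : ∃ k, i = k + 1 := ⟨i - 1, by omega⟩
    exact d.map_dn_aux (i := i) (by omega) hx

/-- the point `u` of block `j` -/
def emb (θ : ℕ → Perm α) : ℕ → α → α
  | 0, x => x
  | j + 1, x => θ j (emb θ j x)

theorem emb_inj (θ : ℕ → Perm α) (j : ℕ) : Function.Injective (emb θ j) := by
  induction j with
  | zero => intro x y h; exact h
  | succ j ih => intro x y h; exact ih ((θ j).injective h)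

theorem Dj.emb_mem (d : Dj m θ) {j : ℕ} (hj : j ≤ m) {x : α} (hx : x ∈ V m θ 0) : emb θ j x ∈ V m θ j := by
  induction j with
  | zero => exact hx
  | succ j ih => exact d.map_up (by omega) (ih (by omega))

theorem Dj.emb_surj (d : Dj m θ) {j : ℕ} (hj : j ≤ m) {y : α} (hy : y ∈ V m θ j) :
    ∃ x ∈ V m θ 0, emb θ j x = y := by
  have hm := d.hm
  induction j generalizing y with
  | zero => exact ⟨y, hy, rfl⟩
  | succ j ih =>
    obtain ⟨z, rfl⟩ : ∃ z, y = θ j z := ⟨(θ j)⁻¹ y, by simp⟩
    have h1 := Dj.mem_V_moved hy (i := j) (by omega) (Or.inr rfl)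
    have h2 := (moved_iff _ _).1 h1
    rcases d.cover (i := j) (by omega) h2 with h3 | h3
    · obtain ⟨x, hx, rfl⟩ := ih (by omega) h3
      exact ⟨x, hx, rfl⟩
    · have := V_unique (by omega) (by omega) (by omega) (d.map_dn (by omega) h3) hy
      omega

theorem Dj.emb_dn (d : Dj m θ) {j : ℕ} (hj : j < m) {x : α} (hx : x ∈ V m θ 0) :
    θ j (emb θ (j + 1) x) = emb θ j (θ 0 (θ 0 x)) := by
  have hx2 : θ 0 (θ 0 x) ∈ V m θ 0 := d.map_dn (by omega) (d.map_up (i := 0) (by omega) hx)
  induction j with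
  | zero => rfl
  | succ j ih =>
    have h1 := ih (by omega)
    have h2 := d.braid_at (i := j) (by omega) (emb θ (j + 1) x)
    rw [h1, Dj.mem_V_fix (d.emb_mem (j := j) (by omega) hx2) (i := j + 1) (by omega) (by omega) (by omega)] at h2
    have h3 : θ j (θ (j + 1) (emb θ (j + 1) x)) = θ (j + 1) (emb θ (j + 1) x) := by
      have h4 : θ (j + 1) (emb θ (j + 1) x) ∈ V m θ (j + 2) := d.map_up (by omega) (d.emb_mem (by omega) hx)
      exact Dj.mem_V_fix h4 (by omega) (by omega) (by omega)
    rw [h3] at h2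
    exact h2.symm

/-- BLOCKS -/
theorem Dj.blocks (d : Dj m θ) : ∃ (τ : Perm (V m θ 0)) (e : ℕ → V m θ 0 → α),
    (∀ i, i ≤ m → ∀ j, j ≤ m → ∀ u v, e i u = e j v → i = j ∧ u = v) ∧
    (∀ i, i < m → ∀ u, θ i (e i u) = e (i + 1) u ∧ θ i (e (i + 1) u) = e i (τ u)) ∧
    (∀ i, i < m → ∀ j, j ≤ m → i ≠ j → i + 1 ≠ j → ∀ u, θ i (e j u) = e j u) ∧
    (∀ x, (∀ i, i ≤ m → ∀ u, x ≠ e i u) → ∀ i, i < m → θ i x = x) := by
  have hm := d.hm
  have hτ : ∀ x, (θ 0 * θ 0) x ∈ V m θ 0 ↔ x ∈ V m θ 0 := by
    intro x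
    constructor
    · intro h
      have h1 := Dj.mem_V_moved h (i := 0) (by omega) (Or.inl rfl)
      rw [Perm.mul_apply] at h1 h
      rw [moved_iff, moved_iff] at h1
      rcases d.cover (i := 0) (by omega) h1 with h2 | h2
      · exact h2
      · exfalso
        have h3 := d.map_up (i := 0) (by omega) (d.map_dn (i := 0) (by omega) h2)
        have := V_unique (by omega) (by omega) (by omega) h3 h
        omega
    · intro h
      exact d.map_dn (by omega) (d.map_up (i := 0) (by omega) h)
  refine ⟨(θ 0 * θ 0).subtypePerm hτ, fun j u => emb θ j u, ?_, ?_, ?_, ?_⟩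
  · intro i hi j hj u v huv
    simp only at huv
    have h1 := d.emb_mem hi u.2
    rw [huv] at h1
    have h2 := V_unique (by omega) hi hj h1 (d.emb_mem hj v.2)
    subst h2
    exact ⟨rfl, Subtype.ext (emb_inj θ i huv)⟩
  · intro i hi u
    exact ⟨rfl, d.emb_dn hi u.2⟩
  · intro i hi j hj h1 h2 u
    exact Dj.mem_V_fix (d.emb_mem hj u.2) hi h1 h2
  · intro x hx i hi
    by_contra h1
    rcases d.cover hi h1 with h2 | h2
    · obtain ⟨u, hu, rfl⟩ := d.emb_surj (by omega) h2
      exact hx i (by omega) ⟨u, hu⟩ rfl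
    · obtain ⟨u, hu, rfl⟩ := d.emb_surj (by omega) h2
      exact hx (i + 1) (by omega) ⟨u, hu⟩ rfl

end Pool.Agent.LR.Fam
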