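import Mathlib

/-!
# LR StarA: the type of a point under a family of permutations with full symmetry

`f : Fin h → Perm α` is a family such that every permutation of the indices is induced by a pair `κ, κ'` of permutations of `α`.  If `α` has fewer than
`C(h - 1, 2)` points, then for every point `x` the values `f i x` are all equal up to one index, or they are all different.
-/

set_option autoImplicit false

open Equiv

namespace Pool.Agent.LR.Grp

/-- Two injective families of the same length are conjugate under the symmetric group. -/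
theorem exists_perm_family {h m : ℕ} (u v : Fin m → Fin h) (hu : Function.Injective u)
    (hv : Function.Injective v) : ∃ π : Perm (Fin h), ∀ t, π (u t) = v t := by
  have := Equiv.Perm.isMultiplyPretransitive (Fin h) m
  obtain ⟨π, hπ⟩ := MulAction.exists_smul_eq (Perm (Fin h)) (⟨u, hu⟩ : Fin m ↪ Fin h)
    (⟨v, hv⟩ : Fin m ↪ Fin h)
  refine ⟨π, fun t => ?_⟩
  have := DFunLike.congr_fun hπ t
  simpa using this

theorem choose_two_le_half {N c : ℕ} (h2 : 2 ≤ c) (hc : c ≤ N / 2) : N.choose 2 ≤ N.choose c := by
  induction c, h2 using Nat.le_induction with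
  | base => exact le_rfl
  | succ d hd ih =>
    exact (ih (by omega)).trans (Nat.choose_le_succ_of_lt_half_left (by omega))

theorem choose_two_le {N c : ℕ} (h2 : 2 ≤ c) (hc : c + 2 ≤ N) : N.choose 2 ≤ N.choose c := by
  rcases Nat.lt_or_ge (N / 2) c with h | h
  · rw [← Nat.choose_symm (show c ≤ N by omega)]
    exact choose_two_le_half (by omega) (by omega)
  · exact choose_two_le_half h2 h

section

variable {α : Type*} [Fintype α] [DecidableEq α] {h : ℕ} (f : Fin h → Perm α)

omit [Fintype α] [DecidableEq α] in
theorem transport (hsym : ∀ π : Perm (Fin h), ∃ κ κ' : Perm α, ∀ i, κ' * f i = f (π i) * κ)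
    (π : Perm (Fin h)) (x : α) : ∃ y : α, ∀ i j, f (π i) y = f (π j) y ↔ f i x = f j x := by
  obtain ⟨κ, κ', hk⟩ := hsym π
  refine ⟨κ x, fun i j => ?_⟩
  have hi : f (π i) (κ x) = κ' (f i x) := by
    have := DFunLike.congr_fun (hk i) x
    simpa using this.symm
  have hj : f (π j) (κ x) = κ' (f j x) := by
    have := DFunLike.congr_fun (hk j) x
    simpa using this.symm
  rw [hi, hj, κ'.injective.eq_iff]

/-- Blocks of sizes `3, …, h - 2` do not occur. -/
theorem no_block (hsym : ∀ π : Perm (Fin h), ∃ κ κ' : Perm α, ∀ i, κ' * f i = f (π i) * κ)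
    (hn : Fintype.card α < (h - 1).choose 2) (x : α) (i1 : Fin h) (B : Finset (Fin h))
    (hB : ∀ j, j ∈ B ↔ f i1 x = f j x) (h3 : 3 ≤ B.card) (h4 : B.card + 2 ≤ h) : False := by
  classical
  have : Nonempty α := ⟨x⟩
  obtain ⟨b, hb⟩ : ∃ b, B.card = b := ⟨_, rfl⟩
  have hh : 0 < h := by omega
  let z : Fin h := ⟨0, hh⟩
  -- points for all sets of size `b`
  have hex : ∀ S : Finset (Fin h), S.card = b → ∃ y : α, ∀ i ∈ S, ∀ j, f i y = f j y ↔ j ∈ S := by
    intro S hS
    obtain ⟨π, hπ⟩ := exists_perm_family (B.orderEmbOfFin hb) (S.orderEmbOfFin hS)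
      (B.orderEmbOfFin hb).injective (S.orderEmbOfFin hS).injective
    obtain ⟨y, hy⟩ := transport f hsym π x
    have hmem : ∀ j, π j ∈ S ↔ j ∈ B := by
      intro j
      constructor
      · intro hj
        have : π j ∈ Set.range (S.orderEmbOfFin hS) := by
          rw [Finset.range_orderEmbOfFin]; exact hj
        obtain ⟨t, ht⟩ := this
        rw [← hπ t] at ht
        rw [← π.injective ht]
        exact Finset.orderEmbOfFin_mem B hb t
      · intro hj
        have : j ∈ Set.range (B.orderEmbOfFin hb) := by
          rw [Finset.range_orderEmbOfFin]; exact hj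
        obtain ⟨t, ht⟩ := this
        rw [← ht, hπ t]
        exact Finset.orderEmbOfFin_mem S hS t
    refine ⟨y, fun i hi j => ?_⟩
    have e1 : π (π.symm i) = i := π.apply_symm_apply i
    have e2 : π (π.symm j) = j := π.apply_symm_apply j
    have h1 : π.symm i ∈ B := by rw [← hmem, e1]; exact hi
    have h2 : π.symm j ∈ B ↔ j ∈ S := by rw [← hmem, e2]
    rw [← e1, ← e2, hy, ← (hB _).mp h1, ← hB, h2, e2]
  choose! y hy using hex
  have hcard : ((Finset.univ.erase z).powersetCard (b - 1)).card ≤ Fintype.card α := by
    rw [← Finset.card_univ]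
    apply Finset.card_le_card_of_injOn (fun T => y (insert z T)) (fun _ _ => Finset.mem_univ _)
    have key : ∀ T ∈ (Finset.univ.erase z).powersetCard (b - 1),
        T = (Finset.univ.filter fun j => f z (y (insert z T)) = f j (y (insert z T))).erase z := by
      intro T hT
      rw [Finset.mem_powersetCard] at hT
      have hzT : z ∉ T := fun hz => (Finset.mem_erase.mp (hT.1 hz)).1 rfl
      have hc : (insert z T).card = b := by
        rw [Finset.card_insert_of_notMem hzT, hT.2]; omega
      ext j
      rw [Finset.mem_erase, Finset.mem_filter]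
      have := hy (insert z T) hc z (Finset.mem_insert_self _ _) j
      rw [this, Finset.mem_insert]
      constructor
      · intro hj
        exact ⟨fun e => hzT (e ▸ hj), Finset.mem_univ _, Or.inr hj⟩
      · rintro ⟨h1, -, h2⟩
        exact h2.resolve_left h1
    intro T hT T' hT' hTT
    have hTT' : y (insert z T) = y (insert z T') := hTT
    rw [key T hT, key T' hT', hTT']
  rw [Finset.card_powersetCard, Finset.card_erase_of_mem (Finset.mem_univ _), Finset.card_univ,
    Fintype.card_fin] at hcard
  have := choose_two_le (N := h - 1) (c := b - 1) (by omega) (by omega)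
  omega

end

/-- Every point is of star type. -/
theorem star_type {α : Type*} [Fintype α] [DecidableEq α] {h : ℕ} (hh : 5 ≤ h)
    (f : Fin h → Perm α)
    (hsym : ∀ π : Perm (Fin h), ∃ κ κ' : Perm α, ∀ i, κ' * f i = f (π i) * κ)
    (hn : Fintype.card α < (h - 1).choose 2) (x : α) :
    (∃ i0, ∀ i j, i ≠ i0 → j ≠ i0 → f i x = f j x) ∨ Function.Injective (fun i => f i x) := by
  classical
  have : Nonempty α := ⟨x⟩
  by_contra hcon
  push Not at hcon
  obtain ⟨hstar, hinj⟩ := hcon
  -- blocks have at most `h - 2` elements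
  have hsmall : ∀ i1 : Fin h, (Finset.univ.filter fun j => f i1 x = f j x).card + 2 ≤ h := by
    intro i1
    by_contra hlt
    push Not at hlt
    set B := Finset.univ.filter fun j => f i1 x = f j x with hB
    have hco : (Bᶜ).card ≤ 1 := by
      rw [Finset.card_compl, Fintype.card_fin]; omega
    rw [Finset.card_le_one_iff] at hco
    by_cases hne : (Bᶜ).Nonempty
    · obtain ⟨i0, hi0⟩ := hne
      obtain ⟨i, j, hi, hj, hij⟩ := hstar i0
      apply hij
      have h1 : i ∈ B := by
        by_contra h; exact hi (hco (Finset.mem_compl.mpr h) hi0)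
      have h2 : j ∈ B := by
        by_contra h; exact hj (hco (Finset.mem_compl.mpr h) hi0)
      rw [hB, Finset.mem_filter] at h1 h2
      rw [← h1.2, ← h2.2]
    · obtain ⟨i, j, -, -, hij⟩ := hstar i1
      apply hij
      have h1 : ∀ i, i ∈ B := by
        intro i
        by_contra h; exact hne ⟨i, Finset.mem_compl.mpr h⟩
      have h2 := h1 i
      have h3 := h1 j
      rw [hB, Finset.mem_filter] at h2 h3
      rw [← h2.2, ← h3.2]
  -- blocks have at most two elements
  have htwo : ∀ i j k : Fin h, i ≠ j → j ≠ k → i ≠ k → f i x = f j x → f i x ≠ f k x := by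
    intro i j k hij hjk hik h1 h2
    apply no_block f hsym hn x i (Finset.univ.filter fun j => f i x = f j x) (by simp) _ (hsmall i)
    have : ({i, j, k} : Finset (Fin h)).card = 3 := by
      rw [Finset.card_insert_of_notMem, Finset.card_insert_of_notMem, Finset.card_singleton]
      · simpa using hjk
      · simp [hij, hik]
    rw [← this]
    apply Finset.card_le_card
    intro a ha
    simp only [Finset.mem_insert, Finset.mem_singleton] at ha
    rw [Finset.mem_filter]
    refine ⟨Finset.mem_univ _, ?_⟩
    rcases ha with rfl | rfl | rfl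
    · rfl
    · exact h1
    · exact h2
  obtain ⟨p, q, hpq, hne⟩ : ∃ p q : Fin h, f p x = f q x ∧ p ≠ q := by
    by_contra hc
    push Not at hc
    exact hinj fun a b hab => hc a b hab
  by_cases hB1 : ∃ r s : Fin h, f r x = f s x ∧ r ≠ s ∧ r ≠ p ∧ r ≠ q ∧ s ≠ p ∧ s ≠ q
  · -- at least two blocks of size two
    obtain ⟨r, s, hrs, hrs', hrp, hrq, hsp, hsq⟩ := hB1
    let z : Fin h := ⟨0, by omega⟩
    let w : Fin h := ⟨1, by omega⟩
    have hzw : z ≠ w := by simp [z, w, Fin.ext_iff]
    have hex : ∀ ab : Fin h × Fin h, ab.1 ≠ ab.2 → ab.1 ≠ z → ab.1 ≠ w → ab.2 ≠ z → ab.2 ≠ w →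
        ∃ y : α, f z y = f ab.1 y ∧ f w y = f ab.2 y ∧
          (∀ i j k : Fin h, i ≠ j → j ≠ k → i ≠ k → f i y = f j y → f i y ≠ f k y) := by
      rintro ⟨a, b⟩ hab haz haw hbz hbw
      simp only at hab haz haw hbz hbw
      obtain ⟨π, hπ⟩ := exists_perm_family (h := h) (m := 4) ![p, q, r, s] ![z, a, w, b]
        (by
          intro t t' htt
          fin_cases t <;> fin_cases t' <;> simp_all [Ne.symm])
        (by
          intro t t' htt
          fin_cases t <;> fin_cases t' <;> simp_all [Ne.symm])
      obtain ⟨y, hy⟩ := transport f hsym π x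
      have e0 := hπ 0
      have e1 := hπ 1
      have e2 := hπ 2
      have e3 := hπ 3
      simp at e0 e1 e2 e3
      refine ⟨y, ?_, ?_, ?_⟩
      · rw [← e0, ← e1, hy]; exact hpq
      · rw [← e2, ← e3, hy]; exact hrs
      · intro i j k hij hjk hik
        have i1 : π (π.symm i) = i := π.apply_symm_apply i
        have j1 : π (π.symm j) = j := π.apply_symm_apply j
        have k1 : π (π.symm k) = k := π.apply_symm_apply k
        rw [← i1, ← j1, ← k1, ne_eq, hy, hy]
        exact htwo _ _ _ (fun e => hij (π.symm.injective e)) (fun e => hjk (π.symm.injective e))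
          (fun e => hik (π.symm.injective e))
    choose! y hy1 hy2 hy3 using hex
    let U : Finset (Fin h) := (Finset.univ.erase z).erase w
    have hUc : U.card = h - 2 := by
      rw [Finset.card_erase_of_mem, Finset.card_erase_of_mem (Finset.mem_univ _), Finset.card_univ,
        Fintype.card_fin]
      · omega
      · simp [hzw.symm]
    have hU : ∀ a ∈ U, a ≠ z ∧ a ≠ w := by
      intro a ha
      simp only [U, Finset.mem_erase, Finset.mem_univ, and_true] at ha
      exact ⟨ha.2, ha.1⟩
    have hcard : U.offDiag.card ≤ Fintype.card α := by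
      rw [← Finset.card_univ]
      apply Finset.card_le_card_of_injOn y (fun _ _ => Finset.mem_univ _)
      rintro ⟨a, b⟩ hab ⟨a', b'⟩ hab' he
      have m1 := Finset.mem_offDiag.mp hab
      have m2 := Finset.mem_offDiag.mp hab'
      simp only at m1 m2
      have ga := hU a m1.1
      have gb := hU b m1.2.1
      have ga' := hU a' m2.1
      have gb' := hU b' m2.2.1
      have e1 := hy1 (a, b) m1.2.2 ga.1 ga.2 gb.1 gb.2
      have e2 := hy2 (a, b) m1.2.2 ga.1 ga.2 gb.1 gb.2
      have e3 := hy3 (a, b) m1.2.2 ga.1 ga.2 gb.1 gb.2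
      have e1' := hy1 (a', b') m2.2.2 ga'.1 ga'.2 gb'.1 gb'.2
      have e2' := hy2 (a', b') m2.2.2 ga'.1 ga'.2 gb'.1 gb'.2
      rw [← he] at e1' e2'
      simp only at e1 e2 e1' e2'
      have ea : a = a' := by
        by_contra hne
        exact e3 z a a' ga.1.symm hne ga'.1.symm e1 e1'
      have eb : b = b' := by
        by_contra hne
        exact e3 w b b' gb.2.symm hne gb'.2.symm e2 e2'
      rw [ea, eb]
    rw [Finset.offDiag_card, hUc] at hcard
    have h1 : (h - 1).choose 2 ≤ (h - 2) * (h - 2) - (h - 2) := by
      obtain ⟨d, rfl⟩ : ∃ d, h = d + 5 := ⟨h - 5, by omega⟩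
      have e1 : d + 5 - 1 = d + 4 := by omega
      have e2 : d + 5 - 2 = d + 3 := by omega
      rw [e1, e2, Nat.choose_two_right]
      have e3 : (d + 3) * (d + 3) - (d + 3) = (d + 3) * (d + 2) := by
        have : (d + 3) * (d + 3) = (d + 3) * (d + 2) + (d + 3) := by ring
        omega
      have e4 : d + 4 - 1 = d + 3 := by omega
      rw [e3, e4]
      apply Nat.div_le_of_le_mul
      nlinarith
    omega
  · -- exactly one block of size two
    push Not at hB1
    have huniq : ∀ r s : Fin h, r ≠ s → (f r x = f s x ↔ (r = p ∧ s = q) ∨ (r = q ∧ s = p)) := by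
      intro r s hrs
      constructor
      · intro he
        by_cases h1 : r = p
        · left
          refine ⟨h1, ?_⟩
          by_contra h2
          subst h1
          exact htwo r q s hne (Ne.symm h2) hrs hpq he
        by_cases h2 : r = q
        · right
          refine ⟨h2, ?_⟩
          by_contra h3
          subst h2
          exact htwo r p s (Ne.symm hne) (Ne.symm h3) hrs hpq.symm he
        by_cases h3 : s = p
        · exfalso
          subst h3
          exact htwo s q r hne (Ne.symm h2) (Ne.symm h1) hpq he.symm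
        · have h4 := hB1 r s he hrs h1 h2 h3
          exfalso
          subst h4
          exact htwo s p r (Ne.symm hne) (Ne.symm h1) (Ne.symm hrs) hpq.symm he.symm
      · rintro (⟨rfl, rfl⟩ | ⟨rfl, rfl⟩)
        · exact hpq
        · exact hpq.symm
    have hex : ∀ S : Finset (Fin h), S.card = 2 → ∃ y : α, ∀ r s : Fin h, r ≠ s →
        (f r y = f s y ↔ r ∈ S ∧ s ∈ S) := by
      intro S hS
      obtain ⟨a, b, hab, rfl⟩ := Finset.card_eq_two.mp hS
      obtain ⟨π, hπ⟩ := exists_perm_family (h := h) (m := 2) ![p, q] ![a, b]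
        (by
          intro t t' htt
          fin_cases t <;> fin_cases t' <;> simp_all [Ne.symm])
        (by
          intro t t' htt
          fin_cases t <;> fin_cases t' <;> simp_all [Ne.symm])
      obtain ⟨y, hy⟩ := transport f hsym π x
      have e0 := hπ 0
      have e1 := hπ 1
      simp at e0 e1
      refine ⟨y, fun r s hrs => ?_⟩
      have r1 : π (π.symm r) = r := π.apply_symm_apply r
      have s1 : π (π.symm s) = s := π.apply_symm_apply s
      have h1 : f r y = f s y ↔ f (π.symm r) x = f (π.symm s) x := by
        rw [← hy, r1, s1]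
      rw [h1, huniq _ _ (fun e => hrs (π.symm.injective e))]
      have c1 : ∀ t, π.symm t = p ↔ t = a := by
        intro t
        rw [Equiv.symm_apply_eq, e0]
      have c2 : ∀ t, π.symm t = q ↔ t = b := by
        intro t
        rw [Equiv.symm_apply_eq, e1]
      rw [c1, c2, c1, c2]
      simp only [Finset.mem_insert, Finset.mem_singleton]
      constructor
      · rintro (⟨h1, h2⟩ | ⟨h1, h2⟩)
        · exact ⟨Or.inl h1, Or.inr h2⟩
        · exact ⟨Or.inr h1, Or.inl h2⟩
      · rintro ⟨h1 | h1, h2 | h2⟩
        · exact absurd (h1.trans h2.symm) hrs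
        · exact Or.inl ⟨h1, h2⟩
        · exact Or.inr ⟨h1, h2⟩
        · exact absurd (h1.trans h2.symm) hrs
    choose! y hy using hex
    have hcard : ((Finset.univ : Finset (Fin h)).powersetCard 2).card ≤ Fintype.card α := by
      rw [← Finset.card_univ (α := α)]
      apply Finset.card_le_card_of_injOn y (fun _ _ => Finset.mem_univ _)
      have key : ∀ T ∈ (Finset.univ : Finset (Fin h)).powersetCard 2, ∀ T' : Finset (Fin h),
          T'.card = 2 → y T = y T' → T ⊆ T' := by
        intro T hT T' hT' he r hr
        have hTc := (Finset.mem_powersetCard.mp hT).2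
        obtain ⟨a, b, hab, rfl⟩ := Finset.card_eq_two.mp hTc
        have h1 := (hy {a, b} hTc a b hab).mpr ⟨by simp, by simp⟩
        rw [he] at h1
        have h2 := (hy T' hT' a b hab).mp h1
        simp only [Finset.mem_insert, Finset.mem_singleton] at hr
        rcases hr with rfl | rfl
        · exact h2.1
        · exact h2.2
      intro T hT T' hT' he
      exact Finset.Subset.antisymm
        (key T hT T' (Finset.mem_powersetCard.mp hT').2 he)
        (key T' hT' T (Finset.mem_powersetCard.mp hT).2 he.symm)
    rw [Finset.card_powersetCard, Finset.card_univ, Fintype.card_fin] at hcard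
    have : (h - 1).choose 2 ≤ h.choose 2 := Nat.choose_le_choose 2 (by omega)
    omega

end Pool.Agent.LR.Grp
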