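import Mathlib

/-!
# LR, group part: the star is never injective (helper13, for helper60 / helper36)

`f 0, ..., f (h-1)` commuting permutations of a set with fewer than `C(h-1, 2)` elements, permuted
by the symmetric group in the weak sense of `hsym`. Then no point has `h` different images.
-/

set_option autoImplicit false

namespace Pool.Agent.LR.Grp

open Equiv

section

variable {α : Type*} {h : ℕ} (f : Fin h → Perm α)

/-- `f_j⁻¹ f_i` -/
private def w (i j : Fin h) : Perm α := (f j)⁻¹ * f i

variable {f}

private theorem comm_w (hcomm : ∀ i j, f i * f j = f j * f i) (i j k : Fin h) :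
    Commute (w f i j) (f k) := by
  have h1 : Commute (f i) (f k) := hcomm i k
  have h2 : Commute (f j) (f k) := hcomm j k
  exact (h2.inv_left).mul_left h1

private theorem comm_ww (hcomm : ∀ i j, f i * f j = f j * f i) (i j k l : Fin h) :
    Commute (w f i j) (w f k l) := by
  have h1 : Commute (w f i j) (f k) := comm_w hcomm i j k
  have h2 : Commute (w f i j) (f l) := comm_w hcomm i j l
  exact (h2.inv_right).mul_right h1

/-- the good points are stable under everything that commutes with the `f i` -/
private theorem good_of_comm {y : α} (hy : Function.Injective fun i => f i y) (c : Perm α)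
    (hc : ∀ k, Commute c (f k)) : Function.Injective fun i => f i (c y) := by
  intro i j hij
  apply hy
  have h1 : f i (c y) = f j (c y) := hij
  have h2 : ∀ k, f k (c y) = c (f k y) := fun k => by
    have h3 := DFunLike.congr_fun (hc k).eq y
    simpa [Perm.mul_apply] using h3.symm
  rw [h2, h2] at h1
  exact c.injective h1

private theorem w_apply (i j : Fin h) (y : α) : f j (w f i j y) = f i y := by
  simp [w, Perm.mul_apply]

private theorem w_eq_right {y : α} (hcomm : ∀ i j, f i * f j = f j * f i)
    (hy : Function.Injective fun i => f i y) {i j m : Fin h}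
    (he : w f i j y = w f i m y) : j = m := by
  have h1 := good_of_comm hy (w f i j) (comm_w hcomm i j)
  apply h1
  change f j (w f i j y) = f m (w f i j y)
  rw [w_apply, he, w_apply]

private theorem w_eq_left {y : α} (hy : Function.Injective fun i => f i y) {i j l : Fin h}
    (he : w f i j y = w f l j y) : i = l := by
  apply hy
  change f i y = f l y
  rw [← w_apply i j y, he, w_apply]

/-- the counting lemma -/
private theorem count [Fintype α] [DecidableEq α] (hcomm : ∀ i j, f i * f j = f j * f i)
    (o a : Fin h) (g : Perm α) (hg : ∀ k l, Commute (w f k l) g) (S : Finset (Fin h))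
    (y : Fin h → α) (hy : ∀ m ∈ S, Function.Injective fun i => f i (y m))
    (hr : ∀ m ∈ S, g (y m) = w f a m (y m)) : h * S.card ≤ Fintype.card α := by
  classical
  have hinj : Set.InjOn (fun q : Fin h × Fin h => w f q.1 o (y q.2))
      ((Finset.univ ×ˢ S : Finset (Fin h × Fin h)) : Set (Fin h × Fin h)) := by
    rintro ⟨i, m⟩ hm ⟨i', m'⟩ hm' he
    have hm1 : m ∈ S := by simpa using hm
    have hm1' : m' ∈ S := by simpa using hm'
    have he' : w f i o (y m) = w f i' o (y m') := he
    -- `y m' = c (y m)`
    have hc1 : y m' = ((w f i' o)⁻¹ * w f i o) (y m) := by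
      rw [Perm.mul_apply, he']
      simp
    have hcc : ∀ k l, Commute ((w f i' o)⁻¹ * w f i o) (w f k l) := fun k l =>
      ((comm_ww hcomm i' o k l).inv_left).mul_left (comm_ww hcomm i o k l)
    have hcg : Commute ((w f i' o)⁻¹ * w f i o) g := ((hg i' o).inv_left).mul_left (hg i o)
    have h1 : g (y m') = w f a m (y m') := by
      have h2 : ((w f i' o)⁻¹ * w f i o) (g (y m)) = g (((w f i' o)⁻¹ * w f i o) (y m)) :=
        DFunLike.congr_fun hcg.eq (y m)
      have h3 : ((w f i' o)⁻¹ * w f i o) (w f a m (y m)) =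
          w f a m (((w f i' o)⁻¹ * w f i o) (y m)) := DFunLike.congr_fun (hcc a m).eq (y m)
      rw [hc1, ← h2, ← h3, hr m hm1]
    have h4 : w f a m (y m') = w f a m' (y m') := by rw [← h1, hr m' hm1']
    have h5 : m = m' := w_eq_right hcomm (hy m' hm1') h4
    subst h5
    have h6 : i = i' := w_eq_left (hy m hm1) he'
    rw [h6]
  have h1 := Finset.card_le_card_of_injOn (fun q : Fin h × Fin h => w f q.1 o (y q.2))
    (s := (Finset.univ ×ˢ S : Finset (Fin h × Fin h))) (t := Finset.univ)
    (fun q _ => Finset.mem_univ _) hinj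
  simpa [Finset.card_product] using h1

private theorem conj_w {π : Perm (Fin h)} {κ κ' : Perm α}
    (hk : ∀ i, κ' * f i = f (π i) * κ) (i j : Fin h) (y : α) :
    κ (w f i j y) = w f (π i) (π j) (κ y) := by
  apply (f (π j)).injective
  rw [w_apply]
  have h1 := DFunLike.congr_fun (hk j) (w f i j y)
  have h2 := DFunLike.congr_fun (hk i) y
  rw [Perm.mul_apply, Perm.mul_apply] at h1 h2
  rw [← h1, w_apply, h2]

private theorem good_conj {π : Perm (Fin h)} {κ κ' : Perm α}
    (hk : ∀ i, κ' * f i = f (π i) * κ) {y : α} (hy : Function.Injective fun i => f i y) :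
    Function.Injective fun i => f i (κ y) := by
  intro i j hij
  have h1 : f i (κ y) = f j (κ y) := hij
  have h2 : ∀ k, f k (κ y) = κ' (f (π.symm k) y) := fun k => by
    have h3 := DFunLike.congr_fun (hk (π.symm k)) y
    rw [Perm.mul_apply, Perm.mul_apply, Equiv.apply_symm_apply] at h3
    exact h3.symm
  rw [h2, h2] at h1
  exact π.symm.injective (hy (κ'.injective h1))

private theorem exists_perm (n : ℕ) (u v : Fin n ↪ Fin h) : ∃ π : Perm (Fin h), ∀ i, π (u i) = v i := by
  have hm := Equiv.Perm.isMultiplyPretransitive (Fin h) n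
  obtain ⟨g, hg⟩ := hm.exists_smul_eq u v
  exact ⟨g, fun i => DFunLike.congr_fun hg i⟩

end

theorem star_inj {α : Type*} [Fintype α] [DecidableEq α] {h : ℕ} (hh : 5 ≤ h)
    (f : Fin h → Perm α) (hcomm : ∀ i j, f i * f j = f j * f i)
    (hsym : ∀ π : Perm (Fin h), ∃ κ κ' : Perm α, ∀ i, κ' * f i = f (π i) * κ)
    (hn : Fintype.card α < (h - 1).choose 2) (x : α)
    (hx : Function.Injective (fun i => f i x)) : False := by
  classical
  obtain ⟨r, rfl⟩ : ∃ r, h = r + 5 := ⟨h - 5, by omega⟩
  have hch : (r + 5 - 1).choose 2 = (r + 4) * (r + 3) / 2 := by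
    rw [Nat.choose_two_right]
    rfl
  have hchh : 2 * ((r + 5 - 1).choose 2) ≤ (r + 4) * (r + 3) := by
    rw [hch]; omega
  -- (1)
  have no1 : ∀ (y : α), (Function.Injective fun i => f i y) → ∀ i j m : Fin (r + 5), i ≠ j →
      j ≠ m → i ≠ m → w f i j y ≠ w f j m y := by
    intro y hy i j m hij hjm him he
    have hex : ∀ m' : Fin (r + 5), ∃ y' : α, m' ≠ 0 → m' ≠ 1 →
        (Function.Injective fun i => f i y') ∧ w f 0 1 y' = w f 1 m' y' := by
      intro m'
      by_cases h0 : m' = 0
      · exact ⟨y, fun h => absurd h0 h⟩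
      by_cases h1 : m' = 1
      · exact ⟨y, fun _ h => absurd h1 h⟩
      have hu : Function.Injective ![i, j, m] := by
        intro a b hab
        fin_cases a <;> fin_cases b <;> simp_all
      have hv : Function.Injective ![(0 : Fin (r + 5)), 1, m'] := by
        have h01 : (0 : Fin (r + 5)) ≠ 1 := by simp
        intro a b hab
        fin_cases a <;> fin_cases b <;> simp_all
      obtain ⟨π, hπ⟩ := exists_perm 3 ⟨_, hu⟩ ⟨_, hv⟩
      have e0 : π i = 0 := hπ 0
      have e1 : π j = 1 := hπ 1
      have e2 : π m = m' := hπ 2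
      obtain ⟨κ, κ', hk⟩ := hsym π
      refine ⟨κ y, fun _ _ => ⟨good_conj hk hy, ?_⟩⟩
      have h3 := congrArg κ he
      rwa [conj_w hk, conj_w hk, e0, e1, e2] at h3
    choose y' hy' using hex
    have hc := count hcomm 0 1 (w f 0 1) (fun k l => comm_ww hcomm k l 0 1)
      (Finset.univ \ {0, 1}) y'
      (fun m hm => (hy' m (by intro h0; simp [h0] at hm) (by intro h0; simp [h0] at hm)).1)
      (fun m hm => (hy' m (by intro h0; simp [h0] at hm) (by intro h0; simp [h0] at hm)).2)
    have hcard : (Finset.univ \ {0, 1} : Finset (Fin (r + 5))).card = r + 3 := by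
      rw [Finset.card_sdiff_of_subset (Finset.subset_univ _), Finset.card_univ, Fintype.card_fin,
        Finset.card_pair (by simp)]
      omega
    rw [hcard] at hc
    nlinarith
  -- (2)
  have no2 : ∀ (y : α), (Function.Injective fun i => f i y) → ∀ i j l m : Fin (r + 5), i ≠ j →
      i ≠ l → i ≠ m → j ≠ l → j ≠ m → l ≠ m → w f i j y ≠ w f l m y := by
    intro y hy i j l m hij hil him hjl hjm hlm he
    have hex : ∀ m' : Fin (r + 5), ∃ y' : α, m' ≠ 0 → m' ≠ 1 → m' ≠ 2 →
        (Function.Injective fun i => f i y') ∧ w f 0 1 y' = w f 2 m' y' := by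
      intro m'
      by_cases h0 : m' = 0
      · exact ⟨y, fun h => absurd h0 h⟩
      by_cases h1 : m' = 1
      · exact ⟨y, fun _ h => absurd h1 h⟩
      by_cases h2 : m' = 2
      · exact ⟨y, fun _ _ h => absurd h2 h⟩
      have hu : Function.Injective ![i, j, l, m] := by
        intro a b hab
        fin_cases a <;> fin_cases b <;> simp_all
      have hv : Function.Injective ![(0 : Fin (r + 5)), 1, 2, m'] := by
        have h01 : (0 : Fin (r + 5)) ≠ 1 := by simp
        have v1 : ((1 : Fin (r + 5)) : ℕ) = 1 := Nat.mod_eq_of_lt (show 1 < r + 5 by omega)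
        have v2 : ((2 : Fin (r + 5)) : ℕ) = 2 := Nat.mod_eq_of_lt (show 2 < r + 5 by omega)
        have h02 : (0 : Fin (r + 5)) ≠ 2 := by
          intro h
          have h3 := congrArg Fin.val h
          rw [v2] at h3
          simp at h3
        have h12 : (1 : Fin (r + 5)) ≠ 2 := by
          intro h
          have h3 := congrArg Fin.val h
          rw [v1, v2] at h3
          omega
        intro a b hab
        fin_cases a <;> fin_cases b <;> simp_all
      obtain ⟨π, hπ⟩ := exists_perm 4 ⟨_, hu⟩ ⟨_, hv⟩
      have e0 : π i = 0 := hπ 0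
      have e1 : π j = 1 := hπ 1
      have e2 : π l = 2 := hπ 2
      have e3 : π m = m' := hπ 3
      obtain ⟨κ, κ', hk⟩ := hsym π
      refine ⟨κ y, fun _ _ _ => ⟨good_conj hk hy, ?_⟩⟩
      have h3 := congrArg κ he
      rwa [conj_w hk, conj_w hk, e0, e1, e2, e3] at h3
    choose y' hy' using hex
    have hc := count hcomm 0 2 (w f 0 1) (fun k l => comm_ww hcomm k l 0 1)
      (Finset.univ \ {0, 1, 2}) y'
      (fun m hm => (hy' m (by intro h0; simp [h0] at hm) (by intro h0; simp [h0] at hm)
        (by intro h0; simp [h0] at hm)).1)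
      (fun m hm => (hy' m (by intro h0; simp [h0] at hm) (by intro h0; simp [h0] at hm)
        (by intro h0; simp [h0] at hm)).2)
    have hcard : r + 2 ≤ (Finset.univ \ {0, 1, 2} : Finset (Fin (r + 5))).card := by
      rw [Finset.card_sdiff_of_subset (Finset.subset_univ _), Finset.card_univ, Fintype.card_fin]
      have := Finset.card_le_three (a := (0 : Fin (r + 5))) (b := 1) (c := 2)
      omega
    have hc' : (r + 5) * (r + 2) ≤ Fintype.card α := (Nat.mul_le_mul_left _ hcard).trans hc
    nlinarith
  -- the pairs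
  have hinj : Set.InjOn (fun q : Fin (r + 5) × Fin (r + 5) => w f q.1 q.2 x)
      ((Finset.univ.filter fun q : Fin (r + 5) × Fin (r + 5) => q.1 < q.2 : Finset _) :
        Set (Fin (r + 5) × Fin (r + 5))) := by
    rintro ⟨i, j⟩ h1 ⟨l, m⟩ h2 he
    have hij : i < j := by simpa using h1
    have hlm : l < m := by simpa using h2
    have he' : w f i j x = w f l m x := he
    by_cases hil : i = l
    · subst hil
      rw [w_eq_right hcomm hx he']
    by_cases hjm : j = m
    · subst hjm
      rw [w_eq_left hx he']
    by_cases hjl : j = l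
    · subst hjl
      exact absurd he' (no1 x hx i j m hij.ne hlm.ne (hij.trans hlm).ne)
    by_cases him : i = m
    · subst him
      exact absurd he'.symm (no1 x hx l i j hlm.ne hij.ne (hlm.trans hij).ne)
    exact absurd he' (no2 x hx i j l m hij.ne hil him hjl hjm hlm.ne)
  have hle := Finset.card_le_card_of_injOn
    (fun q : Fin (r + 5) × Fin (r + 5) => w f q.1 q.2 x)
    (s := (Finset.univ.filter fun q : Fin (r + 5) × Fin (r + 5) => q.1 < q.2))
    (t := Finset.univ) (fun q _ => Finset.mem_univ _) hinj
  have hA : (Finset.univ.filter fun q : Fin (r + 5) × Fin (r + 5) => q.1 < q.2).card =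
      (Finset.univ.filter fun q : Fin (r + 5) × Fin (r + 5) => q.2 < q.1).card := by
    refine Finset.card_bij (fun q _ => (q.2, q.1)) ?_ ?_ ?_
    · intro q hq
      simpa using hq
    · rintro ⟨a, b⟩ _ ⟨c, d⟩ _ he
      simp only [Prod.mk.injEq] at he
      rw [he.1, he.2]
    · rintro ⟨a, b⟩ hq
      exact ⟨(b, a), by simpa using hq, rfl⟩
  have hB : (Finset.univ.filter fun q : Fin (r + 5) × Fin (r + 5) => q.1 < q.2).card +
      (Finset.univ.filter fun q : Fin (r + 5) × Fin (r + 5) => q.2 < q.1).card =
      (Finset.univ : Finset (Fin (r + 5))).offDiag.card := by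
    rw [← Finset.card_union_of_disjoint]
    · congr 1
      ext ⟨a, b⟩
      simp [lt_or_lt_iff_ne]
    · rw [Finset.disjoint_left]
      rintro ⟨a, b⟩ h1 h2
      simp only [Finset.mem_filter, Finset.mem_univ, true_and] at h1 h2
      exact lt_asymm h1 h2
  rw [Finset.offDiag_card, Finset.card_univ, Fintype.card_fin] at hB
  have hC : (r + 5) * (r + 5) - (r + 5) = (r + 5) * (r + 4) := by
    rw [← Nat.mul_sub_one]
    rfl
  rw [hC] at hB
  rw [Finset.card_univ] at hle
  nlinarith

end Pool.Agent.LR.Grp
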