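import Pool.Agent.LR.FamB
import Pool.Agent.LR.FamC
import Pool.Agent.LR.SysRel
import Pool.Agent.LR.StarA
import Pool.Agent.LR.StarB

/-!
# LR FamD: the structure of the systems on few points

`Sys.twist`: for `n < C (k / 2 - 1) 2` (`k ≥ 14`) a system `S` in `Perm (Fin n)` is `S (sw i) a = K (a+1) * θ i * (K a)⁻¹`
with braid generators `θ i` whose far members have disjoint supports.

`Sys.blocks`: the description of the `θ i`.

`Sys.q_all2`: for `k ≥ 24`, `n < 2 * k` the products `S (sw i) (a + 1) * S (sw i) a` do not depend on `i`.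
-/

set_option autoImplicit false

namespace Pool.Agent.LR

open Equiv

namespace Fam

variable {α : Type*} [Fintype α] [DecidableEq α] {m : ℕ} {s : ℕ → ℤ → Perm α}

/-- at every point and every level at most one member of the even family deviates -/
theorem Ext.even_dev (h : Ext m s) {q : ℕ} (hq : 2 * q < m) (hq4 : 4 ≤ q) (hn : Fintype.card α < q.choose 2)
    (a : ℤ) (x : α) : ∃ i0 : Fin (q + 1), ∀ i j : Fin (q + 1), i ≠ i0 → j ≠ i0 →
      s (2 * (i : ℕ)) a x = s (2 * (j : ℕ)) a x := by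
  obtain ⟨u, hu⟩ : ∃ u : ℤ → Perm α, u = s (2 * q) := ⟨_, rfl⟩
  have hcomm : ∀ i j : Fin (q + 1), (u a)⁻¹ * s (2 * (i : ℕ)) a * ((u a)⁻¹ * s (2 * (j : ℕ)) a) =
      (u a)⁻¹ * s (2 * (j : ℕ)) a * ((u a)⁻¹ * s (2 * (i : ℕ)) a) := by
    intro i j
    have hi := i.2
    have hj := j.2
    have h1 : ∀ p : ℕ, p ≤ q → s (2 * p) (a + 1) * u a = u (a + 1) * s (2 * p) a := by
      intro p hp
      rw [hu]
      exact h.self (j := 2 * p) (l := 2 * q) (by omega) hq (by omega) a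
    have h2 : ∀ p : ℕ, p ≤ q → s (2 * p) a * (u a)⁻¹ = (u (a + 1))⁻¹ * s (2 * p) (a + 1) := by
      intro p hp
      rw [mul_inv_eq_iff_eq_mul, mul_assoc, eq_inv_mul_iff_mul_eq]
      exact (h1 p hp).symm
    have h3 : s (2 * (i : ℕ)) (a + 1) * s (2 * (j : ℕ)) a = s (2 * (j : ℕ)) (a + 1) * s (2 * (i : ℕ)) a :=
      h.self (j := 2 * (i : ℕ)) (l := 2 * (j : ℕ)) (by omega) (by omega) (by omega) a
    calc (u a)⁻¹ * s (2 * (i : ℕ)) a * ((u a)⁻¹ * s (2 * (j : ℕ)) a)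
        = (u a)⁻¹ * (s (2 * (i : ℕ)) a * (u a)⁻¹) * s (2 * (j : ℕ)) a := by group
      _ = (u a)⁻¹ * (u (a + 1))⁻¹ * (s (2 * (i : ℕ)) (a + 1) * s (2 * (j : ℕ)) a) := by
          rw [h2 i (by omega)]; group
      _ = (u a)⁻¹ * (u (a + 1))⁻¹ * (s (2 * (j : ℕ)) (a + 1) * s (2 * (i : ℕ)) a) := by rw [h3]
      _ = (u a)⁻¹ * (s (2 * (j : ℕ)) a * (u a)⁻¹) * s (2 * (i : ℕ)) a := by
          rw [h2 j (by omega)]; group
      _ = _ := by group
  have hsym : ∀ π : Perm (Fin (q + 1)), ∃ κ κ' : Perm α, ∀ i : Fin (q + 1),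
      κ' * ((u a)⁻¹ * s (2 * (i : ℕ)) a) = (u a)⁻¹ * s (2 * (π i : ℕ)) a * κ := by
    intro π
    obtain ⟨κ, κ', hk⟩ := h.sim_level (h.sim_perm hq π) (l := 2 * q)
      ⟨hq, fun p => by
        have hp := (π p).2
        show 2 * (π p : ℕ) < m ∧ (2 * (π p : ℕ) = 2 * q ∨ 2 * (π p : ℕ) + 2 ≤ 2 * q ∨ 2 * q + 2 ≤ 2 * (π p : ℕ))
        omega⟩ a
    refine ⟨κ, (u a)⁻¹ * κ' * u a, fun i => ?_⟩
    have h1 := hk i
    calc (u a)⁻¹ * κ' * u a * ((u a)⁻¹ * s (2 * (i : ℕ)) a) = (u a)⁻¹ * (κ' * s (2 * (i : ℕ)) a) := by group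
      _ = _ := by rw [h1]; group
  have hn' : Fintype.card α < (q + 1 - 1).choose 2 := by simpa using hn
  rcases Grp.star_type (by omega) (fun i : Fin (q + 1) => (u a)⁻¹ * s (2 * (i : ℕ)) a) hsym hn' x with
    ⟨i0, h1⟩ | h1
  · exact ⟨i0, fun i j hi hj => (u a)⁻¹.injective (h1 i j hi hj)⟩
  · exact (Grp.star_inj (by omega) (fun i : Fin (q + 1) => (u a)⁻¹ * s (2 * (i : ℕ)) a) hcomm hsym hn' x h1).elim

theorem Ext.quad (h : Ext m s) {q : ℕ} (hq : 2 * q < m) (hq4 : 4 ≤ q) (hn : Fintype.card α < q.choose 2)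
    (a : ℤ) (x : α) : QV m (fun i => s i a x) := by
  intro i j l n hij hjl hln hnm
  obtain ⟨κ, κ', hk⟩ := h.sim_level (h.sim_four hij hjl hln hnm) (l := 0)
    ⟨by omega, fun p => by fin_cases p <;> simp <;> omega⟩ a
  obtain ⟨i0, hi0⟩ := h.even_dev hq hq4 hn a (κ x)
  have e0 := congrArg (fun g : Perm α => g x) (hk 0)
  have e1 := congrArg (fun g : Perm α => g x) (hk 1)
  have e2 := congrArg (fun g : Perm α => g x) (hk 2)
  have e3 := congrArg (fun g : Perm α => g x) (hk 3)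
  simp only [Perm.mul_apply, Matrix.cons_val_zero, Matrix.cons_val_one, Matrix.cons_val] at e0 e1 e2 e3
  have key : ∀ p p' : ℕ, p < 4 → p' < 4 → p ≠ (i0 : ℕ) → p' ≠ (i0 : ℕ) → s (2 * p) a (κ x) = s (2 * p') a (κ x) := by
    intro p p' hp hp' h1 h2
    exact hi0 ⟨p, by omega⟩ ⟨p', by omega⟩ (fun h3 => h1 (by rw [← h3])) (fun h3 => h2 (by rw [← h3]))
  unfold Q4
  by_cases c0 : (i0 : ℕ) = 0
  · left
    have k1 := key 1 2 (by omega) (by omega) (by omega) (by omega)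
    have k2 := key 2 3 (by omega) (by omega) (by omega) (by omega)
    exact ⟨κ'.injective (by rw [e1, e2]; exact k1), κ'.injective (by rw [e2, e3]; exact k2)⟩
  · by_cases c1 : (i0 : ℕ) = 1
    · right; left
      have k1 := key 0 2 (by omega) (by omega) (by omega) (by omega)
      have k2 := key 2 3 (by omega) (by omega) (by omega) (by omega)
      exact ⟨κ'.injective (by rw [e0, e2]; exact k1), κ'.injective (by rw [e2, e3]; exact k2)⟩
    · by_cases c2 : (i0 : ℕ) = 2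
      · right; right; left
        have k1 := key 0 1 (by omega) (by omega) (by omega) (by omega)
        have k2 := key 1 3 (by omega) (by omega) (by omega) (by omega)
        exact ⟨κ'.injective (by rw [e0, e1]; exact k1), κ'.injective (by rw [e1, e3]; exact k2)⟩
      · right; right; right
        have k1 := key 0 1 (by omega) (by omega) (by omega) (by omega)
        have k2 := key 1 2 (by omega) (by omega) (by omega) (by omega)
        exact ⟨κ'.injective (by rw [e0, e1]; exact k1), κ'.injective (by rw [e1, e2]; exact k2)⟩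

end Fam

open Fam

variable {k n : ℕ} {d : Perm (Fin k) → ℤ} {S : Perm (Fin k) → ℤ → Perm (Fin n)}

theorem Sys.ext (h : Sys d S) : Ext (k - 1) (fun i a => S (sw i) a) where
  far i j hij hj a := h.far hij (by omega) a
  br i hi a := h.braid (by omega) a

/-- the structure of a system on few points -/
theorem Sys.twist (hk : 14 ≤ k) (hn : n < (k / 2 - 1).choose 2) (h : Sys d S) :
    ∃ (K : ℤ → Perm (Fin n)) (θ : ℕ → Perm (Fin n)), K 0 = 1 ∧
      (∀ i, i + 1 < k → ∀ a, S (sw i) a = K (a + 1) * θ i * (K a)⁻¹) ∧ Dj (k - 1) θ := by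
  obtain ⟨K, θ, h1, h2, h3, h4⟩ := h.ext.struct (by omega) (fun a x =>
    h.ext.quad (q := k / 2 - 1) (by omega) (by omega) (by simpa using hn) a x)
  exact ⟨K, θ, h1, fun i hi a => h2 i (by omega) a, ⟨h3, by omega, h4⟩⟩

/-- the structure of a system on few points, with the blocks -/
theorem Sys.blocks (hk : 14 ≤ k) (hn : n < (k / 2 - 1).choose 2) (h : Sys d S) :
    ∃ (K : ℤ → Perm (Fin n)) (θ : ℕ → Perm (Fin n)) (u : ℕ) (τ : Perm (Fin u)) (e : Fin k → Fin u → Fin n),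
      K 0 = 1 ∧ (∀ i, i + 1 < k → ∀ a, S (sw i) a = K (a + 1) * θ i * (K a)⁻¹) ∧ Dj (k - 1) θ ∧
      (∀ i j x y, e i x = e j y → i = j ∧ x = y) ∧
      (∀ (i : ℕ) (hi : i + 1 < k) (x : Fin u), θ i (e ⟨i, by omega⟩ x) = e ⟨i + 1, hi⟩ x ∧
        θ i (e ⟨i + 1, hi⟩ x) = e ⟨i, by omega⟩ (τ x)) ∧
      (∀ (i : ℕ) (_ : i + 1 < k) (j : Fin k), (j : ℕ) ≠ i → (j : ℕ) ≠ i + 1 → ∀ x, θ i (e j x) = e j x) ∧
      (∀ y, (∀ j x, y ≠ e j x) → ∀ i, i + 1 < k → θ i y = y) := by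
  obtain ⟨K, θ, h1, h2, h3⟩ := h.twist hk hn
  obtain ⟨τ, e, e1, e2, e3, e4⟩ := h3.blocks
  classical
  obtain ⟨c⟩ : Nonempty (Fin (Fintype.card (V (k - 1) θ 0)) ≃ V (k - 1) θ 0) := ⟨(Fintype.equivFin _).symm⟩
  refine ⟨K, θ, Fintype.card (V (k - 1) θ 0), c.symm.permCongr τ, fun j x => e j (c x), h1, h2, h3, ?_, ?_, ?_, ?_⟩
  · intro i j x y hxy
    have := e1 i (by omega) j (by omega) _ _ hxy
    exact ⟨Fin.ext this.1, c.injective this.2⟩
  · intro i hi x
    have := e2 i (by omega) (c x)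
    refine ⟨this.1, ?_⟩
    show θ i (e (i + 1) (c x)) = e i (c (c.symm.permCongr τ x))
    rw [this.2, Equiv.permCongr_apply]
    simp
  · intro i hi j h5 h6 x
    exact e3 i (by omega) j (by omega) (by omega) (by omega) (c x)
  · intro y hy i hi
    refine e4 y (fun i hi x => ?_) i (by omega)
    have := hy ⟨i, by omega⟩ (c.symm x)
    simpa using this

/-- range `n < 2 k`: all products of neighbouring levels agree -/
theorem Sys.q_all2 (hk : 24 ≤ k) (hn : n < 2 * k) (h : Sys d S) (a : ℤ) (i j : ℕ) (hi : i + 1 < k) (hj : j + 1 < k) :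
    S (sw i) (a + 1) * S (sw i) a = S (sw j) (a + 1) * S (sw j) a := by
  have hc : n < (k / 2 - 1).choose 2 := by
    obtain ⟨q, hq⟩ : ∃ q, k / 2 - 1 = q := ⟨_, rfl⟩
    rw [hq, Nat.choose_two_right]
    have h2 : n < 4 * q + 6 := by omega
    rw [Nat.lt_div_iff_mul_lt (by norm_num)]
    obtain ⟨t, rfl⟩ : ∃ t, q = t + 11 := ⟨q - 11, by omega⟩
    have h3 : (t + 11) * (t + 11 - 1) = t * t + 21 * t + 110 := by
      rw [show t + 11 - 1 = t + 10 by omega]; ring
    rw [h3]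
    have h4 : 0 ≤ t * t := Nat.zero_le _
    omega
  obtain ⟨K, θ, u, τ, e, _, h2, _, e1, e2, e3, e4⟩ := h.blocks (by omega) hc
  have hu : u ≤ 1 := by
    have h5 : Function.Injective (fun p : Fin k × Fin u => e p.1 p.2) := by
      rintro ⟨i, x⟩ ⟨j, y⟩ hxy
      have := e1 i j x y hxy
      rw [Prod.mk.injEq]; exact this
    have h6 := Fintype.card_le_of_injective _ h5
    rw [Fintype.card_prod, Fintype.card_fin, Fintype.card_fin, Fintype.card_fin] at h6
    by_contra h7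
    have h8 : k * 2 ≤ k * u := Nat.mul_le_mul_left k (by omega)
    omega
  have hτ : ∀ x, τ x = x := fun x => by
    have : Subsingleton (Fin u) := ⟨fun a b => Fin.ext (by omega)⟩
    exact Subsingleton.elim _ _
  have key : ∀ i, i + 1 < k → θ i * θ i = 1 := by
    intro i hi
    ext y
    rw [Perm.mul_apply, Perm.one_apply]
    by_cases hy : ∃ j x, y = e j x
    · obtain ⟨j, x, rfl⟩ := hy
      by_cases h5 : (j : ℕ) = i
      · have h7 : j = ⟨i, by omega⟩ := Fin.ext h5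
        rw [h7, (e2 i hi x).1, (e2 i hi x).2, hτ]
      · by_cases h6 : (j : ℕ) = i + 1
        · have h7 : j = ⟨i + 1, hi⟩ := Fin.ext h6
          rw [h7, (e2 i hi x).2, hτ, (e2 i hi x).1]
        · rw [e3 i hi j h5 h6, e3 i hi j h5 h6]
    · push Not at hy
      rw [e4 y hy i hi, e4 y hy i hi]
  have fin : ∀ i, i + 1 < k → S (sw i) (a + 1) * S (sw i) a = K (a + 1 + 1) * (K a)⁻¹ := by
    intro i hi
    rw [h2 i hi, h2 i hi]
    calc K (a + 1 + 1) * θ i * (K (a + 1))⁻¹ * (K (a + 1) * θ i * (K a)⁻¹)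
        = K (a + 1 + 1) * (θ i * θ i) * (K a)⁻¹ := by group
      _ = _ := by rw [key i hi]; group
  rw [fin i hi, fin j hj]

end Pool.Agent.LR
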