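import Pool.Agent.LR.EGc
import Pool.Agent.LR.FamD

/-!
# LR EGe: the systems on fewer than `2 ^ (k / 6)` points, `k ≥ 56`

`BB k` is this bound; `Sys.expo` is the structure theorem.
-/

set_option autoImplicit false

namespace Pool.Agent.LR.Exp

open Equiv Fam Pool.Agent.H60.OC

/-- the data on the generators `θ i` that are used in the function theory -/
structure ExpD {α : Type*} (k : ℕ) (θ : ℕ → Perm α) : Prop where
  br : Grp.Br (k - 1) θ
  two : ∀ x y, ∃ i, i + 1 < k ∧ θ i x = x ∧ θ i y = y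
  min : ∀ x, (¬ ∀ i, i + 1 < k → θ i x = x) → ∃ c, 1 ≤ c ∧ 4 * c + 12 ≤ k ∧ ∃ g ∈ HH k θ, g x ∈ Om k θ c ∧
    ∀ g' ∈ HH k θ, g' (g x) ∉ Om k θ (c - 1)
  T : ∀ C, 1 ≤ C → 4 * C + 28 ≤ 3 * k → ∀ x ∈ Om k θ C, θ (C - 1) (θ (C - 1) x) ∈ Om k θ C

/-! ### binomial coefficients -/

theorem two_pow_le_choose {N l : ℕ} (h : 2 * l ≤ N) : 2 ^ l ≤ N.choose l := by
  have h1 : ∀ l : ℕ, 2 ^ l ≤ (2 * l).choose l := by
    intro l
    induction l with
    | zero => simp
    | succ l ih =>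
      have h2 := Nat.succ_mul_centralBinom_succ l
      rw [Nat.centralBinom_eq_two_mul_choose, Nat.centralBinom_eq_two_mul_choose] at h2
      have h3 : (l + 1) * 2 ^ (l + 1) ≤ (l + 1) * (2 * (l + 1)).choose (l + 1) := by
        rw [h2, pow_succ]
        nlinarith
      exact Nat.le_of_mul_le_mul_left h3 (by omega)
  exact (h1 l).trans (Nat.choose_le_choose l h)

/-- raising both entries by one -/
theorem choose_both {N a c : ℕ} (h : c * (a + 1) ≤ N + 1) : c * N.choose a ≤ (N + 1).choose (a + 1) := by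
  have h1 := Nat.add_one_mul_choose_eq N a
  have h2 : (a + 1) * (c * N.choose a) ≤ (a + 1) * (N + 1).choose (a + 1) := by
    calc (a + 1) * (c * N.choose a) = c * (a + 1) * N.choose a := by ring
      _ ≤ (N + 1) * N.choose a := Nat.mul_le_mul_right _ h
      _ = (a + 1) * (N + 1).choose (a + 1) := by rw [h1]; ring
  exact Nat.le_of_mul_le_mul_left h2 (by omega)

/-- raising the upper entry -/
theorem choose_upper {N a : ℕ} : ∀ n, N.choose (a + 1) + n * N.choose a ≤ (N + n).choose (a + 1) := by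
  intro n
  induction n with
  | zero => simp
  | succ n ih =>
    rw [← Nat.add_assoc, Nat.choose_succ_succ]
    have h1 : N.choose a ≤ (N + n).choose a := Nat.choose_le_choose a (by omega)
    have h2 : N.choose (a + 1) + (n + 1) * N.choose a = N.choose a + (N.choose (a + 1) + n * N.choose a) := by ring
    rw [h2]
    exact Nat.add_le_add h1 ih

theorem step10 {N a : ℕ} (h1 : 2 * (N - a) ≤ 25 * (a + 1)) (h2 : 9 * (a + 2) ≤ N + 11) :
    16 * N.choose (a + 1) ≤ (N + 11).choose (a + 2) := by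
  have h3 := choose_both (N := N + 10) (a := a + 1) (c := 9) (by omega)
  have h4 := choose_upper (N := N) (a := a) 10
  have h5 := Nat.choose_succ_right_eq N a
  -- `C (N, a + 1) (a + 1) = C (N, a) (N - a)`
  have h6 : 2 * N.choose (a + 1) ≤ 25 * N.choose a := by
    have h7 : (a + 1) * (2 * N.choose (a + 1)) ≤ (a + 1) * (25 * N.choose a) := by
      calc (a + 1) * (2 * N.choose (a + 1)) = 2 * (N.choose (a + 1) * (a + 1)) := by ring
        _ = N.choose a * (2 * (N - a)) := by rw [h5]; ring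
        _ ≤ N.choose a * (25 * (a + 1)) := Nat.mul_le_mul_left _ h1
        _ = _ := by ring
    exact Nat.le_of_mul_le_mul_left h7 (by omega)
  have h8 : (N + 10 + 1).choose (a + 1 + 1) = (N + 11).choose (a + 2) := rfl
  rw [h8] at h3
  omega

theorem num_l : ∀ r : ℕ, 10 ≤ r → 2 ^ r ≤ (3 * r - 1 - (r - 1) / 4).choose ((r - 1) / 4 + 1) := by
  intro r
  induction r using Nat.strong_induction_on with
  | _ r ih =>
    intro hr
    by_cases h : r < 14
    · interval_cases r <;> norm_num only <;> rw [Nat.choose_eq_descFactorial_div_factorial] <;> decide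
    · obtain ⟨r', rfl⟩ : ∃ r', r = r' + 4 := ⟨r - 4, by omega⟩
      have h1 := ih r' (by omega) (by omega)
      obtain ⟨a, ha⟩ : ∃ a, (r' - 1) / 4 = a := ⟨_, rfl⟩
      rw [ha] at h1
      rw [show (r' + 4 - 1) / 4 = a + 1 by omega, show 3 * (r' + 4) - 1 - (a + 1) = 3 * r' - 1 - a + 11 by omega]
      have h2 := step10 (N := 3 * r' - 1 - a) (a := a) (by omega) (by omega)
      calc 2 ^ (r' + 4) = 16 * 2 ^ r' := by ring
        _ ≤ 16 * (3 * r' - 1 - a).choose (a + 1) := Nat.mul_le_mul_left _ h1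
        _ ≤ _ := h2

theorem vand (N M a b : ℕ) : N.choose a * M.choose b ≤ (N + M).choose (a + b) := by
  rw [Nat.add_choose_eq]
  have h : ((a, b) : ℕ × ℕ) ∈ Finset.HasAntidiagonal.antidiagonal (a + b) := by simp
  exact Finset.single_le_sum (f := fun ij : ℕ × ℕ => N.choose ij.1 * M.choose ij.2) (fun _ _ => Nat.zero_le _) h

theorem num_s : ∀ r : ℕ, 10 ≤ r → 2 ^ r ≤ (2 * r - 2 - (r - 1) / 4).choose ((r - (r - 1) / 4) / 2) := by
  intro r
  induction r using Nat.strong_induction_on with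
  | _ r ih =>
    intro hr
    by_cases h : r < 18
    · interval_cases r <;> norm_num only <;> rw [Nat.choose_eq_descFactorial_div_factorial] <;> decide
    · obtain ⟨r', rfl⟩ : ∃ r', r = r' + 8 := ⟨r - 8, by omega⟩
      have h1 := ih r' (by omega) (by omega)
      obtain ⟨l, hl⟩ : ∃ l, (r' - 1) / 4 = l := ⟨_, rfl⟩
      obtain ⟨a, ha⟩ : ∃ a, (r' - l) / 2 = a := ⟨_, rfl⟩
      rw [hl, ha] at h1
      rw [show (r' + 8 - 1) / 4 = l + 2 by omega, show (r' + 8 - (l + 2)) / 2 = a + 3 by omega,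
        show 2 * (r' + 8) - 2 - (l + 2) = 2 * r' - 2 - l + 14 by omega]
      have h2 := vand (2 * r' - 2 - l) 14 a 3
      have h3 : 256 ≤ (14 : ℕ).choose 3 := by
        rw [Nat.choose_eq_descFactorial_div_factorial]
        decide
      calc 2 ^ (r' + 8) = 2 ^ r' * 256 := by ring
        _ ≤ (2 * r' - 2 - l).choose a * (14 : ℕ).choose 3 := Nat.mul_le_mul h1 h3
        _ ≤ _ := h2

theorem pow_le_choose_mid {N l : ℕ} (h : 2 * (l + 1) ≤ N) : 2 * 3 ^ l ≤ N.choose (l + 1) := by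
  have h1 : ∀ l : ℕ, 2 * 3 ^ l ≤ (2 * (l + 1)).choose (l + 1) := by
    intro l
    induction l with
    | zero => decide
    | succ l ih =>
      have h2 := Nat.succ_mul_centralBinom_succ (l + 1)
      rw [Nat.centralBinom_eq_two_mul_choose, Nat.centralBinom_eq_two_mul_choose] at h2
      have h3 : (l + 1 + 1) * (2 * 3 ^ (l + 1)) ≤ (l + 1 + 1) * (2 * (l + 1 + 1)).choose (l + 1 + 1) := by
        rw [h2, pow_succ]
        nlinarith
      exact Nat.le_of_mul_le_mul_left h3 (by omega)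
  exact (h1 l).trans (Nat.choose_le_choose _ h)

theorem pow_compare (k : ℕ) : 2 ^ (k / 6) ≤ 3 ^ (k / 8 + 2) := by
  induction k using Nat.strong_induction_on with
  | _ k ih =>
    by_cases h : k < 24
    · have h1 : k / 6 ≤ 3 := by omega
      calc 2 ^ (k / 6) ≤ 2 ^ 3 := Nat.pow_le_pow_right (by norm_num) h1
        _ ≤ 3 ^ 2 := by norm_num
        _ ≤ 3 ^ (k / 8 + 2) := Nat.pow_le_pow_right (by norm_num) (by omega)
    · obtain ⟨k', rfl⟩ : ∃ k', k = k' + 24 := ⟨k - 24, by omega⟩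
      have h1 := ih k' (by omega)
      rw [show (k' + 24) / 6 = k' / 6 + 4 by omega, show (k' + 24) / 8 + 2 = k' / 8 + 2 + 3 by omega, pow_add, pow_add 3]
      exact Nat.mul_le_mul h1 (by norm_num)

/-! ### the structure of the systems -/

/-- the bound -/
def BB (k : ℕ) : ℕ := 2 ^ (k / 6)

variable {k : ℕ} {α : Type} [Fintype α] [DecidableEq α] {d : Perm (Fin k) → ℤ} {S : Perm (Fin k) → ℤ → Perm α}

omit [Fintype α] [DecidableEq α] in
theorem sys_ext (h : Sys d S) : Ext (k - 1) (fun i a => S (sw i) a) where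
  far i j hij hj a := h.far hij (by omega) a
  br i hi a := h.braid (by omega) a

theorem exists_param (hk : 56 ≤ k) {n : ℕ} (hn : n < BB k) :
    ∃ r s₀ l q, n < 2 ^ r ∧ n < (q - r).choose (s₀ + 1) ∧ r + 3 * s₀ ≤ q ∧ 2 * (r + s₀) ≤ q ∧
      n < (q + 1).choose (l + 1) ∧ 2 * l + 2 ≤ q ∧ 2 * (q + l + 1) < k - 1 ∧ 8 * l + 12 ≤ k := by
  unfold BB at hn
  by_cases hk' : k < 60
  · rw [show k / 6 = 9 by omega] at hn
    refine ⟨9, 3, 2, 24, hn, hn.trans_le ?_, by omega, by omega, hn.trans_le ?_, by omega, by omega, by omega⟩ <;>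
      rw [Nat.choose_eq_descFactorial_div_factorial] <;> decide
  · obtain ⟨r, hr⟩ : ∃ r, r = k / 6 := ⟨_, rfl⟩
    rw [← hr] at hn
    have h1 := num_l r (by omega)
    have h2 := num_s r (by omega)
    refine ⟨r, (r - (r - 1) / 4) / 2 - 1, (r - 1) / 4, 3 * r - 2 - (r - 1) / 4, hn, hn.trans_le ?_, by omega, by omega,
      hn.trans_le ?_, by omega, by omega, by omega⟩
    · rw [show 3 * r - 2 - (r - 1) / 4 - r = 2 * r - 2 - (r - 1) / 4 by omega,
        show (r - (r - 1) / 4) / 2 - 1 + 1 = (r - (r - 1) / 4) / 2 by omega]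
      exact h2
    · rw [show 3 * r - 2 - (r - 1) / 4 + 1 = 3 * r - 1 - (r - 1) / 4 by omega]
      exact h1

/-- the systems on fewer than `BB k` points -/
theorem Sys.expo' (hk : 56 ≤ k) (hα : Fintype.card α < BB k) (h : Sys d S) :
    ∃ (K : ℤ → Perm α) (θ : ℕ → Perm α), K 0 = 1 ∧
      (∀ i, i + 1 < k → ∀ a, S (sw i) a = K (a + 1) * θ i * (K a)⁻¹) ∧ Grp.Br (k - 1) θ ∧
      (∀ (x : α) (E : Finset ℕ), FarF (k - 1) E → 8 * (E.filter fun i => θ i x ≠ x).card + 12 ≤ k) ∧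
      (∀ C, 1 ≤ C → 4 * C + 28 ≤ 3 * k → ∀ x ∈ Om k θ C,
        θ C (θ (C - 1) (θ (C - 1) x)) = θ (C - 1) (θ (C - 1) x)) := by
  obtain ⟨r, s₀, l, q, g1, g2, g3, g4, g5, g6, g7, g8⟩ := exists_param hk hα
  obtain ⟨K, θ, h1, h2, h3, h4⟩ := structE (sys_ext h) g1 g2 g3 g4 g5 g6 g7
  refine ⟨K, θ, h1, fun i hi a => h2 i (by omega) a, h3, fun x E hE => ?_, fun C hC hC' x hx => ?_⟩
  · have := h4 x E hE
    omega
  · refine tOmega h3 (l := k / 8 + 3) hC (by omega) ?_ hx
    refine hα.trans_le ?_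
    have h5 := pow_le_choose_mid (N := k - C) (l := k / 8 + 2) (by omega)
    have h6 := pow_compare k
    unfold BB
    have h7 : k / 8 + 2 + 1 = k / 8 + 3 := rfl
    rw [h7] at h5
    omega

/-- the systems on fewer than `BB k` points, in the form used for several factors -/
theorem Sys.expo (hk : 56 ≤ k) (hα : Fintype.card α < BB k) (h : Sys d S) :
    ∃ (K : ℤ → Perm α) (θ : ℕ → Perm α), K 0 = 1 ∧
      (∀ i, i + 1 < k → ∀ a, S (sw i) a = K (a + 1) * θ i * (K a)⁻¹) ∧ Grp.Br (k - 1) θ ∧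
      (∀ (x : α) (E : Finset ℕ), FarF (k - 1) E → 8 * (E.filter fun i => θ i x ≠ x).card + 12 ≤ k) ∧
      (∀ C, 1 ≤ C → C ≤ 3 * ((k - 12) / 4) + 2 → ∀ x ∈ Om k θ C,
        θ C (θ (C - 1) (θ (C - 1) x)) = θ (C - 1) (θ (C - 1) x)) := by
  obtain ⟨K, θ, h1, h2, h3, h4, h5⟩ := Sys.expo' hk hα h
  exact ⟨K, θ, h1, h2, h3, h4, fun C hC hC' x hx => h5 C hC (by omega) x hx⟩

omit [Fintype α] in
/-- from the far bound to the data used in the function theory -/
theorem expD_of {θ : ℕ → Perm α} (hk : 56 ≤ k) (h3 : Grp.Br (k - 1) θ)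
    (h4 : ∀ (x : α) (E : Finset ℕ), FarF (k - 1) E → 8 * (E.filter fun i => θ i x ≠ x).card + 12 ≤ k)
    (h5 : ∀ C, 1 ≤ C → 4 * C + 28 ≤ 3 * k → ∀ x ∈ Om k θ C,
      θ C (θ (C - 1) (θ (C - 1) x)) = θ (C - 1) (θ (C - 1) x)) : ExpD k θ := by
  have h4' : ∀ (x : α) (E : Finset ℕ), FarF (k - 1) E → (E.filter fun i => θ i x ≠ x).card ≤ (k - 12) / 8 := by
    intro x E hE
    have := h4 x E hE
    omega
  refine ⟨h3, ?_, ?_, ?_⟩
  · exact fun x y => two_fix (t := (k - 12) / 8) (Q := 2 * ((k - 12) / 8) + 3) (by omega) (by omega) h4' x y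
  · intro x hx
    obtain ⟨c, hc1, hc2, g, hg, hg1, hg2⟩ := exists_min (t := (k - 12) / 8) (exists_om h3 h4' x) hx
    exact ⟨c, hc1, by omega, g, hg, hg1, hg2⟩
  · intro C hC hC' x hx i hi hki
    rcases eq_or_lt_of_le hi with rfl | h1
    · exact h5 C hC hC' x hx
    · have h2 := h3.comm (C - 1) i (by omega) (by omega)
      rw [← comm_app h2, ← comm_app h2, hx i hi hki]

end Pool.Agent.LR.Exp
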