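import Pool.Agent.LR.ETop
import Pool.Agent.LR.EGe

/-!
# LR EFin: all ranges together
-/

set_option autoImplicit false

open Topology Filter Polynomial

noncomputable section

namespace Pool.Agent.LR

open Pool.Agent.H60.OC (Pr NN nm zc SG MF IsRoots vd poly HoloOn)

/-- The linear and quadratic range for `k < 56`, the exponential range for `56 ≤ k`. -/
theorem all_factors {k n r : ℕ} (hk : 11 ≤ k) (hkn : k < n) {f : (Fin k → ℂ) → (Fin n → ℂ)}
    (hmap : Set.MapsTo f (SG k) (SG n)) (hf : HoloOn (SG k) f) (m : Fin r → ℕ)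
    (hm : ∀ t, m t < if 56 ≤ k then 2 ^ (k / 6) else max (2 * k - 8) ((k / 2 - 1).choose 2))
    (h : (t : Fin r) → (Fin k → ℂ) → (Fin (m t) → ℂ)) (hc : ∀ t, ContinuousOn (h t) (SG k))
    (hp : ∀ z ∈ SG k, poly (f z) = ∏ t, poly (h t z)) : ∀ z ∈ SG k, ∀ z' ∈ SG k, f z = f z' := by
  by_cases hk1 : 56 ≤ k
  · rw [if_pos hk1] at hm
    refine exp_factors (by omega) hkn hmap hf m (fun t S hS => ?_) h hc hp
    obtain ⟨K, θ, -, h3, h4, h5, h6⟩ := Exp.Sys.expo hk1 (α := Fin (m t))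
      (by rw [Fintype.card_fin]; exact hm t) hS
    exact ⟨K, θ, h3, ⟨h4, h5, h6⟩⟩
  · rw [if_neg hk1] at hm
    exact max_factors hk hkn hmap hf m hm h hc hp

end Pool.Agent.LR
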