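import Pool.Agent.LR.StarA

/-!
# LR EGa: the exponential counting lemma

`ψ p` (`p : Fin h`) commuting permutations of a finite set `α` such that every permutation of the indices is induced by the
conjugation with a permutation of `α`.  If `card α < 2 ^ r` and `card α < C (h - r) (s₀ + 1)`, then at every point all but at most
`r - 1 + s₀` of the `ψ p` have the same value.
-/

set_option autoImplicit false

open Equiv

namespace Pool.Agent.LR.Exp

theorem choose_mono_half {N a c : ℕ} (h1 : a ≤ c) (hc : c ≤ N / 2) : N.choose a ≤ N.choose c := by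
  induction c, h1 using Nat.le_induction with
  | base => exact le_rfl
  | succ d hd ih =>
    exact (ih (by omega)).trans (Nat.choose_le_succ_of_lt_half_left (by omega))

theorem choose_mono_mid {N a c : ℕ} (h1 : a ≤ c) (h2 : c + a ≤ N) : N.choose a ≤ N.choose c := by
  rcases Nat.lt_or_ge (N / 2) c with h | h
  · rw [← Nat.choose_symm (show c ≤ N by omega)]
    exact choose_mono_half (by omega) (by omega)
  · exact choose_mono_half h1 h

theorem ainv {α : Type*} (a : Perm α) (x : α) : a (a⁻¹ x) = x := Equiv.apply_symm_apply a x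

theorem inva {α : Type*} (a : Perm α) (x : α) : a⁻¹ (a x) = x := Equiv.symm_apply_apply a x

variable {α : Type*} [Fintype α] {h : ℕ} {ψ : Fin h → Perm α}

/-- The orbit is generated by few of the permutations. -/
theorem exists_basis (hcomm : ∀ i j, ψ i * ψ j = ψ j * ψ i) {r : ℕ} (hr : Fintype.card α < 2 ^ r) (x : α) :
    ∃ F : Finset (Fin h), F.card < r ∧ ∀ p, ∃ w ∈ Subgroup.closure (ψ '' (F : Set (Fin h))), ψ p x = w x := by
  classical
  let O : Finset (Fin h) → Set α := fun F => {y | ∃ w ∈ Subgroup.closure (ψ '' (F : Set (Fin h))), w x = y}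
  have hO : ∀ F y, y ∈ O F ↔ ∃ w ∈ Subgroup.closure (ψ '' (F : Set (Fin h))), w x = y := fun F y => Iff.rfl
  have hempty : 2 ^ (∅ : Finset (Fin h)).card ≤ (O ∅).ncard := by
    rw [Finset.card_empty, pow_zero, Nat.one_le_iff_ne_zero]
    intro h0
    rw [Set.ncard_eq_zero (Set.toFinite _)] at h0
    have : x ∈ O ∅ := ⟨1, Subgroup.one_mem _, rfl⟩
    rw [h0] at this
    exact this
  obtain ⟨F, hF, hmax⟩ := Finset.exists_max_image (Finset.univ.filter fun F : Finset (Fin h) => 2 ^ F.card ≤ (O F).ncard)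
    Finset.card ⟨∅, by simpa using hempty⟩
  rw [Finset.mem_filter] at hF
  refine ⟨F, ?_, fun p => ?_⟩
  · have h1 : (O F).ncard ≤ Fintype.card α := by
      rw [← Nat.card_eq_fintype_card, ← Set.ncard_univ]
      exact Set.ncard_le_ncard (Set.subset_univ _) (Set.toFinite _)
    exact (Nat.pow_lt_pow_iff_right (by norm_num : 1 < 2)).1 ((hF.2.trans h1).trans_lt hr)
  by_contra hp
  have hpO : ψ p x ∉ O F := by
    rintro ⟨w, hw, hwx⟩
    exact hp ⟨w, hw, hwx.symm⟩
  have hpF : p ∉ F := by
    intro hpF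
    exact hp ⟨ψ p, Subgroup.subset_closure ⟨p, hpF, rfl⟩, rfl⟩
  have hcw : ∀ w ∈ Subgroup.closure (ψ '' (F : Set (Fin h))), ψ p * w = w * ψ p := by
    intro w hw
    have h1 : Subgroup.closure (ψ '' (F : Set (Fin h))) ≤ Subgroup.centralizer {ψ p} := by
      rw [Subgroup.closure_le]
      rintro _ ⟨q, -, rfl⟩
      rw [SetLike.mem_coe, Subgroup.mem_centralizer_iff]
      rintro _ rfl
      exact hcomm p q
    exact Subgroup.mem_centralizer_iff.1 (h1 hw) (ψ p) rfl
  have hmono : Subgroup.closure (ψ '' (F : Set (Fin h))) ≤ Subgroup.closure (ψ '' ((insert p F : Finset (Fin h)) : Set (Fin h))) := by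
    apply Subgroup.closure_mono
    apply Set.image_mono
    rw [Finset.coe_insert]
    exact Set.subset_insert _ _
  have hpm : ψ p ∈ Subgroup.closure (ψ '' ((insert p F : Finset (Fin h)) : Set (Fin h))) :=
    Subgroup.subset_closure ⟨p, by simp, rfl⟩
  have hsub : O F ∪ ψ p '' O F ⊆ O (insert p F) := by
    rintro y (⟨w, hw, rfl⟩ | ⟨_, ⟨w, hw, rfl⟩, rfl⟩)
    · exact ⟨w, hmono hw, rfl⟩
    · exact ⟨ψ p * w, Subgroup.mul_mem _ hpm (hmono hw), rfl⟩
  have hdisj : Disjoint (O F) (ψ p '' O F) := by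
    rw [Set.disjoint_left]
    rintro y ⟨w, hw, hwy⟩ ⟨_, ⟨w', hw', rfl⟩, hy⟩
    apply hpO
    refine ⟨w'⁻¹ * w, Subgroup.mul_mem _ (Subgroup.inv_mem _ hw') hw, ?_⟩
    have h1 : ψ p (w' x) = w' (ψ p x) := by
      have := DFunLike.congr_fun (hcw w' hw') x
      simpa using this
    rw [Perm.mul_apply, hwy, ← hy, h1, inva]
  have h2 : 2 * (O F).ncard ≤ (O (insert p F)).ncard := by
    have h3 := Set.ncard_le_ncard hsub (Set.toFinite _)
    rw [Set.ncard_union_eq hdisj (Set.toFinite _) (Set.toFinite _), Set.ncard_image_of_injective _ (ψ p).injective] at h3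
    omega
  have h3 := hmax (insert p F) (by
    rw [Finset.mem_filter, Finset.card_insert_of_notMem hpF, pow_succ]
    refine ⟨Finset.mem_univ _, ?_⟩
    have := hF.2
    omega)
  rw [Finset.card_insert_of_notMem hpF] at h3
  omega

/-- a permutation which fixes `F` pointwise and maps `J` to `J'` -/
theorem exists_perm_sets (F J J' : Finset (Fin h)) (h1 : Disjoint F J) (h2 : Disjoint F J') (h3 : J.card = J'.card) :
    ∃ π : Perm (Fin h), (∀ p ∈ F, π p = p) ∧ J.image π = J' := by
  classical
  obtain ⟨l, hl⟩ : ∃ l, l = J.card := ⟨_, rfl⟩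
  let u : Fin (F.card + J.card) → Fin h := Fin.append (F.orderEmbOfFin rfl) (J.orderEmbOfFin rfl)
  let v : Fin (F.card + J.card) → Fin h := Fin.append (F.orderEmbOfFin rfl) (J'.orderEmbOfFin h3.symm)
  have hu : Function.Injective u := by
    rw [Fin.append_injective_iff]
    refine ⟨(F.orderEmbOfFin rfl).injective, (J.orderEmbOfFin rfl).injective, fun i j hij => ?_⟩
    exact Finset.disjoint_left.1 h1 (Finset.orderEmbOfFin_mem F rfl i) (hij ▸ Finset.orderEmbOfFin_mem J rfl j)
  have hv : Function.Injective v := by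
    rw [Fin.append_injective_iff]
    refine ⟨(F.orderEmbOfFin rfl).injective, (J'.orderEmbOfFin h3.symm).injective, fun i j hij => ?_⟩
    exact Finset.disjoint_left.1 h2 (Finset.orderEmbOfFin_mem F rfl i) (hij ▸ Finset.orderEmbOfFin_mem J' h3.symm j)
  obtain ⟨π, hπ⟩ := Grp.exists_perm_family u v hu hv
  refine ⟨π, fun p hp => ?_, ?_⟩
  · have h4 : p ∈ Set.range (F.orderEmbOfFin rfl) := by rw [Finset.range_orderEmbOfFin]; exact hp
    obtain ⟨t, rfl⟩ := h4
    have h5 := hπ (Fin.castAdd _ t)
    simp only [u, v] at h5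
    rw [Fin.append_left, Fin.append_left] at h5
    exact h5
  · ext y
    rw [Finset.mem_image]
    constructor
    · rintro ⟨p, hp, rfl⟩
      have h4 : p ∈ Set.range (J.orderEmbOfFin rfl) := by rw [Finset.range_orderEmbOfFin]; exact hp
      obtain ⟨t, rfl⟩ := h4
      have h5 := hπ (Fin.natAdd _ t)
      simp only [u, v] at h5
      rw [Fin.append_right, Fin.append_right] at h5
      rw [h5]
      exact Finset.orderEmbOfFin_mem J' h3.symm t
    · intro hy
      have h4 : y ∈ Set.range (J'.orderEmbOfFin h3.symm) := by rw [Finset.range_orderEmbOfFin]; exact hy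
      obtain ⟨t, rfl⟩ := h4
      have h5 := hπ (Fin.natAdd _ t)
      simp only [u, v] at h5
      rw [Fin.append_right, Fin.append_right] at h5
      exact ⟨_, Finset.orderEmbOfFin_mem J rfl t, h5⟩

/-- a union of classes of middle size -/
theorem exists_mid {β : Type*} [Fintype β] [DecidableEq β] {ι : Type*} [DecidableEq ι] (A : Finset ι) (v : ι → β) {s₀ : ℕ}
    (hA : 3 * s₀ + 1 ≤ A.card) (hw : ∀ w, s₀ + 1 ≤ (A.filter fun p => v p ≠ w).card) :
    ∃ J ⊆ A, (∀ p ∈ A, ∀ p' ∈ A, v p = v p' → p ∈ J → p' ∈ J) ∧ s₀ + 1 ≤ J.card ∧ J.card + (s₀ + 1) ≤ A.card := by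
  obtain ⟨B, hB, hmin⟩ := Finset.exists_min_image
    (Finset.univ.filter fun B : Finset β => s₀ + 1 ≤ (A.filter fun p => v p ∈ B).card) Finset.card
    ⟨Finset.univ, by
      rw [Finset.mem_filter]
      refine ⟨Finset.mem_univ _, ?_⟩
      rw [Finset.filter_true_of_mem (by simp)]
      omega⟩
  rw [Finset.mem_filter] at hB
  refine ⟨A.filter fun p => v p ∈ B, Finset.filter_subset _ _, ?_, hB.2, ?_⟩
  · intro p hp p' hp' hv hpJ
    rw [Finset.mem_filter] at hpJ ⊢
    exact ⟨hp', hv ▸ hpJ.2⟩
  have hne : B.Nonempty := by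
    rw [Finset.nonempty_iff_ne_empty]
    rintro rfl
    have := hB.2
    simp at this
  obtain ⟨w, hwB⟩ := hne
  have h1 : (A.filter fun p => v p ∈ B).card = (A.filter fun p => v p ∈ B.erase w).card + (A.filter fun p => v p = w).card := by
    rw [← Finset.card_union_of_disjoint]
    · congr 1
      ext p
      simp only [Finset.mem_union, Finset.mem_filter, Finset.mem_erase]
      constructor
      · rintro ⟨h2, h3⟩
        by_cases h4 : v p = w
        · exact Or.inr ⟨h2, h4⟩
        · exact Or.inl ⟨h2, h4, h3⟩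
      · rintro (⟨h2, h3, h4⟩ | ⟨h2, h3⟩)
        · exact ⟨h2, h4⟩
        · exact ⟨h2, h3 ▸ hwB⟩
    · rw [Finset.disjoint_left]
      intro p h2 h3
      rw [Finset.mem_filter] at h2 h3
      exact (Finset.mem_erase.1 h2.2).1 h3.2
  have h2 : (A.filter fun p => v p ∈ B.erase w).card ≤ s₀ := by
    by_contra h3
    have h4 := hmin (B.erase w) (by
      rw [Finset.mem_filter]
      exact ⟨Finset.mem_univ _, by omega⟩)
    rw [Finset.card_erase_of_mem hwB] at h4
    have := Finset.card_pos.2 ⟨w, hwB⟩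
    omega
  have h3 : (A.filter fun p => v p = w).card + (A.filter fun p => v p ≠ w).card = A.card :=
    Finset.card_filter_add_card_filter_not _
  have h4 := hw w
  by_cases h5 : s₀ + 1 ≤ (A.filter fun p => v p = w).card
  · have h6 := hmin {w} (by
      rw [Finset.mem_filter]
      refine ⟨Finset.mem_univ _, ?_⟩
      simpa using h5)
    rw [Finset.card_singleton] at h6
    have h7 : B = {w} := by
      rw [Finset.eq_singleton_iff_unique_mem]
      exact ⟨hwB, fun y hy => Finset.card_le_one.1 h6 y hy w hwB⟩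
    subst h7
    have h8 : (A.filter fun p => v p ∈ ({w} : Finset β)) = A.filter fun p => v p = w := by
      apply Finset.filter_congr
      simp
    rw [h8]
    omega
  · omega

/-- the counting lemma -/
theorem dev [DecidableEq α] (hcomm : ∀ i j, ψ i * ψ j = ψ j * ψ i)
    (hsym : ∀ π : Perm (Fin h), ∃ κ : Perm α, ∀ p, κ * ψ p = ψ (π p) * κ) {r s₀ : ℕ}
    (hr : Fintype.card α < 2 ^ r) (hn : Fintype.card α < (h - r).choose (s₀ + 1)) (hh : r + 3 * s₀ ≤ h) (x : α) :
    ∃ D : Finset (Fin h), D.card + 1 ≤ r + s₀ ∧ ∀ p p', p ∉ D → p' ∉ D → ψ p x = ψ p' x := by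
  classical
  obtain ⟨F, hFr, hF⟩ := exists_basis hcomm hr x
  have hFc : (Fᶜ).card + F.card = h := by
    have := Finset.card_compl_add_card F
    rwa [Fintype.card_fin] at this
  by_contra hcon
  push Not at hcon
  obtain ⟨J, hJF, hJ, hJ1, hJ2⟩ := exists_mid (s₀ := s₀) Fᶜ (fun p => ψ p x) (by omega) (fun w => by
    by_contra hw
    obtain ⟨p, p', hp, hp', hpp⟩ := hcon (F ∪ Fᶜ.filter fun p => ψ p x ≠ w) (by
      have := Finset.card_union_le F (Fᶜ.filter fun p => ψ p x ≠ w)
      omega)
    apply hpp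
    have key : ∀ q, q ∉ F ∪ Fᶜ.filter (fun p => ψ p x ≠ w) → ψ q x = w := by
      intro q hq
      by_contra hqw
      apply hq
      rw [Finset.mem_union, Finset.mem_filter, Finset.mem_compl]
      by_cases hqF : q ∈ F
      · exact Or.inl hqF
      · exact Or.inr ⟨hqF, hqw⟩
    rw [key p hp, key p' hp'])
  have hex : ∀ J' : Finset (Fin h), J' ∈ Finset.powersetCard J.card Fᶜ →
      ∃ π : Perm (Fin h), (∀ p ∈ F, π p = p) ∧ J.image π = J' := by
    intro J' hJ'
    rw [Finset.mem_powersetCard] at hJ'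
    refine exists_perm_sets F J J' ?_ ?_ hJ'.2.symm
    · rw [Finset.disjoint_left]
      intro p hp hpJ
      exact Finset.mem_compl.1 (hJF hpJ) hp
    · rw [Finset.disjoint_left]
      intro p hp hpJ
      exact Finset.mem_compl.1 (hJ'.1 hpJ) hp
  choose! π hπF hπJ using hex
  choose κ hκ using hsym
  have hinj : Set.InjOn (fun J' : Finset (Fin h) => κ (π J') x) (Finset.powersetCard J.card Fᶜ : Set (Finset (Fin h))) := by
    intro J' hJ' J'' hJ'' heq
    have heq' : κ (π J') x = κ (π J'') x := heq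
    rw [Finset.mem_coe] at hJ' hJ''
    obtain ⟨ρ, hρ⟩ : ∃ ρ, ρ = (π J'')⁻¹ * π J' := ⟨_, rfl⟩
    obtain ⟨g, hg⟩ : ∃ g, g = (κ (π J''))⁻¹ * κ (π J') := ⟨_, rfl⟩
    have hgx : g x = x := by
      rw [hg, Perm.mul_apply, heq', inva]
    have hgψ : ∀ p, g * ψ p = ψ (ρ p) * g := by
      intro p
      have h1 := hκ (π J') p
      have h2 := hκ (π J'') (ρ p)
      rw [show π J'' (ρ p) = π J' p by rw [hρ, Perm.mul_apply, ainv]] at h2
      rw [hg]
      calc (κ (π J''))⁻¹ * κ (π J') * ψ p = (κ (π J''))⁻¹ * (κ (π J') * ψ p) := by group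
        _ = (κ (π J''))⁻¹ * (ψ (π J' p) * κ (π J')) := by rw [h1]
        _ = (κ (π J''))⁻¹ * (ψ (π J' p) * κ (π J'')) * ((κ (π J''))⁻¹ * κ (π J')) := by group
        _ = (κ (π J''))⁻¹ * (κ (π J'') * ψ (ρ p)) * ((κ (π J''))⁻¹ * κ (π J')) := by rw [h2]
        _ = _ := by group
    have hρF : ∀ p ∈ F, ρ p = p := by
      intro p hp
      rw [hρ, Perm.mul_apply, hπF J' hJ' p hp, Perm.inv_eq_iff_eq]
      exact (hπF J'' hJ'' p hp).symm
    have hgw : ∀ w ∈ Subgroup.closure (ψ '' (F : Set (Fin h))), g * w = w * g := by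
      intro w hw
      have h1 : Subgroup.closure (ψ '' (F : Set (Fin h))) ≤ Subgroup.centralizer {g} := by
        rw [Subgroup.closure_le]
        rintro _ ⟨q, hq, rfl⟩
        rw [SetLike.mem_coe, Subgroup.mem_centralizer_iff]
        rintro _ rfl
        rw [hgψ q, hρF q hq]
      exact Subgroup.mem_centralizer_iff.1 (h1 hw) g rfl
    have hval : ∀ p, ψ (ρ p) x = ψ p x := by
      intro p
      obtain ⟨w, hw, hwp⟩ := hF p
      have h1 : g (ψ p x) = ψ (ρ p) (g x) := by
        have := DFunLike.congr_fun (hgψ p) x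
        simpa using this
      have h2 : g (w x) = w (g x) := by
        have := DFunLike.congr_fun (hgw w hw) x
        simpa using this
      rw [hgx] at h1 h2
      rw [← h1, hwp, h2]
    have hJρ : J.image ρ = J := by
      apply Finset.eq_of_subset_of_card_le
      · intro y hy
        rw [Finset.mem_image] at hy
        obtain ⟨p, hp, rfl⟩ := hy
        have hpF : p ∉ F := Finset.mem_compl.1 (hJF hp)
        have hρp : ρ p ∉ F := by
          intro h1
          have h2 := hρF _ h1
          exact hpF (ρ.injective h2 ▸ h1)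
        exact hJ p (Finset.mem_compl.2 hpF) (ρ p) (Finset.mem_compl.2 hρp) (hval p).symm hp
      · rw [Finset.card_image_of_injective _ ρ.injective]
    have h1 : J.image (π J') = J.image (π J'') := by
      have h2 : (⇑(π J') : Fin h → Fin h) = π J'' ∘ ρ := by
        funext p
        rw [Function.comp_apply, hρ, Perm.mul_apply, ainv]
      rw [h2, ← Finset.image_image, hJρ]
    rw [hπJ J' hJ', hπJ J'' hJ''] at h1
    exact h1
  have h1 := Finset.card_le_card_of_injOn (fun J' : Finset (Fin h) => κ (π J') x) (t := Finset.univ)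
    (fun q _ => Finset.mem_univ _) hinj
  rw [Finset.card_powersetCard, Finset.card_univ] at h1
  have h2 : (Fᶜ.card).choose (s₀ + 1) ≤ (Fᶜ.card).choose J.card := choose_mono_mid hJ1 hJ2
  have h3 : (h - r).choose (s₀ + 1) ≤ (Fᶜ.card).choose (s₀ + 1) := Nat.choose_le_choose _ (by omega)
  omega

/-- bootstrapping: if more than half of the members agree at `x`, the number of the others is small -/
theorem dev_boot [DecidableEq α] {φ : Fin h → Perm α}
    (hsym : ∀ π : Perm (Fin h), ∃ κ κ' : Perm α, ∀ p, κ' * φ p = φ (π p) * κ) {l : ℕ}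
    (hl : Fintype.card α < h.choose (l + 1)) {x : α} {D : Finset (Fin h)} (hD : 2 * D.card < h)
    (hDe : ∀ p p', p ∉ D → p' ∉ D → φ p x = φ p' x) :
    ∃ D' : Finset (Fin h), D'.card ≤ l ∧ ∀ p p', p ∉ D' → p' ∉ D' → φ p x = φ p' x := by
  classical
  obtain ⟨p₀, hp₀⟩ : ∃ p₀, p₀ ∉ D := by
    by_contra hcon
    push Not at hcon
    have h1 : D = Finset.univ := Finset.eq_univ_of_forall hcon
    rw [h1, Finset.card_univ, Fintype.card_fin] at hD
    omega
  obtain ⟨w, hw⟩ : ∃ w, w = φ p₀ x := ⟨_, rfl⟩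
  obtain ⟨D', hD'⟩ : ∃ D', D' = Finset.univ.filter fun p => φ p x ≠ w := ⟨_, rfl⟩
  have hmem : ∀ p, p ∈ D' ↔ φ p x ≠ w := by
    intro p
    rw [hD', Finset.mem_filter]
    simp
  have hsub : D' ⊆ D := by
    intro p hp
    by_contra hpD
    exact (hmem p).1 hp (by rw [hw]; exact hDe p p₀ hpD hp₀)
  have hcard : D'.card ≤ D.card := Finset.card_le_card hsub
  refine ⟨D', ?_, fun p p' hp hp' => ?_⟩
  · by_contra hcon
    have hex : ∀ E : Finset (Fin h), E ∈ Finset.powersetCard D'.card Finset.univ →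
        ∃ π : Perm (Fin h), D'.image π = E := by
      intro E hE
      rw [Finset.mem_powersetCard] at hE
      obtain ⟨π, -, hπ⟩ := exists_perm_sets ∅ D' E (Finset.disjoint_empty_left _) (Finset.disjoint_empty_left _) hE.2.symm
      exact ⟨π, hπ⟩
    choose! π hπ using hex
    choose κ κ' hκ using hsym
    -- the values of the point `κ x`
    have hval : ∀ E p, φ (π E p) (κ (π E) x) = κ' (π E) (φ p x) := by
      intro E p
      have h1 := DFunLike.congr_fun (hκ (π E) p) x
      rw [Perm.mul_apply, Perm.mul_apply] at h1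
      exact h1.symm
    have hset : ∀ E ∈ Finset.powersetCard D'.card Finset.univ, ∀ q : Fin h,
        q ∈ E ↔ φ q (κ (π E) x) ≠ κ' (π E) w := by
      intro E hE q
      obtain ⟨p, rfl⟩ := (π E).surjective q
      rw [hval]
      have h1 : π E p ∈ E ↔ p ∈ D' := by
        have h2 : π E p ∈ D'.image (π E) ↔ p ∈ D' := by
          rw [Finset.mem_image]
          constructor
          · rintro ⟨p', hp', h3⟩
            rw [← (π E).injective h3]
            exact hp'
          · intro h3
            exact ⟨p, h3, rfl⟩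
        rw [hπ E hE] at h2
        exact h2
      rw [h1, hmem]
      exact ⟨fun h2 h3 => h2 ((κ' (π E)).injective h3), fun h2 h3 => h2 (by rw [h3])⟩
    obtain ⟨P, hP⟩ : ∃ P : Finset (Finset (Fin h)), P = Finset.powersetCard D'.card Finset.univ := ⟨_, rfl⟩
    have hinj : Set.InjOn (fun E : Finset (Fin h) => κ (π E) x) (P : Set (Finset (Fin h))) := by
      intro E hE E' hE' heq
      have heq' : κ (π E) x = κ (π E') x := heq
      rw [Finset.mem_coe, hP] at hE hE'
      have hE1 := (Finset.mem_powersetCard.1 hE).2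
      have hE2 := (Finset.mem_powersetCard.1 hE').2
      -- a common member of the complements
      obtain ⟨q, hq⟩ : ∃ q, q ∉ E ∪ E' := by
        by_contra hc
        push Not at hc
        have h1 : E ∪ E' = Finset.univ := Finset.eq_univ_of_forall hc
        have h2 := Finset.card_union_le E E'
        rw [h1, Finset.card_univ, Fintype.card_fin] at h2
        omega
      rw [Finset.mem_union, not_or] at hq
      have h1 : φ q (κ (π E) x) = κ' (π E) w := by
        by_contra h2
        exact hq.1 ((hset E hE q).2 h2)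
      have h2 : φ q (κ (π E') x) = κ' (π E') w := by
        by_contra h2
        exact hq.2 ((hset E' hE' q).2 h2)
      have h3 : κ' (π E) w = κ' (π E') w := by rw [← h1, ← h2, heq']
      ext q'
      rw [hset E hE, hset E' hE', heq', h3]
    have h1 := Finset.card_le_card_of_injOn (fun E : Finset (Fin h) => κ (π E) x) (t := Finset.univ)
      (fun q _ => Finset.mem_univ _) hinj
    rw [hP, Finset.card_powersetCard, Finset.card_univ, Finset.card_univ, Fintype.card_fin] at h1
    have h2 : h.choose (l + 1) ≤ h.choose D'.card := choose_mono_half (by omega) (by omega)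
    omega
  · have h1 : φ p x = w := by
      by_contra h2
      exact hp ((hmem p).2 h2)
    have h2 : φ p' x = w := by
      by_contra h2
      exact hp' ((hmem p').2 h2)
    rw [h1, h2]

end Pool.Agent.LR.Exp
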