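import Mathlib

/-!
# Homomorphisms from braid groups to small symmetric groups, part A: braid relations in a group

Project LR (MP_f80056_ag), group lemma.
-/

set_option autoImplicit false

namespace Pool.Agent.LR.Grp

/-- the elements `g 0, ..., g (r-1)` satisfy the relations of the braid group on `r+1` strands -/
structure Br {G : Type*} [Mul G] (r : ℕ) (g : ℕ → G) : Prop where
  comm : ∀ i j, i + 2 ≤ j → j < r → g i * g j = g j * g i
  braid : ∀ i, i + 1 < r → g i * g (i + 1) * g i = g (i + 1) * g i * g (i + 1)

section basics

variable {G : Type*} [Group G] {r : ℕ} {g : ℕ → G}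

theorem Br.shift (h : Br r g) (s : ℕ) : Br (r - s) (fun i => g (i + s)) where
  comm i j hij hj := h.comm _ _ (by omega) (by omega)
  braid i hi := by
    have := h.braid (i + s) (by omega)
    rw [show i + s + 1 = i + 1 + s by omega] at this
    exact this

theorem Br.mono (h : Br r g) {s : ℕ} (hs : s ≤ r) : Br s g where
  comm i j hij hj := h.comm _ _ hij (by omega)
  braid i hi := h.braid i (by omega)

theorem Br.rev (h : Br r g) : Br r (fun i => g (r - 1 - i)) where
  comm i j hij hj := (h.comm (r - 1 - j) (r - 1 - i) (by omega) (by omega)).symm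
  braid i hi := by
    have := h.braid (r - 1 - (i + 1)) (by omega)
    rw [show r - 1 - (i + 1) + 1 = r - 1 - i by omega] at this
    exact this.symm

theorem Br.map {H : Type*} [Group H] (h : Br r g) (f : G →* H) : Br r (fun i => f (g i)) where
  comm i j hij hj := by rw [← map_mul, h.comm i j hij hj, map_mul]
  braid i hi := by rw [← map_mul, ← map_mul, h.braid i hi, map_mul, map_mul]

/-- adjacent commuting generators are equal -/
theorem Br.eq_of_comm (h : Br r g) {i : ℕ} (hi : i + 1 < r)
    (hc : g i * g (i + 1) = g (i + 1) * g i) : g i = g (i + 1) := by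
  have := h.braid i hi
  rw [hc, mul_assoc, mul_assoc] at this
  have h2 := mul_left_cancel this
  rw [hc] at h2
  have h3 := mul_right_cancel (a := g i) (b := g i) (c := g (i+1)) (by
    rw [← hc]
    have h4 := mul_left_cancel this
    rw [h4, hc])
  exact mul_left_cancel (a := g i) (by
    have h4 := mul_left_cancel this
    rw [h4])

/-- the product `g 0 * ... * g (n-1)` -/
def delta (g : ℕ → G) : ℕ → G
  | 0 => 1
  | n + 1 => delta g n * g n

theorem delta_comm (h : Br r g) (n : ℕ) : ∀ l, n + 1 ≤ l → l < r →
    delta g n * g l = g l * delta g n := by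
  induction n with
  | zero => intro l _ _; simp [delta]
  | succ n ih =>
    intro l hl hr
    rw [delta, mul_assoc, h.comm n l (by omega) hr, ← mul_assoc, ih l (by omega) hr, mul_assoc]

theorem delta_conj (h : Br r g) (n : ℕ) : n ≤ r → ∀ i, i + 1 < n →
    delta g n * g i = g (i + 1) * delta g n := by
  induction n with
  | zero => intro _ i hi; omega
  | succ n ih =>
    intro hn i hi
    by_cases hin : i + 1 < n
    · rw [delta, mul_assoc, ← h.comm i n (by omega) (by omega), ← mul_assoc, ih (by omega) i hin,
        mul_assoc]
    · obtain rfl : n = i + 1 := by omega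
      rw [delta, delta]
      calc delta g i * g i * g (i + 1) * g i = delta g i * (g i * g (i + 1) * g i) := by group
        _ = delta g i * (g (i + 1) * g i * g (i + 1)) := by rw [h.braid i (by omega)]
        _ = (delta g i * g (i + 1)) * g i * g (i + 1) := by group
        _ = (g (i + 1) * delta g i) * g i * g (i + 1) := by
            rw [delta_comm h i (i + 1) (by omega) (by omega)]
        _ = g (i + 1) * (delta g i * g i * g (i + 1)) := by group

/-- if two neighbours agree, all generators agree -/
theorem Br.all_eq_of_adj (h : Br r g) {i : ℕ} (hi : i + 1 < r) (he : g i = g (i + 1)) :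
    ∀ j, j < r → g j = g 0 := by
  have hs : ∀ j, j + 2 < r → (g j = g (j + 1) ↔ g (j + 1) = g (j + 2)) := by
    intro j hj
    have h1 := delta_conj h r le_rfl j (by omega)
    have h2 := delta_conj h r le_rfl (j + 1) (by omega)
    constructor
    · intro h3
      rw [← h3] at h2
      exact mul_right_cancel (h1.symm.trans h2)
    · intro h3
      rw [h3] at h1
      exact mul_left_cancel (h1.trans h2.symm)
  have h0 : g 0 = g 1 := by
    have key : ∀ j, j + 1 < r → g j = g (j + 1) → g 0 = g 1 := by
      intro j
      induction j with
      | zero => intro _ h3; exact h3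
      | succ j ih => intro h2 h3; exact ih (by omega) ((hs j h2).2 h3)
    exact key i hi he
  have hall : ∀ j, j + 1 < r → g j = g (j + 1) := by
    intro j
    induction j with
    | zero => intro _; exact h0
    | succ j ih => intro h2; exact (hs j h2).1 (ih (by omega))
  intro j
  induction j with
  | zero => intro _; rfl
  | succ j ih => intro h2; rw [← hall j h2]; exact ih (by omega)

/-- if `g 0 = g 2` and there are at least four generators, all generators agree -/
theorem Br.all_eq_of_02 (h : Br r g) (hr : 4 ≤ r) (he : g 0 = g 2) :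
    ∀ j, j < r → g j = g 0 := by
  have h1 : g 2 * g 3 = g 3 * g 2 := by
    rw [← he]; exact h.comm 0 3 (by omega) (by omega)
  exact h.all_eq_of_adj (i := 2) (by omega) (h.eq_of_comm (i := 2) (by omega) h1)

/-- the computation behind the main step: three braid generators `x, y, z` which agree modulo
a normal set `N` of commuting elements have `x = z` -/
theorem key_eq {N : Set G} (hN : ∀ a ∈ N, ∀ b ∈ N, a * b = b * a) {x y z : G}
    (hconj : ∀ a ∈ N, x * a * x⁻¹ ∈ N) (hy : y * x⁻¹ ∈ N) (hz : z * x⁻¹ ∈ N)
    (hxz : x * z = z * x) (hxy : x * y * x = y * x * y) (hyz : y * z * y = z * y * z) :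
    x = z := by
  obtain ⟨a, ha⟩ : ∃ a, a = z * x⁻¹ := ⟨_, rfl⟩
  obtain ⟨b, hb⟩ : ∃ b, b = y * x⁻¹ := ⟨_, rfl⟩
  have hz' : z = a * x := by rw [ha]; group
  have hy' : y = b * x := by rw [hb]; group
  have haN : a ∈ N := by rw [ha]; exact hz
  have hbN : b ∈ N := by rw [hb]; exact hy
  have hax : x * a = a * x := by
    have : x * (a * x) = a * x * x := by rw [← hz']; exact hxz
    rw [← mul_assoc] at this
    exact mul_right_cancel this
  obtain ⟨b1, hb1⟩ : ∃ b1, b1 = x * b * x⁻¹ := ⟨_, rfl⟩
  obtain ⟨b2, hb2⟩ : ∃ b2, b2 = x * b1 * x⁻¹ := ⟨_, rfl⟩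
  have hb1N : b1 ∈ N := by rw [hb1]; exact hconj b hbN
  have hb2N : b2 ∈ N := by rw [hb2]; exact hconj b1 hb1N
  have hxb : x * b = b1 * x := by rw [hb1]; group
  have hxb1 : x * b1 = b2 * x := by rw [hb2]; group
  have e1 : b1 = b * b2 := by
    have h1 : x * (b * x) * x = b * x * x * (b * x) := by rw [← hy']; exact hxy
    have h2 : x * (b * x) * x = b1 * (x * x * x) := by
      rw [← mul_assoc, hxb]; group
    have h3 : b * x * x * (b * x) = b * b2 * (x * x * x) := by
      calc b * x * x * (b * x) = b * (x * (x * b)) * x := by group
        _ = b * (x * (b1 * x)) * x := by rw [hxb]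
        _ = b * (x * b1) * x * x := by group
        _ = b * (b2 * x) * x * x := by rw [hxb1]
        _ = b * b2 * (x * x * x) := by group
    rw [h2, h3] at h1
    exact mul_right_cancel h1
  have e2 : b * a * b2 = a * a * b1 := by
    have h1 : b * x * (a * x) * (b * x) = a * x * (b * x) * (a * x) := by
      rw [← hy', ← hz']; exact hyz
    have h2 : b * x * (a * x) * (b * x) = b * a * b2 * (x * x * x) := by
      calc b * x * (a * x) * (b * x) = b * (x * a) * (x * b) * x := by group
        _ = b * (a * x) * (b1 * x) * x := by rw [hax, hxb]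
        _ = b * a * (x * b1) * x * x := by group
        _ = b * a * (b2 * x) * x * x := by rw [hxb1]
        _ = b * a * b2 * (x * x * x) := by group
    have h3 : a * x * (b * x) * (a * x) = a * a * b1 * (x * x * x) := by
      calc a * x * (b * x) * (a * x) = a * x * b * (x * a) * x := by group
        _ = a * x * b * (a * x) * x := by rw [hax]
        _ = a * x * (b * a) * x * x := by group
        _ = a * x * (a * b) * x * x := by rw [hN b hbN a haN]
        _ = a * (x * a) * b * x * x := by group
        _ = a * (a * x) * b * x * x := by rw [hax]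
        _ = a * a * (x * b) * x * x := by group
        _ = a * a * (b1 * x) * x * x := by rw [hxb]
        _ = a * a * b1 * (x * x * x) := by group
    rw [h2, h3] at h1
    exact mul_right_cancel h1
  have e3 : a * b1 = a * (a * b1) := by
    calc a * b1 = a * (b * b2) := by rw [← e1]
      _ = (a * b) * b2 := by group
      _ = (b * a) * b2 := by rw [hN a haN b hbN]
      _ = a * a * b1 := e2
      _ = a * (a * b1) := by group
  have e4 : b1 = a * b1 := mul_left_cancel e3
  have e5 : a = 1 := by
    have : 1 * b1 = a * b1 := by rw [one_mul]; exact e4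
    exact (mul_right_cancel this).symm
  rw [hz', e5, one_mul]

end basics

end Pool.Agent.LR.Grp
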