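import Pool.Agent.LR.FamA
import Pool.Agent.LR.GrpA

/-!
# LR FamB: the majority value

If among the values of pairwise far `s i a`, `s j a`, `s l a`, `s n a` at a point at most one deviates, there are
permutations `M a` with `s i (a + 1) * M a = M (a + 1) * s i a`, such that `s i a x = M a x` or `s j a x = M a x` for far
`i, j`. So `s i a = K (a + 1) * θ i * (K a)⁻¹` with braid generators `θ i` such that `θ i`, `θ j` have disjoint supports for
far `i, j`.
-/

set_option autoImplicit false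

namespace Pool.Agent.LR.Fam

open Equiv

/-- at most one of the four values deviates -/
def Q4 {α : Type*} (a b c d : α) : Prop :=
  (b = c ∧ c = d) ∨ (a = c ∧ c = d) ∨ (a = b ∧ b = d) ∨ (a = b ∧ b = c)

/-- the quadruple property of a family of values -/
def QV {α : Type*} (m : ℕ) (v : ℕ → α) : Prop :=
  ∀ i j l n, i + 2 ≤ j → j + 2 ≤ l → l + 2 ≤ n → n < m → Q4 (v i) (v j) (v l) (v n)

/-- `i` and `j` are far -/
def Fr (i j : ℕ) : Prop := i + 2 ≤ j ∨ j + 2 ≤ i

section values

variable {α : Type*} {m : ℕ} {v : ℕ → α}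

theorem q4_false {a b c d w : α} (h : Q4 a b c d) :
    (a ≠ w → b ≠ w → c = w → d = w → False) ∧ (a ≠ w → c ≠ w → b = w → d = w → False) ∧
    (a ≠ w → d ≠ w → b = w → c = w → False) ∧ (b ≠ w → c ≠ w → a = w → d = w → False) ∧
    (b ≠ w → d ≠ w → a = w → c = w → False) ∧ (c ≠ w → d ≠ w → a = w → b = w → False) := by
  rcases h with ⟨h1, h2⟩ | ⟨h1, h2⟩ | ⟨h1, h2⟩ | ⟨h1, h2⟩ <;> subst h1 <;> subst h2 <;>
    refine ⟨?_, ?_, ?_, ?_, ?_, ?_⟩ <;> intro h3 h4 h5 h6 <;> first
      | exact h3 h5 | exact h3 h6 | exact h4 h5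

theorem QV.four (h : QV m v) {i j p q : ℕ} (hi : i < m) (hj : j < m) (hp : p < m) (hq : q < m)
    (hij : Fr i j) (hip : Fr i p) (hiq : Fr i q) (hjp : Fr j p) (hjq : Fr j q) (hpq : Fr p q) {w : α}
    (h1 : v i ≠ w) (h2 : v j ≠ w) (h3 : v p = w) (h4 : v q = w) : False := by
  wlog hij' : i < j generalizing i j
  · exact this hj hi (by unfold Fr at *; omega) hjp hjq hip hiq h2 h1 (by unfold Fr at *; omega)
  wlog hpq' : p < q generalizing p q
  · refine this (p := q) (q := p) ?_ ?_ ?_ ?_ ?_ ?_ ?_ ?_ ?_ ?_ <;> first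
      | assumption | (unfold Fr at *; omega)
  unfold Fr at *
  rcases lt_or_ge i p with h5 | h5
  · rcases lt_or_ge j p with h6 | h6
    · exact (q4_false (h i j p q (by omega) (by omega) (by omega) hq)).1 h1 h2 h3 h4
    · rcases lt_or_ge j q with h7 | h7
      · exact (q4_false (h i p j q (by omega) (by omega) (by omega) hq)).2.1 h1 h2 h3 h4
      · exact (q4_false (h i p q j (by omega) (by omega) (by omega) hj)).2.2.1 h1 h2 h3 h4
  · rcases lt_or_ge i q with h6 | h6
    · rcases lt_or_ge j q with h7 | h7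
      · exact (q4_false (h p i j q (by omega) (by omega) (by omega) hq)).2.2.2.1 h1 h2 h3 h4
      · exact (q4_false (h p i q j (by omega) (by omega) (by omega) hj)).2.2.2.2.1 h1 h2 h3 h4
    · exact (q4_false (h p q i j (by omega) (by omega) (by omega) hj)).2.2.2.2.2 h1 h2 h3 h4

/-- at most one of the values at even indices deviates -/
theorem QV.even (h : QV m v) (hm : 13 ≤ m) : ∃ (w : α) (e : ℕ), ∀ p, p < 7 → p ≠ e → v (2 * p) = w := by
  obtain ⟨w, e, he, hw⟩ : ∃ (w : α) (e : ℕ), e < 4 ∧ ∀ p, p < 4 → p ≠ e → v (2 * p) = w := by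
    rcases h 0 2 4 6 (by omega) (by omega) (by omega) (by omega) with ⟨h1, h2⟩ | ⟨h1, h2⟩ | ⟨h1, h2⟩ | ⟨h1, h2⟩
    · refine ⟨v 6, 0, by omega, fun p hp hp' => ?_⟩
      interval_cases p
      · omega
      · exact h1.trans h2
      · exact h2
      · rfl
    · refine ⟨v 6, 1, by omega, fun p hp hp' => ?_⟩
      interval_cases p
      · exact h1.trans h2
      · omega
      · exact h2
      · rfl
    · refine ⟨v 6, 2, by omega, fun p hp hp' => ?_⟩
      interval_cases p
      · exact h1.trans h2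
      · exact h2
      · omega
      · rfl
    · refine ⟨v 4, 3, by omega, fun p hp hp' => ?_⟩
      interval_cases p
      · exact h1.trans h2
      · exact h2
      · rfl
      · omega
  have key : ∀ i j, i < 7 → j < 7 → i < j → v (2 * i) ≠ w → v (2 * j) ≠ w → False := by
    intro i j hi hj hij h1 h2
    have hj4 : 4 ≤ j := by
      by_contra hj4
      by_cases hje : j = e
      · exact h1 (hw i (by omega) (by omega))
      · exact h2 (hw j (by omega) hje)
    obtain ⟨p, q, hp, hq, hpq, hpe, hqe, hpi, hqi⟩ : ∃ p q, p < 4 ∧ q < 4 ∧ p < q ∧ p ≠ e ∧ q ≠ e ∧ p ≠ i ∧ q ≠ i := by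
      by_cases hi4 : i < 4
      · have hie : i = e := by
          by_contra hie
          exact h1 (hw i hi4 hie)
        subst hie
        interval_cases i
        · exact ⟨1, 2, by omega, by omega, by omega, by omega, by omega, by omega, by omega⟩
        · exact ⟨0, 2, by omega, by omega, by omega, by omega, by omega, by omega, by omega⟩
        · exact ⟨0, 1, by omega, by omega, by omega, by omega, by omega, by omega, by omega⟩
        · exact ⟨0, 1, by omega, by omega, by omega, by omega, by omega, by omega, by omega⟩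
      · interval_cases e
        · exact ⟨1, 2, by omega, by omega, by omega, by omega, by omega, by omega, by omega⟩
        · exact ⟨0, 2, by omega, by omega, by omega, by omega, by omega, by omega, by omega⟩
        · exact ⟨0, 1, by omega, by omega, by omega, by omega, by omega, by omega, by omega⟩
        · exact ⟨0, 1, by omega, by omega, by omega, by omega, by omega, by omega, by omega⟩
    exact h.four (i := 2 * i) (j := 2 * j) (p := 2 * p) (q := 2 * q) (by omega) (by omega) (by omega) (by omega)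
      (by unfold Fr; omega) (by unfold Fr; omega) (by unfold Fr; omega) (by unfold Fr; omega)
      (by unfold Fr; omega) (by unfold Fr; omega) h1 h2 (hw p hp hpe) (hw q hq hqe)
  by_cases hex : ∃ i, i < 7 ∧ v (2 * i) ≠ w
  · obtain ⟨i, hi, h1⟩ := hex
    refine ⟨w, i, fun p hp hpi => ?_⟩
    by_contra h2
    rcases lt_or_gt_of_ne hpi with h3 | h3
    · exact key p i hp hi h3 h2 h1
    · exact key i p hi hp h3 h1 h2
  · refine ⟨w, 7, fun p hp _ => ?_⟩
    by_contra h1
    exact hex ⟨p, hp, h1⟩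

theorem exists_two (B : Finset ℕ) (hB : B.card ≤ 5) : ∃ p q, p < 7 ∧ q < 7 ∧ p < q ∧ p ∉ B ∧ q ∉ B := by
  have h1 : 1 < (Finset.range 7 \ B).card := by
    have h2 := Finset.le_card_sdiff B (Finset.range 7)
    rw [Finset.card_range] at h2
    omega
  obtain ⟨p, hp, q, hq, hpq⟩ := Finset.one_lt_card.mp h1
  rw [Finset.mem_sdiff, Finset.mem_range] at hp hq
  rcases lt_or_gt_of_ne hpq with h3 | h3
  · exact ⟨p, q, hp.1, hq.1, h3, hp.2, hq.2⟩
  · exact ⟨q, p, hq.1, hp.1, h3, hq.2, hp.2⟩

theorem QV.maj (h : QV m v) (hm : 13 ≤ m) : ∃ (w : α), (∃ e, ∀ p, p < 7 → p ≠ e → v (2 * p) = w) ∧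
    ∀ i j, i + 2 ≤ j → j < m → v i = w ∨ v j = w := by
  obtain ⟨w, e, hw⟩ := h.even hm
  refine ⟨w, ⟨e, hw⟩, fun i j hij hj => ?_⟩
  by_contra hc
  push Not at hc
  obtain ⟨p, q, hp, hq, hpq, hpB, hqB⟩ := exists_two {i / 2, (i + 1) / 2, j / 2, (j + 1) / 2, e} Finset.card_le_five
  simp only [Finset.mem_insert, Finset.mem_singleton, not_or] at hpB hqB
  exact h.four (i := i) (j := j) (p := 2 * p) (q := 2 * q) (by omega) hj (by omega) (by omega)
      (by unfold Fr; omega) (by unfold Fr; omega) (by unfold Fr; omega) (by unfold Fr; omega)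
      (by unfold Fr; omega) (by unfold Fr; omega) hc.1 hc.2 (hw p hp hpB.2.2.2.2) (hw q hq hqB.2.2.2.2)

end values

theorem exists_K {G : Type*} [Group G] (M : ℤ → G) : ∃ K : ℤ → G, K 0 = 1 ∧ ∀ a, K (a + 1) = M a * K a := by
  let f : ℕ → G := fun n => Nat.rec 1 (fun n g => M n * g) n
  let g : ℕ → G := fun n => Nat.rec (M (-1))⁻¹ (fun n g => (M (Int.negSucc (n + 1)))⁻¹ * g) n
  refine ⟨fun a => Int.rec (motive := fun _ => G) f g a, rfl, fun a => ?_⟩
  cases a with
  | ofNat n => rfl
  | negSucc n =>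
    cases n with
    | zero =>
      show (1 : G) = M (-1) * (M (-1))⁻¹
      rw [mul_inv_cancel]
    | succ n =>
      show g n = M (Int.negSucc (n + 1)) * ((M (Int.negSucc (n + 1)))⁻¹ * g n)
      rw [mul_inv_cancel_left]

variable {α : Type*} [Fintype α] {m : ℕ} {s : ℕ → ℤ → Perm α}

/-- the permutations of the majority values -/
theorem Ext.majority (h : Ext m s) (hm : 13 ≤ m) (hq : ∀ a x, QV m (fun i => s i a x)) :
    ∃ M : ℤ → Perm α, (∀ i, i < m → ∀ a, s i (a + 1) * M a = M (a + 1) * s i a) ∧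
      ∀ a x i j, i + 2 ≤ j → j < m → s i a x = M a x ∨ s j a x = M a x := by
  classical
  choose w hw1 hw2 using fun a x => (hq a x).maj hm
  choose e he using hw1
  have hinj : ∀ a, Function.Injective (w a) := by
    intro a x y hxy
    obtain ⟨p, hp, hp1, hp2⟩ : ∃ p, p < 7 ∧ p ≠ e a x ∧ p ≠ e a y := by
      obtain ⟨p, q, hp, _, _, hpB, _⟩ := exists_two {e a x, e a y} (by
        have := Finset.card_le_two (a := e a x) (b := e a y); omega)
      simp only [Finset.mem_insert, Finset.mem_singleton, not_or] at hpB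
      exact ⟨p, hp, hpB.1, hpB.2⟩
    have h1 := he a x p hp hp1
    have h2 := he a y p hp hp2
    rw [← hxy, ← h1] at h2
    exact ((s (2 * p) a).injective h2).symm
  have hbij : ∀ a, Function.Bijective (w a) := fun a => Finite.injective_iff_bijective.mp (hinj a)
  refine ⟨fun a => Equiv.ofBijective (w a) (hbij a), ?_, fun a x i j hij hj => hw2 a x i j hij hj⟩
  intro i hi a
  ext x
  show s i (a + 1) (w a x) = w (a + 1) (s i a x)
  obtain ⟨p, q, hp, _, _, hpB, _⟩ := exists_two {i / 2, (i + 1) / 2, e a x, e (a + 1) (s i a x)} (by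
    have := Finset.card_le_four (a := i / 2) (b := (i + 1) / 2) (c := e a x) (d := e (a + 1) (s i a x)); omega)
  simp only [Finset.mem_insert, Finset.mem_singleton, not_or] at hpB
  have h1 := he a x p hp hpB.2.2.1
  have h2 := he (a + 1) (s i a x) p hp hpB.2.2.2
  rw [← h1, ← h2]
  have h3 : s i (a + 1) * s (2 * p) a = s (2 * p) (a + 1) * s i a := by
    have h4 : i + 2 ≤ 2 * p ∨ 2 * p + 2 ≤ i := by omega
    rcases h4 with h4 | h4
    · exact (h.far i (2 * p) h4 (by omega) a).symm
    · exact h.far (2 * p) i h4 hi a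
  exact congrArg (fun g : Perm α => g x) h3

/-- the system is a twist of braid generators whose far members have disjoint supports -/
theorem Ext.struct (h : Ext m s) (hm : 13 ≤ m) (hq : ∀ a x, QV m (fun i => s i a x)) :
    ∃ (K : ℤ → Perm α) (θ : ℕ → Perm α), K 0 = 1 ∧
      (∀ i, i < m → ∀ a, s i a = K (a + 1) * θ i * (K a)⁻¹) ∧ Grp.Br m θ ∧
      ∀ i j, i + 2 ≤ j → j < m → ∀ x, θ i x = x ∨ θ j x = x := by
  obtain ⟨M, hM, hM2⟩ := h.majority hm hq
  obtain ⟨K, hK0, hK⟩ := exists_K M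
  obtain ⟨t, ht⟩ : ∃ t : ℕ → Perm α, ∀ i, t i = (M 0)⁻¹ * s i 0 := ⟨_, fun _ => rfl⟩
  have hs : ∀ i, i < m → ∀ a, s i a = K (a + 1) * t i * (K a)⁻¹ := by
    intro i hi
    have hup : ∀ a, s i a = K (a + 1) * t i * (K a)⁻¹ →
        s i (a + 1) = K (a + 1 + 1) * t i * (K (a + 1))⁻¹ := by
      intro a ha
      have h1 := hM i hi a
      rw [← eq_mul_inv_iff_mul_eq] at h1
      rw [h1, ha, hK (a + 1), hK a]
      group
    have hdn : ∀ a, s i (a + 1) = K (a + 1 + 1) * t i * (K (a + 1))⁻¹ →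
        s i a = K (a + 1) * t i * (K a)⁻¹ := by
      intro a ha
      have h1 := hM i hi a
      rw [← inv_mul_eq_iff_eq_mul] at h1
      rw [← h1, ha, hK (a + 1), hK a]
      group
    intro a
    induction a using Int.induction_on with
    | zero => rw [ht, hK0, hK 0, hK0]; group
    | succ n ih => exact hup _ ih
    | pred n ih =>
      apply hdn
      rw [show (-(n : ℤ) - 1 + 1) = -n by ring]
      exact ih
  refine ⟨K, t, hK0, hs, ⟨?_, ?_⟩, ?_⟩
  · intro i j hij hj
    have h1 := h.far i j hij hj 0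
    rw [hs i (by omega) (0 + 1), hs j hj (0 + 1), hs i (by omega) 0, hs j hj 0] at h1
    have h2 : K (0 + 1 + 1) * (t j * t i) * (K 0)⁻¹ =
        K (0 + 1 + 1) * (t i * t j) * (K 0)⁻¹ := by
      calc K (0 + 1 + 1) * (t j * t i) * (K 0)⁻¹
          = K (0 + 1 + 1) * t j * (K (0 + 1))⁻¹ *
            (K (0 + 1) * t i * (K 0)⁻¹) := by group
        _ = K (0 + 1 + 1) * t i * (K (0 + 1))⁻¹ *
            (K (0 + 1) * t j * (K 0)⁻¹) := h1
        _ = _ := by group
    exact (mul_left_cancel (mul_right_cancel h2)).symm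
  · intro i hi
    have h1 := h.br i hi 0
    rw [show (0 : ℤ) + 2 = 0 + 1 + 1 by ring] at h1
    rw [hs i (by omega) (0 + 1 + 1), hs (i + 1) hi (0 + 1 + 1), hs i (by omega) (0 + 1),
      hs (i + 1) hi (0 + 1), hs i (by omega) 0, hs (i + 1) hi 0] at h1
    have h2 : K (0 + 1 + 1 + 1) * (t i * t (i + 1) * t i) * (K 0)⁻¹ =
        K (0 + 1 + 1 + 1) * (t (i + 1) * t i * t (i + 1)) *
          (K 0)⁻¹ := by
      calc K (0 + 1 + 1 + 1) * (t i * t (i + 1) * t i) * (K 0)⁻¹
          = K (0 + 1 + 1 + 1) * t i * (K (0 + 1 + 1))⁻¹ *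
            (K (0 + 1 + 1) * t (i + 1) * (K (0 + 1))⁻¹) *
            (K (0 + 1) * t i * (K 0)⁻¹) := by group
        _ = K (0 + 1 + 1 + 1) * t (i + 1) * (K (0 + 1 + 1))⁻¹ *
            (K (0 + 1 + 1) * t i * (K (0 + 1))⁻¹) *
            (K (0 + 1) * t (i + 1) * (K 0)⁻¹) := h1
        _ = _ := by group
    exact mul_left_cancel (mul_right_cancel h2)
  · intro i j hij hj x
    rcases hM2 0 x i j hij hj with h1 | h1
    · left
      rw [ht, Perm.mul_apply, h1]; simp
    · right
      rw [ht, Perm.mul_apply, h1]; simp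

end Pool.Agent.LR.Fam
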