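import Pool.Agent.LR.EGa
import Pool.Agent.LR.FamB
import Pool.Agent.LR.SysRel

/-!
# LR EGb: the majority permutations in the exponential range

`FarF m E`: a finite set of indices `< m` which are pairwise far.  If `α` has fewer than `2 ^ r` and fewer than `C (q - r) (s₀ + 1)` points,
`t = r + s₀`, `4 t + 2 ≤ q`, `2 (q + t + 1) < m`, then `s i a = K (a + 1) * θ i * (K a)⁻¹` with braid generators `θ i` such that every point is moved
by at most `t` members of every far family.
-/

set_option autoImplicit false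

open Equiv

namespace Pool.Agent.LR.Exp

open Fam (Ext Sim Near)

/-- pairwise far indices -/
def FarF (m : ℕ) (E : Finset ℕ) : Prop := (∀ i ∈ E, i < m) ∧ ∀ i ∈ E, ∀ j ∈ E, i < j → i + 2 ≤ j

theorem FarF.subset {m : ℕ} {E E' : Finset ℕ} (h : FarF m E) (hE : E' ⊆ E) : FarF m E' :=
  ⟨fun i hi => h.1 i (hE hi), fun i hi j hj => h.2 i (hE hi) j (hE hj)⟩

/-- the even indices -/
def evens (Q : ℕ) : Finset ℕ := (Finset.range (Q + 1)).image fun p => 2 * p

theorem mem_evens {Q i : ℕ} : i ∈ evens Q ↔ ∃ p ≤ Q, 2 * p = i := by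
  unfold evens
  simp only [Finset.mem_image, Finset.mem_range]
  constructor
  · rintro ⟨p, hp, rfl⟩
    exact ⟨p, by omega, rfl⟩
  · rintro ⟨p, hp, rfl⟩
    exact ⟨p, by omega, rfl⟩

theorem card_evens (Q : ℕ) : (evens Q).card = Q + 1 := by
  unfold evens
  rw [Finset.card_image_of_injective, Finset.card_range]
  intro a b hab
  have : 2 * a = 2 * b := hab
  omega

theorem farF_evens {m Q : ℕ} (h : 2 * Q < m) : FarF m (evens Q) := by
  constructor
  · intro i hi
    obtain ⟨p, hp, rfl⟩ := mem_evens.1 hi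
    omega
  · intro i hi j hj hij
    obtain ⟨p, hp, rfl⟩ := mem_evens.1 hi
    obtain ⟨p', hp', rfl⟩ := mem_evens.1 hj
    omega

theorem evens_mono {Q Q' : ℕ} (h : Q ≤ Q') : evens Q ⊆ evens Q' := by
  intro i hi
  obtain ⟨p, hp, rfl⟩ := mem_evens.1 hi
  exact mem_evens.2 ⟨p, by omega, rfl⟩

/-- a far family that is not the even one can be moved down -/
theorem exists_down {m q : ℕ} {E : Finset ℕ} (hE : FarF m E) (hc : E.card = q + 1) (hne : E ≠ evens q) :
    ∃ c, c ∈ E ∧ 1 ≤ c ∧ c - 1 ∉ E ∧ FarF m (insert (c - 1) (E.erase c)) := by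
  obtain ⟨c, hcE, hc1, hc2⟩ : ∃ c ∈ E, 1 ≤ c ∧ (2 ≤ c → c - 2 ∉ E) := by
    by_contra hcon
    push Not at hcon
    -- downward closed set of even numbers
    have h1 : ∀ c, c ∈ E → ∃ p, c = 2 * p ∧ ∀ p' ≤ p, 2 * p' ∈ E := by
      intro c
      induction c using Nat.strong_induction_on with
      | _ c ih =>
        intro hcE
        rcases Nat.eq_zero_or_pos c with rfl | hc0
        · refine ⟨0, rfl, fun p' hp' => ?_⟩
          obtain rfl : p' = 0 := by omega
          exact hcE
        · obtain ⟨h2, h3⟩ := hcon c hcE hc0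
          obtain ⟨p, hp, h4⟩ := ih (c - 2) (by omega) h3
          refine ⟨p + 1, by omega, fun p' hp' => ?_⟩
          rcases eq_or_lt_of_le hp' with rfl | h5
          · rw [show 2 * (p + 1) = c by omega]
            exact hcE
          · exact h4 p' (by omega)
    apply hne
    apply Finset.eq_of_subset_of_card_le
    · intro c hcE
      obtain ⟨p, rfl, h2⟩ := h1 c hcE
      rw [mem_evens]
      refine ⟨p, ?_, rfl⟩
      have h3 : evens p ⊆ E := by
        intro i hi
        obtain ⟨p', hp', rfl⟩ := mem_evens.1 hi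
        exact h2 p' hp'
      have h4 := Finset.card_le_card h3
      rw [card_evens, hc] at h4
      omega
    · rw [card_evens, hc]
  have hc3 : c - 1 ∉ E := by
    intro h
    have := hE.2 (c - 1) h c hcE (by omega)
    omega
  refine ⟨c, hcE, hc1, hc3, ?_, ?_⟩
  · intro i hi
    rw [Finset.mem_insert, Finset.mem_erase] at hi
    rcases hi with rfl | ⟨_, hi⟩
    · have := hE.1 c hcE
      omega
    · exact hE.1 i hi
  · intro i hi j hj hij
    rw [Finset.mem_insert, Finset.mem_erase] at hi hj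
    rcases hi with rfl | ⟨hi1, hi⟩ <;> rcases hj with rfl | ⟨hj1, hj⟩
    · omega
    · have h1 : c < j := by omega
      have := hE.2 c hcE j hj h1
      omega
    · have h1 : i < c := by omega
      have h2 := hE.2 i hi c hcE h1
      have h3 : i ≠ c - 2 := by
        rintro rfl
        exact hc2 (by omega) hi
      omega
    · exact hE.2 i hi j hj hij

/-- the majority value is the same for all families of one length -/
theorem maj_fix {β : Type*} [DecidableEq β] {m q t : ℕ} {v : ℕ → β}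
    (hv : ∀ E : Finset ℕ, FarF m E → E.card = q + 1 → ∃ w, (E.filter fun i => v i ≠ w).card ≤ t)
    (hq : 2 * t + 1 ≤ q) (hm : 2 * q < m) :
    ∃ w, ∀ E : Finset ℕ, FarF m E → E.card = q + 1 → (E.filter fun i => v i ≠ w).card ≤ t := by
  classical
  obtain ⟨w, hw⟩ := hv (evens q) (farF_evens hm) (card_evens q)
  refine ⟨w, ?_⟩
  have key : ∀ N : ℕ, ∀ E : Finset ℕ, ∑ i ∈ E, i = N → FarF m E → E.card = q + 1 →
      (E.filter fun i => v i ≠ w).card ≤ t := by
    intro N
    induction N with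
    | zero =>
      intro E hs hE hc
      by_cases hne : E = evens q
      · rw [hne]; exact hw
      · obtain ⟨c, hcE, hc1, -, -⟩ := exists_down hE hc hne
        have := Finset.single_le_sum (f := fun i : ℕ => i) (fun i _ => Nat.zero_le i) hcE
        omega
    | succ N ih =>
      intro E hs hE hc
      by_cases hne : E = evens q
      · rw [hne]; exact hw
      · obtain ⟨c, hcE, hc1, hc2, hF⟩ := exists_down hE hc hne
        have hc3 : c - 1 ∉ E.erase c := fun h => hc2 (Finset.mem_of_mem_erase h)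
        have hsum : ∑ i ∈ insert (c - 1) (E.erase c), i = N := by
          rw [Finset.sum_insert hc3]
          have h1 := Finset.add_sum_erase E (fun i : ℕ => i) hcE
          have h2 : c + ∑ i ∈ E.erase c, i = N + 1 := by rw [← hs]; exact h1
          omega
        have hcard : (insert (c - 1) (E.erase c)).card = q + 1 := by
          rw [Finset.card_insert_of_notMem hc3, Finset.card_erase_of_mem hcE, hc]
          omega
        have h3 := ih _ hsum hF hcard
        obtain ⟨w', hw'⟩ := hv E hE hc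
        have hww : w' = w := by
          by_contra hne'
          have h4 : E.erase c ⊆ (E.filter fun i => v i ≠ w') ∪
              ((insert (c - 1) (E.erase c)).filter fun i => v i ≠ w) := by
            intro i hi
            rw [Finset.mem_union, Finset.mem_filter, Finset.mem_filter]
            by_cases h5 : v i = w'
            · right
              exact ⟨Finset.mem_insert_of_mem hi, by rw [h5]; exact hne'⟩
            · left
              exact ⟨Finset.mem_of_mem_erase hi, h5⟩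
          have h5 := (Finset.card_le_card h4).trans (Finset.card_union_le _ _)
          rw [Finset.card_erase_of_mem hcE, hc] at h5
          omega
        rw [hww] at hw'
        exact hw'
  exact fun E hE hc => key _ E rfl hE hc

/-- from the families of one length to all families -/
theorem maj_of_dev {β : Type*} [DecidableEq β] {m q t : ℕ} {v : ℕ → β}
    (hv : ∀ E : Finset ℕ, FarF m E → E.card = q + 1 → ∃ w, (E.filter fun i => v i ≠ w).card ≤ t)
    (hq : 2 * t + 1 ≤ q) (hm : 2 * (q + t + 1) < m) :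
    ∃ w, ∀ E : Finset ℕ, FarF m E → (E.filter fun i => v i ≠ w).card ≤ t := by
  classical
  obtain ⟨w, hw⟩ := maj_fix hv hq (by omega)
  refine ⟨w, fun E hE => ?_⟩
  by_contra hcon
  obtain ⟨D, hDE, hD⟩ := Finset.exists_subset_card_eq (s := E.filter fun i => v i ≠ w) (n := t + 1) (by omega)
  have hDE' : D ⊆ E := hDE.trans (Finset.filter_subset _ _)
  have hDw : ∀ i ∈ D, v i ≠ w := fun i hi => (Finset.mem_filter.1 (hDE hi)).2
  have hDf : FarF m D := hE.subset hDE'
  -- the even indices far from `D`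
  have hfar : ∀ Q : ℕ, Q + 1 ≤ ((evens Q).filter fun e => ∀ i ∈ D, e + 2 ≤ i ∨ i + 2 ≤ e).card + 2 * (t + 1) := by
    intro Q
    have h1 : (evens Q).card = ((evens Q).filter fun e => ∀ i ∈ D, e + 2 ≤ i ∨ i + 2 ≤ e).card +
        ((evens Q).filter fun e => ¬ ∀ i ∈ D, e + 2 ≤ i ∨ i + 2 ≤ e).card :=
      (Finset.card_filter_add_card_filter_not _).symm
    have h2 : ((evens Q).filter fun e => ¬ ∀ i ∈ D, e + 2 ≤ i ∨ i + 2 ≤ e) ⊆
        D.biUnion fun i => {2 * (i / 2), 2 * ((i + 1) / 2)} := by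
      intro e he
      rw [Finset.mem_filter] at he
      obtain ⟨p, hp, rfl⟩ := mem_evens.1 he.1
      have h3 := he.2
      push Not at h3
      obtain ⟨i, hi, h4, h5⟩ := h3
      rw [Finset.mem_biUnion]
      refine ⟨i, hi, ?_⟩
      rw [Finset.mem_insert, Finset.mem_singleton]
      omega
    have h3 : (D.biUnion fun i => ({2 * (i / 2), 2 * ((i + 1) / 2)} : Finset ℕ)).card ≤ D.card * 2 :=
      Finset.card_biUnion_le_card_mul _ _ _ fun i _ => Finset.card_le_two
    have h4 := Finset.card_le_card h2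
    rw [card_evens] at h1
    omega
  obtain ⟨A, hA⟩ : ∃ A, A = (evens (q + t + 1)).filter fun e => ∀ i ∈ D, e + 2 ≤ i ∨ i + 2 ≤ e := ⟨_, rfl⟩
  have hAc := hfar (q + t + 1)
  rw [← hA] at hAc
  obtain ⟨E₁, hE₁A, hE₁c⟩ := Finset.exists_subset_card_eq (s := A) (n := q - t) (by omega)
  have hcross : ∀ i ∈ D, ∀ e ∈ E₁, e + 2 ≤ i ∨ i + 2 ≤ e := by
    intro i hi e he
    have := hE₁A he
    rw [hA, Finset.mem_filter] at this
    exact this.2 i hi
  have hE₁e : FarF m E₁ := (farF_evens (m := m) (Q := q + t + 1) hm).subset (hE₁A.trans (by rw [hA]; exact Finset.filter_subset _ _))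
  have hdisj : Disjoint D E₁ := by
    rw [Finset.disjoint_left]
    intro i hi hi'
    have := hcross i hi i hi'
    omega
  have hU : FarF m (D ∪ E₁) := by
    constructor
    · intro i hi
      rcases Finset.mem_union.1 hi with hi | hi
      · exact hDf.1 i hi
      · exact hE₁e.1 i hi
    · intro i hi j hj hij
      rcases Finset.mem_union.1 hi with hi | hi <;> rcases Finset.mem_union.1 hj with hj | hj
      · exact hDf.2 i hi j hj hij
      · have := hcross i hi j hj
        omega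
      · have := hcross j hj i hi
        omega
      · exact hE₁e.2 i hi j hj hij
  have h0 := hw (D ∪ E₁) hU (by
    rw [Finset.card_union_of_disjoint hdisj, hD, hE₁c]
    omega)
  have h1 : D ⊆ (D ∪ E₁).filter fun i => v i ≠ w := by
    intro i hi
    rw [Finset.mem_filter]
    exact ⟨Finset.mem_union_left _ hi, hDw i hi⟩
  have := Finset.card_le_card h1
  omega

section sys

variable {G : Type*} [Group G] {m : ℕ} {s : ℕ → ℤ → G}

/-- every far family is conjugate to the even one -/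
theorem sim_far (h : Ext m s) {N : ℕ} : ∀ (n : ℕ) (c : Fin N → ℕ), (∀ p, c p < m) → (∀ p p', p < p' → c p + 2 ≤ c p') →
    ∑ p, c p = n → Sim s c (fun p : Fin N => 2 * (p : ℕ)) := by
  intro n
  induction n using Nat.strong_induction_on with
  | _ n ih =>
    intro c hc hfar hn
    have hge : ∀ (a : ℕ) (ha : a < N), 2 * a ≤ c ⟨a, ha⟩ := by
      intro a
      induction a with
      | zero => intro _; omega
      | succ a iha =>
        intro ha
        have h1 := iha (by omega)
        have h2 := hfar ⟨a, by omega⟩ ⟨a + 1, ha⟩ (by rw [Fin.lt_def]; exact Nat.lt_succ_self a)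
        omega
    by_cases hall : ∀ p : Fin N, c p = 2 * (p : ℕ)
    · have h1 : c = fun p : Fin N => 2 * (p : ℕ) := funext hall
      rw [h1]
      exact Sim.refl _
    · push Not at hall
      obtain ⟨p₀, hp₀⟩ := hall
      have hex : ∃ a, ∃ ha : a < N, c ⟨a, ha⟩ ≠ 2 * a := ⟨p₀, p₀.2, hp₀⟩
      classical
      obtain ⟨a, hfa⟩ : ∃ a, a = Nat.find hex := ⟨_, rfl⟩
      obtain ⟨ha, hca⟩ := hfa ▸ Nat.find_spec hex
      have hmin : ∀ b, b < a → ∀ hb : b < N, c ⟨b, hb⟩ = 2 * b := by
        intro b hb hbN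
        by_contra h1
        exact Nat.find_min hex (hfa ▸ hb) ⟨hbN, h1⟩
      have hca' : 2 * a + 1 ≤ c ⟨a, ha⟩ := by
        have := hge a ha
        omega
      obtain ⟨p, hp⟩ : ∃ p : Fin N, p = ⟨a, ha⟩ := ⟨_, rfl⟩
      rw [← hp] at hca hca'
      have hpa : (p : ℕ) = a := by rw [hp]
      -- moving the member `p` down by one
      let c' : Fin N → ℕ := fun p' => if p' = p then c p - 1 else c p'
      have hc'p : c' p = c p - 1 := by simp [c']
      have hc'o : ∀ p', p' ≠ p → c' p' = c p' := fun p' hp' => by simp [c', hp']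
      have hlo : ∀ p', p' < p → c p' + 2 ≤ c p - 1 := by
        intro p' hp'
        have h1 := hmin p' (by rw [← hpa]; exact hp') p'.2
        have h2 : c p' = 2 * (p' : ℕ) := h1
        have h3 : (p' : ℕ) < p := hp'
        omega
      have h1 : Sim s c c' := by
        refine h.sim_down (i := c p - 1) (by have := hc p; omega) fun p' => ⟨hc p', ?_⟩
        rcases lt_trichotomy p' p with h2 | h2 | h2
        · right
          refine ⟨hc'o p' h2.ne, Or.inl (hlo p' h2)⟩
        · left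
          subst h2
          exact ⟨by omega, hc'p⟩
        · right
          refine ⟨hc'o p' h2.ne', Or.inr ?_⟩
          have := hfar p p' h2
          omega
      have hsum : ∑ p', c' p' < n := by
        rw [← hn]
        apply Finset.sum_lt_sum
        · intro p' _
          by_cases h2 : p' = p
          · subst h2
            rw [hc'p]
            omega
          · rw [hc'o p' h2]
        · exact ⟨p, Finset.mem_univ _, by rw [hc'p]; omega⟩
      refine h1.trans (ih _ hsum c' ?_ ?_ rfl)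
      · intro p'
        by_cases h2 : p' = p
        · subst h2
          rw [hc'p]
          have := hc p'
          omega
        · rw [hc'o p' h2]
          exact hc p'
      · intro p' p'' hpp
        by_cases h2 : p' = p
        · subst h2
          rw [hc'p, hc'o p'' hpp.ne']
          have := hfar p' p'' hpp
          omega
        · by_cases h3 : p'' = p
          · subst h3
            rw [hc'p, hc'o p' h2]
            exact hlo p' hpp
          · rw [hc'o p' h2, hc'o p'' h3]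
            exact hfar p' p'' hpp

end sys

variable {α : Type*} [Fintype α] [DecidableEq α] {m : ℕ} {s : ℕ → ℤ → Perm α}

/-- few members of the even family deviate -/
theorem even_dev (h : Ext m s) {q r s₀ : ℕ} (hq : 2 * q < m) (hr : Fintype.card α < 2 ^ r)
    (hn : Fintype.card α < (q - r).choose (s₀ + 1)) (hh : r + 3 * s₀ ≤ q) (a : ℤ) (x : α) :
    ∃ D : Finset (Fin (q + 1)), D.card ≤ r + s₀ ∧ ∀ p p', p ∉ D → p' ∉ D →
      s (2 * (p : ℕ)) a x = s (2 * (p' : ℕ)) a x := by
  obtain ⟨u, hu⟩ : ∃ u : ℤ → Perm α, u = s (2 * q) := ⟨_, rfl⟩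
  have hcomm : ∀ i j : Fin q, (u a)⁻¹ * s (2 * (i : ℕ)) a * ((u a)⁻¹ * s (2 * (j : ℕ)) a) =
      (u a)⁻¹ * s (2 * (j : ℕ)) a * ((u a)⁻¹ * s (2 * (i : ℕ)) a) := by
    intro i j
    have hi := i.2
    have hj := j.2
    have h1 : ∀ p : ℕ, p ≤ q → s (2 * p) (a + 1) * u a = u (a + 1) * s (2 * p) a := by
      intro p hp
      rw [hu]
      exact h.self (j := 2 * p) (l := 2 * q) (by omega) hq (by omega) a
    have h2 : ∀ p : ℕ, p ≤ q → s (2 * p) a * (u a)⁻¹ = (u (a + 1))⁻¹ * s (2 * p) (a + 1) := by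
      intro p hp
      rw [mul_inv_eq_iff_eq_mul, mul_assoc, eq_inv_mul_iff_mul_eq]
      exact (h1 p hp).symm
    have h3 : s (2 * (i : ℕ)) (a + 1) * s (2 * (j : ℕ)) a = s (2 * (j : ℕ)) (a + 1) * s (2 * (i : ℕ)) a :=
      h.self (j := 2 * (i : ℕ)) (l := 2 * (j : ℕ)) (by omega) (by omega) (by omega) a
    calc (u a)⁻¹ * s (2 * (i : ℕ)) a * ((u a)⁻¹ * s (2 * (j : ℕ)) a)
        = (u a)⁻¹ * (s (2 * (i : ℕ)) a * (u a)⁻¹) * s (2 * (j : ℕ)) a := by group
      _ = (u a)⁻¹ * (u (a + 1))⁻¹ * (s (2 * (i : ℕ)) (a + 1) * s (2 * (j : ℕ)) a) := by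
          rw [h2 i (by omega)]; group
      _ = (u a)⁻¹ * (u (a + 1))⁻¹ * (s (2 * (j : ℕ)) (a + 1) * s (2 * (i : ℕ)) a) := by rw [h3]
      _ = (u a)⁻¹ * (s (2 * (j : ℕ)) a * (u a)⁻¹) * s (2 * (i : ℕ)) a := by
          rw [h2 j (by omega)]; group
      _ = _ := by group
  have hsym : ∀ π : Perm (Fin q), ∃ κ : Perm α, ∀ i : Fin q,
      κ * ((u a)⁻¹ * s (2 * (i : ℕ)) a) = (u a)⁻¹ * s (2 * (π i : ℕ)) a * κ := by
    intro π
    obtain ⟨π', h1, h2⟩ : ∃ π' : Perm (Fin (q + 1)), (∀ i : Fin q, π' i.castSucc = (π i).castSucc) ∧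
        π' (Fin.last q) = Fin.last q := by
      refine ⟨(finSuccEquivLast.trans (Equiv.optionCongr π)).trans finSuccEquivLast.symm, fun i => ?_, ?_⟩
      · simp
      · simp
    obtain ⟨κ, κ', hk⟩ := h.sim_level (h.sim_perm hq π') (l := 2 * q)
      ⟨hq, fun p => by
        have := (π' p).2
        show 2 * (π' p : ℕ) < m ∧ (2 * (π' p : ℕ) = 2 * q ∨ 2 * (π' p : ℕ) + 2 ≤ 2 * q ∨ 2 * q + 2 ≤ 2 * (π' p : ℕ))
        omega⟩ a
    refine ⟨κ, fun i => ?_⟩
    have h3 := hk i.castSucc
    have h4 := hk (Fin.last q)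
    rw [h1] at h3
    rw [h2] at h4
    simp only [Fin.val_castSucc, Fin.val_last] at h3 h4
    rw [← hu] at h4
    have h5 : (u a)⁻¹ * κ' = κ * (u a)⁻¹ := by
      rw [inv_mul_eq_iff_eq_mul, ← mul_assoc, ← h4]
      group
    rw [← mul_assoc, ← h5, mul_assoc, h3]
    group
  obtain ⟨D, hD, hD2⟩ := dev hcomm hsym hr hn hh x
  refine ⟨insert (Fin.last q) (D.map Fin.castSuccEmb), ?_, ?_⟩
  · have := Finset.card_insert_le (Fin.last q) (D.map Fin.castSuccEmb)
    rw [Finset.card_map] at this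
    omega
  · have key : ∀ p : Fin (q + 1), p ∉ insert (Fin.last q) (D.map Fin.castSuccEmb) →
        ∃ i : Fin q, i ∉ D ∧ (i : ℕ) = p := by
      intro p hp
      rw [Finset.mem_insert, not_or] at hp
      refine ⟨⟨p, ?_⟩, ?_, rfl⟩
      · have h1 : (p : ℕ) ≠ q := fun h2 => hp.1 (Fin.ext (by simpa using h2))
        have := p.2
        omega
      · intro hpD
        apply hp.2
        rw [Finset.mem_map]
        exact ⟨_, hpD, Fin.ext rfl⟩
    intro p p' hp hp'
    obtain ⟨i, hi, hip⟩ := key p hp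
    obtain ⟨i', hi', hip'⟩ := key p' hp'
    have h1 := hD2 i i' hi hi'
    rw [← hip, ← hip']
    rw [Perm.mul_apply, Perm.mul_apply] at h1
    exact (u a)⁻¹.injective h1

/-- very few members of the even family deviate -/
theorem even_dev2 (h : Ext m s) {q r s₀ l : ℕ} (hq : 2 * q < m) (hr : Fintype.card α < 2 ^ r)
    (hn : Fintype.card α < (q - r).choose (s₀ + 1)) (hh : r + 3 * s₀ ≤ q) (h2 : 2 * (r + s₀) ≤ q)
    (hl : Fintype.card α < (q + 1).choose (l + 1)) (a : ℤ) (x : α) :
    ∃ D : Finset (Fin (q + 1)), D.card ≤ l ∧ ∀ p p', p ∉ D → p' ∉ D →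
      s (2 * (p : ℕ)) a x = s (2 * (p' : ℕ)) a x := by
  obtain ⟨D, hD, hDe⟩ := even_dev h hq hr hn hh a x
  refine dev_boot (φ := fun p : Fin (q + 1) => s (2 * (p : ℕ)) a) ?_ hl (D := D) (by omega) hDe
  intro π
  obtain ⟨κ, κ', hk⟩ := h.sim_level (h.sim_perm hq π) (l := 2 * q)
    ⟨hq, fun p => by
      have := (π p).2
      show 2 * (π p : ℕ) < m ∧ (2 * (π p : ℕ) = 2 * q ∨ 2 * (π p : ℕ) + 2 ≤ 2 * q ∨ 2 * q + 2 ≤ 2 * (π p : ℕ))
      omega⟩ a
  exact ⟨κ, κ', hk⟩

/-- few members of every long far family deviate -/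
theorem far_dev (h : Ext m s) {q r s₀ l : ℕ} (hq : 2 * q < m) (hr : Fintype.card α < 2 ^ r)
    (hn : Fintype.card α < (q - r).choose (s₀ + 1)) (hh : r + 3 * s₀ ≤ q) (h2 : 2 * (r + s₀) ≤ q)
    (hl : Fintype.card α < (q + 1).choose (l + 1)) (a : ℤ) (x : α)
    {E : Finset ℕ} (hE : FarF m E) (hc : E.card = q + 1) :
    ∃ w, (E.filter fun i => s i a x ≠ w).card ≤ l := by
  let c : Fin (q + 1) → ℕ := E.orderEmbOfFin hc
  have hcE : ∀ p, c p ∈ E := fun p => Finset.orderEmbOfFin_mem E hc p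
  have hcm : StrictMono c := (E.orderEmbOfFin hc).strictMono
  have hcf : ∀ p p', p < p' → c p + 2 ≤ c p' := fun p p' hpp => hE.2 _ (hcE p) _ (hcE p') (hcm hpp)
  have h1 : Sim s (fun p : Fin (q + 1) => 2 * (p : ℕ)) c := (sim_far h _ c (fun p => hE.1 _ (hcE p)) hcf rfl).symm
  obtain ⟨κ, κ', hk⟩ := h.sim_level h1 (l := c 0) ⟨hE.1 _ (hcE 0), fun p => ⟨hE.1 _ (hcE p), by
    rcases eq_or_ne p 0 with rfl | hp
    · exact Or.inl rfl
    · right; right
      exact hcf 0 p (Fin.pos_of_ne_zero hp)⟩⟩ a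
  obtain ⟨D, hD, hD2⟩ := even_dev2 h hq hr hn hh h2 hl a (κ⁻¹ x)
  have hval : ∀ p, s (c p) a x = κ' (s (2 * (p : ℕ)) a (κ⁻¹ x)) := by
    intro p
    have h2 := DFunLike.congr_fun (hk p) (κ⁻¹ x)
    rw [Perm.mul_apply, Perm.mul_apply, ainv] at h2
    exact h2.symm
  have hlq : l + 1 ≤ q + 1 := by
    by_contra hc'
    rw [Nat.choose_eq_zero_of_lt (by omega)] at hl
    exact Nat.not_lt_zero _ hl
  obtain ⟨p₀, hp₀⟩ : ∃ p₀, p₀ ∉ D := by
    by_contra hcon
    push Not at hcon
    have h2 : D = Finset.univ := Finset.eq_univ_of_forall hcon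
    rw [h2, Finset.card_univ, Fintype.card_fin] at hD
    omega
  refine ⟨s (c p₀) a x, ?_⟩
  have h2 : (E.filter fun i => s i a x ≠ s (c p₀) a x) ⊆ D.image c := by
    intro i hi
    rw [Finset.mem_filter] at hi
    have h3 : i ∈ Set.range (E.orderEmbOfFin hc) := by rw [Finset.range_orderEmbOfFin]; exact hi.1
    obtain ⟨p, rfl⟩ := h3
    rw [Finset.mem_image]
    refine ⟨p, ?_, rfl⟩
    by_contra hp
    apply hi.2
    show s (c p) a x = s (c p₀) a x
    rw [hval, hval, hD2 p p₀ hp hp₀]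
  exact (Finset.card_le_card h2).trans (Finset.card_image_le.trans hD)

/-- the majority values -/
theorem exists_maj (h : Ext m s) {q r s₀ l : ℕ} (hr : Fintype.card α < 2 ^ r)
    (hn : Fintype.card α < (q - r).choose (s₀ + 1)) (hh : r + 3 * s₀ ≤ q) (h2 : 2 * (r + s₀) ≤ q)
    (hl : Fintype.card α < (q + 1).choose (l + 1)) (hq : 2 * l + 2 ≤ q) (hm : 2 * (q + l + 1) < m) (a : ℤ) (x : α) :
    ∃ w, ∀ E : Finset ℕ, FarF m E → (E.filter fun i => s i a x ≠ w).card ≤ l :=
  maj_of_dev (fun _ hE hc => far_dev h (by omega) hr hn hh h2 hl a x hE hc) (by omega) hm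

/-- a good even index -/
theorem exists_good {β γ : Type*} [DecidableEq β] [DecidableEq γ] {t Q : ℕ} (hm : 2 * Q < m) (hQ : 2 * t + 3 ≤ Q)
    {v : ℕ → β} {v' : ℕ → γ} {w : β} {w' : γ}
    (hv : ∀ E : Finset ℕ, FarF m E → (E.filter fun i => v i ≠ w).card ≤ t)
    (hv' : ∀ E : Finset ℕ, FarF m E → (E.filter fun i => v' i ≠ w').card ≤ t) (i : ℕ) :
    ∃ p < m, v p = w ∧ v' p = w' ∧ (p + 2 ≤ i ∨ i + 2 ≤ p) := by
  have h1 := hv _ (farF_evens hm)
  have h2 := hv' _ (farF_evens hm)
  have h3 : ((evens Q).filter (fun i => v i ≠ w) ∪ (evens Q).filter (fun i => v' i ≠ w') ∪ {i - 1, i, i + 1}).card < (evens Q).card := by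
    have h4 := Finset.card_union_le ((evens Q).filter (fun i => v i ≠ w) ∪ (evens Q).filter (fun i => v' i ≠ w')) {i - 1, i, i + 1}
    have h5 := Finset.card_union_le ((evens Q).filter (fun i => v i ≠ w)) ((evens Q).filter (fun i => v' i ≠ w'))
    have h6 : ({i - 1, i, i + 1} : Finset ℕ).card ≤ 3 := Finset.card_le_three
    rw [card_evens]
    omega
  obtain ⟨p, hp, hp'⟩ := Finset.exists_mem_notMem_of_card_lt_card h3
  rw [Finset.mem_union, Finset.mem_union, not_or, not_or, Finset.mem_filter, Finset.mem_filter] at hp'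
  obtain ⟨⟨h4, h5⟩, h6⟩ := hp'
  simp only [Finset.mem_insert, Finset.mem_singleton, not_or] at h6
  refine ⟨p, (farF_evens hm).1 p hp, ?_, ?_, ?_⟩
  · by_contra h7
    exact h4 ⟨hp, h7⟩
  · by_contra h7
    exact h5 ⟨hp, h7⟩
  · omega

/-- the structure theorem: the system is a twist of braid generators; every point is moved by few members of every far family -/
theorem structE (h : Ext m s) {q r s₀ l : ℕ} (hr : Fintype.card α < 2 ^ r)
    (hn : Fintype.card α < (q - r).choose (s₀ + 1)) (hh : r + 3 * s₀ ≤ q) (h2 : 2 * (r + s₀) ≤ q)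
    (hl : Fintype.card α < (q + 1).choose (l + 1)) (hq : 2 * l + 2 ≤ q) (hm : 2 * (q + l + 1) < m) :
    ∃ (K : ℤ → Perm α) (θ : ℕ → Perm α), K 0 = 1 ∧
      (∀ i, i < m → ∀ a, s i a = K (a + 1) * θ i * (K a)⁻¹) ∧ Grp.Br m θ ∧
      ∀ (x : α) (E : Finset ℕ), FarF m E → (E.filter fun i => θ i x ≠ x).card ≤ l := by
  classical
  choose w hw using fun a x => exists_maj h hr hn hh h2 hl hq hm a x
  obtain ⟨Q, hQ⟩ : ∃ Q, Q = q + l + 1 := ⟨_, rfl⟩
  have hQm : 2 * Q < m := by rw [hQ]; exact hm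
  have hinj : ∀ a, Function.Injective (w a) := by
    intro a x y hxy
    obtain ⟨p, hp, h1, h2, -⟩ := exists_good hQm (by omega) (hw a x) (hw a y) 0
    have h3 : s p a x = s p a y := by rw [h1, h2, hxy]
    exact (s p a).injective h3
  have hbij : ∀ a, Function.Bijective (w a) := fun a => Finite.injective_iff_bijective.mp (hinj a)
  obtain ⟨M, hMw⟩ : ∃ M : ℤ → Perm α, ∀ a x, M a x = w a x := ⟨fun a => Equiv.ofBijective (w a) (hbij a), fun a x => rfl⟩
  have hM : ∀ i, i < m → ∀ a, s i (a + 1) * M a = M (a + 1) * s i a := by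
    intro i hi a
    ext x
    rw [Perm.mul_apply, Perm.mul_apply, hMw, hMw]
    obtain ⟨p, hp, h1, h2, h3⟩ := exists_good hQm (by omega) (hw a x) (hw (a + 1) (s i a x)) i
    rw [← h1, ← h2]
    have h4 := DFunLike.congr_fun (h.self (j := i) (l := p) hi hp (by omega) a) x
    rw [Perm.mul_apply, Perm.mul_apply] at h4
    exact h4
  obtain ⟨K, hK0, hK⟩ := Fam.exists_K M
  obtain ⟨θ, hθ⟩ : ∃ θ : ℕ → Perm α, ∀ i, θ i = (M 0)⁻¹ * s i 0 := ⟨_, fun _ => rfl⟩
  have hs : ∀ i, i < m → ∀ a, s i a = K (a + 1) * θ i * (K a)⁻¹ := by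
    intro i hi
    have hup : ∀ a, s i a = K (a + 1) * θ i * (K a)⁻¹ →
        s i (a + 1) = K (a + 1 + 1) * θ i * (K (a + 1))⁻¹ := by
      intro a ha
      have h1 := hM i hi a
      rw [← eq_mul_inv_iff_mul_eq] at h1
      rw [h1, ha, hK (a + 1), hK a]
      group
    have hdn : ∀ a, s i (a + 1) = K (a + 1 + 1) * θ i * (K (a + 1))⁻¹ →
        s i a = K (a + 1) * θ i * (K a)⁻¹ := by
      intro a ha
      have h1 := hM i hi a
      rw [← inv_mul_eq_iff_eq_mul] at h1
      rw [← h1, ha, hK (a + 1), hK a]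
      group
    intro a
    induction a using Int.induction_on with
    | zero => rw [hθ, hK0, hK 0, hK0]; group
    | succ n ih => exact hup _ ih
    | pred n ih =>
      apply hdn
      rw [show (-(n : ℤ) - 1 + 1) = -n by ring]
      exact ih
  refine ⟨K, θ, hK0, hs, ⟨?_, ?_⟩, ?_⟩
  · intro i j hij hj
    have h1 := h.far i j hij hj 0
    rw [hs i (by omega) (0 + 1), hs j hj (0 + 1), hs i (by omega) 0, hs j hj 0] at h1
    have h2 : K (0 + 1 + 1) * (θ j * θ i) * (K 0)⁻¹ =
        K (0 + 1 + 1) * (θ i * θ j) * (K 0)⁻¹ := by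
      calc K (0 + 1 + 1) * (θ j * θ i) * (K 0)⁻¹
          = K (0 + 1 + 1) * θ j * (K (0 + 1))⁻¹ *
            (K (0 + 1) * θ i * (K 0)⁻¹) := by group
        _ = K (0 + 1 + 1) * θ i * (K (0 + 1))⁻¹ *
            (K (0 + 1) * θ j * (K 0)⁻¹) := h1
        _ = _ := by group
    exact (mul_left_cancel (mul_right_cancel h2)).symm
  · intro i hi
    have h1 := h.br i hi 0
    rw [show (0 : ℤ) + 2 = 0 + 1 + 1 by ring] at h1
    rw [hs i (by omega) (0 + 1 + 1), hs (i + 1) hi (0 + 1 + 1), hs i (by omega) (0 + 1),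
      hs (i + 1) hi (0 + 1), hs i (by omega) 0, hs (i + 1) hi 0] at h1
    have h2 : K (0 + 1 + 1 + 1) * (θ i * θ (i + 1) * θ i) * (K 0)⁻¹ =
        K (0 + 1 + 1 + 1) * (θ (i + 1) * θ i * θ (i + 1)) *
          (K 0)⁻¹ := by
      calc K (0 + 1 + 1 + 1) * (θ i * θ (i + 1) * θ i) * (K 0)⁻¹
          = K (0 + 1 + 1 + 1) * θ i * (K (0 + 1 + 1))⁻¹ *
            (K (0 + 1 + 1) * θ (i + 1) * (K (0 + 1))⁻¹) *
            (K (0 + 1) * θ i * (K 0)⁻¹) := by group
        _ = K (0 + 1 + 1 + 1) * θ (i + 1) * (K (0 + 1 + 1))⁻¹ *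
            (K (0 + 1 + 1) * θ i * (K (0 + 1))⁻¹) *
            (K (0 + 1) * θ (i + 1) * (K 0)⁻¹) := h1
        _ = _ := by group
    exact mul_left_cancel (mul_right_cancel h2)
  · intro x E hE
    have h1 := hw 0 x E hE
    have h2 : (E.filter fun i => θ i x ≠ x) = E.filter fun i => s i 0 x ≠ w 0 x := by
      apply Finset.filter_congr
      intro i _
      rw [not_iff_not, hθ, Perm.mul_apply, ← hMw]
      constructor
      · intro h3
        have h4 := congrArg (M 0) h3
        rwa [ainv] at h4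
      · intro h3
        rw [h3, inva]
    rw [h2]
    exact h1

end Pool.Agent.LR.Exp
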