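import Pool.Agent.LR.EGd

/-!
# LR EGc: windows and orbits

`Sh g w c = g w * ... * g (w + c - 1)`, `Wn g c (w + 1) = Sh g w c * Wn g c w`.  For `x ∈ Ω_c` the points `Wn θ c w x` are the copies of `x`
in the windows `w, ..., w + c - 1`.
-/

set_option autoImplicit false

namespace Pool.Agent.LR.Exp

open Equiv

section win

variable {G : Type*} [Group G] {m : ℕ} {g : ℕ → G}

/-- `g w * g (w + 1) * ... * g (w + c - 1)` -/
def Sh (g : ℕ → G) (w : ℕ) : ℕ → G
  | 0 => 1
  | c + 1 => Sh g w c * g (w + c)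

/-- the word that moves the first window to the position `w` -/
def Wn (g : ℕ → G) (c : ℕ) : ℕ → G
  | 0 => 1
  | w + 1 => Sh g w c * Wn g c w

/-- `Sh g (w + n - 1) c * ... * Sh g w c` -/
def ShP (g : ℕ → G) (c w : ℕ) : ℕ → G
  | 0 => 1
  | n + 1 => Sh g (w + n) c * ShP g c w n

theorem comm_one (a : G) : a * 1 = 1 * a := by rw [mul_one, one_mul]

theorem sh_comm_hi (h : Grp.Br m g) {w i : ℕ} (him : i < m) : ∀ c, w + c + 1 ≤ i → g i * Sh g w c = Sh g w c * g i := by
  intro c
  induction c with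
  | zero => intro _; exact comm_one _
  | succ c ih =>
    intro hi
    exact comm_mul (ih (by omega)) (h.comm (w + c) i (by omega) him).symm

theorem sh_comm_lo (h : Grp.Br m g) {w i : ℕ} (hi : i + 2 ≤ w) : ∀ c, w + c ≤ m → g i * Sh g w c = Sh g w c * g i := by
  intro c
  induction c with
  | zero => intro _; exact comm_one _
  | succ c ih =>
    intro hm
    exact comm_mul (ih (by omega)) (h.comm i (w + c) (by omega) (by omega))

theorem sh_conj (h : Grp.Br m g) {w : ℕ} : ∀ c i, w ≤ i → i + 2 ≤ w + c → w + c ≤ m → g (i + 1) * Sh g w c = Sh g w c * g i := by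
  intro c
  induction c with
  | zero => intro i h1 h2; omega
  | succ c ih =>
    intro i h1 h2 hm
    show g (i + 1) * (Sh g w c * g (w + c)) = Sh g w c * g (w + c) * g i
    rcases eq_or_lt_of_le (show i + 1 ≤ w + c by omega) with h3 | h3
    · obtain ⟨c', rfl⟩ : ∃ c', c = c' + 1 := ⟨c - 1, by omega⟩
      have hi : w + c' = i := by omega
      have h4 : g (i + 1) * Sh g w c' = Sh g w c' * g (i + 1) := sh_comm_hi h (by omega) c' (by omega)
      have hb := h.braid i (by omega)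
      show g (i + 1) * (Sh g w c' * g (w + c') * g (w + (c' + 1))) = Sh g w c' * g (w + c') * g (w + (c' + 1)) * g i
      rw [show w + (c' + 1) = i + 1 by omega, hi, ← mul_assoc, ← mul_assoc, h4]
      calc Sh g w c' * g (i + 1) * g i * g (i + 1) = Sh g w c' * (g (i + 1) * g i * g (i + 1)) := by simp only [mul_assoc]
        _ = Sh g w c' * (g i * g (i + 1) * g i) := by rw [hb]
        _ = _ := by simp only [mul_assoc]
    · rw [← mul_assoc, ih i h1 (by omega) (by omega), mul_assoc, h.comm i (w + c) (by omega) (by omega), ← mul_assoc]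

theorem sh_sh (h : Grp.Br m g) {w : ℕ} : ∀ c, w + c < m →
    g w * (Sh g (w + 1) c * Sh g w c) = Sh g (w + 1) c * Sh g w c * g (w + c) := by
  intro c
  induction c with
  | zero =>
    intro _
    show g w * (1 * 1) = 1 * 1 * g w
    rw [mul_one, mul_one, one_mul]
  | succ c ih =>
    intro hm
    have h1 : g (w + 1 + c) * Sh g w c = Sh g w c * g (w + 1 + c) := sh_comm_hi h (by omega) c (by omega)
    have e : Sh g (w + 1) (c + 1) * Sh g w (c + 1) = Sh g (w + 1) c * Sh g w c * (g (w + 1 + c) * g (w + c)) := by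
      show Sh g (w + 1) c * g (w + 1 + c) * (Sh g w c * g (w + c)) = _
      calc Sh g (w + 1) c * g (w + 1 + c) * (Sh g w c * g (w + c))
          = Sh g (w + 1) c * (g (w + 1 + c) * Sh g w c) * g (w + c) := by simp only [mul_assoc]
        _ = _ := by rw [h1]; simp only [mul_assoc]
    have hb := h.braid (w + c) (by omega)
    rw [e, ← mul_assoc, ih (by omega), show w + 1 + c = w + c + 1 by omega, show w + (c + 1) = w + c + 1 by omega]
    calc Sh g (w + 1) c * Sh g w c * g (w + c) * (g (w + c + 1) * g (w + c))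
        = Sh g (w + 1) c * Sh g w c * (g (w + c) * g (w + c + 1) * g (w + c)) := by simp only [mul_assoc]
      _ = Sh g (w + 1) c * Sh g w c * (g (w + c + 1) * g (w + c) * g (w + c + 1)) := by rw [hb]
      _ = _ := by simp only [mul_assoc]

theorem wn_hi (h : Grp.Br m g) {c i : ℕ} (him : i < m) : ∀ w, w + c ≤ i → g i * Wn g c w = Wn g c w * g i := by
  intro w
  induction w with
  | zero => intro _; exact comm_one _
  | succ w ih =>
    intro hi
    exact comm_mul (sh_comm_hi h him c (by omega)) (ih (by omega))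

theorem wn_in (h : Grp.Br m g) {c j : ℕ} (hj : j + 2 ≤ c) : ∀ w, w + c ≤ m + 1 → g (w + j) * Wn g c w = Wn g c w * g j := by
  intro w
  induction w with
  | zero =>
    intro _
    rw [zero_add]
    exact comm_one _
  | succ w ih =>
    intro hm
    show g (w + 1 + j) * (Sh g w c * Wn g c w) = Sh g w c * Wn g c w * g j
    rw [← mul_assoc, show w + 1 + j = w + j + 1 by omega, sh_conj h c (w + j) (by omega) (by omega) (by omega), mul_assoc,
      ih (by omega), ← mul_assoc]

theorem wn_gap (h : Grp.Br m g) {c i : ℕ} : ∀ w, i + 2 ≤ w → w + c ≤ m + 1 → g i * Wn g c w = Wn g c w * g (i + c) := by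
  intro w
  induction w with
  | zero => intro hi; omega
  | succ w ih =>
    intro hi hm
    rcases eq_or_lt_of_le hi with h1 | h1
    · obtain rfl : w = i + 1 := by omega
      show g i * (Sh g (i + 1) c * (Sh g i c * Wn g c i)) = Sh g (i + 1) c * (Sh g i c * Wn g c i) * g (i + c)
      have h2 := sh_sh h (w := i) c (by omega)
      have h3 := wn_hi h (c := c) (i := i + c) (by omega) i le_rfl
      calc g i * (Sh g (i + 1) c * (Sh g i c * Wn g c i)) = g i * (Sh g (i + 1) c * Sh g i c) * Wn g c i := by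
            simp only [mul_assoc]
        _ = Sh g (i + 1) c * Sh g i c * (g (i + c) * Wn g c i) := by rw [h2]; simp only [mul_assoc]
        _ = _ := by rw [h3]; simp only [mul_assoc]
    · show g i * (Sh g w c * Wn g c w) = Sh g w c * Wn g c w * g (i + c)
      rw [← mul_assoc, sh_comm_lo h (by omega) c (by omega), mul_assoc, ih (by omega) (by omega), ← mul_assoc]

theorem wn_add (c w : ℕ) : ∀ n, Wn g c (w + n) = ShP g c w n * Wn g c w := by
  intro n
  induction n with
  | zero => show Wn g c w = 1 * Wn g c w; rw [one_mul]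
  | succ n ih =>
    show Sh g (w + n) c * Wn g c (w + n) = Sh g (w + n) c * ShP g c w n * Wn g c w
    rw [ih, mul_assoc]

/-- the generator behind the window, moved through the shift -/
theorem sh_behind (h : Grp.Br m g) {w c : ℕ} (hc : 1 ≤ c) (hm : w + c < m) :
    g (w + c) * Sh g w c * g (w + c) = Sh g w c * g (w + c) * g (w + c - 1) := by
  obtain ⟨c', rfl⟩ : ∃ c', c = c' + 1 := ⟨c - 1, by omega⟩
  obtain ⟨i, hi⟩ : ∃ i, i = w + c' := ⟨_, rfl⟩
  have h1 : g (i + 1) * Sh g w c' = Sh g w c' * g (i + 1) := sh_comm_hi h (by omega) c' (by omega)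
  have hb := h.braid i (by omega)
  show g (w + (c' + 1)) * (Sh g w c' * g (w + c')) * g (w + (c' + 1)) = Sh g w c' * g (w + c') * g (w + (c' + 1)) * g (w + (c' + 1) - 1)
  rw [show w + (c' + 1) = i + 1 by omega, ← hi, show i + 1 - 1 = i by omega]
  calc g (i + 1) * (Sh g w c' * g i) * g (i + 1) = (g (i + 1) * Sh g w c') * (g i * g (i + 1)) := by simp only [mul_assoc]
    _ = Sh g w c' * (g (i + 1) * g i * g (i + 1)) := by rw [h1]; simp only [mul_assoc]
    _ = Sh g w c' * (g i * g (i + 1) * g i) := by rw [hb]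
    _ = _ := by simp only [mul_assoc]

end win

section orb

variable {α : Type*} {k : ℕ} {θ : ℕ → Perm α}

theorem Om.mono {C C' : ℕ} (h : C ≤ C') {x : α} (hx : x ∈ Om k θ C) : x ∈ Om k θ C' := fun i hi hk => hx i (h.trans hi) hk

theorem comm_app {a b : Perm α} (h : a * b = b * a) (x : α) : a (b x) = b (a x) := by
  have := DFunLike.congr_fun h x
  rwa [Perm.mul_apply, Perm.mul_apply] at this

theorem eq_app {a b c d : Perm α} (h : a * b = c * d) (x : α) : a (b x) = c (d x) := by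
  have := DFunLike.congr_fun h x
  rwa [Perm.mul_apply, Perm.mul_apply] at this

/-- (w1), generators behind the window -/
theorem w1_hi (h : Grp.Br (k - 1) θ) {c w i : ℕ} {x : α} (hx : x ∈ Om k θ c) (hi : w + c ≤ i) (hk : i + 1 < k) :
    θ i (Wn θ c w x) = Wn θ c w x := by
  rw [comm_app (wn_hi h (by omega) w hi), hx i (by omega) hk]

/-- (w1), generators before the window -/
theorem w1_lo (h : Grp.Br (k - 1) θ) {c w i : ℕ} {x : α} (hx : x ∈ Om k θ c) (hi : i + 2 ≤ w) (hk : w + c ≤ k) :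
    θ i (Wn θ c w x) = Wn θ c w x := by
  rw [eq_app (wn_gap h w hi (by omega)), hx (i + c) (by omega) (by omega)]

/-- (w2) -/
theorem w2 (h : Grp.Br (k - 1) θ) {c w i : ℕ} (hi : w ≤ i) (hi' : i + 2 ≤ w + c) (hk : w + c ≤ k) (x : α) :
    θ i (Wn θ c w x) = Wn θ c w (θ (i - w) x) := by
  obtain ⟨j, rfl⟩ : ∃ j, i = w + j := ⟨i - w, by omega⟩
  rw [eq_app (wn_in h (j := j) (by omega) w (by omega)), show w + j - w = j by omega]

theorem om_pres (h : Grp.Br (k - 1) θ) {c i : ℕ} (hi : i + 2 ≤ c) {x : α} (hx : x ∈ Om k θ c) : θ i x ∈ Om k θ c := by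
  intro j hj hk
  rw [← comm_app (h.comm i j (by omega) (by omega)), hx j hj hk]

/-- the square of the last moving generator preserves `Om c` -/
theorem om_T [Fintype α] (h : Grp.Br (k - 1) θ) {c l : ℕ} (hc : 1 ≤ c) (hl : 2 * l < k - c)
    (hn : Fintype.card α < (k - c).choose l) {x : α} (hx : x ∈ Om k θ c) : θ (c - 1) (θ (c - 1) x) ∈ Om k θ c := by
  intro i hi hk
  rcases eq_or_lt_of_le hi with rfl | h1
  · exact tOmega h hc hl hn hx
  · have h2 := h.comm (c - 1) i (by omega) (by omega)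
    rw [← comm_app h2, ← comm_app h2, hx i hi hk]

/-- (w3) -/
theorem w3 (h : Grp.Br (k - 1) θ) {c : ℕ} (hc : 1 ≤ c) (hT : ∀ x ∈ Om k θ c, θ (c - 1) (θ (c - 1) x) ∈ Om k θ c) :
    ∀ w, w + c < k → ∀ x ∈ Om k θ c, θ (w + c - 1) (θ (w + c - 1) (Wn θ c w x)) = Wn θ c w (θ (c - 1) (θ (c - 1) x)) := by
  intro w
  induction w with
  | zero => intro _ x _; rw [zero_add]; rfl
  | succ w ih =>
    intro hk x hx
    have h1 := sh_behind h (w := w) hc (by omega)
    have hy : θ (w + c) (Wn θ c w x) = Wn θ c w x := w1_hi h hx le_rfl (by omega)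
    have h2 : ∀ z, θ (w + c) (Sh θ w c (θ (w + c) z)) = Sh θ w c (θ (w + c) (θ (w + c - 1) z)) := by
      intro z
      have := DFunLike.congr_fun h1 z
      simpa only [Perm.mul_apply] using this
    rw [show w + 1 + c - 1 = w + c by omega]
    show θ (w + c) (θ (w + c) (Sh θ w c (Wn θ c w x))) = Sh θ w c (Wn θ c w _)
    conv_lhs => rw [← hy]
    rw [h2]
    -- `θ (w+c) (Sh (θ (w+c) (θ (w+c-1) (Wn x))))`
    have h3 : θ (w + c) (Sh θ w c (θ (w + c) (θ (w + c - 1) (Wn θ c w x)))) =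
        Sh θ w c (θ (w + c) (θ (w + c - 1) (θ (w + c - 1) (Wn θ c w x)))) := h2 _
    rw [h3, ih (by omega) x hx, w1_hi h (hT x hx) le_rfl (by omega)]

/-- (w4) -/
theorem w4 (h : Grp.Br (k - 1) θ) {c : ℕ} (hc : 1 ≤ c) {x : α} (hx : x ∈ Om k θ c) :
    ∀ w, w + c < k → θ (w + c - 1) (Wn θ c w x) = Wn θ c w x → θ (c - 1) x = x := by
  intro w
  induction w with
  | zero =>
    intro _ h1
    rw [zero_add] at h1
    exact h1
  | succ w ih =>
    intro hk h0
    apply ih (by omega)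
    have h1 := sh_behind h (w := w) hc (by omega)
    have hy : θ (w + c) (Wn θ c w x) = Wn θ c w x := w1_hi h hx le_rfl (by omega)
    have h2 : ∀ z, θ (w + c) (Sh θ w c (θ (w + c) z)) = Sh θ w c (θ (w + c) (θ (w + c - 1) z)) := by
      intro z
      have := DFunLike.congr_fun h1 z
      simpa only [Perm.mul_apply] using this
    rw [show w + 1 + c - 1 = w + c by omega] at h0
    have h3 : θ (w + c) (Sh θ w c (Wn θ c w x)) = Sh θ w c (Wn θ c w x) := h0
    have h4 := h2 (Wn θ c w x)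
    rw [hy, h3] at h4
    have h5 := (Sh θ w c).injective h4
    -- `Wn x = θ (w+c) (θ (w+c-1) (Wn x))`
    apply (θ (w + c)).injective
    rw [← h5, hy]

/-- the group generated by the `θ i` -/
def HH (k : ℕ) (θ : ℕ → Perm α) : Subgroup (Perm α) := Subgroup.closure {p | ∃ i, i + 1 < k ∧ p = θ i}

theorem theta_mem {i : ℕ} (hi : i + 1 < k) : θ i ∈ HH k θ := Subgroup.subset_closure ⟨i, hi, rfl⟩

theorem HH_fix {y : α} (hy : ∀ i, i + 1 < k → θ i y = y) {g : Perm α} (hg : g ∈ HH k θ) : g y = y := by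
  have h1 : HH k θ ≤ MulAction.stabilizer (Perm α) y := by
    rw [HH, Subgroup.closure_le]
    rintro p ⟨i, hi, rfl⟩
    exact hy i hi
  exact h1 hg

theorem sh_mem {w : ℕ} : ∀ c, w + c < k → Sh θ w c ∈ HH k θ := by
  intro c
  induction c with
  | zero => intro _; exact Subgroup.one_mem _
  | succ c ih => intro hk; exact Subgroup.mul_mem _ (ih (by omega)) (theta_mem (by omega))

theorem wn_mem {c : ℕ} : ∀ w, w + c ≤ k → Wn θ c w ∈ HH k θ := by
  intro w
  induction w with
  | zero => intro _; exact Subgroup.one_mem _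
  | succ w ih => intro hk; exact Subgroup.mul_mem _ (sh_mem c (by omega)) (ih (by omega))

/-- (w5) -/
theorem w5 (h : Grp.Br (k - 1) θ) {c w w' : ℕ} {x : α} (hx : x ∈ Om k θ c) (hw : w + c + 1 ≤ w') (hk : w' + c ≤ k)
    (heq : Wn θ c w x = Wn θ c w' x) : ∀ i, i + 1 < k → θ i x = x := by
  have h1 : ∀ i, i + 1 < k → θ i (Wn θ c w x) = Wn θ c w x := by
    intro i hi
    by_cases h2 : w + c ≤ i
    · exact w1_hi h hx h2 hi
    · rw [heq]
      exact w1_lo h hx (by omega) hk
  have h2 : Wn θ c w (Wn θ c w x) = Wn θ c w x := HH_fix h1 (wn_mem w (by omega))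
  have h3 := (Wn θ c w).injective h2
  rw [← h3]
  exact h1

/-- the words of the shift fix the points that are fixed by the `θ i` with `i ≥ w` -/
theorem sh_fix {w : ℕ} {y : α} (hy : ∀ i, w ≤ i → i + 1 < k → θ i y = y) : ∀ c w', w ≤ w' → w' + c < k → Sh θ w' c y = y := by
  intro c
  induction c with
  | zero => intro _ _ _; rfl
  | succ c ih =>
    intro w' hw hk
    show Sh θ w' c (θ (w' + c) y) = y
    rw [hy _ (by omega) (by omega), ih w' hw (by omega)]

/-- (w6) -/
theorem shP_fix {c w : ℕ} {y : α} (hy : ∀ i, w ≤ i → i + 1 < k → θ i y = y) : ∀ n, w + n + c ≤ k → ShP θ c w n y = y := by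
  intro n
  induction n with
  | zero => intro _; rfl
  | succ n ih =>
    intro hk
    show Sh θ (w + n) c (ShP θ c w n y) = y
    rw [ih (by omega), sh_fix hy c (w + n) (by omega) (by omega)]

/-- moving a generator down -/
theorem conj_down (h : Grp.Br (k - 1) θ) {a : ℕ} : ∀ n, a + n + 1 < k → ∃ b ∈ HH k θ,
    (∀ j, j + 2 ≤ a → b * θ j = θ j * b) ∧ b * θ (a + n) = θ a * b := by
  intro n
  induction n with
  | zero => intro _; exact ⟨1, Subgroup.one_mem _, fun j _ => by rw [one_mul, mul_one], by rw [one_mul, mul_one]; rfl⟩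
  | succ n ih =>
    intro hk
    obtain ⟨b, hb, h1, h2⟩ := ih (by omega)
    refine ⟨b * (θ (a + n + 1) * θ (a + n)), ?_, ?_, ?_⟩
    · exact Subgroup.mul_mem _ hb (Subgroup.mul_mem _ (theta_mem hk) (theta_mem (by omega)))
    · intro j hj
      have h3 := h1 j hj
      have h4 := h.comm j (a + n + 1) (by omega) (by omega)
      have h5 := h.comm j (a + n) (by omega) (by omega)
      have h6 : θ j * (b * (θ (a + n + 1) * θ (a + n))) = b * (θ (a + n + 1) * θ (a + n)) * θ j :=
        comm_mul h3.symm (comm_mul h4 h5)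
      exact h6.symm
    · have hbr := h.braid (a + n) (by omega)
      rw [show a + (n + 1) = a + n + 1 by omega]
      calc b * (θ (a + n + 1) * θ (a + n)) * θ (a + n + 1) = b * (θ (a + n + 1) * θ (a + n) * θ (a + n + 1)) := by
            simp only [mul_assoc]
        _ = b * (θ (a + n) * θ (a + n + 1) * θ (a + n)) := by rw [hbr]
        _ = (b * θ (a + n)) * (θ (a + n + 1) * θ (a + n)) := by simp only [mul_assoc]
        _ = _ := by rw [h2]; simp only [mul_assoc]

variable [DecidableEq α]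

/-- every orbit meets `Om (2 t)` -/
theorem exists_om (h : Grp.Br (k - 1) θ) {t : ℕ}
    (hF : ∀ (x : α) (E : Finset ℕ), FarF (k - 1) E → (E.filter fun i => θ i x ≠ x).card ≤ t) (x : α) :
    ∃ g ∈ HH k θ, g x ∈ Om k θ (2 * t) := by
  classical
  let P : ℕ → Prop := fun l => ∃ g ∈ HH k θ, ∀ p < l, 2 * p + 1 < k ∧ θ (2 * p) (g x) ≠ g x
  have hP0 : P 0 := ⟨1, Subgroup.one_mem _, fun p hp => absurd hp (Nat.not_lt_zero _)⟩
  have hPt : ∀ l, P l → l ≤ t := by
    rintro l ⟨g, -, h2⟩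
    have h3 : ((Finset.range l).image fun p => 2 * p).card = l := by
      rw [Finset.card_image_of_injective _ (fun a b hab => by
        have hab' : 2 * a = 2 * b := hab
        omega), Finset.card_range]
    have h4 : FarF (k - 1) ((Finset.range l).image fun p => 2 * p) := by
      refine ⟨fun i hi => ?_, fun i hi j hj hij => ?_⟩
      · rw [Finset.mem_image] at hi
        obtain ⟨p, hp, rfl⟩ := hi
        have := (h2 p (Finset.mem_range.1 hp)).1
        omega
      · rw [Finset.mem_image] at hi hj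
        obtain ⟨p, hp, rfl⟩ := hi
        obtain ⟨p', hp', rfl⟩ := hj
        omega
    have h5 := hF (g x) _ h4
    rw [Finset.filter_true_of_mem, h3] at h5
    · exact h5
    · intro i hi
      rw [Finset.mem_image] at hi
      obtain ⟨p, hp, rfl⟩ := hi
      exact (h2 p (Finset.mem_range.1 hp)).2
  obtain ⟨l, hl⟩ : ∃ l, l = Nat.findGreatest P t := ⟨_, rfl⟩
  have hPl : P l := by
    rw [hl]
    exact Nat.findGreatest_spec (m := 0) (Nat.zero_le _) hP0
  have hPl' : ¬ P (l + 1) := by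
    intro h1
    have h2 := hPt _ h1
    have h3 := Nat.le_findGreatest h2 h1
    omega
  have hlt : l ≤ t := hPt l hPl
  obtain ⟨g, hg, h2⟩ := hPl
  refine ⟨g, hg, Om.mono (C := 2 * l) (by omega) ?_⟩
  intro i hi hk
  by_contra h3
  apply hPl'
  obtain ⟨b, hb, h4, h5⟩ := conj_down h (a := 2 * l) (i - 2 * l) (by omega)
  rw [show 2 * l + (i - 2 * l) = i by omega] at h5
  refine ⟨b * g, Subgroup.mul_mem _ hb hg, fun p hp => ⟨by omega, ?_⟩⟩
  rw [Perm.mul_apply]
  rcases Nat.lt_succ_iff_lt_or_eq.1 hp with h6 | rfl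
  · rw [← comm_app (h4 (2 * p) (by omega))]
    exact fun h7 => (h2 p h6).2 (b.injective h7)
  · rw [← eq_app h5]
    exact fun h7 => h3 (b.injective h7)

omit [DecidableEq α] in
/-- the minimal window -/
theorem exists_min {t : ℕ} {x : α} (h1 : ∃ g ∈ HH k θ, g x ∈ Om k θ (2 * t)) (h2 : ¬ ∀ i, i + 1 < k → θ i x = x) :
    ∃ c, 1 ≤ c ∧ c ≤ 2 * t ∧ ∃ g ∈ HH k θ, g x ∈ Om k θ c ∧ ∀ g' ∈ HH k θ, g' (g x) ∉ Om k θ (c - 1) := by
  classical
  have hex : ∃ c, ∃ g ∈ HH k θ, g x ∈ Om k θ c := ⟨_, h1⟩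
  obtain ⟨g, hg, hgx⟩ := Nat.find_spec hex
  have hc1 : 1 ≤ Nat.find hex := by
    rw [Nat.one_le_iff_ne_zero]
    intro h0
    rw [h0] at hgx
    apply h2
    have h3 : ∀ i, i + 1 < k → θ i (g x) = g x := fun i hi => hgx i (Nat.zero_le _) hi
    have h4 : g⁻¹ (g x) = g x := HH_fix h3 (Subgroup.inv_mem _ hg)
    rw [inva] at h4
    intro i hi
    have := h3 i hi
    rwa [← h4] at this
  refine ⟨Nat.find hex, hc1, Nat.find_min' hex h1, g, hg, hgx, fun g' hg' h3 => ?_⟩
  exact Nat.find_min hex (m := Nat.find hex - 1) (by omega) ⟨g' * g, Subgroup.mul_mem _ hg' hg, h3⟩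

/-- a generator fixing two given points -/
theorem two_fix {t Q : ℕ} (hm : 2 * Q < k - 1) (hQ : 2 * t + 3 ≤ Q)
    (hF : ∀ (x : α) (E : Finset ℕ), FarF (k - 1) E → (E.filter fun i => θ i x ≠ x).card ≤ t) (x y : α) :
    ∃ i, i + 1 < k ∧ θ i x = x ∧ θ i y = y := by
  obtain ⟨p, hp, h1, h2, -⟩ := exists_good (v := fun i => θ i x) (v' := fun i => θ i y) hm hQ (hF x) (hF y) 0
  exact ⟨p, by omega, h1, h2⟩

omit [DecidableEq α] in
/-- (fin) windows of one strand -/
theorem fin_sq (h : Grp.Br (k - 1) θ) (h1 : ∀ x, ∃ g ∈ HH k θ, g x ∈ Om k θ 1)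
    (h2 : ∀ x ∈ Om k θ 1, θ 0 (θ 0 x) = x) {i : ℕ} (hi : i + 1 < k) : θ i * θ i = 1 := by
  have key : ∀ x ∈ Om k θ 1, ∀ w, w < k → ∀ i, i + 1 < k →
      (∃ w', w' < k ∧ θ i (Wn θ 1 w x) = Wn θ 1 w' x) ∧ θ i (θ i (Wn θ 1 w x)) = Wn θ 1 w x := by
    intro x hx
    have hT : ∀ y ∈ Om k θ 1, θ (1 - 1) (θ (1 - 1) y) ∈ Om k θ 1 := by
      intro y hy
      have := h2 y hy
      rw [show 1 - 1 = 0 from rfl, this]
      exact hy
    have hs : ∀ w, θ w (Wn θ 1 w x) = Wn θ 1 (w + 1) x := by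
      intro w
      show θ w (Wn θ 1 w x) = (Sh θ w 1 * Wn θ 1 w) x
      rw [show Sh θ w 1 = 1 * θ (w + 0) from rfl, one_mul]
      rfl
    have hsq : ∀ w, w + 1 < k → θ w (θ w (Wn θ 1 w x)) = Wn θ 1 w x := by
      intro w hw
      have h3 := w3 h le_rfl hT w hw x hx
      rw [show w + 1 - 1 = w by omega, show 1 - 1 = 0 from rfl, h2 x hx] at h3
      exact h3
    intro w hw i hi
    rcases lt_trichotomy i w with h3 | rfl | h3
    · rcases eq_or_lt_of_le (show i + 1 ≤ w by omega) with rfl | h4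
      · have h5 : θ i (Wn θ 1 (i + 1) x) = Wn θ 1 i x := by rw [← hs i, hsq i hi]
        exact ⟨⟨i, by omega, h5⟩, by rw [h5, hs i]⟩
      · have h5 := w1_lo h hx (i := i) (w := w) (by omega) (by omega)
        exact ⟨⟨w, hw, h5⟩, by rw [h5, h5]⟩
    · exact ⟨⟨i + 1, hi, hs i⟩, hsq i hi⟩
    · have h5 := w1_hi h hx (i := i) (w := w) (by omega) hi
      exact ⟨⟨w, hw, h5⟩, by rw [h5, h5]⟩
  ext z
  rw [Perm.mul_apply, Perm.one_apply]
  obtain ⟨g, hg, hgz⟩ := h1 z
  obtain ⟨x, hx⟩ : ∃ x, x = g z := ⟨_, rfl⟩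
  rw [← hx] at hgz
  -- the orbit of `x`
  have horb : ∀ p ∈ HH k θ, ∀ w, w < k → (∃ w', w' < k ∧ p (Wn θ 1 w x) = Wn θ 1 w' x) ∧
      ∃ w', w' < k ∧ p⁻¹ (Wn θ 1 w x) = Wn θ 1 w' x := by
    intro p hp
    induction hp using Subgroup.closure_induction with
    | mem p hp =>
      obtain ⟨i, hi, rfl⟩ := hp
      intro w hw
      obtain ⟨⟨w', hw', h3⟩, h4⟩ := key x hgz w hw i hi
      refine ⟨⟨w', hw', h3⟩, w', hw', ?_⟩
      rw [← h3, Perm.inv_eq_iff_eq, h4]
    | one => exact fun w hw => ⟨⟨w, hw, rfl⟩, w, hw, by rw [inv_one]; rfl⟩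
    | mul p q _ _ ihp ihq =>
      intro w hw
      constructor
      · obtain ⟨w', hw', h3⟩ := (ihq w hw).1
        obtain ⟨w'', hw'', h4⟩ := (ihp w' hw').1
        exact ⟨w'', hw'', by rw [Perm.mul_apply, h3, h4]⟩
      · obtain ⟨w', hw', h3⟩ := (ihp w hw).2
        obtain ⟨w'', hw'', h4⟩ := (ihq w' hw').2
        exact ⟨w'', hw'', by rw [mul_inv_rev, Perm.mul_apply, h3, h4]⟩
    | inv p _ ih =>
      intro w hw
      refine ⟨(ih w hw).2, ?_⟩
      rw [inv_inv]
      exact (ih w hw).1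
  obtain ⟨w', hw', h3⟩ := (horb g hg 0 (by omega)).2
  have h4 : z = Wn θ 1 w' x := by
    rw [← h3, hx]
    show z = g⁻¹ (g z)
    rw [inva]
  rw [h4]
  exact (key x hgz w' hw' i hi).2

end orb

end Pool.Agent.LR.Exp
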