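import Pool.Agent.LR.EGb

/-!
# LR EGd: the square of the last moving generator stabilises `Ω_C`

`C ≥ 1`, `x` is fixed by all `θ_i` with `i ≥ C`, `t_0 = θ_{C-1}^2`, `t_{j+1} = b_j t_j b_j⁻¹`, `b_j = θ_{C+j}`.  The element `b_j`
commutes with `t_i` (`i ≠ j, j + 1`) and with `t_j t_{j+1}`.  If `card α < (k - C).choose l`, `2 l < k - C`, two of the points
`t_{i_1} ... t_{i_l} x` (`i_1 < ... < i_l`) agree; applying the `b_j` one obtains `t_0 x = t_1 x`.
-/

set_option autoImplicit false

namespace Pool.Agent.LR.Exp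

open Equiv

variable {α : Type*}

/-- the point `ε_i ε_{i+1} ... ε_{i+n-1} x`, `ε_j = t_j` if `j ∈ I` and `1` otherwise -/
def RP (t : ℕ → Perm α) (x : α) (I : Finset ℕ) : ℕ → ℕ → α
  | _, 0 => x
  | i, n + 1 => if i ∈ I then t i (RP t x I (i + 1) n) else RP t x I (i + 1) n

section abs

variable {t b : ℕ → Perm α} {x : α} {N : ℕ}

theorem RP_succ_mem {I : Finset ℕ} {i n : ℕ} (h : i ∈ I) : RP t x I i (n + 1) = t i (RP t x I (i + 1) n) := by
  show (if i ∈ I then _ else _) = _
  rw [if_pos h]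

theorem RP_succ_not {I : Finset ℕ} {i n : ℕ} (h : i ∉ I) : RP t x I i (n + 1) = RP t x I (i + 1) n := by
  show (if i ∈ I then _ else _) = _
  rw [if_neg h]

theorem RP_congr {I I' : Finset ℕ} : ∀ (n i : ℕ), (∀ j, i ≤ j → (j ∈ I ↔ j ∈ I')) → RP t x I i n = RP t x I' i n := by
  intro n
  induction n with
  | zero => intro i _; rfl
  | succ n ih =>
    intro i h
    have h1 := ih (i + 1) (fun j hj => h j (by omega))
    by_cases h2 : i ∈ I
    · rw [RP_succ_mem h2, RP_succ_mem ((h i le_rfl).1 h2), h1]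
    · rw [RP_succ_not h2, RP_succ_not (fun h3 => h2 ((h i le_rfl).2 h3)), h1]

theorem RP_fix (h1 : ∀ j i, j + 1 < N → i < N → i ≠ j → i ≠ j + 1 → b j * t i = t i * b j)
    (hx : ∀ j, j + 1 < N → b j x = x) {I : Finset ℕ} {j : ℕ} (hj : j + 1 < N) :
    ∀ (n i : ℕ), j + 2 ≤ i → i + n ≤ N → b j (RP t x I i n) = RP t x I i n := by
  intro n
  induction n with
  | zero => intro i _ _; exact hx j hj
  | succ n ih =>
    intro i hi hN
    have h2 := ih (i + 1) (by omega) (by omega)
    by_cases h3 : i ∈ I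
    · rw [RP_succ_mem h3]
      have h4 := DFunLike.congr_fun (h1 j i hj (by omega) (by omega) (by omega)) (RP t x I (i + 1) n)
      rw [Perm.mul_apply, Perm.mul_apply, h2] at h4
      exact h4
    · rw [RP_succ_not h3, h2]

theorem RP_same (h1 : ∀ j i, j + 1 < N → i < N → i ≠ j → i ≠ j + 1 → b j * t i = t i * b j)
    (h3 : ∀ j, j + 1 < N → b j * (t j * t (j + 1)) = t j * t (j + 1) * b j)
    (hx : ∀ j, j + 1 < N → b j x = x) {I : Finset ℕ} {j : ℕ} (hj : j + 1 < N) (hI : j ∈ I ↔ j + 1 ∈ I) :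
    ∀ (n i : ℕ), i ≤ j → i + n = N → b j (RP t x I i n) = RP t x I i n := by
  intro n
  induction n with
  | zero => intro i _ _; exact hx j hj
  | succ n ih =>
    intro i hi hN
    rcases eq_or_lt_of_le hi with rfl | hlt
    · obtain ⟨n, rfl⟩ : ∃ n', n = n' + 1 := ⟨n - 1, by omega⟩
      have hf := RP_fix h1 hx (I := I) hj n (i + 1 + 1) (by omega) (by omega)
      by_cases h4 : i ∈ I
      · rw [RP_succ_mem h4, RP_succ_mem (hI.1 h4)]
        have h5 := DFunLike.congr_fun (h3 i hj) (RP t x I (i + 1 + 1) n)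
        rw [Perm.mul_apply, Perm.mul_apply, Perm.mul_apply, Perm.mul_apply, hf] at h5
        exact h5
      · rw [RP_succ_not h4, RP_succ_not (fun h5 => h4 (hI.2 h5)), hf]
    · have h2 := ih (i + 1) (by omega) (by omega)
      by_cases h4 : i ∈ I
      · rw [RP_succ_mem h4]
        have h5 := DFunLike.congr_fun (h1 j i hj (by omega) (by omega) (by omega)) (RP t x I (i + 1) n)
        rw [Perm.mul_apply, Perm.mul_apply, h2] at h5
        exact h5
      · rw [RP_succ_not h4, h2]

/-- the neighbouring set -/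
def swp (I : Finset ℕ) (j : ℕ) : Finset ℕ := insert (j + 1) (I.erase j)

theorem RP_swp (h1 : ∀ j i, j + 1 < N → i < N → i ≠ j → i ≠ j + 1 → b j * t i = t i * b j)
    (h2 : ∀ j, j + 1 < N → b j * t j = t (j + 1) * b j)
    (hx : ∀ j, j + 1 < N → b j x = x) {I : Finset ℕ} {j : ℕ} (hj : j + 1 < N) (hI : j ∈ I) (hI' : j + 1 ∉ I) :
    ∀ (n i : ℕ), i ≤ j → i + n = N → b j (RP t x I i n) = RP t x (swp I j) i n := by
  have hj1 : j ∉ swp I j := by
    unfold swp
    simp
  have hj2 : j + 1 ∈ swp I j := by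
    unfold swp
    simp
  have hjo : ∀ i, i ≠ j → i ≠ j + 1 → (i ∈ I ↔ i ∈ swp I j) := by
    intro i hi hi'
    unfold swp
    simp [hi, hi']
  intro n
  induction n with
  | zero => intro i _ _; omega
  | succ n ih =>
    intro i hi hN
    rcases eq_or_lt_of_le hi with rfl | hlt
    · obtain ⟨n, rfl⟩ : ∃ n', n = n' + 1 := ⟨n - 1, by omega⟩
      have hf := RP_fix h1 hx (I := I) hj n (i + 1 + 1) (by omega) (by omega)
      rw [RP_succ_mem hI, RP_succ_not hI', RP_succ_not hj1, RP_succ_mem hj2,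
        ← RP_congr (I := I) n (i + 1 + 1) (fun j' hj' => hjo j' (by omega) (by omega))]
      have h5 := DFunLike.congr_fun (h2 i hj) (RP t x I (i + 1 + 1) n)
      rw [Perm.mul_apply, Perm.mul_apply, hf] at h5
      exact h5
    · have h3 := ih (i + 1) (by omega) (by omega)
      by_cases h4 : i ∈ I
      · rw [RP_succ_mem h4, RP_succ_mem ((hjo i (by omega) (by omega)).1 h4), ← h3]
        have h5 := DFunLike.congr_fun (h1 j i hj (by omega) (by omega) (by omega)) (RP t x I (i + 1) n)
        rw [Perm.mul_apply, Perm.mul_apply] at h5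
        exact h5
      · rw [RP_succ_not h4, RP_succ_not (fun h5 => h4 ((hjo i (by omega) (by omega)).2 h5)), h3]

/-- cancelling the factors below `j` -/
theorem RP_cancel {I : Finset ℕ} {j : ℕ} (hj : j + 1 < N) (hI : j ∈ I) (hI' : j + 1 ∉ I) :
    ∀ (n i : ℕ), i ≤ j → i + n = N → RP t x I i n = RP t x (swp I j) i n →
      t j (RP t x I (j + 2) (N - j - 2)) = t (j + 1) (RP t x I (j + 2) (N - j - 2)) := by
  have hj1 : j ∉ swp I j := by
    unfold swp
    simp
  have hj2 : j + 1 ∈ swp I j := by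
    unfold swp
    simp
  have hjo : ∀ i, i ≠ j → i ≠ j + 1 → (i ∈ I ↔ i ∈ swp I j) := by
    intro i hi hi'
    unfold swp
    simp [hi, hi']
  intro n
  induction n with
  | zero => intro i _ _; omega
  | succ n ih =>
    intro i hi hN heq
    rcases eq_or_lt_of_le hi with rfl | hlt
    · obtain ⟨n, rfl⟩ : ∃ n', n = n' + 1 := ⟨n - 1, by omega⟩
      rw [RP_succ_mem hI, RP_succ_not hI', RP_succ_not hj1, RP_succ_mem hj2,
        ← RP_congr (I := I) n (i + 1 + 1) (fun j' hj' => hjo j' (by omega) (by omega))] at heq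
      rw [show N - i - 2 = n by omega]
      exact heq
    · apply ih (i + 1) (by omega) (by omega)
      by_cases h4 : i ∈ I
      · rw [RP_succ_mem h4, RP_succ_mem ((hjo i (by omega) (by omega)).1 h4)] at heq
        exact (t i).injective heq
      · rw [RP_succ_not h4, RP_succ_not (fun h5 => h4 ((hjo i (by omega) (by omega)).2 h5))] at heq
        exact heq

/-- moving a coincidence upwards -/
theorem RP_up (h1 : ∀ j i, j + 1 < N → i < N → i ≠ j → i ≠ j + 1 → b j * t i = t i * b j)
    (h2 : ∀ j, j + 1 < N → b j * t j = t (j + 1) * b j)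
    (h3 : ∀ j, j + 1 < N → b j * (t j * t (j + 1)) = t j * t (j + 1) * b j)
    (hx : ∀ j, j + 1 < N → b j x = x) {I : Finset ℕ} :
    ∀ (n j : ℕ), j + 2 + n = N → t j (RP t x I (j + 2) n) = t (j + 1) (RP t x I (j + 2) n) →
      ∃ i, i + 1 < N ∧ t i x = t (i + 1) x := by
  intro n
  induction n with
  | zero => intro j hj heq; exact ⟨j, by omega, heq⟩
  | succ n ih =>
    intro j hj heq
    apply ih (j + 1) (by omega)
    obtain ⟨z, hz⟩ : ∃ z, z = RP t x I (j + 1 + 2) n := ⟨_, rfl⟩
    have hf : b (j + 1) z = z := by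
      rw [hz]
      exact RP_fix h1 hx (by omega) n (j + 1 + 2) (by omega) (by omega)
    have e1 : b (j + 1) (t j z) = t j z := by
      have h5 := DFunLike.congr_fun (h1 (j + 1) j (by omega) (by omega) (by omega) (by omega)) z
      rw [Perm.mul_apply, Perm.mul_apply, hf] at h5
      exact h5
    have e2 : b (j + 1) (t (j + 1) z) = t (j + 1 + 1) z := by
      have h5 := DFunLike.congr_fun (h2 (j + 1) (by omega)) z
      rw [Perm.mul_apply, Perm.mul_apply, hf] at h5
      exact h5
    rw [← hz]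
    by_cases h4 : j + 2 ∈ I
    · rw [RP_succ_mem h4, ← hz] at heq
      -- t j (t (j+2) z) = t (j+1) (t (j+2) z)
      have e3 : b (j + 1) (t (j + 1) (t (j + 1 + 1) z)) = t (j + 1) (t (j + 1 + 1) z) := by
        have h5 := DFunLike.congr_fun (h3 (j + 1) (by omega)) z
        rw [Perm.mul_apply, Perm.mul_apply, Perm.mul_apply, Perm.mul_apply, hf] at h5
        exact h5
      have e4 : b (j + 1) (t j (t (j + 1) z)) = t j (t (j + 1 + 1) z) := by
        have h5 := DFunLike.congr_fun (h1 (j + 1) j (by omega) (by omega) (by omega) (by omega)) (t (j + 1) z)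
        rw [Perm.mul_apply, Perm.mul_apply, e2] at h5
        exact h5
      -- b⁻¹ of both sides
      have e5 : t j (t (j + 1) z) = t (j + 1) (t (j + 1 + 1) z) := by
        apply (b (j + 1)).injective
        rw [e4, e3]
        exact heq
      have e6 : t j (t (j + 1) z) = t j (t (j + 1 + 1) z) := e5.trans heq.symm
      exact (t j).injective e6
    · rw [RP_succ_not h4, ← hz] at heq
      have e3 := congrArg (b (j + 1)) heq
      rw [e1, e2] at e3
      exact heq.symm.trans e3

/-- moving a coincidence downwards -/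
theorem RP_down (h1 : ∀ j i, j + 1 < N → i < N → i ≠ j → i ≠ j + 1 → b j * t i = t i * b j)
    (h2 : ∀ j, j + 1 < N → b j * t j = t (j + 1) * b j)
    (hx : ∀ j, j + 1 < N → b j x = x) : ∀ i, i + 1 < N → t i x = t (i + 1) x → t 0 x = t 1 x := by
  intro i
  induction i with
  | zero => intro _ h; exact h
  | succ i ih =>
    intro hi h
    apply ih (by omega)
    have e1 : b i (t i x) = t (i + 1) x := by
      have h5 := DFunLike.congr_fun (h2 i (by omega)) x
      rw [Perm.mul_apply, Perm.mul_apply, hx i (by omega)] at h5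
      exact h5
    have e2 : b i (t (i + 1 + 1) x) = t (i + 1 + 1) x := by
      have h5 := DFunLike.congr_fun (h1 i (i + 1 + 1) (by omega) (by omega) (by omega) (by omega)) x
      rw [Perm.mul_apply, Perm.mul_apply, hx i (by omega)] at h5
      exact h5
    apply (b i).injective
    rw [e1, h, e2]

/-- the coincidence theorem -/
theorem RP_main [Fintype α] (h1 : ∀ j i, j + 1 < N → i < N → i ≠ j → i ≠ j + 1 → b j * t i = t i * b j)
    (h2 : ∀ j, j + 1 < N → b j * t j = t (j + 1) * b j)
    (h3 : ∀ j, j + 1 < N → b j * (t j * t (j + 1)) = t j * t (j + 1) * b j)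
    (hx : ∀ j, j + 1 < N → b j x = x) {l : ℕ} (hl : 2 * l < N) (hN : Fintype.card α < N.choose l) :
    t 0 x = t 1 x := by
  obtain ⟨I, hI, J, hJ, hIJ, heq⟩ : ∃ I ∈ (Finset.range N).powersetCard l, ∃ J ∈ (Finset.range N).powersetCard l,
      I ≠ J ∧ RP t x I 0 N = RP t x J 0 N := by
    apply Finset.exists_ne_map_eq_of_card_lt_of_maps_to (t := (Finset.univ : Finset α))
    · rw [Finset.card_powersetCard, Finset.card_range, Finset.card_univ]
      exact hN
    · intro _ _
      exact Finset.mem_coe.2 (Finset.mem_univ _)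
  rw [Finset.mem_powersetCard] at hI hJ
  -- the key step
  have key : ∀ (I' : Finset ℕ) (j : ℕ), j + 1 < N → j ∈ I' → j + 1 ∉ I' →
      RP t x I' 0 N = RP t x (swp I' j) 0 N → t 0 x = t 1 x := by
    intro I' j hj h4 h5 h6
    have h7 := RP_cancel (t := t) (x := x) hj h4 h5 N 0 (Nat.zero_le _) (by omega) h6
    obtain ⟨i, hi, h8⟩ := RP_up h1 h2 h3 hx (I := I') (N - j - 2) j (by omega) h7
    exact RP_down h1 h2 hx i hi h8
  -- one set is not constant and the other constant on `{j, j + 1}`
  have key2 : ∀ (I J : Finset ℕ) (j : ℕ), j + 1 < N → RP t x I 0 N = RP t x J 0 N →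
      ¬ (j ∈ I ↔ j + 1 ∈ I) → (j ∈ J ↔ j + 1 ∈ J) → t 0 x = t 1 x := by
    intro I J j hj heq hI hJ
    have hJ' := RP_same h1 h3 hx hj hJ N 0 (Nat.zero_le _) (by omega)
    by_cases h4 : j ∈ I
    · have h5 : j + 1 ∉ I := fun h5 => hI ⟨fun _ => h5, fun _ => h4⟩
      apply key I j hj h4 h5
      have h6 := RP_swp h1 h2 hx hj h4 h5 N 0 (Nat.zero_le _) (by omega)
      rw [← h6, heq, hJ']
    · have h5 : j + 1 ∈ I := by
        by_contra h5
        exact hI ⟨fun h => absurd h h4, fun h => absurd h h5⟩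
      -- `I = swp I' j` for `I' = insert j (I.erase (j + 1))`
      obtain ⟨I', hI'⟩ : ∃ I', I' = insert j (I.erase (j + 1)) := ⟨_, rfl⟩
      have h6 : j ∈ I' := by rw [hI']; exact Finset.mem_insert_self _ _
      have h7 : j + 1 ∉ I' := by
        rw [hI', Finset.mem_insert, not_or]
        exact ⟨by omega, Finset.notMem_erase _ _⟩
      have h8 : swp I' j = I := by
        rw [hI']
        unfold swp
        ext i
        simp only [Finset.mem_insert, Finset.mem_erase]
        constructor
        · rintro (rfl | ⟨h9, h10 | h10⟩)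
          · exact h5
          · exact absurd h10 h9
          · exact h10.2
        · intro h9
          by_cases h10 : i = j + 1
          · exact Or.inl h10
          · right
            refine ⟨?_, Or.inr ⟨h10, h9⟩⟩
            rintro rfl
            exact h4 h9
      have h9 := RP_swp h1 h2 hx hj h6 h7 N 0 (Nat.zero_le _) (by omega)
      rw [h8] at h9
      apply key I' j hj h6 h7
      rw [h8]
      apply (b j).injective
      rw [h9, heq, hJ']
  by_contra hcon
  have h4 : ∀ j, j + 1 < N → ((j ∈ I ↔ j + 1 ∈ I) ↔ (j ∈ J ↔ j + 1 ∈ J)) := by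
    intro j hj
    by_contra h5
    by_cases h6 : (j ∈ I ↔ j + 1 ∈ I)
    · have h7 : ¬ (j ∈ J ↔ j + 1 ∈ J) := fun h7 => h5 ⟨fun _ => h7, fun _ => h6⟩
      exact hcon (key2 J I j hj heq.symm h7 h6)
    · have h7 : (j ∈ J ↔ j + 1 ∈ J) := by
        by_contra h7
        exact h5 ⟨fun h => absurd h h6, fun h => absurd h h7⟩
      exact hcon (key2 I J j hj heq h6 h7)
  have h5 : ∀ j, j < N → ((j ∈ I ↔ j ∈ J) ↔ (0 ∈ I ↔ 0 ∈ J)) := by
    intro j
    induction j with
    | zero => intro _; rfl
    | succ j ih =>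
      intro hj
      have h6 := ih (by omega)
      have h7 := h4 j hj
      tauto
  by_cases h6 : (0 ∈ I ↔ 0 ∈ J)
  · apply hIJ
    ext i
    by_cases hi : i < N
    · exact (h5 i hi).2 h6
    · constructor
      · intro h7
        exact absurd (Finset.mem_range.1 (hI.1 h7)) hi
      · intro h7
        exact absurd (Finset.mem_range.1 (hJ.1 h7)) hi
  · have h7 : J = Finset.range N \ I := by
      ext i
      rw [Finset.mem_sdiff, Finset.mem_range]
      constructor
      · intro h8
        have hi := Finset.mem_range.1 (hJ.1 h8)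
        refine ⟨hi, fun h9 => h6 ((h5 i hi).1 ⟨fun _ => h8, fun _ => h9⟩)⟩
      · rintro ⟨hi, h8⟩
        by_contra h9
        exact h6 ((h5 i hi).1 ⟨fun h => absurd h h8, fun h => absurd h h9⟩)
    have h8 := Finset.card_sdiff_of_subset hI.1
    rw [← h7, hJ.2, hI.2, Finset.card_range] at h8
    omega

end abs

section grp

variable {G : Type*} [Group G] {m : ℕ} {g : ℕ → G}

/-- the conjugates of the square -/
def tt (g : ℕ → G) (C : ℕ) : ℕ → G
  | 0 => g (C - 1) * g (C - 1)
  | j + 1 => g (C + j) * tt g C j * (g (C + j))⁻¹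

theorem tt_succ (C j : ℕ) : g (C + j) * tt g C j = tt g C (j + 1) * g (C + j) := by
  show g (C + j) * tt g C j = g (C + j) * tt g C j * (g (C + j))⁻¹ * g (C + j)
  group

theorem comm_mul {a x y : G} (h1 : a * x = x * a) (h2 : a * y = y * a) : a * (x * y) = x * y * a := by
  rw [← mul_assoc, h1, mul_assoc, h2, mul_assoc]

theorem comm_inv {a x : G} (h1 : a * x = x * a) : a * x⁻¹ = x⁻¹ * a := by
  rw [eq_inv_mul_iff_mul_eq, ← mul_assoc, ← h1, mul_assoc, mul_inv_cancel, mul_one]

/-- `b_j` commutes with the earlier `t_i` -/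
theorem tt_low (h : Grp.Br m g) {C : ℕ} (hC : 1 ≤ C) : ∀ i j, i < j → C + j < m → g (C + j) * tt g C i = tt g C i * g (C + j) := by
  intro i
  induction i with
  | zero =>
    intro j hj hm
    have h1 : g (C + j) * g (C - 1) = g (C - 1) * g (C + j) := (h.comm (C - 1) (C + j) (by omega) hm).symm
    exact comm_mul h1 h1
  | succ i ih =>
    intro j hj hm
    have h1 : g (C + j) * g (C + i) = g (C + i) * g (C + j) := (h.comm (C + i) (C + j) (by omega) hm).symm
    exact comm_mul (comm_mul h1 (ih j (by omega) hm)) (comm_inv h1)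

theorem braid_aux {a b t : G} (hb : a * b * a = b * a * b) (hc : b * t = t * b) :
    a * (b * (a * t * a⁻¹) * b⁻¹) = b * (a * t * a⁻¹) * b⁻¹ * a := by
  have h1 : b * a⁻¹ * b⁻¹ = a⁻¹ * b⁻¹ * a := by
    have h2 : a * b * a⁻¹ = b⁻¹ * a * b := by
      rw [mul_inv_eq_iff_eq_mul, mul_assoc b⁻¹, mul_assoc b⁻¹, eq_inv_mul_iff_mul_eq, ← mul_assoc, ← hb]
    calc b * a⁻¹ * b⁻¹ = a⁻¹ * (a * b * a⁻¹) * b⁻¹ := by group
      _ = a⁻¹ * (b⁻¹ * a * b) * b⁻¹ := by rw [h2]
      _ = _ := by group
  calc a * (b * (a * t * a⁻¹) * b⁻¹) = (a * b * a) * t * a⁻¹ * b⁻¹ := by group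
    _ = b * a * (b * t) * a⁻¹ * b⁻¹ := by rw [hb]; group
    _ = b * a * t * (b * a⁻¹ * b⁻¹) := by rw [hc]; group
    _ = b * a * t * (a⁻¹ * b⁻¹ * a) := by rw [h1]
    _ = _ := by group

/-- `b_j` commutes with the later `t_i` -/
theorem tt_high (h : Grp.Br m g) {C : ℕ} (hC : 1 ≤ C) : ∀ i j, j + 2 ≤ i → C + i ≤ m → g (C + j) * tt g C i = tt g C i * g (C + j) := by
  intro i
  induction i with
  | zero => intro j hj; omega
  | succ i ih =>
    intro j hj hm
    rcases eq_or_lt_of_le (show j + 1 ≤ i by omega) with h1 | h1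
    · subst h1
      have h2 := h.braid (C + j) (by omega)
      have h3 := tt_low h hC j (j + 1) (by omega) (by omega)
      exact braid_aux (a := g (C + j)) (b := g (C + (j + 1))) (t := tt g C j) h2 h3
    · have h2 : g (C + j) * g (C + i) = g (C + i) * g (C + j) := h.comm (C + j) (C + i) (by omega) (by omega)
      exact comm_mul (comm_mul h2 (ih j (by omega) (by omega))) (comm_inv h2)

theorem tt_prod_aux {a b : G} (hb : a * b * a = b * a * b) :
    b * (a * a * (b * (a * a) * b⁻¹)) = a * a * (b * (a * a) * b⁻¹) * b := by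
  have e0 : a * (a * b * a) = (a * b * a) * b := by
    rw [hb, ← mul_assoc, ← mul_assoc, hb]
  have e0' : b * (a * b * a) = (a * b * a) * a := by
    rw [show b * (a * b * a) = (b * a * b) * a by simp only [mul_assoc], ← hb]
  have e1 : b * a * a * b * a * a = (a * b * a) * (a * b * a) := by
    calc b * a * a * b * a * a = b * a * (a * b * a) * a := by simp only [mul_assoc]
      _ = b * (a * (a * b * a)) * a := by simp only [mul_assoc]
      _ = b * (a * b * a) * (b * a) := by rw [e0]; simp only [mul_assoc]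
      _ = (a * b * a) * (a * b * a) := by rw [e0']; simp only [mul_assoc]
  have e2 : a * a * b * a * a * b = (a * b * a) * (a * b * a) := by
    calc a * a * b * a * a * b = a * (a * b * a) * (a * b) := by simp only [mul_assoc]
      _ = (a * b * a) * (b * a * b) := by rw [e0]; simp only [mul_assoc]
      _ = (a * b * a) * (a * b * a) := by rw [hb]
  calc b * (a * a * (b * (a * a) * b⁻¹)) = (b * a * a * b * a * a) * b⁻¹ := by simp only [mul_assoc]
    _ = (a * a * b * a * a * b) * b⁻¹ := by rw [e1, e2]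
    _ = a * a * b * a * a := by rw [mul_inv_cancel_right]
    _ = a * a * (b * (a * a) * b⁻¹) * b := by
        rw [mul_assoc (a * a) _ b, inv_mul_cancel_right]
        simp only [mul_assoc]

/-- `b_j` commutes with `t_j t_{j+1}` -/
theorem tt_prod (h : Grp.Br m g) {C : ℕ} (hC : 1 ≤ C) : ∀ j, C + j < m →
    g (C + j) * (tt g C j * tt g C (j + 1)) = tt g C j * tt g C (j + 1) * g (C + j) := by
  intro j
  induction j with
  | zero =>
    intro hm
    have h1 := h.braid (C - 1) (by omega)
    rw [show C - 1 + 1 = C by omega] at h1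
    exact tt_prod_aux (a := g (C - 1)) (b := g C) h1
  | succ j ih =>
    intro hm
    have h0 := ih (by omega)
    have hb := h.braid (C + j) (by omega)
    obtain ⟨a, ha⟩ : ∃ a, a = g (C + j) := ⟨_, rfl⟩
    obtain ⟨b, hbb⟩ : ∃ b, b = g (C + (j + 1)) := ⟨_, rfl⟩
    obtain ⟨t0, ht0⟩ : ∃ t0, t0 = tt g C j := ⟨_, rfl⟩
    obtain ⟨t1, ht1⟩ : ∃ t1, t1 = tt g C (j + 1) := ⟨_, rfl⟩
    obtain ⟨t2, ht2⟩ : ∃ t2, t2 = tt g C (j + 1 + 1) := ⟨_, rfl⟩
    have e1 : a * t0 = t1 * a := by rw [ha, ht0, ht1]; exact tt_succ C j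
    have e2 : b * t1 = t2 * b := by rw [hbb, ht1, ht2]; exact tt_succ C (j + 1)
    have e3 : b * t0 = t0 * b := by rw [hbb, ht0]; exact tt_low h hC j (j + 1) (by omega) hm
    have e4 : a * t2 = t2 * a := by rw [ha, ht2]; exact tt_high h hC (j + 1 + 1) j (by omega) (by omega)
    have e5 : a * b * a = b * a * b := by rw [ha, hbb]; exact hb
    rw [← ha, ← ht0, ← ht1] at h0
    rw [← hbb, ← ht1, ← ht2]
    -- conjugate by `e = a b`
    have f1 : a * b * a = b * (a * b) := by rw [e5]; group
    have f2 : a * b * t0 = t1 * (a * b) := by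
      calc a * b * t0 = a * (b * t0) := by group
        _ = (a * t0) * b := by rw [e3]; group
        _ = _ := by rw [e1]; group
    have f3 : a * b * t1 = t2 * (a * b) := by
      calc a * b * t1 = a * (b * t1) := by group
        _ = (a * t2) * b := by rw [e2]; group
        _ = _ := by rw [e4]; group
    have f4 : b * (t1 * t2) * (a * b) = t1 * t2 * b * (a * b) := by
      have g1 : t2 * (a * b) = a * b * t1 := f3.symm
      have g2 : t1 * (a * b) = a * b * t0 := f2.symm
      have g3 : b * (a * b) = a * b * a := f1.symm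
      calc b * (t1 * t2) * (a * b) = b * t1 * (t2 * (a * b)) := by simp only [mul_assoc]
        _ = b * (t1 * (a * b)) * t1 := by rw [g1]; simp only [mul_assoc]
        _ = b * (a * b) * t0 * t1 := by rw [g2]; simp only [mul_assoc]
        _ = a * b * (a * (t0 * t1)) := by rw [g3]; simp only [mul_assoc]
        _ = (a * b * t0) * t1 * a := by rw [h0]; simp only [mul_assoc]
        _ = t1 * (a * b * t1) * a := by rw [f2]; simp only [mul_assoc]
        _ = t1 * t2 * (a * b * a) := by rw [f3]; simp only [mul_assoc]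
        _ = _ := by rw [f1]; simp only [mul_assoc]
    exact mul_right_cancel f4

end grp

/-- the points fixed by all `θ i`, `C ≤ i` -/
def Om (k : ℕ) (θ : ℕ → Perm α) (C : ℕ) : Set α := {x | ∀ i, C ≤ i → i + 1 < k → θ i x = x}

/-- the square of `θ (C - 1)` maps `Om C` to points fixed by `θ C` -/
theorem tOmega [Fintype α] {k : ℕ} {θ : ℕ → Perm α} (h : Grp.Br (k - 1) θ) {C l : ℕ} (hC : 1 ≤ C) (hl : 2 * l < k - C)
    (hn : Fintype.card α < (k - C).choose l) {x : α} (hx : x ∈ Om k θ C) :
    θ C (θ (C - 1) (θ (C - 1) x)) = θ (C - 1) (θ (C - 1) x) := by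
  rcases Nat.eq_zero_or_pos l with rfl | hl0
  · rw [Nat.choose_zero_right] at hn
    have h1 : IsEmpty α := by
      rw [← Fintype.card_eq_zero_iff]
      omega
    exact (h1.false x).elim
  have hb : ∀ j, j + 1 < k - C → θ (C + j) x = x := fun j hj => hx (C + j) (by omega) (by omega)
  have h1 : tt θ C 0 x = tt θ C 1 x := by
    refine RP_main (t := tt θ C) (b := fun j => θ (C + j)) (N := k - C) ?_ (fun j _ => tt_succ C j)
      (fun j hj => tt_prod h hC j (by omega)) hb hl hn
    intro j i hj hi h1 h2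
    rcases lt_or_gt_of_ne h1 with h3 | h3
    · exact tt_low h hC i j h3 (by omega)
    · exact tt_high h hC i j (by omega) (by omega)
  have h2 : tt θ C 0 x = θ (C - 1) (θ (C - 1) x) := rfl
  have h3 : tt θ C 1 x = θ C (θ (C - 1) (θ (C - 1) ((θ C)⁻¹ x))) := rfl
  have h4 : (θ C)⁻¹ x = x := by
    rw [Perm.inv_eq_iff_eq]
    exact (hb 0 (by omega)).symm
  rw [h2, h3, h4] at h1
  exact h1.symm

end Pool.Agent.LR.Exp
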