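import Pool.Agent.LR.SlitA
import Pool.Agent.LR.SlitB

/-!
# LR QDefs: block data, root functions with constant transitions, the quotients `V`

`Blk k n θ T blk`: the index set `Fin n` of the roots is divided into `k` blocks `blk = some j` and the rest `blk = none`;
`θ i` exchanges the blocks `i`, `i + 1` and fixes all other points; `T` commutes with everything, preserves the
blocks, fixes the rest, and `θ i ∘ θ i = T` on the blocks `i`, `i + 1`.

`Ctx`: a holomorphic map `f : SG k → SG n` with root functions `ρ a` on the slit region `XX k` for all levels `a`, whose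
transition permutations are `θ i`.

`Tr n`: triples of different indices; `VV r p = (r_1 - r_2) / (r_1 - r_3)`; `vq` the quotient of `VV` at `T p` and at `p`.
-/

set_option autoImplicit false

noncomputable section

namespace Pool.Agent.LR

open Pool.Agent.H60.OC (Pr NN nm zc SG MF IsRoots vd poly HoloOn)

/-- Block data. -/
structure Blk (k n : ℕ) (θ : ℕ → Equiv.Perm (Fin n)) (T : Equiv.Perm (Fin n)) (blk : Fin n → Option (Fin k)) : Prop where
  com : ∀ i, i + 1 < k → θ i * T = T * θ i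
  T_none : ∀ α, blk α = none → T α = α
  blk_T : ∀ α, blk (T α) = blk α
  fix : ∀ i, i + 1 < k → ∀ α, (∀ j : Fin k, blk α = some j → (j : ℕ) ≠ i ∧ (j : ℕ) ≠ i + 1) → θ i α = α
  mv : ∀ i, i + 1 < k → ∀ α j, blk α = some j → blk (θ i α) = some (sw i j)
  sq : ∀ i, i + 1 < k → ∀ α (j : Fin k), blk α = some j → ((j : ℕ) = i ∨ (j : ℕ) = i + 1) → θ i (θ i α) = T α

/-- Root functions with constant transitions. -/
structure Ctx (k n : ℕ) (f : (Fin k → ℂ) → (Fin n → ℂ)) (ρ : ℤ → (Fin k → ℂ) → (Fin n → ℂ))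
    (θ : ℕ → Equiv.Perm (Fin n)) (T : Equiv.Perm (Fin n)) (blk : Fin n → Option (Fin k)) : Prop where
  hk : 12 ≤ k
  hn : 3 ≤ n
  map : Set.MapsTo f (SG k) (SG n)
  hol : HoloOn (SG k) f
  cont : ∀ a, ContinuousOn (ρ a) (XX k)
  root : ∀ a, ∀ x ∈ XX k, IsRoots (ρ a x) (f (GG a x))
  tr : ∀ i, i + 1 < k → ∀ a, ∀ x ∈ WW (sw i), ∀ α,
    ρ (a + 1) (fun l => x ((sw i : Equiv.Perm (Fin k)) l)) (θ i α) = ρ a x α
  blkS : Blk k n θ T blk

/-- Triples of different indices. -/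
abbrev Tr (n : ℕ) : Type := {p : Fin n × Fin n × Fin n // p.1 ≠ p.2.1 ∧ p.1 ≠ p.2.2 ∧ p.2.1 ≠ p.2.2}

/-- A permutation of the indices acts on the triples. -/
def ta {n : ℕ} (g : Equiv.Perm (Fin n)) : Equiv.Perm (Tr n) where
  toFun p := ⟨(g p.1.1, g p.1.2.1, g p.1.2.2), g.injective.ne p.2.1, g.injective.ne p.2.2.1, g.injective.ne p.2.2.2⟩
  invFun p := ⟨(g.symm p.1.1, g.symm p.1.2.1, g.symm p.1.2.2), g.symm.injective.ne p.2.1, g.symm.injective.ne p.2.2.1,
    g.symm.injective.ne p.2.2.2⟩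
  left_inv p := by
    apply Subtype.ext
    simp
  right_inv p := by
    apply Subtype.ext
    simp

theorem ta_one {n : ℕ} : ta (1 : Equiv.Perm (Fin n)) = 1 := rfl

theorem ta_mul {n : ℕ} (g h : Equiv.Perm (Fin n)) : ta (g * h) = ta g * ta h := rfl

theorem ta_inv {n : ℕ} (g : Equiv.Perm (Fin n)) : ta g⁻¹ = (ta g)⁻¹ := rfl

theorem ta_pow {n : ℕ} (g : Equiv.Perm (Fin n)) (m : ℕ) : ta (g ^ m) = ta g ^ m := by
  induction m with
  | zero => rfl
  | succ m ih => rw [pow_succ, pow_succ, ta_mul, ih]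

/-- The quotient of differences. -/
def VV {n : ℕ} (r : Fin n → ℂ) (p : Tr n) : ℂ := (r p.1.1 - r p.1.2.1) / (r p.1.1 - r p.1.2.2)

theorem VV_ta {n : ℕ} (r : Fin n → ℂ) (g : Equiv.Perm (Fin n)) (p : Tr n) : VV r (ta g p) = VV (fun α => r (g α)) p := rfl

theorem VV_ne {n : ℕ} {r : Fin n → ℂ} (hr : Function.Injective r) (p : Tr n) : VV r p ≠ 0 ∧ VV r p ≠ 1 := by
  have h1 : r p.1.1 - r p.1.2.1 ≠ 0 := sub_ne_zero.2 (hr.ne p.2.1)
  have h2 : r p.1.1 - r p.1.2.2 ≠ 0 := sub_ne_zero.2 (hr.ne p.2.2.1)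
  refine ⟨div_ne_zero h1 h2, fun h => ?_⟩
  rw [VV, div_eq_one_iff_eq h2] at h
  exact hr.ne p.2.2.2 (sub_right_injective h)

/-- The quotient of `VV` at `T p` and at `p`. -/
def vq {k n : ℕ} (ρ : ℤ → (Fin k → ℂ) → (Fin n → ℂ)) (T : Equiv.Perm (Fin n)) (a : ℤ) (p : Tr n) (x : Fin k → ℂ) : ℂ :=
  VV (ρ a x) (ta T p) / VV (ρ a x) p

/-- Lexicographically increasing. -/
def Lex {k : ℕ} (y : Fin k → ℂ) : Prop :=
  ∀ i j : Fin k, i < j → ((y i).re < (y j).re ∨ ((y i).re = (y j).re ∧ (y i).im < (y j).im))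

open Classical in
/-- The sorting permutation. -/
def srt {k : ℕ} (x : Fin k → ℂ) : Equiv.Perm (Fin k) :=
  if h : ∃ π : Equiv.Perm (Fin k), Lex (fun i => x (π i)) then h.choose else 1

/-- The product of all `t - vq a p` over the levels `a` modulo `2 N` and all triples `p`. -/
def Gt {k n : ℕ} (ρ : ℤ → (Fin k → ℂ) → (Fin n → ℂ)) (T : Equiv.Perm (Fin n)) (t : ℂ) (x : Fin k → ℂ) : ℂ :=
  ∏ a ∈ Finset.range (2 * NN k), ∏ p : Tr n, (t - vq ρ T (a : ℤ) p (fun i => x (srt x i)))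

end Pool.Agent.LR
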