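import Pool.Agent.LR.Sq
import Pool.Agent.LR.QDefs

/-!
# LR QBr: the strand which goes once around all the others

`dn φ p = φ p * ... * φ 0`, `dl φ p = φ 0 * ... * φ p` (`LR/Sq.lean`), `Dw φ k = dn φ (k-2) * dl φ (k-2)`.  `dl_shift`: `dl φ p * φ i = φ (i+1) * dl φ p`; the
mirror image: `dn φ p * φ (i+1) = φ i * dn φ p` for `i + 1 ≤ p` (same proof, or apply `dl_shift` to the inverses / the opposite
group); so `Dw φ k` commutes with `φ i` for `i + 3 ≤ k`.

`gq φ q r = φ (q + r) * ... * φ (q + 1) * φ q`.  `gq φ q r * φ j = φ j * gq φ q r` for `j + 2 ≤ q`, and `gq φ q r * φ j = φ (j - 1) * gq φ q r` for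
`q < j ≤ q + r`.  `Cq φ k q = (gq φ q (k-2-q))⁻¹ * Dw φ k * gq φ q (k-2-q)` (`q + 1 < k`) commutes with `φ j` for `j + 2 ≤ q` and for `q < j`,
`j + 1 < k`.

`Dw_eff`: effect on a point of block `b ≤ k - 2`: `dl φ (k-2)` applies `φ (k-2)` first, ..., `φ (b+1)` (no effect, `fix`), then `φ b` moves it
to block `b + 1`, then `φ (b-1), ..., φ 0` no effect; `dn φ (k-2)`: `φ 0, ..., φ (b-1)` no effect, `φ b`: `θ b (θ b α) = T α`, then no
effect.  Points in no block are fixed, and `T α = α`.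

`Cq_eff`: `gq` moves a point of block `b < q` not at all and a point of block `b > q` to block `b - 1`, so to a block `≤ k - 2`;
there `Dw` is `T`; `T` commutes with everything.
-/

set_option autoImplicit false

namespace Pool.Agent.LR

section grp

variable {G : Type*} [Group G]

/-- `φ p * ... * φ 0`. -/
def dn (φ : ℕ → G) : ℕ → G
  | 0 => φ 0
  | p + 1 => φ (p + 1) * dn φ p

/-- The last strand goes around all the others. -/
def Dw (φ : ℕ → G) (k : ℕ) : G := dn φ (k - 2) * dl φ (k - 2)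

/-- `φ (q + r) * ... * φ q`. -/
def gq (φ : ℕ → G) (q : ℕ) : ℕ → G
  | 0 => φ q
  | r + 1 => φ (q + (r + 1)) * gq φ q r

/-- The strand `q` goes around all the others. -/
def Cq (φ : ℕ → G) (k q : ℕ) : G := (gq φ q (k - 2 - q))⁻¹ * Dw φ k * gq φ q (k - 2 - q)

variable {k : ℕ} {φ : ℕ → G}

/-- The inverses satisfy the braid relations. -/
theorem QBr_inv (h : BraidRel k φ) : BraidRel k fun i => (φ i)⁻¹ where
  far i j hij hj := by
    have h1 := congrArg (fun x : G => x⁻¹) (h.far i j hij hj)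
    simp only [mul_inv_rev] at h1
    exact h1.symm
  br i hi := by
    have h1 := congrArg (fun x : G => x⁻¹) (h.br i hi)
    simp only [mul_inv_rev] at h1
    simp only [mul_assoc]
    exact h1

theorem QBr_dl_inv (φ : ℕ → G) : ∀ p, dl (fun i => (φ i)⁻¹) p = (dn φ p)⁻¹
  | 0 => rfl
  | p + 1 => by
    show dl (fun i => (φ i)⁻¹) p * (φ (p + 1))⁻¹ = (φ (p + 1) * dn φ p)⁻¹
    rw [QBr_dl_inv φ p, mul_inv_rev]

/-- The mirror image of `dl_shift`. -/
theorem QBr_dn_shift (h : BraidRel k φ) {p : ℕ} (hp : p + 1 < k) {i : ℕ} (hi : i + 1 ≤ p) :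
    dn φ p * φ (i + 1) = φ i * dn φ p := by
  have h1 := dl_shift (QBr_inv h) p hp i hi
  rw [QBr_dl_inv] at h1
  have h2 := congrArg (fun x : G => x⁻¹) h1
  simp only [mul_inv_rev, inv_inv] at h2
  exact h2.symm

theorem QBr_gq_eq (φ : ℕ → G) (q : ℕ) : ∀ r, gq φ q r = dn (fun i => φ (i + q)) r
  | 0 => by
    show φ q = φ (0 + q)
    rw [Nat.zero_add]
  | r + 1 => by
    show φ (q + (r + 1)) * gq φ q r = φ (r + 1 + q) * dn (fun i => φ (i + q)) r
    rw [QBr_gq_eq φ q r, Nat.add_comm q (r + 1)]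

/-- `gq` commutes with the generators below. -/
theorem QBr_gq_lo (h : BraidRel k φ) {q j : ℕ} (hj : j + 2 ≤ q) : ∀ r, q + r + 1 < k →
    gq φ q r * φ j = φ j * gq φ q r
  | 0, hr => (h.far j q hj (by omega)).symm
  | r + 1, hr => by
    show φ (q + (r + 1)) * gq φ q r * φ j = φ j * (φ (q + (r + 1)) * gq φ q r)
    exact comm_mul (h.far j (q + (r + 1)) (by omega) (by omega)).symm (QBr_gq_lo h hj r (by omega))

/-- `gq` shifts the generators in its range. -/
theorem QBr_gq_hi (h : BraidRel k φ) {q j : ℕ} (hq : q + 1 < k) (hj : j + 1 < k) (hqj : q < j) :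
    gq φ q (k - 2 - q) * φ j = φ (j - 1) * gq φ q (k - 2 - q) := by
  have h1 := QBr_dn_shift (h.shift q (k - q) (by omega)) (p := k - 2 - q) (by omega) (i := j - 1 - q) (by omega)
  rw [← QBr_gq_eq] at h1
  rw [show j - 1 - q + 1 + q = j by omega, show j - 1 - q + q = j - 1 by omega] at h1
  exact h1

theorem Dw_comm (h : BraidRel k φ) {i : ℕ} (hi : i + 3 ≤ k) : Dw φ k * φ i = φ i * Dw φ k := by
  show dn φ (k - 2) * dl φ (k - 2) * φ i = φ i * (dn φ (k - 2) * dl φ (k - 2))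
  rw [mul_assoc, dl_shift h (k - 2) (by omega) i (by omega), ← mul_assoc,
    QBr_dn_shift h (by omega) (by omega), mul_assoc]

theorem Cq_comm (h : BraidRel k φ) {q j : ℕ} (hq : q + 1 < k) (hj : j + 1 < k) (hqj : j + 2 ≤ q ∨ q < j) :
    Cq φ k q * φ j = φ j * Cq φ k q := by
  show (gq φ q (k - 2 - q))⁻¹ * Dw φ k * gq φ q (k - 2 - q) * φ j =
    φ j * ((gq φ q (k - 2 - q))⁻¹ * Dw φ k * gq φ q (k - 2 - q))
  -- a generator `b` with `gq * φ j = b * gq` and `Dw * b = b * Dw`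
  have key : ∀ b : G, gq φ q (k - 2 - q) * φ j = b * gq φ q (k - 2 - q) → Dw φ k * b = b * Dw φ k →
      (gq φ q (k - 2 - q))⁻¹ * Dw φ k * gq φ q (k - 2 - q) * φ j =
        φ j * ((gq φ q (k - 2 - q))⁻¹ * Dw φ k * gq φ q (k - 2 - q)) := by
    intro b h1 h2
    have h3 : (gq φ q (k - 2 - q))⁻¹ * b = φ j * (gq φ q (k - 2 - q))⁻¹ := by
      rw [inv_mul_eq_iff_eq_mul, ← mul_assoc, h1, mul_inv_cancel_right]
    calc (gq φ q (k - 2 - q))⁻¹ * Dw φ k * gq φ q (k - 2 - q) * φ j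
        = (gq φ q (k - 2 - q))⁻¹ * Dw φ k * (gq φ q (k - 2 - q) * φ j) := by rw [mul_assoc]
      _ = (gq φ q (k - 2 - q))⁻¹ * (Dw φ k * b) * gq φ q (k - 2 - q) := by
          rw [h1]
          simp only [mul_assoc]
      _ = ((gq φ q (k - 2 - q))⁻¹ * b) * Dw φ k * gq φ q (k - 2 - q) := by
          rw [h2]
          simp only [mul_assoc]
      _ = _ := by
          rw [h3]
          simp only [mul_assoc]
  rcases hqj with hqj | hqj
  · exact key (φ j) (QBr_gq_lo h hqj _ (by omega)) (Dw_comm h (by omega))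
  · exact key (φ (j - 1)) (QBr_gq_hi h hq hj hqj) (Dw_comm h (by omega))

end grp

section eff

variable {k n : ℕ} {θ : ℕ → Equiv.Perm (Fin n)} {T : Equiv.Perm (Fin n)} {blk : Fin n → Option (Fin k)}

theorem QBr_dl_fix (ψ : ℕ → Equiv.Perm (Fin n)) {α : Fin n} : ∀ p, (∀ i, i ≤ p → ψ i α = α) → dl ψ p α = α
  | 0, h => h 0 le_rfl
  | p + 1, h => by
    show dl ψ p (ψ (p + 1) α) = α
    rw [h (p + 1) le_rfl]
    exact QBr_dl_fix ψ p fun i hi => h i (by omega)

theorem QBr_dn_fix (ψ : ℕ → Equiv.Perm (Fin n)) {α : Fin n} : ∀ p, (∀ i, i ≤ p → ψ i α = α) → dn ψ p α = α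
  | 0, h => h 0 le_rfl
  | p + 1, h => by
    show ψ (p + 1) (dn ψ p α) = α
    rw [QBr_dn_fix ψ p fun i hi => h i (by omega)]
    exact h (p + 1) le_rfl

/-- Only the factor `b` of `dl` has an effect. -/
theorem QBr_dl_one (ψ : ℕ → Equiv.Perm (Fin n)) {α : Fin n} {b : ℕ} (hlo : ∀ i, i < b → ψ i (ψ b α) = ψ b α) :
    ∀ p, b ≤ p → (∀ i, b < i → i ≤ p → ψ i α = α) → dl ψ p α = ψ b α := by
  intro p hp
  induction p, hp using Nat.le_induction with
  | base =>
    intro _
    rcases b with _ | b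
    · rfl
    · show dl ψ b (ψ (b + 1) α) = ψ (b + 1) α
      exact QBr_dl_fix ψ b fun i hi => hlo i (by omega)
  | succ p hp ih =>
    intro hhi
    show dl ψ p (ψ (p + 1) α) = ψ b α
    rw [hhi (p + 1) (by omega) le_rfl]
    exact ih fun i h1 h2 => hhi i h1 (by omega)

/-- Only the factor `b` of `dn` has an effect. -/
theorem QBr_dn_one (ψ : ℕ → Equiv.Perm (Fin n)) {α : Fin n} {b : ℕ} (hlo : ∀ i, i < b → ψ i α = α) :
    ∀ p, b ≤ p → (∀ i, b < i → i ≤ p → ψ i (ψ b α) = ψ b α) → dn ψ p α = ψ b α := by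
  intro p hp
  induction p, hp using Nat.le_induction with
  | base =>
    intro _
    rcases b with _ | b
    · rfl
    · show ψ (b + 1) (dn ψ b α) = ψ (b + 1) α
      rw [QBr_dn_fix ψ b fun i hi => hlo i (by omega)]
  | succ p hp ih =>
    intro hhi
    show ψ (p + 1) (dn ψ p α) = ψ b α
    rw [ih fun i h1 h2 => hhi i h1 (by omega)]
    exact hhi (p + 1) (by omega) le_rfl

theorem QBr_sw_lo {b : ℕ} (h : b + 1 < k) (j : Fin k) (hj : (j : ℕ) = b) : ((sw b j : Fin k) : ℕ) = b + 1 := by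
  have hj' : j = ⟨b, by omega⟩ := Fin.ext hj
  rw [sw, dif_pos h, hj', Equiv.swap_apply_left]

theorem QBr_sw_hi {b : ℕ} (h : b + 1 < k) (j : Fin k) (hj : (j : ℕ) = b + 1) : ((sw b j : Fin k) : ℕ) = b := by
  have hj' : j = ⟨b + 1, h⟩ := Fin.ext hj
  rw [sw, dif_pos h, hj', Equiv.swap_apply_right]

/-- A point of the block `j` is fixed by `θ i` if `i` and `i + 1` are different from `j`. -/
theorem QBr_fix (hb : Blk k n θ T blk) {i : ℕ} (hi : i + 1 < k) {α : Fin n} {j : Fin k} (hj : blk α = some j)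
    (h1 : (j : ℕ) ≠ i) (h2 : (j : ℕ) ≠ i + 1) : θ i α = α := by
  refine hb.fix i hi α fun j' hj' => ?_
  rw [hj] at hj'
  obtain rfl : j = j' := Option.some.inj hj'
  exact ⟨h1, h2⟩

theorem QBr_fix_none (hb : Blk k n θ T blk) {i : ℕ} (hi : i + 1 < k) {α : Fin n} (hα : blk α = none) :
    θ i α = α := by
  refine hb.fix i hi α fun j hj => ?_
  rw [hα] at hj
  exact absurd hj (by simp)

theorem Blk.Dw_eff (hb : Blk k n θ T blk) (hk : 2 ≤ k) (α : Fin n) (hα : ∀ j : Fin k, blk α = some j → (j : ℕ) + 2 ≤ k) :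
    Dw θ k α = T α := by
  show dn θ (k - 2) (dl θ (k - 2) α) = T α
  rcases hj : blk α with _ | j
  · have hfix : ∀ i, i ≤ k - 2 → θ i α = α := fun i hi => QBr_fix_none hb (by omega) hj
    rw [QBr_dl_fix θ _ hfix, QBr_dn_fix θ _ hfix, hb.T_none α hj]
  · have hj2 := hα j hj
    obtain ⟨b, hbj⟩ : ∃ b : ℕ, (j : ℕ) = b := ⟨_, rfl⟩
    have hb1 : b + 1 < k := by omega
    -- the image in the block `b + 1`
    have h1 : blk (θ b α) = some (sw b j) := hb.mv b hb1 α j hj
    have h2 : ((sw b j : Fin k) : ℕ) = b + 1 := QBr_sw_lo hb1 j hbj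
    have h3 : ∀ i, i < b → θ i (θ b α) = θ b α := fun i hi =>
      QBr_fix hb (by omega) h1 (by omega) (by omega)
    have h4 : dl θ (k - 2) α = θ b α :=
      QBr_dl_one θ h3 (k - 2) (by omega) fun i h5 h6 => QBr_fix hb (by omega) hj (by omega) (by omega)
    have h5 : θ b (θ b α) = T α := hb.sq b hb1 α j hj (Or.inl hbj)
    have h6 : blk (T α) = some j := by rw [hb.blk_T, hj]
    rw [h4, QBr_dn_one θ h3 (k - 2) (by omega), h5]
    intro i h7 h8
    rw [h5]
    exact QBr_fix hb (by omega) h6 (by omega) (by omega)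

theorem QBr_gq_T (hb : Blk k n θ T blk) {q : ℕ} : ∀ r, q + r + 1 < k → gq θ q r * T = T * gq θ q r
  | 0, hr => hb.com q (by omega)
  | r + 1, hr => by
    show θ (q + (r + 1)) * gq θ q r * T = T * (θ (q + (r + 1)) * gq θ q r)
    exact comm_mul (hb.com _ (by omega)) (QBr_gq_T hb r (by omega))

theorem Blk.Cq_eff (hb : Blk k n θ T blk) {q : ℕ} (hq : q + 1 < k) (α : Fin n)
    (hα : ∀ j : Fin k, blk α = some j → (j : ℕ) ≠ q) : Cq θ k q α = T α := by
  have hg : ∀ j : Fin k, blk (gq θ q (k - 2 - q) α) = some j → (j : ℕ) + 2 ≤ k := by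
    rcases hj : blk α with _ | b
    · have h1 : gq θ q (k - 2 - q) α = α := by
        rw [QBr_gq_eq]
        exact QBr_dn_fix _ _ fun i hi => QBr_fix_none hb (by omega) hj
      intro j h2
      rw [h1, hj] at h2
      exact absurd h2 (by simp)
    · have hbq := hα b hj
      rcases Nat.lt_or_ge (b : ℕ) q with hlt | hge
      · have h1 : gq θ q (k - 2 - q) α = α := by
          rw [QBr_gq_eq]
          exact QBr_dn_fix _ _ fun i hi => QBr_fix hb (by omega) hj (by omega) (by omega)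
        intro j h2
        rw [h1, hj] at h2
        obtain rfl : b = j := Option.some.inj h2
        omega
      · have hbk := b.isLt
        obtain ⟨c, hc⟩ : ∃ c : ℕ, (b : ℕ) = c + 1 := ⟨(b : ℕ) - 1, by omega⟩
        have hc1 : c + 1 < k := by omega
        have h1 : blk (θ c α) = some (sw c b) := hb.mv c hc1 α b hj
        have h2 : ((sw c b : Fin k) : ℕ) = c := QBr_sw_hi hc1 b hc
        have h3 : gq θ q (k - 2 - q) α = θ c α := by
          rw [QBr_gq_eq]
          have h4 := QBr_dn_one (fun i => θ (i + q)) (α := α) (b := c - q)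
            (fun i hi => QBr_fix hb (by omega) hj (by omega) (by omega)) (k - 2 - q) (by omega)
          have h5 : c - q + q = c := by omega
          simp only [h5] at h4
          exact h4 fun i h6 h7 => QBr_fix hb (by omega) h1 (by omega) (by omega)
        intro j h4
        rw [h3, h1] at h4
        obtain rfl : sw c b = j := Option.some.inj h4
        omega
  have h1 := hb.Dw_eff (by omega) _ hg
  show (gq θ q (k - 2 - q))⁻¹ (Dw θ k (gq θ q (k - 2 - q) α)) = T α
  rw [h1, Equiv.Perm.inv_eq_iff_eq]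
  exact (congrArg (fun e : Equiv.Perm (Fin n) => e α) (QBr_gq_T hb (q := q) (k - 2 - q) (by omega))).symm

end eff

end Pool.Agent.LR
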