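import Pool.Agent.LR.QSys
import Pool.Agent.LR.QBr

/-!
# LR QNuA: the winding numbers are invariant under `T`, algebraic part

`Z = (Tr n × ℤ) × ℤ`, `Σ i = lv 1 (fun a => sh (θ i) (κ i a))`, `Π = lv (2 N) (fun a => sh z (μ a))`.

(1) The permutations `Φ` of `Z` of the form `Φ ((p, m), a) = ((ta g p, m + λ a p), a + e)` (with some `g`, `λ`, `e`) are closed under products and
inverses, and `g`, `e` are multiplicative, additive; so for `C = Cq Σ k q * ((Σ e)^2)^(-(k-1))`: `C ((p, m), a) = ((ta g p, m + λ a p), a + e')` with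
`g = Cq θ k q * ((θ e)^2)^(-(k-1))`, `e' = 2 (k - 1) - 2 (k - 1) = 0` (`Dw` has `2 (k-1)` factors, the factors of `gq` cancel).

(2) Given `j` and `p` (three indices, in at most three blocks) choose an even `e`, `e + 1 < k`, such that `e`, `e + 1` are not blocks of `p`
and `e ∉ {j - 1, j, j + 1}`: there are `[k/2] ≥ 6` even candidates, each of the at most three blocks excludes at most one of them,
and at most two even numbers are in `{j - 1, j, j + 1}`.  Put `q = e`.  Then `(θ e)^2` fixes the indices of `p` (`fix`), `Cq θ k q` acts as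
`T` on them (`Cq_eff`), so `ta g p = ta T p`.  `C` commutes with `Σ j` (`Cq_comm`: `j + 2 ≤ q` or `q < j`; and `Σ e`, `Σ j` commute).

(3) `Q = (Π ^ F)⁻¹ * (Σ j) ^ (2 N F)` commutes with `C` (`Π` commutes with all `Σ i`, so with `C`), and
`Q ((p, m), a) = ((p, m + ν a p), a)` with `ν a p = ∑_{r < 2 N F} κ j (a + r) (ta (θ j ^ r) p) - ∑_{s < F} μ (a + 2 N s) (ta (z ^ s) p)`
(`(θ j) ^ (2 N F) = 1`, `z ^ F = 1`).  Evaluate `C Q = Q C` at `((p, 0), a)`: `ν a p + λ a p = λ a p + ν a (ta T p)`.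
-/

set_option autoImplicit false

noncomputable section

namespace Pool.Agent.LR

/-! ### Permutations of the form `((p, m), a) ↦ ((g p, m + lam a p), a + e)` -/

/-- The form of the permutations. -/
def QNuA_Ph {n : ℕ} (g : Equiv.Perm (Fin n)) (e : ℤ) (Φ : Equiv.Perm ((Tr n × ℤ) × ℤ)) : Prop :=
  ∃ l : ℤ → Tr n → ℤ, ∀ (p : Tr n) (m a : ℤ), Φ ((p, m), a) = ((ta g p, m + l a p), a + e)

theorem QNuA_one {n : ℕ} : QNuA_Ph (1 : Equiv.Perm (Fin n)) 0 1 :=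
  ⟨fun _ _ => 0, fun p m a => by simp [ta_one]⟩

theorem QNuA_mul {n : ℕ} {g g' : Equiv.Perm (Fin n)} {e e' : ℤ} {Φ Φ' : Equiv.Perm ((Tr n × ℤ) × ℤ)}
    (h : QNuA_Ph g e Φ) (h' : QNuA_Ph g' e' Φ') : QNuA_Ph (g * g') (e + e') (Φ * Φ') := by
  obtain ⟨l, hl⟩ := h
  obtain ⟨l', hl'⟩ := h'
  refine ⟨fun a p => l' a p + l (a + e') (ta g' p), fun p m a => ?_⟩
  rw [Equiv.Perm.mul_apply, hl', hl, ta_mul, Equiv.Perm.mul_apply]
  rw [show m + l' a p + l (a + e') (ta g' p) = m + (l' a p + l (a + e') (ta g' p)) by ring,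
    show a + e' + e = a + (e + e') by ring]

theorem QNuA_inv {n : ℕ} {g : Equiv.Perm (Fin n)} {e : ℤ} {Φ : Equiv.Perm ((Tr n × ℤ) × ℤ)}
    (h : QNuA_Ph g e Φ) : QNuA_Ph g⁻¹ (-e) Φ⁻¹ := by
  obtain ⟨l, hl⟩ := h
  refine ⟨fun a p => - l (a - e) (ta g⁻¹ p), fun p m a => ?_⟩
  rw [Equiv.Perm.inv_eq_iff_eq, hl, ta_inv]
  have h1 : (ta g) ((ta g)⁻¹ p) = p := (ta g).apply_symm_apply p
  have h2 : m + - l (a - e) ((ta g)⁻¹ p) + l (a + - e) ((ta g)⁻¹ p) = m := by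
    rw [sub_eq_add_neg a e]; ring
  have h3 : a + -e + e = a := by ring
  show ((p, m), a) = ((ta g ((ta g)⁻¹ p), m + - l (a - e) ((ta g)⁻¹ p) + l (a + - e) ((ta g)⁻¹ p)), a + -e + e)
  rw [h1, h2, h3]

theorem QNuA_pow {n : ℕ} {g : Equiv.Perm (Fin n)} {e : ℤ} {Φ : Equiv.Perm ((Tr n × ℤ) × ℤ)}
    (h : QNuA_Ph g e Φ) : ∀ r : ℕ, QNuA_Ph (g ^ r) (r * e) (Φ ^ r)
  | 0 => by
    simpa using (QNuA_one (n := n))
  | r + 1 => by
    have h1 := QNuA_mul (QNuA_pow h r) h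
    rw [pow_succ, pow_succ]
    have h2 : ((r + 1 : ℕ) : ℤ) * e = (r : ℤ) * e + e := by push_cast; ring
    rw [h2]
    exact h1

theorem QNuA_sig {n : ℕ} (g : Equiv.Perm (Fin n)) (e : ℤ) (κ : ℤ → Tr n → ℤ) :
    QNuA_Ph g e (lv e (fun a => sh g (κ a))) :=
  ⟨κ, fun _ _ _ => rfl⟩

section cq

variable {k n : ℕ} {θ : ℕ → Equiv.Perm (Fin n)} {S : ℕ → Equiv.Perm ((Tr n × ℤ) × ℤ)}

theorem QNuA_dn (h : ∀ i, QNuA_Ph (θ i) 1 (S i)) : ∀ p : ℕ, QNuA_Ph (dn θ p) (p + 1) (dn S p)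
  | 0 => by simpa [dn] using h 0
  | p + 1 => by
    have h1 := QNuA_mul (h (p + 1)) (QNuA_dn h p)
    have h2 : (((p + 1 : ℕ) : ℤ) + 1) = 1 + ((p : ℤ) + 1) := by push_cast; ring
    rw [h2]
    exact h1

theorem QNuA_dl (h : ∀ i, QNuA_Ph (θ i) 1 (S i)) : ∀ p : ℕ, QNuA_Ph (dl θ p) (p + 1) (dl S p)
  | 0 => by simpa [dl] using h 0
  | p + 1 => by
    have h1 := QNuA_mul (QNuA_dl h p) (h (p + 1))
    have h2 : (((p + 1 : ℕ) : ℤ) + 1) = ((p : ℤ) + 1) + 1 := by push_cast; ring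
    rw [h2]
    exact h1

theorem QNuA_gq (h : ∀ i, QNuA_Ph (θ i) 1 (S i)) (q : ℕ) : ∀ r : ℕ, QNuA_Ph (gq θ q r) (r + 1) (gq S q r)
  | 0 => by simpa [gq] using h q
  | r + 1 => by
    have h1 := QNuA_mul (h (q + (r + 1))) (QNuA_gq h q r)
    have h2 : (((r + 1 : ℕ) : ℤ) + 1) = 1 + ((r : ℤ) + 1) := by push_cast; ring
    rw [h2]
    exact h1

theorem QNuA_Cq (hk : 2 ≤ k) (h : ∀ i, QNuA_Ph (θ i) 1 (S i)) (q : ℕ) :
    QNuA_Ph (Cq θ k q) (((k - 1 : ℕ) : ℤ) * 2) (Cq S k q) := by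
  have h1 := QNuA_gq h q (k - 2 - q)
  have h2 := QNuA_mul (QNuA_dn h (k - 2)) (QNuA_dl h (k - 2))
  have h3 := QNuA_mul (QNuA_mul (QNuA_inv h1) h2) h1
  have h4 : (((k - 1 : ℕ) : ℤ) * 2) =
      -(((k - 2 - q : ℕ) : ℤ) + 1) + ((((k - 2 : ℕ) : ℤ) + 1) + (((k - 2 : ℕ) : ℤ) + 1)) +
        (((k - 2 - q : ℕ) : ℤ) + 1) := by
    have : ((k - 1 : ℕ) : ℤ) = ((k - 2 : ℕ) : ℤ) + 1 := by
      have : k - 1 = k - 2 + 1 := by omega
      rw [this]; push_cast; ring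
    rw [this]; ring
  rw [h4]
  exact h3

theorem QNuA_mem_Cq {G : Type*} [Group G] {φ : ℕ → G} (H : Subgroup G) {k q : ℕ} (hq : q + 1 < k)
    (h : ∀ i, i + 1 < k → φ i ∈ H) : Cq φ k q ∈ H := by
  have hdn : ∀ p, p + 1 < k → dn φ p ∈ H := by
    intro p
    induction p with
    | zero => exact fun hp => h 0 hp
    | succ p ih => exact fun hp => H.mul_mem (h (p + 1) hp) (ih (by omega))
  have hdl : ∀ p, p + 1 < k → dl φ p ∈ H := by
    intro p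
    induction p with
    | zero => exact fun hp => h 0 hp
    | succ p ih => exact fun hp => H.mul_mem (ih (by omega)) (h (p + 1) hp)
  have hgq : ∀ r, q + r + 1 < k → gq φ q r ∈ H := by
    intro r
    induction r with
    | zero => exact fun hr => h q (by omega)
    | succ r ih => exact fun hr => H.mul_mem (h (q + (r + 1)) (by omega)) (ih (by omega))
  have h1 := hgq (k - 2 - q) (by omega)
  exact H.mul_mem (H.mul_mem (H.inv_mem h1) (H.mul_mem (hdn (k - 2) (by omega)) (hdl (k - 2) (by omega)))) h1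

end cq

/-- Iterates of `lv e (sh g κ)`. -/
theorem QNuA_iter {n : ℕ} (g : Equiv.Perm (Fin n)) (e : ℤ) (κ : ℤ → Tr n → ℤ) :
    ∀ (r : ℕ) (p : Tr n) (m a : ℤ), ((lv e (fun a => sh g (κ a))) ^ r) ((p, m), a) =
      ((ta (g ^ r) p, m + ∑ s ∈ Finset.range r, κ (a + e * s) (ta (g ^ s) p)), a + e * r)
  | 0, p, m, a => by
    simp [ta_one]
  | r + 1, p, m, a => by
    rw [pow_succ', Equiv.Perm.mul_apply, QNuA_iter g e κ r p m a]
    show ((ta g (ta (g ^ r) p), (m + ∑ s ∈ Finset.range r, κ (a + e * s) (ta (g ^ s) p)) +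
      κ (a + e * r) (ta (g ^ r) p)), a + e * r + e) = _
    rw [Finset.sum_range_succ, pow_succ', ta_mul, Equiv.Perm.mul_apply, add_assoc m]
    congr 1
    push_cast
    ring

/-- The choice of the even index. -/
theorem QNuA_choice (b₁ b₂ b₃ j : ℕ) : ∃ q : ℕ, q ≤ 10 ∧ q ≠ b₁ ∧ q + 1 ≠ b₁ ∧ q ≠ b₂ ∧ q + 1 ≠ b₂ ∧ q ≠ b₃ ∧
    q + 1 ≠ b₃ ∧ (j + 2 ≤ q ∨ q + 2 ≤ j) := by
  have h1 : (({b₁ / 2, b₂ / 2, b₃ / 2, j / 2, (j + 1) / 2} : Finset ℕ)).card < (Finset.range 6).card := by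
    refine lt_of_le_of_lt Finset.card_le_five ?_
    simp
  obtain ⟨t, ht, htn⟩ := Finset.exists_mem_notMem_of_card_lt_card h1
  rw [Finset.mem_range] at ht
  simp only [Finset.mem_insert, Finset.mem_singleton, not_or] at htn
  obtain ⟨h2, h3, h4, h5, h6⟩ := htn
  exact ⟨2 * t, by omega, by omega, by omega, by omega, by omega, by omega, by omega, by omega⟩

theorem nu_abs {k n N F : ℕ} (hk : 12 ≤ k) {θ : ℕ → Equiv.Perm (Fin n)} {T : Equiv.Perm (Fin n)}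
    {blk : Fin n → Option (Fin k)} (hb : Blk k n θ T blk) {z : Equiv.Perm (Fin n)} (hzF : z ^ F = 1)
    (hθF : ∀ j, j + 1 < k → θ j ^ (2 * (N * F)) = 1) {κ : ℕ → ℤ → Tr n → ℤ} {μ : ℤ → Tr n → ℤ}
    (hS : BraidRel k (fun i => lv 1 (fun a => sh (θ i) (κ i a))))
    (hP : ∀ i, i + 1 < k → lv (2 * (N : ℤ)) (fun a => sh z (μ a)) * lv 1 (fun a => sh (θ i) (κ i a)) =
      lv 1 (fun a => sh (θ i) (κ i a)) * lv (2 * (N : ℤ)) (fun a => sh z (μ a)))
    {j : ℕ} (hj : j + 1 < k) (a : ℤ) (p : Tr n) :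
    (∑ r ∈ Finset.range (2 * (N * F)), κ j (a + r) (ta (θ j ^ r) (ta T p))) -
        ∑ s ∈ Finset.range F, μ (a + 2 * N * s) (ta (z ^ s) (ta T p)) =
      (∑ r ∈ Finset.range (2 * (N * F)), κ j (a + r) (ta (θ j ^ r) p)) -
        ∑ s ∈ Finset.range F, μ (a + 2 * N * s) (ta (z ^ s) p) := by
  set S : ℕ → Equiv.Perm ((Tr n × ℤ) × ℤ) := fun i => lv 1 (fun a => sh (θ i) (κ i a)) with hSdef
  set PP : Equiv.Perm ((Tr n × ℤ) × ℤ) := lv (2 * (N : ℤ)) (fun a => sh z (μ a)) with hPPdef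
  -- the index
  obtain ⟨q, hq10, hq1, hq1', hq2, hq2', hq3, hq3', hqj⟩ := QNuA_choice
    (((blk p.1.1).map (fun b : Fin k => (b : ℕ))).getD (k + 2))
    (((blk p.1.2.1).map (fun b : Fin k => (b : ℕ))).getD (k + 2))
    (((blk p.1.2.2).map (fun b : Fin k => (b : ℕ))).getD (k + 2)) j
  have hq : q + 1 < k := by omega
  -- a point with a block different from `q` and `q + 1`
  have hpt : ∀ α : Fin n, q ≠ ((blk α).map (fun b : Fin k => (b : ℕ))).getD (k + 2) →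
      q + 1 ≠ ((blk α).map (fun b : Fin k => (b : ℕ))).getD (k + 2) →
      (Cq θ k q * ((θ q ^ 2) ^ (k - 1))⁻¹) α = T α := by
    intro α h1 h2
    have h3 : ∀ j : Fin k, blk α = some j → (j : ℕ) ≠ q ∧ (j : ℕ) ≠ q + 1 := by
      intro i hi
      rw [hi] at h1 h2
      simp only [Option.map_some, Option.getD_some] at h1 h2
      exact ⟨fun h => h1 h.symm, fun h => h2 h.symm⟩
    have h4 : θ q α = α := hb.fix q hq α h3
    have h5 : ∀ r : ℕ, (θ q ^ r) α = α := by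
      intro r
      induction r with
      | zero => rfl
      | succ r ih => rw [pow_succ, Equiv.Perm.mul_apply, h4, ih]
    have h6 : ((θ q ^ 2) ^ (k - 1))⁻¹ α = α := by
      rw [Equiv.Perm.inv_eq_iff_eq, ← pow_mul, h5]
    rw [Equiv.Perm.mul_apply, h6]
    exact hb.Cq_eff hq α fun i hi => (h3 i hi).1
  have hta : ta (Cq θ k q * ((θ q ^ 2) ^ (k - 1))⁻¹) p = ta T p := by
    apply Subtype.ext
    show ((Cq θ k q * ((θ q ^ 2) ^ (k - 1))⁻¹) p.1.1, (Cq θ k q * ((θ q ^ 2) ^ (k - 1))⁻¹) p.1.2.1,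
      (Cq θ k q * ((θ q ^ 2) ^ (k - 1))⁻¹) p.1.2.2) = (T p.1.1, T p.1.2.1, T p.1.2.2)
    rw [hpt _ hq1 hq1', hpt _ hq2 hq2', hpt _ hq3 hq3']
  -- the element `C`
  have hPh : ∀ i, QNuA_Ph (θ i) 1 (S i) := fun i => QNuA_sig (θ i) 1 (κ i)
  have hC1 := QNuA_mul (QNuA_Cq (k := k) (by omega) hPh q) (QNuA_inv (QNuA_pow (QNuA_pow (hPh q) 2) (k - 1)))
  have hlev : ((k - 1 : ℕ) : ℤ) * 2 + -(((k - 1 : ℕ) : ℤ) * (((2 : ℕ) : ℤ) * 1)) = 0 := by
    push_cast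
    ring
  rw [hlev] at hC1
  obtain ⟨l, hl⟩ := hC1
  set C : Equiv.Perm ((Tr n × ℤ) × ℤ) := Cq S k q * ((S q ^ 2) ^ (k - 1))⁻¹ with hCdef
  -- `C` commutes with `S j` and `PP`
  have hcj : Commute C (S j) := by
    have h1 : Commute (Cq S k q) (S j) := Cq_comm hS hq hj (by omega)
    have h2 : Commute (S q) (S j) := hS.comm hq hj (by omega)
    exact h1.mul_left (((h2.pow_left 2).pow_left (k - 1)).inv_left)
  have hcP : Commute C PP := by
    have hmem : ∀ i, i + 1 < k → S i ∈ Subgroup.centralizer ({PP} : Set (Equiv.Perm ((Tr n × ℤ) × ℤ))) := by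
      intro i hi
      rw [Subgroup.mem_centralizer_singleton_iff]
      exact (hP i hi).symm
    have h1 := QNuA_mem_Cq (Subgroup.centralizer ({PP} : Set (Equiv.Perm ((Tr n × ℤ) × ℤ)))) hq hmem
    rw [Subgroup.mem_centralizer_singleton_iff] at h1
    have h2 : Commute (Cq S k q) PP := h1
    have h3 : Commute (S q) PP := (hP q hq).symm
    exact h2.mul_left (((h3.pow_left 2).pow_left (k - 1)).inv_left)
  have hcQ : Commute C ((PP ^ F)⁻¹ * S j ^ (2 * (N * F))) :=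
    ((hcP.pow_right F).inv_right).mul_right (hcj.pow_right _)
  -- the element `Q`
  have hQ : ∀ (p : Tr n) (m : ℤ), ((PP ^ F)⁻¹ * S j ^ (2 * (N * F))) ((p, m), a) =
      ((p, m + ((∑ r ∈ Finset.range (2 * (N * F)), κ j (a + r) (ta (θ j ^ r) p)) -
        ∑ s ∈ Finset.range F, μ (a + 2 * N * s) (ta (z ^ s) p))), a) := by
    intro p m
    rw [Equiv.Perm.mul_apply, Equiv.Perm.inv_eq_iff_eq]
    have h1 := QNuA_iter (θ j) 1 (κ j) (2 * (N * F)) p m a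
    have h2 := QNuA_iter z (2 * (N : ℤ)) μ F p (m + ((∑ r ∈ Finset.range (2 * (N * F)), κ j (a + r) (ta (θ j ^ r) p)) -
        ∑ s ∈ Finset.range F, μ (a + 2 * N * s) (ta (z ^ s) p))) a
    rw [hzF, ta_one] at h2
    rw [hθF j hj, ta_one] at h1
    show (lv 1 (fun a => sh (θ j) (κ j a)) ^ (2 * (N * F))) ((p, m), a) = (PP ^ F) _
    rw [h1, h2]
    simp only [one_mul]
    congr 1
    · congr 1
      ring
    · push_cast
      ring
  have hfin := congrArg (fun Φ : Equiv.Perm ((Tr n × ℤ) × ℤ) => Φ ((p, 0), a)) hcQ.eq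
  simp only [Equiv.Perm.mul_apply C, Equiv.Perm.mul_apply _ C] at hfin
  rw [hQ p 0, hl, hl, hta, add_zero, hQ (ta T p)] at hfin
  simp only [Prod.mk.injEq, true_and, and_true] at hfin
  linarith

end Pool.Agent.LR
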