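import Pool.Agent.LR.EGrp
import Pool.Agent.LR.QNuA

/-!
# LR EHop: elements which commute with the loop around a puncture and act as `(g, level + 2)` on the labels over it

At the puncture `y j` the chart is the position `j + 1`, the labels are `Aw θ C (j+1) p`, `p ∈ TC`.  All elements are products of four or six half twists and inverses,
`Φ ((q, t), b) = ((ta φ q, t'), b + 2)` with `φ` the corresponding product of the `θ i` (`SS_apply`, or `QNuA_sig`, `QNuA_mul`, `QNuA_inv` in `QNuA.lean`); `ta_mul`.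

`hop_one`: `Φ = (SS i)^2` with `i = C + 1` if `j ≤ C - 1` or `j ≥ C + 3`, and `i = C + 4` if `C ≤ j ≤ C + 2`.  It commutes with `SS j` (`|i - j| ≥ 2`), and
`θ i ^ 2 * Aw θ C (j+1) = Aw θ C (j+1) * θ i ^ 2` (`i ≥ C + 1`), `θ i` fixes the components of `p`.  At infinity: `i = C + 1`, `Dw_comm` (`QBr.lean`; `i + 3 ≤ k`).

`hop_T`: `j ≥ C + 1`: `Φ = (SS (C-1))^2`, `Aw θ C (j+1) = 1`.  `j = C`: `Φ = S_(C+1) S_C S_(C-1)² S_C⁻¹ S_(C+1)⁻¹`; it commutes with `S_C`: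
`S_C Φ S_C⁻¹ = S_C S_(C+1) S_C S_(C-1)² (..)⁻¹ = S_(C+1) S_C S_(C+1) S_(C-1)² S_(C+1)⁻¹ S_C⁻¹ S_(C+1)⁻¹ = Φ`; on labels in `Om`: `θ_(C+1)⁻¹ x = x`, `θ_C⁻¹ x = x`, then `T x`, which is fixed by
`θ_C` (`hT`) and `θ_(C+1)` (`Om_T`).  `j = C - 1`: `Φ = (SS (C-1))^2` (it commutes with `SS (C-1)`), `Aw θ C C = 1`.  `j ≤ C - 2`: `Φ = (SS C)^2`, commutes with `SS j`;
`θ_C² θ_(j+1) ⋯ θ_(C-1) p = θ_(j+1) ⋯ θ_(C-2) θ_C² θ_(C-1) p = Aw θ C (j+1) (θ_(C-1)⁻¹ θ_C² θ_(C-1)) p` and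
`θ_(C-1)⁻¹ θ_C² θ_(C-1) = θ_C θ_(C-1)² θ_C⁻¹`, which is `T` on `Om` (`hT`).  At infinity: `Φ = (SS (C-1))^2`.
-/

set_option autoImplicit false

noncomputable section

namespace Pool.Agent.LR

/-- For every puncture there is an element commuting with the loop and acting as `(g, level + 2)` on the labels. -/
def Hop (k : ℕ) {n : ℕ} (θ : ℕ → Equiv.Perm (Fin n)) (c : ℕ → ℤ → Tr n → ℤ) (C : ℕ) (g : Equiv.Perm (Fin n)) : Prop :=
  (∀ j, j + 1 < k → ∃ Φ ∈ Subgroup.closure {S : Equiv.Perm (St n) | ∃ i, i + 1 < k ∧ S = SS θ c i},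
    Commute Φ (SS θ c j) ∧ ∀ p ∈ TC k θ C, ∀ t b : ℤ, ∃ t' : ℤ,
      Φ ((ta (Aw θ C (j + 1)) p, t), b) = ((ta (Aw θ C (j + 1)) (ta g p), t'), b + 2)) ∧
  ∃ Φ ∈ Subgroup.closure {S : Equiv.Perm (St n) | ∃ i, i + 1 < k ∧ S = SS θ c i},
    Commute Φ (Dw (SS θ c) k) ∧ ∀ p ∈ TC k θ C, ∀ t b : ℤ, ∃ t' : ℤ, Φ ((p, t), b) = ((ta g p, t'), b + 2)

variable {k n : ℕ} {θ : ℕ → Equiv.Perm (Fin n)} {c : ℕ → ℤ → Tr n → ℤ} {C : ℕ}

theorem EHop_SS (i : ℕ) : QNuA_Ph (θ i) 1 (SS θ c i) :=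
  ⟨fun a p => - c i a p, fun p t a => SS_apply θ c i p t a⟩

theorem EHop_sq (i : ℕ) : QNuA_Ph (θ i * θ i) 2 (SS θ c i * SS θ c i) := by
  have h := QNuA_mul (EHop_SS (θ := θ) (c := c) i) (EHop_SS (θ := θ) (c := c) i)
  exact h

theorem EHop_comm_Aw {G : Type*} [Monoid G] {φ : ℕ → G} {x : G} {j : ℕ}
    (h : ∀ l, j ≤ l → l < C → Commute x (φ l)) : Commute x (Aw φ C j) := by
  unfold Aw
  refine Commute.list_prod_right _ _ fun y hy => ?_
  rw [List.mem_map] at hy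
  obtain ⟨l, hl, rfl⟩ := hy
  rw [List.mem_range'_1] at hl
  exact h l hl.1 (by omega)

theorem EHop_Aw_last {G : Type*} [Monoid G] (φ : ℕ → G) {j D : ℕ} (h : j ≤ D) :
    Aw φ (D + 1) j = Aw φ D j * φ D := by
  unfold Aw
  obtain ⟨m, rfl⟩ : ∃ m, D = j + m := ⟨D - j, by omega⟩
  rw [show j + m + 1 - j = m + 1 by omega, show j + m - j = m by omega, List.range'_concat]
  simp

theorem EHop_fin {g' g A : Equiv.Perm (Fin n)} {Φ : Equiv.Perm (St n)} (hΦ : QNuA_Ph g' 2 Φ)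
    (h : ∀ x ∈ Om k θ C, g' (A x) = A (g x)) :
    ∀ p ∈ TC k θ C, ∀ t b : ℤ, ∃ t' : ℤ, Φ ((ta A p, t), b) = ((ta A (ta g p), t'), b + 2) := by
  intro p hp t b
  obtain ⟨l, hl⟩ := hΦ
  refine ⟨t + l b (ta A p), ?_⟩
  rw [hl]
  have e : ta g' (ta A p) = ta A (ta g p) := by
    apply Subtype.ext
    show (g' (A p.1.1), g' (A p.1.2.1), g' (A p.1.2.2)) = (A (g p.1.1), A (g p.1.2.1), A (g p.1.2.2))
    rw [h _ hp.1, h _ hp.2.1, h _ hp.2.2]
  rw [e]

theorem EHop_fin_one {g' g : Equiv.Perm (Fin n)} {Φ : Equiv.Perm (St n)} (hΦ : QNuA_Ph g' 2 Φ)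
    (h : ∀ x ∈ Om k θ C, g' x = g x) :
    ∀ p ∈ TC k θ C, ∀ t b : ℤ, ∃ t' : ℤ, Φ ((p, t), b) = ((ta g p, t'), b + 2) := by
  intro p hp t b
  exact EHop_fin (A := 1) hΦ (fun x hx => h x hx) p hp t b

theorem EHop_mem (i : ℕ) (hi : i + 1 < k) :
    SS θ c i ∈ Subgroup.closure {S : Equiv.Perm (St n) | ∃ i, i + 1 < k ∧ S = SS θ c i} :=
  Subgroup.subset_closure ⟨i, hi, rfl⟩

theorem EHop_com (hS : BraidRel k (SS θ c)) {i j : ℕ} (hi : i + 1 < k) (hj : j + 1 < k)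
    (hij : i + 2 ≤ j ∨ j + 2 ≤ i) : Commute (SS θ c i * SS θ c i) (SS θ c j) := by
  have h : Commute (SS θ c i) (SS θ c j) := BraidRel.comm hS hi hj hij
  exact h.mul_left h

theorem hop_one (hS : BraidRel k (SS θ c)) (hb : BraidRel k θ) (hCk : C + 6 ≤ k) : Hop k θ c C 1 := by
  have hact : ∀ i, C + 1 ≤ i → i + 1 < k → ∀ j, ∀ x ∈ Om k θ C,
      (θ i * θ i) (Aw θ C (j + 1) x) = Aw θ C (j + 1) ((1 : Equiv.Perm (Fin n)) x) := by
    intro i hi hik j x hx
    have h1 : Commute (θ i) (Aw θ C (j + 1)) :=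
      EHop_comm_Aw fun l _ hl => BraidRel.comm hb hik (by omega) (Or.inr (by omega))
    have h2 : (θ i * θ i) * Aw θ C (j + 1) = Aw θ C (j + 1) * (θ i * θ i) := h1.mul_left h1
    have h3 : θ i x = x := hx i (by omega) hik
    calc (θ i * θ i) (Aw θ C (j + 1) x) = ((θ i * θ i) * Aw θ C (j + 1)) x := rfl
      _ = (Aw θ C (j + 1) * (θ i * θ i)) x := by rw [h2]
      _ = Aw θ C (j + 1) (θ i (θ i x)) := rfl
      _ = Aw θ C (j + 1) x := by rw [h3, h3]
  refine ⟨fun j hj => ?_, ?_⟩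
  · by_cases hc : C ≤ j ∧ j ≤ C + 2
    · refine ⟨SS θ c (C + 4) * SS θ c (C + 4), mul_mem (EHop_mem _ (by omega)) (EHop_mem _ (by omega)),
        EHop_com hS (by omega) hj (Or.inr (by omega)), ?_⟩
      exact EHop_fin (EHop_sq (C + 4)) (hact (C + 4) (by omega) (by omega) j)
    · refine ⟨SS θ c (C + 1) * SS θ c (C + 1), mul_mem (EHop_mem _ (by omega)) (EHop_mem _ (by omega)),
        EHop_com hS (by omega) hj (by omega), ?_⟩
      exact EHop_fin (EHop_sq (C + 1)) (hact (C + 1) (by omega) (by omega) j)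
  · refine ⟨SS θ c (C + 1) * SS θ c (C + 1), mul_mem (EHop_mem _ (by omega)) (EHop_mem _ (by omega)), ?_, ?_⟩
    · have h : Commute (SS θ c (C + 1)) (Dw (SS θ c) k) := (Dw_comm hS (i := C + 1) (by omega)).symm
      exact h.mul_left h
    · refine EHop_fin_one (EHop_sq (C + 1)) fun x hx => ?_
      have h3 : θ (C + 1) x = x := hx (C + 1) (by omega) (by omega)
      show θ (C + 1) (θ (C + 1) x) = x
      rw [h3, h3]

/-- conjugates of commuting elements -/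
theorem EHop_conj {G : Type*} [Group G] {a b c : G} (hbr : b * c * b = c * b * c) (hac : Commute a c) :
    Commute ((c * b) * (a * a) * (c * b)⁻¹) b := by
  have h1 : b = (c * b) * c * (c * b)⁻¹ := by
    rw [eq_mul_inv_iff_mul_eq, ← mul_assoc, hbr]
  have h2 : (a * a) * c = c * (a * a) := hac.mul_left hac
  show (c * b) * (a * a) * (c * b)⁻¹ * b = b * ((c * b) * (a * a) * (c * b)⁻¹)
  have h3 : (c * b) * (a * a) * (c * b)⁻¹ * ((c * b) * c * (c * b)⁻¹) =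
      ((c * b) * c * (c * b)⁻¹) * ((c * b) * (a * a) * (c * b)⁻¹) := by
    calc (c * b) * (a * a) * (c * b)⁻¹ * ((c * b) * c * (c * b)⁻¹)
        = (c * b) * ((a * a) * c) * (c * b)⁻¹ := by group
      _ = (c * b) * (c * (a * a)) * (c * b)⁻¹ := by rw [h2]
      _ = _ := by group
  rw [← h1] at h3
  exact h3

theorem EHop_rel {G : Type*} [Group G] {a b : G} (hbr : a * b * a = b * a * b) :
    (b * b) * a = a * (b * (a * a) * b⁻¹) := by
  have h : (b * b) * a * b = a * b * (a * a) := by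
    calc (b * b) * a * b = b * (b * a * b) := by group
      _ = b * (a * b * a) := by rw [hbr]
      _ = (b * a * b) * a := by group
      _ = (a * b * a) * a := by rw [hbr]
      _ = _ := by group
  calc (b * b) * a = (b * b) * a * b * b⁻¹ := by group
    _ = a * b * (a * a) * b⁻¹ := by rw [h]
    _ = _ := by group

theorem hop_T (hS : BraidRel k (SS θ c)) (hb : BraidRel k θ) (hC : 1 ≤ C) (hCk : C + 6 ≤ k)
    (hT : ∀ x ∈ Om k θ C, θ C (θ (C - 1) (θ (C - 1) x)) = θ (C - 1) (θ (C - 1) x)) : Hop k θ c C (TT θ C) := by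
  obtain ⟨D, rfl⟩ : ∃ D, C = D + 1 := ⟨C - 1, by omega⟩
  have hTO : ∀ x ∈ Om k θ (D + 1), TT θ (D + 1) x ∈ Om k θ (D + 1) := fun x hx => Om_T hb hC hT hx
  have hTT : TT θ (D + 1) = θ D * θ D := rfl
  refine ⟨fun j hj => ?_, ?_⟩
  · rcases lt_trichotomy j (D + 1) with hjD | hjD | hjD
    · rcases Nat.lt_or_ge j D with hjD' | hjD'
      · -- `j ≤ C - 2`
        refine ⟨SS θ c (D + 1) * SS θ c (D + 1), mul_mem (EHop_mem _ (by omega)) (EHop_mem _ (by omega)),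
          EHop_com hS (by omega) hj (Or.inr (by omega)), ?_⟩
        refine EHop_fin (EHop_sq (D + 1)) fun x hx => ?_
        have hl : Aw θ (D + 1) (j + 1) = Aw θ D (j + 1) * θ D := EHop_Aw_last θ (by omega)
        have h1 : Commute (θ (D + 1)) (Aw θ D (j + 1)) :=
          EHop_comm_Aw fun l _ hl => BraidRel.comm hb (by omega) (by omega) (Or.inr (by omega))
        have h2 : (θ (D + 1) * θ (D + 1)) * Aw θ D (j + 1) = Aw θ D (j + 1) * (θ (D + 1) * θ (D + 1)) :=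
          h1.mul_left h1
        have h3 : (θ (D + 1) * θ (D + 1)) * θ D = θ D * (θ (D + 1) * (θ D * θ D) * (θ (D + 1))⁻¹) :=
          EHop_rel (hb.br D (by omega))
        have h4 : (θ (D + 1))⁻¹ x = x := by
          rw [Equiv.Perm.inv_eq_iff_eq]
          exact (hx (D + 1) le_rfl (by omega)).symm
        have h5 : θ (D + 1) (θ D (θ D x)) = θ D (θ D x) := hT x hx
        rw [hl, hTT]
        calc (θ (D + 1) * θ (D + 1)) ((Aw θ D (j + 1) * θ D) x)
            = (((θ (D + 1) * θ (D + 1)) * Aw θ D (j + 1)) * θ D) x := rfl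
          _ = ((Aw θ D (j + 1) * (θ (D + 1) * θ (D + 1))) * θ D) x := by rw [h2]
          _ = (Aw θ D (j + 1) * ((θ (D + 1) * θ (D + 1)) * θ D)) x := rfl
          _ = (Aw θ D (j + 1) * (θ D * (θ (D + 1) * (θ D * θ D) * (θ (D + 1))⁻¹))) x := by rw [h3]
          _ = Aw θ D (j + 1) (θ D (θ (D + 1) (θ D (θ D ((θ (D + 1))⁻¹ x))))) := rfl
          _ = Aw θ D (j + 1) (θ D (θ D (θ D x))) := by rw [h4, h5]
          _ = _ := rfl
      · -- `j = C - 1`
        obtain rfl : j = D := by omega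
        refine ⟨SS θ c j * SS θ c j, mul_mem (EHop_mem _ (by omega)) (EHop_mem _ (by omega)),
          (Commute.refl _).mul_left (Commute.refl _), ?_⟩
        refine EHop_fin (EHop_sq j) fun x hx => ?_
        rw [Aw_ge θ (le_refl (j + 1))]
        rfl
    · -- `j = C`
      subst hjD
      have hmD := EHop_mem (k := k) (θ := θ) (c := c) D (by omega)
      have hmC := EHop_mem (k := k) (θ := θ) (c := c) (D + 1) (by omega)
      have hmC1 := EHop_mem (k := k) (θ := θ) (c := c) (D + 2) (by omega)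
      refine ⟨(SS θ c (D + 2) * SS θ c (D + 1)) * (SS θ c D * SS θ c D) *
        (SS θ c (D + 2) * SS θ c (D + 1))⁻¹,
        mul_mem (mul_mem (mul_mem hmC1 hmC) (mul_mem hmD hmD)) (inv_mem (mul_mem hmC1 hmC)), ?_, ?_⟩
      · exact EHop_conj (hS.br (D + 1) (by omega)) (BraidRel.comm hS (by omega) (by omega) (Or.inl (by omega)))
      · have h0 := QNuA_mul (EHop_SS (θ := θ) (c := c) (D + 2)) (EHop_SS (θ := θ) (c := c) (D + 1))
        have h1 := QNuA_mul (QNuA_mul h0 (EHop_sq (θ := θ) (c := c) D)) (QNuA_inv h0)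
        have h2 : (1 + 1 : ℤ) + 2 + -(1 + 1) = 2 := by norm_num
        rw [h2] at h1
        refine EHop_fin h1 fun x hx => ?_
        rw [Aw_ge θ (show D + 1 ≤ D + 1 + 1 by omega)]
        have h4 : (θ (D + 1))⁻¹ x = x := by
          rw [Equiv.Perm.inv_eq_iff_eq]
          exact (hx (D + 1) le_rfl (by omega)).symm
        have h5 : (θ (D + 2))⁻¹ x = x := by
          rw [Equiv.Perm.inv_eq_iff_eq]
          exact (hx (D + 2) (by omega) (by omega)).symm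
        have h6 := hTO x hx
        have h7 : θ (D + 1) (TT θ (D + 1) x) = TT θ (D + 1) x := h6 (D + 1) le_rfl (by omega)
        have h8 : θ (D + 2) (TT θ (D + 1) x) = TT θ (D + 1) x := h6 (D + 2) (by omega) (by omega)
        rw [mul_inv_rev]
        calc ((θ (D + 2) * θ (D + 1)) * (θ D * θ D) * ((θ (D + 1))⁻¹ * (θ (D + 2))⁻¹))
              ((1 : Equiv.Perm (Fin n)) x)
            = θ (D + 2) (θ (D + 1) (TT θ (D + 1) ((θ (D + 1))⁻¹ ((θ (D + 2))⁻¹ x)))) := rfl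
          _ = TT θ (D + 1) x := by rw [h5, h4, h7, h8]
          _ = _ := rfl
    · -- `j ≥ C + 1`
      refine ⟨SS θ c D * SS θ c D, mul_mem (EHop_mem _ (by omega)) (EHop_mem _ (by omega)),
        EHop_com hS (by omega) hj (Or.inl (by omega)), ?_⟩
      refine EHop_fin (EHop_sq D) fun x hx => ?_
      rw [Aw_ge θ (show D + 1 ≤ j + 1 by omega)]
      rfl
  · refine ⟨SS θ c D * SS θ c D, mul_mem (EHop_mem _ (by omega)) (EHop_mem _ (by omega)), ?_, ?_⟩
    · have h : Commute (SS θ c D) (Dw (SS θ c) k) := (Dw_comm hS (i := D) (by omega)).symm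
      exact h.mul_left h
    · exact EHop_fin_one (EHop_sq D) fun x hx => rfl

end Pool.Agent.LR
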