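import Pool.Agent.LR.EDefs
import Pool.Agent.H60.OC.Liou

/-!
# LR EU: the domains `UU k y j`, glueing and Liouville

`UU k y j` (`y` strictly increasing, `j < k`): `w` is off the rays `(-∞, y (j-1)]` (if `j > 0`) and `[y j, ∞)` (if `j + 1 < k`): the differences of `w`
with the other points are `w - y i` (`i < j`) and `y i - w` (`j ≤ i`, `i + 1 < k`), the differences of the `y i` are positive.  It is open, and
star-shaped with centre `m` = the middle of `(y (j-1), y j)` (or `y 0 - 1`, `y (k-2) + 1` at the ends), so preconnected.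

`glueU`: choose for `w` some `j < k` with `w ∈ UU k y j` (if there is one) and put `H w = F j w`; two different `UU k y i`, `UU k y j` meet only
in non-real `w` (if `w` is real, in `UU k y j`, then `y (j-1) < w < y j`), where all `F j w` are equal (chain).  A real `w` different from all `y i`, `i + 1 < k`, is
in some `UU k y j`.  `H` is analytic as it is `F j` near every point of the open set `UU k y j`.

`liouU`: `H` from `glueU` is analytic off the finitely many `y i`, bounded near `y i`: by `F (i+1)` for the `w` with `w - y i` in the slit plane, and for `w - y i`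
negative real by continuity of `H` at `w` (limit of non-real points).  At infinity: by `F (k-1)` on `UU k y (k-1)`, which contains all non-real `w`, and the
real ones by continuity.  So `H` extends to an entire function (`OC.exists_entire`, as in `QConst.lean`), bounded, constant (Liouville:
`Differentiable.apply_eq_apply_of_bounded`).
-/

set_option autoImplicit false

open Topology Filter

noncomputable section

namespace Pool.Agent.LR

/-- A convex combination of a positive real number and a point of the slit plane. -/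
theorem EU_comb {z : ℂ} (hz : z ∈ Complex.slitPlane) {c a b : ℝ} (hc : 0 < c) (ha : 0 ≤ a) (hb : 0 ≤ b) (hab : a + b = 1) :
    (a : ℂ) * c + b * z ∈ Complex.slitPlane := by
  have hre : ((a : ℂ) * c + b * z).re = a * c + b * z.re := by simp
  have him : ((a : ℂ) * c + b * z).im = b * z.im := by simp
  rw [Complex.mem_slitPlane_iff, hre, him]
  rcases hb.eq_or_lt with hb0 | hb0
  · left
    have : a = 1 := by linarith
    rw [← hb0, this]
    linarith
  · rcases Complex.mem_slitPlane_iff.1 hz with h | h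
    · left
      have h1 : 0 < b * z.re := mul_pos hb0 h
      have h2 : 0 ≤ a * c := mul_nonneg ha hc.le
      linarith
    · right
      exact mul_ne_zero hb0.ne' h

theorem EU_real {s t : ℝ} (h : s < t) : (t : ℂ) - (s : ℂ) ∈ Complex.slitPlane := by
  rw [Complex.mem_slitPlane_iff]
  left
  simpa using h

theorem EU_ins_lt {k : ℕ} {y : ℕ → ℝ} {j : ℕ} {w : ℂ} {i : Fin k} (h : (i : ℕ) < j) :
    (ins y j w : Fin k → ℂ) i = y (i : ℕ) := if_pos h

theorem EU_ins_eq {k : ℕ} {y : ℕ → ℝ} {j : ℕ} {w : ℂ} {i : Fin k} (h : (i : ℕ) = j) :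
    (ins y j w : Fin k → ℂ) i = w := by
  unfold ins
  rw [if_neg (show ¬ (i : ℕ) < j by omega), if_pos h]

theorem EU_ins_gt {k : ℕ} {y : ℕ → ℝ} {j : ℕ} {w : ℂ} {i : Fin k} (h : j < (i : ℕ)) :
    (ins y j w : Fin k → ℂ) i = y ((i : ℕ) - 1) := by
  unfold ins
  rw [if_neg (show ¬ (i : ℕ) < j by omega), if_neg (show ¬ (i : ℕ) = j by omega)]

theorem mem_UU {k : ℕ} {y : ℕ → ℝ} (hy : StrictMono y) {j : ℕ} (hj : j < k) (w : ℂ) :
    w ∈ UU k y j ↔ (∀ i, i < j → w - y i ∈ Complex.slitPlane) ∧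
      ∀ i, j ≤ i → i + 1 < k → (y i : ℂ) - w ∈ Complex.slitPlane := by
  constructor
  · intro h
    refine ⟨fun i hi => ?_, fun i hi hik => ?_⟩
    · have h1 := h ⟨i, by omega⟩ ⟨j, hj⟩ (by rw [Fin.mk_lt_mk]; exact hi)
      rw [EU_ins_eq (show ((⟨j, hj⟩ : Fin k) : ℕ) = j from rfl), EU_ins_lt (show ((⟨i, by omega⟩ : Fin k) : ℕ) < j from hi)] at h1
      exact h1
    · have h1 := h ⟨j, hj⟩ ⟨i + 1, hik⟩ (by rw [Fin.mk_lt_mk]; omega)
      rw [EU_ins_eq (show ((⟨j, hj⟩ : Fin k) : ℕ) = j from rfl),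
        EU_ins_gt (show j < ((⟨i + 1, hik⟩ : Fin k) : ℕ) from Nat.lt_succ_of_le hi)] at h1
      exact h1
  · rintro ⟨h1, h2⟩ a b hab
    have hab' : (a : ℕ) < (b : ℕ) := hab
    have hbk := b.2
    rcases lt_trichotomy (b : ℕ) j with hb | hb | hb
    · rw [EU_ins_lt hb, EU_ins_lt (hab'.trans hb)]
      exact EU_real (hy hab')
    · rw [EU_ins_eq hb, EU_ins_lt (show (a : ℕ) < j by omega)]
      exact h1 _ (by omega)
    · rw [EU_ins_gt hb]
      rcases lt_trichotomy (a : ℕ) j with ha | ha | ha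
      · rw [EU_ins_lt ha]
        exact EU_real (hy (by omega))
      · rw [EU_ins_eq ha]
        exact h2 _ (by omega) (by omega)
      · rw [EU_ins_gt ha]
        exact EU_real (hy (by omega))

theorem UU_open {k : ℕ} {y : ℕ → ℝ} (j : ℕ) : IsOpen (UU k y j) := by
  have hc : Continuous (fun w : ℂ => (ins y j w : Fin k → ℂ)) := by
    refine continuous_pi fun i => ?_
    simp only [ins]
    split_ifs
    · exact continuous_const
    · exact continuous_id
    · exact continuous_const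
  exact (XX_open k).preimage hc

theorem UU_pre {k : ℕ} {y : ℕ → ℝ} (hy : StrictMono y) {j : ℕ} (hj : j < k) : IsPreconnected (UU k y j) := by
  obtain ⟨m, hm1, hm2⟩ : ∃ m : ℝ, (∀ i, i < j → y i < m) ∧ ∀ i, j ≤ i → m < y i := by
    rcases Nat.eq_zero_or_pos j with h0 | h0
    · refine ⟨y 0 - 1, fun i hi => absurd hi (by omega), fun i _ => ?_⟩
      have := hy.monotone (Nat.zero_le i)
      linarith
    · have h1 : y (j - 1) < y j := hy (by omega)
      refine ⟨(y (j - 1) + y j) / 2, fun i hi => ?_, fun i hi => ?_⟩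
      · have := hy.monotone (show i ≤ j - 1 by omega)
        linarith
      · have := hy.monotone hi
        linarith
  have hmem : (m : ℂ) ∈ UU k y j :=
    (mem_UU hy hj _).2 ⟨fun i hi => EU_real (hm1 i hi), fun i hi _ => EU_real (hm2 i hi)⟩
  have hstar : StarConvex ℝ (m : ℂ) (UU k y j) := by
    intro w hw a b ha hb hab
    rw [mem_UU hy hj] at hw ⊢
    have hab' : (a : ℂ) + (b : ℂ) = 1 := by exact_mod_cast hab
    refine ⟨fun i hi => ?_, fun i hi hik => ?_⟩
    · have h1 := EU_comb (hw.1 i hi) (sub_pos.2 (hm1 i hi)) ha hb hab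
      have e : a • (m : ℂ) + b • w - (y i : ℂ) = (a : ℂ) * ((m - y i : ℝ) : ℂ) + b * (w - y i) := by
        simp only [Complex.real_smul]
        push_cast
        linear_combination (y i : ℂ) * hab'
      rw [e]
      exact h1
    · have h1 := EU_comb (hw.2 i hi hik) (sub_pos.2 (hm2 i hi)) ha hb hab
      have e : (y i : ℂ) - (a • (m : ℂ) + b • w) = (a : ℂ) * ((y i - m : ℝ) : ℂ) + b * (y i - w) := by
        simp only [Complex.real_smul]
        push_cast
        linear_combination (-(y i : ℂ)) * hab'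
      rw [e]
      exact h1
  exact (hstar.isPathConnected hmem).isConnected.isPreconnected

theorem UU_im {k : ℕ} {y : ℕ → ℝ} (hy : StrictMono y) {j : ℕ} (hj : j < k) {w : ℂ} (hw : w.im ≠ 0) : w ∈ UU k y j := by
  rw [mem_UU hy hj]
  refine ⟨fun i _ => ?_, fun i _ _ => ?_⟩
  · rw [Complex.mem_slitPlane_iff]
    right
    simpa using hw
  · rw [Complex.mem_slitPlane_iff]
    right
    simpa using hw

/-- A point of `UU k y j` is none of the `y i`. -/
theorem EU_ne {k : ℕ} {y : ℕ → ℝ} (hy : StrictMono y) {j : ℕ} (hj : j < k) {w : ℂ} (hw : w ∈ UU k y j) {i : ℕ}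
    (hi : i + 1 < k) : w ≠ y i := by
  rw [mem_UU hy hj] at hw
  rintro rfl
  rcases lt_or_ge i j with h | h
  · have h1 := hw.1 i h
    rw [sub_self] at h1
    exact Complex.zero_notMem_slitPlane h1
  · have h1 := hw.2 i h hi
    rw [sub_self] at h1
    exact Complex.zero_notMem_slitPlane h1

/-- A real point is in at most one `UU k y j`. -/
theorem EU_uniq {k : ℕ} {y : ℕ → ℝ} (hy : StrictMono y) {i j : ℕ} (hj : j < k) (hij : i < j) {w : ℂ}
    (h1 : w ∈ UU k y i) (h2 : w ∈ UU k y j) : w.im ≠ 0 := by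
  intro h0
  rw [mem_UU hy (hij.trans hj)] at h1
  rw [mem_UU hy hj] at h2
  have h3 := h1.2 i le_rfl (by omega)
  have h4 := h2.1 i hij
  rw [Complex.mem_slitPlane_iff] at h3 h4
  simp only [Complex.sub_re, Complex.sub_im, Complex.ofReal_re, Complex.ofReal_im, h0, sub_zero, ne_eq,
    not_true_eq_false, or_false] at h3 h4
  linarith

/-- A point different from the `y i` is in some `UU k y j`. -/
theorem EU_ex {k : ℕ} {y : ℕ → ℝ} (hy : StrictMono y) (hk : 0 < k) {w : ℂ} (hw : ∀ i, i + 1 < k → w ≠ y i) :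
    ∃ j, j < k ∧ w ∈ UU k y j := by
  classical
  by_cases h0 : w.im = 0
  · have hex : ∃ j, k ≤ j + 1 ∨ w.re < y j := ⟨k, Or.inl (by omega)⟩
    obtain ⟨j, hj⟩ : ∃ j, j = Nat.find hex := ⟨_, rfl⟩
    have hP : k ≤ j + 1 ∨ w.re < y j := by rw [hj]; exact Nat.find_spec hex
    have hmin : ∀ i, i < j → i + 1 < k ∧ y i ≤ w.re := by
      intro i hi
      rw [hj] at hi
      have := Nat.find_min hex hi
      push Not at this
      exact this
    have hjk : j < k := by
      by_contra hcon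
      have := (hmin (k - 1) (by omega)).1
      omega
    refine ⟨j, hjk, (mem_UU hy hjk w).2 ⟨fun i hi => ?_, fun i hi hik => ?_⟩⟩
    · rw [Complex.mem_slitPlane_iff]
      left
      obtain ⟨h1, h2⟩ := hmin i hi
      have h3 : y i ≠ w.re := fun h => hw i h1 (Complex.ext (by simp [h]) (by simp [h0]))
      have h4 : y i < w.re := lt_of_le_of_ne h2 h3
      simpa using h4
    · rw [Complex.mem_slitPlane_iff]
      left
      have h1 : w.re < y j := hP.resolve_left (by omega)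
      have h2 : y j ≤ y i := hy.monotone hi
      have h3 : w.re < y i := lt_of_lt_of_le h1 h2
      simpa using h3
  · exact ⟨0, hk, UU_im hy hk h0⟩

theorem UU_cover {k : ℕ} (hk : 1 ≤ k) {y : ℕ → ℝ} (hy : StrictMono y) {w : ℂ} (hw : ∀ i, i + 1 < k → w ≠ y i) :
    ∃ j, j < k ∧ w ∈ UU k y j :=
  EU_ex hy (by omega) hw

theorem glueU {k : ℕ} {y : ℕ → ℝ} (hy : StrictMono y) {F : ℕ → ℂ → ℂ}
    (hF : ∀ j, j < k → ∀ w ∈ UU k y j, AnalyticAt ℂ (F j) w)
    (hg : ∀ j, j + 1 < k → ∀ w : ℂ, w.im ≠ 0 → F j w = F (j + 1) w) :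
    ∃ H : ℂ → ℂ, (∀ w : ℂ, (∀ i, i + 1 < k → w ≠ y i) → AnalyticAt ℂ H w) ∧ ∀ j, j < k → ∀ w ∈ UU k y j, H w = F j w := by
  classical
  rcases Nat.eq_zero_or_pos k with hk | hk
  · refine ⟨fun _ => 0, fun w _ => analyticAt_const, fun j hj => absurd hj (by omega)⟩
  have hch : ∀ j, j < k → ∀ w : ℂ, w.im ≠ 0 → F j w = F 0 w := by
    intro j
    induction j with
    | zero => intro _ w _; rfl
    | succ j ih =>
      intro hj w hw
      rw [← hg j hj w hw]
      exact ih (by omega) w hw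
  have hcons : ∀ i j, i < k → j < k → ∀ w, w ∈ UU k y i → w ∈ UU k y j → F i w = F j w := by
    intro i j hi hj w h1 h2
    rcases lt_trichotomy i j with h | h | h
    · have h3 := EU_uniq hy hj h h1 h2
      rw [hch i hi w h3, hch j hj w h3]
    · rw [h]
    · have h3 := EU_uniq hy hi h h2 h1
      rw [hch i hi w h3, hch j hj w h3]
  have hH : ∀ w : ℂ, ∃ v : ℂ, ∀ j, j < k → w ∈ UU k y j → v = F j w := by
    intro w
    by_cases h : ∃ j, j < k ∧ w ∈ UU k y j
    · obtain ⟨j, hj, hw⟩ := h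
      exact ⟨F j w, fun i hi hwi => hcons j i hj hi w hw hwi⟩
    · exact ⟨0, fun j hj hw => absurd ⟨j, hj, hw⟩ h⟩
  choose H hH using hH
  refine ⟨H, fun w hw => ?_, fun j hj w hw => hH w j hj hw⟩
  obtain ⟨j, hj, hwj⟩ := EU_ex hy hk hw
  refine (hF j hj w hwj).congr ?_
  filter_upwards [(UU_open j).mem_nhds hwj] with v hv
  exact (hH v j hj hv).symm

/-- A bound at the non-real points extends by continuity. -/
theorem EU_lim {H : ℂ → ℂ} {w : ℂ} (hc : ContinuousAt H w) {B : ℝ} (hB : ∀ᶠ v in 𝓝 w, v.im ≠ 0 → ‖H v‖ ≤ B) :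
    ‖H w‖ ≤ B := by
  have hcl : w ∈ closure (Complex.im ⁻¹' ({0}ᶜ : Set ℝ)) := by
    rw [Complex.closure_preimage_im, closure_compl_singleton]
    trivial
  have : (𝓝[Complex.im ⁻¹' ({0}ᶜ : Set ℝ)] w).NeBot := mem_closure_iff_nhdsWithin_neBot.1 hcl
  refine le_of_tendsto (hc.norm.continuousWithinAt (s := Complex.im ⁻¹' ({0}ᶜ : Set ℝ))) ?_
  filter_upwards [mem_nhdsWithin_of_mem_nhds hB, self_mem_nhdsWithin] with v h1 h2
  exact h1 h2

theorem liouU {k : ℕ} (hk : 2 ≤ k) {y : ℕ → ℝ} (hy : StrictMono y) {F : ℕ → ℂ → ℂ}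
    (hF : ∀ j, j < k → ∀ w ∈ UU k y j, AnalyticAt ℂ (F j) w)
    (hg : ∀ j, j + 1 < k → ∀ w : ℂ, w.im ≠ 0 → F j w = F (j + 1) w)
    (hp : ∀ j, j + 1 < k → ∃ δ > 0, ∃ B : ℝ, ∀ u : ℂ, 0 < ‖u‖ → ‖u‖ < δ → u ∈ Complex.slitPlane →
      ‖F (j + 1) (y j + u)‖ ≤ B)
    (hi : ∃ δ > 0, ∃ B : ℝ, ∀ u : ℂ, 0 < ‖u‖ → ‖u‖ < δ → u ∈ Complex.slitPlane → ‖F (k - 1) u⁻¹‖ ≤ B) :
    ∃ c : ℂ, ∀ j, j < k → ∀ w ∈ UU k y j, F j w = c := by
  obtain ⟨H, hHa, hHF⟩ := glueU hy hF hg
  obtain ⟨S, hS⟩ : ∃ S : Set ℂ, S = Set.range fun i : Fin (k - 1) => (y i : ℂ) := ⟨_, rfl⟩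
  have hSf : S.Finite := by rw [hS]; exact Set.finite_range _
  have hS' : ∀ w, w ∉ S → ∀ i, i + 1 < k → w ≠ y i := by
    intro w hw i hi h
    rw [hS] at hw
    exact hw ⟨⟨i, by omega⟩, h.symm⟩
  have hd : ∀ w, w ∉ S → DifferentiableAt ℂ H w := fun w hw => (hHa w (hS' w hw)).differentiableAt
  have hslit : ∀ u : ℂ, u.im ≠ 0 → u ∈ Complex.slitPlane := fun u hu => Complex.mem_slitPlane_iff.2 (Or.inr hu)
  have hpos : ∀ u : ℂ, u.im ≠ 0 → 0 < ‖u‖ := fun u hu => norm_pos_iff.2 fun h => hu (by rw [h]; rfl)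
  have ho : ∀ c ∈ S, (fun z => H z - H c) =o[𝓝[≠] c] fun z => (z - c)⁻¹ := by
    intro c hc
    have hc0 := hc
    rw [hS] at hc
    obtain ⟨⟨j, hj⟩, rfl⟩ := hc
    have hjk : j + 1 < k := by omega
    obtain ⟨δ, hδ, B, hB⟩ := hp j hjk
    refine Filter.IsBoundedUnder.isLittleO_sub_self_inv ?_
    refine ⟨B + ‖H (y j)‖, ?_⟩
    rw [Filter.eventually_map]
    have hev1 : ∀ᶠ z in 𝓝 ((y j : ℝ) : ℂ), z ∉ S \ {((y j : ℝ) : ℂ)} :=
      (hSf.subset Set.sdiff_subset).isClosed.isOpen_compl.mem_nhds fun h => h.2 rfl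
    have hev2 : ∀ᶠ z in 𝓝 ((y j : ℝ) : ℂ), z ∈ Metric.ball ((y j : ℝ) : ℂ) δ := Metric.ball_mem_nhds _ hδ
    rw [eventually_nhdsWithin_iff]
    filter_upwards [hev1, hev2] with z h1 h2 hzc
    have hzS : z ∉ S := fun h => h1 ⟨h, hzc⟩
    show ‖H z - H (y j)‖ ≤ B + ‖H (y j)‖
    refine (norm_sub_le _ _).trans (add_le_add ?_ le_rfl)
    refine EU_lim (hd z hzS).continuousAt ?_
    filter_upwards [Metric.isOpen_ball.mem_nhds h2] with v hv hvim
    have hu : (v - (y j : ℂ)).im ≠ 0 := by simpa using hvim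
    have h3 := hB (v - (y j : ℂ)) (hpos _ hu) (by rw [Metric.mem_ball, dist_eq_norm] at hv; exact hv) (hslit _ hu)
    rw [add_sub_cancel] at h3
    rw [hHF (j + 1) hjk v (UU_im hy hjk hvim)]
    exact h3
  obtain ⟨E, hE, hEH⟩ := Pool.Agent.H60.OC.exists_entire hSf hd ho
  obtain ⟨δ, hδ, B, hB⟩ := hi
  have hk1 : k - 1 < k := by omega
  have hnim : ∀ v : ℂ, v.im ≠ 0 → v ∉ S := by
    intro v hv h
    rw [hS] at h
    obtain ⟨i, rfl⟩ := h
    exact hv (Complex.ofReal_im _)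
  have hfar : ∀ w : ℂ, δ⁻¹ < ‖w‖ → ‖E w‖ ≤ B := by
    intro w hw
    refine EU_lim (hE w).continuousAt ?_
    filter_upwards [(isOpen_lt continuous_const continuous_norm).mem_nhds hw] with v hv hvim
    have hv' : δ⁻¹ < ‖v‖ := hv
    have hv0 : 0 < ‖v‖ := hpos v hvim
    have hvne : v ≠ 0 := norm_pos_iff.1 hv0
    have hu : (v⁻¹).im ≠ 0 := by
      rw [Complex.inv_im]
      exact div_ne_zero (neg_ne_zero.2 hvim) (Complex.normSq_pos.2 hvne).ne'
    have h3 := hB v⁻¹ (hpos _ hu) (by rw [norm_inv]; exact inv_lt_of_inv_lt₀ hδ hv') (hslit _ hu)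
    rw [inv_inv] at h3
    rw [hEH v (hnim v hvim), hHF (k - 1) hk1 v (UU_im hy hk1 hvim)]
    exact h3
  have hbd : Bornology.IsBounded (Set.range E) := by
    have h1 : Bornology.IsBounded (E '' Metric.closedBall 0 δ⁻¹) :=
      ((isCompact_closedBall (0 : ℂ) δ⁻¹).image hE.continuous).isBounded
    refine (h1.union (Metric.isBounded_closedBall (x := (0 : ℂ)) (r := B))).subset ?_
    rintro _ ⟨w, rfl⟩
    rcases le_or_gt ‖w‖ δ⁻¹ with h | h
    · left
      exact ⟨w, by rw [mem_closedBall_zero_iff]; exact h, rfl⟩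
    · right
      rw [mem_closedBall_zero_iff]
      exact hfar w h
  refine ⟨E 0, fun j hj w hw => ?_⟩
  have hwS : w ∉ S := by
    intro h
    rw [hS] at h
    obtain ⟨⟨i, hi⟩, h⟩ := h
    exact EU_ne hy hj hw (show i + 1 < k by omega) h.symm
  rw [← hHF j hj w hw, ← hEH w hwS]
  exact hE.apply_eq_apply_of_bounded hbd _ _

end Pool.Agent.LR
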