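import Pool.Agent.LR.ELog
import Pool.Agent.LR.EU

/-!
# LR ELine: the transitions along a line

`y` strictly increasing, `ins y (j+1) w ∘ sw j = ins y j w`.  For `Im w > 0` the difference of the positions `j`, `j + 1` of `ins y (j+1) w` is `w - y j`, with positive
imaginary part.  So if moreover `Re w < y (j+1)` then `ins y (j+1) w ∈ WW (sw j)`, and (`tr`) `ρ (a+1) (ins y j w) (θ j α) = ρ a (ins y (j+1) w) α`.  Both
sides are analytic functions of `w` on the upper half plane (`Cx.an`, `UU_im`, `ins y j` is analytic in `w`), which is connected, so the equation holds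
for all `w` in it (identity theorem).  In the same way for `Im w < 0` with `ins y j w ∈ WW (sw j)` if `Re w > y (j-1)`: the difference of
the positions `j`, `j + 1` of `ins y j w` is `y j - w`.

`Lg.up`, `Lg.dn`: `Lam L (SS θ c j s) (ins y j w)` and `Lam L s (ins y (j+1) w)` are continuous in `w` on the half plane, their exponentials `VV` are
equal by `Cx.up`, and they are equal where `ins y (j+1) w ∈ WW (sw j)` (`Lg.jump`); so they are equal (the difference is a continuous function with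
values in `2 π i ℤ` on a preconnected set; see `log_const` in `QLog.lean`, `QPA_const` in `QPA.lean`).

`Lg.pi`: `Lam L (PI k z m s) x = Lam L s x` on `XX k` (`Lg.pj`).  `Lam_sig`: `Lam L (sig ν s) x = Lam L s x + 2 π i ν`.
-/

set_option autoImplicit false

open Topology Filter

noncomputable section

namespace Pool.Agent.LR

open Pool.Agent.H60.OC (Pr NN nm zc SG MF IsRoots vd poly HoloOn)

variable {k n : ℕ} {f : (Fin k → ℂ) → (Fin n → ℂ)} {ρ : ℤ → (Fin k → ℂ) → (Fin n → ℂ)}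
  {θ : ℕ → Equiv.Perm (Fin n)} {z : Equiv.Perm (Fin n)}
  {L : ℤ → Tr n → (Fin k → ℂ) → ℂ} {c : ℕ → ℤ → Tr n → ℤ} {m : ℤ → Tr n → ℤ}

/-- A continuous logarithm of `1` on a preconnected set is constant. -/
private theorem ELine_const {S : Set ℂ} (hS : IsPreconnected S) {F : ℂ → ℂ} (hF : ContinuousOn F S)
    (h1 : ∀ w ∈ S, Complex.exp (F w) = 1) {a b : ℂ} (ha : a ∈ S) (hb : b ∈ S) : F a = F b := by
  have hpi : (0 : ℝ) < 2 * Real.pi := by positivity
  have hval : ∀ w ∈ S, ∃ n : ℤ, F w = n * (2 * Real.pi * Complex.I) := fun w hw =>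
    Complex.exp_eq_one_iff.1 (h1 w hw)
  have him : ∀ (w : ℂ) (n : ℤ), F w = n * (2 * Real.pi * Complex.I) → (F w).im / (2 * Real.pi) = n := by
    intro w n hn
    rw [hn]
    have : ((n : ℂ) * (2 * (Real.pi : ℂ) * Complex.I)).im = n * (2 * Real.pi) := by
      simp
    rw [this, mul_div_assoc, div_self hpi.ne', mul_one]
  have hc : ContinuousOn (fun w => (F w).im / (2 * Real.pi)) S :=
    (Complex.continuous_im.comp_continuousOn hF).div_const _
  have key : ∀ a ∈ S, ∀ b ∈ S, ∀ m n : ℤ, F a = m * (2 * Real.pi * Complex.I) →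
      F b = n * (2 * Real.pi * Complex.I) → ¬ m < n := by
    intro a ha b hb m n hm hn hmn
    have hmem : ((m : ℝ) + 1 / 2) ∈ Set.Icc ((F a).im / (2 * Real.pi)) ((F b).im / (2 * Real.pi)) := by
      rw [him a m hm, him b n hn]
      have : (m : ℝ) + 1 ≤ n := by exact_mod_cast hmn
      exact ⟨by linarith, by linarith⟩
    obtain ⟨c, hcS, hcv⟩ := hS.intermediate_value ha hb hc hmem
    obtain ⟨k, hk⟩ := hval c hcS
    have h3 : (F c).im / (2 * Real.pi) = (m : ℝ) + 1 / 2 := hcv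
    rw [him c k hk] at h3
    have h4 : (2 * k : ℤ) = 2 * m + 1 := by
      have : (2 * (k : ℝ)) = 2 * m + 1 := by linarith
      exact_mod_cast this
    omega
  obtain ⟨m, hm⟩ := hval a ha
  obtain ⟨n, hn⟩ := hval b hb
  have h5 := key a ha b hb m n hm hn
  have h6 := key b hb a ha n m hn hm
  have h7 : m = n := by omega
  rw [hm, hn, h7]

theorem ins_sw {y : ℕ → ℝ} {j : ℕ} (hj : j + 1 < k) (w : ℂ) :
    (fun l => (ins y (j + 1) w : Fin k → ℂ) ((sw j : Equiv.Perm (Fin k)) l)) = ins y j w ∧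
      (fun l => (ins y j w : Fin k → ℂ) ((sw j : Equiv.Perm (Fin k)) l)) = ins y (j + 1) w := by
  have e0 : (sw j : Equiv.Perm (Fin k)) = Equiv.swap ⟨j, by omega⟩ ⟨j + 1, hj⟩ := by
    rw [sw, dif_pos hj]
  have e1 : (sw j : Equiv.Perm (Fin k)) ⟨j, by omega⟩ = ⟨j + 1, hj⟩ := by
    rw [e0, Equiv.swap_apply_left]
  have e2 : (sw j : Equiv.Perm (Fin k)) ⟨j + 1, hj⟩ = ⟨j, by omega⟩ := by
    rw [e0, Equiv.swap_apply_right]
  have e3 : ∀ l : Fin k, (l : ℕ) ≠ j → (l : ℕ) ≠ j + 1 → (sw j : Equiv.Perm (Fin k)) l = l := by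
    intro l h1 h2
    rw [e0]
    exact Equiv.swap_apply_of_ne_of_ne (fun h => h1 (by rw [h])) (fun h => h2 (by rw [h]))
  constructor
  · funext l
    show (ins y (j + 1) w : Fin k → ℂ) ((sw j : Equiv.Perm (Fin k)) l) = (ins y j w : Fin k → ℂ) l
    by_cases h1 : (l : ℕ) = j
    · have hl : l = ⟨j, by omega⟩ := Fin.ext h1
      rw [hl, e1, EU_ins_eq (show ((⟨j + 1, hj⟩ : Fin k) : ℕ) = j + 1 from rfl),
        EU_ins_eq (show ((⟨j, by omega⟩ : Fin k) : ℕ) = j from rfl)]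
    · by_cases h2 : (l : ℕ) = j + 1
      · have hl : l = ⟨j + 1, hj⟩ := Fin.ext h2
        rw [hl, e2, EU_ins_lt (show ((⟨j, by omega⟩ : Fin k) : ℕ) < j + 1 from Nat.lt_succ_self j),
          EU_ins_gt (show j < ((⟨j + 1, hj⟩ : Fin k) : ℕ) from Nat.lt_succ_self j)]
        rfl
      · rw [e3 l h1 h2]
        rcases lt_or_gt_of_ne h1 with h3 | h3
        · rw [EU_ins_lt (show (l : ℕ) < j + 1 by omega), EU_ins_lt h3]
        · rw [EU_ins_gt (show j + 1 < (l : ℕ) by omega), EU_ins_gt h3]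
  · funext l
    show (ins y j w : Fin k → ℂ) ((sw j : Equiv.Perm (Fin k)) l) = (ins y (j + 1) w : Fin k → ℂ) l
    by_cases h1 : (l : ℕ) = j
    · have hl : l = ⟨j, by omega⟩ := Fin.ext h1
      rw [hl, e1, EU_ins_lt (show ((⟨j, by omega⟩ : Fin k) : ℕ) < j + 1 from Nat.lt_succ_self j),
          EU_ins_gt (show j < ((⟨j + 1, hj⟩ : Fin k) : ℕ) from Nat.lt_succ_self j)]
      rfl
    · by_cases h2 : (l : ℕ) = j + 1
      · have hl : l = ⟨j + 1, hj⟩ := Fin.ext h2
        rw [hl, e2, EU_ins_eq (show ((⟨j + 1, hj⟩ : Fin k) : ℕ) = j + 1 from rfl),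
          EU_ins_eq (show ((⟨j, by omega⟩ : Fin k) : ℕ) = j from rfl)]
      · rw [e3 l h1 h2]
        rcases lt_or_gt_of_ne h1 with h3 | h3
        · rw [EU_ins_lt (show (l : ℕ) < j + 1 by omega), EU_ins_lt h3]
        · rw [EU_ins_gt (show j + 1 < (l : ℕ) by omega), EU_ins_gt h3]

theorem ins_an {y : ℕ → ℝ} (j : ℕ) (w : ℂ) : AnalyticAt ℂ (fun w => (ins y j w : Fin k → ℂ)) w := by
  refine analyticAt_pi_iff.2 fun i => ?_
  simp only [ins]
  split_ifs
  · exact analyticAt_const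
  · exact analyticAt_id
  · exact analyticAt_const

private theorem ELine_cont {y : ℕ → ℝ} (j : ℕ) : Continuous (fun w : ℂ => (ins y j w : Fin k → ℂ)) :=
  continuous_iff_continuousAt.2 fun w => (ins_an j w).continuousAt

private theorem ELine_symm {j : ℕ} (hj : j + 1 < k) : (sw j : Equiv.Perm (Fin k)).symm = sw j := by
  rw [sw, dif_pos hj, Equiv.symm_swap]

private theorem ELine_WW_up {y : ℕ → ℝ} (hy : StrictMono y) {j : ℕ} (hj : j + 1 < k) {w : ℂ} (hw : 0 < w.im)
    (hr : w.re < y (j + 1)) : (ins y (j + 1) w : Fin k → ℂ) ∈ WW (sw j) := by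
  intro a b hab
  have hab' : (a : ℕ) < (b : ℕ) := hab
  refine ⟨?_, fun h => ?_⟩
  · rcases lt_trichotomy (b : ℕ) (j + 1) with hb | hb | hb
    · left
      rw [EU_ins_lt hb, EU_ins_lt (hab'.trans hb), Complex.ofReal_re, Complex.ofReal_re]
      exact hy hab'
    · right
      rw [EU_ins_eq hb, EU_ins_lt (show (a : ℕ) < j + 1 by omega), Complex.ofReal_im]
      exact hw
    · left
      rw [EU_ins_gt hb]
      rcases lt_trichotomy (a : ℕ) (j + 1) with ha | ha | ha
      · rw [EU_ins_lt ha, Complex.ofReal_re, Complex.ofReal_re]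
        exact hy (by omega)
      · rw [EU_ins_eq ha, Complex.ofReal_re]
        exact hr.trans_le (hy.monotone (by omega))
      · rw [EU_ins_gt ha, Complex.ofReal_re, Complex.ofReal_re]
        exact hy (by omega)
  · rw [ELine_symm hj] at h
    obtain ⟨h1, h2⟩ := sw_inv j hj hab h
    rw [EU_ins_eq (show (b : ℕ) = j + 1 by rw [h2]), EU_ins_lt (show (a : ℕ) < j + 1 by rw [h1]; exact Nat.lt_succ_self j),
      Complex.ofReal_im]
    exact hw

private theorem ELine_WW_dn {y : ℕ → ℝ} (hy : StrictMono y) {j : ℕ} (hj : j + 1 < k) {w : ℂ} (hw : w.im < 0)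
    (hr : ∀ i, i < j → y i < w.re) : (ins y j w : Fin k → ℂ) ∈ WW (sw j) := by
  intro a b hab
  have hab' : (a : ℕ) < (b : ℕ) := hab
  refine ⟨?_, fun h => ?_⟩
  · rcases lt_trichotomy (b : ℕ) j with hb | hb | hb
    · left
      rw [EU_ins_lt hb, EU_ins_lt (hab'.trans hb), Complex.ofReal_re, Complex.ofReal_re]
      exact hy hab'
    · left
      rw [EU_ins_eq hb, EU_ins_lt (show (a : ℕ) < j by omega), Complex.ofReal_re]
      exact hr _ (by omega)
    · rw [EU_ins_gt hb]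
      rcases lt_trichotomy (a : ℕ) j with ha | ha | ha
      · left
        rw [EU_ins_lt ha, Complex.ofReal_re, Complex.ofReal_re]
        exact hy (by omega)
      · right
        rw [EU_ins_eq ha, Complex.ofReal_im]
        exact hw
      · left
        rw [EU_ins_gt ha, Complex.ofReal_re, Complex.ofReal_re]
        exact hy (by omega)
  · rw [ELine_symm hj] at h
    obtain ⟨h1, h2⟩ := sw_inv j hj hab h
    rw [EU_ins_gt (show j < (b : ℕ) by rw [h2]; exact Nat.lt_succ_self j), EU_ins_eq (show (a : ℕ) = j by rw [h1]),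
      Complex.ofReal_im]
    exact hw

private theorem ELine_pre_up : IsPreconnected {w : ℂ | 0 < w.im} := (convex_halfSpace_im_gt 0).isPreconnected

private theorem ELine_pre_dn : IsPreconnected {w : ℂ | w.im < 0} := (convex_halfSpace_im_lt 0).isPreconnected

theorem Cx.up (h : Cx k n f ρ θ z) {y : ℕ → ℝ} (hy : StrictMono y) {j : ℕ} (hj : j + 1 < k) (a : ℤ) (α : Fin n) {w : ℂ}
    (hw : 0 < w.im) : ρ (a + 1) (ins y j w) (θ j α) = ρ a (ins y (j + 1) w) α := by
  have h1 : AnalyticOnNhd ℂ (fun w => ρ (a + 1) (ins y j w) (θ j α)) {w : ℂ | 0 < w.im} := fun v hv =>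
    h.an (a + 1) (ins_an j v) (UU_im hy (by omega) (ne_of_gt hv)) _
  have h2 : AnalyticOnNhd ℂ (fun w => ρ a (ins y (j + 1) w) α) {w : ℂ | 0 < w.im} := fun v hv =>
    h.an a (ins_an (j + 1) v) (UU_im hy hj (ne_of_gt hv)) _
  have h0 : ((y j : ℂ) + Complex.I) ∈ {w : ℂ | 0 < w.im} := by
    show 0 < ((y j : ℂ) + Complex.I).im
    simp
  have h3 : (fun w => ρ (a + 1) (ins y j w) (θ j α)) =ᶠ[𝓝 ((y j : ℂ) + Complex.I)] fun w => ρ a (ins y (j + 1) w) α := by
    have hA : ∀ᶠ v in 𝓝 ((y j : ℂ) + Complex.I), 0 < v.im :=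
      (isOpen_lt continuous_const Complex.continuous_im).mem_nhds h0
    have hB : ∀ᶠ v in 𝓝 ((y j : ℂ) + Complex.I), v.re < y (j + 1) := by
      refine (isOpen_lt Complex.continuous_re continuous_const).mem_nhds ?_
      show ((y j : ℂ) + Complex.I).re < y (j + 1)
      simpa using hy (Nat.lt_succ_self j)
    filter_upwards [hA, hB] with v hv1 hv2
    have h4 := h.tr j hj a _ (ELine_WW_up hy hj hv1 hv2) α
    rwa [(ins_sw hj v).1] at h4
  exact h1.eqOn_of_preconnected_of_eventuallyEq h2 ELine_pre_up h0 h3 hw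

theorem Cx.dn (h : Cx k n f ρ θ z) {y : ℕ → ℝ} (hy : StrictMono y) {j : ℕ} (hj : j + 1 < k) (a : ℤ) (α : Fin n) {w : ℂ}
    (hw : w.im < 0) : ρ (a + 1) (ins y (j + 1) w) (θ j α) = ρ a (ins y j w) α := by
  have h1 : AnalyticOnNhd ℂ (fun w => ρ (a + 1) (ins y (j + 1) w) (θ j α)) {w : ℂ | w.im < 0} := fun v hv =>
    h.an (a + 1) (ins_an (j + 1) v) (UU_im hy hj (ne_of_lt hv)) _
  have h2 : AnalyticOnNhd ℂ (fun w => ρ a (ins y j w) α) {w : ℂ | w.im < 0} := fun v hv =>
    h.an a (ins_an j v) (UU_im hy (by omega) (ne_of_lt hv)) _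
  have h0 : ((y j : ℂ) - Complex.I) ∈ {w : ℂ | w.im < 0} := by
    show ((y j : ℂ) - Complex.I).im < 0
    simp
  have h3 : (fun w => ρ (a + 1) (ins y (j + 1) w) (θ j α)) =ᶠ[𝓝 ((y j : ℂ) - Complex.I)] fun w => ρ a (ins y j w) α := by
    have hA : ∀ᶠ v in 𝓝 ((y j : ℂ) - Complex.I), v.im < 0 :=
      (isOpen_lt Complex.continuous_im continuous_const).mem_nhds h0
    have hB : ∀ᶠ v in 𝓝 ((y j : ℂ) - Complex.I), ∀ i, i < j → y i < v.re := by
      rcases Nat.eq_zero_or_pos j with hj0 | hj0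
      · exact Filter.Eventually.of_forall fun v i hi => absurd hi (by omega)
      · have hB' : ∀ᶠ v in 𝓝 ((y j : ℂ) - Complex.I), y (j - 1) < v.re := by
          refine (isOpen_lt continuous_const Complex.continuous_re).mem_nhds ?_
          show y (j - 1) < ((y j : ℂ) - Complex.I).re
          simpa using hy (show j - 1 < j by omega)
        filter_upwards [hB'] with v hv i hi
        exact (hy.monotone (show i ≤ j - 1 by omega)).trans_lt hv
    filter_upwards [hA, hB] with v hv1 hv2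
    have h4 := h.tr j hj a _ (ELine_WW_dn hy hj hv1 hv2) α
    rwa [(ins_sw hj v).2] at h4
  exact h1.eqOn_of_preconnected_of_eventuallyEq h2 ELine_pre_dn h0 h3 hw

theorem Lam_sig (L : ℤ → Tr n → (Fin k → ℂ) → ℂ) (ν : ℤ) (s : St n) (x : Fin k → ℂ) :
    Lam L (sig ν s) x = Lam L s x + 2 * (Real.pi : ℂ) * Complex.I * (ν : ℂ) := by
  obtain ⟨⟨p, t⟩, a⟩ := s
  rw [sig_apply]
  simp only [Lam]
  push_cast
  ring

theorem Lg.pi (hL : Lg k n ρ θ z L c m) (s : St n) {x : Fin k → ℂ} (hx : x ∈ XX k) :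
    Lam L (PI k z m s) x = Lam L s x := by
  obtain ⟨⟨p, t⟩, a⟩ := s
  rw [PI_apply]
  simp only [Lam]
  rw [hL.pj a p x hx]
  push_cast
  ring

theorem Lg.exp_Lam (hL : Lg k n ρ θ z L c m) (s : St n) {x : Fin k → ℂ} (hx : x ∈ XX k) :
    Complex.exp (Lam L s x) = VV (ρ s.2 x) s.1.1 := by
  rw [Lam, Complex.exp_add, hL.exp s.2 s.1.1 x hx]
  have h1 : Complex.exp (2 * (Real.pi : ℂ) * Complex.I * (s.1.2 : ℂ)) = 1 :=
    Complex.exp_eq_one_iff.2 ⟨s.1.2, by ring⟩
  rw [h1, mul_one]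

theorem Lam_cont (hL : Lg k n ρ θ z L c m) (s : St n) : ContinuousOn (Lam L s) (XX k) :=
  (hL.cont s.2 s.1.1).add continuousOn_const

/-- The jump at a half twist, for states. -/
private theorem ELine_jump (hL : Lg k n ρ θ z L c m) {j : ℕ} (hj : j + 1 < k) (s : St n) {x : Fin k → ℂ}
    (hx : x ∈ WW (sw j)) : Lam L (SS θ c j s) (fun l => x ((sw j : Equiv.Perm (Fin k)) l)) = Lam L s x := by
  obtain ⟨⟨p, t⟩, a⟩ := s
  rw [SS_apply]
  simp only [Lam]
  rw [hL.jump j hj a p x hx]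
  push_cast
  ring

/-- Two continuous logarithms of the same function on a preconnected set, equal at one point, are equal. -/
private theorem ELine_eq {S : Set ℂ} (hS : IsPreconnected S) {F G : ℂ → ℂ} (hF : ContinuousOn F S) (hG : ContinuousOn G S)
    (h1 : ∀ w ∈ S, Complex.exp (F w) = Complex.exp (G w)) {a b : ℂ} (ha : a ∈ S) (hb : b ∈ S) (h : F a = G a) :
    F b = G b := by
  have h2 : (fun w => F w - G w) a = (fun w => F w - G w) b :=
    ELine_const hS (F := fun w => F w - G w) (hF.sub hG) (fun w hw => by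
      show Complex.exp (F w - G w) = 1
      rw [Complex.exp_sub, h1 w hw, div_self (Complex.exp_ne_zero _)]) ha hb
  have h3 : F a - G a = F b - G b := h2
  rw [h, sub_self] at h3
  exact (sub_eq_zero.1 h3.symm)

theorem Lg.up (hL : Lg k n ρ θ z L c m) (h : Cx k n f ρ θ z) {y : ℕ → ℝ} (hy : StrictMono y) {j : ℕ} (hj : j + 1 < k)
    (s : St n) {w : ℂ} (hw : 0 < w.im) : Lam L (SS θ c j s) (ins y j w) = Lam L s (ins y (j + 1) w) := by
  have hm1 : ∀ v : ℂ, 0 < v.im → (ins y j v : Fin k → ℂ) ∈ XX k := fun v hv => UU_im hy (by omega) (ne_of_gt hv)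
  have hm2 : ∀ v : ℂ, 0 < v.im → (ins y (j + 1) v : Fin k → ℂ) ∈ XX k := fun v hv => UU_im hy hj (ne_of_gt hv)
  have h0 : ((y j : ℂ) + Complex.I) ∈ {w : ℂ | 0 < w.im} := by
    show 0 < ((y j : ℂ) + Complex.I).im
    simp
  have hr : ((y j : ℂ) + Complex.I).re < y (j + 1) := by
    simpa using hy (Nat.lt_succ_self j)
  refine ELine_eq (F := fun v => Lam L (SS θ c j s) (ins y j v)) (G := fun v => Lam L s (ins y (j + 1) v))
    ELine_pre_up ?_ ?_ ?_ h0 hw ?_
  · exact (Lam_cont hL _).comp (ELine_cont j).continuousOn fun v hv => hm1 v hv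
  · exact (Lam_cont hL _).comp (ELine_cont (j + 1)).continuousOn fun v hv => hm2 v hv
  · intro v hv
    show Complex.exp (Lam L (SS θ c j s) (ins y j v)) = Complex.exp (Lam L s (ins y (j + 1) v))
    rw [hL.exp_Lam _ (hm1 v hv), hL.exp_Lam _ (hm2 v hv)]
    obtain ⟨⟨p, t⟩, a⟩ := s
    rw [SS_apply]
    show VV (ρ (a + 1) (ins y j v)) (ta (θ j) p) = VV (ρ a (ins y (j + 1) v)) p
    rw [VV_ta]
    congr 1
    funext α
    exact h.up hy hj a α hv
  · have h4 := ELine_jump hL hj s (ELine_WW_up hy hj h0 hr)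
    rwa [(ins_sw hj _).1] at h4

theorem Lg.dn (hL : Lg k n ρ θ z L c m) (h : Cx k n f ρ θ z) {y : ℕ → ℝ} (hy : StrictMono y) {j : ℕ} (hj : j + 1 < k)
    (s : St n) {w : ℂ} (hw : w.im < 0) : Lam L (SS θ c j s) (ins y (j + 1) w) = Lam L s (ins y j w) := by
  have hm1 : ∀ v : ℂ, v.im < 0 → (ins y j v : Fin k → ℂ) ∈ XX k := fun v hv => UU_im hy (by omega) (ne_of_lt hv)
  have hm2 : ∀ v : ℂ, v.im < 0 → (ins y (j + 1) v : Fin k → ℂ) ∈ XX k := fun v hv => UU_im hy hj (ne_of_lt hv)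
  have h0 : ((y j : ℂ) - Complex.I) ∈ {w : ℂ | w.im < 0} := by
    show ((y j : ℂ) - Complex.I).im < 0
    simp
  have hr : ∀ i, i < j → y i < ((y j : ℂ) - Complex.I).re := by
    intro i hi
    simpa using hy hi
  refine ELine_eq (F := fun v => Lam L (SS θ c j s) (ins y (j + 1) v)) (G := fun v => Lam L s (ins y j v))
    ELine_pre_dn ?_ ?_ ?_ h0 hw ?_
  · exact (Lam_cont hL _).comp (ELine_cont (j + 1)).continuousOn fun v hv => hm2 v hv
  · exact (Lam_cont hL _).comp (ELine_cont j).continuousOn fun v hv => hm1 v hv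
  · intro v hv
    show Complex.exp (Lam L (SS θ c j s) (ins y (j + 1) v)) = Complex.exp (Lam L s (ins y j v))
    rw [hL.exp_Lam _ (hm2 v hv), hL.exp_Lam _ (hm1 v hv)]
    obtain ⟨⟨p, t⟩, a⟩ := s
    rw [SS_apply]
    show VV (ρ (a + 1) (ins y (j + 1) v)) (ta (θ j) p) = VV (ρ a (ins y j v)) p
    rw [VV_ta]
    congr 1
    funext α
    exact h.dn hy hj a α hv
  · have h4 := ELine_jump hL hj s (ELine_WW_dn hy hj h0 hr)
    rwa [(ins_sw hj _).2] at h4

end Pool.Agent.LR
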