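import Pool.Agent.LR.EBase

/-!
# LR ELog: logarithms of the `VV`, with jumps (as in QLog, QSys, QNu)
-/

set_option autoImplicit false

open Topology Filter

noncomputable section

namespace Pool.Agent.LR

open Pool.Agent.H60.OC (Pr NN nm zc SG MF IsRoots vd poly HoloOn)

variable {k n : ℕ} {f : (Fin k → ℂ) → (Fin n → ℂ)} {ρ : ℤ → (Fin k → ℂ) → (Fin n → ℂ)}
  {θ : ℕ → Equiv.Perm (Fin n)} {z : Equiv.Perm (Fin n)}

theorem Cx.logs (h : Cx k n f ρ θ z) {Θ : Equiv.Perm (Fin k) → Equiv.Perm (Fin n)}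
    (hΘ : ∀ (σ : Equiv.Perm (Fin k)) (a : ℤ), ∀ x ∈ WW σ, ∀ α, ρ (a + inv σ) (fun l => x (σ l)) (Θ σ α) = ρ a x α)
    (hz : ∀ a, ∀ x ∈ XX k, ∀ α, ρ (a + 2 * (NN k : ℤ)) x (z α) = ρ a x α) :
    ∃ (L : ℤ → Tr n → (Fin k → ℂ) → ℂ) (c : Equiv.Perm (Fin k) → ℤ → Tr n → ℤ) (m : ℤ → Tr n → ℤ),
      (∀ a p, ContinuousOn (L a p) (XX k)) ∧ (∀ a p, ∀ x ∈ XX k, Complex.exp (L a p x) = VV (ρ a x) p) ∧
      (∀ σ a p, ∀ x ∈ WW σ, L (a + inv σ) (ta (Θ σ) p) (fun l => x (σ l)) =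
        L a p x + 2 * (Real.pi : ℂ) * Complex.I * (c σ a p : ℂ)) ∧
      (∀ a p, ∀ x ∈ XX k, L (a + 2 * (NN k : ℤ)) (ta z p) x = L a p x + 2 * (Real.pi : ℂ) * Complex.I * (m a p : ℂ)) := by
  have hex : ∀ (a : ℤ) (p : Tr n), ∃ L : (Fin k → ℂ) → ℂ, ContinuousOn L (XX k) ∧
      ∀ x ∈ XX k, Complex.exp (L x) = VV (ρ a x) p := by
    intro a p
    refine exists_log (XX_open k) (XX_base k) (XX_star k) ?_ fun x hx => (VV_ne (h.inj a hx) p).1
    have hj : ∀ α, ContinuousOn (fun x => ρ a x α) (XX k) := fun α => continuousOn_pi.1 (h.cont a) α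
    unfold VV
    refine ((hj p.1.1).sub (hj p.1.2.1)).div ((hj p.1.1).sub (hj p.1.2.2)) fun x hx => ?_
    exact sub_ne_zero.2 ((h.inj a hx).ne p.2.2.1)
  choose L hL hE using hex
  have hco : ∀ σ : Equiv.Perm (Fin k), Continuous fun x : Fin k → ℂ => (fun l => x (σ l)) :=
    fun σ => continuous_pi fun l => continuous_apply (σ l)
  have hc : ∀ (σ : Equiv.Perm (Fin k)) (a : ℤ) (p : Tr n), ∃ c : ℤ, ∀ x ∈ WW σ,
      L (a + inv σ) (ta (Θ σ) p) (fun l => x (σ l)) = L a p x + 2 * (Real.pi : ℂ) * Complex.I * (c : ℂ) := by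
    intro σ a p
    refine log_const (L := fun x => L (a + inv σ) (ta (Θ σ) p) (fun l => x (σ l))) (L' := L a p) (WW_conn σ) ?_ ?_ ?_
    · exact (hL _ _).comp (hco σ).continuousOn fun x hx => WW_comp σ hx
    · exact (hL _ _).mono (WW_sub σ)
    · intro x hx
      show Complex.exp (L (a + inv σ) (ta (Θ σ) p) (fun l => x (σ l))) = Complex.exp (L a p x)
      rw [hE _ _ _ (WW_comp σ hx), hE _ _ _ (WW_sub σ hx), VV_ta]
      congr 1
      funext α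
      exact hΘ σ a x hx α
  have hm : ∀ (a : ℤ) (p : Tr n), ∃ m : ℤ, ∀ x ∈ XX k,
      L (a + 2 * (NN k : ℤ)) (ta z p) x = L a p x + 2 * (Real.pi : ℂ) * Complex.I * (m : ℂ) := by
    intro a p
    refine log_const ((XX_star k).isPathConnected (XX_base k)).isConnected.isPreconnected (hL _ _) (hL _ _) ?_
    intro x hx
    rw [hE _ _ _ hx, hE _ _ _ hx, VV_ta]
    congr 1
    funext α
    exact hz a x hx α
  choose c hc using hc
  choose m hm using hm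
  exact ⟨L, c, m, hL, hE, hc, hm⟩

theorem Cx.sig (h : Cx k n f ρ θ z) {Θ : Equiv.Perm (Fin k) → Equiv.Perm (Fin n)}
    (hΘ : ∀ (σ : Equiv.Perm (Fin k)) (a : ℤ), ∀ x ∈ WW σ, ∀ α, ρ (a + inv σ) (fun l => x (σ l)) (Θ σ α) = ρ a x α)
    {L : ℤ → Tr n → (Fin k → ℂ) → ℂ} {c : Equiv.Perm (Fin k) → ℤ → Tr n → ℤ}
    (hc : ∀ σ a p, ∀ x ∈ WW σ, L (a + inv σ) (ta (Θ σ) p) (fun l => x (σ l)) =
        L a p x + 2 * (Real.pi : ℂ) * Complex.I * (c σ a p : ℂ)) :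
    Sys (G := Equiv.Perm (Tr n × ℤ)) inv (fun σ a => sh (Θ σ) (fun p => - c σ a p)) := by
  refine sys_of_maps (V := ℂ × ℂ × ℂ × ℂ) (R := fun a x q => (ρ a x q.1.1.1, ρ a x q.1.1.2.1, ρ a x q.1.1.2.2,
    L a q.1 x + 2 * (Real.pi : ℂ) * Complex.I * (q.2 : ℂ))) ?_ ?_
  · rintro a x hx ⟨p, t⟩ ⟨p', t'⟩ he
    have hinj := h.inj a hx
    simp only [Prod.mk.injEq] at he
    obtain ⟨e1, e2, e3, e4⟩ := he
    have hp : p = p' := by
      apply Subtype.ext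
      exact Prod.ext (hinj e1) (Prod.ext (hinj e2) (hinj e3))
    subst hp
    have h1 : (2 * (Real.pi : ℂ) * Complex.I) ≠ 0 := Complex.two_pi_I_ne_zero
    have h2 : (2 * (Real.pi : ℂ) * Complex.I) * (t : ℂ) = (2 * (Real.pi : ℂ) * Complex.I) * (t' : ℂ) := add_left_cancel e4
    have h3 : (t : ℂ) = (t' : ℂ) := mul_left_cancel₀ h1 h2
    have h4 : t = t' := by exact_mod_cast h3
    rw [h4]
  · rintro σ a x hx ⟨p, t⟩
    rw [QSys_sh_apply]
    simp only [Prod.mk.injEq]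
    refine ⟨hΘ σ a x hx _, hΘ σ a x hx _, hΘ σ a x hx _, ?_⟩
    rw [hc σ a p x hx]
    push_cast
    ring

theorem Cx.lv_per (h : Cx k n f ρ θ z) {i : ℕ} (hi : i + 1 < k) (hz : z * θ i = θ i * z)
    {L : ℤ → Tr n → (Fin k → ℂ) → ℂ} {c m : ℤ → Tr n → ℤ}
    (hc : ∀ a p, ∀ x ∈ WW (sw i), L (a + 1) (ta (θ i) p) (fun l => x ((sw i : Equiv.Perm (Fin k)) l)) =
        L a p x + 2 * (Real.pi : ℂ) * Complex.I * (c a p : ℂ))
    (hm : ∀ a p, ∀ x ∈ XX k, L (a + 2 * (NN k : ℤ)) (ta z p) x = L a p x + 2 * (Real.pi : ℂ) * Complex.I * (m a p : ℂ)) :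
    lv (2 * (NN k : ℤ)) (fun a => sh z (fun p => - m a p)) * lv 1 (fun a => sh (θ i) (fun p => - c a p)) =
      lv 1 (fun a => sh (θ i) (fun p => - c a p)) * lv (2 * (NN k : ℤ)) (fun a => sh z (fun p => - m a p)) := by
  apply Equiv.ext
  rintro ⟨⟨p, t⟩, a⟩
  simp only [Equiv.Perm.mul_apply, QSys_lv_apply, QSys_sh_apply]
  have hta : ta z (ta (θ i) p) = ta (θ i) (ta z p) := by
    have h1 : ta (z * θ i) p = ta (θ i * z) p := by rw [hz]
    rwa [ta_mul, ta_mul] at h1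
  have hx := wit_mem (1 : Equiv.Perm (Fin k)) (sw i)
  have hx0 := WW_sub _ hx
  have hy := WW_comp (sw i) hx
  set x : Fin k → ℂ := (fun l : Fin k => ((((1 : Equiv.Perm (Fin k)).symm l : Fin k) : ℕ) : ℂ) + Complex.I * ((l : ℕ) : ℂ))
    with hxdef
  have e1 := hm (a + 1) (ta (θ i) p) _ hy
  rw [hc a p x hx, hta] at e1
  have e2 := hc (a + 2 * (NN k : ℤ)) (ta z p) x hx
  rw [hm a p x hx0] at e2
  rw [show a + 1 + 2 * (NN k : ℤ) = a + 2 * (NN k : ℤ) + 1 by ring] at e1 ⊢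
  rw [e1] at e2
  have h1 : (2 * (Real.pi : ℂ) * Complex.I) ≠ 0 := Complex.two_pi_I_ne_zero
  have h2 : (2 * (Real.pi : ℂ) * Complex.I) * ((c a p : ℂ) + (m (a + 1) (ta (θ i) p) : ℂ)) =
      (2 * (Real.pi : ℂ) * Complex.I) * ((m a p : ℂ) + (c (a + 2 * (NN k : ℤ)) (ta z p) : ℂ)) := by
    linear_combination e2
  have h3 := mul_left_cancel₀ h1 h2
  have h4 : c a p + m (a + 1) (ta (θ i) p) = m a p + c (a + 2 * (NN k : ℤ)) (ta z p) := by exact_mod_cast h3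
  have h5 : t + - c a p + - m (a + 1) (ta (θ i) p) = t + - m a p + - c (a + 2 * (NN k : ℤ)) (ta z p) := by
    linarith
  rw [hta, h5]


theorem Cx.lgs (h : Cx k n f ρ θ z) : ∃ (L : ℤ → Tr n → (Fin k → ℂ) → ℂ) (c : ℕ → ℤ → Tr n → ℤ) (m : ℤ → Tr n → ℤ),
    Lg k n ρ θ z L c m := by
  obtain ⟨Θ, hΘ1, hΘ2, hΘ3⟩ := h.trans
  obtain ⟨L, c, m, hLc, hLe, hLs, hLm⟩ := h.logs hΘ3 h.per
  have hsw : ∀ i, i + 1 < k → Θ (sw i) = θ i := by
    intro i hi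
    have h1 := hΘ2 1 i hi (by
      rw [Fin.lt_def]
      exact Nat.lt_succ_self i)
    rwa [one_mul, hΘ1, mul_one] at h1
  have hLi : ∀ i, i + 1 < k → ∀ a p, ∀ x ∈ WW (sw i),
      L (a + 1) (ta (θ i) p) (fun l => x ((sw i : Equiv.Perm (Fin k)) l)) =
        L a p x + 2 * (Real.pi : ℂ) * Complex.I * (c (sw i) a p : ℂ) := by
    intro i hi a p x hx
    have h1 := hLs (sw i) a p x hx
    rwa [inv_sw i hi, hsw i hi] at h1
  refine ⟨L, fun i => c (sw i), m, hLc, hLe, hLi, hLm, ?_, ?_⟩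
  · have hB := lv_braid (h.sig hΘ3 hLs)
    constructor
    · intro i j hij hj
      have h1 := hB.far i j hij hj
      simp only [hsw i (by omega), hsw j hj] at h1
      exact h1
    · intro i hi
      have h1 := hB.br i hi
      simp only [hsw i (by omega), hsw (i + 1) (by omega)] at h1
      exact h1
  · intro i hi
    exact h.lv_per hi (h.zc i hi) (hLi i hi) hLm

end Pool.Agent.LR
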