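import Pool.Agent.LR.EOne
import Pool.Agent.LR.Glue
import Pool.Agent.H60.OC.Main

/-!
# LR EMain: the end of the function theory: `θ i ^ 2 = 1`, `f` is constant
-/

set_option autoImplicit false

open Topology Filter

noncomputable section

namespace Pool.Agent.LR

open Pool.Agent.H60.OC (Pr NN nm zc SG MF IsRoots vd poly HoloOn)

variable {k n : ℕ} {f : (Fin k → ℂ) → (Fin n → ℂ)} {ρ : ℤ → (Fin k → ℂ) → (Fin n → ℂ)}
  {θ : ℕ → Equiv.Perm (Fin n)} {z : Equiv.Perm (Fin n)}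

theorem EMain_br (hb : BraidRel k θ) : Grp.Br (k - 1) θ := by
  refine ⟨fun i j hij hj => hb.far i j hij (by omega), fun i hi => hb.br i (by omega)⟩

theorem Cx.fin0 (h : Cx k n f ρ θ z) (hkn : k < n) (hsq : ∀ i, i + 1 < k → θ i * θ i = 1) :
    ∀ z ∈ SG k, ∀ z' ∈ SG k, f z = f z' := by
  have hk := h.hk
  obtain ⟨Θ, h1, h2, h3⟩ := h.trans
  have hinj : ∀ a, ∀ x ∈ XX k, Function.Injective (ρ a x) := fun a x hx => h.inj a hx
  have hsys : Sys (G := Equiv.Perm (Fin n)) inv (fun σ (_ : ℤ) => Θ σ) := sys_of_roots hinj h3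
  have hsw : ∀ i, i + 1 < k → Θ (sw i) = θ i := by
    intro i hi
    have h4 := h2 1 i hi (by
      rw [Equiv.Perm.one_apply, Equiv.Perm.one_apply, Fin.lt_def]
      exact Nat.lt_succ_self i)
    rw [one_mul, h1, mul_one] at h4
    exact h4
  obtain ⟨L, hL⟩ := hsys.split (by omega) (fun a i j hi hj => by
    show Θ (sw i) * Θ (sw i) = Θ (sw j) * Θ (sw j)
    rw [hsw i hi, hsw j hj, hsq i hi, hsq j hj])
  obtain ⟨μ, hμc, hμ⟩ := glue h.cont h.root h3 hL
  exact Pool.Agent.H60.OC.main_theorem (by omega) hkn h.map h.hol hμc hμ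

/-- `D` bounds the sizes of the windows. -/
theorem Cx.sq_one (h : Cx k n f ρ θ z) {D : ℕ} (hD : 4 * D + 12 ≤ k)
    (hT : ∀ C, 1 ≤ C → C ≤ 3 * D + 2 → ∀ x ∈ Om k θ C, θ C (θ (C - 1) (θ (C - 1) x)) = θ (C - 1) (θ (C - 1) x))
    (hm : ∀ x : Fin n, (¬ ∀ i, i + 1 < k → θ i x = x) → ∃ c, 1 ≤ c ∧ c ≤ D ∧ ∃ g ∈ Exp.HH k θ, g x ∈ Om k θ c ∧
      ∀ g' ∈ Exp.HH k θ, g' (g x) ∉ Om k θ (c - 1)) : ∀ i, i + 1 < k → θ i * θ i = 1 := by
  have hb := h.bra
  have hB := EMain_br hb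
  -- the statement for a minimal window
  have key : ∀ c, 1 ≤ c → c ≤ D → ∀ α : Fin n, (¬ ∀ i, i + 1 < k → θ i α = α) → α ∈ Om k θ c →
      (∀ g' ∈ Exp.HH k θ, g' α ∉ Om k θ (c - 1)) → c = 1 ∧ θ 0 (θ 0 α) = α := by
    intro c hc hcD α hnt hα hmin
    obtain ⟨h1, h2⟩ := h.c_one hc (by omega) hα hnt (hT c hc (by omega)) (hT (3 * c + 2) (by omega) (by omega))
    have hc1 : c = 1 := by
      by_contra hne
      rcases h2 (by omega) with h3 | h3
      · refine hmin 1 (Subgroup.one_mem _) ?_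
        intro i hi hik
        rw [Equiv.Perm.one_apply]
        rcases eq_or_lt_of_le hi with h4 | h4
        · rw [← h4]
          exact h3
        · exact hα i (by omega) hik
      · refine hmin (θ (c - 2)) (Exp.theta_mem (by omega)) ?_
        intro i hi hik
        rcases eq_or_lt_of_le hi with h4 | h4
        · rw [← h4]
          exact h3
        · exact (Om_low hb (by omega) hα).1 i (by omega) hik
    subst hc1
    exact ⟨rfl, h1⟩
  intro i hi
  refine Exp.fin_sq hB (fun x => ?_) (fun x hx => ?_) hi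
  · by_cases hx : ∀ i, i + 1 < k → θ i x = x
    · exact ⟨1, Subgroup.one_mem _, fun j _ hjk => hx j hjk⟩
    · obtain ⟨c, hc, hcD, g, hg, hgx, hmin⟩ := hm x hx
      have hnt : ¬ ∀ i, i + 1 < k → θ i (g x) = g x := by
        intro hcon
        apply hx
        have h5 : g x = x := by
          have h6 := Exp.HH_fix (y := g x) hcon (Subgroup.inv_mem _ hg)
          rw [← Equiv.Perm.mul_apply, inv_mul_cancel, Equiv.Perm.one_apply] at h6
          exact h6.symm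
        rw [h5] at hcon
        exact hcon
      obtain ⟨h7, -⟩ := key c hc hcD (g x) hnt hgx hmin
      subst h7
      exact ⟨g, hg, hgx⟩
  · by_cases hnt : ∀ i, i + 1 < k → θ i x = x
    · rw [hnt 0 (by omega), hnt 0 (by omega)]
    · obtain ⟨c, hc, hcD, -⟩ := hm x hnt
      refine (key 1 le_rfl (by omega) x hnt hx ?_).2
      intro g' hg' hcon
      apply hnt
      have h8 : ∀ i, i + 1 < k → θ i (g' x) = g' x := fun i hik => hcon i (by omega) hik
      have h9 : g' x = x := by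
        have h6 := Exp.HH_fix (y := g' x) h8 (Subgroup.inv_mem _ hg')
        rw [← Equiv.Perm.mul_apply, inv_mul_cancel, Equiv.Perm.one_apply] at h6
        exact h6.symm
      rw [h9] at h8
      exact h8

theorem Cx.main (h : Cx k n f ρ θ z) (hkn : k < n) {D : ℕ} (hD : 4 * D + 12 ≤ k)
    (hT : ∀ C, 1 ≤ C → C ≤ 3 * D + 2 → ∀ x ∈ Om k θ C, θ C (θ (C - 1) (θ (C - 1) x)) = θ (C - 1) (θ (C - 1) x))
    (hm : ∀ x : Fin n, (¬ ∀ i, i + 1 < k → θ i x = x) → ∃ c, 1 ≤ c ∧ c ≤ D ∧ ∃ g ∈ Exp.HH k θ, g x ∈ Om k θ c ∧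
      ∀ g' ∈ Exp.HH k θ, g' (g x) ∉ Om k θ (c - 1)) : ∀ z ∈ SG k, ∀ z' ∈ SG k, f z = f z' :=
  h.fin0 hkn (h.sq_one hD hT hm)

end Pool.Agent.LR
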