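import Pool.Agent.LR.EAnM
import Pool.Agent.LR.EDep
import Pool.Agent.LR.EWW
import Pool.Agent.LR.EGc

/-!
# LR EMv: quotients as functions of few coordinates; moving strands

`iw k C c s`: the embedding of `Fin C` in `Fin k` with the last `c` coordinates shifted by `s`.
`Rep ρ q G ι`: for all levels `b` and `x ∈ XX k`, `VV (ρ b x) q = G (x ∘ ι)`.

`rep0`: `ext u` = the configuration with `ext u i = u i` for `i < C` and `u (C-1) + (i - C + 1)` for `i ≥ C`: it maps `XX C` to `XX k` (a difference in the slit plane plus a nonnegative real number is in the slit plane; two of the new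
points differ by a positive number), it is affine, so analytic; `G u = VV (ρ 0 (ext u)) P` is analytic on `XX C` (`VV_anM`), and for `x ∈ XX k` the point `ext (x ∘ ι)` has the same coordinates `< C` as `x` (`x ∘ ι ∈ XX C`).
`iw k C c 0` is the inclusion.

`mv`: `VV (ρ (b+1) (x ∘ sw i)) (ta (θ i) q) = VV (ρ b x) q = G (x ∘ ι)` for `x ∈ WW (sw i)` (`tr`); with `x' = x ∘ sw i`, `x = x' ∘ sw i`: `x ∘ ι = x' ∘ (sw i ∘ ι)`.  `ι' = sw i ∘ ι` is strictly increasing (`sw i` maps `i` to `i + 1` and fixes the other values of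
`ι`), so `x' ↦ G (x' ∘ ι')` is analytic on `XX k` (`x' ∘ ι' ∈ XX C`), and it agrees with `VV (ρ (b+1) ·) (ta (θ i) q)` on the open nonempty set of the `x ∘ sw i`, `x ∈ WW (sw i)` (`EWW.lean`, `WW_comp`), so on `XX k` (`open_id`).

`mv_sh`: let `w = C - c + s`.  `Sh θ w c = θ w * ... * θ (w+c-1)`, `Sh θ w (t+1) = Sh θ w t * θ (w+t)`.  Claim by induction on `t ≤ c`: if `Rep ρ q G ι_t` with `ι_t l = l` for `l < C - c`, `l + s` for `C - c ≤ l < C - c + t`, `l + s + 1` for `l ≥ C - c + t`, then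
`Rep ρ (ta (Sh θ w t) q) G ι_0`: apply `mv` with `i = w + t` to `ι_(t+1)` (the value `w + t` is taken at `l = C - c + t`, the value `w + t + 1` is not taken), the new embedding is `ι_t`.  `ι_c = iw s`, `ι_0 = iw (s+1)`.

`rep_win`: `C = 3 c + 2`, `C - c = 2 c + 2`.  Induction on `s ≤ c + 1`: there is `q''` with `q''.1 = (α, Wn θ c (2c+2+s) α, Wn θ c (c+1) α)` and `Rep ρ q'' G (iw s)`; step: `q'' ↦ ta (Sh θ (2c+2+s) c) q''`, `Sh` fixes `α` (fixed by `θ i`, `i ≥ c`) and
`Wn θ c (c+1) α` (fixed by `θ i`, `i ≥ 2 c + 1`, `w1_hi`), `sh_fix` (`EGc.lean`), and `Wn θ c (w+1) = Sh θ w c * Wn θ c w`.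
-/

set_option autoImplicit false

open Topology Filter

noncomputable section

namespace Pool.Agent.LR

open Pool.Agent.H60.OC (Pr NN nm zc SG MF IsRoots vd poly HoloOn)

/-- The embedding of `Fin C` with the last `c` coordinates shifted by `s`. -/
def iw (k C c s : ℕ) (h : C + s ≤ k) : Fin C → Fin k := fun l =>
  if _ : (l : ℕ) + c < C then ⟨l, by omega⟩ else ⟨(l : ℕ) + s, by omega⟩

/-- The quotient `q` is the function `G` of the coordinates in the range of `ι`. -/
def Rep {k n C : ℕ} (ρ : ℤ → (Fin k → ℂ) → (Fin n → ℂ)) (q : Tr n) (G : (Fin C → ℂ) → ℂ) (ι : Fin C → Fin k) : Prop :=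
  ∀ b : ℤ, ∀ x ∈ XX k, VV (ρ b x) q = G (fun l => x (ι l))

variable {k n : ℕ} {f : (Fin k → ℂ) → (Fin n → ℂ)} {ρ : ℤ → (Fin k → ℂ) → (Fin n → ℂ)}
  {θ : ℕ → Equiv.Perm (Fin n)} {z : Equiv.Perm (Fin n)} {C : ℕ}

private theorem EMv_coord {m : ℕ} (x₀ : Fin m → ℂ) (j : Fin m) : AnalyticAt ℂ (fun x : Fin m → ℂ => x j) x₀ :=
  analyticAt_pi_iff.1 analyticAt_id j

private theorem EMv_sub {m m' : ℕ} {ι : Fin m → Fin m'} (hι : StrictMono ι) {x : Fin m' → ℂ} (hx : x ∈ XX m') :
    (fun l => x (ι l)) ∈ XX m := fun _ _ hij => hx _ _ (hι hij)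

private theorem EMv_sw {m i : ℕ} (hi : i + 1 < m) (a : Fin m) :
    (((sw i : Equiv.Perm (Fin m)) a : Fin m) : ℕ) = if (a : ℕ) = i then i + 1 else if (a : ℕ) = i + 1 then i else (a : ℕ) := by
  rw [sw, dif_pos hi, Equiv.swap_apply_def]
  by_cases h1 : (a : ℕ) = i
  · have : a = ⟨i, by omega⟩ := Fin.ext h1
    rw [if_pos this, if_pos h1]
  · have h1' : a ≠ ⟨i, by omega⟩ := fun h => h1 (by rw [h])
    rw [if_neg h1', if_neg h1]
    by_cases h2 : (a : ℕ) = i + 1
    · have : a = ⟨i + 1, hi⟩ := Fin.ext h2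
      rw [if_pos this, if_pos h2]
    · have h2' : a ≠ ⟨i + 1, hi⟩ := fun h => h2 (by rw [h])
      rw [if_neg h2', if_neg h2]

private theorem EMv_sw_sw {m i : ℕ} (a : Fin m) : (sw i : Equiv.Perm (Fin m)) ((sw i : Equiv.Perm (Fin m)) a) = a := by
  by_cases hi : i + 1 < m
  · rw [sw, dif_pos hi, Equiv.swap_apply_self]
  · rw [sw, dif_neg hi]
    rfl

private theorem EMv_iw_mono (k C c s : ℕ) (h : C + s ≤ k) : StrictMono (iw k C c s h) := by
  intro a b hab
  have hab' : (a : ℕ) < (b : ℕ) := hab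
  rw [Fin.lt_def]
  unfold iw
  split_ifs <;> simp only <;> omega

/-- The extension of a configuration of `C` points by equidistant points to the right of the last one. -/
private def EMv_ext (k C : ℕ) (hC : 0 < C) (u : Fin C → ℂ) : Fin k → ℂ := fun i =>
  if h : (i : ℕ) < C then u ⟨i, h⟩ else u ⟨C - 1, by omega⟩ + ((((i : ℕ) - C + 1 : ℕ) : ℝ) : ℂ)

private theorem EMv_slit {w : ℂ} (hw : w ∈ Complex.slitPlane) {r : ℝ} (hr : 0 ≤ r) : w + (r : ℂ) ∈ Complex.slitPlane := by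
  rw [Complex.mem_slitPlane_iff] at hw ⊢
  rcases hw with hw | hw
  · left
    simp only [Complex.add_re, Complex.ofReal_re]
    linarith
  · right
    simpa using hw

private theorem EMv_ext_mem (k C : ℕ) (hC : 0 < C) {u : Fin C → ℂ} (hu : u ∈ XX C) : EMv_ext k C hC u ∈ XX k := by
  intro i j hij
  have hij' : (i : ℕ) < (j : ℕ) := hij
  unfold EMv_ext
  by_cases hj : (j : ℕ) < C
  · have hi : (i : ℕ) < C := by omega
    rw [dif_pos hj, dif_pos hi]
    exact hu _ _ hij
  · rw [dif_neg hj]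
    by_cases hi : (i : ℕ) < C
    · rw [dif_pos hi]
      by_cases hi2 : (i : ℕ) = C - 1
      · have e1 : (⟨(i : ℕ), hi⟩ : Fin C) = ⟨C - 1, by omega⟩ := Fin.ext hi2
        rw [e1, add_sub_cancel_left, Complex.mem_slitPlane_iff]
        left
        rw [Complex.ofReal_re]
        positivity
      · rw [show u ⟨C - 1, by omega⟩ + ((((j : ℕ) - C + 1 : ℕ) : ℝ) : ℂ) - u ⟨i, hi⟩ =
          (u ⟨C - 1, by omega⟩ - u ⟨i, hi⟩) + ((((j : ℕ) - C + 1 : ℕ) : ℝ) : ℂ) by ring]
        refine EMv_slit (hu _ _ ?_) (by positivity)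
        rw [Fin.lt_def]
        simp only
        omega
    · rw [dif_neg hi, add_sub_add_left_eq_sub, Complex.mem_slitPlane_iff]
      left
      rw [← Complex.ofReal_sub, Complex.ofReal_re, sub_pos, Nat.cast_lt]
      omega

private theorem EMv_ext_an (k C : ℕ) (hC : 0 < C) (u₀ : Fin C → ℂ) : AnalyticAt ℂ (EMv_ext k C hC) u₀ := by
  refine analyticAt_pi_iff.2 fun i => ?_
  unfold EMv_ext
  by_cases h : (i : ℕ) < C
  · simp only [dif_pos h]
    exact EMv_coord u₀ _
  · simp only [dif_neg h]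
    exact (EMv_coord u₀ _).fun_add analyticAt_const

theorem Cx.rep0 (h : Cx k n f ρ θ z) (hC : 0 < C) (c : ℕ) (hCk : C + 0 ≤ k) {P : Tr n}
    (hF : ∀ b b' : ℤ, ∀ x ∈ XX k, ∀ x' ∈ XX k, (∀ i : Fin k, (i : ℕ) < C → x i = x' i) →
      VV (ρ b x) P = VV (ρ b' x') P) :
    ∃ G : (Fin C → ℂ) → ℂ, AnalyticOnNhd ℂ G (XX C) ∧ Rep ρ P G (iw k C c 0 hCk) := by
  refine ⟨fun u => VV (ρ 0 (EMv_ext k C hC u)) P, fun u₀ hu₀ => ?_, fun b x hx => ?_⟩
  · exact AnalyticAt.comp_of_eq (g := fun x => VV (ρ 0 x) P) (h.VV_anM 0 P _ (EMv_ext_mem k C hC hu₀))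
      (EMv_ext_an k C hC u₀) rfl
  · refine hF b 0 x hx _ (EMv_ext_mem k C hC (EMv_sub (EMv_iw_mono k C c 0 hCk) hx)) fun i hi => ?_
    unfold EMv_ext
    rw [dif_pos hi]
    congr 1
    unfold iw
    apply Fin.ext
    split_ifs <;> simp

theorem Cx.mv (h : Cx k n f ρ θ z) {q : Tr n} {G : (Fin C → ℂ) → ℂ} {ι : Fin C → Fin k} (hι : StrictMono ι)
    (hG : AnalyticOnNhd ℂ G (XX C)) (hR : Rep ρ q G ι) {i : ℕ} (hi : i + 1 < k) {l : Fin C} (hl : (ι l : ℕ) = i)
    (hn : ∀ l', (ι l' : ℕ) ≠ i + 1) :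
    Rep ρ (ta (θ i) q) G (fun l' => (sw i : Equiv.Perm (Fin k)) (ι l')) ∧
      StrictMono (fun l' => (sw i : Equiv.Perm (Fin k)) (ι l')) := by
  have hmono : StrictMono (fun l' => (sw i : Equiv.Perm (Fin k)) (ι l')) := by
    intro a b hab
    have h1 : (ι a : ℕ) < (ι b : ℕ) := hι hab
    have h2 := hn a
    have h3 := hn b
    show (sw i : Equiv.Perm (Fin k)) (ι a) < (sw i : Equiv.Perm (Fin k)) (ι b)
    rw [Fin.lt_def, EMv_sw hi, EMv_sw hi]
    split_ifs <;> omega
  refine ⟨fun b' x' hx' => ?_, hmono⟩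
  -- the open set
  have hcont : Continuous fun x : Fin k → ℂ => (fun l => x ((sw i : Equiv.Perm (Fin k)) l) : Fin k → ℂ) :=
    continuous_pi fun l => continuous_apply _
  set O : Set (Fin k → ℂ) := {x | (fun l => x ((sw i : Equiv.Perm (Fin k)) l)) ∈ WW (sw i : Equiv.Perm (Fin k))} with hO
  have hOo : IsOpen O := (WW_open _).preimage hcont
  have hback : ∀ x : Fin k → ℂ, (fun l => (fun l' => x ((sw i : Equiv.Perm (Fin k)) l')) ((sw i : Equiv.Perm (Fin k)) l)) = x := by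
    intro x
    funext l
    simp only [EMv_sw_sw]
  have hne : (O ∩ XX k).Nonempty := by
    obtain ⟨x, hx⟩ := WW_nonempty (sw i : Equiv.Perm (Fin k))
    refine ⟨fun l => x ((sw i : Equiv.Perm (Fin k)) l), ?_, WW_comp _ hx⟩
    show (fun l => (fun l' => x ((sw i : Equiv.Perm (Fin k)) l')) ((sw i : Equiv.Perm (Fin k)) l)) ∈ WW (sw i : Equiv.Perm (Fin k))
    rw [hback]
    exact hx
  have hFan : AnalyticOnNhd ℂ (fun x => VV (ρ b' x) (ta (θ i) q) - G (fun l' => x ((sw i : Equiv.Perm (Fin k)) (ι l')))) (XX k) := by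
    intro x₀ hx₀
    refine (h.VV_anM b' _ x₀ hx₀).fun_sub ?_
    refine AnalyticAt.comp_of_eq (g := G) (f := fun x : Fin k → ℂ => (fun l' => x ((sw i : Equiv.Perm (Fin k)) (ι l')))) (hG _ (EMv_sub hmono hx₀)) ?_ rfl
    exact analyticAt_pi_iff.2 fun l' => EMv_coord x₀ _
  have hzero : ∀ x ∈ O ∩ XX k, VV (ρ b' x) (ta (θ i) q) - G (fun l' => x ((sw i : Equiv.Perm (Fin k)) (ι l'))) = 0 := by
    rintro x ⟨hxO, -⟩
    have h1 := fun α => h.tr i hi (b' - 1) _ hxO α
    have h2 : ∀ α, ρ b' x (θ i α) = ρ (b' - 1) (fun l => x ((sw i : Equiv.Perm (Fin k)) l)) α := by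
      intro α
      have h3 := h1 α
      rw [sub_add_cancel] at h3
      rw [← h3, hback]
    have h4 := hR (b' - 1) _ (WW_sub _ hxO)
    rw [VV_ta]
    have h5 : (fun α => ρ b' x (θ i α)) = ρ (b' - 1) (fun l => x ((sw i : Equiv.Perm (Fin k)) l)) := funext h2
    rw [h5, h4, sub_self]
  exact sub_eq_zero.1 (open_id hFan hOo hne hzero x' hx')

/-- The embedding between `iw k C c s` and `iw k C c (s + 1)`. -/
private def EMv_im (k C c s t : ℕ) (h : C + (s + 1) ≤ k) : Fin C → Fin k := fun l =>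
  if _ : (l : ℕ) + c < C then ⟨l, by omega⟩ else if _ : (l : ℕ) + c < C + t then ⟨(l : ℕ) + s, by omega⟩ else
    ⟨(l : ℕ) + (s + 1), by omega⟩

private theorem EMv_im_mono (k C c s t : ℕ) (h : C + (s + 1) ≤ k) : StrictMono (EMv_im k C c s t h) := by
  intro a b hab
  have hab' : (a : ℕ) < (b : ℕ) := hab
  rw [Fin.lt_def]
  unfold EMv_im
  split_ifs <;> simp only <;> omega

theorem Cx.mv_sh (h : Cx k n f ρ θ z) {q : Tr n} {G : (Fin C → ℂ) → ℂ} {c s : ℕ} (hc : c ≤ C)
    (hG : AnalyticOnNhd ℂ G (XX C)) (hs : C + s ≤ k) (hs' : C + (s + 1) ≤ k) (hR : Rep ρ q G (iw k C c s hs)) :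
    Rep ρ (ta (Exp.Sh θ (C - c + s) c) q) G (iw k C c (s + 1) hs') := by
  have key : ∀ t, t ≤ c → ∀ q : Tr n, Rep ρ q G (EMv_im k C c s t hs') →
      Rep ρ (ta (Exp.Sh θ (C - c + s) t) q) G (EMv_im k C c s 0 hs') := by
    intro t
    induction t with
    | zero => exact fun _ q hq => hq
    | succ t ih =>
      intro ht q hq
      show Rep ρ (ta (Exp.Sh θ (C - c + s) t) (ta (θ (C - c + s + t)) q)) G (EMv_im k C c s 0 hs')
      refine ih (by omega) _ ?_
      have h1 := (h.mv (EMv_im_mono k C c s (t + 1) hs') hG hq (i := C - c + s + t) (by omega)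
        (l := ⟨C - c + t, by omega⟩) (by
          unfold EMv_im
          simp only
          rw [dif_neg (by omega), dif_pos (by omega)]
          simp only
          omega) (by
          intro l'
          unfold EMv_im
          split_ifs <;> simp only <;> omega)).1
      have h2 : (fun l' => (sw (C - c + s + t) : Equiv.Perm (Fin k)) (EMv_im k C c s (t + 1) hs' l')) =
          EMv_im k C c s t hs' := by
        funext l'
        apply Fin.ext
        rw [EMv_sw (by omega)]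
        have hl' := l'.2
        unfold EMv_im
        by_cases e1 : (l' : ℕ) + c < C
        · rw [dif_pos e1, dif_pos e1]
          simp only
          rw [if_neg (by omega), if_neg (by omega)]
        · rw [dif_neg e1, dif_neg e1]
          by_cases e2 : (l' : ℕ) + c < C + t
          · rw [dif_pos (by omega), dif_pos e2]
            simp only
            rw [if_neg (by omega), if_neg (by omega)]
          · rw [dif_neg e2]
            by_cases e3 : (l' : ℕ) + c < C + (t + 1)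
            · rw [dif_pos e3]
              simp only
              rw [if_pos (by omega)]
              omega
            · rw [dif_neg e3]
              simp only
              rw [if_neg (by omega), if_neg (by omega)]
      rw [h2] at h1
      exact h1
  have e1 : EMv_im k C c s c hs' = iw k C c s hs := by
    funext l
    have hl := l.2
    unfold EMv_im iw
    by_cases e1 : (l : ℕ) + c < C
    · rw [dif_pos e1, dif_pos e1]
    · rw [dif_neg e1, dif_neg e1, dif_pos (by omega)]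
  have e2 : EMv_im k C c s 0 hs' = iw k C c (s + 1) hs' := by
    funext l
    have hl := l.2
    unfold EMv_im iw
    by_cases e1 : (l : ℕ) + c < C
    · rw [dif_pos e1, dif_pos e1]
    · rw [dif_neg e1, dif_neg e1, dif_neg (by omega)]
  have h1 := key c le_rfl q (by rw [e1]; exact hR)
  rwa [e2] at h1

theorem Cx.rep_win (h : Cx k n f ρ θ z) {c : ℕ} (hk : 4 * c + 4 ≤ k) {α : Fin n} (hα : α ∈ Om k θ c) {q : Tr n}
    (hq : q.1 = (α, Exp.Wn θ c (2 * c + 2) α, Exp.Wn θ c (c + 1) α)) {G : (Fin (3 * c + 2) → ℂ) → ℂ}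
    (hG : AnalyticOnNhd ℂ G (XX (3 * c + 2))) (h0 : 3 * c + 2 + 0 ≤ k) (h1 : 3 * c + 2 + (c + 1) ≤ k)
    (hR : Rep ρ q G (iw k (3 * c + 2) c 0 h0)) :
    ∃ q'' : Tr n, q''.1 = (α, Exp.Wn θ c (3 * c + 3) α, Exp.Wn θ c (c + 1) α) ∧
      Rep ρ q'' G (iw k (3 * c + 2) c (c + 1) h1) := by
  have hbr : Grp.Br (k - 1) θ := ⟨fun i j hij hj => h.bra.far i j hij (by omega), fun i hi => h.bra.br i (by omega)⟩
  have key : ∀ s (hs : s ≤ c + 1), ∃ q'' : Tr n, q''.1 = (α, Exp.Wn θ c (2 * c + 2 + s) α, Exp.Wn θ c (c + 1) α) ∧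
      Rep ρ q'' G (iw k (3 * c + 2) c s (by omega)) := by
    intro s
    induction s with
    | zero => exact fun _ => ⟨q, hq, hR⟩
    | succ s ih =>
      intro hs
      obtain ⟨q', hq', hR'⟩ := ih (by omega)
      refine ⟨ta (Exp.Sh θ (2 * c + 2 + s) c) q', ?_, ?_⟩
      · show (Exp.Sh θ (2 * c + 2 + s) c q'.1.1, Exp.Sh θ (2 * c + 2 + s) c q'.1.2.1, Exp.Sh θ (2 * c + 2 + s) c q'.1.2.2) = _
        have f1 : Exp.Sh θ (2 * c + 2 + s) c α = α :=
          Exp.sh_fix (k := k) (w := c) hα c (2 * c + 2 + s) (by omega) (by omega)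
        have f2 : Exp.Sh θ (2 * c + 2 + s) c (Exp.Wn θ c (c + 1) α) = Exp.Wn θ c (c + 1) α :=
          Exp.sh_fix (k := k) (w := 2 * c + 1) (fun i hi hik => Exp.w1_hi hbr hα (by omega) hik) c (2 * c + 2 + s)
            (by omega) (by omega)
        rw [hq']
        simp only
        rw [f1, f2]
        rfl
      · have h2 := h.mv_sh (C := 3 * c + 2) (c := c) (s := s) (by omega) hG (by omega) (by omega) hR'
        rwa [show 3 * c + 2 - c + s = 2 * c + 2 + s by omega] at h2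
  obtain ⟨q'', h2, h3⟩ := key (c + 1) le_rfl
  refine ⟨q'', ?_, h3⟩
  rw [h2, show 2 * c + 2 + (c + 1) = 3 * c + 3 by omega]

end Pool.Agent.LR
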