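import Pool.Agent.LR.EColl
import Pool.Agent.LR.EFB
import Pool.Agent.LR.EAlt
import Pool.Agent.LR.EGc

/-!
# LR EOne: only windows of one strand

`D_swap`: `VV (ρ (b+1) (x ∘ sw i)) (ta (θ i) q) = VV (ρ b x) q` for `x ∈ WW (sw i)` (`tr`), so with the linear map `s x = x ∘ sw i`: `VV (ρ (b+1) (s x)) (ta (θ i) q) = VV (ρ b x) q` on the open set `WW (sw i)`; the derivative in direction `Pi.single i 1` of the right side is `0`, and
`s (Pi.single i 1) = Pi.single (i+1) 1`: `fderiv (VV (ρ (b+1) ·) (ta (θ i) q)) (s x) (Pi.single (i+1) 1) = 0` for `x ∈ WW (sw i)`, an open nonempty set of points `s x`; `open_id` for the analytic function `x ↦ fderiv .. x (Pi.single (i+1) 1)` (`VV_anM`, `AnalyticOnNhd.fderiv`).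

`fix_of_D`: `fbl` (with `C' = C - 1` and the index `C`; `ta (θ C) q = q`) : `VV (ρ b x) q` does not depend on the level and on the coordinates `≥ C - 1`.  For `x ∈ WW (sw (C-1))` (`WW_nonempty`): `x ∘ sw (C-1) ∈ XX k` and `x` have the same coordinates `< C - 1`, so
`VV (ρ (b+1) (x ∘ sw (C-1))) (ta (θ (C-1)) q) = VV (ρ b x) q = VV (ρ (b+1) (x ∘ sw (C-1))) q`.  With `r = ρ (b+1) (x ∘ sw (C-1))` injective and `θ (C-1)` fixing the first and the third index: `r (θ (C-1) q_2) = r q_2`.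

`c_one`: `e = c + 1`, `C = 3 c + 2`, `α₀ = α`, `α₁ = Wn θ c (c+1) α`, `α₂ = Wn θ c (2c+2) α` (`EGc.lean`; braid relations from `h.bra`).  All are in `Om k θ C` (`w1_hi`), pairwise different (`w5`: otherwise all `θ i` fix `α`).  `TT θ C = θ (C-1) ^ 2` fixes `α₀`, `α₁` (`θ (C-1)` does, `w1_hi`:
`C - 1 = 3 c + 1 ≥ 2 c + 1`).  So (`T_one`) `TT θ C = 1` on `Om k θ C`; for `α₂`: `θ (2c+2+c-1)^2` fixes `Wn θ c (2c+2) α`, so by `w3` `Wn θ c (2c+2) (θ (c-1) (θ (c-1) α)) = Wn θ c (2c+2) α`: the first claim.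
`tau θ C j = 1` on `Om` (`tau_one`), so `ta (tau θ C j) P = P` for `P ∈ TC`; `Lv2 ρ P` for `P ∈ TC` (`fa`).  So `fb`, `fbl` hold for all `P ∈ TC`.
Let `2 ≤ c`.  `q = (α₀, α₂, α₁) ∈ TC`; `rep0` (from `fbl` with `C' = C`), `rep_win`: `q'' = (α₀, Wn θ c (3c+3) α, α₁)` with the same `G`; `α₂ ≠ Wn θ c (3c+3) α` by `w5`.  `coll` with `l = c - 1`, `m = c - 2`.
Case 1: the derivative of `G` in direction `2c+2+(c-1) = C - 1` is `0`: `Rep_fderiv`: the derivative of `VV (ρ b ·) q` in direction `C - 1` is `0`, in the directions `≥ C` by `fb`; `fix_of_D`: `θ (C-1) α₂ = α₂`, `w4`: `θ (c-1) α = α`.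
Case 2: direction `C - 2`: `D_swap` with `i = C - 2`: for `q' = ta (θ (C-2)) q = (α₀, θ (C-2) α₂, α₁) ∈ TC` (`θ (C-2)` fixes `α₀`, `α₁`; `Om_low`) the derivative in direction `C - 1` is `0`; `fix_of_D`: `θ (C-1) (θ (C-2) α₂) = θ (C-2) α₂`; `w2`: `θ (C-2) α₂ = Wn θ c (2c+2) (θ (c-2) α)`, and `w4` for
`θ (c-2) α ∈ Om k θ c` (`om_pres`): `θ (c-1) (θ (c-2) α) = θ (c-2) α`.
-/

set_option autoImplicit false

open Topology Filter

noncomputable section

namespace Pool.Agent.LR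

open Pool.Agent.H60.OC (Pr NN nm zc SG MF IsRoots vd poly HoloOn)

variable {k n : ℕ} {f : (Fin k → ℂ) → (Fin n → ℂ)} {ρ : ℤ → (Fin k → ℂ) → (Fin n → ℂ)}
  {θ : ℕ → Equiv.Perm (Fin n)} {z : Equiv.Perm (Fin n)} {C : ℕ}

/-- The coordinates permuted by `sw i`, as a linear map. -/
private def EOne_s (k i : ℕ) : (Fin k → ℂ) →L[ℂ] (Fin k → ℂ) :=
  ContinuousLinearMap.pi fun l => ContinuousLinearMap.proj ((sw i : Equiv.Perm (Fin k)) l)

private theorem EOne_s_apply (i : ℕ) (x : Fin k → ℂ) :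
    EOne_s k i x = fun l => x ((sw i : Equiv.Perm (Fin k)) l) := rfl

private theorem EOne_ss (i : ℕ) (x : Fin k → ℂ) : EOne_s k i (EOne_s k i x) = x := by
  funext l
  show x ((sw i : Equiv.Perm (Fin k)) ((sw i : Equiv.Perm (Fin k)) l)) = x l
  congr 1
  rw [sw]
  by_cases hi : i + 1 < k
  · rw [dif_pos hi, Equiv.swap_apply_self]
  · rw [dif_neg hi]
    rfl

private theorem EOne_s_single {i : ℕ} (hi : i + 1 < k) :
    EOne_s k i (Pi.single ⟨i + 1, hi⟩ 1) = Pi.single ⟨i, by omega⟩ 1 := by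
  funext l
  show (Pi.single ⟨i + 1, hi⟩ 1 : Fin k → ℂ) ((sw i : Equiv.Perm (Fin k)) l) = (Pi.single ⟨i, by omega⟩ 1 : Fin k → ℂ) l
  rw [Pi.single_apply, Pi.single_apply, sw, dif_pos hi]
  congr 1
  rw [eq_iff_iff, Equiv.swap_apply_eq_iff, Equiv.swap_apply_right]

theorem Cx.D_swap (h : Cx k n f ρ θ z) {q : Tr n} {i : ℕ} (hi : i + 1 < k)
    (hD : ∀ b : ℤ, ∀ x ∈ XX k, fderiv ℂ (fun x => VV (ρ b x) q) x (Pi.single ⟨i, by omega⟩ 1) = 0) (b : ℤ)
    {x : Fin k → ℂ} (hx : x ∈ XX k) :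
    fderiv ℂ (fun x => VV (ρ b x) (ta (θ i) q)) x (Pi.single ⟨i + 1, hi⟩ 1) = 0 := by
  have hG : AnalyticOnNhd ℂ (fun x => fderiv ℂ (fun x => VV (ρ b x) (ta (θ i) q)) x (Pi.single ⟨i + 1, hi⟩ 1)) (XX k) := by
    have h1 := (h.VV_anM b (ta (θ i) q)).fderiv
    intro x hx
    exact ((ContinuousLinearMap.apply ℂ ℂ (Pi.single ⟨i + 1, hi⟩ (1 : ℂ) : Fin k → ℂ)).analyticAt _).comp (h1 x hx)
  have hO : IsOpen {y : Fin k → ℂ | EOne_s k i y ∈ WW (sw i : Equiv.Perm (Fin k))} :=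
    (WW_open (sw i : Equiv.Perm (Fin k))).preimage (EOne_s k i).continuous
  refine open_id hG hO ?_ ?_ x hx
  · obtain ⟨w, hw⟩ := WW_nonempty (sw i : Equiv.Perm (Fin k))
    refine ⟨EOne_s k i w, ?_, WW_comp (sw i) hw⟩
    show EOne_s k i (EOne_s k i w) ∈ WW (sw i : Equiv.Perm (Fin k))
    rw [EOne_ss]
    exact hw
  · rintro y ⟨hy, -⟩
    have hev : (fun x => VV (ρ b x) (ta (θ i) q)) =ᶠ[𝓝 y] fun x => VV (ρ (b - 1) (EOne_s k i x)) q := by
      filter_upwards [hO.mem_nhds hy] with w hw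
      have h1 : ρ b w = ρ (b - 1 + 1) (fun l => (EOne_s k i w) ((sw i : Equiv.Perm (Fin k)) l)) := by
        rw [← EOne_s_apply, EOne_ss, sub_add_cancel]
      rw [h1, VV_ta]
      congr 1
      funext α
      exact h.tr i hi (b - 1) _ hw α
    show fderiv ℂ (fun x => VV (ρ b x) (ta (θ i) q)) y (Pi.single ⟨i + 1, hi⟩ 1) = 0
    rw [hev.fderiv_eq]
    have hX : EOne_s k i y ∈ XX k := WW_sub _ hy
    have h2 : HasFDerivAt (fun x => VV (ρ (b - 1) x) q) (fderiv ℂ (fun x => VV (ρ (b - 1) x) q) (EOne_s k i y))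
        (EOne_s k i y) := ((h.VV_anM (b - 1) q) _ hX).differentiableAt.hasFDerivAt
    have h3 := (h2.comp y (EOne_s k i).hasFDerivAt).fderiv
    have h4 : fderiv ℂ (fun x => VV (ρ (b - 1) (EOne_s k i x)) q) y =
        (fderiv ℂ (fun x => VV (ρ (b - 1) x) q) (EOne_s k i y)).comp (EOne_s k i) := h3
    rw [h4, ContinuousLinearMap.comp_apply, EOne_s_single hi]
    exact hD (b - 1) _ hX

theorem Cx.fix_of_D (h : Cx k n f ρ θ z) (hC : 1 ≤ C) (hCk : C + 1 < k) {q : Tr n} (hq : ta (θ C) q = q)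
    (hD : ∀ b : ℤ, ∀ j : Fin k, C - 1 ≤ (j : ℕ) → ∀ x ∈ XX k, fderiv ℂ (fun x => VV (ρ b x) q) x (Pi.single j 1) = 0)
    (h0 : θ (C - 1) q.1.1 = q.1.1) (h2 : θ (C - 1) q.1.2.2 = q.1.2.2) : θ (C - 1) q.1.2.1 = q.1.2.1 := by
  have hik : C - 1 + 1 < k := by omega
  obtain ⟨w, hw⟩ := WW_nonempty (sw (C - 1) : Equiv.Perm (Fin k))
  have hX := WW_comp (sw (C - 1)) hw
  have h3 : VV (ρ (0 + 1) (fun l => w ((sw (C - 1) : Equiv.Perm (Fin k)) l))) (ta (θ (C - 1)) q) = VV (ρ 0 w) q := by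
    rw [VV_ta]
    congr 1
    funext α
    exact h.tr (C - 1) hik 0 w hw α
  have h4 : VV (ρ 0 w) q = VV (ρ (0 + 1) (fun l => w ((sw (C - 1) : Equiv.Perm (Fin k)) l))) q := by
    refine h.fbl (C' := C - 1) (i := C) (by omega) hCk hq hD (WW_sub _ hw) hX ?_ 0 (0 + 1)
    intro l hl
    have h5 : (sw (C - 1) : Equiv.Perm (Fin k)) l = l := by
      rw [sw, dif_pos hik]
      refine Equiv.swap_apply_of_ne_of_ne ?_ ?_
      · intro h6
        have := congrArg Fin.val h6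
        simp only at this
        omega
      · intro h6
        have := congrArg Fin.val h6
        simp only at this
        omega
    rw [h5]
  have hr := h.inj (0 + 1) hX
  rw [h4] at h3
  have h5 : (ρ (0 + 1) (fun l => w ((sw (C - 1) : Equiv.Perm (Fin k)) l)) (θ (C - 1) q.1.1) -
      ρ (0 + 1) (fun l => w ((sw (C - 1) : Equiv.Perm (Fin k)) l)) (θ (C - 1) q.1.2.1)) /
      (ρ (0 + 1) (fun l => w ((sw (C - 1) : Equiv.Perm (Fin k)) l)) (θ (C - 1) q.1.1) -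
      ρ (0 + 1) (fun l => w ((sw (C - 1) : Equiv.Perm (Fin k)) l)) (θ (C - 1) q.1.2.2)) =
      (ρ (0 + 1) (fun l => w ((sw (C - 1) : Equiv.Perm (Fin k)) l)) q.1.1 -
      ρ (0 + 1) (fun l => w ((sw (C - 1) : Equiv.Perm (Fin k)) l)) q.1.2.1) /
      (ρ (0 + 1) (fun l => w ((sw (C - 1) : Equiv.Perm (Fin k)) l)) q.1.1 -
      ρ (0 + 1) (fun l => w ((sw (C - 1) : Equiv.Perm (Fin k)) l)) q.1.2.2) := h3
  rw [h0, h2] at h5
  have hne := sub_ne_zero.2 (hr.ne q.2.2.1)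
  rw [div_left_inj' hne] at h5
  exact hr (sub_right_injective h5)

private theorem EOne_iw (hk : C + 0 ≤ k) (c : ℕ) (l : Fin C) : ((iw k C c 0 hk l : Fin k) : ℕ) = l := by
  unfold iw
  split_ifs with h1
  · rfl
  · rfl

private theorem EOne_iw_mono (hk : C + 0 ≤ k) (c : ℕ) : StrictMono (iw k C c 0 hk) := by
  intro a b hab
  rw [Fin.lt_def, EOne_iw, EOne_iw]
  exact hab

private theorem EOne_ta {P : Tr n} {g : Equiv.Perm (Fin n)} (h1 : g P.1.1 = P.1.1) (h2 : g P.1.2.1 = P.1.2.1)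
    (h3 : g P.1.2.2 = P.1.2.2) : ta g P = P := by
  apply Subtype.ext
  show (g P.1.1, g P.1.2.1, g P.1.2.2) = P.1
  rw [h1, h2, h3]

theorem Cx.c_one (h : Cx k n f ρ θ z) {c : ℕ} (hc : 1 ≤ c) (hk : 4 * c + 12 ≤ k) {α : Fin n} (hα : α ∈ Om k θ c)
    (hnt : ¬ ∀ i, i + 1 < k → θ i α = α)
    (hT1 : ∀ x ∈ Om k θ c, θ c (θ (c - 1) (θ (c - 1) x)) = θ (c - 1) (θ (c - 1) x))
    (hT2 : ∀ x ∈ Om k θ (3 * c + 2), θ (3 * c + 2) (θ (3 * c + 1) (θ (3 * c + 1) x)) = θ (3 * c + 1) (θ (3 * c + 1) x)) :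
    θ (c - 1) (θ (c - 1) α) = α ∧ (2 ≤ c → θ (c - 1) α = α ∨ θ (c - 1) (θ (c - 2) α) = θ (c - 2) α) := by
  have hb := h.bra
  have hB : Grp.Br (k - 1) θ := ⟨fun i j hij hj => hb.far i j hij (by omega), fun i hi => hb.br i (by omega)⟩
  have hC1 : 3 * c + 2 - 1 = 3 * c + 1 := by omega
  have hT2' : ∀ x ∈ Om k θ (3 * c + 2), θ (3 * c + 2) (θ (3 * c + 2 - 1) (θ (3 * c + 2 - 1) x)) =
      θ (3 * c + 2 - 1) (θ (3 * c + 2 - 1) x) := by
    rw [hC1]
    exact hT2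
  -- the three points
  have hf0 : ∀ i, c ≤ i → i + 1 < k → θ i α = α := hα
  have hf1 : ∀ i, 2 * c + 1 ≤ i → i + 1 < k → θ i (Exp.Wn θ c (c + 1) α) = Exp.Wn θ c (c + 1) α :=
    fun i hi hik => Exp.w1_hi hB hα (by omega) hik
  have hf2 : ∀ i, 3 * c + 2 ≤ i → i + 1 < k → θ i (Exp.Wn θ c (2 * c + 2) α) = Exp.Wn θ c (2 * c + 2) α :=
    fun i hi hik => Exp.w1_hi hB hα (by omega) hik
  have hO0 : α ∈ Om k θ (3 * c + 2) := fun i hi hik => hf0 i (by omega) hik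
  have hO1 : Exp.Wn θ c (c + 1) α ∈ Om k θ (3 * c + 2) := fun i hi hik => hf1 i (by omega) hik
  have hO2 : Exp.Wn θ c (2 * c + 2) α ∈ Om k θ (3 * c + 2) := hf2
  have hW0 : Exp.Wn θ c 0 α = α := rfl
  have hn01 : α ≠ Exp.Wn θ c (c + 1) α := fun he =>
    hnt (Exp.w5 hB hα (w := 0) (w' := c + 1) (by omega) (by omega) (hW0.trans he))
  have hn02 : α ≠ Exp.Wn θ c (2 * c + 2) α := fun he =>
    hnt (Exp.w5 hB hα (w := 0) (w' := 2 * c + 2) (by omega) (by omega) (hW0.trans he))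
  have hn12 : Exp.Wn θ c (c + 1) α ≠ Exp.Wn θ c (2 * c + 2) α := fun he =>
    hnt (Exp.w5 hB hα (w := c + 1) (w' := 2 * c + 2) (by omega) (by omega) he)
  have hn23 : Exp.Wn θ c (2 * c + 2) α ≠ Exp.Wn θ c (3 * c + 3) α := fun he =>
    hnt (Exp.w5 hB hα (w := 2 * c + 2) (w' := 3 * c + 3) (by omega) (by omega) he)
  have hTT : ∀ x ∈ Om k θ (3 * c + 2), TT θ (3 * c + 2) x = x := by
    intro x hx
    refine h.T_one (by omega) (by omega) hT2' hO0 hO1 hn01 ?_ ?_ hx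
    · show θ (3 * c + 2 - 1) (θ (3 * c + 2 - 1) α) = α
      rw [hC1, hf0 _ (by omega) (by omega), hf0 _ (by omega) (by omega)]
    · show θ (3 * c + 2 - 1) (θ (3 * c + 2 - 1) (Exp.Wn θ c (c + 1) α)) = Exp.Wn θ c (c + 1) α
      rw [hC1, hf1 _ (by omega) (by omega), hf1 _ (by omega) (by omega)]
  refine ⟨?_, fun hc2 => ?_⟩
  · have h1 := Exp.w3 hB hc (fun x hx => Om_T hb hc hT1 hx) (2 * c + 2) (by omega) α hα
    have h2 := hTT _ hO2
    have h3 : θ (3 * c + 2 - 1) (θ (3 * c + 2 - 1) (Exp.Wn θ c (2 * c + 2) α)) = Exp.Wn θ c (2 * c + 2) α := h2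
    rw [show 2 * c + 2 + c - 1 = 3 * c + 2 - 1 by omega, h3] at h1
    exact ((Exp.Wn θ c (2 * c + 2)).injective h1).symm
  · have hlv : ∀ P ∈ TC k θ (3 * c + 2), Lv2 ρ P := fun P hP b x hx => (h.fa (by omega) (by omega) hT2' hP b hx).1
    have htau : ∀ P ∈ TC k θ (3 * c + 2), ∀ j, j < 3 * c + 2 → ta (tau θ (3 * c + 2) j) P = P := by
      intro P hP j hj
      exact EOne_ta (tau_one hb (by omega) hTT hj hP.1) (tau_one hb (by omega) hTT hj hP.2.1)
        (tau_one hb (by omega) hTT hj hP.2.2)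
    have hfb : ∀ P ∈ TC k θ (3 * c + 2), ∀ b : ℤ, ∀ j : Fin k, 3 * c + 2 ≤ (j : ℕ) → ∀ x ∈ XX k,
        fderiv ℂ (fun x => VV (ρ b x) P) x (Pi.single j 1) = 0 :=
      fun P hP b j hj x hx => h.fb (by omega) hlv htau hP b hj hx
    have hfix : ∀ P ∈ TC k θ (3 * c + 2), ta (θ (3 * c + 2)) P = P := fun P hP =>
      EOne_ta (hP.1 _ le_rfl (by omega)) (hP.2.1 _ le_rfl (by omega)) (hP.2.2 _ le_rfl (by omega))
    have hq : (⟨(α, Exp.Wn θ c (2 * c + 2) α, Exp.Wn θ c (c + 1) α), hn02, hn01, hn12.symm⟩ : Tr n) ∈ TC k θ (3 * c + 2) :=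
      ⟨hO0, hO2, hO1⟩
    set q : Tr n := ⟨(α, Exp.Wn θ c (2 * c + 2) α, Exp.Wn θ c (c + 1) α), hn02, hn01, hn12.symm⟩ with hqdef
    obtain ⟨G, hG, hR⟩ := h.rep0 (C := 3 * c + 2) (by omega) c (by omega) (P := q)
      (fun b b' x hx x' hx' he => h.fbl le_rfl (by omega) (hfix q hq) (hfb q hq) hx hx' he b b')
    obtain ⟨q'', hq'', hR''⟩ := h.rep_win (by omega) hα (q := q) rfl hG (by omega) (by omega) hR
    have e1 : q.1.1 = q''.1.1 := by rw [hq'']
    have e3 : q.1.2.2 = q''.1.2.2 := by rw [hq'']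
    have e2 : q.1.2.1 ≠ q''.1.2.1 := by
      rw [hq'']
      exact hn23
    rcases h.coll (by omega) hG (by omega) (by omega) hR hR'' e1 e3 e2 (l := c - 1) (m := c - 2) (by omega) (by omega)
      (by omega) with hcase | hcase
    · left
      have hd : ∀ b : ℤ, ∀ j : Fin k, 3 * c + 2 - 1 ≤ (j : ℕ) → ∀ x ∈ XX k,
          fderiv ℂ (fun x => VV (ρ b x) q) x (Pi.single j 1) = 0 := by
        intro b j hj x hx
        rcases Nat.eq_or_lt_of_le hj with h1 | h1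
        · have h2 := Rep_fderiv (EOne_iw_mono _ c) hG hR hcase b hx
          have h3 : iw k (3 * c + 2) c 0 (by omega) ⟨2 * c + 2 + (c - 1), by omega⟩ = j := by
            apply Fin.ext
            rw [EOne_iw]
            show 2 * c + 2 + (c - 1) = j
            omega
          rw [h3] at h2
          exact h2
        · exact hfb q hq b j (by omega) x hx
      have h1 := h.fix_of_D (C := 3 * c + 2) (by omega) (by omega) (hfix q hq) hd
        (by rw [hC1]; exact hf0 _ (by omega) (by omega)) (by rw [hC1]; exact hf1 _ (by omega) (by omega))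
      refine Exp.w4 hB hc hα (2 * c + 2) (by omega) ?_
      rw [show 2 * c + 2 + c - 1 = 3 * c + 2 - 1 by omega]
      exact h1
    · right
      have hd0 : ∀ b : ℤ, ∀ x ∈ XX k, fderiv ℂ (fun x => VV (ρ b x) q) x (Pi.single ⟨3 * c, by omega⟩ 1) = 0 := by
        intro b x hx
        have h2 := Rep_fderiv (EOne_iw_mono _ c) hG hR hcase b hx
        have h3 : iw k (3 * c + 2) c 0 (by omega) ⟨2 * c + 2 + (c - 2), by omega⟩ = ⟨3 * c, by omega⟩ := by
          apply Fin.ext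
          rw [EOne_iw]
          show 2 * c + 2 + (c - 2) = 3 * c
          omega
        rw [h3] at h2
        exact h2
      have hd1 := fun (b : ℤ) (x : Fin k → ℂ) (hx : x ∈ XX k) => h.D_swap (q := q) (i := 3 * c) (by omega) hd0 b hx
      have hq' : ta (θ (3 * c)) q ∈ TC k θ (3 * c + 2) :=
        ⟨(Om_low hb le_rfl hO0).1, (Om_low hb le_rfl hO2).1, (Om_low hb le_rfl hO1).1⟩
      have hd : ∀ b : ℤ, ∀ j : Fin k, 3 * c + 2 - 1 ≤ (j : ℕ) → ∀ x ∈ XX k,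
          fderiv ℂ (fun x => VV (ρ b x) (ta (θ (3 * c)) q)) x (Pi.single j 1) = 0 := by
        intro b j hj x hx
        rcases Nat.eq_or_lt_of_le hj with h1 | h1
        · have h3 : (⟨3 * c + 1, by omega⟩ : Fin k) = j := by
            apply Fin.ext
            show 3 * c + 1 = j
            omega
          have h2 := hd1 b x hx
          rw [h3] at h2
          exact h2
        · exact hfb _ hq' b j (by omega) x hx
      have hk0 : θ (3 * c) α = α := hf0 _ (by omega) (by omega)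
      have hk1 : θ (3 * c) (Exp.Wn θ c (c + 1) α) = Exp.Wn θ c (c + 1) α := hf1 _ (by omega) (by omega)
      have h1 := h.fix_of_D (C := 3 * c + 2) (by omega) (by omega) (hfix _ hq') hd
        (by
          show θ (3 * c + 2 - 1) (θ (3 * c) α) = θ (3 * c) α
          rw [hC1, hk0]
          exact hf0 _ (by omega) (by omega))
        (by
          show θ (3 * c + 2 - 1) (θ (3 * c) (Exp.Wn θ c (c + 1) α)) = θ (3 * c) (Exp.Wn θ c (c + 1) α)
          rw [hC1, hk1]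
          exact hf1 _ (by omega) (by omega))
      have h2 : θ (3 * c + 2 - 1) (θ (3 * c) (Exp.Wn θ c (2 * c + 2) α)) = θ (3 * c) (Exp.Wn θ c (2 * c + 2) α) := h1
      rw [Exp.w2 hB (w := 2 * c + 2) (i := 3 * c) (by omega) (by omega) (by omega) α,
        show 3 * c - (2 * c + 2) = c - 2 by omega] at h2
      refine Exp.w4 hB hc (Exp.om_pres hB (by omega) hα) (2 * c + 2) (by omega) ?_
      rw [show 2 * c + 2 + c - 1 = 3 * c + 2 - 1 by omega]
      exact h2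

end Pool.Agent.LR
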