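import Pool.Agent.LR.ELine
import Pool.Agent.LR.QPA

/-!
# LR EPA: the puncture lemma for states

`u` runs over a punctured disc around `0`; two charts: `Ye` on the part of the `u` in the slit plane, `Yo` on the part with `- u` in the slit plane
(`Dm ε 0`, `Dm ε 1`), with values in `XX k`.  `W0` moves from the chart `Ye` to `Yo` through `Im u > 0`, `W1` from `Yo` to `Ye` through `Im u < 0`.  If
`(W1 * W0)^M` maps `s` to `PI^e' (sig ν s)` and `s'` to `PI^e' (sig ν s')` with the same `M > 0`, `e'`, `ν`, then the quotient of the `VV` of `s'` and `s` is bounded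
near `0`.

Proof: `punct_abs` (`QPA.lean`).  Put `s r = (W1 * W0)^(r / 2) s` for even `r`, `W0 ((W1 * W0)^(r / 2) s)` for odd `r` (`r : ℤ`, `r / 2` the floor), and `Y r = Ye` or `Yo`;
`v r u = VV (ρ (s r).2 (Y r u)) (s r).1.1`, `v' r u` the same for `s'`, `q r u = Lam L (s' r) (Y r u) - Lam L (s r) (Y r u)`, `d = 0`, `e = 0`.
`Dm ε r` depends only on the parity of `r`.  Glueing: `h0`, `h1` and `Lg.exp_Lam`.  Period: `s (r + 2 M) = PI^e' (sig ν (s r))` for even `r` by the hypothesis if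
`r = 0`; in general: `(W1 * W0)^M (Φ s) = Φ ((W1 * W0)^M s) = Φ (PI^e' (sig ν s)) = PI^e' (sig ν (Φ s))` for `Φ = (W1 * W0)^t` and `Φ = W0 * (W1 * W0)^t`, where for
`Φ = W0 (..)` use `s (r + 2M) = W0 ((W1 * W0)^M ((W1 * W0)^t s))`; `W0`, `W1` commute with `PI` and `sig ν` (hypotheses `hc0`, `hc1`).  And `Lam` at `PI^e' (sig ν s)` is
`Lam` at `s` plus `2 π i ν` (`Lg.pi` `e'` times, also for negative `e'`; `Lam_sig`), so the difference `q` is periodic.
-/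

set_option autoImplicit false

open Topology Filter

noncomputable section

namespace Pool.Agent.LR

open Pool.Agent.H60.OC (Pr NN nm zc SG MF IsRoots vd poly HoloOn)

variable {k n : ℕ} {f : (Fin k → ℂ) → (Fin n → ℂ)} {ρ : ℤ → (Fin k → ℂ) → (Fin n → ℂ)}
  {θ : ℕ → Equiv.Perm (Fin n)} {z : Equiv.Perm (Fin n)}
  {L : ℤ → Tr n → (Fin k → ℂ) → ℂ} {c : ℕ → ℤ → Tr n → ℤ} {m : ℤ → Tr n → ℤ}

open Classical in
/-- The state of the chart `r`. -/
private def EPA_st (W0 W1 : Equiv.Perm (St n)) (s : St n) (r : ℤ) : St n :=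
  if Even r then ((W1 * W0) ^ (r / 2)) s else W0 (((W1 * W0) ^ (r / 2)) s)

open Classical in
/-- The chart `r`. -/
private def EPA_Y (Ye Yo : ℂ → (Fin k → ℂ)) (r : ℤ) : ℂ → (Fin k → ℂ) := if Even r then Ye else Yo

private theorem EPA_pi (hL : Lg k n ρ θ z L c m) (s : St n) {x : Fin k → ℂ} (hx : x ∈ XX k) (e : ℤ) :
    Lam L ((PI k z m ^ e) s) x = Lam L s x := by
  induction e using Int.induction_on with
  | zero => simp
  | succ i ih =>
    rw [add_comm, zpow_add, zpow_one, Equiv.Perm.mul_apply, hL.pi _ hx, ih]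
  | pred i ih =>
    have h1 : PI k z m ((PI k z m ^ (-(i : ℤ) - 1)) s) = (PI k z m ^ (-(i : ℤ))) s := by
      rw [← Equiv.Perm.mul_apply, ← zpow_one_add]
      congr 2
      ring
    rw [← hL.pi _ hx, h1, ih]

private theorem EPA_Dm {ε : ℝ} {r : ℤ} {u : ℂ} (hu : u ∈ Dm ε r) :
    (Even r → u ∈ Dm ε 0) ∧ (¬ Even r → u ∈ Dm ε 1) := by
  obtain ⟨h1, h2, h3⟩ := hu
  constructor
  · intro h
    refine ⟨h1, h2, ?_⟩
    rw [h.neg_one_zpow] at h3
    simpa using h3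
  · intro h
    refine ⟨h1, h2, ?_⟩
    rw [(Int.not_even_iff_odd.1 h).neg_one_zpow] at h3
    simpa using h3

private theorem EPA_st_succ (W0 W1 : Equiv.Perm (St n)) (s : St n) (r : ℤ) :
    (Even r → EPA_st W0 W1 s (r + 1) = W0 (EPA_st W0 W1 s r)) ∧
      (¬ Even r → EPA_st W0 W1 s (r + 1) = W1 (EPA_st W0 W1 s r)) := by
  constructor
  · intro h
    have h1 : ¬ Even (r + 1) := by
      rw [Int.even_add_one]
      exact not_not.2 h
    have h2 : (r + 1) / 2 = r / 2 := by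
      obtain ⟨t, rfl⟩ := h
      omega
    simp only [EPA_st, if_pos h, if_neg h1, h2]
  · intro h
    have h1 : Even (r + 1) := by
      rw [Int.even_add_one]
      exact h
    have h2 : (r + 1) / 2 = 1 + r / 2 := by
      obtain ⟨t, rfl⟩ := Int.not_even_iff_odd.1 h
      omega
    simp only [EPA_st, if_neg h, if_pos h1, h2]
    rw [zpow_add, zpow_one, Equiv.Perm.mul_apply, Equiv.Perm.mul_apply]

private theorem EPA_st_per {W0 W1 : Equiv.Perm (St n)} {s : St n} {M : ℕ} {e' ν : ℤ}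
    (hc0 : Commute W0 (PI k z m)) (hc1 : Commute W1 (PI k z m)) (hs0 : ∀ ν, Commute W0 (sig ν)) (hs1 : ∀ ν, Commute W1 (sig ν))
    (hs : ((W1 * W0) ^ M) s = (PI k z m ^ e') (sig ν s)) (r : ℤ) :
    EPA_st W0 W1 s (r + 2 * M) = (PI k z m ^ e') (sig ν (EPA_st W0 W1 s r)) := by
  have hA : Commute W0 (PI k z m ^ e' * sig ν) := (hc0.zpow_right e').mul_right (hs0 ν)
  have hB : Commute ((W1 * W0) ^ (r / 2)) (PI k z m ^ e' * sig ν) :=
    ((((hc1.zpow_right e').mul_right (hs1 ν)).mul_left hA)).zpow_left (r / 2)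
  have h1 : (r + 2 * M) / 2 = r / 2 + M := by omega
  have h2 : ((W1 * W0) ^ ((r + 2 * M) / 2)) s = ((PI k z m ^ e' * sig ν : Equiv.Perm (St n))) (((W1 * W0) ^ (r / 2)) s) := by
    rw [h1, zpow_add, Equiv.Perm.mul_apply, zpow_natCast, hs, ← Equiv.Perm.mul_apply (PI k z m ^ e'),
      ← Equiv.Perm.mul_apply, hB.eq, Equiv.Perm.mul_apply]
  by_cases h : Even r
  · have h3 : Even (r + 2 * M) := h.add (even_two_mul _)
    simp only [EPA_st, if_pos h, if_pos h3]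
    rw [h2, Equiv.Perm.mul_apply]
  · have h3 : ¬ Even (r + 2 * M) := by
      rw [Int.even_add]
      simp [h]
    simp only [EPA_st, if_neg h, if_neg h3]
    rw [h2, ← Equiv.Perm.mul_apply W0, hA.eq, Equiv.Perm.mul_apply, Equiv.Perm.mul_apply]

theorem punct_st (hL : Lg k n ρ θ z L c m) (h : Cx k n f ρ θ z) {ε : ℝ} (hε : 0 < ε) {Ye Yo : ℂ → (Fin k → ℂ)}
    (hYe : ∀ u ∈ Dm ε 0, AnalyticAt ℂ Ye u ∧ Ye u ∈ XX k) (hYo : ∀ u ∈ Dm ε 1, AnalyticAt ℂ Yo u ∧ Yo u ∈ XX k)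
    {W0 W1 : Equiv.Perm (St n)}
    (h0 : ∀ s u, 0 < ‖u‖ → ‖u‖ < ε → 0 < u.im → Lam L (W0 s) (Yo u) = Lam L s (Ye u))
    (h1 : ∀ s u, 0 < ‖u‖ → ‖u‖ < ε → u.im < 0 → Lam L (W1 s) (Ye u) = Lam L s (Yo u))
    (hc0 : Commute W0 (PI k z m)) (hc1 : Commute W1 (PI k z m)) (hs0 : ∀ ν, Commute W0 (sig ν)) (hs1 : ∀ ν, Commute W1 (sig ν))
    {s s' : St n} {M : ℕ} (hM : 0 < M) {e' ν : ℤ} (hs : ((W1 * W0) ^ M) s = (PI k z m ^ e') (sig ν s))
    (hs' : ((W1 * W0) ^ M) s' = (PI k z m ^ e') (sig ν s')) :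
    ∃ δ > 0, ∃ B : ℝ, ∀ u : ℂ, 0 < ‖u‖ → ‖u‖ < δ → u ∈ Complex.slitPlane →
      ‖VV (ρ s'.2 (Ye u)) s'.1.1 / VV (ρ s.2 (Ye u)) s.1.1‖ ≤ B := by
  classical
  -- the charts
  have hY : ∀ r, ∀ u ∈ Dm ε r, AnalyticAt ℂ (EPA_Y Ye Yo r) u ∧ EPA_Y Ye Yo r u ∈ XX k := by
    intro r u hu
    by_cases hr : Even r
    · simp only [EPA_Y, if_pos hr]
      exact hYe u ((EPA_Dm hu).1 hr)
    · simp only [EPA_Y, if_neg hr]
      exact hYo u ((EPA_Dm hu).2 hr)
  -- the logarithms at neighbouring charts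
  have hlg : ∀ t : St n, ∀ r, ∀ u ∈ Dm ε r, 0 < ((-1 : ℂ) ^ r * u).im →
      Lam L (EPA_st W0 W1 t (r + 1)) (EPA_Y Ye Yo (r + 1) u) = Lam L (EPA_st W0 W1 t r) (EPA_Y Ye Yo r u) := by
    intro t r u hu him
    by_cases hr : Even r
    · have h2 : ¬ Even (r + 1) := by
        rw [Int.even_add_one]
        exact not_not.2 hr
      rw [(EPA_st_succ W0 W1 t r).1 hr]
      simp only [EPA_Y, if_pos hr, if_neg h2]
      rw [hr.neg_one_zpow, one_mul] at him
      exact h0 _ u hu.1 hu.2.1 him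
    · have h2 : Even (r + 1) := by
        rw [Int.even_add_one]
        exact hr
      rw [(EPA_st_succ W0 W1 t r).2 hr]
      simp only [EPA_Y, if_neg hr, if_pos h2]
      rw [(Int.not_even_iff_odd.1 hr).neg_one_zpow] at him
      refine h1 _ u hu.1 hu.2.1 ?_
      simpa using him
  have hdm : ∀ r, ∀ u ∈ Dm ε r, 0 < ((-1 : ℂ) ^ r * u).im → u ∈ Dm ε (r + 1) := by
    intro r u hu him
    refine ⟨hu.1, hu.2.1, ?_⟩
    rw [zpow_add₀ (by norm_num), zpow_one, mul_assoc, mul_comm (-1 : ℂ) u, ← mul_assoc, Complex.mem_slitPlane_iff]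
    right
    rw [mul_neg_one, Complex.neg_im]
    exact neg_ne_zero.2 him.ne'
  have hdmp : ∀ r : ℤ, ∀ u ∈ Dm ε r, u ∈ Dm ε (r + 2 * M) := by
    intro r u hu
    refine ⟨hu.1, hu.2.1, ?_⟩
    have h2 : (-1 : ℂ) ^ (2 * (M : ℤ)) = 1 := (even_two_mul (M : ℤ)).neg_one_zpow
    rw [zpow_add₀ (by norm_num), h2, mul_one]
    exact hu.2.2
  -- `VV` from the logarithm
  have hvv : ∀ t : St n, ∀ r, ∀ u ∈ Dm ε r, VV (ρ (EPA_st W0 W1 t r).2 (EPA_Y Ye Yo r u)) (EPA_st W0 W1 t r).1.1 =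
      Complex.exp (Lam L (EPA_st W0 W1 t r) (EPA_Y Ye Yo r u)) := by
    intro t r u hu
    exact (hL.exp_Lam _ (hY r u hu).2).symm
  have hper : ∀ t : St n, ((W1 * W0) ^ M) t = (PI k z m ^ e') (sig ν t) → ∀ r, ∀ u ∈ Dm ε r,
      Lam L (EPA_st W0 W1 t (r + 2 * M)) (EPA_Y Ye Yo (r + 2 * M) u) =
        Lam L (EPA_st W0 W1 t r) (EPA_Y Ye Yo r u) + 2 * (Real.pi : ℂ) * Complex.I * (ν : ℂ) := by
    intro t ht r u hu
    have h2 : EPA_Y Ye Yo (r + 2 * M) = EPA_Y Ye Yo r := by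
      have h3 : Even (r + 2 * (M : ℤ)) ↔ Even r := by
        rw [Int.even_add]
        simp
      unfold EPA_Y
      simp only [h3]
    rw [EPA_st_per hc0 hc1 hs0 hs1 ht r, h2, EPA_pi hL _ (hY r u hu).2, Lam_sig]
  have hexpν : Complex.exp (2 * (Real.pi : ℂ) * Complex.I * (ν : ℂ)) = 1 := by
    rw [Complex.exp_eq_one_iff]
    exact ⟨ν, by ring⟩
  obtain ⟨δ, hδ, B, hB⟩ := punct_abs (ε := ε) hε hM
    (v := fun r u => VV (ρ (EPA_st W0 W1 s r).2 (EPA_Y Ye Yo r u)) (EPA_st W0 W1 s r).1.1)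
    (v' := fun r u => VV (ρ (EPA_st W0 W1 s' r).2 (EPA_Y Ye Yo r u)) (EPA_st W0 W1 s' r).1.1)
    (q := fun r u => Lam L (EPA_st W0 W1 s' r) (EPA_Y Ye Yo r u) - Lam L (EPA_st W0 W1 s r) (EPA_Y Ye Yo r u))
    (d := fun _ => 0) (e := fun _ => 0)
    (fun r u hu => h.VV_an _ _ (hY r u hu).1 (hY r u hu).2)
    (fun r u hu => h.VV_an _ _ (hY r u hu).1 (hY r u hu).2)
    (fun r u hu => VV_ne (h.inj _ (hY r u hu).2) _)
    (fun r u hu => VV_ne (h.inj _ (hY r u hu).2) _)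
    (by
      intro r
      have h2 : ContinuousOn (EPA_Y Ye Yo r) (Dm ε r) := fun u hu => (hY r u hu).1.continuousAt.continuousWithinAt
      exact ((Lam_cont hL _).comp h2 fun u hu => (hY r u hu).2).sub
        ((Lam_cont hL _).comp h2 fun u hu => (hY r u hu).2))
    (by
      intro r u hu
      show Complex.exp (_ - _) = _ / _
      rw [Complex.exp_sub, hvv s' r u hu, hvv s r u hu])
    (by
      intro r u hu him
      refine ⟨?_, ?_, ?_⟩
      · show VV _ _ = VV _ _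
        rw [hvv s _ u (hdm r u hu him), hvv s r u hu, hlg s r u hu him]
      · show VV _ _ = VV _ _
        rw [hvv s' _ u (hdm r u hu him), hvv s' r u hu, hlg s' r u hu him]
      · show Lam L _ _ - Lam L _ _ = Lam L _ _ - Lam L _ _ + _
        rw [hlg s r u hu him, hlg s' r u hu him]
        simp)
    (by
      intro r u hu
      refine ⟨?_, ?_, ?_⟩
      · show VV _ _ = VV _ _
        rw [hvv s _ u (hdmp r u hu), hvv s r u hu, hper s hs r u hu, Complex.exp_add, hexpν, mul_one]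
      · show VV _ _ = VV _ _
        rw [hvv s' _ u (hdmp r u hu), hvv s' r u hu, hper s' hs' r u hu, Complex.exp_add, hexpν, mul_one]
      · show Lam L _ _ - Lam L _ _ = Lam L _ _ - Lam L _ _ + _
        rw [hper s hs r u hu, hper s' hs' r u hu]
        simp)
    (by simp)
  refine ⟨δ, hδ, B, fun u hu1 hu2 hu3 => ?_⟩
  have h2 := hB u ⟨hu1, hu2, by simpa using hu3⟩
  have h3 : ∀ t : St n, EPA_st W0 W1 t 0 = t := by
    intro t
    simp [EPA_st]
  have h4 : EPA_Y Ye Yo 0 = Ye := by simp [EPA_Y]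
  simp only [h3, h4] at h2
  exact h2

end Pool.Agent.LR
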