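import Pool.Agent.LR.EPA
import Pool.Agent.LR.EHop

/-!
# LR EPun: the quotients `Rq` are bounded near the punctures and near infinity

`per_ex`: `Ψ` of the form `QNuA_Ph g (2 e)` (`QNuA.lean`).  `M = NN k * n!`, `e' = e * n!`: `Ψ^M` changes the triple by `g^M = 1` and the level by `2 e M = 2 NN k e'`; `PI^e'` changes the triple by
`z^e' = 1` (`n! ∣ e'`; `PI` is `QNuA_Ph z (2 NN k)`), the level by the same number.  So `Ψ^M s` and `PI^e' s` have the same triple and level, and differ by `sig ν` (`PI^e'` commutes with `sig`).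

`hop_bd`: `punct_st` with `Ye u = ins y (j+1) (y j + u)`, `Yo u = ins y j (y j + u)`, `ε ≤` half of the distances of `y j` from the neighbouring points, `W0 = W1 = SS θ c j`
(`Lg.up`, `Lg.dn`; for `u ∈ Dm ε 0` the point `y j + u` is in `UU k y (j+1)`, for `u ∈ Dm ε 1` in `UU k y j` by `mem_UU`), `s = ((ta (Aw θ C (j+1)) p, 0), b)`, `s' = Φ s` with `Φ` from `Hop`.
`(SS * SS)^M s = PI^e' (sig ν s)` by `per_ex` (`g = θ j * θ j`, `2 e = 2`), and then for `s' = Φ s` with the same `ν`, as `Φ` (in the closure of the `SS i`) commutes with `SS j`, `PI` (`Lg.com`) and `sig ν`.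

`hop_inf`: `Ye u = ins y (k-1) u⁻¹`, `Yo u = ins y 0 u⁻¹`, `ε` with `1 / ε` larger than all `|y i|`, `W0 = (dn (SS θ c) (k-2))⁻¹`, `W1 = (dl (SS θ c) (k-2))⁻¹`: for `Im u > 0` `Im u⁻¹ < 0`; by `Lg.dn` for `j = 0, .., k-2`
`Lam (dn (SS) (k-2) s) (ins y (k-1) w) = Lam s (ins y 0 w)` for `Im w < 0` (`dn φ p = φ p * ... * φ 0`), and by `Lg.up` `Lam (dl (SS) (k-2) s) (ins y 0 w) = Lam s (ins y (k-1) w)` for `Im w > 0`
(`dl φ p = φ 0 * ... * φ p`).  `W1 * W0 = (Dw (SS) k)⁻¹`, of the form `QNuA_Ph _ (- 2 (k-1))` (`QNuA_dn`, `QNuA_dl`).  `Φ` commutes with it.  `Aw θ C (k-1) = 1`.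
-/

set_option autoImplicit false

open Topology Filter

noncomputable section

namespace Pool.Agent.LR

open Pool.Agent.H60.OC (Pr NN nm zc SG MF IsRoots vd poly HoloOn)

/-- The quotient of the `VV` at level `b + 2` and label `g p` and at level `b` and label `p`, over the position `j`. -/
def Rq {k n : ℕ} (ρ : ℤ → (Fin k → ℂ) → (Fin n → ℂ)) (θ : ℕ → Equiv.Perm (Fin n)) (C : ℕ) (g : Equiv.Perm (Fin n))
    (y : ℕ → ℝ) (j : ℕ) (b : ℤ) (p : Tr n) (w : ℂ) : ℂ :=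
  VV (ρ (b + 2) (ins y j w)) (ta (Aw θ C j) (ta g p)) / VV (ρ b (ins y j w)) (ta (Aw θ C j) p)

variable {k n : ℕ} {f : (Fin k → ℂ) → (Fin n → ℂ)} {ρ : ℤ → (Fin k → ℂ) → (Fin n → ℂ)}
  {θ : ℕ → Equiv.Perm (Fin n)} {z : Equiv.Perm (Fin n)}
  {L : ℤ → Tr n → (Fin k → ℂ) → ℂ} {c : ℕ → ℤ → Tr n → ℤ} {m : ℤ → Tr n → ℤ} {C : ℕ} {g : Equiv.Perm (Fin n)}

theorem EPun_zpow {g : Equiv.Perm (Fin n)} {e : ℤ} {Φ : Equiv.Perm (St n)} (h : QNuA_Ph g e Φ) :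
    ∀ r : ℤ, QNuA_Ph (g ^ r) (r * e) (Φ ^ r)
  | (r : ℕ) => by
    have h1 := QNuA_pow h r
    simpa using h1
  | Int.negSucc r => by
    have h1 := QNuA_inv (QNuA_pow h (r + 1))
    rw [zpow_negSucc, zpow_negSucc]
    have h2 : Int.negSucc r * e = -(((r + 1 : ℕ) : ℤ) * e) := by
      rw [Int.negSucc_eq]
      push_cast
      ring
    rw [h2]
    exact h1

theorem EPun_fac (g : Equiv.Perm (Fin n)) : g ^ (n.factorial) = 1 := by
  have h1 : Fintype.card (Equiv.Perm (Fin n)) = n.factorial := by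
    rw [Fintype.card_perm, Fintype.card_fin]
  rw [← h1]
  exact pow_card_eq_one

theorem per_ex (hk : 12 ≤ k) (z : Equiv.Perm (Fin n)) (m : ℤ → Tr n → ℤ) {g : Equiv.Perm (Fin n)} {e : ℤ}
    {Ψ : Equiv.Perm (St n)} (hΨ : QNuA_Ph g (2 * e) Ψ) :
    ∃ M : ℕ, 0 < M ∧ ∃ e' : ℤ, ∀ s, ∃ ν : ℤ, (Ψ ^ M) s = (PI k z m ^ e') (sig ν s) := by
  refine ⟨NN k * n.factorial, Nat.mul_pos (Pool.Agent.H60.OC.NN_pos (by omega)) n.factorial_pos, e * (n.factorial : ℤ), ?_⟩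
  have h1 := QNuA_pow hΨ (NN k * n.factorial)
  have h2 : QNuA_Ph z (2 * (NN k : ℤ)) (PI k z m) := QNuA_sig z _ _
  have h3 := EPun_zpow h2 (e * (n.factorial : ℤ))
  have hg : g ^ (NN k * n.factorial) = 1 := by
    rw [mul_comm, pow_mul, EPun_fac, one_pow]
  have hz : z ^ (e * (n.factorial : ℤ)) = 1 := by
    rw [mul_comm, zpow_mul, zpow_natCast, EPun_fac, one_zpow]
  rw [hg] at h1
  rw [hz] at h3
  obtain ⟨l, hl⟩ := h1
  obtain ⟨l', hl'⟩ := h3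
  rintro ⟨⟨p, t⟩, a⟩
  refine ⟨l a p - l' a p, ?_⟩
  rw [hl p t a, sig_apply, hl' p (t + (l a p - l' a p)) a]
  rw [show t + (l a p - l' a p) + l' a p = t + l a p by ring]
  congr 1
  push_cast
  ring

theorem EPun_comm {X : Equiv.Perm (St n)} {A : Set (Equiv.Perm (St n))} (hA : ∀ S ∈ A, Commute S X)
    {Φ : Equiv.Perm (St n)} (hΦ : Φ ∈ Subgroup.closure A) : Commute Φ X := by
  have h1 : Subgroup.closure A ≤ Subgroup.centralizer ({X} : Set (Equiv.Perm (St n))) := by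
    rw [Subgroup.closure_le]
    intro S hS
    rw [SetLike.mem_coe, Subgroup.mem_centralizer_singleton_iff]
    exact hA S hS
  have h2 := h1 hΦ
  rw [Subgroup.mem_centralizer_singleton_iff] at h2
  exact h2

theorem EPun_sig (θ : ℕ → Equiv.Perm (Fin n)) (c : ℕ → ℤ → Tr n → ℤ) (i : ℕ) (ν : ℤ) :
    Commute (SS θ c i) (sig ν) := by
  apply Equiv.ext
  rintro ⟨⟨p, t⟩, a⟩
  rw [Equiv.Perm.mul_apply, Equiv.Perm.mul_apply, sig_apply, SS_apply, SS_apply, sig_apply]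
  rw [show t + ν + -c i a p = t + -c i a p + ν by ring]

theorem EPun_PI (hL : Lg k n ρ θ z L c m) {i : ℕ} (hi : i + 1 < k) : Commute (SS θ c i) (PI k z m) :=
  (hL.com i hi).symm

theorem EPun_cl (hL : Lg k n ρ θ z L c m) {Φ : Equiv.Perm (St n)}
    (hΦ : Φ ∈ Subgroup.closure {S : Equiv.Perm (St n) | ∃ i, i + 1 < k ∧ S = SS θ c i}) :
    Commute Φ (PI k z m) ∧ ∀ ν, Commute Φ (sig ν) := by
  refine ⟨EPun_comm ?_ hΦ, fun ν => EPun_comm ?_ hΦ⟩
  · rintro S ⟨i, hi, rfl⟩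
    exact EPun_PI hL hi
  · rintro S ⟨i, hi, rfl⟩
    exact EPun_sig θ c i ν

/-- The puncture lemma with `s' = Φ s`. -/
theorem EPun_core (h : Cx k n f ρ θ z) (hL : Lg k n ρ θ z L c m) {ε : ℝ} (hε : 0 < ε) {Ye Yo : ℂ → (Fin k → ℂ)}
    (hYe : ∀ u ∈ Dm ε 0, AnalyticAt ℂ Ye u ∧ Ye u ∈ XX k) (hYo : ∀ u ∈ Dm ε 1, AnalyticAt ℂ Yo u ∧ Yo u ∈ XX k)
    {W0 W1 : Equiv.Perm (St n)}
    (h0 : ∀ s u, 0 < ‖u‖ → ‖u‖ < ε → 0 < u.im → Lam L (W0 s) (Yo u) = Lam L s (Ye u))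
    (h1 : ∀ s u, 0 < ‖u‖ → ‖u‖ < ε → u.im < 0 → Lam L (W1 s) (Ye u) = Lam L s (Yo u))
    (hW0 : W0 ∈ Subgroup.closure {S : Equiv.Perm (St n) | ∃ i, i + 1 < k ∧ S = SS θ c i})
    (hW1 : W1 ∈ Subgroup.closure {S : Equiv.Perm (St n) | ∃ i, i + 1 < k ∧ S = SS θ c i})
    {γ : Equiv.Perm (Fin n)} {e : ℤ} (hPh : QNuA_Ph γ (2 * e) (W1 * W0)) {Φ : Equiv.Perm (St n)}
    (hΦ : Φ ∈ Subgroup.closure {S : Equiv.Perm (St n) | ∃ i, i + 1 < k ∧ S = SS θ c i})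
    (hcom : Commute Φ (W1 * W0)) (s : St n) :
    ∃ δ > 0, ∃ B : ℝ, ∀ u : ℂ, 0 < ‖u‖ → ‖u‖ < δ → u ∈ Complex.slitPlane →
      ‖VV (ρ (Φ s).2 (Ye u)) (Φ s).1.1 / VV (ρ s.2 (Ye u)) s.1.1‖ ≤ B := by
  obtain ⟨M, hM, e', hper⟩ := per_ex h.hk z m hPh
  obtain ⟨ν, hν⟩ := hper s
  obtain ⟨hΦP, hΦs⟩ := EPun_cl hL hΦ
  obtain ⟨h0P, h0s⟩ := EPun_cl hL hW0
  obtain ⟨h1P, h1s⟩ := EPun_cl hL hW1
  refine punct_st hL h hε hYe hYo h0 h1 h0P h1P h0s h1s hM hν (s' := Φ s) ?_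
  have e1 : ((W1 * W0) ^ M) (Φ s) = Φ (((W1 * W0) ^ M) s) := by
    have := congrArg (fun x : Equiv.Perm (St n) => x s) (hcom.pow_right M).eq
    simpa [Equiv.Perm.mul_apply] using this.symm
  have e2 : (PI k z m ^ e') (Φ (sig ν s)) = Φ ((PI k z m ^ e') (sig ν s)) := by
    have := congrArg (fun x : Equiv.Perm (St n) => x (sig ν s)) (hΦP.zpow_right e').eq
    simpa [Equiv.Perm.mul_apply] using this.symm
  have e3 : sig ν (Φ s) = Φ (sig ν s) := by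
    have := congrArg (fun x : Equiv.Perm (St n) => x s) (hΦs ν).eq
    simpa [Equiv.Perm.mul_apply] using this.symm
  rw [e1, hν, e3, e2]

theorem EPun_Dm0 {ε : ℝ} {u : ℂ} (hu : u ∈ Dm ε 0) : 0 < ‖u‖ ∧ ‖u‖ < ε ∧ u ∈ Complex.slitPlane := by
  obtain ⟨h1, h2, h3⟩ := hu
  rw [zpow_zero, one_mul] at h3
  exact ⟨h1, h2, h3⟩

theorem EPun_Dm1 {ε : ℝ} {u : ℂ} (hu : u ∈ Dm ε 1) : 0 < ‖u‖ ∧ ‖u‖ < ε ∧ -u ∈ Complex.slitPlane := by
  obtain ⟨h1, h2, h3⟩ := hu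
  rw [zpow_one, neg_one_mul] at h3
  exact ⟨h1, h2, h3⟩

/-- A positive real number plus something small. -/
theorem EPun_slit {r : ℝ} {u v : ℂ} (h : ‖u‖ < r) (hv : v = (r : ℂ) + u) : v ∈ Complex.slitPlane := by
  rw [hv, Complex.mem_slitPlane_iff]
  left
  have h1 := Complex.abs_re_le_norm u
  have h2 := neg_abs_le u.re
  have h3 : ((r : ℂ) + u).re = r + u.re := by simp
  rw [h3]
  linarith

theorem EPun_eps {y : ℕ → ℝ} (hy : StrictMono y) (j : ℕ) :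
    ∃ ε : ℝ, 0 < ε ∧ (∀ i, i < j → ε ≤ y j - y i) ∧ ∀ i, j < i → ε ≤ y i - y j := by
  have h1 : 0 < y (j + 1) - y j := sub_pos.2 (hy (Nat.lt_succ_self j))
  rcases Nat.eq_zero_or_pos j with h0 | h0
  · refine ⟨y (j + 1) - y j, h1, fun i hi => absurd hi (by omega), fun i hi => ?_⟩
    have := hy.monotone (show j + 1 ≤ i by omega)
    linarith
  · have h2 : 0 < y j - y (j - 1) := sub_pos.2 (hy (by omega))
    refine ⟨min (y (j + 1) - y j) (y j - y (j - 1)), lt_min h1 h2, fun i hi => ?_, fun i hi => ?_⟩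
    · have := hy.monotone (show i ≤ j - 1 by omega)
      have := min_le_right (y (j + 1) - y j) (y j - y (j - 1))
      linarith
    · have := hy.monotone (show j + 1 ≤ i by omega)
      have := min_le_left (y (j + 1) - y j) (y j - y (j - 1))
      linarith

theorem EPun_ins_an {y : ℕ → ℝ} (j : ℕ) {F : ℂ → ℂ} {u : ℂ} (hF : AnalyticAt ℂ F u) :
    AnalyticAt ℂ (fun u => (ins y j (F u) : Fin k → ℂ)) u :=
  AnalyticAt.comp_of_eq (ins_an (k := k) (y := y) j (F u)) hF rfl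

theorem Cx.hop_bd (h : Cx k n f ρ θ z) (hL : Lg k n ρ θ z L c m) (hg : Hop k θ c C g) {y : ℕ → ℝ} (hy : StrictMono y)
    {j : ℕ} (hj : j + 1 < k) (b : ℤ) {p : Tr n} (hp : p ∈ TC k θ C) :
    ∃ δ > 0, ∃ B : ℝ, ∀ u : ℂ, 0 < ‖u‖ → ‖u‖ < δ → u ∈ Complex.slitPlane →
      ‖Rq ρ θ C g y (j + 1) b p (y j + u)‖ ≤ B := by
  obtain ⟨Φ, hΦ, hΦc, hΦl⟩ := hg.1 j hj
  obtain ⟨t', ht'⟩ := hΦl p hp 0 b
  obtain ⟨ε, hε, hε1, hε2⟩ := EPun_eps hy j
  have hmem : SS θ c j ∈ Subgroup.closure {S : Equiv.Perm (St n) | ∃ i, i + 1 < k ∧ S = SS θ c i} :=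
    Subgroup.subset_closure ⟨j, hj, rfl⟩
  have hadd : ∀ u : ℂ, AnalyticAt ℂ (fun u : ℂ => (y j : ℂ) + u) u := fun u => analyticAt_const.fun_add analyticAt_id
  have hsub : ∀ i, i < j → ∀ u : ℂ, ‖u‖ < ε → (y j : ℂ) + u - y i ∈ Complex.slitPlane := by
    intro i hi u hu
    refine EPun_slit (r := y j - y i) (u := u) (hu.trans_le (hε1 i hi)) ?_
    push_cast
    ring
  have hsub' : ∀ i, j < i → ∀ u : ℂ, ‖u‖ < ε → (y i : ℂ) - ((y j : ℂ) + u) ∈ Complex.slitPlane := by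
    intro i hi u hu
    refine EPun_slit (r := y i - y j) (u := -u) (by rw [norm_neg]; exact hu.trans_le (hε2 i hi)) ?_
    push_cast
    ring
  have hPh : QNuA_Ph (θ j * θ j) (2 * 1) (SS θ c j * SS θ c j) := by
    have h1 : QNuA_Ph (θ j) 1 (SS θ c j) := QNuA_sig _ _ _
    have h2 := QNuA_mul h1 h1
    rw [show (2 * 1 : ℤ) = 1 + 1 by norm_num]
    exact h2
  have key := EPun_core h hL hε (Ye := fun u => ins y (j + 1) ((y j : ℂ) + u)) (Yo := fun u => ins y j ((y j : ℂ) + u))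
    (W0 := SS θ c j) (W1 := SS θ c j) ?_ ?_ ?_ ?_ hmem hmem hPh hΦ (hΦc.mul_right hΦc)
    ((ta (Aw θ C (j + 1)) p, 0), b)
  · rw [ht'] at key
    exact key
  · intro u hu
    obtain ⟨-, hu2, hu3⟩ := EPun_Dm0 hu
    refine ⟨EPun_ins_an (j + 1) (hadd u), (mem_UU hy hj _).2 ⟨fun i hi => ?_, fun i hi _ => ?_⟩⟩
    · rcases Nat.lt_or_ge i j with hij | hij
      · exact hsub i hij u hu2
      · have : i = j := by omega
        subst this
        rw [add_sub_cancel_left]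
        exact hu3
    · exact hsub' i (by omega) u hu2
  · intro u hu
    obtain ⟨-, hu2, hu3⟩ := EPun_Dm1 hu
    refine ⟨EPun_ins_an j (hadd u), (mem_UU hy (by omega) _).2 ⟨fun i hi => hsub i hi u hu2, fun i hi _ => ?_⟩⟩
    rcases Nat.lt_or_ge j i with hij | hij
    · exact hsub' i hij u hu2
    · have : i = j := by omega
      subst this
      rw [sub_add_cancel_left]
      exact hu3
  · intro s u _ _ hu
    exact hL.up h hy hj s (by simpa using hu)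
  · intro s u _ _ hu
    exact hL.dn h hy hj s (by simpa using hu)

/-- The half twists move the point through the lower half plane over all the others. -/
theorem EPun_dn (hL : Lg k n ρ θ z L c m) (h : Cx k n f ρ θ z) {y : ℕ → ℝ} (hy : StrictMono y) {w : ℂ} (hw : w.im < 0) :
    ∀ p, p + 1 < k → ∀ s : St n, Lam L (dn (SS θ c) p s) (ins y (p + 1) w) = Lam L s (ins y 0 w)
  | 0, hp, s => hL.dn h hy hp s hw
  | p + 1, hp, s => by
    show Lam L (SS θ c (p + 1) (dn (SS θ c) p s)) (ins y (p + 1 + 1) w) = Lam L s (ins y 0 w)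
    rw [hL.dn h hy hp _ hw]
    exact EPun_dn hL h hy hw p (by omega) s

theorem EPun_dl (hL : Lg k n ρ θ z L c m) (h : Cx k n f ρ θ z) {y : ℕ → ℝ} (hy : StrictMono y) {w : ℂ} (hw : 0 < w.im) :
    ∀ p, p + 1 < k → ∀ s : St n, Lam L (dl (SS θ c) p s) (ins y 0 w) = Lam L s (ins y (p + 1) w)
  | 0, hp, s => hL.up h hy hp s hw
  | p + 1, hp, s => by
    show Lam L (dl (SS θ c) p (SS θ c (p + 1) s)) (ins y 0 w) = Lam L s (ins y (p + 1 + 1) w)
    rw [EPun_dl hL h hy hw p (by omega)]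
    exact hL.up h hy hp s hw

theorem EPun_mem {G : Type*} [Group G] {φ : ℕ → G} (H : Subgroup G) (h : ∀ i, i + 1 < k → φ i ∈ H) :
    ∀ p, p + 1 < k → dn φ p ∈ H ∧ dl φ p ∈ H
  | 0, hp => ⟨h 0 hp, h 0 hp⟩
  | p + 1, hp => ⟨H.mul_mem (h (p + 1) hp) (EPun_mem H h p (by omega)).1,
      H.mul_mem (EPun_mem H h p (by omega)).2 (h (p + 1) hp)⟩

theorem EPun_inf (h : Cx k n f ρ θ z) (hL : Lg k n ρ θ z L c m) (hCk : C < k) (hg : Hop k θ c C g) {y : ℕ → ℝ}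
    (hy : StrictMono y) (b : ℤ) {p : Tr n} (hp : p ∈ TC k θ C) :
    ∃ δ > 0, ∃ B : ℝ, ∀ u : ℂ, 0 < ‖u‖ → ‖u‖ < δ → u ∈ Complex.slitPlane →
      ‖Rq ρ θ C g y (k - 1) b p u⁻¹‖ ≤ B := by
  have hk := h.hk
  obtain ⟨Φ, hΦ, hΦc, hΦl⟩ := hg.2
  obtain ⟨t', ht'⟩ := hΦl p hp 0 b
  -- the radius
  obtain ⟨R, hR, hyR⟩ : ∃ R : ℝ, 0 < R ∧ ∀ i, i < k → |y i| < R := by
    refine ⟨(∑ i ∈ Finset.range k, |y i|) + 1, by positivity, fun i hi => ?_⟩
    have h1 := Finset.single_le_sum (f := fun i => |y i|) (fun i _ => abs_nonneg (y i)) (Finset.mem_range.2 hi)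
    linarith
  have hinv : ∀ u : ℂ, 0 < ‖u‖ → ‖u‖ < R⁻¹ → R < ‖u⁻¹‖ := by
    intro u h1 h2
    rw [norm_inv]
    exact (lt_inv_comm₀ h1 hR).1 h2
  set H := Subgroup.closure {S : Equiv.Perm (St n) | ∃ i, i + 1 < k ∧ S = SS θ c i} with hH
  have hmem := EPun_mem (k := k) H (φ := SS θ c) (fun i hi => Subgroup.subset_closure ⟨i, hi, rfl⟩) (k - 2) (by omega)
  have hPh : QNuA_Ph (dn θ (k - 2) * dl θ (k - 2))⁻¹ (2 * (-(((k - 2 : ℕ) : ℤ) + 1)))
      ((dl (SS θ c) (k - 2))⁻¹ * (dn (SS θ c) (k - 2))⁻¹) := by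
    have h1 : ∀ i, QNuA_Ph (θ i) 1 (SS θ c i) := fun i => QNuA_sig _ _ _
    have h2 := QNuA_inv (QNuA_mul (QNuA_dn h1 (k - 2)) (QNuA_dl h1 (k - 2)))
    rw [← mul_inv_rev, show (2 * (-(((k - 2 : ℕ) : ℤ) + 1))) = -((((k - 2 : ℕ) : ℤ) + 1) + (((k - 2 : ℕ) : ℤ) + 1)) by ring]
    exact h2
  have hcom : Commute Φ ((dl (SS θ c) (k - 2))⁻¹ * (dn (SS θ c) (k - 2))⁻¹) := by
    rw [← mul_inv_rev]
    exact hΦc.inv_right
  have hinvslit : ∀ u : ℂ, u ∈ Complex.slitPlane → u⁻¹ ∈ Complex.slitPlane := by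
    intro u hu
    have h1 := Complex.slitPlane_ne_zero hu
    have h2 : 0 < Complex.normSq u := Complex.normSq_pos.2 h1
    rw [Complex.mem_slitPlane_iff, Complex.inv_re, Complex.inv_im]
    rcases Complex.mem_slitPlane_iff.1 hu with h3 | h3
    · left
      exact div_pos h3 h2
    · right
      exact div_ne_zero (neg_ne_zero.2 h3) h2.ne'
  have hA : ∀ i, i + 1 < k → ∀ w : ℂ, R < ‖w‖ → w ∈ Complex.slitPlane → w - y i ∈ Complex.slitPlane := by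
    intro i hi w h1 h2
    rcases eq_or_ne w.im 0 with h3 | h3
    · have h4 : 0 < w.re := by
        rcases Complex.mem_slitPlane_iff.1 h2 with h4 | h4
        · exact h4
        · exact absurd h3 h4
      have h5 : ‖w‖ = w.re := by
        have : w = (w.re : ℂ) := Complex.ext rfl (by simp [h3])
        rw [this, Complex.norm_real, Real.norm_eq_abs, Complex.ofReal_re, abs_of_pos h4]
      rw [Complex.mem_slitPlane_iff]
      left
      have h6 := hyR i (by omega)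
      have h7 := le_abs_self (y i)
      have h8 : (w - y i).re = w.re - y i := by simp
      rw [h8]
      linarith
    · rw [Complex.mem_slitPlane_iff]
      right
      simpa using h3
  have hB : ∀ i, i + 1 < k → ∀ w : ℂ, R < ‖w‖ → -w ∈ Complex.slitPlane → (y i : ℂ) - w ∈ Complex.slitPlane := by
    intro i hi w h1 h2
    rcases eq_or_ne w.im 0 with h3 | h3
    · have h4 : w.re < 0 := by
        rcases Complex.mem_slitPlane_iff.1 h2 with h4 | h4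
        · simpa using h4
        · exact absurd h3 (by simpa using h4)
      have h5 : ‖w‖ = - w.re := by
        have : w = (w.re : ℂ) := Complex.ext rfl (by simp [h3])
        rw [this, Complex.norm_real, Real.norm_eq_abs, Complex.ofReal_re, abs_of_neg h4]
      rw [Complex.mem_slitPlane_iff]
      left
      have h6 := hyR i (by omega)
      have h7 := neg_abs_le (y i)
      have h8 : ((y i : ℂ) - w).re = y i - w.re := by simp
      rw [h8]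
      linarith
    · rw [Complex.mem_slitPlane_iff]
      right
      simpa using h3
  have hne : ∀ u : ℂ, 0 < ‖u‖ → u ≠ 0 := fun u hu => norm_pos_iff.1 hu
  have hk1 : k - 2 + 1 = k - 1 := by omega
  have key := EPun_core h hL (inv_pos.2 hR) (Ye := fun u => ins y (k - 1) u⁻¹) (Yo := fun u => ins y 0 u⁻¹)
    (W0 := (dn (SS θ c) (k - 2))⁻¹) (W1 := (dl (SS θ c) (k - 2))⁻¹) ?_ ?_ ?_ ?_ (H.inv_mem hmem.1) (H.inv_mem hmem.2)
    hPh hΦ hcom ((p, 0), b)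
  · rw [ht'] at key
    unfold Rq
    rw [Aw_ge θ (show C ≤ k - 1 by omega), ta_one]
    exact key
  · intro u hu
    obtain ⟨hu1, hu2, hu3⟩ := EPun_Dm0 hu
    refine ⟨EPun_ins_an (k - 1) (analyticAt_inv (hne u hu1)),
      (mem_UU hy (by omega) _).2 ⟨fun i hi => ?_, fun i hi hik => absurd hi (by omega)⟩⟩
    exact hA i (by omega) _ (hinv u hu1 hu2) (hinvslit u hu3)
  · intro u hu
    obtain ⟨hu1, hu2, hu3⟩ := EPun_Dm1 hu
    refine ⟨EPun_ins_an 0 (analyticAt_inv (hne u hu1)),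
      (mem_UU hy (by omega) _).2 ⟨fun i hi => absurd hi (by omega), fun i hi hik => ?_⟩⟩
    refine hB i hik _ (hinv u hu1 hu2) ?_
    have h1 := hinvslit _ hu3
    rwa [inv_neg] at h1
  · intro s u hu1 hu2 hu
    have hw : (u⁻¹).im < 0 := by
      rw [Complex.inv_im]
      have : 0 < Complex.normSq u := Complex.normSq_pos.2 (hne u hu1)
      exact div_neg_of_neg_of_pos (neg_neg_of_pos hu) this
    have h1 := EPun_dn hL h hy hw (k - 2) (by omega) ((dn (SS θ c) (k - 2))⁻¹ s)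
    rw [hk1] at h1
    rw [← h1]
    congr 1
    exact (Equiv.apply_symm_apply (dn (SS θ c) (k - 2)) s).symm ▸ rfl
  · intro s u hu1 hu2 hu
    have hw : 0 < (u⁻¹).im := by
      rw [Complex.inv_im]
      have : 0 < Complex.normSq u := Complex.normSq_pos.2 (hne u hu1)
      exact div_pos (neg_pos_of_neg hu) this
    have h1 := EPun_dl hL h hy hw (k - 2) (by omega) ((dl (SS θ c) (k - 2))⁻¹ s)
    rw [hk1] at h1
    rw [← h1]
    congr 1
    exact (Equiv.apply_symm_apply (dl (SS θ c) (k - 2)) s).symm ▸ rfl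

theorem Cx.hop_inf (h : Cx k n f ρ θ z) (hL : Lg k n ρ θ z L c m) (hCk : C < k) (hg : Hop k θ c C g) {y : ℕ → ℝ}
    (hy : StrictMono y) (b : ℤ) {p : Tr n} (hp : p ∈ TC k θ C) :
    ∃ δ > 0, ∃ B : ℝ, ∀ u : ℂ, 0 < ‖u‖ → ‖u‖ < δ → u ∈ Complex.slitPlane →
      ‖Rq ρ θ C g y (k - 1) b p u⁻¹‖ ≤ B :=
  EPun_inf h hL hCk hg hy b hp

end Pool.Agent.LR
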