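import Pool.Agent.LR.QTop
import Pool.Agent.LR.EMain

/-!
# LR ETop: from the transition permutations with constant generators to the constancy of `f`

`ExpD k θ`: the properties of the constant generators `θ i` obtained from a system `S` on a set with fewer than `2 ^ (k / 12)` elements.
-/

set_option autoImplicit false

open Topology Filter Polynomial

noncomputable section

namespace Pool.Agent.LR

open Pool.Agent.H60.OC (Pr NN nm zc SG MF IsRoots vd poly HoloOn)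

/-- Properties of the generators: braid relations, few members of a far family move a point, `θ (C-1)^2` preserves `Om C`. -/
structure ExpD (k : ℕ) {n : ℕ} (θ : ℕ → Equiv.Perm (Fin n)) : Prop where
  br : Grp.Br (k - 1) θ
  far : ∀ (x : Fin n) (E : Finset ℕ), Exp.FarF (k - 1) E → 8 * (E.filter fun i => θ i x ≠ x).card + 12 ≤ k
  tom : ∀ C, 1 ≤ C → C ≤ 3 * ((k - 12) / 4) + 2 → ∀ x ∈ Om k θ C,
    θ C (θ (C - 1) (θ (C - 1) x)) = θ (C - 1) (θ (C - 1) x)

variable {k n : ℕ} {f : (Fin k → ℂ) → (Fin n → ℂ)} {ρ : ℤ → (Fin k → ℂ) → (Fin n → ℂ)}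
  {θ : ℕ → Equiv.Perm (Fin n)}

/-- The constant period. -/
theorem ETop_per (hk : 14 ≤ k) (hinj : ∀ a, ∀ x ∈ XX k, Function.Injective (ρ a x))
    (hcont : ∀ a, ContinuousOn (ρ a) (XX k)) (hroot : ∀ a, ∀ x ∈ XX k, IsRoots (ρ a x) (f (GG a x)))
    (htr : ∀ i, i + 1 < k → ∀ a, ∀ x ∈ WW (sw i), ∀ α,
      ρ (a + 1) (fun l => x ((sw i : Equiv.Perm (Fin k)) l)) (θ i α) = ρ a x α) (hE : ExpD k θ) :
    ∃ z : Equiv.Perm (Fin n), (∀ i, i + 1 < k → z * θ i = θ i * z) ∧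
      ∀ a, ∀ x ∈ XX k, ∀ α, ρ (a + 2 * (NN k : ℤ)) x (z α) = ρ a x α := by
  have hconn : IsPreconnected (XX k) :=
    ((XX_star k).isPathConnected (XX_base k)).isConnected.isPreconnected
  have h2 : ∀ a : ℤ, ∃ s : Equiv.Perm (Fin n), ∀ x ∈ XX k, ∀ j, ρ (a + 2 * (NN k : ℤ)) x (s j) = ρ a x j := by
    intro a
    refine exists_perm_on hconn (ρ := ρ a) (ρ' := ρ (a + 2 * (NN k : ℤ))) (H := fun x => f (GG a x))
      (hcont a) (hcont _) (fun x hx => hroot a x hx) ?_ (fun x hx => hinj a x hx)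
    intro x hx
    show IsRoots (ρ (a + 2 * (NN k : ℤ)) x) (f (GG a x))
    rw [← GG_per a x (by omega)]
    exact hroot _ x hx
  choose z hz using h2
  have hs : ∀ i, i + 1 < k → ∀ a, z (a + 1) * θ i = θ i * z a := by
    intro i hi a
    have hw := wit_mem (1 : Equiv.Perm (Fin k)) (sw i)
    generalize (fun i => (_ : ℂ)) = x at hw
    apply Equiv.ext
    intro α
    have e1 := htr i hi a _ hw α
    have e2 := htr i hi (a + 2 * (NN k : ℤ)) _ hw (z a α)
    have e3 := hz a _ (WW_sub _ hw) α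
    have e4 := hz (a + 1) _ (WW_comp _ hw) (θ i α)
    rw [show a + 1 + 2 * (NN k : ℤ) = a + 2 * (NN k : ℤ) + 1 by ring] at e4
    exact hinj _ _ (WW_comp _ hw) (e4.trans (e1.trans (e3.symm.trans e2.symm)))
  have hstep : ∀ a, z (a + 1) = z a := by
    intro a
    apply Equiv.ext
    intro x
    obtain ⟨i, hi, h1, h2⟩ := Exp.two_fix (k := k) (θ := θ) (t := (k - 12) / 8) (Q := 2 * ((k - 12) / 8) + 3) (by omega) le_rfl
      (fun x E hE' => by have := hE.far x E hE'; omega) x (z a x)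
    have e1 := DFunLike.congr_fun (hs i hi a) x
    rw [Equiv.Perm.mul_apply, Equiv.Perm.mul_apply, h1, h2] at e1
    exact e1
  have hall : ∀ a, z a = z 0 := by
    intro a
    induction a using Int.induction_on with
    | zero => rfl
    | succ i ih => rw [hstep, ih]
    | pred i ih =>
      have := hstep (-(i : ℤ) - 1)
      rw [sub_add_cancel] at this
      rw [← this, ih]
  refine ⟨z 0, fun i hi => ?_, fun a x hx α => ?_⟩
  · have := hs i hi 0
    rw [hstep] at this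
    exact this
  · rw [← hall a]
    exact hz a x hx α

/-- Maps with such generators are constant. -/
theorem exp_const (hk : 14 ≤ k) (hkn : k < n) (hmap : Set.MapsTo f (SG k) (SG n)) (hf : HoloOn (SG k) f)
    (hcont : ∀ a, ContinuousOn (ρ a) (XX k)) (hroot : ∀ a, ∀ x ∈ XX k, IsRoots (ρ a x) (f (GG a x)))
    (htr : ∀ i, i + 1 < k → ∀ a, ∀ x ∈ WW (sw i), ∀ α,
      ρ (a + 1) (fun l => x ((sw i : Equiv.Perm (Fin k)) l)) (θ i α) = ρ a x α) (hE : ExpD k θ) :
    ∀ z ∈ SG k, ∀ z' ∈ SG k, f z = f z' := by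
  have hinj : ∀ a, ∀ x ∈ XX k, Function.Injective (ρ a x) := by
    intro a x hx
    obtain ⟨-, r, hr, hv⟩ := hmap (GG_mem (by omega) a hx)
    have h1 := Pool.Agent.H60.OC.vd_sq_of_roots (hroot a x hx) hr hv
    refine Pool.Agent.H60.OC.vd_ne_iff.1 fun h0 => ?_
    rw [h0] at h1
    norm_num at h1
  obtain ⟨z, hz1, hz2⟩ := ETop_per hk hinj hcont hroot htr hE
  have hC : Cx k n f ρ θ z := ⟨by omega, by omega, hmap, hf, hcont, hroot, htr, hz1, hz2⟩
  refine hC.main hkn (D := 2 * ((k - 12) / 8)) (by have := hE.far ⟨0, by omega⟩ ∅ ⟨by simp, by simp⟩; omega) ?_ ?_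
  · intro C h1 h2
    exact hE.tom C h1 (by omega)
  · intro x hx
    exact Exp.exists_min (Exp.exists_om hE.br (t := (k - 12) / 8) (fun x E hE' => by have := hE.far x E hE'; omega) x) hx

/-- Root functions with constant transitions for one continuous factor. -/
theorem expfam (hk : 14 ≤ k) {n : ℕ}
    (hX : ∀ S : Equiv.Perm (Fin k) → ℤ → Equiv.Perm (Fin n), Sys (G := Equiv.Perm (Fin n)) inv S →
      ∃ (K : ℤ → Equiv.Perm (Fin n)) (θ : ℕ → Equiv.Perm (Fin n)),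
        (∀ i, i + 1 < k → ∀ a, S (sw i) a = K (a + 1) * θ i * (K a)⁻¹) ∧ ExpD k θ)
    {f : (Fin k → ℂ) → (Fin n → ℂ)}
    (hcf : ContinuousOn f (SG k)) (hd : ∀ z ∈ SG k, ∃ r, IsRoots r (f z) ∧ Function.Injective r) :
    ∃ (ρ : ℤ → (Fin k → ℂ) → (Fin n → ℂ)) (θ : ℕ → Equiv.Perm (Fin n)),
      (∀ a, ContinuousOn (ρ a) (XX k)) ∧ (∀ a, ∀ x ∈ XX k, IsRoots (ρ a x) (f (GG a x))) ∧
      (∀ i, i + 1 < k → ∀ a, ∀ x ∈ WW (sw i), ∀ α,
        ρ (a + 1) (fun l => x ((sw i : Equiv.Perm (Fin k)) l)) (θ i α) = ρ a x α) ∧ ExpD k θ := by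
  have h1 : ∀ a : ℤ, ∃ ρ : (Fin k → ℂ) → (Fin n → ℂ), ContinuousOn ρ (XX k) ∧ ∀ x ∈ XX k, IsRoots (ρ x) (f (GG a x)) := by
    intro a
    refine exists_roots_on (XX_open k) (XX_base k) (XX_star k) (H := fun x => f (GG a x)) ?_ ?_
    · exact hcf.comp (GG_cont k a) fun x hx => GG_mem (by omega) a hx
    · exact fun x hx => hd _ (GG_mem (by omega) a hx)
  choose ρ hρc hρ using h1
  have hinj : ∀ a, ∀ x ∈ XX k, Function.Injective (ρ a x) := by
    intro a x hx
    obtain ⟨r, hr, hri⟩ := hd _ (GG_mem (by omega) a hx)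
    obtain ⟨σ, hσ⟩ := Pool.Agent.H60.OC.exists_perm (hρ a x hx) hr hri
    have h2 : ρ a x = fun i => r (σ.symm i) := by
      funext i
      rw [hσ]
      simp
    rw [h2]
    exact hri.comp σ.symm.injective
  have h2 : ∀ (σ : Equiv.Perm (Fin k)) (a : ℤ), ∃ s : Equiv.Perm (Fin n), ∀ x ∈ WW σ, ∀ j,
      ρ (a + inv σ) (fun i => x (σ i)) (s j) = ρ a x j := by
    intro σ a
    refine exists_perm_on (WW_conn σ) (ρ := ρ a) (ρ' := fun x => ρ (a + inv σ) (fun i => x (σ i)))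
      (H := fun x => f (GG a x)) ?_ ?_ ?_ ?_ ?_
    · exact (hρc a).mono (WW_sub σ)
    · refine (hρc (a + inv σ)).comp ?_ fun x hx => WW_comp σ hx
      exact (continuous_pi fun i => continuous_apply (σ i)).continuousOn
    · exact fun x hx => hρ a x (WW_sub σ hx)
    · intro x hx
      rw [← GG_comp σ a hx]
      exact hρ _ _ (WW_comp σ hx)
    · exact fun x hx => hinj a x (WW_sub σ hx)
  choose S hS using h2
  have hsys : Sys (G := Equiv.Perm (Fin n)) inv S := sys_of_roots hinj hS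
  obtain ⟨K, θ, hK, hE⟩ := hX S hsys
  refine ⟨fun a x α => ρ a x (K a α), θ, ?_, ?_, ?_, hE⟩
  · intro a
    refine continuousOn_pi.2 fun α => ?_
    exact continuousOn_pi.1 (hρc a) (K a α)
  · intro a x hx
    have h3 := hρ a x hx
    unfold IsRoots at h3 ⊢
    rw [h3]
    exact (Equiv.prod_comp (K a) fun i => (X - C (ρ a x i))).symm
  · intro i hi a x hx α
    have h3 := hS (sw i) a x hx (K a α)
    rw [inv_sw i hi, hK i hi a] at h3
    show ρ (a + 1) (fun l => x ((sw i : Equiv.Perm (Fin k)) l)) (K (a + 1) (θ i α)) = ρ a x (K a α)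
    rw [← h3]
    simp

/-- A holomorphic map whose continuous factors have such generators is constant. -/
theorem exp_factors {k n r : ℕ} (hk : 14 ≤ k) (hkn : k < n) {f : (Fin k → ℂ) → (Fin n → ℂ)}
    (hmap : Set.MapsTo f (SG k) (SG n)) (hf : HoloOn (SG k) f) (m : Fin r → ℕ)
    (hX : ∀ t, ∀ S : Equiv.Perm (Fin k) → ℤ → Equiv.Perm (Fin (m t)), Sys (G := Equiv.Perm (Fin (m t))) inv S →
      ∃ (K : ℤ → Equiv.Perm (Fin (m t))) (θ : ℕ → Equiv.Perm (Fin (m t))),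
        (∀ i, i + 1 < k → ∀ a, S (sw i) a = K (a + 1) * θ i * (K a)⁻¹) ∧ ExpD k θ)
    (h : (t : Fin r) → (Fin k → ℂ) → (Fin (m t) → ℂ)) (hc : ∀ t, ContinuousOn (h t) (SG k))
    (hp : ∀ z ∈ SG k, poly (f z) = ∏ t, poly (h t z)) : ∀ z ∈ SG k, ∀ z' ∈ SG k, f z = f z' := by
  have hd : ∀ z ∈ SG k, ∃ x, IsRoots x (f z) ∧ Function.Injective x := by
    intro z hz
    obtain ⟨-, x, hr, hv⟩ := hmap hz
    refine ⟨x, hr, Pool.Agent.H60.OC.vd_ne_iff.1 fun h0 => ?_⟩
    rw [h0] at hv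
    norm_num at hv
  obtain ⟨x₀, hx₀⟩ := Pool.Agent.H60.OC.MF_nonempty (show 2 ≤ k by omega)
  have hz₀ : zc x₀ ∈ SG k := Pool.Agent.H60.OC.zc_mem hx₀
  have hcard : Fintype.card (Fin n) = Fintype.card (Σ t : Fin r, Fin (m t)) := by
    have h1 := congrArg natDegree (hp _ hz₀)
    rw [poly_natDegree, natDegree_prod_of_monic _ _ fun t _ => poly_monic _] at h1
    simp only [poly_natDegree] at h1
    rw [Fintype.card_sigma, Fintype.card_fin, h1]
    simp
  obtain ⟨e⟩ := Fintype.card_eq.1 hcard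
  have key : ∀ z ∈ SG k, ∀ y : (t : Fin r) → (Fin (m t) → ℂ), (∀ t, IsRoots (y t) (h t z)) →
      IsRoots (fun j => y (e j).1 (e j).2) (f z) := by
    intro z hz y hy
    unfold IsRoots
    rw [hp z hz, Equiv.prod_comp e (fun p : Σ t : Fin r, Fin (m t) => X - C (y p.1 p.2)), Fintype.prod_sigma]
    exact Finset.prod_congr rfl fun t _ => hy t
  have hdt : ∀ t, ∀ z ∈ SG k, ∃ x, IsRoots x (h t z) ∧ Function.Injective x := by
    intro t z hz
    choose y hy using fun t => exists_rootlist (h t z)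
    obtain ⟨x', hx', hxi⟩ := hd z hz
    obtain ⟨σ, hσ⟩ := Pool.Agent.H60.OC.exists_perm (key z hz y hy) hx' hxi
    refine ⟨y t, hy t, fun i j hij => ?_⟩
    have h1 : x' (σ.symm (e.symm ⟨t, i⟩)) = x' (σ.symm (e.symm ⟨t, j⟩)) := by
      rw [hσ]
      show y (e (σ (σ.symm (e.symm ⟨t, i⟩)))).1 (e (σ (σ.symm (e.symm ⟨t, i⟩)))).2 =
        y (e (σ (σ.symm (e.symm ⟨t, j⟩)))).1 (e (σ (σ.symm (e.symm ⟨t, j⟩)))).2
      rw [σ.apply_symm_apply, σ.apply_symm_apply, e.apply_symm_apply, e.apply_symm_apply]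
      exact hij
    have h2 := e.symm.injective (σ.symm.injective (hxi h1))
    simpa using h2
  choose ρ θ hρc hρ htr hB using fun t => expfam hk (hX t) (hc t) (hdt t)
  obtain ⟨Θ, hΘ⟩ : ∃ Θ : ((t : Fin r) → Equiv.Perm (Fin (m t))) → Equiv.Perm (Fin n),
      ∀ g α, Θ g α = e.symm ⟨(e α).1, g (e α).1 (e α).2⟩ :=
    ⟨fun g => (e.trans (Equiv.sigmaCongrRight g)).trans e.symm, fun g α => rfl⟩
  have hΘe : ∀ g α, e (Θ g α) = ⟨(e α).1, g (e α).1 (e α).2⟩ := by
    intro g α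
    rw [hΘ, e.apply_symm_apply]
  have hΘm : ∀ g g' α, Θ g (Θ g' α) = Θ (fun t => g t * g' t) α := by
    intro g g' α
    rw [hΘ g, hΘe g' α, hΘ]
    rfl
  have hΘmm : ∀ g g', Θ g * Θ g' = Θ (fun t => g t * g' t) := fun g g' => Equiv.ext fun α => hΘm g g' α
  have hval : ∀ (F : (t : Fin r) → Fin (m t) → ℂ) g α, F (e (Θ g α)).1 (e (Θ g α)).2 =
      F (e α).1 (g (e α).1 (e α).2) := by
    intro F g α
    rw [hΘe]
  -- fixed points
  have hfix : ∀ g α, Θ g α = α ↔ g (e α).1 (e α).2 = (e α).2 := by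
    intro g α
    rw [hΘ, Equiv.symm_apply_eq]
    constructor
    · intro h1
      have h2 : (⟨(e α).1, g (e α).1 (e α).2⟩ : Σ t : Fin r, Fin (m t)) = ⟨(e α).1, (e α).2⟩ := h1
      exact eq_of_heq (Sigma.mk.inj h2).2
    · intro h1
      show (⟨(e α).1, g (e α).1 (e α).2⟩ : Σ t : Fin r, Fin (m t)) = ⟨(e α).1, (e α).2⟩
      rw [h1]
  refine exp_const (ρ := fun a x α => ρ (e α).1 a x (e α).2) (θ := fun i => Θ (fun t => θ t i)) hk hkn hmap hf ?_ ?_ ?_
    ⟨⟨?_, ?_⟩, ?_, ?_⟩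
  · intro a
    refine continuousOn_pi.2 fun α => ?_
    exact continuousOn_pi.1 (hρc (e α).1 a) (e α).2
  · intro a x hx
    exact key _ (GG_mem (by omega) a hx) (fun t => ρ t a x) fun t => hρ t a x hx
  · intro i hi a x hx α
    show ρ (e (Θ (fun t => θ t i) α)).1 (a + 1) (fun l => x ((sw i : Equiv.Perm (Fin k)) l)) (e (Θ (fun t => θ t i) α)).2 = _
    rw [hval (fun t => ρ t (a + 1) (fun l => x ((sw i : Equiv.Perm (Fin k)) l)))]
    exact htr (e α).1 i hi a x hx (e α).2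
  · intro i j hij hj
    rw [hΘmm, hΘmm]
    congr 1
    funext t
    exact (hB t).br.comm i j hij hj
  · intro i hi
    rw [hΘmm, hΘmm, hΘmm, hΘmm]
    congr 1
    funext t
    exact (hB t).br.braid i hi
  · intro x E hE
    have h1 : (E.filter fun i => Θ (fun t => θ t i) x ≠ x) = E.filter fun i => θ (e x).1 i (e x).2 ≠ (e x).2 := by
      refine Finset.filter_congr fun i _ => ?_
      rw [Ne, hfix]
    rw [h1]
    exact (hB (e x).1).far _ E hE
  · intro C h1 h2 x hx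
    have h3 : (e x).2 ∈ Om k (θ (e x).1) C := by
      intro i hi hik
      exact (hfix _ x).1 (hx i hi hik)
    have h4 := (hB (e x).1).tom C h1 h2 _ h3
    show Θ (fun t => θ t C) (Θ (fun t => θ t (C - 1)) (Θ (fun t => θ t (C - 1)) x)) =
      Θ (fun t => θ t (C - 1)) (Θ (fun t => θ t (C - 1)) x)
    rw [hΘm (fun t => θ t (C - 1)) (fun t => θ t (C - 1)), hΘm, hΘ, hΘ]
    show e.symm ⟨(e x).1, θ (e x).1 C (θ (e x).1 (C - 1) (θ (e x).1 (C - 1) (e x).2))⟩ = _
    rw [h4]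
    rfl

end Pool.Agent.LR
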