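import Pool.Agent.LR.Braid

/-!
# LR EqAll: actions of braid groups on few points are cyclic
-/

set_option autoImplicit false

open Equiv

namespace Pool.Agent.LR

section rs

variable {α : Type} {p : α → Prop}

open Classical in
/-- The restriction of a permutation to an invariant set (`1` if it is not invariant). -/
noncomputable def rs (p : α → Prop) (g : Perm α) : Perm {x // p x} :=
  if h : ∀ x, p (g x) ↔ p x then g.subtypePerm h else 1

theorem rs_apply {g : Perm α} (h : ∀ x, p (g x) ↔ p x) (x : {x // p x}) : ((rs p g x : {x // p x}) : α) = g x := by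
  rw [rs, dif_pos h]
  rfl

theorem rs_rel {m : ℕ} {φ : ℕ → Perm α} (h : BraidRel m φ) (hp : ∀ i, i + 1 < m → ∀ x, p (φ i x) ↔ p x) :
    BraidRel m fun i => rs p (φ i) where
  far i j hij hj := by
    ext x
    have h1 := hp i (by omega)
    have h2 := hp j hj
    rw [Perm.mul_apply, Perm.mul_apply, rs_apply h1, rs_apply h2, rs_apply h2, rs_apply h1]
    exact congrArg (fun e : Perm α => e x) (h.far i j hij hj)
  br i hi := by
    ext x
    have h1 := hp i (by omega)
    have h2 := hp (i + 1) (by omega)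
    simp only [Perm.mul_apply]
    rw [rs_apply h1, rs_apply h2, rs_apply h1, rs_apply h2, rs_apply h1, rs_apply h2]
    exact congrArg (fun e : Perm α => e x) (h.br i hi)

theorem fx_iff {c g : Perm α} (h : g * c = c * g) (x : α) : c (g x) = g x ↔ c x = x := by
  have h1 : g (c x) = c (g x) := congrArg (fun e : Perm α => e x) h
  rw [← h1]
  exact g.injective.eq_iff

theorem mv_iff {c g : Perm α} (h : g * c = c * g) (x : α) : c (g x) ≠ g x ↔ c x ≠ x := not_congr (fx_iff h x)

end rs

section qt

variable {α : Type}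

open Classical in
/-- The permutation of the cycles of `c` induced by a permutation which commutes with `c`. -/
noncomputable def qt (c g : Perm α) : Perm (Quotient (Perm.SameCycle.setoid c)) :=
  if h : g * c = c * g then
    Quotient.congr g fun a b => ⟨fun hab => sameCycle_comm h hab, fun hab => by
      have h' : g⁻¹ * c = c * g⁻¹ := by
        rw [inv_mul_eq_iff_eq_mul, ← mul_assoc, h, mul_assoc, mul_inv_cancel, mul_one]
      have := sameCycle_comm h' hab
      rw [pinv', pinv'] at this
      exact this⟩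
  else 1

theorem qt_mk {c g : Perm α} (h : g * c = c * g) (x : α) :
    qt c g (Quotient.mk (Perm.SameCycle.setoid c) x) = Quotient.mk (Perm.SameCycle.setoid c) (g x) := by
  rw [qt, dif_pos h]
  rfl

theorem qt_rel {m : ℕ} {φ : ℕ → Perm α} {c : Perm α} (h : BraidRel m φ) (hc : ∀ i, i + 1 < m → φ i * c = c * φ i) :
    BraidRel m fun i => qt c (φ i) where
  far i j hij hj := by
    ext x
    induction x using Quotient.inductionOn with
    | h x =>
      have h1 := hc i (by omega)
      have h2 := hc j hj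
      rw [Perm.mul_apply, Perm.mul_apply, qt_mk h1, qt_mk h2, qt_mk h2, qt_mk h1]
      exact congrArg (fun e : Perm α => Quotient.mk (Perm.SameCycle.setoid c) (e x)) (h.far i j hij hj)
  br i hi := by
    ext x
    induction x using Quotient.inductionOn with
    | h x =>
      have h1 := hc i (by omega)
      have h2 := hc (i + 1) (by omega)
      simp only [Perm.mul_apply]
      rw [qt_mk h1, qt_mk h2, qt_mk h1, qt_mk h2, qt_mk h1, qt_mk h2]
      exact congrArg (fun e : Perm α => Quotient.mk (Perm.SameCycle.setoid c) (e x)) (h.br i hi)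

theorem two_card_qt [Finite α] {c : Perm α} (hc : ∀ x, c x ≠ x) :
    2 * Nat.card (Quotient (Perm.SameCycle.setoid c)) ≤ Nat.card α := by
  have h1 : Nat.card (Quotient (Perm.SameCycle.setoid c) × Bool) = 2 * Nat.card (Quotient (Perm.SameCycle.setoid c)) := by
    rw [Nat.card_prod]
    simp [mul_comm]
  rw [← h1]
  refine Nat.card_le_card_of_injective
    (fun w : Quotient (Perm.SameCycle.setoid c) × Bool => if w.2 then c w.1.out else w.1.out) ?_
  have key : ∀ (w : Quotient (Perm.SameCycle.setoid c) × Bool),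
      Quotient.mk (Perm.SameCycle.setoid c) (if w.2 then c w.1.out else w.1.out) = w.1 := by
    rintro ⟨w, b⟩
    cases b
    · exact Quotient.out_eq w
    · have h2 : Quotient.mk (Perm.SameCycle.setoid c) (c w.out) = Quotient.mk (Perm.SameCycle.setoid c) w.out :=
        Quotient.sound (⟨-1, by
          show (c ^ (-1 : ℤ)) (c w.out) = w.out
          rw [zpow_neg_one, pinv']⟩ : c.SameCycle (c w.out) w.out)
      show Quotient.mk (Perm.SameCycle.setoid c) (c w.out) = w
      rw [h2]
      exact Quotient.out_eq w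
  rintro ⟨w, b⟩ ⟨w', b'⟩ hww
  have h2 := key (w, b)
  have h3 := key (w', b')
  rw [show (if (w, b).2 then c (w, b).1.out else (w, b).1.out) = (if (w', b').2 then c (w', b').1.out else (w', b').1.out)
    from hww, h3] at h2
  have h4 : w' = w := h2
  subst h4
  cases b <;> cases b'
  · rfl
  · exact absurd hww.symm (hc _)
  · exact absurd hww (hc _)
  · rfl

end qt

/-- All generators of `B_m` act by the same permutation on sets with fewer than `N` elements. -/
def EqAll (m N : ℕ) : Prop :=
  ∀ (α : Type) [Finite α] (φ : ℕ → Perm α), BraidRel m φ → Nat.card α < N → ∀ i, i + 1 < m → φ i = φ 0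

theorem EqAll.mono {m N N' : ℕ} (h : EqAll m N) (hN : N' ≤ N) : EqAll m N' :=
  fun α _ φ hφ hc => h α φ hφ (lt_of_lt_of_le hc hN)

theorem eqAll_two (m : ℕ) : EqAll m 2 := by
  intro α _ φ _ hc i _
  have h1 : Subsingleton α := by
    rw [← Finite.card_le_one_iff_subsingleton]
    omega
  exact Subsingleton.elim _ _

/-- On the points moved by the first generator the other far generators agree. -/
theorem EqAll.fact {m N : ℕ} (h : EqAll m N) (hm : 5 ≤ m) {α : Type} [Finite α] {φ : ℕ → Perm α}
    (hφ : BraidRel (m + 2) φ) (hc : Nat.card {x // φ 0 x ≠ x} < 2 * N) :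
    ∀ x, φ 0 x ≠ x → ∀ i, i + 1 < m → φ (i + 2) x = φ 2 x := by
  set p : α → Prop := fun x => φ 0 x ≠ x with hp
  have hcm : ∀ i, i + 1 < m → φ (i + 2) * φ 0 = φ 0 * φ (i + 2) := fun i hi => (hφ.far 0 (i + 2) (by omega) (by omega)).symm
  have hinv : ∀ i, i + 1 < m → ∀ x, p (φ (i + 2) x) ↔ p x := fun i hi x => mv_iff (hcm i hi) x
  have hinv0 : ∀ x, p (φ 0 x) ↔ p x := fun x => mv_iff rfl x
  have hψ : BraidRel m fun i => rs p (φ (i + 2)) := rs_rel (hφ.shift 2 m le_rfl) hinv
  set c : Perm {x // p x} := rs p (φ 0) with hcdef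
  have hfree : ∀ x, c x ≠ x := by
    intro x hx
    have h1 := congrArg (fun y : {x // p x} => (y : α)) hx
    simp only [hcdef] at h1
    rw [rs_apply hinv0] at h1
    exact x.2 h1
  have hcc : ∀ i, i + 1 < m → rs p (φ (i + 2)) * c = c * rs p (φ (i + 2)) := by
    intro i hi
    ext x
    simp only [Perm.mul_apply]
    rw [hcdef, rs_apply (hinv i hi), rs_apply hinv0, rs_apply hinv0, rs_apply (hinv i hi)]
    exact congrArg (fun e : Perm α => e x) (hcm i hi)
  have hq := qt_rel hψ hcc
  have hcard : Nat.card (Quotient (Perm.SameCycle.setoid c)) < N := by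
    have h1 := two_card_qt hfree
    have h2 : Nat.card {x // p x} < 2 * N := hc
    omega
  have h1 := h _ _ hq hcard
  have h2 : (fun i => rs p (φ (i + 2))) 2 = (fun i => rs p (φ (i + 2))) 3 := by
    refine hψ.eq_of_cycles hm (c := c) hcc ?_
    intro i hi x
    have h3 := h1 i (by omega)
    have h4 := h1 (i + 1) (by omega)
    have h5 : qt c (rs p (φ (i + 2))) (Quotient.mk (Perm.SameCycle.setoid c) x)
        = qt c (rs p (φ (i + 1 + 2))) (Quotient.mk (Perm.SameCycle.setoid c) x) := by rw [h3, h4]
    rw [qt_mk (hcc i (by omega)), qt_mk (hcc (i + 1) (by omega))] at h5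
    exact Quotient.exact h5
  have h3 := hψ.all_eq (i := 2) (by omega) h2
  intro x hx i hi
  have h4 := h3 i hi
  have h5 := congrArg (fun e : Perm {x // p x} => ((e ⟨x, hx⟩ : {x // p x}) : α)) h4
  rw [rs_apply (hinv i hi), rs_apply (hinv 0 (by omega))] at h5
  exact h5

theorem EqAll.step {m N N' : ℕ} (h : EqAll m N) (hm : 5 ≤ m) (h1 : N' ≤ N + 2) (h2 : N' ≤ 2 * N) : EqAll (m + 2) N' := by
  classical
  intro α _ φ hφ hc
  have hsum : Nat.card {x // φ 0 x ≠ x} + Nat.card {x // ¬ (φ 0 x ≠ x)} = Nat.card α := by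
    rw [← Nat.card_sum]
    exact Nat.card_congr (Equiv.sumCompl fun x => φ 0 x ≠ x)
  by_cases h0 : φ 0 = 1
  · refine hφ.all_eq (i := 0) (by omega) ?_
    exact eq_of_comm_braid (by rw [h0]; simp) (hφ.br 0 (by omega))
  · -- at least two points are moved
    have hmv : 2 ≤ Nat.card {x // φ 0 x ≠ x} := by
      have h3 : ∃ x, φ 0 x ≠ x := by
        by_contra hcon
        push Not at hcon
        exact h0 (Equiv.ext hcon)
      obtain ⟨x, hx⟩ := h3
      have h4 : φ 0 (φ 0 x) ≠ φ 0 x := fun h5 => hx ((φ 0).injective h5)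
      have h6 : (⟨x, hx⟩ : {x // φ 0 x ≠ x}) ≠ ⟨φ 0 x, h4⟩ := fun h7 => hx (congrArg Subtype.val h7).symm
      have h8 : Nontrivial {x // φ 0 x ≠ x} := ⟨_, _, h6⟩
      have h9 := Finite.one_lt_card_iff_nontrivial.2 h8
      omega
    have hfact := h.fact hm hφ (by omega)
    have hcm : ∀ i, i + 1 < m → φ (i + 2) * φ 0 = φ 0 * φ (i + 2) :=
      fun i hi => (hφ.far 0 (i + 2) (by omega) (by omega)).symm
    have hinv : ∀ i, i + 1 < m → ∀ x, (¬ (φ 0 (φ (i + 2) x) ≠ φ (i + 2) x)) ↔ ¬ (φ 0 x ≠ x) :=
      fun i hi x => not_congr (mv_iff (hcm i hi) x)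
    have hψ : BraidRel m fun i => rs (fun x => ¬ (φ 0 x ≠ x)) (φ (i + 2)) := rs_rel (hφ.shift 2 m le_rfl) hinv
    have h3 := h _ _ hψ (by omega)
    refine hφ.all_eq (i := 4) (by omega) ?_
    ext x
    by_cases hx : φ 0 x ≠ x
    · rw [hfact x hx 2 (by omega), hfact x hx 3 (by omega)]
    · have h4 := h3 2 (by omega)
      have h5 := h3 3 (by omega)
      have h6 := congrArg (fun e : Perm {x // ¬ (φ 0 x ≠ x)} => ((e ⟨x, hx⟩ : {x // ¬ (φ 0 x ≠ x)}) : α)) (h4.trans h5.symm)
      rw [rs_apply (hinv 2 (by omega)), rs_apply (hinv 3 (by omega))] at h6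
      exact h6

theorem eqAll_weak : ∀ m, 5 ≤ m → EqAll m (max 2 (m - 4)) := by
  intro m
  induction m using Nat.strong_induction_on with
  | _ m ih =>
    intro hm
    by_cases h7 : m < 7
    · have : max 2 (m - 4) = 2 := by omega
      rw [this]
      exact eqAll_two m
    · have h1 := ih (m - 2) (by omega) (by omega)
      have h2 := h1.step (by omega) (N' := max 2 (m - 4)) (by omega) (by omega)
      rw [show m - 2 + 2 = m by omega] at h2
      exact h2

end Pool.Agent.LR
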