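import Pool.Agent.LR.Main

/-!
# LR Fac: continuous factorisations
-/

set_option autoImplicit false

open Topology Filter Polynomial

noncomputable section

namespace Pool.Agent.LR

open Pool.Agent.H60.OC (Pr NN nm zc SG MF IsRoots vd poly HoloOn)

theorem poly_low {m : ℕ} (z : Fin m → ℂ) : (∑ i : Fin m, C (z i) * X ^ (m - 1 - (i : ℕ)) : ℂ[X]).degree < m := by
  refine lt_of_le_of_lt (degree_sum_le _ _) ?_
  refine (Finset.sup_lt_iff (by exact_mod_cast WithBot.bot_lt_coe m)).2 fun i _ => ?_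
  refine lt_of_le_of_lt (degree_C_mul_X_pow_le _ _) ?_
  have := i.2
  exact_mod_cast (by omega : m - 1 - (i : ℕ) < m)

theorem poly_monic {m : ℕ} (z : Fin m → ℂ) : (poly z).Monic := monic_X_pow_add (poly_low z)

theorem poly_natDegree {m : ℕ} (z : Fin m → ℂ) : (poly z).natDegree = m := by
  refine natDegree_eq_of_degree_eq_some ?_
  unfold poly
  rw [degree_add_eq_left_of_degree_lt, degree_X_pow]
  rw [degree_X_pow]
  exact poly_low z

theorem exists_rootlist {m : ℕ} (z : Fin m → ℂ) : ∃ r : Fin m → ℂ, IsRoots r z := by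
  have hs := IsAlgClosed.splits (poly z)
  have hcard : (poly z).roots.card = m := (splits_iff_card_roots.1 hs).trans (poly_natDegree z)
  have hprod : poly z = ((poly z).roots.map fun a => X - C a).prod := by
    conv_lhs => rw [hs.eq_prod_roots, (poly_monic z).leadingCoeff, C_1, one_mul]
  obtain ⟨l, hl⟩ := Quot.exists_rep (poly z).roots
  have hlen : l.length = m := by
    rw [← hcard, ← hl]
    rfl
  refine ⟨fun i => l.get (i.cast hlen.symm), ?_⟩
  unfold IsRoots
  rw [hprod, ← hl]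
  show ((Multiset.map (fun a => X - C a) (l : Multiset ℂ))).prod = _
  rw [Multiset.map_coe, Multiset.prod_coe, ← List.prod_ofFn]
  congr 1
  apply List.ext_get
  · simp [hlen]
  · intro i h1 h2
    simp

/-- If `P_{f z}` is a product of continuous factors of degrees `< 2 k - 8`, then its roots are continuous functions of the
ordered roots of `P_z`. -/
theorem lift_factors {k n r : ℕ} (hk : 11 ≤ k) {f : (Fin k → ℂ) → (Fin n → ℂ)}
    (hd : ∀ z ∈ SG k, ∃ x, IsRoots x (f z) ∧ Function.Injective x) (m : Fin r → ℕ) (hm : ∀ t, m t < 2 * k - 8)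
    (h : (t : Fin r) → (Fin k → ℂ) → (Fin (m t) → ℂ)) (hc : ∀ t, ContinuousOn (h t) (SG k))
    (hp : ∀ z ∈ SG k, poly (f z) = ∏ t, poly (h t z)) :
    ∃ μ : (Fin k → ℂ) → (Fin n → ℂ), ContinuousOn μ (MF k) ∧ ∀ x ∈ MF k, ∀ z, IsRoots x z → IsRoots (μ x) (f z) := by
  obtain ⟨x₀, hx₀⟩ := Pool.Agent.H60.OC.MF_nonempty (show 2 ≤ k by omega)
  have hz₀ : zc x₀ ∈ SG k := Pool.Agent.H60.OC.zc_mem hx₀
  -- the degrees
  have hcard : Fintype.card (Fin n) = Fintype.card (Σ t : Fin r, Fin (m t)) := by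
    have h1 := congrArg natDegree (hp _ hz₀)
    rw [poly_natDegree, natDegree_prod_of_monic _ _ fun t _ => poly_monic _] at h1
    simp only [poly_natDegree] at h1
    rw [Fintype.card_sigma, Fintype.card_fin, h1]
    simp
  obtain ⟨e⟩ := Fintype.card_eq.1 hcard
  -- a root list of the product
  have key : ∀ z ∈ SG k, ∀ y : (t : Fin r) → (Fin (m t) → ℂ), (∀ t, IsRoots (y t) (h t z)) →
      IsRoots (fun j => y (e j).1 (e j).2) (f z) := by
    intro z hz y hy
    unfold IsRoots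
    rw [hp z hz, Equiv.prod_comp e (fun p : Σ t : Fin r, Fin (m t) => X - C (y p.1 p.2)), Fintype.prod_sigma]
    exact Finset.prod_congr rfl fun t _ => hy t
  -- the factors have distinct roots
  have hdt : ∀ t, ∀ z ∈ SG k, ∃ x, IsRoots x (h t z) ∧ Function.Injective x := by
    intro t z hz
    choose y hy using fun t => exists_rootlist (h t z)
    obtain ⟨x', hx', hxi⟩ := hd z hz
    obtain ⟨σ, hσ⟩ := Pool.Agent.H60.OC.exists_perm (key z hz y hy) hx' hxi
    refine ⟨y t, hy t, fun i j hij => ?_⟩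
    have h1 : x' (σ.symm (e.symm ⟨t, i⟩)) = x' (σ.symm (e.symm ⟨t, j⟩)) := by
      rw [hσ]
      show y (e (σ (σ.symm (e.symm ⟨t, i⟩)))).1 (e (σ (σ.symm (e.symm ⟨t, i⟩)))).2 =
        y (e (σ (σ.symm (e.symm ⟨t, j⟩)))).1 (e (σ (σ.symm (e.symm ⟨t, j⟩)))).2
      rw [σ.apply_symm_apply, σ.apply_symm_apply, e.apply_symm_apply, e.apply_symm_apply]
      exact hij
    have h2 := e.symm.injective (σ.symm.injective (hxi h1))
    simpa using h2
  choose μ hμc hμ using fun t => lift_exists hk (hm t) (hc t) (hdt t)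
  refine ⟨fun x j => μ (e j).1 x (e j).2, ?_, ?_⟩
  · refine continuousOn_pi.2 fun j => ?_
    exact continuousOn_pi.1 (hμc (e j).1) (e j).2
  · intro x hx z hz
    have hzS : z ∈ SG k := by
      have h1 : z = zc x := Pool.Agent.H60.OC.poly_inj (hz.trans (Pool.Agent.H60.OC.zc_roots x).symm)
      rw [h1]
      exact Pool.Agent.H60.OC.zc_mem hx
    exact key z hzS (fun t => μ t x) fun t => hμ t x hx z hz

/-- Every holomorphic map `SG k → SG n`, `11 ≤ k < n`, for which `P_{f z}` is a product of factors of degrees `< 2 k - 8` with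
continuous coefficients, is constant. -/
theorem lin_factors {k n r : ℕ} (hk : 11 ≤ k) (hkn : k < n) {f : (Fin k → ℂ) → (Fin n → ℂ)}
    (hmap : Set.MapsTo f (SG k) (SG n)) (hf : HoloOn (SG k) f) (m : Fin r → ℕ) (hm : ∀ t, m t < 2 * k - 8)
    (h : (t : Fin r) → (Fin k → ℂ) → (Fin (m t) → ℂ)) (hc : ∀ t, ContinuousOn (h t) (SG k))
    (hp : ∀ z ∈ SG k, poly (f z) = ∏ t, poly (h t z)) : ∀ z ∈ SG k, ∀ z' ∈ SG k, f z = f z' := by
  have hd : ∀ z ∈ SG k, ∃ x, IsRoots x (f z) ∧ Function.Injective x := by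
    intro z hz
    obtain ⟨-, x, hr, hv⟩ := hmap hz
    refine ⟨x, hr, Pool.Agent.H60.OC.vd_ne_iff.1 fun h0 => ?_⟩
    rw [h0] at hv
    norm_num at hv
  obtain ⟨μ, hμc, hμ⟩ := lift_factors hk hd m hm h hc hp
  exact Pool.Agent.H60.OC.main_theorem (by omega) hkn hmap hf hμc hμ

end Pool.Agent.LR
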