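import Mathlib

/-!
# LR FamA: families of pairwise far generators at the level of the system

`Ext m s`: elements `s i a` (`i < m`, `a` an integer) with the relations `s_{j,a+1} s_{i,a} = s_{i,a+1} s_{j,a}` for
`i + 2 ≤ j` and `s_{i,a+2} s_{i+1,a+1} s_{i,a} = s_{i+1,a+2} s_{i,a+1} s_{i+1,a}`.

`Mv s K e j l`: `s_{l,a+e} K_a = K_{a+1} s_{j,a}` for all `a`.
-/

set_option autoImplicit false

namespace Pool.Agent.LR.Fam

/-- the relations of the system -/
structure Ext {G : Type*} [Group G] (m : ℕ) (s : ℕ → ℤ → G) : Prop where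
  far : ∀ i j, i + 2 ≤ j → j < m → ∀ a, s j (a + 1) * s i a = s i (a + 1) * s j a
  br : ∀ i, i + 1 < m → ∀ a, s i (a + 2) * s (i + 1) (a + 1) * s i a =
    s (i + 1) (a + 2) * s i (a + 1) * s (i + 1) a

variable {G : Type*} [Group G] {m : ℕ} {s : ℕ → ℤ → G}

/-- `K` moves `j` to `l` (and has degree `e`) -/
def Mv (s : ℕ → ℤ → G) (K : ℤ → G) (e : ℤ) (j l : ℕ) : Prop :=
  ∀ a, s l (a + e) * K a = K (a + 1) * s j a

theorem Mv.comp {K K' : ℤ → G} {e e' : ℤ} {i j l : ℕ} (h : Mv s K e i j) (h' : Mv s K' e' j l) :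
    Mv s (fun a => K' (a + e) * K a) (e + e') i l := by
  intro a
  show s l (a + (e + e')) * (K' (a + e) * K a) = K' (a + 1 + e) * K (a + 1) * s i a
  have h1 := h' (a + e)
  have h2 := h a
  rw [← mul_assoc, ← add_assoc, h1, mul_assoc, h2, ← mul_assoc, show a + e + 1 = a + 1 + e by ring]

theorem Mv.inv {K : ℤ → G} {e : ℤ} {j l : ℕ} (h : Mv s K e j l) :
    Mv s (fun a => (K (a - e))⁻¹) (-e) l j := by
  intro a
  show s j (a + -e) * (K (a - e))⁻¹ = (K (a + 1 - e))⁻¹ * s l a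
  have h1 := h (a - e)
  rw [show a - e + e = a by ring] at h1
  rw [mul_inv_eq_iff_eq_mul, mul_assoc, h1, show a - e + 1 = a + 1 - e by ring, ← mul_assoc,
    inv_mul_cancel, one_mul, show a + -e = a - e by ring]

theorem Mv.one (j : ℕ) : Mv s (fun _ => (1 : G)) 0 j j := by
  intro a
  simp

/-- the families `c` and `c'` are simultaneously conjugate -/
def Sim {ι : Type*} (s : ℕ → ℤ → G) (c c' : ι → ℕ) : Prop :=
  ∃ (K : ℤ → G) (e : ℤ), ∀ p, Mv s K e (c p) (c' p)

section sim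

variable {ι κ : Type*} {c c' c'' : ι → ℕ}

theorem Sim.refl (c : ι → ℕ) : Sim s c c := ⟨fun _ => 1, 0, fun _ => Mv.one _⟩

theorem Sim.symm (h : Sim s c c') : Sim s c' c := by
  obtain ⟨K, e, h⟩ := h
  exact ⟨_, _, fun p => (h p).inv⟩

theorem Sim.trans (h : Sim s c c') (h' : Sim s c' c'') : Sim s c c'' := by
  obtain ⟨K, e, h⟩ := h
  obtain ⟨K', e', h'⟩ := h'
  exact ⟨_, _, fun p => (h p).comp (h' p)⟩

theorem Sim.reindex (h : Sim s c c') (f : κ → ι) : Sim s (c ∘ f) (c' ∘ f) := by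
  obtain ⟨K, e, h⟩ := h
  exact ⟨K, e, fun p => h (f p)⟩

/-- `l` is far from or equal to all members of the family -/
def Near (m : ℕ) (l : ℕ) (c : ι → ℕ) : Prop :=
  l < m ∧ ∀ p, c p < m ∧ (c p = l ∨ c p + 2 ≤ l ∨ l + 2 ≤ c p)

theorem Ext.self (h : Ext m s) {j l : ℕ} (hj : j < m) (hl : l < m)
    (hjl : j = l ∨ j + 2 ≤ l ∨ l + 2 ≤ j) : Mv s (s l) 1 j j := by
  intro a
  rcases hjl with rfl | h1 | h1
  · rfl
  · exact (h.far j l h1 hl a).symm
  · exact h.far l j h1 hj a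

theorem Ext.down (h : Ext m s) {i : ℕ} (hi : i + 1 < m) :
    Mv s (fun a => s (i + 1) (a + 1) * s i a) 2 (i + 1) i := by
  intro a
  show s i (a + 2) * (s (i + 1) (a + 1) * s i a) = s (i + 1) (a + 1 + 1) * s i (a + 1) * s (i + 1) a
  rw [← mul_assoc, h.br i hi a, show a + 1 + 1 = a + 2 by ring]

theorem Ext.up (h : Ext m s) {i : ℕ} (hi : i + 1 < m) :
    Mv s (fun a => s i (a + 1) * s (i + 1) a) 2 i (i + 1) := by
  intro a
  show s (i + 1) (a + 2) * (s i (a + 1) * s (i + 1) a) = s i (a + 1 + 1) * s (i + 1) (a + 1) * s i a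
  rw [← mul_assoc, ← h.br i hi a, show a + 1 + 1 = a + 2 by ring]

/-- moving one member of the family down by one -/
theorem Ext.sim_down (h : Ext m s) {i : ℕ} (hi : i + 1 < m)
    (hc : ∀ p, c p < m ∧ ((c p = i + 1 ∧ c' p = i) ∨ (c' p = c p ∧ (c p + 2 ≤ i ∨ i + 3 ≤ c p)))) :
    Sim s c c' := by
  refine ⟨fun a => s (i + 1) (a + 1) * s i a, 2, fun p => ?_⟩
  obtain ⟨h0, ⟨h1, h2⟩ | ⟨h1, h2⟩⟩ := hc p
  · rw [h1, h2]
    exact h.down hi
  · rw [h1]
    have h3 := h.self (j := c p) (l := i) h0 (by omega) (by omega)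
    have h4 := h.self (j := c p) (l := i + 1) h0 hi (by omega)
    exact h3.comp h4

/-- the exchange of `i` and `i + 2` -/
theorem Ext.sim_swap (h : Ext m s) {i : ℕ} (hi : i + 2 < m)
    (hc : ∀ p, c p < m ∧ ((c p = i ∧ c' p = i + 2) ∨ (c p = i + 2 ∧ c' p = i) ∨
      (c' p = c p ∧ (c p + 2 ≤ i ∨ i + 4 ≤ c p)))) :
    Sim s c c' := by
  refine ⟨fun a => s (i + 1) (a + 2 + 1) * s i (a + 2) * (s (i + 2) (a + 1) * s (i + 1) a), 2 + 2,
    fun p => ?_⟩
  obtain ⟨h0, ⟨h1, h2⟩ | ⟨h1, h2⟩ | ⟨h1, h2⟩⟩ := hc p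
  · rw [h1, h2]
    have h3 := (h.up (i := i) (by omega)).comp (h.up (i := i + 1) (by omega))
    have h4 : (fun a : ℤ => s (i + 1) (a + 2 + 1) * s (i + 1 + 1) (a + 2) * (s i (a + 1) * s (i + 1) a)) =
        fun a => s (i + 1) (a + 2 + 1) * s i (a + 2) * (s (i + 2) (a + 1) * s (i + 1) a) := by
      funext a
      have h5 := h.far i (i + 2) le_rfl hi (a + 1)
      rw [show a + 1 + 1 = a + 2 by ring] at h5
      calc s (i + 1) (a + 2 + 1) * s (i + 1 + 1) (a + 2) * (s i (a + 1) * s (i + 1) a)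
          = s (i + 1) (a + 2 + 1) * (s (i + 2) (a + 2) * s i (a + 1)) * s (i + 1) a := by group
        _ = s (i + 1) (a + 2 + 1) * (s i (a + 2) * s (i + 2) (a + 1)) * s (i + 1) a := by rw [h5]
        _ = _ := by group
    rw [h4] at h3
    exact h3
  · rw [h1, h2]
    exact (h.down (i := i + 1) (by omega)).comp (h.down (i := i) (by omega))
  · rw [h1]
    have h3 := h.self (j := c p) (l := i) h0 (by omega) (by omega)
    have h4 := h.self (j := c p) (l := i + 1) h0 (by omega) (by omega)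
    have h5 := h.self (j := c p) (l := i + 2) h0 hi (by omega)
    have h6 := (h4.comp h5).comp (h3.comp h4)
    intro a
    have h7 := h6 a
    simp only at h7 ⊢
    rw [show a + 2 = a + (1 + 1) by ring, show (2 : ℤ) + 2 = 1 + 1 + (1 + 1) by ring,
      show a + (1 + 1) + 1 = a + (1 + 1) + 1 by ring]
    exact h7

/-- conjugation at a fixed level -/
theorem Ext.sim_level (h : Ext m s) (hs : Sim s c c') {l : ℕ} (hl : Near m l c') (a : ℤ) :
    ∃ κ κ' : G, ∀ p, κ' * s (c p) a = s (c' p) a * κ := by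
  obtain ⟨K, e, hK⟩ := hs
  have key : ∀ n : ℕ, ∃ κ κ' : G, ∀ p, κ' * s (c' p) (a + e) = s (c' p) (a + e + n) * κ := by
    intro n
    induction n with
    | zero => exact ⟨1, 1, fun p => by simp⟩
    | succ n ih =>
      obtain ⟨κ, κ', hk⟩ := ih
      refine ⟨s l (a + e + n) * κ, s l (a + e + n + 1) * κ', fun p => ?_⟩
      have h1 := h.self (hl.2 p).1 hl.1 (hl.2 p).2 (a + e + n)
      rw [mul_assoc, hk p, ← mul_assoc, ← h1, ← mul_assoc]
      push_cast
      rw [add_assoc (a + e)]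
  have key2 : ∀ n : ℕ, ∃ κ κ' : G, ∀ p, κ' * s (c' p) (a + e) = s (c' p) (a + e - n) * κ := by
    intro n
    induction n with
    | zero => exact ⟨1, 1, fun p => by simp⟩
    | succ n ih =>
      obtain ⟨κ, κ', hk⟩ := ih
      refine ⟨(s l (a + e - n - 1))⁻¹ * κ, (s l (a + e - n))⁻¹ * κ', fun p => ?_⟩
      have h1 := h.self (hl.2 p).1 hl.1 (hl.2 p).2 (a + e - n - 1)
      rw [show a + e - n - 1 + 1 = a + e - n by ring] at h1
      rw [mul_assoc, hk p, inv_mul_eq_iff_eq_mul]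
      push_cast
      rw [show a + e - ((n : ℤ) + 1) = a + e - n - 1 by ring, ← mul_assoc, ← mul_assoc, ← h1]
      group
  have key3 : ∃ κ κ' : G, ∀ p, κ' * s (c' p) (a + e) = s (c' p) a * κ := by
    rcases Int.eq_nat_or_neg e with ⟨n, hn | hn⟩
    · obtain ⟨κ, κ', hk⟩ := key2 n
      rw [← hn, show a + e - e = a by ring] at hk
      exact ⟨κ, κ', hk⟩
    · obtain ⟨κ, κ', hk⟩ := key n
      have : (n : ℤ) = -e := by omega
      rw [this, show a + e + -e = a by ring] at hk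
      exact ⟨κ, κ', hk⟩
  obtain ⟨κ, κ', hk⟩ := key3
  refine ⟨κ * K a, κ' * K (a + 1), fun p => ?_⟩
  rw [mul_assoc, ← hK p a, ← mul_assoc, hk p, ← mul_assoc]

end sim

theorem Ext.rev (h : Ext m s) : Ext m (fun i a => s (m - 1 - i) a) where
  far i j hij hj a := (h.far (m - 1 - j) (m - 1 - i) (by omega) (by omega) a).symm
  br i hi a := by
    have := h.br (m - 1 - (i + 1)) (by omega) a
    rw [show m - 1 - (i + 1) + 1 = m - 1 - i by omega] at this
    exact this.symm

/-- the even family is symmetric -/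
theorem Ext.sim_perm (h : Ext m s) {q : ℕ} (hq : 2 * q < m) (π : Equiv.Perm (Fin (q + 1))) :
    Sim s (fun p : Fin (q + 1) => 2 * (p : ℕ)) (fun p => 2 * (π p : ℕ)) := by
  let M : Submonoid (Equiv.Perm (Fin (q + 1))) :=
    { carrier := {π | Sim s (fun p : Fin (q + 1) => 2 * (p : ℕ)) (fun p => 2 * (π p : ℕ))}
      mul_mem' := by
        intro a b ha hb
        have h1 := Sim.reindex ha b
        exact Sim.trans hb h1
      one_mem' := Sim.refl _ }
  have h1 : Submonoid.closure (Set.range fun i : Fin q ↦ Equiv.swap i.castSucc i.succ) ≤ M := by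
    rw [Submonoid.closure_le]
    rintro _ ⟨i, rfl⟩
    show Sim s _ _
    apply h.sim_swap (i := 2 * (i : ℕ)) (by have := i.2; omega)
    intro p
    have hp := p.2
    refine ⟨by omega, ?_⟩
    rcases eq_or_ne p i.castSucc with rfl | h2
    · left
      show 2 * ((i.castSucc : Fin (q + 1)) : ℕ) = 2 * (i : ℕ) ∧
        2 * ((Equiv.swap i.castSucc i.succ i.castSucc : Fin (q + 1)) : ℕ) = 2 * (i : ℕ) + 2
      rw [Equiv.swap_apply_left, Fin.val_castSucc, Fin.val_succ]
      omega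
    · rcases eq_or_ne p i.succ with rfl | h3
      · right; left
        show 2 * ((i.succ : Fin (q + 1)) : ℕ) = 2 * (i : ℕ) + 2 ∧
          2 * ((Equiv.swap i.castSucc i.succ i.succ : Fin (q + 1)) : ℕ) = 2 * (i : ℕ)
        rw [Equiv.swap_apply_right, Fin.val_castSucc, Fin.val_succ]
        omega
      · right; right
        rw [Equiv.swap_apply_of_ne_of_ne h2 h3]
        refine ⟨rfl, ?_⟩
        have h4 : (p : ℕ) ≠ i := fun h5 => h2 (Fin.ext (by simpa using h5))
        have h5 : (p : ℕ) ≠ i + 1 := fun h5 => h3 (Fin.ext (by simpa using h5))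
        omega
  rw [Equiv.Perm.mclosure_swap_castSucc_succ] at h1
  exact h1 (Submonoid.mem_top π)

/-- a far quadruple is conjugate to `(0, 2, 4, 6)` -/
theorem Ext.sim_four (h : Ext m s) {i j l n : ℕ} (hij : i + 2 ≤ j) (hjl : j + 2 ≤ l) (hln : l + 2 ≤ n)
    (hn : n < m) : Sim s ![i, j, l, n] ![0, 2, 4, 6] := by
  have h1 : ∀ i, i + 2 ≤ j → Sim s ![i, j, l, n] ![0, j, l, n] := by
    intro i
    induction i with
    | zero => intro _; exact Sim.refl _
    | succ i ih =>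
      intro hi
      refine Sim.trans (h.sim_down (i := i) (by omega) (c' := ![i, j, l, n]) ?_) (ih (by omega))
      intro p
      fin_cases p <;> simp <;> omega
  have h2 : ∀ d, 2 + d + 2 ≤ l → Sim s ![0, 2 + d, l, n] ![0, 2, l, n] := by
    intro d
    induction d with
    | zero => intro _; exact Sim.refl _
    | succ d ih =>
      intro hi
      refine Sim.trans (h.sim_down (i := 2 + d) (by omega) (c' := ![0, 2 + d, l, n]) ?_) (ih (by omega))
      intro p
      fin_cases p <;> simp <;> omega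
  have h3 : ∀ d, 4 + d + 2 ≤ n → Sim s ![0, 2, 4 + d, n] ![0, 2, 4, n] := by
    intro d
    induction d with
    | zero => intro _; exact Sim.refl _
    | succ d ih =>
      intro hi
      refine Sim.trans (h.sim_down (i := 4 + d) (by omega) (c' := ![0, 2, 4 + d, n]) ?_) (ih (by omega))
      intro p
      fin_cases p <;> simp <;> omega
  have h4 : ∀ d, 6 + d < m → Sim s ![0, 2, 4, 6 + d] ![0, 2, 4, 6] := by
    intro d
    induction d with
    | zero => intro _; exact Sim.refl _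
    | succ d ih =>
      intro hi
      refine Sim.trans (h.sim_down (i := 6 + d) (by omega) (c' := ![0, 2, 4, 6 + d]) ?_) (ih (by omega))
      intro p
      fin_cases p <;> simp <;> omega
  obtain ⟨d2, rfl⟩ : ∃ d, j = 2 + d := ⟨j - 2, by omega⟩
  obtain ⟨d3, rfl⟩ : ∃ d, l = 4 + d := ⟨l - 4, by omega⟩
  obtain ⟨d4, rfl⟩ : ∃ d, n = 6 + d := ⟨n - 6, by omega⟩
  exact (h1 i hij).trans ((h2 d2 (by omega)).trans ((h3 d3 (by omega)).trans (h4 d4 (by omega))))

end Pool.Agent.LR.Fam
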