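import Pool.Agent.LR.GrpA

/-!
# Homomorphisms from braid groups to small symmetric groups, part B: action on the cycles
-/

set_option autoImplicit false

namespace Pool.Agent.LR.Grp

open Equiv Equiv.Perm Equiv.Perm.OnCycleFactors

variable {α : Type*} [Fintype α] [DecidableEq α]

/-- two permutations which commute with all cycles of `φ` commute on the support of `φ` -/
theorem comm_on_support (φ h h' : Perm α) (hh : ∀ c ∈ φ.cycleFactorsFinset, Commute h c)
    (hh' : ∀ c ∈ φ.cycleFactorsFinset, Commute h' c) (x : α) (hx : φ x ≠ x) :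
    h (h' x) = h' (h x) := by
  have hc : φ.cycleOf x ∈ φ.cycleFactorsFinset := by
    rw [cycleOf_mem_cycleFactorsFinset_iff, mem_support]; exact hx
  obtain ⟨c, hcdef⟩ : ∃ c, c = φ.cycleOf x := ⟨_, rfl⟩
  rw [← hcdef] at hc
  have hcyc : c.IsCycle := (mem_cycleFactorsFinset_iff.mp hc).1
  have hcx : c x ≠ x := by
    rw [hcdef, cycleOf_apply_self]; exact hx
  have h1 := hh c hc
  have h1' := hh' c hc
  have step : ∀ k : Perm α, Commute k c → ∃ n : ℤ, (c ^ n) x = k x := by
    intro k hk
    have : c (k x) ≠ k x := by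
      intro he
      apply hcx
      have h2 : k (c x) = c (k x) := by
        have := congrArg (fun p : Perm α => p x) hk.eq
        simpa using this
      rw [he] at h2
      exact k.injective h2
    exact hcyc.exists_zpow_eq hcx this
  obtain ⟨n, hn⟩ := step h h1
  obtain ⟨n', hn'⟩ := step h' h1'
  have ap : ∀ (k : Perm α) (e : ℤ), Commute k c → k ((c ^ e) x) = (c ^ e) (k x) := by
    intro k e hk
    have := congrArg (fun p : Perm α => p x) (hk.zpow_right e).eq
    simpa using this
  calc h (h' x) = h ((c ^ n') x) := by rw [hn']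
    _ = (c ^ n') (h x) := ap h n' h1
    _ = (c ^ n') ((c ^ n) x) := by rw [hn]
    _ = (c ^ n) ((c ^ n') x) := by
        rw [← mul_apply, ← mul_apply, ← zpow_add, ← zpow_add, add_comm]
    _ = (c ^ n) (h' x) := by rw [hn']
    _ = h' ((c ^ n) x) := (ap h' n h1').symm
    _ = h' (h x) := by rw [hn]

/-- the restriction of the centralizer of `φ` to the points moved by `φ` -/
def restr (φ : Perm α) : Subgroup.centralizer {φ} →* Perm {x // φ x ≠ x} where
  toFun k := (k : Perm α).subtypePerm (fun x => by
    have hk : (k : Perm α) * φ = φ * k := (Subgroup.mem_centralizer_singleton_iff.mp k.2)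
    have h2 : φ ((k : Perm α) x) = (k : Perm α) (φ x) := by
      have := congrArg (fun p : Perm α => p x) hk
      simpa using this.symm
    rw [h2]
    simp)
  map_one' := by ext x; simp
  map_mul' a b := by ext x; simp

omit [Fintype α] [DecidableEq α] in
theorem restr_apply (φ : Perm α) (k : Subgroup.centralizer {φ}) (x : {x // φ x ≠ x}) :
    ((restr φ k x : {x // φ x ≠ x}) : α) = (k : Perm α) x := rfl

/-- the number of nontrivial cycles -/
theorem two_mul_card_cycles_le (φ : Perm α) :
    2 * Fintype.card φ.cycleFactorsFinset ≤ Fintype.card α := by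
  have h1 : Fintype.card φ.cycleFactorsFinset = Multiset.card φ.cycleType := by
    rw [Fintype.card_coe, cycleType_def, Multiset.card_map]; rfl
  have h2 : Multiset.card φ.cycleType * 2 ≤ φ.cycleType.sum :=
    Multiset.card_nsmul_le_sum (fun n hn => two_le_of_mem_cycleType hn) |>.trans_eq' (by simp)
  have h3 := sum_cycleType_le φ
  omega

/-- all generators agree, for all families of braid generators in the permutations of a type
with `n` elements -/
def AllEq (r : ℕ) (β : Type*) [Fintype β] [DecidableEq β] : Prop :=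
  ∀ g : ℕ → Perm β, Br r g → ∀ i, i < r → g i = g 0

/-- MAIN STEP: if the generators which commute with `g 0` act in the same way on the set of
cycles of `g 0`, they agree on the points moved by `g 0` -/
theorem step {r : ℕ} (hr : 6 ≤ r) {g : ℕ → Perm α} (h : Br r g)
    (hcyc : AllEq (r - 2) (g 0).cycleFactorsFinset) :
    ∀ x, g 0 x ≠ x → ∀ j, 2 ≤ j → j < r → g j x = g 2 x := by
  classical
  have hmem : ∀ j, 2 ≤ j → j < r → g j ∈ Subgroup.centralizer {g 0} := by
    intro j hj hjr
    rw [Subgroup.mem_centralizer_singleton_iff]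
    exact (h.comm 0 j (by omega) hjr).symm
  let k : ℕ → Subgroup.centralizer {g 0} := fun j =>
    if hj : j + 2 < r then ⟨g (j + 2), hmem (j + 2) (by omega) hj⟩ else 1
  have hk : ∀ j, j + 2 < r → ((k j : Subgroup.centralizer {g 0}) : Perm α) = g (j + 2) := by
    intro j hj
    simp only [k, dif_pos hj]
  have hkBr : Br (r - 2) k := by
    constructor
    · intro i j hij hj
      apply Subtype.ext
      rw [Subgroup.coe_mul, Subgroup.coe_mul, hk i (by omega), hk j (by omega)]
      exact h.comm _ _ (by omega) (by omega)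
    · intro i hi
      apply Subtype.ext
      simp only [Subgroup.coe_mul]
      rw [hk i (by omega), hk (i + 1) (by omega)]
      have := h.braid (i + 2) (by omega)
      rw [show i + 2 + 1 = i + 1 + 2 by omega] at this
      exact this
  have hP := hcyc (fun j => toPermHom (g 0) (k j)) (hkBr.map _)
  have hR := hkBr.map (restr (g 0))
  -- the set of commuting elements
  let N : Set (Perm {x // g 0 x ≠ x}) := (restr (g 0)) '' ((toPermHom (g 0)).ker : Set _)
  have hNcomm : ∀ a ∈ N, ∀ b ∈ N, a * b = b * a := by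
    rintro _ ⟨a, ha, rfl⟩ _ ⟨b, hb, rfl⟩
    ext x
    simp only [Perm.mul_apply, restr_apply]
    exact comm_on_support (g 0) _ _ ((mem_ker_toPermHom_iff (g 0) a).mp ha)
      ((mem_ker_toPermHom_iff (g 0) b).mp hb) x.1 x.2
  have hdiff : ∀ i, i < r - 2 → restr (g 0) (k i) * (restr (g 0) (k 0))⁻¹ ∈ N := by
    intro i hi
    refine ⟨k i * (k 0)⁻¹, ?_, by rw [map_mul, map_inv]⟩
    rw [SetLike.mem_coe, MonoidHom.mem_ker, map_mul, map_inv, hP i hi, mul_inv_cancel]
  have hconj : ∀ a ∈ N, restr (g 0) (k 0) * a * (restr (g 0) (k 0))⁻¹ ∈ N := by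
    rintro _ ⟨a, ha, rfl⟩
    refine ⟨k 0 * a * (k 0)⁻¹, ?_, by simp only [map_mul, map_inv]⟩
    exact (MonoidHom.normal_ker (toPermHom (g 0))).conj_mem a ha (k 0)
  have e02 : restr (g 0) (k 0) = restr (g 0) (k 2) :=
    key_eq hNcomm (x := restr (g 0) (k 0)) (y := restr (g 0) (k 1)) (z := restr (g 0) (k 2))
      hconj (hdiff 1 (by omega)) (hdiff 2 (by omega)) (hR.comm 0 2 (by omega) (by omega))
      (hR.braid 0 (by omega)) (hR.braid 1 (by omega))
  have hall := hR.all_eq_of_02 (by omega) e02
  intro x hx j hj hjr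
  have h1 := hall (j - 2) (by omega)
  have h2 := congrArg (fun p : Perm {x // g 0 x ≠ x} => ((p ⟨x, hx⟩ : {x // g 0 x ≠ x}) : α)) h1
  simp only [restr_apply] at h2
  rw [hk (j - 2) (by omega), hk 0 (by omega), show j - 2 + 2 = j by omega] at h2
  exact h2

end Pool.Agent.LR.Grp
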