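import Pool.Agent.LR.GrpB

/-!
# Homomorphisms from braid groups to small symmetric groups, part C: counting
-/

set_option autoImplicit false

namespace Pool.Agent.LR.Grp

open Equiv Equiv.Perm

variable {α : Type*} [Fintype α] [DecidableEq α]

omit [Fintype α] [DecidableEq α] in
theorem mem_iff_of_maps (E : Finset α) (p : Perm α) (h : ∀ x ∈ E, p x ∈ E) (x : α) :
    p x ∈ E ↔ x ∈ E := by
  have h1 : E.map p.toEmbedding = E := by
    apply Finset.eq_of_subset_of_card_le
    · intro y hy
      obtain ⟨z, hz, rfl⟩ := Finset.mem_map.mp hy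
      exact h z hz
    · rw [Finset.card_map]
  constructor
  · intro hx
    rw [← h1] at hx
    obtain ⟨z, hz, hzx⟩ := Finset.mem_map.mp hx
    rwa [← p.injective hzx]
  · exact h x

/-- the data of the counting argument -/
structure Dat (r : ℕ) (g : ℕ → Perm α) : Prop where
  br : Br r g
  hr : 5 ≤ r
  left : ∀ x, g 0 x ≠ x → ∀ j, 2 ≤ j → j < r → g j x = g 2 x
  right : ∀ x, g (r - 1) x ≠ x → ∀ j, j + 3 ≤ r → g j x = g (r - 3) x

variable {r : ℕ} {g : ℕ → Perm α}

omit [Fintype α] [DecidableEq α] in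
theorem delta_apply (h : Br r g) {i : ℕ} (hi : i + 1 < r) (x : α) :
    g (i + 1) (delta g r x) = delta g r (g i x) := by
  have := congrArg (fun p : Perm α => p x) (delta_conj h r le_rfl i hi)
  simpa using this.symm

omit [Fintype α] [DecidableEq α] in
theorem Dat.T (d : Dat r g) (i : ℕ) : ∀ x, g i x ≠ x → ∀ j j', i + 2 ≤ j → j < r →
    i + 2 ≤ j' → j' < r → g j x = g j' x := by
  induction i with
  | zero =>
    intro x hx j j' h1 h2 h3 h4
    rw [d.left x hx j (by omega) h2, d.left x hx j' (by omega) h4]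
  | succ i ih =>
    intro x hx j j' h1 h2 h3 h4
    obtain ⟨y, rfl⟩ : ∃ y, x = delta g r y := ⟨(delta g r)⁻¹ x, by simp⟩
    rw [delta_apply d.br (by omega)] at hx
    have hy : g i y ≠ y := fun h => hx (by rw [h])
    obtain ⟨j, rfl⟩ : ∃ k, j = k + 1 := ⟨j - 1, by omega⟩
    obtain ⟨j', rfl⟩ : ∃ k, j' = k + 1 := ⟨j' - 1, by omega⟩
    rw [delta_apply d.br (by omega), delta_apply d.br (by omega),
      ih y hy j j' (by omega) (by omega) (by omega) (by omega)]

/-- the points moved in the same way by all generators -/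
def E (r : ℕ) (g : ℕ → Perm α) : Finset α :=
  Finset.univ.filter (fun x => g 0 x ≠ x ∧ ∀ l, l < r → g l x = g 0 x)

theorem mem_E {x : α} : x ∈ E r g ↔ g 0 x ≠ x ∧ ∀ l, l < r → g l x = g 0 x := by
  simp [E]

theorem Dat.inter (d : Dat r g) {i j : ℕ} (hij : i + 2 ≤ j) (hj : j < r) {x : α}
    (hi : g i x ≠ x) (hjx : g j x ≠ x) : x ∈ E r g := by
  have hr := d.hr
  have h1 : g j x = g (r - 1) x := d.T i x hi j (r - 1) hij hj (by omega) (by omega)
  have h2 : g (r - 1) x ≠ x := by rwa [← h1]
  have h3 := d.right x h2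
  have h4 : g 0 x = g i x := by rw [h3 0 (by omega), h3 i (by omega)]
  have h5 : g 0 x ≠ x := by rwa [h4]
  have h6 := d.left x h5
  have h7 : g 2 x = g 0 x := by rw [h3 0 (by omega), h3 2 (by omega)]
  rw [mem_E]
  refine ⟨h5, fun l hl => ?_⟩
  by_cases hl2 : 2 ≤ l
  · rw [h6 l hl2 hl, h7]
  · rw [h3 0 (by omega), h3 l (by omega)]

theorem Dat.E_maps (d : Dat r g) {l : ℕ} (hl : l < r) : ∀ x ∈ E r g, g l x ∈ E r g := by
  intro x hx
  have hr := d.hr
  rw [mem_E] at hx
  rw [hx.2 l hl]
  have h0 : g 0 (g 0 x) ≠ g 0 x := fun h => hx.1 ((g 0).injective h)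
  have h2 : g 2 (g 0 x) ≠ g 0 x := by
    have h3 := hx.2 2 (by omega)
    rw [← h3]
    intro h
    have h4 := (g 2).injective h
    rw [h3] at h4
    exact hx.1 h4
  exact d.inter (i := 0) (j := 2) (by omega) (by omega) h0 h2

theorem Dat.mem_E_apply (d : Dat r g) {l : ℕ} (hl : l < r) (x : α) :
    g l x ∈ E r g ↔ x ∈ E r g := mem_iff_of_maps _ _ (d.E_maps hl) x

theorem Dat.E_delta (d : Dat r g) : ∀ n, n ≤ r → ∀ x ∈ E r g, delta g n x ∈ E r g := by
  intro n
  induction n with
  | zero => intro _ x hx; simpa [delta] using hx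
  | succ n ih =>
    intro hn x hx
    rw [delta, Perm.mul_apply]
    exact ih (by omega) _ (d.E_maps (by omega) x hx)

theorem Dat.mem_E_delta (d : Dat r g) (x : α) :
    delta g r x ∈ E r g ↔ x ∈ E r g := mem_iff_of_maps _ _ (d.E_delta r le_rfl) x

/-- the points moved by `g i` outside `E` -/
def B (r : ℕ) (g : ℕ → Perm α) (i : ℕ) : Finset α :=
  Finset.univ.filter (fun x => g i x ≠ x ∧ x ∉ E r g)

theorem mem_B {i : ℕ} {x : α} : x ∈ B r g i ↔ g i x ≠ x ∧ x ∉ E r g := by
  simp [B]

theorem Dat.disj (d : Dat r g) {i j : ℕ} (hij : i + 2 ≤ j) (hj : j < r) :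
    Disjoint (B r g i) (B r g j) := by
  rw [Finset.disjoint_left]
  intro x hx hx'
  rw [mem_B] at hx hx'
  exact hx.2 (d.inter hij hj hx.1 hx'.1)

theorem Dat.map_B (d : Dat r g) {i : ℕ} (hi : i + 1 < r) :
    (B r g i).map (delta g r).toEmbedding = B r g (i + 1) := by
  ext x
  rw [Finset.mem_map]
  constructor
  · rintro ⟨y, hy, rfl⟩
    rw [mem_B] at hy
    change delta g r y ∈ _
    rw [mem_B, delta_apply d.br hi, d.mem_E_delta]
    exact ⟨fun h => hy.1 ((delta g r).injective h), hy.2⟩
  · intro hx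
    obtain ⟨y, rfl⟩ : ∃ y, x = delta g r y := ⟨(delta g r)⁻¹ x, by simp⟩
    refine ⟨y, ?_, rfl⟩
    rw [mem_B, delta_apply d.br hi, d.mem_E_delta] at hx
    rw [mem_B]
    exact ⟨fun h => hx.1 (by rw [h]), hx.2⟩

theorem Dat.card_B (d : Dat r g) : ∀ i, i < r → (B r g i).card = (B r g 0).card := by
  intro i
  induction i with
  | zero => intro _; rfl
  | succ i ih =>
    intro hi
    rw [← d.map_B hi, Finset.card_map, ih (by omega)]

theorem Dat.card_inter (d : Dat r g) : ∀ i, i + 1 < r →
    (B r g i ∩ B r g (i + 1)).card = (B r g 0 ∩ B r g 1).card := by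
  intro i
  induction i with
  | zero => intro _; rfl
  | succ i ih =>
    intro hi
    rw [← d.map_B (i := i) (by omega), ← d.map_B (i := i + 1) (by omega), ← Finset.map_inter,
      Finset.card_map, ih (by omega)]

theorem Dat.two_mul_inter (d : Dat r g) :
    2 * (B r g 0 ∩ B r g 1).card ≤ (B r g 0).card := by
  have hr := d.hr
  have h1 := d.card_inter 1 (by omega)
  have h2 : Disjoint (B r g 0 ∩ B r g 1) (B r g 1 ∩ B r g 2) := by
    have := d.disj (i := 0) (j := 2) (by omega) (by omega)
    exact Finset.disjoint_of_subset_left Finset.inter_subset_left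
      (Finset.disjoint_of_subset_right Finset.inter_subset_right this)
  have h3 : (B r g 0 ∩ B r g 1) ∪ (B r g 1 ∩ B r g 2) ⊆ B r g 1 :=
    Finset.union_subset Finset.inter_subset_right Finset.inter_subset_left
  have h4 := Finset.card_le_card h3
  rw [Finset.card_union_of_disjoint h2, d.card_B 1 (by omega)] at h4
  have h5 : (B r g 1 ∩ B r g 2).card = (B r g 0 ∩ B r g 1).card := h1
  omega

theorem Dat.growth (d : Dat r g) : ∀ s, s < r →
    (B r g 0).card + s * ((B r g 0).card - (B r g 0 ∩ B r g 1).card) ≤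
      ((Finset.range (s + 1)).biUnion (B r g)).card := by
  intro s
  induction s with
  | zero => intro _; simp
  | succ s ih =>
    intro hs
    have h1 := ih (by omega)
    have h2 : (Finset.range (s + 1)).biUnion (B r g) ∪ (B r g (s + 1) \ B r g s) ⊆
        (Finset.range (s + 1 + 1)).biUnion (B r g) := by
      apply Finset.union_subset
      · exact Finset.biUnion_subset_biUnion_of_subset_left _
          (Finset.range_subset_range.mpr (by omega))
      · intro x hx
        rw [Finset.mem_biUnion]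
        exact ⟨s + 1, Finset.mem_range.mpr (by omega), (Finset.mem_sdiff.mp hx).1⟩
    have h3 : Disjoint ((Finset.range (s + 1)).biUnion (B r g)) (B r g (s + 1) \ B r g s) := by
      rw [Finset.disjoint_left]
      intro x hx hx'
      obtain ⟨i, hi, hix⟩ := Finset.mem_biUnion.mp hx
      have hi' := Finset.mem_range.mp hi
      obtain ⟨h5, h6⟩ := Finset.mem_sdiff.mp hx'
      by_cases his : i = s
      · subst his; exact h6 hix
      · exact (Finset.disjoint_left.mp (d.disj (i := i) (j := s + 1) (by omega) hs)) hix h5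
    have h4 : (B r g (s + 1) \ B r g s).card =
        (B r g 0).card - (B r g 0 ∩ B r g 1).card := by
      rw [Finset.card_sdiff, d.card_B (s + 1) hs, d.card_inter s hs]
    have h5 := Finset.card_le_card h2
    rw [Finset.card_union_of_disjoint h3, h4] at h5
    have h6 : (s + 1) * ((B r g 0).card - (B r g 0 ∩ B r g 1).card) =
        s * ((B r g 0).card - (B r g 0 ∩ B r g 1).card) +
          ((B r g 0).card - (B r g 0 ∩ B r g 1).card) := by ring
    omega

theorem Dat.mem_B_apply (d : Dat r g) {i : ℕ} (hi : i < r) {x : α} (hx : x ∈ B r g i) :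
    g i x ∈ B r g i := by
  rw [mem_B] at hx ⊢
  rw [d.mem_E_apply hi]
  exact ⟨fun h => hx.1 ((g i).injective h), hx.2⟩

theorem Dat.card_ne_one (d : Dat r g) : (B r g 0).card ≠ 1 := by
  intro h
  obtain ⟨x, hx⟩ := Finset.card_eq_one.mp h
  have hr := d.hr
  have h1 : x ∈ B r g 0 := by rw [hx]; simp
  have h2 := d.mem_B_apply (by omega) h1
  rw [hx, Finset.mem_singleton] at h2
  exact (mem_B.mp h1).1 h2

/-- few points: all generators agree -/
theorem Dat.all_eq (d : Dat r g) (hn : Fintype.card α ≤ r) : ∀ i, i < r → g i = g 0 := by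
  have hr := d.hr
  have h1 := d.growth (r - 1) (by omega)
  have h2 := Finset.card_le_univ ((Finset.range (r - 1 + 1)).biUnion (B r g))
  have h3 := d.two_mul_inter
  have h4 := d.card_ne_one
  have h0 : (B r g 0).card = 0 := by
    by_contra h5
    have h6 : 1 ≤ (B r g 0).card - (B r g 0 ∩ B r g 1).card := by omega
    have h7 := Nat.mul_le_mul_left (r - 1) h6
    omega
  intro i hi
  ext x
  by_cases hx : x ∈ E r g
  · exact (mem_E.mp hx).2 i hi
  · have key : ∀ j, j < r → g j x = x := by
      intro j hj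
      by_contra h5
      have h6 : x ∈ B r g j := mem_B.mpr ⟨h5, hx⟩
      have h7 := d.card_B j hj
      rw [h0, Finset.card_eq_zero] at h7
      rw [h7] at h6
      exact absurd h6 (Finset.notMem_empty x)
    rw [key i hi, key 0 (by omega)]

/-- not too many points: all squares agree -/
theorem Dat.sq_eq (d : Dat r g) (hn : Fintype.card α < 2 * (r - 1)) :
    ∀ i, i < r → ∀ j, j < r → g i * g i = g j * g j := by
  have hr := d.hr
  have h1 := d.growth (r - 1) (by omega)
  have h2 := Finset.card_le_univ ((Finset.range (r - 1 + 1)).biUnion (B r g))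
  have h3 := d.two_mul_inter
  have h0 : (B r g 0).card ≤ 2 := by
    by_contra h5
    have h6 : 2 ≤ (B r g 0).card - (B r g 0 ∩ B r g 1).card := by omega
    have h7 := Nat.mul_le_mul_left (r - 1) h6
    omega
  have key : ∀ i, i < r → ∀ x, x ∉ E r g → g i (g i x) = x := by
    intro i hi x hx
    by_cases h5 : g i x = x
    · rw [h5, h5]
    · have h6 : x ∈ B r g i := mem_B.mpr ⟨h5, hx⟩
      have h7 := d.mem_B_apply hi h6
      have h8 := d.mem_B_apply hi h7
      by_contra h9
      have h10 : ({x, g i x, g i (g i x)} : Finset α) ⊆ B r g i := by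
        intro y hy
        simp only [Finset.mem_insert, Finset.mem_singleton] at hy
        rcases hy with rfl | rfl | rfl
        · exact h6
        · exact h7
        · exact h8
      have h11 := Finset.card_le_card h10
      rw [d.card_B i hi] at h11
      have h12 : ({x, g i x, g i (g i x)} : Finset α).card = 3 := by
        apply Finset.card_eq_three.mpr
        exact ⟨x, g i x, g i (g i x), fun h => h5 h.symm, fun h => h9 h.symm,
          fun h => h5 ((g i).injective h.symm), rfl⟩
      omega
  intro i hi j hj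
  ext x
  rw [Perm.mul_apply, Perm.mul_apply]
  by_cases hx : x ∈ E r g
  · have h5 := (mem_E.mp hx).2
    have h6 := (mem_E.mp (d.E_maps (l := 0) (by omega) x hx)).2
    rw [h5 i hi, h5 j hj, h6 i hi, h6 j hj]
  · rw [key i hi x hx, key j hj x hx]

end Pool.Agent.LR.Grp
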