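import Pool.Agent.LR.Sq

/-!
# LR Pat: the even generators of a braid group acting on few points

`EqAll.pat`: induction on `r`.  `r = 0`: `EqAll.fact` (the moved points are fewer than `2 N`), with `2 s = i + 2`, `s ≥ 1`.
`r → r + 1`: let `τ = φ (2r+1) * φ (2r) * φ (2r+2) * φ (2r+1)`; `BraidRel.tau_lo`, `tau_hi`, `tau_far` (with `i = 2 r`): `τ φ(2r) = φ(2r+2) τ`,
`τ φ(2r+2) = φ(2r) τ`, `τ φ(2s) = φ(2s) τ` for `s ≠ r, r + 1`.  Apply the case `r` to the point `y` with `τ y = x`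
(`φ (2r+2) x ≠ x` gives `φ (2r) y ≠ y`): for `s ≠ r + 1` put `s' = s` if `s ≠ r`, `s' = r + 1` if `s = r`; then `s' ≠ r` and
`φ (2s) x = τ (φ (2s') y)`.

`TT_card`: the sets `TT φ m r`, `r ≤ m / 2`, are pairwise disjoint (a point of `TT r` is moved by `φ (2r)`, a point of `TT s`,
`s ≠ r`, is fixed by it), and `τ` (as above) maps `TT r` bijectively onto `TT (r+1)`; so all have the same cardinality
(`Nat.card_congr`), and `(m / 2 + 1) * |TT 0| ≤ |α|` (injective map `Σ r : Fin (m/2+1), TT r → α`, `Nat.card_sigma`).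
-/

set_option autoImplicit false

open Equiv

namespace Pool.Agent.LR

/-- The transposition of `r` and `r + 1` on the natural numbers, as a function. -/
private def pat_sw (r s : ℕ) : ℕ := if s = r then r + 1 else if s = r + 1 then r else s

private theorem pat_sw_sw (r s : ℕ) : pat_sw r (pat_sw r s) = s := by
  unfold pat_sw
  split_ifs <;> omega

private theorem pat_sw_ne {r s : ℕ} (h : s ≠ r + 1) : pat_sw r s ≠ r := by
  unfold pat_sw
  split_ifs <;> omega

private theorem pat_sw_ne' {r s : ℕ} (h : s ≠ r) : pat_sw r s ≠ r + 1 := by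
  unfold pat_sw
  split_ifs <;> omega

private theorem pat_sw_lt {r s m : ℕ} (hr : 2 * (r + 1) + 1 < m) (h : 2 * s + 1 < m) : 2 * pat_sw r s + 1 < m := by
  unfold pat_sw
  split_ifs <;> omega

/-- The element `τ`. -/
private def pat_tau {G : Type*} [Group G] (φ : ℕ → G) (r : ℕ) : G :=
  φ (2 * r + 1) * φ (2 * r) * φ (2 * r + 2) * φ (2 * r + 1)

private theorem pat_tau_mul {G : Type*} [Group G] {φ : ℕ → G} {m : ℕ} (hφ : BraidRel m φ) {r : ℕ}
    (hr : 2 * (r + 1) + 1 < m) (s : ℕ) (hs : 2 * s + 1 < m) :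
    pat_tau φ r * φ (2 * pat_sw r s) = φ (2 * s) * pat_tau φ r := by
  unfold pat_tau pat_sw
  split_ifs with h1 h2
  · subst h1
    exact hφ.tau_hi (i := 2 * s) (by omega)
  · subst h2
    exact hφ.tau_lo (i := 2 * r) (by omega)
  · exact hφ.tau_far (i := 2 * r) (j := 2 * s) (by omega) hs (by omega)

private theorem pat_tau_apply {α : Type} {φ : ℕ → Perm α} {m : ℕ} (hφ : BraidRel m φ) {r : ℕ}
    (hr : 2 * (r + 1) + 1 < m) (s : ℕ) (hs : 2 * s + 1 < m) (y : α) :
    φ (2 * s) (pat_tau φ r y) = pat_tau φ r (φ (2 * pat_sw r s) y) :=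
  (congrArg (fun e : Perm α => e y) (pat_tau_mul hφ hr s hs)).symm

theorem EqAll.pat {m N : ℕ} (h : EqAll m N) (hm : 5 ≤ m) {α : Type} [Finite α] {φ : ℕ → Perm α}
    (hφ : BraidRel (m + 2) φ) (hc : Nat.card α < 2 * N) :
    ∀ r, 2 * r + 1 < m + 2 → ∀ x, φ (2 * r) x ≠ x → ∀ s t, s ≠ r → t ≠ r → 2 * s + 1 < m + 2 → 2 * t + 1 < m + 2 →
      φ (2 * s) x = φ (2 * t) x := by
  intro r
  induction r with
  | zero =>
    intro _ x hx s t hs ht hs' ht'
    have hc' : Nat.card {x // φ 0 x ≠ x} < 2 * N :=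
      lt_of_le_of_lt (Nat.card_le_card_of_injective _ Subtype.val_injective) hc
    have key := h.fact hm hφ hc' x hx
    have h1 := key (2 * s - 2) (by omega)
    have h2 := key (2 * t - 2) (by omega)
    rw [show 2 * s - 2 + 2 = 2 * s by omega] at h1
    rw [show 2 * t - 2 + 2 = 2 * t by omega] at h2
    rw [h1, h2]
  | succ r ih =>
    intro hr x hx s t hs ht hs' ht'
    obtain ⟨y, rfl⟩ := (pat_tau φ r).surjective x
    have h1 := pat_tau_apply hφ hr (r + 1) hr y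
    have h2 : pat_sw r (r + 1) = r := by
      unfold pat_sw
      split_ifs <;> omega
    rw [h2] at h1
    have hy : φ (2 * r) y ≠ y := fun h3 => hx (by rw [h1, h3])
    rw [pat_tau_apply hφ hr s hs' y, pat_tau_apply hφ hr t ht' y,
      ih (by omega) y hy _ _ (pat_sw_ne hs) (pat_sw_ne ht) (pat_sw_lt hr hs') (pat_sw_lt hr ht')]

/-- The points moved by `φ (2 r)` and by no other even generator. -/
def TT {α : Type} (φ : ℕ → Perm α) (m r : ℕ) : Set α :=
  {x | φ (2 * r) x ≠ x ∧ ∀ s, s ≠ r → 2 * s + 1 < m + 2 → φ (2 * s) x = x}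

private theorem TT_tau {m : ℕ} {α : Type} {φ : ℕ → Perm α} (hφ : BraidRel (m + 2) φ) {r : ℕ}
    (hr : 2 * (r + 1) + 1 < m + 2) (y : α) : pat_tau φ r y ∈ TT φ m (r + 1) ↔ y ∈ TT φ m r := by
  have hsw : pat_sw r (r + 1) = r := by
    unfold pat_sw
    split_ifs <;> omega
  have h1 := pat_tau_apply hφ hr (r + 1) hr y
  rw [hsw] at h1
  constructor
  · rintro ⟨h2, h3⟩
    refine ⟨fun h4 => h2 (by rw [h1, h4]), fun s hs hs' => ?_⟩
    have h5 := h3 (pat_sw r s) (pat_sw_ne' hs) (pat_sw_lt hr hs')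
    rw [pat_tau_apply hφ hr _ (pat_sw_lt hr hs') y, pat_sw_sw] at h5
    exact (pat_tau φ r).injective h5
  · rintro ⟨h2, h3⟩
    refine ⟨fun h4 => h2 ?_, fun s hs hs' => ?_⟩
    · rw [h1] at h4
      exact (pat_tau φ r).injective h4
    · rw [pat_tau_apply hφ hr s hs' y, h3 _ (pat_sw_ne hs) (pat_sw_lt hr hs')]

private theorem TT_succ {m : ℕ} {α : Type} {φ : ℕ → Perm α} (hφ : BraidRel (m + 2) φ) {r : ℕ}
    (hr : 2 * (r + 1) + 1 < m + 2) : Nat.card (TT φ m (r + 1)) = Nat.card (TT φ m r) :=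
  (Nat.card_congr ((pat_tau φ r).subtypeEquiv fun y => (TT_tau hφ hr y).symm)).symm

theorem TT_card {m : ℕ} {α : Type} [Finite α] {φ : ℕ → Perm α} (hφ : BraidRel (m + 2) φ) :
    (m / 2 + 1) * Nat.card (TT φ m 0) ≤ Nat.card α := by
  have h1 : ∀ r, 2 * r + 1 < m + 2 → Nat.card (TT φ m r) = Nat.card (TT φ m 0) := by
    intro r
    induction r with
    | zero => intro _; rfl
    | succ r ih => intro hr; rw [TT_succ hφ hr, ih (by omega)]
  have h2 : Nat.card (Σ r : Fin (m / 2 + 1), TT φ m r) = (m / 2 + 1) * Nat.card (TT φ m 0) := by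
    rw [Nat.card_sigma, Finset.sum_congr rfl fun (r : Fin (m / 2 + 1)) _ => h1 (r : ℕ) (by have := r.2; omega)]
    simp
  rw [← h2]
  refine Nat.card_le_card_of_injective (fun w : (Σ r : Fin (m / 2 + 1), TT φ m r) => (w.2 : α)) ?_
  rintro ⟨r, x, hx⟩ ⟨s, y, hy⟩ hxy
  have hxy' : x = y := hxy
  subst hxy'
  have hrs : r = s := by
    by_contra hne
    exact hx.1 (hy.2 r (fun h3 => hne (Fin.ext h3)) (by have := r.2; omega))
  subst hrs
  rfl

end Pool.Agent.LR
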