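import Pool.Agent.LR.QDefs

/-!
# LR QAlg: all quotients are constant or all are invariant

Write `V p` for the function `x ↦ VV (r x) p`, `p = (α, β, γ)`; `V (T p) = l p * V p`.
(1) `1 - V (α, β, γ) = V (γ, β, α)` and the same for `T p`, so `l (γ,β,α) (1 - V p) = 1 - l p V p`: if `l p ≠ l (γ,β,α)` then `V p` is
constant; if they are equal, `l p = 1`.  So for every `p`: `V p` constant or `l p = 1`.
(2) Suppose some `V p₀` is not constant, and let `p = (α, β, γ)` with `V p` constant.  There is `δ` with `V (α, β, δ)` not constant: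
otherwise every difference `r_δ - r_α` is a constant multiple of `r_β - r_α`, so all `V` are constant.  `δ ≠ α, β, γ`.
`V (α, β, γ) V (α, γ, δ) = V (α, β, δ)`, so `V (α, γ, δ)` is not constant either; `l` of both is `1`, and from the same relation for the `T`
images `l (α, β, γ) = 1`.
-/

set_option autoImplicit false

noncomputable section

namespace Pool.Agent.LR

/-- The triple with the first and the last index exchanged. -/
def QAlg_rev {n : ℕ} (p : Tr n) : Tr n :=
  ⟨(p.1.2.2, p.1.2.1, p.1.1), p.2.2.2.symm, p.2.2.1.symm, p.2.1.symm⟩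

theorem QAlg_rev_V {n : ℕ} {s : Fin n → ℂ} (hs : Function.Injective s) (p : Tr n) :
    VV s (QAlg_rev p) = 1 - VV s p := by
  have h : s p.1.1 - s p.1.2.2 ≠ 0 := sub_ne_zero.2 (hs.ne p.2.2.1)
  have h' : s p.1.2.2 - s p.1.1 ≠ 0 := sub_ne_zero.2 (hs.ne p.2.2.1.symm)
  show (s p.1.2.2 - s p.1.2.1) / (s p.1.2.2 - s p.1.1) =
    1 - (s p.1.1 - s p.1.2.1) / (s p.1.1 - s p.1.2.2)
  rw [eq_sub_iff_add_eq, div_add_div _ _ h' h, div_eq_one_iff_eq (mul_ne_zero h' h)]
  ring

theorem QAlg_rev_ta {n : ℕ} (T : Equiv.Perm (Fin n)) (p : Tr n) :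
    ta T (QAlg_rev p) = QAlg_rev (ta T p) := rfl

theorem QAlg_mul {n : ℕ} {s : Fin n → ℂ} (hs : Function.Injective s) {a b c d : Fin n}
    (hab : a ≠ b) (hac : a ≠ c) (had : a ≠ d) (hbc : b ≠ c) (hbd : b ≠ d) (hcd : c ≠ d) :
    VV s ⟨(a, b, c), hab, hac, hbc⟩ * VV s ⟨(a, c, d), hac, had, hcd⟩ =
      VV s ⟨(a, b, d), hab, had, hbd⟩ := by
  have h1 : s a - s c ≠ 0 := sub_ne_zero.2 (hs.ne hac)
  have h2 : s a - s d ≠ 0 := sub_ne_zero.2 (hs.ne had)
  show (s a - s b) / (s a - s c) * ((s a - s c) / (s a - s d)) = (s a - s b) / (s a - s d)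
  field_simp

theorem QAlg_one {n : ℕ} {X : Type} {r : X → Fin n → ℂ} (hr : ∀ x, Function.Injective (r x))
    {T : Equiv.Perm (Fin n)} {l : Tr n → ℂ} (hl : ∀ p x, VV (r x) (ta T p) = l p * VV (r x) p)
    (p : Tr n) (hp : ¬ ∃ c, ∀ x, VV (r x) p = c) : l p = 1 := by
  have key : ∀ x, (l p - l (QAlg_rev p)) * VV (r x) p = 1 - l (QAlg_rev p) := by
    intro x
    have h1 := hl (QAlg_rev p) x
    have hT : Function.Injective (fun α => r x (T α)) := (hr x).comp T.injective
    have h2 : VV (r x) (ta T (QAlg_rev p)) = 1 - VV (r x) (ta T p) := by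
      rw [QAlg_rev_ta, QAlg_rev_V (hr x)]
    rw [h2, hl p x, QAlg_rev_V (hr x)] at h1
    linear_combination -h1
  by_cases h : l p = l (QAlg_rev p)
  · by_cases hX : Nonempty X
    · obtain ⟨x⟩ := hX
      have := key x
      rw [h, sub_self, zero_mul] at this
      rw [h]
      linear_combination this
    · exact absurd ⟨0, fun x => absurd ⟨x⟩ hX⟩ hp
  · exfalso
    apply hp
    refine ⟨(1 - l (QAlg_rev p)) / (l p - l (QAlg_rev p)), fun x => ?_⟩
    rw [eq_div_iff (sub_ne_zero.2 h), ← key x]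
    ring

theorem alt_abs {n : ℕ} {X : Type} {r : X → Fin n → ℂ} (hr : ∀ x, Function.Injective (r x))
    {T : Equiv.Perm (Fin n)} {l : Tr n → ℂ} (hl : ∀ p x, VV (r x) (ta T p) = l p * VV (r x) p) :
    (∀ p, ∃ c, ∀ x, VV (r x) p = c) ∨ ∀ p x, VV (r x) (ta T p) = VV (r x) p := by
  by_cases hall : ∀ p, ∃ c, ∀ x, VV (r x) p = c
  · exact Or.inl hall
  right
  intro p x
  rw [hl p x]
  suffices h : l p = 1 by rw [h, one_mul]
  by_contra hlp
  apply hall
  -- `V p` is constant
  have hp : ∃ c, ∀ x, VV (r x) p = c := by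
    by_contra h
    exact hlp (QAlg_one hr hl p h)
  obtain ⟨⟨a, b, c⟩, hab, hac, hbc⟩ := p
  -- all `V (a, b, d)` are constant
  have hd : ∀ (d : Fin n) (had : a ≠ d) (hbd : b ≠ d),
      ∃ c', ∀ x, VV (r x) ⟨(a, b, d), hab, had, hbd⟩ = c' := by
    intro d had hbd
    by_contra hcon
    have hcd : c ≠ d := by
      rintro rfl
      exact hcon hp
    have h1 : l ⟨(a, b, d), hab, had, hbd⟩ = 1 := QAlg_one hr hl _ hcon
    have hcon2 : ¬ ∃ c', ∀ x, VV (r x) ⟨(a, c, d), hac, had, hcd⟩ = c' := by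
      rintro ⟨c', hc'⟩
      obtain ⟨c'', hc''⟩ := hp
      apply hcon
      refine ⟨c'' * c', fun x => ?_⟩
      rw [← QAlg_mul (hr x) hab hac had hbc hbd hcd, hc' x, hc'' x]
    have h2 : l ⟨(a, c, d), hac, had, hcd⟩ = 1 := QAlg_one hr hl _ hcon2
    apply hlp
    have hT : Function.Injective (fun α => r x (T α)) := (hr x).comp T.injective
    have e1 := QAlg_mul (hr x) hab hac had hbc hbd hcd
    have e2 := QAlg_mul hT hab hac had hbc hbd hcd
    rw [← VV_ta, ← VV_ta, ← VV_ta, hl, hl, hl, h1, h2, one_mul, one_mul, ← e1] at e2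
    have n1 := (VV_ne (hr x) ⟨(a, b, c), hab, hac, hbc⟩).1
    have n2 := (VV_ne (hr x) ⟨(a, c, d), hac, had, hcd⟩).1
    have n3 := mul_ne_zero n1 n2
    have : (l ⟨(a, b, c), hab, hac, hbc⟩ - 1) *
        (VV (r x) ⟨(a, b, c), hab, hac, hbc⟩ * VV (r x) ⟨(a, c, d), hac, had, hcd⟩) = 0 := by
      linear_combination e2
    rcases mul_eq_zero.1 this with h | h
    · exact sub_eq_zero.1 h
    · exact absurd h n3
  -- every difference is a constant multiple of `r a - r b`
  have hm : ∀ d : Fin n, ∃ e : ℂ, ∀ x, r x a - r x d = e * (r x a - r x b) := by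
    intro d
    by_cases had : a = d
    · subst had
      exact ⟨0, fun x => by ring⟩
    by_cases hbd : b = d
    · subst hbd
      exact ⟨1, fun x => by ring⟩
    obtain ⟨c', hc'⟩ := hd d had hbd
    refine ⟨c'⁻¹, fun x => ?_⟩
    have h1 := hc' x
    have h2 : r x a - r x d ≠ 0 := sub_ne_zero.2 ((hr x).ne had)
    have h3 : r x a - r x b ≠ 0 := sub_ne_zero.2 ((hr x).ne hab)
    have h4 : (r x a - r x b) / (r x a - r x d) = c' := h1
    rw [← h4, inv_div]
    field_simp
  choose e he using hm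
  intro q
  refine ⟨(e q.1.2.1 - e q.1.1) / (e q.1.2.2 - e q.1.1), fun x => ?_⟩
  have h3 : r x a - r x b ≠ 0 := sub_ne_zero.2 ((hr x).ne hab)
  have g1 : r x q.1.1 - r x q.1.2.1 = (e q.1.2.1 - e q.1.1) * (r x a - r x b) := by
    linear_combination he q.1.2.1 x - he q.1.1 x
  have g2 : r x q.1.1 - r x q.1.2.2 = (e q.1.2.2 - e q.1.1) * (r x a - r x b) := by
    linear_combination he q.1.2.2 x - he q.1.1 x
  show (r x q.1.1 - r x q.1.2.1) / (r x q.1.1 - r x q.1.2.2) = _
  rw [g1, g2, mul_div_mul_right _ _ h3]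

/-- If all quotients are `T`-invariant and the sum of the values is `0`, then `T` is the multiplication by a number. -/
theorem mult_abs {n : ℕ} (hn : 3 ≤ n) {r : Fin n → ℂ} (hr : Function.Injective r) (hs : ∑ α, r α = 0)
    {T : Equiv.Perm (Fin n)} (hT : ∀ p : Tr n, VV r (ta T p) = VV r p) : ∃ P : ℂ, ∀ α, r (T α) = P * r α := by
  have i0 : (0 : ℕ) < n := by omega
  have i1 : (1 : ℕ) < n := by omega
  set z : Fin n := ⟨0, i0⟩ with hz
  set o : Fin n := ⟨1, i1⟩ with ho
  have hzo : z ≠ o := by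
    intro h
    have := congrArg Fin.val h
    simp [hz, ho] at this
  have hd1 : r z - r o ≠ 0 := sub_ne_zero.2 (hr.ne hzo)
  set P : ℂ := (r (T z) - r (T o)) / (r z - r o) with hP
  have hPo : r (T z) - r (T o) = P * (r z - r o) := by
    rw [hP]
    field_simp
  have key : ∀ β, r (T z) - r (T β) = P * (r z - r β) := by
    intro β
    by_cases hb : z = β
    · subst hb
      ring
    by_cases hb' : o = β
    · subst hb'
      exact hPo
    have h := hT ⟨(z, o, β), hzo, hb, hb'⟩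
    have h' : (r (T z) - r (T o)) / (r (T z) - r (T β)) = (r z - r o) / (r z - r β) := h
    have h2 : r (T z) - r (T β) ≠ 0 := sub_ne_zero.2 (hr.ne (T.injective.ne hb))
    have h3 : r z - r β ≠ 0 := sub_ne_zero.2 (hr.ne hb)
    rw [div_eq_div_iff h2 h3, hPo] at h'
    have : (r z - r o) * (r (T z) - r (T β)) = (r z - r o) * (P * (r z - r β)) := by
      linear_combination -h'
    exact mul_left_cancel₀ hd1 this
  refine ⟨P, ?_⟩
  have hsT : ∑ α, r (T α) = 0 := by
    rw [← hs]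
    exact Equiv.sum_comp T r
  have hn0 : (n : ℂ) ≠ 0 := by
    have : n ≠ 0 := by omega
    exact_mod_cast this
  have hsum : ∑ β, (r (T z) - r (T β)) = ∑ β, P * (r z - r β) :=
    Finset.sum_congr rfl fun β _ => key β
  rw [Finset.sum_sub_distrib, hsT, ← Finset.mul_sum, Finset.sum_sub_distrib, hs, Finset.sum_const,
    Finset.sum_const, Finset.card_univ, Fintype.card_fin, nsmul_eq_mul, nsmul_eq_mul, sub_zero,
    sub_zero] at hsum
  have hz' : r (T z) = P * r z := by
    apply mul_left_cancel₀ hn0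
    linear_combination hsum
  intro α
  linear_combination hz' - key α

end Pool.Agent.LR
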