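import Pool.Agent.LR.QDefs
import Pool.Agent.LR.Main
import Pool.Agent.LR.Lam

/-!
# LR QBase: first consequences of `Ctx`

`inj`, `sum0`, `vd2`: `f (GG a x) ∈ SG n` (`GG_mem`), so `OC.vd_sq_of_roots`, `OC.vd_ne_iff`, `OC.sum_of_roots` (compare
`OC.mu_sq`, `OC.mu_inj`, `OC.mu_sum` in `H60/OC/Main.lean`).

`an`: `x ↦ GG a x` is analytic along `γ` (`lg ∘ γ` is analytic: sum of logarithms of functions with values in the slit
plane; `OC.zc_an`), `GG a (γ w) ∈ SG k` near `w₀` (`XX` open), `f ∘ GG a ∘ γ` is analytic (`OC.f_an` in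
`H60/OC/RootAna.lean`), `ρ a ∘ γ` is continuous near `w₀`, roots distinct: `OC.root_an`.

`trans`: for all `σ`, `a` there is a permutation `S σ a` with `ρ (a + inv σ) (x ∘ σ) (S σ a α) = ρ a x α` on `WW σ`
(`exists_perm_on`, exactly as in `lift_exists` in `LR/Main.lean`), `sys_of_roots` gives `Sys inv S`; `S (sw i) a = θ i` (compare `tr`
and `hS` at a point of `WW (sw i)`, `wit_mem`, injectivity); by `perm_ind` and `S_mul`, `S σ a` does not depend on `a`;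
`Θ σ = S σ 0`.

`bra`: braid relations for `θ`: `Sys.far`, `Sys.braid` for that `S`.

`Θ_T`, `Θ_blk`: by `perm_ind`: `Θ (π * sw i) = θ i * Θ π`.
-/

set_option autoImplicit false

open Topology Filter

noncomputable section

namespace Pool.Agent.LR

open Pool.Agent.H60.OC (Pr NN nm zc SG MF IsRoots vd poly HoloOn)

variable {k n : ℕ} {f : (Fin k → ℂ) → (Fin n → ℂ)} {ρ : ℤ → (Fin k → ℂ) → (Fin n → ℂ)}
  {θ : ℕ → Equiv.Perm (Fin n)} {T : Equiv.Perm (Fin n)} {blk : Fin n → Option (Fin k)}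

theorem Ctx.vd2 (h : Ctx k n f ρ θ T blk) (a : ℤ) {x : Fin k → ℂ} (hx : x ∈ XX k) : vd (ρ a x) ^ 2 = 1 := by
  have hk := h.hk
  obtain ⟨-, r, hr, hv⟩ := h.map (GG_mem (by omega) a hx)
  exact Pool.Agent.H60.OC.vd_sq_of_roots (h.root a x hx) hr hv

theorem Ctx.inj (h : Ctx k n f ρ θ T blk) (a : ℤ) {x : Fin k → ℂ} (hx : x ∈ XX k) : Function.Injective (ρ a x) := by
  rw [← Pool.Agent.H60.OC.vd_ne_iff]
  intro h0
  have h1 := h.vd2 a hx
  rw [h0] at h1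
  norm_num at h1

theorem Ctx.sum0 (h : Ctx k n f ρ θ T blk) (a : ℤ) {x : Fin k → ℂ} (hx : x ∈ XX k) : ∑ α, ρ a x α = 0 := by
  have hk := h.hk
  have hn := h.hn
  have h1 := Pool.Agent.H60.OC.sum_of_roots (by omega : 0 < n) (h.root a x hx)
  rw [(h.map (GG_mem (by omega) a hx)).1 ⟨0, by omega⟩ rfl] at h1
  exact neg_eq_zero.1 h1.symm

private theorem QBase_f_an {g : (Fin k → ℂ) → (Fin n → ℂ)} (hf : HoloOn (SG k) g) {γ : ℂ → (Fin k → ℂ)} {w₀ : ℂ}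
    (hz : AnalyticAt ℂ γ w₀) (hmem : ∀ᶠ w in 𝓝 w₀, γ w ∈ SG k) : AnalyticAt ℂ (fun w => g (γ w)) w₀ := by
  obtain ⟨g', hg, hfg⟩ := hf _ hmem.self_of_nhds
  have h1 : Tendsto γ (𝓝 w₀) (𝓝[SG k] (γ w₀)) := tendsto_nhdsWithin_iff.2 ⟨hz.continuousAt, hmem⟩
  have h2 : AnalyticAt ℂ (fun w => g' (γ w)) w₀ := AnalyticAt.comp_of_eq hg hz rfl
  refine h2.congr ?_
  filter_upwards [h1.eventually hfg] with w hw using hw.symm

private theorem QBase_lg_an {γ : ℂ → (Fin k → ℂ)} {w₀ : ℂ} (hγ : AnalyticAt ℂ γ w₀) (hx : γ w₀ ∈ XX k) :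
    AnalyticAt ℂ (fun w => lg (γ w)) w₀ := by
  have hj : ∀ j, AnalyticAt ℂ (fun w => γ w j) w₀ := fun j => analyticAt_pi_iff.1 hγ j
  unfold lg
  refine Finset.analyticAt_fun_sum _ fun p _ => ?_
  exact ((hj p.1.2).fun_sub (hj p.1.1)).clog (hx _ _ p.2)

private theorem QBase_GG_an (a : ℤ) {γ : ℂ → (Fin k → ℂ)} {w₀ : ℂ} (hγ : AnalyticAt ℂ γ w₀) (hx : γ w₀ ∈ XX k) :
    AnalyticAt ℂ (fun w => GG a (γ w)) w₀ := by
  have hj : ∀ j, AnalyticAt ℂ (fun w => γ w j) w₀ := fun j => analyticAt_pi_iff.1 hγ j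
  have hl := QBase_lg_an hγ hx
  unfold GG
  refine Pool.Agent.H60.OC.zc_an ?_
  refine analyticAt_pi_iff.2 fun i => ?_
  have h1 : AnalyticAt ℂ (fun w => Complex.exp ((lg (γ w) + (Real.pi : ℂ) * Complex.I * (a : ℂ)) / (NN k : ℂ))) w₀ :=
    ((hl.fun_add analyticAt_const).fun_mul (analyticAt_const (v := ((NN k : ℂ))⁻¹))).cexp
  have h2 : AnalyticAt ℂ (fun w => γ w i - (∑ j, γ w j) / (k : ℂ)) w₀ :=
    (hj i).fun_sub ((Finset.analyticAt_fun_sum _ fun j _ => hj j).fun_mul (analyticAt_const (v := ((k : ℂ))⁻¹)))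
  exact h2.fun_div h1 (Complex.exp_ne_zero _)

private theorem QBase_near {γ : ℂ → (Fin k → ℂ)} {w₀ : ℂ} (hγ : AnalyticAt ℂ γ w₀) (hx : γ w₀ ∈ XX k) :
    ∀ᶠ w in 𝓝 w₀, γ w ∈ XX k :=
  hγ.continuousAt.eventually_mem ((XX_open k).mem_nhds hx)

theorem Ctx.an (h : Ctx k n f ρ θ T blk) (a : ℤ) {γ : ℂ → (Fin k → ℂ)} {w₀ : ℂ} (hγ : AnalyticAt ℂ γ w₀)
    (hx : γ w₀ ∈ XX k) (α : Fin n) : AnalyticAt ℂ (fun w => ρ a (γ w) α) w₀ := by
  have hk := h.hk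
  have hnear := QBase_near hγ hx
  have h1 : AnalyticAt ℂ (fun w => f (GG a (γ w))) w₀ := by
    refine QBase_f_an h.hol (QBase_GG_an a hγ hx) ?_
    filter_upwards [hnear] with w hw using GG_mem (by omega) a hw
  refine Pool.Agent.H60.OC.root_an h1 (ρ := fun w => ρ a (γ w)) ?_ ?_ α
  · filter_upwards [hγ.eventually_analyticAt, hnear] with w h2 h3
    exact ContinuousAt.comp (((h.cont a).continuousAt ((XX_open k).mem_nhds h3))) h2.continuousAt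
  · filter_upwards [hnear] with w hw
    exact ⟨h.root a _ hw, h.inj a hw⟩

private theorem QBase_VV_an (h : Ctx k n f ρ θ T blk) (a : ℤ) (p : Tr n) {γ : ℂ → (Fin k → ℂ)} {w₀ : ℂ}
    (hγ : AnalyticAt ℂ γ w₀) (hx : γ w₀ ∈ XX k) : AnalyticAt ℂ (fun w => VV (ρ a (γ w)) p) w₀ := by
  unfold VV
  exact ((h.an a hγ hx p.1.1).fun_sub (h.an a hγ hx p.1.2.1)).fun_div
    ((h.an a hγ hx p.1.1).fun_sub (h.an a hγ hx p.1.2.2)) (sub_ne_zero.2 ((h.inj a hx).ne p.2.2.1))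

theorem Ctx.vq_an (h : Ctx k n f ρ θ T blk) (a : ℤ) (p : Tr n) {γ : ℂ → (Fin k → ℂ)} {w₀ : ℂ}
    (hγ : AnalyticAt ℂ γ w₀) (hx : γ w₀ ∈ XX k) : AnalyticAt ℂ (fun w => vq ρ T a p (γ w)) w₀ := by
  unfold vq
  exact (QBase_VV_an h a (ta T p) hγ hx).fun_div (QBase_VV_an h a p hγ hx) (VV_ne (h.inj a hx) p).1

private theorem QBase_VV_cont (h : Ctx k n f ρ θ T blk) (a : ℤ) (p : Tr n) :
    ContinuousOn (fun x => VV (ρ a x) p) (XX k) := by
  have hj : ∀ j, ContinuousOn (fun x => ρ a x j) (XX k) := fun j => continuousOn_pi.1 (h.cont a) j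
  unfold VV
  exact ((hj p.1.1).sub (hj p.1.2.1)).div ((hj p.1.1).sub (hj p.1.2.2))
    fun x hx => sub_ne_zero.2 ((h.inj a hx).ne p.2.2.1)

theorem Ctx.vq_cont (h : Ctx k n f ρ θ T blk) (a : ℤ) (p : Tr n) : ContinuousOn (vq ρ T a p) (XX k) := by
  unfold vq
  exact (QBase_VV_cont h a (ta T p)).div (QBase_VV_cont h a p) fun x hx => (VV_ne (h.inj a hx) p).1

private theorem QBase_sys (h : Ctx k n f ρ θ T blk) : ∃ S : Equiv.Perm (Fin k) → ℤ → Equiv.Perm (Fin n),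
    Sys (G := Equiv.Perm (Fin n)) inv S ∧ (∀ i, i + 1 < k → ∀ a, S (sw i) a = θ i) ∧
    ∀ (σ : Equiv.Perm (Fin k)) (a : ℤ), ∀ x ∈ WW σ, ∀ α, ρ (a + inv σ) (fun l => x (σ l)) (S σ a α) = ρ a x α := by
  have h2 : ∀ (σ : Equiv.Perm (Fin k)) (a : ℤ), ∃ s : Equiv.Perm (Fin n), ∀ x ∈ WW σ, ∀ j,
      ρ (a + inv σ) (fun i => x (σ i)) (s j) = ρ a x j := by
    intro σ a
    refine exists_perm_on (WW_conn σ) (ρ := ρ a) (ρ' := fun x => ρ (a + inv σ) (fun i => x (σ i)))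
      (H := fun x => f (GG a x)) ?_ ?_ ?_ ?_ ?_
    · exact (h.cont a).mono (WW_sub σ)
    · refine (h.cont (a + inv σ)).comp ?_ fun x hx => WW_comp σ hx
      exact (continuous_pi fun i => continuous_apply (σ i)).continuousOn
    · exact fun x hx => h.root a x (WW_sub σ hx)
    · intro x hx
      rw [← GG_comp σ a hx]
      exact h.root _ _ (WW_comp σ hx)
    · exact fun x hx => h.inj a (WW_sub σ hx)
  choose S hS using h2
  refine ⟨S, sys_of_roots (fun a x hx => h.inj a hx) hS, ?_, hS⟩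
  intro i hi a
  have hw := wit_mem (1 : Equiv.Perm (Fin k)) (sw i)
  apply Equiv.ext
  intro α
  have e1 := hS (sw i) a _ hw α
  have e2 := h.tr i hi a _ hw α
  rw [inv_sw i hi] at e1
  exact h.inj (a + 1) (WW_comp _ hw) (e1.trans e2.symm)

theorem Ctx.trans (h : Ctx k n f ρ θ T blk) : ∃ Θ : Equiv.Perm (Fin k) → Equiv.Perm (Fin n), Θ 1 = 1 ∧
    (∀ (π : Equiv.Perm (Fin k)) (i : ℕ) (hi : i + 1 < k), π ⟨i, by omega⟩ < π ⟨i + 1, hi⟩ → Θ (π * sw i) = θ i * Θ π) ∧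
    ∀ (σ : Equiv.Perm (Fin k)) (a : ℤ), ∀ x ∈ WW σ, ∀ α, ρ (a + inv σ) (fun l => x (σ l)) (Θ σ α) = ρ a x α := by
  obtain ⟨S, hsys, hθ, hS⟩ := QBase_sys h
  have hind : ∀ σ : Equiv.Perm (Fin k), ∀ a, S σ a = S σ 0 := by
    intro σ
    refine perm_ind (P := fun σ => ∀ a, S σ a = S σ 0) ?_ ?_ σ
    · intro a
      rw [hsys.S_one, hsys.S_one]
    · intro π i hi hlt ih a
      rw [hsys.S_mul π i hi hlt a, hsys.S_mul π i hi hlt 0, hθ i hi, hθ i hi, ih a]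
  refine ⟨fun σ => S σ 0, hsys.S_one 0, ?_, ?_⟩
  · intro π i hi hlt
    show S (π * sw i) 0 = θ i * S π 0
    rw [hsys.S_mul π i hi hlt 0, hθ i hi]
  · intro σ a x hx α
    show ρ (a + inv σ) (fun l => x (σ l)) (S σ 0 α) = ρ a x α
    rw [← hind σ a]
    exact hS σ a x hx α

theorem Ctx.bra (h : Ctx k n f ρ θ T blk) : BraidRel k θ := by
  obtain ⟨S, hsys, hθ, -⟩ := QBase_sys h
  refine ⟨?_, ?_⟩
  · intro i j hij hj
    have h1 := hsys.far hij hj 0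
    rw [hθ i (by omega), hθ j hj, hθ i (by omega), hθ j hj] at h1
    exact h1.symm
  · intro i hi
    have h1 := hsys.braid hi 0
    rw [hθ i (by omega), hθ i (by omega), hθ i (by omega), hθ (i + 1) (by omega), hθ (i + 1) (by omega),
      hθ (i + 1) (by omega)] at h1
    exact h1

theorem Blk.Θ_T (hb : Blk k n θ T blk) {Θ : Equiv.Perm (Fin k) → Equiv.Perm (Fin n)} (h1 : Θ 1 = 1)
    (h2 : ∀ (π : Equiv.Perm (Fin k)) (i : ℕ) (hi : i + 1 < k), π ⟨i, by omega⟩ < π ⟨i + 1, hi⟩ → Θ (π * sw i) = θ i * Θ π)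
    (σ : Equiv.Perm (Fin k)) : Θ σ * T = T * Θ σ := by
  refine perm_ind (P := fun σ => Θ σ * T = T * Θ σ) ?_ ?_ σ
  · rw [h1, one_mul, mul_one]
  · intro π i hi hlt ih
    rw [h2 π i hi hlt, mul_assoc, ih, ← mul_assoc, hb.com i hi, mul_assoc]

theorem Blk.Θ_blk (hb : Blk k n θ T blk) {Θ : Equiv.Perm (Fin k) → Equiv.Perm (Fin n)} (h1 : Θ 1 = 1)
    (h2 : ∀ (π : Equiv.Perm (Fin k)) (i : ℕ) (hi : i + 1 < k), π ⟨i, by omega⟩ < π ⟨i + 1, hi⟩ → Θ (π * sw i) = θ i * Θ π)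
    (σ : Equiv.Perm (Fin k)) (α : Fin n) (j : Fin k) (hj : blk α = some j) : blk (Θ σ α) = some (σ.symm j) := by
  refine perm_ind (P := fun σ => blk (Θ σ α) = some (σ.symm j)) ?_ ?_ σ
  · rw [h1]
    exact hj
  · intro π i hi hlt ih
    rw [h2 π i hi hlt, Equiv.Perm.mul_apply, hb.mv i hi _ _ ih]
    have hs : (sw i : Equiv.Perm (Fin k)).symm = sw i := by
      rw [sw, dif_pos hi, Equiv.symm_swap]
    have h3 : (π * sw i : Equiv.Perm (Fin k)).symm j = (sw i : Equiv.Perm (Fin k)).symm (π.symm j) := rfl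
    rw [h3, hs]

end Pool.Agent.LR
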