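import Pool.Agent.LR.QLine
import Pool.Agent.H60.OC.Liou

/-!
# LR QConst: `Gt` and `vq` are constant

`G_line`: for a good line the function `z ↦ Gt t (p + z y)` is differentiable off the finite set of the punctures (`G_an`), bounded near
the punctures (`G_punct`), so it extends to an entire function (`OC.exists_entire`, removable singularities), and it is bounded at
infinity: `Gt t (p + z y) = Gt t (y + p / z)` (`G_scale`), which tends to `Gt t y` (`G_cont`).  By Liouville it is constant.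

`G_const`: `OC.exists_good` gives a good line `p + σ y`, and by `OC.good_cofin` for every injective `x` the line through `x` and `p + σ y` is
good for all but finitely many `σ` (see the exact form there), so `Gt t x = Gt t (p + σ y)`, and this does not depend on `σ`.

`vq_const` (level `a` in `range (2 N)`; general levels by `Ctx.per`): for `x, x' ∈ XX k`, `t = vq a p x`: the factor `t - vq a p x` of `Gt t x`
(computed with `G_of`; `x ∈ XX k` is injective but perhaps not `Lex`; use a `Lex` point: every value of `vq a p` on `XX k` is taken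
near ... ) is handled as follows: restrict to the `x ∈ XX k` which are `Lex` with increasing real parts (an open convex set `O`
with `srt x = 1`): for `x₁, x ∈ O`, `t = vq a p x`: `0 = Gt t x = Gt t x₁`, so `vq a p x` is one of the finitely many numbers `vq a' p' x₁`;
continuous on the preconnected set `O`, so `vq a p` is constant on `O`.  Then constant on `XX k`: for `x ∈ XX k` the segment from
`(0, 1, ..., k-1) ∈ O` to `x` lies in `XX k` (star-convex) and `s ↦ vq a p ((1 - s) base + s x)` is real analytic (the restriction of an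
analytic function of a complex parameter near the segment, `Ctx.vq_an`), constant for small `s`, so constant (identity theorem on
the preconnected open set of the complex `s` with the point in `XX k` which contains `[0, 1]`, or connectedness in `[0,1]`).
-/

set_option autoImplicit false

open Topology Filter

noncomputable section

namespace Pool.Agent.LR

open Pool.Agent.H60.OC (Pr NN nm zc SG MF IsRoots vd poly HoloOn Good)

variable {k n : ℕ} {f : (Fin k → ℂ) → (Fin n → ℂ)} {ρ : ℤ → (Fin k → ℂ) → (Fin n → ℂ)}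
  {θ : ℕ → Equiv.Perm (Fin n)} {T : Equiv.Perm (Fin n)} {blk : Fin n → Option (Fin k)}

/-- Injectivity in terms of the linear forms. -/
theorem QConst_inj {x : Fin k → ℂ} (h : ∀ H : Pr k, Pool.Agent.H60.OC.ell H x ≠ 0) : Function.Injective x := by
  intro i j hij
  by_contra hne
  rcases lt_or_gt_of_ne hne with h1 | h1
  · exact h ⟨(i, j), h1⟩ (sub_eq_zero.2 hij)
  · exact h ⟨(j, i), h1⟩ (sub_eq_zero.2 hij.symm)

/-- `Gt` is constant on a good line. -/
theorem Ctx.QConst_line (h : Ctx k n f ρ θ T blk) (t : ℂ) {p y : Fin k → ℂ} (hg : Good p y) {z₀ : ℂ}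
    (hz₀ : Function.Injective fun i => p i + z₀ * y i) : Gt ρ T t (fun i => p i + z₀ * y i) = Gt ρ T t y := by
  have hy : Function.Injective y := QConst_inj hg.1
  obtain ⟨K, hK⟩ : ∃ K : ℂ → ℂ, K = fun z => Gt ρ T t (fun i => p i + z * y i) := ⟨_, rfl⟩
  obtain ⟨S, hS⟩ : ∃ S : Set ℂ, S = {z : ℂ | ¬ Function.Injective (fun i => p i + z * y i)} := ⟨_, rfl⟩
  have hSf : S.Finite := by
    refine (Set.finite_range (fun H : Pr k => -Pool.Agent.H60.OC.ell H p / Pool.Agent.H60.OC.ell H y)).subset fun z hz => ?_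
    rw [hS] at hz
    by_contra hcon
    refine hz (QConst_inj fun H => ?_)
    rw [Pool.Agent.H60.OC.ell_line' hg.1]
    exact mul_ne_zero (hg.1 H) (sub_ne_zero.2 fun h1 => hcon ⟨H, h1.symm⟩)
  have hd : ∀ z, z ∉ S → DifferentiableAt ℂ K z := by
    intro z hz
    rw [hS] at hz
    have h1 : AnalyticAt ℂ (fun w : ℂ => fun i : Fin k => p i + w * y i) z :=
      analyticAt_pi_iff.2 fun i => analyticAt_const.fun_add (analyticAt_id.fun_mul analyticAt_const)
    rw [hK]
    exact (h.G_an t h1 (not_not.1 hz)).differentiableAt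
  have ho : ∀ c ∈ S, (fun z => K z - K c) =o[𝓝[≠] c] fun z => (z - c)⁻¹ := by
    intro c hc
    rw [hS] at hc
    obtain ⟨B, hB⟩ := h.G_punct t hg hc
    refine Filter.IsBoundedUnder.isLittleO_sub_self_inv ?_
    refine ⟨B + ‖K c‖, ?_⟩
    rw [Filter.eventually_map]
    filter_upwards [hB] with z hz
    show ‖K z - K c‖ ≤ B + ‖K c‖
    refine (norm_sub_le _ _).trans (add_le_add ?_ le_rfl)
    rw [hK]
    exact hz
  obtain ⟨F, hF, hFK⟩ := Pool.Agent.H60.OC.exists_entire hSf hd ho
  have hlim : Tendsto F (cocompact ℂ) (𝓝 (Gt ρ T t y)) := by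
    have h1 : Tendsto (fun z : ℂ => Gt ρ T t (fun i => z⁻¹ * p i + y i)) (cocompact ℂ) (𝓝 (Gt ρ T t y)) := by
      have h2 : Tendsto (fun z : ℂ => fun i => z⁻¹ * p i + y i) (cocompact ℂ) (𝓝 y) := by
        refine tendsto_pi_nhds.2 fun i => ?_
        have h3 : Tendsto (fun z : ℂ => z⁻¹) (cocompact ℂ) (𝓝 0) := tendsto_inv₀_cobounded.mono_left (by
          rw [Metric.cobounded_eq_cocompact])
        have h4 := (h3.mul_const (p i)).add_const (y i)
        rw [zero_mul, zero_add] at h4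
        exact h4
      exact (h.G_cont t hy).tendsto.comp h2
    refine h1.congr' ?_
    filter_upwards [hSf.isCompact.compl_mem_cocompact, (isCompact_singleton (x := (0 : ℂ))).compl_mem_cocompact] with z hz hz0
    have hz0' : z ≠ 0 := hz0
    have hz' : Function.Injective fun i => p i + z * y i := by
      have h5 : z ∉ S := hz
      rw [hS] at h5
      exact not_not.1 h5
    have e1 : (fun i => p i + z * y i) = fun i => z * (z⁻¹ * p i + y i) := by
      funext i
      field_simp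
    have hi : Function.Injective fun i => z⁻¹ * p i + y i := by
      intro i j hij
      apply hz'
      have h6 : z⁻¹ * p i + y i = z⁻¹ * p j + y j := hij
      show p i + z * y i = p j + z * y j
      have h7 := congrFun e1 i
      have h8 := congrFun e1 j
      rw [h7, h8, h6]
    rw [hFK z hz, hK]
    show _ = Gt ρ T t (fun i => p i + z * y i)
    rw [e1, h.G_scale t hi hz0']
  have h1 := hF.apply_eq_of_tendsto_cocompact z₀ hlim
  have h2 : z₀ ∉ S := by
    rw [hS]
    exact not_not.2 hz₀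
  rw [hFK z₀ h2, hK] at h1
  exact h1

/-- `Gt` has the same value at every injective configuration. -/
theorem Ctx.QConst_pt (h : Ctx k n f ρ θ T blk) (t : ℂ) {p y : Fin k → ℂ} (hg : Good p y) {x : Fin k → ℂ}
    (hx : Function.Injective x) : Gt ρ T t x = Gt ρ T t y := by
  obtain ⟨σ, hσ⟩ := (Pool.Agent.H60.OC.good_cofin hg hx).infinite_compl.nonempty
  obtain ⟨h1, h2⟩ : Good (fun i => p i + σ * y i) (fun i => x i - (p i + σ * y i)) ∧
      ∀ H : Pr k, Pool.Agent.H60.OC.ell H (fun i => p i + σ * y i) ≠ 0 := not_not.1 hσ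
  have e0 : (fun i => (p i + σ * y i) + 0 * (x i - (p i + σ * y i))) = fun i => p i + σ * y i := by
    funext i
    ring
  have e1 : (fun i => (p i + σ * y i) + 1 * (x i - (p i + σ * y i))) = x := by
    funext i
    ring
  have h3 := h.QConst_line t h1 (z₀ := 0) (by rw [e0]; exact QConst_inj h2)
  have h4 := h.QConst_line t h1 (z₀ := 1) (by rw [e1]; exact hx)
  have h5 := h.QConst_line t hg (z₀ := σ) (QConst_inj h2)
  rw [e0] at h3
  rw [e1] at h4
  rw [h4, ← h3, h5]

theorem Ctx.G_const (h : Ctx k n f ρ θ T blk) (t : ℂ) {x x' : Fin k → ℂ} (hx : Function.Injective x)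
    (hx' : Function.Injective x') : Gt ρ T t x = Gt ρ T t x' := by
  obtain ⟨p, y, hg⟩ := Pool.Agent.H60.OC.exists_good k
  rw [h.QConst_pt t hg hx, h.QConst_pt t hg hx']

/-- Increasing real parts. -/
def QConstO (k : ℕ) : Set (Fin k → ℂ) := {x | ∀ i j : Fin k, i < j → (x i).re < (x j).re}

theorem QConstO_open (k : ℕ) : IsOpen (QConstO k) := by
  have h : QConstO k = ⋂ p : Pr k, {x : Fin k → ℂ | (x p.1.1).re < (x p.1.2).re} := by
    ext x
    simp only [QConstO, Set.mem_ofPred_eq, Set.mem_iInter]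
    exact ⟨fun h p => h _ _ p.2, fun h i j hij => h ⟨(i, j), hij⟩⟩
  rw [h]
  exact isOpen_iInter_of_finite fun p => isOpen_lt (Complex.continuous_re.comp (continuous_apply _))
    (Complex.continuous_re.comp (continuous_apply _))

theorem QConstO_conn (k : ℕ) : IsPreconnected (QConstO k) := by
  refine Convex.isPreconnected fun x hx y hy a b ha hb hab i j hij => ?_
  have h1 := WW_comb ha hb hab (hx i j hij) (hy i j hij)
  simpa using h1

theorem QConstO_lex {x : Fin k → ℂ} (hx : x ∈ QConstO k) : Lex x := fun i j hij => Or.inl (hx i j hij)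

theorem QConstO_inj {x : Fin k → ℂ} (hx : x ∈ QConstO k) : Function.Injective x := by
  intro i j hij
  by_contra hne
  rcases lt_or_gt_of_ne hne with h1 | h1
  · have h2 := hx i j h1
    rw [hij] at h2
    exact lt_irrefl _ h2
  · have h2 := hx j i h1
    rw [hij] at h2
    exact lt_irrefl _ h2

theorem QConstO_base (k : ℕ) : (fun i : Fin k => ((i : ℕ) : ℂ)) ∈ QConstO k := by
  intro i j hij
  have hc : (((i : ℕ) : ℝ)) < (((j : ℕ) : ℝ)) := by exact_mod_cast hij
  simpa using hc

theorem Ctx.QConst_O (h : Ctx k n f ρ θ T blk) {a : ℕ} (ha : a < 2 * NN k) (p : Tr n) :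
    ∃ l : ℂ, ∀ x ∈ QConstO k, vq ρ T (a : ℤ) p x = l := by
  have hb := QConstO_base k
  have hG : ∀ t : ℂ, ∀ x ∈ QConstO k,
      Gt ρ T t x = ∏ a ∈ Finset.range (2 * NN k), ∏ p : Tr n, (t - vq ρ T (a : ℤ) p x) := by
    intro t x hx
    have h1 : srt x = 1 := srt_unique (π := 1) (QConstO_lex hx)
    unfold Gt
    rw [h1]
    rfl
  refine ⟨vq ρ T (a : ℤ) p (fun i : Fin k => ((i : ℕ) : ℂ)), fun x hx => ?_⟩
  have hfin : (vq ρ T (a : ℤ) p '' QConstO k).Finite := by
    refine ((Set.finite_range fun q : Fin (2 * NN k) × Tr n =>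
      vq ρ T ((q.1 : ℕ) : ℤ) q.2 (fun i : Fin k => ((i : ℕ) : ℂ)))).subset ?_
    rintro _ ⟨x, hx, rfl⟩
    have h1 : Gt ρ T (vq ρ T (a : ℤ) p x) x = 0 := by
      rw [hG _ x hx]
      exact Finset.prod_eq_zero (Finset.mem_range.2 ha) (Finset.prod_eq_zero (Finset.mem_univ p) (sub_self _))
    rw [h.G_const _ (QConstO_inj hx) (QConstO_inj hb), hG _ _ hb] at h1
    obtain ⟨a', ha', h2⟩ := Finset.prod_eq_zero_iff.1 h1
    obtain ⟨p', -, h3⟩ := Finset.prod_eq_zero_iff.1 h2
    exact ⟨(⟨a', Finset.mem_range.1 ha'⟩, p'), (sub_eq_zero.1 h3).symm⟩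
  have hpre : IsPreconnected (vq ρ T (a : ℤ) p '' QConstO k) := by
    refine (QConstO_conn k).image _ ((h.vq_cont (a : ℤ) p).mono fun x hx => lex_mem_XX (QConstO_lex hx))
  by_contra hne
  exact hpre.infinite_of_nontrivial ⟨_, ⟨x, hx, rfl⟩, _, ⟨_, hb, rfl⟩, hne⟩ hfin

theorem Ctx.QConst_ext (h : Ctx k n f ρ θ T blk) (a : ℤ) (p : Tr n) {l : ℂ} (hl : ∀ x ∈ QConstO k, vq ρ T a p x = l) :
    ∀ x ∈ XX k, vq ρ T a p x = l := by
  intro x hx
  obtain ⟨γ, hγ⟩ : ∃ γ : ℂ → (Fin k → ℂ), γ = fun (w : ℂ) (i : Fin k) => ((i : ℕ) : ℂ) + w * (x i - ((i : ℕ) : ℂ)) := ⟨_, rfl⟩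
  have hγa : ∀ w, AnalyticAt ℂ γ w := fun w => by
    rw [hγ]
    exact analyticAt_pi_iff.2 fun i => analyticAt_const.fun_add (analyticAt_id.fun_mul analyticAt_const)
  have hU : IsPreconnected ((fun s : ℝ => (s : ℂ)) '' Set.Icc (0 : ℝ) 1) :=
    isPreconnected_Icc.image _ Complex.continuous_ofReal.continuousOn
  have hmem : ∀ w ∈ (fun s : ℝ => (s : ℂ)) '' Set.Icc (0 : ℝ) 1, γ w ∈ XX k := by
    rintro _ ⟨s, hs, rfl⟩
    have h1 := XX_star k hx (sub_nonneg.2 hs.2) hs.1 (by ring)
    have e : γ (s : ℂ) = (1 - s) • (fun i : Fin k => ((i : ℕ) : ℂ)) + s • x := by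
      rw [hγ]
      funext i
      simp only [Pi.add_apply, Pi.smul_apply, Complex.real_smul]
      push_cast
      ring
    show γ (s : ℂ) ∈ XX k
    rw [e]
    exact h1
  have hAn : AnalyticOnNhd ℂ (fun w => vq ρ T a p (γ w)) ((fun s : ℝ => (s : ℂ)) '' Set.Icc (0 : ℝ) 1) :=
    fun w hw => h.vq_an a p (hγa w) (hmem w hw)
  have h0 : (0 : ℂ) ∈ (fun s : ℝ => (s : ℂ)) '' Set.Icc (0 : ℝ) 1 := ⟨0, by simp, by simp⟩
  have h1 : (1 : ℂ) ∈ (fun s : ℝ => (s : ℂ)) '' Set.Icc (0 : ℝ) 1 := ⟨1, by simp, by simp⟩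
  have hb0 : γ 0 ∈ QConstO k := by
    have e : γ 0 = fun i : Fin k => ((i : ℕ) : ℂ) := by
      rw [hγ]
      funext i
      ring
    rw [e]
    exact QConstO_base k
  have hev : (fun w => vq ρ T a p (γ w)) =ᶠ[𝓝 0] fun _ => l := by
    filter_upwards [(hγa 0).continuousAt.eventually_mem ((QConstO_open k).mem_nhds hb0)] with w hw using hl _ hw
  have h2 := hAn.eqOn_of_preconnected_of_eventuallyEq (fun w _ => analyticAt_const) hU h0 hev h1
  have e1 : γ 1 = x := by
    rw [hγ]
    funext i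
    ring
  simp only [e1] at h2
  exact h2

/-- The step of the period. -/
theorem Ctx.QConst_step (h : Ctx k n f ρ θ T blk) (b : ℤ) : (∀ p, ∃ l : ℂ, ∀ x ∈ XX k, vq ρ T b p x = l) ↔
    ∀ p, ∃ l : ℂ, ∀ x ∈ XX k, vq ρ T (b + 2 * (NN k : ℤ)) p x = l := by
  obtain ⟨z, -, hzT, hz⟩ := h.per
  constructor
  · intro hb p
    obtain ⟨l, hl⟩ := hb ((ta z).symm p)
    refine ⟨l, fun x hx => ?_⟩
    have h1 := qg_vq_ta hzT (hz b x hx) ((ta z).symm p)
    rw [Equiv.apply_symm_apply] at h1
    rw [h1]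
    exact hl x hx
  · intro hb p
    obtain ⟨l, hl⟩ := hb (ta z p)
    refine ⟨l, fun x hx => ?_⟩
    rw [← qg_vq_ta hzT (hz b x hx) p]
    exact hl x hx

theorem Ctx.vq_const (h : Ctx k n f ρ θ T blk) (a : ℤ) (p : Tr n) : ∃ l : ℂ, ∀ x ∈ XX k, vq ρ T a p x = l := by
  have hk := h.hk
  have hN : 0 < NN k := Pool.Agent.H60.OC.NN_pos (by omega)
  have H : ∀ (b : ℕ), b < 2 * NN k → ∀ m : ℤ, ∀ p, ∃ l : ℂ, ∀ x ∈ XX k,
      vq ρ T ((b : ℤ) + 2 * (NN k : ℤ) * m) p x = l := by
    intro b hb m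
    induction m using Int.induction_on with
    | zero =>
      intro p
      rw [mul_zero, add_zero]
      obtain ⟨l, hl⟩ := h.QConst_O hb p
      exact ⟨l, h.QConst_ext _ p hl⟩
    | succ i ih =>
      have e : (b : ℤ) + 2 * (NN k : ℤ) * ((i : ℤ) + 1) = ((b : ℤ) + 2 * (NN k : ℤ) * (i : ℤ)) + 2 * (NN k : ℤ) := by ring
      rw [e]
      exact (h.QConst_step _).1 ih
    | pred i ih =>
      have e : (b : ℤ) + 2 * (NN k : ℤ) * (-(i : ℤ)) = ((b : ℤ) + 2 * (NN k : ℤ) * (-(i : ℤ) - 1)) + 2 * (NN k : ℤ) := by ring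
      rw [e] at ih
      exact (h.QConst_step _).2 ih
  have h0 : (0 : ℤ) < 2 * (NN k : ℤ) := by
    have : (0 : ℤ) < (NN k : ℤ) := by exact_mod_cast hN
    linarith
  have h1 := Int.emod_nonneg a h0.ne'
  have h2 := Int.emod_lt_of_pos a h0
  have h3 := H (a % (2 * (NN k : ℤ))).toNat (by omega) (a / (2 * (NN k : ℤ))) p
  have e : (((a % (2 * (NN k : ℤ))).toNat : ℕ) : ℤ) + 2 * (NN k : ℤ) * (a / (2 * (NN k : ℤ))) = a := by
    rw [Int.toNat_of_nonneg h1]
    exact Int.emod_add_mul_ediv a _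
  rw [e] at h3
  exact h3

end Pool.Agent.LR
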