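import Pool.Agent.LR.QDefs
import Pool.Agent.H60.OC.Dich
import Pool.Agent.H60.OC.CR

/-!
# LR QDS: functions without the values `0`, `1` on `MF k` with symmetries are constant

`OC.dich`: `u` is constant or `u (pull y) = cr y a b c s` for all injective `y : Fin (k+1) → ℂ`, with four different indices.  The
index `0` of `Fin (k + 1)` is the point at infinity, `i.succ` the point `i`.  Among the four different indices `a, b, c, s` there
is one, say `e = l.succ`, with `l ≠ i, j` (four indices, excluded are only `0`, `i.succ`, `j.succ`).  Choose `l', l''` different, different from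
`l`, `i`, `j`, with `l'.succ ∉ {a, b, c, s}` (`k ≥ 7`), and the 3-cycle `ς` with `ς l = l'`, `ς l' = l''`, `ς l'' = l` (as permutation of `Fin k`).  `pull` is
equivariant up to the choice of the `N`-th root: for the permutation `ς'` of `Fin (k+1)` (`ς' 0 = 0`, `ς' i.succ = (ς i).succ`) both
`pull (y ∘ ς')` and `(pull y) ∘ ς` are in `MF k`, of the form `nm (rx y ∘ ς) t` with `t ^ N = vd (rx y ∘ ς)` (`ς` is even, `vd_perm`); take the
function `x ↦ u (nm x t)`: `OC.mono_form` says that the value `u (nm x t)` does not depend on the choice of the root `t` (it is `c ∏ ell ^ b`); so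
`u (pull (y ∘ ς')) = u ((pull y) ∘ ς) = u (pull y)`.  Hence `cr (y ∘ ς') a b c s = cr y a b c s` for all injective `y`: the right side does not
depend on `y_(l'.succ)`, the left side depends on it (it has `y (ς' e) = y_(l'.succ)` in the place `e`; a cross ratio of four different
points is injective in each of them), contradiction (choose `y`; `OC.exists_inj5` or `OC.never`-like lemmas, or directly).
-/

set_option autoImplicit false

noncomputable section

namespace Pool.Agent.LR

open Pool.Agent.H60.OC (Pr NN nm zc SG MF IsRoots vd poly HoloOn Hy)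

open Pool.Agent.H60.OC (rx pull cr dich mono_form pull_spec ext_all klein_of vd_perm) in
theorem dich_sym {k : ℕ} (hk : 7 ≤ k) {u : (Fin k → ℂ) → ℂ} (hu : Hy u) (i j : Fin k)
    (hs : ∀ ς : Equiv.Perm (Fin k), Equiv.Perm.sign ς = 1 → ς i = i → ς j = j → ∀ x ∈ MF k, u (fun l => x (ς l)) = u x) :
    ∃ c, ∀ x ∈ MF k, u x = c := by
  classical
  have hk2 : 2 ≤ k := by omega
  rcases dich hk2 hu with h | ⟨a, b, c, s, hab, hac, has, hbc, hbs, hcs, hcr⟩
  · exact h
  exfalso
  obtain ⟨c₀, b₀, -, -, hmono⟩ := mono_form hk2 hu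
  -- the cross ratio is invariant
  have inv : ∀ ς : Equiv.Perm (Fin k), Equiv.Perm.sign ς = 1 → ς i = i → ς j = j →
      ∀ σ : Equiv.Perm (Fin (k + 1)), σ 0 = 0 → (∀ l : Fin k, σ l.succ = (ς l).succ) →
      ∀ y : Fin (k + 1) → ℂ, Function.Injective y → cr y (σ a) (σ b) (σ c) (σ s) = cr y a b c s := by
    intro ς h1 hi hj σ h0 hσ y hy
    have hy' : Function.Injective (fun q => y (σ q)) := hy.comp σ.injective
    have hrx : rx (fun q => y (σ q)) = fun l => rx y (ς l) := by
      funext l
      show (y (σ l.succ) - y (σ 0))⁻¹ = (y (ς l).succ - y 0)⁻¹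
      rw [h0, hσ]
    obtain ⟨t', ht'0, ht', hp'⟩ := pull_spec hk2 hy'
    obtain ⟨t, ht0, ht, hp⟩ := pull_spec hk2 hy
    have hvd : vd (fun l => rx y (ς l)) = vd (rx y) := by
      rw [vd_perm, h1]
      simp
    have e1 : u (nm (fun l => rx y (ς l)) t) = u (nm (fun l => rx y (ς l)) t') := by
      rw [hmono _ t ht0 (by rw [hvd, ht]), hmono _ t' ht'0 (by rw [← hrx]; exact ht')]
    have e2 : (fun l => nm (rx y) t (ς l)) = nm (fun l => rx y (ς l)) t := by
      funext l
      unfold nm
      rw [Equiv.sum_comp ς (rx y)]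
    have e3 := hs ς h1 hi hj (pull hk2 y) (Pool.Agent.H60.OC.pull_mem hk2 hy)
    rw [hcr y hy, hp, e2, e1, ← hrx, ← hp', hcr _ hy'] at e3
    exact e3
  -- the choice of the permutation
  set S : Finset (Fin (k + 1)) := {a, b, c, s} with hS
  have hScard : S.card = 4 := by
    rw [hS]
    rw [Finset.card_insert_of_notMem, Finset.card_insert_of_notMem, Finset.card_insert_of_notMem, Finset.card_singleton]
    · simpa using hcs
    · simp only [Finset.mem_insert, Finset.mem_singleton, not_or]
      exact ⟨hbc, hbs⟩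
    · simp only [Finset.mem_insert, Finset.mem_singleton, not_or]
      exact ⟨hab, hac, has⟩
  obtain ⟨e, heS, heE⟩ := Finset.exists_mem_notMem_of_card_lt_card
    (s := ({0, i.succ, j.succ} : Finset (Fin (k + 1)))) (t := S)
    (lt_of_le_of_lt (Finset.card_le_three) (by rw [hScard]; norm_num))
  simp only [Finset.mem_insert, Finset.mem_singleton, not_or] at heE
  obtain ⟨l, rfl⟩ := Fin.exists_succ_eq.2 heE.1
  have hli : l ≠ i := fun h => heE.2.1 (by rw [h])
  have hlj : l ≠ j := fun h => heE.2.2 (by rw [h])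
  let g : Fin (k + 1) → Fin k := fun q => Fin.cases l (fun i => i) q
  have hg : ∀ q : Fin k, g q.succ = q := fun q => rfl
  obtain ⟨l', -, hl'⟩ := Finset.exists_mem_notMem_of_card_lt_card
    (s := ({l, i, j} : Finset (Fin k)) ∪ (S.erase l.succ).image g) (t := Finset.univ) (by
      rw [Finset.card_univ, Fintype.card_fin]
      have h1 := Finset.card_union_le ({l, i, j} : Finset (Fin k)) ((S.erase l.succ).image g)
      have h2 : ({l, i, j} : Finset (Fin k)).card ≤ 3 := Finset.card_le_three
      have h3 : ((S.erase l.succ).image g).card ≤ 3 := by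
        refine Finset.card_image_le.trans ?_
        rw [Finset.card_erase_of_mem heS, hScard]
      omega)
  simp only [Finset.mem_union, Finset.mem_insert, Finset.mem_singleton, not_or] at hl'
  obtain ⟨⟨hl'l, hl'i, hl'j⟩, hl'S⟩ := hl'
  have hl'S' : l'.succ ∉ S := by
    intro h
    apply hl'S
    refine Finset.mem_image.2 ⟨l'.succ, Finset.mem_erase.2 ⟨fun h1 => hl'l (Fin.succ_injective _ h1), h⟩, rfl⟩
  obtain ⟨l'', -, hl''⟩ := Finset.exists_mem_notMem_of_card_lt_card
    (s := ({l, l', i, j} : Finset (Fin k))) (t := Finset.univ) (by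
      rw [Finset.card_univ, Fintype.card_fin]
      have h2 : ({l, l', i, j} : Finset (Fin k)).card ≤ 4 := Finset.card_le_four
      omega)
  simp only [Finset.mem_insert, Finset.mem_singleton, not_or] at hl''
  obtain ⟨hl''l, hl''l', hl''i, hl''j⟩ := hl''
  set ς : Equiv.Perm (Fin k) := Equiv.swap l l' * Equiv.swap l' l'' with hςd
  have hsgn : Equiv.Perm.sign ς = 1 := by
    rw [hςd, Equiv.Perm.sign_mul, Equiv.Perm.sign_swap (Ne.symm hl'l), Equiv.Perm.sign_swap (Ne.symm hl''l')]
    rfl
  have hςi : ς i = i := by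
    rw [hςd, Equiv.Perm.mul_apply, Equiv.swap_apply_of_ne_of_ne (Ne.symm hl'i) (Ne.symm hl''i),
      Equiv.swap_apply_of_ne_of_ne (Ne.symm hli) (Ne.symm hl'i)]
  have hςj : ς j = j := by
    rw [hςd, Equiv.Perm.mul_apply, Equiv.swap_apply_of_ne_of_ne (Ne.symm hl'j) (Ne.symm hl''j),
      Equiv.swap_apply_of_ne_of_ne (Ne.symm hlj) (Ne.symm hl'j)]
  have hςl : ς l = l' := by
    rw [hςd, Equiv.Perm.mul_apply, Equiv.swap_apply_of_ne_of_ne (Ne.symm hl'l) (Ne.symm hl''l),
      Equiv.swap_apply_left]
  -- the permutation of `Fin (k + 1)`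
  let σ : Equiv.Perm (Fin (k + 1)) :=
    { toFun := fun q => Fin.cases 0 (fun q => (ς q).succ) q
      invFun := fun q => Fin.cases 0 (fun q => (ς.symm q).succ) q
      left_inv := by
        intro q
        refine Fin.cases ?_ (fun q => ?_) q
        · rfl
        · show Fin.succ (ς.symm (ς q)) = q.succ
          rw [Equiv.symm_apply_apply]
      right_inv := by
        intro q
        refine Fin.cases ?_ (fun q => ?_) q
        · rfl
        · show Fin.succ (ς (ς.symm q)) = q.succ
          rw [Equiv.apply_symm_apply] }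
  have hσ0 : σ 0 = 0 := rfl
  have hσs : ∀ q : Fin k, σ q.succ = (ς q).succ := fun q => rfl
  have hσl : σ l.succ = l'.succ := by rw [hσs, hςl]
  have hinv := inv ς hsgn hςi hςj σ hσ0 hσs
  have hall : ∀ z : Fin (k + 1) → ℂ, (z (σ s) - z (σ a)) * (z (σ b) - z (σ c)) * (z s - z c) * (z b - z a) -
      (z s - z a) * (z b - z c) * (z (σ s) - z (σ c)) * (z (σ b) - z (σ a)) = 0 := by
    intro z
    refine ext_all (F := fun z => (z (σ s) - z (σ a)) * (z (σ b) - z (σ c)) * (z s - z c) * (z b - z a) -
      (z s - z a) * (z b - z c) * (z (σ s) - z (σ c)) * (z (σ b) - z (σ a))) (by fun_prop) (fun y hy => ?_) z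
    have h1 := hinv y hy
    unfold cr at h1
    have n1 : y (σ s) - y (σ c) ≠ 0 := sub_ne_zero.2 fun h => hcs (σ.injective (hy h)).symm
    have n2 : y (σ b) - y (σ a) ≠ 0 := sub_ne_zero.2 fun h => hab (σ.injective (hy h)).symm
    have n3 : y s - y c ≠ 0 := sub_ne_zero.2 fun h => hcs (hy h).symm
    have n4 : y b - y a ≠ 0 := sub_ne_zero.2 fun h => hab (hy h).symm
    rw [div_eq_div_iff (mul_ne_zero n1 n2) (mul_ne_zero n3 n4)] at h1
    linear_combination h1
  have hne : ∀ {x y : Fin (k + 1)}, x ≠ y → σ x ≠ σ y := fun h h' => h (σ.injective h')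
  have hkl := klein_of hab hac has hbc hbs hcs (hne hab) (hne hac) (hne has) (hne hbc) (hne hcs) hall
  have hmem : σ l.succ ∈ S := by
    have hl4 : l.succ = a ∨ l.succ = b ∨ l.succ = c ∨ l.succ = s := by
      simpa [hS] using heS
    rw [hS]
    simp only [Finset.mem_insert, Finset.mem_singleton]
    rcases hkl with ⟨h1, h2, h3, h4⟩ | ⟨h1, h2, h3, h4⟩ | ⟨h1, h2, h3, h4⟩ | ⟨h1, h2, h3, h4⟩ <;>
      rcases hl4 with h5 | h5 | h5 | h5 <;> rw [h5] <;> simp [h1, h2, h3, h4]
  rw [hσl] at hmem
  exact hl'S' hmem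

end Pool.Agent.LR
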