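import Pool.Agent.LR.QBase
import Pool.Agent.LR.QId
import Pool.Agent.LR.Glue

/-!
# LR QFin1: if all quotients are constant on one level, `f` is constant

`up`, `down`: from the level `a` to `a + 1`: for `x ∈ WW (sw 0)`, `ρ (a + 1) (x ∘ sw 0) (θ 0 α) = ρ a x α`, so `VV (ρ (a+1) ·) (ta (θ 0) p)` is
constant on the set of the `x ∘ sw 0`, `x ∈ WW (sw 0)`, which is open, non-empty (`wit_mem`) and contained in `XX k` (`WW_comp`); `id_XX`
(with `h.an`).  In the same way from `a + 1` to `a`.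

`const_level`: all differences are constant multiples of `D x = ρ a x α₁ - ρ a x α₀`: `ρ a x α - ρ a x β = κ α β * D x`, so
`vd (ρ a x) = K * D x ^ (number of pairs)`, and `vd ^ 2 = 1` (`vd2`) shows that `D x ^ (2 * number of pairs)` is a constant, so `D x` takes only
finitely many values on the preconnected set `XX k`, and is constant; with `∑ ρ a x α = 0` each `ρ a x α` is constant.  So
`f (GG a x)` (`OC.poly_inj`) is a constant `C a` on `XX k`.

`link`: `C (a + 1) = C a` by `GG_comp` (`inv (sw 0) = 1`).  Every `z ∈ SG k` is `GG a x` for some `a` and `x ∈ XX k`: `OC.exists_ordered`,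
`lexsort`, `lg_int`, `GG_of_lg` (as in `LR/Glue.lean`).
-/

set_option autoImplicit false

open Topology Filter

noncomputable section

namespace Pool.Agent.LR

open Pool.Agent.H60.OC (Pr NN nm zc SG MF IsRoots vd poly HoloOn)

variable {k n : ℕ} {f : (Fin k → ℂ) → (Fin n → ℂ)} {ρ : ℤ → (Fin k → ℂ) → (Fin n → ℂ)}
  {θ : ℕ → Equiv.Perm (Fin n)} {T : Equiv.Perm (Fin n)} {blk : Fin n → Option (Fin k)}

theorem QFin1_VV_an (h : Ctx k n f ρ θ T blk) (a : ℤ) (p : Tr n) {γ : ℂ → (Fin k → ℂ)} {w₀ : ℂ}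
    (hγ : AnalyticAt ℂ γ w₀) (hx : γ w₀ ∈ XX k) : AnalyticAt ℂ (fun w => VV (ρ a (γ w)) p) w₀ := by
  unfold VV
  exact ((h.an a hγ hx p.1.1).fun_sub (h.an a hγ hx p.1.2.1)).fun_div
    ((h.an a hγ hx p.1.1).fun_sub (h.an a hγ hx p.1.2.2)) (sub_ne_zero.2 ((h.inj a hx).ne p.2.2.1))

theorem QFin1_WW_open {k : ℕ} (σ : Equiv.Perm (Fin k)) : IsOpen (WW σ) := by
  have hW : WW σ = ⋂ i : Fin k, ⋂ j : Fin k, {x : Fin k → ℂ | i < j → (((x i).re < (x j).re ∨ (x i).im < (x j).im) ∧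
      (σ.symm j < σ.symm i → (x i).im < (x j).im))} := by
    ext x
    simp only [WW, Set.mem_ofPred_eq, Set.mem_iInter]
  have hre : ∀ i : Fin k, Continuous fun x : Fin k → ℂ => (x i).re := fun i =>
    Complex.continuous_re.comp (continuous_apply i)
  have him : ∀ i : Fin k, Continuous fun x : Fin k → ℂ => (x i).im := fun i =>
    Complex.continuous_im.comp (continuous_apply i)
  have h1 : ∀ i j : Fin k, IsOpen {x : Fin k → ℂ | (x i).re < (x j).re ∨ (x i).im < (x j).im} := fun i j =>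
    (isOpen_lt (hre i) (hre j)).union (isOpen_lt (him i) (him j))
  have h2 : ∀ i j : Fin k, IsOpen {x : Fin k → ℂ | (x i).im < (x j).im} := fun i j => isOpen_lt (him i) (him j)
  rw [hW]
  refine isOpen_iInter_of_finite fun i => isOpen_iInter_of_finite fun j => ?_
  by_cases hij : i < j
  · by_cases hs : σ.symm j < σ.symm i
    · have he : {x : Fin k → ℂ | i < j → (((x i).re < (x j).re ∨ (x i).im < (x j).im) ∧
          (σ.symm j < σ.symm i → (x i).im < (x j).im))} =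
          {x : Fin k → ℂ | (x i).re < (x j).re ∨ (x i).im < (x j).im} ∩ {x : Fin k → ℂ | (x i).im < (x j).im} := by
        ext x
        simp only [Set.mem_ofPred_eq, Set.mem_inter_iff, hij, hs, true_imp_iff]
      rw [he]
      exact (h1 i j).inter (h2 i j)
    · have he : {x : Fin k → ℂ | i < j → (((x i).re < (x j).re ∨ (x i).im < (x j).im) ∧
          (σ.symm j < σ.symm i → (x i).im < (x j).im))} =
          {x : Fin k → ℂ | (x i).re < (x j).re ∨ (x i).im < (x j).im} := by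
        ext x
        simp only [Set.mem_ofPred_eq, hij, hs, true_imp_iff, false_imp_iff, and_true]
      rw [he]
      exact h1 i j
  · have he : {x : Fin k → ℂ | i < j → (((x i).re < (x j).re ∨ (x i).im < (x j).im) ∧
        (σ.symm j < σ.symm i → (x i).im < (x j).im))} = Set.univ := by
      ext x
      simp only [Set.mem_ofPred_eq, hij, false_imp_iff, Set.mem_univ]
    rw [he]
    exact isOpen_univ

theorem QFin1_sw_sw {k : ℕ} (i : ℕ) (l : Fin k) : (sw i : Equiv.Perm (Fin k)) ((sw i : Equiv.Perm (Fin k)) l) = l := by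
  by_cases hi : i + 1 < k
  · rw [sw, dif_pos hi, Equiv.swap_apply_self]
  · rw [sw, dif_neg hi]
    rfl

theorem Ctx.up (h : Ctx k n f ρ θ T blk) {a : ℤ} (hc : ∀ p : Tr n, ∃ c, ∀ x ∈ XX k, VV (ρ a x) p = c) :
    ∀ p : Tr n, ∃ c, ∀ x ∈ XX k, VV (ρ (a + 1) x) p = c := by
  have hk := h.hk
  intro q
  obtain ⟨p, rfl⟩ : ∃ p : Tr n, ta (θ 0) p = q := ⟨(ta (θ 0)).symm q, Equiv.apply_symm_apply _ _⟩
  obtain ⟨c, hcp⟩ := hc p
  obtain ⟨O, hO⟩ : ∃ O : Set (Fin k → ℂ), O = {y | (fun l => y ((sw 0 : Equiv.Perm (Fin k)) l)) ∈ WW (sw 0)} := ⟨_, rfl⟩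
  have hinv : ∀ y : Fin k → ℂ, (fun l => (fun l => y ((sw 0 : Equiv.Perm (Fin k)) l)) ((sw 0 : Equiv.Perm (Fin k)) l)) = y := by
    intro y
    funext l
    show y ((sw 0 : Equiv.Perm (Fin k)) ((sw 0 : Equiv.Perm (Fin k)) l)) = y l
    rw [QFin1_sw_sw]
  have hopen : IsOpen O := by
    rw [hO]
    exact (QFin1_WW_open (sw 0)).preimage (continuous_pi fun l => continuous_apply _)
  have hne : O.Nonempty := by
    refine ⟨fun l => (fun l : Fin k => ((((1 : Equiv.Perm (Fin k)).symm l : Fin k) : ℕ) : ℂ) +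
      Complex.I * ((l : ℕ) : ℂ)) ((sw 0 : Equiv.Perm (Fin k)) l), ?_⟩
    rw [hO, Set.mem_ofPred_eq]
    have h2 := wit_mem (1 : Equiv.Perm (Fin k)) (sw 0)
    rw [← hinv (fun l : Fin k => ((((1 : Equiv.Perm (Fin k)).symm l : Fin k) : ℕ) : ℂ) +
      Complex.I * ((l : ℕ) : ℂ))] at h2
    exact h2
  have hsub : O ⊆ XX k := by
    intro y hy
    rw [hO] at hy
    have h1 := WW_comp (sw 0) hy
    have h2 := hinv y
    simp only at h1 h2
    rw [h2] at h1
    exact h1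
  refine ⟨c, id_XX (g := fun x => VV (ρ (a + 1) x) (ta (θ 0) p)) ?_ hopen hne hsub ?_⟩
  · intro γ w₀ hγ hx
    exact QFin1_VV_an h (a + 1) _ hγ hx
  · intro y hy
    rw [hO] at hy
    have h1 := hcp _ (WW_sub _ hy)
    rw [VV_ta]
    rw [← h1]
    congr 1
    funext α
    have h2 := h.tr 0 (by omega) a _ hy α
    have h3 := hinv y
    simp only at h2 h3
    rw [h3] at h2
    exact h2

theorem Ctx.down (h : Ctx k n f ρ θ T blk) {a : ℤ} (hc : ∀ p : Tr n, ∃ c, ∀ x ∈ XX k, VV (ρ (a + 1) x) p = c) :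
    ∀ p : Tr n, ∃ c, ∀ x ∈ XX k, VV (ρ a x) p = c := by
  have hk := h.hk
  intro p
  obtain ⟨c, hcp⟩ := hc (ta (θ 0) p)
  refine ⟨c, id_XX (g := fun x => VV (ρ a x) p) ?_ (QFin1_WW_open (sw 0))
    ⟨_, wit_mem (1 : Equiv.Perm (Fin k)) (sw 0)⟩ (WW_sub _) ?_⟩
  · intro γ w₀ hγ hx
    exact QFin1_VV_an h a _ hγ hx
  · intro x hx
    have h1 := hcp _ (WW_comp _ hx)
    rw [VV_ta] at h1
    rw [← h1]
    show VV (ρ a x) p = _
    congr 1
    funext α
    exact (h.tr 0 (by omega) a _ hx α).symm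

theorem QFin1_const {X : Type*} [TopologicalSpace X] {s : Set X} (hs : IsPreconnected s) {g : X → ℂ}
    (hg : ContinuousOn g s) {F : Set ℂ} (hF : F.Finite) (hm : ∀ x ∈ s, g x ∈ F) :
    ∀ x ∈ s, ∀ y ∈ s, g x = g y := by
  intro x hx y hy
  by_contra hne
  have h1 : IsPreconnected (g '' s) := hs.image g hg
  have h2 : (g '' s).Nontrivial := ⟨g x, ⟨x, hx, rfl⟩, g y, ⟨y, hy, rfl⟩, hne⟩
  refine h1.infinite_of_nontrivial h2 (hF.subset ?_)
  rintro _ ⟨z, hz, rfl⟩
  exact hm z hz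

theorem QFin1_pow_finite (m : ℕ) (hm : 0 < m) (c : ℂ) : {z : ℂ | z ^ m = c}.Finite := by
  have h : {z : ℂ | z ^ m = c} ⊆ ((Polynomial.nthRoots m c).toFinset : Set ℂ) := by
    intro z hz
    rw [Finset.mem_coe, Multiset.mem_toFinset, Polynomial.mem_nthRoots hm]
    exact hz
  exact (Finset.finite_toSet _).subset h

theorem QFin1_pre (k : ℕ) : IsPreconnected (XX k) :=
  ((XX_star k).isPathConnected (XX_base k)).isConnected.isPreconnected

theorem QFin1_root_const (h : Ctx k n f ρ θ T blk) {a : ℤ} (hc : ∀ p : Tr n, ∃ c, ∀ x ∈ XX k, VV (ρ a x) p = c) :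
    ∀ x ∈ XX k, ∀ y ∈ XX k, ρ a x = ρ a y := by
  have hn := h.hn
  obtain ⟨α₀, hα₀⟩ : ∃ α : Fin n, α = ⟨0, by omega⟩ := ⟨_, rfl⟩
  obtain ⟨α₁, hα₁⟩ : ∃ α : Fin n, α = ⟨1, by omega⟩ := ⟨_, rfl⟩
  have h01 : α₀ ≠ α₁ := by
    rw [hα₀, hα₁]
    intro h0
    have := congrArg Fin.val h0
    simp at this
  -- all roots in terms of the difference
  have h1 : ∀ β : Fin n, ∃ κ : ℂ, ∀ x ∈ XX k, ρ a x β = ρ a x α₀ + κ * (ρ a x α₁ - ρ a x α₀) := by
    intro β
    by_cases hb0 : β = α₀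
    · exact ⟨0, fun x _ => by rw [hb0]; ring⟩
    by_cases hb1 : β = α₁
    · exact ⟨1, fun x _ => by rw [hb1]; ring⟩
    obtain ⟨c, hcp⟩ := hc ⟨(α₀, β, α₁), fun e => hb0 e.symm, h01, hb1⟩
    refine ⟨c, fun x hx => ?_⟩
    have h2 := hcp x hx
    have h3 : ρ a x α₀ - ρ a x α₁ ≠ 0 := sub_ne_zero.2 ((h.inj a hx).ne h01)
    have h4 : (ρ a x α₀ - ρ a x β) / (ρ a x α₀ - ρ a x α₁) = c := h2
    rw [div_eq_iff h3] at h4
    linear_combination -h4
  choose κ hκ using h1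
  -- the discriminant
  have hcard : 0 < Fintype.card (Pr n) := by
    have hlt : (⟨0, by omega⟩ : Fin n) < ⟨1, by omega⟩ := by
      rw [Fin.lt_def]
      simp
    exact Fintype.card_pos_iff.2 ⟨⟨(⟨0, by omega⟩, ⟨1, by omega⟩), hlt⟩⟩
  obtain ⟨K, hK⟩ : ∃ K : ℂ, K = ∏ p : Pr n, (κ p.1.1 - κ p.1.2) := ⟨_, rfl⟩
  have h2 : ∀ x ∈ XX k, K ^ 2 * (ρ a x α₁ - ρ a x α₀) ^ (Fintype.card (Pr n) * 2) = 1 := by
    intro x hx
    have h3 := h.vd2 a hx
    rw [Pool.Agent.H60.OC.vd_eq] at h3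
    have h4 : ∏ p : Pr n, Pool.Agent.H60.OC.ell p (ρ a x) = K * (ρ a x α₁ - ρ a x α₀) ^ Fintype.card (Pr n) := by
      rw [hK, ← Finset.card_univ, ← Finset.prod_const, ← Finset.prod_mul_distrib]
      refine Finset.prod_congr rfl fun p _ => ?_
      unfold Pool.Agent.H60.OC.ell
      rw [hκ p.1.1 x hx, hκ p.1.2 x hx]
      ring
    rw [h4, mul_pow, ← pow_mul] at h3
    exact h3
  have hK0 : K ^ 2 ≠ 0 := by
    intro h0
    have := h2 _ (XX_base k)
    rw [h0, zero_mul] at this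
    exact zero_ne_one this
  have hD : ∀ x ∈ XX k, ∀ y ∈ XX k, ρ a x α₁ - ρ a x α₀ = ρ a y α₁ - ρ a y α₀ := by
    refine QFin1_const (QFin1_pre k) (g := fun x => ρ a x α₁ - ρ a x α₀) ?_
      (QFin1_pow_finite (Fintype.card (Pr n) * 2) (by omega) (K ^ 2)⁻¹) ?_
    · exact (continuousOn_pi.1 (h.cont a) α₁).sub (continuousOn_pi.1 (h.cont a) α₀)
    · intro x hx
      have h3 := h2 x hx
      show (ρ a x α₁ - ρ a x α₀) ^ (Fintype.card (Pr n) * 2) = (K ^ 2)⁻¹
      exact eq_inv_of_mul_eq_one_right h3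
  have h3 : ∀ x ∈ XX k, (n : ℂ) * ρ a x α₀ + (∑ β, κ β) * (ρ a x α₁ - ρ a x α₀) = 0 := by
    intro x hx
    have h4 := h.sum0 a hx
    rw [Finset.sum_congr rfl fun β _ => hκ β x hx, Finset.sum_add_distrib, Finset.sum_const, Finset.card_univ,
      Fintype.card_fin, nsmul_eq_mul, ← Finset.sum_mul] at h4
    exact h4
  have hn0 : (n : ℂ) ≠ 0 := by
    have : n ≠ 0 := by omega
    exact_mod_cast this
  intro x hx y hy
  have h4 : ρ a x α₀ = ρ a y α₀ := by
    have e1 := h3 x hx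
    have e2 := h3 y hy
    rw [hD x hx y hy] at e1
    exact mul_left_cancel₀ hn0 (by linear_combination e1 - e2)
  funext β
  rw [hκ β x hx, hκ β y hy, hD x hx y hy, h4]

theorem Ctx.const_level (h : Ctx k n f ρ θ T blk) {a : ℤ} (hc : ∀ p : Tr n, ∃ c, ∀ x ∈ XX k, VV (ρ a x) p = c) :
    ∃ C, ∀ x ∈ XX k, f (GG a x) = C := by
  refine ⟨f (GG a (fun i : Fin k => ((i : ℕ) : ℂ))), fun x hx => ?_⟩
  have h1 := h.root a x hx
  have h2 := h.root a _ (XX_base k)
  rw [QFin1_root_const h hc x hx _ (XX_base k)] at h1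
  exact Pool.Agent.H60.OC.poly_inj (h1.trans h2.symm)

theorem exists_GG {k : ℕ} (hk : 2 ≤ k) {z : Fin k → ℂ} (hz : z ∈ SG k) : ∃ a : ℤ, ∃ x ∈ XX k, GG a x = z := by
  obtain ⟨y, hy, hr⟩ := Pool.Agent.H60.OC.exists_ordered hk hz
  obtain ⟨π, hπ⟩ := lexsort y (Pool.Agent.H60.OC.inj_of_mem hy)
  have hX : (fun i => y (π i)) ∈ XX k := by
    intro i j hij
    show y (π j) - y (π i) ∈ Complex.slitPlane
    rw [Complex.mem_slitPlane_iff, Complex.sub_re, Complex.sub_im]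
    rcases hπ i j hij with h | h
    · left
      linarith
    · right
      have := h.2
      intro h0
      linarith
  have hv : vd (fun i => y (π i)) ^ 2 = 1 := by
    rw [Pool.Agent.H60.OC.vd_perm, hy.2, mul_one]
    rcases Int.units_eq_one_or (Equiv.Perm.sign π) with h2 | h2 <;> rw [h2] <;> simp
  obtain ⟨a, ha⟩ := lg_int hX hv
  have hs : ∑ i, y (π i) = 0 := by
    rw [Equiv.sum_comp π y]
    exact hy.1
  refine ⟨a, _, hX, ?_⟩
  rw [GG_of_lg a hs ha, zc_comp]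
  exact Pool.Agent.H60.OC.poly_inj ((Pool.Agent.H60.OC.zc_roots y).trans hr.symm)

theorem Ctx.fin1 (h : Ctx k n f ρ θ T blk) {a : ℤ} (hc : ∀ p : Tr n, ∃ c, ∀ x ∈ XX k, VV (ρ a x) p = c) :
    ∀ z ∈ SG k, ∀ z' ∈ SG k, f z = f z' := by
  have hk := h.hk
  have hall : ∀ b : ℤ, ∀ p : Tr n, ∃ c, ∀ x ∈ XX k, VV (ρ b x) p = c := by
    have hup : ∀ m : ℕ, ∀ p : Tr n, ∃ c, ∀ x ∈ XX k, VV (ρ (a + (m : ℤ)) x) p = c := by
      intro m
      induction m with
      | zero => simpa using hc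
      | succ m ih =>
        have h1 := h.up ih
        rw [add_assoc] at h1
        exact_mod_cast h1
    have hdn : ∀ m : ℕ, ∀ p : Tr n, ∃ c, ∀ x ∈ XX k, VV (ρ (a - (m : ℤ)) x) p = c := by
      intro m
      induction m with
      | zero => simpa using hc
      | succ m ih =>
        refine h.down (a := a - ((m + 1 : ℕ) : ℤ)) ?_
        have e : a - ((m + 1 : ℕ) : ℤ) + 1 = a - (m : ℤ) := by
          push_cast
          ring
        rw [e]
        exact ih
    intro b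
    rcases le_total a b with hab | hab
    · have h1 := hup (b - a).toNat
      have e : a + (((b - a).toNat : ℕ) : ℤ) = b := by omega
      rw [e] at h1
      exact h1
    · have h1 := hdn (a - b).toNat
      have e : a - (((a - b).toNat : ℕ) : ℤ) = b := by omega
      rw [e] at h1
      exact h1
  have hC := fun b : ℤ => h.const_level (hall b)
  choose C hC using hC
  have hstep : ∀ b : ℤ, C (b + 1) = C b := by
    intro b
    have hw := wit_mem (1 : Equiv.Perm (Fin k)) (sw 0)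
    have h1 := GG_comp (sw 0) b hw
    rw [inv_sw 0 (by omega)] at h1
    rw [← hC (b + 1) _ (WW_comp _ hw), ← hC b _ (WW_sub _ hw), h1]
  have hconst : ∀ b : ℤ, C b = C 0 := by
    intro b
    induction b using Int.induction_on with
    | zero => rfl
    | succ m ih => rw [hstep, ih]
    | pred m ih =>
      have h1 := hstep (-(m : ℤ) - 1)
      rw [sub_add_cancel] at h1
      rw [← h1, ih]
  intro z hz z' hz'
  obtain ⟨b, x, hx, rfl⟩ := exists_GG (by omega) hz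
  obtain ⟨b', x', hx', rfl⟩ := exists_GG (by omega) hz'
  rw [hC b x hx, hC b' x' hx', hconst b, hconst b']

end Pool.Agent.LR
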