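import Pool.Agent.LR.QU
import Pool.Agent.LR.QId
import Pool.Agent.LR.QAlg

/-!
# LR QFin2: the case of invariant quotients, `T ≠ 1`

`mult`: on each level `a` and for each `x ∈ XX k` there is `P a x` with `ρ a x (T α) = P a x * ρ a x α` (`mult_abs`, `sum0`, `inj`);
`T ^ n ! = 1` gives `P ^ n ! = 1` (some `ρ a x α ≠ 0`), `P a x = ρ a x (T α) / ρ a x α` is locally a continuous function of `x`, so constant on the
preconnected `XX k` (values in a finite set; where one `ρ a x α` vanishes use another `α`: at most one of the roots is `0`).  `P` is the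
same on neighbouring levels: `h.tr` at a point of `WW (sw 0)`, `θ 0 * T = T * θ 0`.  `P ≠ 1` as `T ≠ 1` and `ρ a x` is injective.

`local_nrm`: for `x₀ ∈ MF k`, `y₀ = x₀ ∘ srt x₀`, `a₀ = lvl y₀`: `nrm a₀ y₀ = y₀`, and for `y` near `y₀` (in `Fin k → ℂ`): `y ∈ XX k`, `y' = nrm a₀ y` is near `y₀`,
`lg y' = - π i a₀` (`exp (lg y')^2 = vd^2 = 1`, continuity, integrality), `GG a₀ y' = zc y' = GG a₀ y` (`GG_of_lg`), and `ρ a₀ y' = ρ a₀ y` (both are continuous root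
functions of the same polynomials on a ball around `y₀`, equal at `y₀`: `exists_perm_on`); `y' ∘ (srt x₀)⁻¹ ∈ MF k` (its `vd` is `± 1` and near
`vd x₀ = 1`).

`fin2`: let `α₁` with `T α₁ ≠ α₁` (it is in a block, `T_none`).  For every `α` with `T α ≠ α`: `ρ a₀ y α = κ ρ a₀ y α₁` for `y` near `y₀`, `κ` constant: by `U_const` with
`C` the order of `P` (`C`-th powers have a constant quotient on `MF k` near `x₀`, by `U_near`; then the quotient itself is continuous with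
constant `C`-th power; if `α = T ^ m α₁` it is `P ^ m`).  If `T α = α` then `ρ a₀ y α = 0`.  So all `VV (ρ a₀ y) p` are constant near `y₀`, so on `XX k` (`id_XX`).
-/

set_option autoImplicit false

open Topology Filter

noncomputable section

namespace Pool.Agent.LR

open Pool.Agent.H60.OC (Pr NN nm zc SG MF IsRoots vd poly HoloOn Hy CHol)

variable {k n : ℕ} {f : (Fin k → ℂ) → (Fin n → ℂ)} {ρ : ℤ → (Fin k → ℂ) → (Fin n → ℂ)}
  {θ : ℕ → Equiv.Perm (Fin n)} {T : Equiv.Perm (Fin n)} {blk : Fin n → Option (Fin k)}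

theorem fin2_sq_one {v : ℂ} (hv : v ^ 2 = 1) : v = 1 ∨ v = -1 := sq_eq_one_iff.1 hv

/-- A continuous function with constant nonzero power on a preconnected set is constant. -/
theorem fin2_pow_const {X : Type*} [TopologicalSpace X] {S : Set X} (hS : IsPreconnected S) {g : X → ℂ}
    (hg : ContinuousOn g S) {C : ℕ} (hC : 0 < C) {c : ℂ} (h : ∀ x ∈ S, g x ^ C = c) :
    ∀ x ∈ S, ∀ y ∈ S, g x = g y := by
  have hfin : {z : ℂ | z ^ C = c}.Finite := by
    refine (Multiset.finite_toSet (Polynomial.nthRoots C c)).subset fun z hz => ?_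
    rw [Set.mem_ofPred_eq, Polynomial.mem_nthRoots hC]
    exact hz
  intro x hx y hy
  exact hS.constant_of_mapsTo hfin.isDiscrete hg (fun z hz => h z hz) hx hy

theorem fin2_ne {v : Fin n → ℂ} (hn : 3 ≤ n) (hv : Function.Injective v) : ∃ α, v α ≠ 0 := by
  by_contra hc
  push Not at hc
  have h1 : (⟨0, by omega⟩ : Fin n) = ⟨1, by omega⟩ := hv (by rw [hc, hc])
  have h2 := congrArg Fin.val h1
  simp at h2

theorem fin2_pow_apply {v : Fin n → ℂ} {P : ℂ} (hP : ∀ α, v (T α) = P * v α) (m : ℕ) (α : Fin n) :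
    v ((T ^ m) α) = P ^ m * v α := by
  induction m with
  | zero => simp
  | succ m ih =>
    rw [pow_succ', Equiv.Perm.mul_apply, hP, ih]
    ring

theorem fin2_T_pow (T : Equiv.Perm (Fin n)) : T ^ Nat.factorial n = 1 := by
  have h1 := pow_card_eq_one (x := T)
  rwa [Fintype.card_perm, Fintype.card_fin] at h1

theorem Ctx.mult (h : Ctx k n f ρ θ T blk) (hT : T ≠ 1)
    (hi : ∀ (a : ℤ) (p : Tr n), ∀ x ∈ XX k, VV (ρ a x) (ta T p) = VV (ρ a x) p) :
    ∃ (P : ℂ) (C : ℕ), IsPrimitiveRoot P C ∧ 0 < C ∧ P ≠ 1 ∧ ∀ a, ∀ x ∈ XX k, ∀ α, ρ a x (T α) = P * ρ a x α := by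
  have hk := h.hk
  have hn := h.hn
  have h0 : ∀ (a : ℤ) (x : Fin k → ℂ), ∃ P : ℂ, x ∈ XX k → ∀ α, ρ a x (T α) = P * ρ a x α := by
    intro a x
    by_cases hx : x ∈ XX k
    · obtain ⟨P, hP⟩ := mult_abs hn (h.inj a hx) (h.sum0 a hx) (fun p => hi a p x hx)
      exact ⟨P, fun _ => hP⟩
    · exact ⟨0, fun h => absurd h hx⟩
  choose P hP using h0
  have hpow : ∀ a, ∀ x ∈ XX k, P a x ^ Nat.factorial n = 1 := by
    intro a x hx
    obtain ⟨α, hα⟩ := fin2_ne hn (h.inj a hx)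
    have h1 := fin2_pow_apply (hP a x hx) (Nat.factorial n) α
    rw [fin2_T_pow, Equiv.Perm.one_apply] at h1
    have h2 : (P a x ^ Nat.factorial n - 1) * ρ a x α = 0 := by
      rw [sub_mul, one_mul, ← h1, sub_self]
    rcases mul_eq_zero.1 h2 with h3 | h3
    · exact sub_eq_zero.1 h3
    · exact absurd h3 hα
  have hcont : ∀ a, ContinuousOn (P a) (XX k) := by
    intro a x hx
    obtain ⟨α, hα⟩ := fin2_ne hn (h.inj a hx)
    have hc : ∀ β, ContinuousAt (fun y => ρ a y β) x := fun β =>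
      (continuousOn_pi.1 (h.cont a) β).continuousAt ((XX_open k).mem_nhds hx)
    refine ContinuousAt.continuousWithinAt ?_
    have hq : ContinuousAt (fun y => ρ a y (T α) / ρ a y α) x := (hc (T α)).div (hc α) hα
    refine hq.congr ?_
    filter_upwards [(XX_open k).mem_nhds hx, (hc α).eventually_ne hα] with y hy hy'
    rw [hP a y hy α, mul_div_cancel_right₀ _ hy']
  have hconn : IsPreconnected (XX k) := ((XX_star k).isPathConnected (XX_base k)).isConnected.isPreconnected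
  have hcst : ∀ a, ∀ x ∈ XX k, ∀ y ∈ XX k, P a x = P a y := fun a =>
    fin2_pow_const hconn (hcont a) (Nat.factorial_pos n) (hpow a)
  obtain ⟨x₁, hx₁⟩ : ∃ x : Fin k → ℂ, x ∈ WW (sw 0) := ⟨_, wit_mem 1 (sw 0)⟩
  have hx₁X := WW_sub _ hx₁
  have hx₁X' := WW_comp _ hx₁
  have hlev : ∀ a, P (a + 1) (fun l => x₁ ((sw 0 : Equiv.Perm (Fin k)) l)) = P a x₁ := by
    intro a
    obtain ⟨α, hα⟩ := fin2_ne hn (h.inj a hx₁X)
    have h1 := h.tr 0 (by omega) a x₁ hx₁ α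
    have h2 := h.tr 0 (by omega) a x₁ hx₁ (T α)
    have h3 : θ 0 (T α) = T (θ 0 α) := congrArg (fun e : Equiv.Perm (Fin n) => e α) (h.blkS.com 0 (by omega))
    rw [h3, hP _ _ hx₁X', hP _ _ hx₁X, h1] at h2
    exact mul_right_cancel₀ hα h2
  have hall : ∀ a, ∀ x ∈ XX k, P a x = P 0 x₁ := by
    have hs : ∀ a, P (a + 1) x₁ = P a x₁ := fun a => by rw [← hlev a]; exact hcst (a + 1) _ hx₁X _ hx₁X'
    have h1 : ∀ a, P a x₁ = P 0 x₁ := by
      intro a
      induction a using Int.induction_on with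
      | zero => rfl
      | succ n ih => rw [hs, ih]
      | pred n ih =>
        rw [← ih, ← hs, show (-(n : ℤ) - 1 + 1) = -n by ring]
    intro a x hx
    rw [hcst a x hx x₁ hx₁X, h1]
  refine ⟨P 0 x₁, orderOf (P 0 x₁), IsPrimitiveRoot.orderOf _, ?_, ?_, ?_⟩
  · exact orderOf_pos_iff.2 (isOfFinOrder_iff_pow_eq_one.2 ⟨_, Nat.factorial_pos n, hpow 0 x₁ hx₁X⟩)
  · intro h1
    apply hT
    ext α
    have h2 := hP 0 x₁ hx₁X α
    rw [h1, one_mul] at h2
    exact congrArg Fin.val (h.inj 0 hx₁X h2)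
  · intro a x hx α
    rw [hP a x hx, hall a x hx]

theorem fin2_sum_nm {x : Fin k → ℂ} (hk : 2 ≤ k) (t : ℂ) : ∑ i, nm x t i = 0 := by
  have hkC : (k : ℂ) ≠ 0 := by
    have : k ≠ 0 := by omega
    exact_mod_cast this
  unfold nm
  rw [← Finset.sum_div, Finset.sum_sub_distrib, Finset.sum_const, Finset.card_univ, Fintype.card_fin, nsmul_eq_mul,
    mul_div_cancel₀ _ hkC, sub_self, zero_div]

theorem fin2_vd_nrm (hk : 2 ≤ k) (a : ℤ) {x : Fin k → ℂ} (hx : x ∈ XX k) : vd (nrm a x) ^ 2 = 1 := by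
  obtain ⟨-, r, hr, hv⟩ := GG_mem hk a hx
  exact Pool.Agent.H60.OC.vd_sq_of_roots (Pool.Agent.H60.OC.zc_roots (nrm a x)) hr hv

theorem fin2_nrm_cont (a : ℤ) : ContinuousOn (nrm (k := k) a) (XX k) := by
  unfold nrm nm
  refine continuousOn_pi.2 fun i => ?_
  refine ContinuousOn.div ?_ ?_ fun x _ => Complex.exp_ne_zero _
  · exact (Continuous.sub (continuous_apply i) ((continuous_finsetSum _ fun j _ => continuous_apply j).div_const _)).continuousOn
  · exact (((lg_cont k).add continuousOn_const).div_const _).cexp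

theorem fin2_vd_cont : Continuous (vd (n := k)) := by
  unfold vd
  fun_prop

theorem Ctx.local_nrm (h : Ctx k n f ρ θ T blk) {x₀ : Fin k → ℂ} (hx₀ : x₀ ∈ MF k) :
    ∀ᶠ y in 𝓝 (fun l => x₀ (srt x₀ l)), y ∈ XX k ∧
      (fun l => nrm (lvl (fun l => x₀ (srt x₀ l))) y ((srt x₀).symm l)) ∈ MF k ∧
      nrm (lvl (fun l => x₀ (srt x₀ l))) y ∈ XX k ∧
      ρ (lvl (fun l => x₀ (srt x₀ l))) (nrm (lvl (fun l => x₀ (srt x₀ l))) y) = ρ (lvl (fun l => x₀ (srt x₀ l))) y := by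
  have hk := h.hk
  have hlv := lvl_spec hx₀
  obtain ⟨y₀, hy₀⟩ : ∃ y : Fin k → ℂ, y = fun l => x₀ (srt x₀ l) := ⟨_, rfl⟩
  obtain ⟨a, ha⟩ : ∃ a : ℤ, a = lvl (fun l => x₀ (srt x₀ l)) := ⟨_, rfl⟩
  rw [← ha] at hlv ⊢
  rw [← hy₀] at hlv ⊢
  have hX : y₀ ∈ XX k := by
    rw [hy₀]
    exact lex_mem_XX (srt_spec (Pool.Agent.H60.OC.inj_of_mem hx₀))
  have hsum : ∑ i, y₀ i = 0 := by
    rw [hy₀, Equiv.sum_comp (srt x₀) x₀]
    exact hx₀.1
  have hnrm : nrm a y₀ = y₀ := by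
    unfold nrm nm
    rw [hlv, hsum]
    funext i
    simp
  have hnc : ContinuousAt (nrm (k := k) a) y₀ := (fin2_nrm_cont a).continuousAt ((XX_open k).mem_nhds hX)
  have e1 : ∀ᶠ y in 𝓝 y₀, y ∈ XX k := (XX_open k).mem_nhds hX
  have e2 : ∀ᶠ y in 𝓝 y₀, nrm a y ∈ XX k := hnc.eventually_mem (by rw [hnrm]; exact (XX_open k).mem_nhds hX)
  have e3 : ∀ᶠ y in 𝓝 y₀, (fun l => nrm a y ((srt x₀).symm l)) ∈ MF k := by
    have hc : ContinuousAt (fun y : Fin k → ℂ => vd (fun l => nrm a y ((srt x₀).symm l))) y₀ := by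
      refine fin2_vd_cont.continuousAt.comp ?_
      exact continuousAt_pi.2 fun l => continuousAt_pi.1 hnc _
    have hv0 : vd (fun l => nrm a y₀ ((srt x₀).symm l)) = 1 := by
      rw [hnrm, hy₀]
      simp only [Equiv.apply_symm_apply]
      exact hx₀.2
    have h1 : ∀ᶠ y in 𝓝 y₀, vd (fun l => nrm a y ((srt x₀).symm l)) ≠ -1 :=
      hc.eventually_ne (by rw [hv0]; norm_num)
    filter_upwards [e1, h1] with y hy hy1
    refine ⟨?_, ?_⟩
    · rw [Equiv.sum_comp (srt x₀).symm (nrm a y)]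
      exact fin2_sum_nm (by omega) _
    · have h2 : vd (fun l => nrm a y ((srt x₀).symm l)) ^ 2 = 1 := by
        rw [Pool.Agent.H60.OC.vd_perm, mul_pow, fin2_vd_nrm (by omega) a hy, mul_one]
        rcases Int.units_eq_one_or (Equiv.Perm.sign (srt x₀).symm) with h2 | h2 <;> rw [h2] <;> simp
      rcases fin2_sq_one h2 with h3 | h3
      · exact h3
      · exact absurd h3 hy1
  -- the level of the normalised configuration
  have e4 : ∀ᶠ y in 𝓝 y₀, GG a (nrm a y) = GG a y := by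
    have hlc : ContinuousAt (fun y : Fin k → ℂ => ‖lg (nrm a y) - lg y₀‖) y₀ := by
      have h1 : ContinuousAt (fun y : Fin k → ℂ => lg (nrm a y)) y₀ :=
        ((lg_cont k).continuousAt ((XX_open k).mem_nhds hX)).comp_of_eq hnc hnrm
      exact (h1.sub continuousAt_const).norm
    have h1 : ∀ᶠ y in 𝓝 y₀, ‖lg (nrm a y) - lg y₀‖ < Real.pi := by
      refine hlc.eventually_lt continuousAt_const ?_
      rw [hnrm, sub_self, norm_zero]
      exact Real.pi_pos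
    filter_upwards [e1, e2, h1] with y hy hy2 hy3
    obtain ⟨b, hb⟩ := lg_int hy2 (fin2_vd_nrm (by omega) a hy)
    have h5 : b = a := by
      rw [hb, hlv] at hy3
      have e1 : -((Real.pi : ℂ) * Complex.I * (b : ℂ)) - -((Real.pi : ℂ) * Complex.I * (a : ℂ)) =
          (Real.pi : ℂ) * Complex.I * (((a - b : ℤ)) : ℂ) := by
        push_cast
        ring
      rw [e1, norm_mul, norm_mul, Complex.norm_I, mul_one, Complex.norm_real, Real.norm_eq_abs,
        abs_of_pos Real.pi_pos, Complex.norm_intCast] at hy3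
      have h6 : |((a - b : ℤ) : ℝ)| < 1 := by
        by_contra hcon
        push Not at hcon
        have := mul_le_mul_of_nonneg_left hcon Real.pi_pos.le
        linarith
      have h7 : |a - b| < 1 := by exact_mod_cast h6
      have h8 := Int.abs_lt_one_iff.mp h7
      omega
    rw [h5] at hb
    exact GG_of_lg a (fin2_sum_nm (by omega) _) hb
  -- the root functions agree on a ball
  obtain ⟨ε, hε, hball⟩ := Metric.eventually_nhds_iff_ball.1 (e1.and (e2.and e4))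
  have hconn : IsPreconnected (Metric.ball y₀ ε) := (convex_ball y₀ ε).isPreconnected
  obtain ⟨s, hs⟩ := exists_perm_on hconn (ρ := ρ a) (ρ' := fun y => ρ a (nrm a y)) (H := fun y => f (GG a y))
    ((h.cont a).mono fun y hy => (hball y hy).1)
    ((h.cont a).comp ((fin2_nrm_cont a).mono fun y hy => (hball y hy).1) fun y hy => (hball y hy).2.1)
    (fun y hy => h.root a y (hball y hy).1)
    (fun y hy => by
      have h1 := h.root a (nrm a y) (hball y hy).2.1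
      rw [(hball y hy).2.2] at h1
      exact h1)
    (fun y hy => h.inj a (hball y hy).1)
  have hs1 : s = 1 := by
    ext j
    have h1 := hs y₀ (Metric.mem_ball_self hε) j
    simp only [hnrm] at h1
    exact congrArg Fin.val (h.inj a hX h1)
  filter_upwards [e1, e2, e3, Metric.ball_mem_nhds y₀ hε] with y h1 h2 h3 h4
  refine ⟨h1, h3, h2, ?_⟩
  funext j
  have h5 := hs y h4 j
  rw [hs1, Equiv.Perm.one_apply] at h5
  exact h5

theorem fin2_VV_an (h : Ctx k n f ρ θ T blk) (a : ℤ) (p : Tr n) (γ : ℂ → (Fin k → ℂ)) (w₀ : ℂ)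
    (hγ : AnalyticAt ℂ γ w₀) (hx : γ w₀ ∈ XX k) : AnalyticAt ℂ (fun w => VV (ρ a (γ w)) p) w₀ := by
  unfold VV
  exact ((h.an a hγ hx p.1.1).fun_sub (h.an a hγ hx p.1.2.1)).fun_div
    ((h.an a hγ hx p.1.1).fun_sub (h.an a hγ hx p.1.2.2)) (sub_ne_zero.2 ((h.inj a hx).ne p.2.2.1))

theorem fin2_seq (hb : Blk k n θ T blk) {β β₁ : Fin k → Fin n} (hβ : Seq k n θ T blk β) (hβ₁ : Seq k n θ T blk β₁)
    (m : ℕ) : ∀ (i : ℕ) (hi : i < k), β ⟨i, hi⟩ = (T ^ m) (β₁ ⟨i, hi⟩) ↔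
      β ⟨0, by omega⟩ = (T ^ m) (β₁ ⟨0, by omega⟩) := by
  intro i
  induction i with
  | zero => intro _; exact Iff.rfl
  | succ i ih =>
    intro hi
    have hc : θ i * T ^ m = T ^ m * θ i := ((show Commute (θ i) T from hb.com i hi).pow_right m).eq
    have h3 : θ i ((T ^ m) (β₁ ⟨i, by omega⟩)) = (T ^ m) (β₁ ⟨i + 1, hi⟩) := by
      rw [← hβ₁.nxt i hi]
      exact congrArg (fun e : Equiv.Perm (Fin n) => e _) hc
    rw [← ih (by omega), ← hβ.nxt i hi, ← h3]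
    exact (θ i).injective.eq_iff

/-- The `C`-th powers of two values have a constant quotient near `y₀`. -/
theorem Ctx.fin2_pow (h : Ctx k n f ρ θ T blk) {P : ℂ} {C : ℕ} (hC : IsPrimitiveRoot P C) (hC0 : 0 < C)
    (hP : ∀ a, ∀ x ∈ XX k, ∀ α, ρ a x (T α) = P * ρ a x α) {x₀ : Fin k → ℂ} (hx₀ : x₀ ∈ MF k) {α α₁ : Fin n}
    (hα : T α ≠ α) (hα₁ : T α₁ ≠ α₁) (hne : ∀ m : ℕ, α ≠ (T ^ m) α₁) :
    ∃ c : ℂ, ∀ᶠ y in 𝓝 (fun l => x₀ (srt x₀ l)), ρ (lvl (fun l => x₀ (srt x₀ l))) y α ^ C =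
      c * ρ (lvl (fun l => x₀ (srt x₀ l))) y α₁ ^ C := by
  have hk := h.hk
  have hb : ∀ α : Fin n, T α ≠ α → ∃ j, blk α = some j := by
    intro α hα
    cases hc : blk α with
    | none => exact absurd (h.blkS.T_none α hc) hα
    | some j => exact ⟨j, rfl⟩
  obtain ⟨j, hj⟩ := hb α hα
  obtain ⟨j₁, hj₁⟩ := hb α₁ hα₁
  obtain ⟨β, hβj, hβ⟩ := h.blkS.seq α j hj
  obtain ⟨β₁, hβj₁, hβ₁⟩ := h.blkS.seq α₁ j₁ hj₁
  have hmv : ∀ {β : Fin k → Fin n}, Seq k n θ T blk β → (∃ j, T (β j) ≠ β j) → ∀ j, T (β j) ≠ β j := by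
    intro β hβ ⟨j, hj⟩
    have hstep : ∀ (i : ℕ) (hi : i + 1 < k), T (β ⟨i, by omega⟩) = β ⟨i, by omega⟩ ↔
        T (β ⟨i + 1, hi⟩) = β ⟨i + 1, hi⟩ := by
      intro i hi
      have h3 : θ i (T (β ⟨i, by omega⟩)) = T (θ i (β ⟨i, by omega⟩)) :=
        congrArg (fun e : Equiv.Perm (Fin n) => e _) (h.blkS.com i hi)
      rw [hβ.nxt i hi] at h3
      constructor
      · intro h4
        rw [h4, hβ.nxt i hi] at h3
        exact h3.symm
      · intro h4
        rw [h4, ← hβ.nxt i hi] at h3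
        exact (θ i).injective h3
    have hall : ∀ (i : ℕ) (hi : i < k), T (β ⟨i, hi⟩) = β ⟨i, hi⟩ ↔ T (β ⟨0, by omega⟩) = β ⟨0, by omega⟩ := by
      intro i
      induction i with
      | zero => intro _; exact Iff.rfl
      | succ i ih => intro hi; exact (hstep i hi).symm.trans (ih (by omega))
    intro j' hj'
    exact hj ((hall j j.2).2 ((hall j' j'.2).1 hj'))
  have hT := hmv hβ ⟨j, by rw [hβj]; exact hα⟩
  have hT₁ := hmv hβ₁ ⟨j₁, by rw [hβj₁]; exact hα₁⟩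
  obtain ⟨c, hc⟩ := h.U_const hC hC0 hP hβ hβ₁ hT hT₁ (srt x₀ j) (srt x₀ j₁) (by
    by_cases hjj : j = j₁
    · right
      subst hjj
      intro l m hlm
      have h1 := (fin2_seq h.blkS hβ hβ₁ m l.1 l.2).1 hlm
      have h2 := (fin2_seq h.blkS hβ hβ₁ m j.1 j.2).2 h1
      exact hne m (by rw [← hβj, ← hβj₁]; exact h2)
    · left
      exact fun h1 => hjj ((srt x₀).injective h1))
  refine ⟨c, ?_⟩
  have hn1 := h.U_near hC.pow_eq_one hP hβ hx₀ (srt x₀ j)
  have hn2 := h.U_near hC.pow_eq_one hP hβ₁ hx₀ (srt x₀ j₁)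
  have hlv := lvl_spec hx₀
  have hloc := h.local_nrm hx₀
  obtain ⟨y₀, hy₀⟩ : ∃ y : Fin k → ℂ, y = fun l => x₀ (srt x₀ l) := ⟨_, rfl⟩
  obtain ⟨a, ha⟩ : ∃ a : ℤ, a = lvl (fun l => x₀ (srt x₀ l)) := ⟨_, rfl⟩
  rw [← ha] at hn1 hn2 hlv hloc ⊢
  rw [← hy₀] at hlv hloc ⊢
  have hX : y₀ ∈ XX k := by
    rw [hy₀]
    exact lex_mem_XX (srt_spec (Pool.Agent.H60.OC.inj_of_mem hx₀))
  have hnrm : nrm a y₀ = y₀ := by
    have hsum : ∑ i, y₀ i = 0 := by
      rw [hy₀, Equiv.sum_comp (srt x₀) x₀]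
      exact hx₀.1
    unfold nrm nm
    rw [hlv, hsum]
    funext i
    simp
  have hnc : ContinuousAt (nrm (k := k) a) y₀ := (fin2_nrm_cont a).continuousAt ((XX_open k).mem_nhds hX)
  have htend : Tendsto (fun y : Fin k → ℂ => fun l => nrm a y ((srt x₀).symm l)) (𝓝 y₀) (𝓝[MF k] x₀) := by
    refine tendsto_nhdsWithin_iff.2 ⟨?_, hloc.mono fun y hy => hy.2.1⟩
    have h1 : ContinuousAt (fun y : Fin k → ℂ => fun l => nrm a y ((srt x₀).symm l)) y₀ :=
      continuousAt_pi.2 fun l => continuousAt_pi.1 hnc _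
    have h2 : (fun l => nrm a y₀ ((srt x₀).symm l)) = x₀ := by
      rw [hnrm, hy₀]
      funext l
      simp
    have h3 := h1.tendsto
    simp only [h2] at h3
    exact h3
  filter_upwards [htend.eventually hn1, htend.eventually hn2, hloc] with y h1 h2 h3
  have h4 := hc _ h3.2.1
  rw [h1.2, h2.2] at h4
  simp only [Equiv.symm_apply_apply, hβj, hβj₁] at h4
  have h5 : (fun l => nrm a y l) = nrm a y := rfl
  rw [h3.2.2.2] at h4
  exact h4

theorem Ctx.fin2 (h : Ctx k n f ρ θ T blk) (hT : T ≠ 1)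
    (hi : ∀ (a : ℤ) (p : Tr n), ∀ x ∈ XX k, VV (ρ a x) (ta T p) = VV (ρ a x) p) :
    ∃ a : ℤ, ∀ p : Tr n, ∃ c, ∀ x ∈ XX k, VV (ρ a x) p = c := by
  have hk := h.hk
  obtain ⟨P, C, hC, hC0, hP1, hP⟩ := h.mult hT hi
  obtain ⟨x₀, hx₀⟩ := Pool.Agent.H60.OC.MF_nonempty (k := k) (by omega)
  obtain ⟨α₁, hα₁⟩ : ∃ α, T α ≠ α := by
    by_contra hc
    push Not at hc
    exact hT (Equiv.ext hc)
  have hpow := fun α hα hne => h.fin2_pow hC hC0 hP hx₀ (α := α) (α₁ := α₁) hα hα₁ hne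
  obtain ⟨y₀, hy₀⟩ : ∃ y : Fin k → ℂ, y = fun l => x₀ (srt x₀ l) := ⟨_, rfl⟩
  obtain ⟨a, ha⟩ : ∃ a : ℤ, a = lvl (fun l => x₀ (srt x₀ l)) := ⟨_, rfl⟩
  rw [← ha] at hpow
  rw [← hy₀] at hpow
  have hX : y₀ ∈ XX k := by
    rw [hy₀]
    exact lex_mem_XX (srt_spec (Pool.Agent.H60.OC.inj_of_mem hx₀))
  have hne1 : ∀ y ∈ XX k, ρ a y α₁ ≠ 0 := by
    intro y hy h0
    have h1 := hP a y hy α₁
    rw [h0, mul_zero, ← h0] at h1
    exact hα₁ (h.inj a hy h1)
  -- every value is locally a constant multiple of the value at `α₁`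
  have hmul : ∀ α, ∃ κ : ℂ, ∀ᶠ y in 𝓝 y₀, ρ a y α = κ * ρ a y α₁ := by
    intro α
    by_cases hα : T α = α
    · refine ⟨0, ?_⟩
      filter_upwards [(XX_open k).mem_nhds hX] with y hy
      have h1 := hP a y hy α
      rw [hα] at h1
      have h2 : (P - 1) * ρ a y α = 0 := by
        rw [sub_mul, one_mul, ← h1, sub_self]
      rcases mul_eq_zero.1 h2 with h3 | h3
      · exact absurd (sub_eq_zero.1 h3) hP1
      · rw [h3, zero_mul]
    · by_cases hm : ∃ m : ℕ, α = (T ^ m) α₁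
      · obtain ⟨m, rfl⟩ := hm
        refine ⟨P ^ m, ?_⟩
        filter_upwards [(XX_open k).mem_nhds hX] with y hy
        exact fin2_pow_apply (hP a y hy) m α₁
      · push Not at hm
        obtain ⟨c, hc⟩ := hpow α hα hm
        obtain ⟨ε, hε, hball⟩ := Metric.eventually_nhds_iff_ball.1 (hc.and ((XX_open k).mem_nhds hX))
        have hconn : IsPreconnected (Metric.ball y₀ ε) := (convex_ball y₀ ε).isPreconnected
        have hcc : ∀ β, ContinuousOn (fun y => ρ a y β) (Metric.ball y₀ ε) := fun β =>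
          (continuousOn_pi.1 (h.cont a) β).mono fun y hy => (hball y hy).2
        have h1 := fin2_pow_const hconn (g := fun y => ρ a y α / ρ a y α₁)
          ((hcc α).div (hcc α₁) fun y hy => hne1 y (hball y hy).2) hC0 (c := c) (fun y hy => by
            rw [div_pow, (hball y hy).1, mul_div_cancel_right₀]
            exact pow_ne_zero _ (hne1 y (hball y hy).2))
        refine ⟨ρ a y₀ α / ρ a y₀ α₁, ?_⟩
        filter_upwards [Metric.ball_mem_nhds y₀ hε] with y hy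
        have h2 : ρ a y α / ρ a y α₁ = ρ a y₀ α / ρ a y₀ α₁ := h1 y hy y₀ (Metric.mem_ball_self hε)
        rw [← h2, div_mul_cancel₀ _ (hne1 y (hball y hy).2)]
  choose κ hκ using hmul
  refine ⟨a, fun p => ?_⟩
  have hev : ∀ᶠ y in 𝓝 y₀, y ∈ XX k ∧ VV (ρ a y) p = (κ p.1.1 - κ p.1.2.1) / (κ p.1.1 - κ p.1.2.2) := by
    filter_upwards [(XX_open k).mem_nhds hX, hκ p.1.1, hκ p.1.2.1, hκ p.1.2.2] with y hy h1 h2 h3
    refine ⟨hy, ?_⟩
    unfold VV
    rw [h1, h2, h3, ← sub_mul, ← sub_mul, mul_div_mul_right _ _ (hne1 y hy)]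
  obtain ⟨O, hO1, hO2, hO3⟩ := mem_nhds_iff.1 hev
  exact ⟨_, id_XX (g := fun x => VV (ρ a x) p) (fun γ w₀ hγ hx => fin2_VV_an h a p γ w₀ hγ hx) hO2 ⟨y₀, hO3⟩
    (fun x hx => (hO1 hx).1) fun x hx => (hO1 hx).2⟩

end Pool.Agent.LR
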