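import Pool.Agent.LR.QDefs
import Pool.Agent.LR.FamD

/-!
# LR QGrp: block data of a system on few points
-/

set_option autoImplicit false

namespace Pool.Agent.LR

open Equiv

theorem blk_of {k n u : ℕ} {θ : ℕ → Perm (Fin n)} {τ : Perm (Fin u)} {e : Fin k → Fin u → Fin n}
    (e1 : ∀ i j x y, e i x = e j y → i = j ∧ x = y)
    (e2 : ∀ (i : ℕ) (hi : i + 1 < k) (x : Fin u), θ i (e ⟨i, by omega⟩ x) = e ⟨i + 1, hi⟩ x ∧
        θ i (e ⟨i + 1, hi⟩ x) = e ⟨i, by omega⟩ (τ x))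
    (e3 : ∀ (i : ℕ) (_ : i + 1 < k) (j : Fin k), (j : ℕ) ≠ i → (j : ℕ) ≠ i + 1 → ∀ x, θ i (e j x) = e j x)
    (e4 : ∀ y, (∀ j x, y ≠ e j x) → ∀ i, i + 1 < k → θ i y = y) :
    ∃ (T : Perm (Fin n)) (blk : Fin n → Option (Fin k)), Blk k n θ T blk := by
  classical
  let E : Fin k × Fin u ↪ Fin n := ⟨fun p => e p.1 p.2, by
    rintro ⟨i, x⟩ ⟨j, y⟩ h
    have := e1 i j x y h
    rw [Prod.mk.injEq]
    exact this⟩
  obtain ⟨P, hP⟩ : ∃ P : Perm (Fin k × Fin u), P = Equiv.prodCongr (Equiv.refl (Fin k)) τ := ⟨_, rfl⟩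
  let T : Perm (Fin n) := P.viaEmbedding E
  have hT1 : ∀ j x, T (e j x) = e j (τ x) := fun j x => by
    have h1 : T (E (j, x)) = E (P (j, x)) := Equiv.Perm.viaEmbedding_apply P E (j, x)
    rw [hP] at h1
    exact h1
  have hT2 : ∀ y, (∀ j x, y ≠ e j x) → T y = y := by
    intro y hy
    apply Equiv.Perm.viaEmbedding_apply_of_notMem
    rintro ⟨⟨j, x⟩, h⟩
    exact hy j x h.symm
  let blk : Fin n → Option (Fin k) := fun y => if h : ∃ j x, y = e j x then some h.choose else none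
  have hb1 : ∀ j x, blk (e j x) = some j := by
    intro j x
    have h : ∃ j' x', e j x = e j' x' := ⟨j, x, rfl⟩
    have h1 : blk (e j x) = some h.choose := dif_pos h
    obtain ⟨x', h2⟩ := h.choose_spec
    rw [h1, ← (e1 _ _ _ _ h2).1]
  have hb2 : ∀ y, (∀ j x, y ≠ e j x) → blk y = none := by
    intro y hy
    exact dif_neg (fun ⟨j, x, h⟩ => hy j x h)
  have hb3 : ∀ y j, blk y = some j → ∃ x, y = e j x := by
    intro y j h
    by_cases hy : ∃ j x, y = e j x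
    · obtain ⟨j', x, rfl⟩ := hy
      rw [hb1] at h
      rw [Option.some.injEq] at h
      exact ⟨x, by rw [h]⟩
    · push Not at hy
      rw [hb2 y hy] at h
      exact absurd h (by simp)
  have hswl : ∀ (i : ℕ) (hi : i + 1 < k), (sw i : Perm (Fin k)) ⟨i, by omega⟩ = ⟨i + 1, hi⟩ := by
    intro i hi
    rw [sw, dif_pos hi, Equiv.swap_apply_left]
  have hswr : ∀ (i : ℕ) (hi : i + 1 < k), (sw i : Perm (Fin k)) ⟨i + 1, hi⟩ = ⟨i, by omega⟩ := by
    intro i hi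
    rw [sw, dif_pos hi, Equiv.swap_apply_right]
  have hswo : ∀ (i : ℕ) (_ : i + 1 < k) (j : Fin k), (j : ℕ) ≠ i → (j : ℕ) ≠ i + 1 → (sw i : Perm (Fin k)) j = j := by
    intro i hi j h1 h2
    rw [sw, dif_pos hi]
    exact Equiv.swap_apply_of_ne_of_ne (fun h => h1 (congrArg Fin.val h)) (fun h => h2 (congrArg Fin.val h))
  have hj : ∀ (i : ℕ) (hi : i + 1 < k) (j : Fin k), j = ⟨i, by omega⟩ ∨ j = ⟨i + 1, hi⟩ ∨ ((j : ℕ) ≠ i ∧ (j : ℕ) ≠ i + 1) := by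
    intro i hi j
    by_cases h1 : (j : ℕ) = i
    · exact Or.inl (Fin.ext h1)
    · by_cases h2 : (j : ℕ) = i + 1
      · exact Or.inr (Or.inl (Fin.ext h2))
      · exact Or.inr (Or.inr ⟨h1, h2⟩)
  refine ⟨T, blk, ⟨?_, ?_, ?_, ?_, ?_, ?_⟩⟩
  · intro i hi
    ext y
    rw [Perm.mul_apply, Perm.mul_apply]
    by_cases hy : ∃ j x, y = e j x
    · obtain ⟨j, x, rfl⟩ := hy
      rcases hj i hi j with rfl | rfl | ⟨h1, h2⟩
      · rw [hT1, (e2 i hi _).1, (e2 i hi _).1, hT1]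
      · rw [hT1, (e2 i hi _).2, (e2 i hi _).2, hT1]
      · rw [hT1, e3 i hi j h1 h2, e3 i hi j h1 h2, hT1]
    · push Not at hy
      rw [hT2 y hy, e4 y hy i hi, hT2 y hy]
  · intro y hy
    by_cases hy' : ∃ j x, y = e j x
    · obtain ⟨j, x, rfl⟩ := hy'
      rw [hb1] at hy
      exact absurd hy (by simp)
    · push Not at hy'
      exact hT2 y hy'
  · intro y
    by_cases hy' : ∃ j x, y = e j x
    · obtain ⟨j, x, rfl⟩ := hy'
      rw [hT1, hb1, hb1]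
    · push Not at hy'
      rw [hT2 y hy']
  · intro i hi y hy
    by_cases hy' : ∃ j x, y = e j x
    · obtain ⟨j, x, rfl⟩ := hy'
      have := hy j (hb1 j x)
      exact e3 i hi j this.1 this.2 x
    · push Not at hy'
      exact e4 y hy' i hi
  · intro i hi y j hy
    obtain ⟨x, rfl⟩ := hb3 y j hy
    rcases hj i hi j with rfl | rfl | ⟨h1, h2⟩
    · rw [(e2 i hi _).1, hb1, hswl i hi]
    · rw [(e2 i hi _).2, hb1, hswr i hi]
    · rw [e3 i hi j h1 h2, hb1, hswo i hi j h1 h2]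
  · intro i hi y j hy h1
    obtain ⟨x, rfl⟩ := hb3 y j hy
    rcases h1 with h1 | h1
    · have h2 : j = ⟨i, by omega⟩ := Fin.ext h1
      rw [h2, (e2 i hi _).1, (e2 i hi _).2, hT1]
    · have h2 : j = ⟨i + 1, hi⟩ := Fin.ext h1
      rw [h2, (e2 i hi _).2, (e2 i hi _).1, hT1]

/-- The block data of a system on few points. -/
theorem Sys.blk {k n : ℕ} {d : Perm (Fin k) → ℤ} {S : Perm (Fin k) → ℤ → Perm (Fin n)} (hk : 14 ≤ k)
    (hn : n < (k / 2 - 1).choose 2) (h : Sys d S) :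
    ∃ (K : ℤ → Perm (Fin n)) (θ : ℕ → Perm (Fin n)) (T : Perm (Fin n)) (blk : Fin n → Option (Fin k)),
      Blk k n θ T blk ∧ ∀ i, i + 1 < k → ∀ a, S (sw i) a = K (a + 1) * θ i * (K a)⁻¹ := by
  obtain ⟨K, θ, u, τ, e, _, h2, _, e1, e2, e3, e4⟩ := h.blocks hk hn
  obtain ⟨T, blk, hb⟩ := blk_of e1 e2 e3 e4
  exact ⟨K, θ, T, blk, hb, h2⟩

end Pool.Agent.LR
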