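import Pool.Agent.LR.QG

/-!
# LR QScale: `Gt` is invariant under complex scalings

Fix an injective `x` and consider `g c = Gt t (c • x)` for `c ≠ 0`.  Claim: `g` is locally constant on `{c ≠ 0}`, which is
preconnected (`isPreconnected_compl_singleton_of_one_lt_rank` or the analogue for `ℂ`), so `g c = g 1`.  Near `c₀`: let `π = srt (c₀ x)`,
`y₀ = c₀ x ∘ π ∈ XX k` (Lex).  For `c` near `c₀`: `y = c x ∘ π ∈ XX k`, and `log (c w) = log (c₀ w) + log (c / c₀)` for the finitely many
`w = x_(π j) - x_(π i)` (`c₀ w` in the slit plane; both sides are continuous near `c₀`, have the same exponential and agree at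
`c₀`; or `Complex.log_mul` with arguments near), so `lg y = lg y₀ + N * log (c / c₀)`, `nrm a y = nrm a y₀` (numerator times `c / c₀`,
denominator times `exp (log (c / c₀)) = c / c₀`), `GG a y = GG a y₀`.  So `ρ a y` is a root list of the constant polynomial
`f (GG a y₀)`, continuous in `c`, injective: it is constant near `c₀` (each `ρ a y` is `ρ a y₀ ∘ s` for a permutation `s`
(`OC.exists_perm`), finitely many values, continuous), so `vq a p y = vq a p y₀`, and `Gt` is the product (`G_of`, `lex_mem_WW`).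
-/

set_option autoImplicit false

open Topology Filter

noncomputable section

namespace Pool.Agent.LR

open Pool.Agent.H60.OC (Pr NN nm zc SG MF IsRoots vd poly HoloOn)

variable {k n : ℕ} {f : (Fin k → ℂ) → (Fin n → ℂ)} {ρ : ℤ → (Fin k → ℂ) → (Fin n → ℂ)}
  {θ : ℕ → Equiv.Perm (Fin n)} {T : Equiv.Perm (Fin n)} {blk : Fin n → Option (Fin k)}

/-- A locally constant function on the punctured plane is constant. -/
private theorem QScale_const {g : ℂ → ℂ} (h : ∀ c : ℂ, c ≠ 0 → ∀ᶠ c' in 𝓝 c, g c' = g c) {c : ℂ} (hc : c ≠ 0) :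
    g c = g 1 := by
  have hpc : IsPreconnected ({0}ᶜ : Set ℂ) := (isConnected_compl_singleton_of_one_lt_rank (by simp) 0).isPreconnected
  exact hpc.induction₂ (fun a b => g a = g b)
    (fun z hz => ((h z hz).filter_mono nhdsWithin_le_nhds).mono fun _ h1 => h1.symm)
    (fun _ _ _ _ _ _ h1 h2 => h1.trans h2) (fun _ _ _ _ h1 => h1.symm) hc (by simp)

/-- Near `1` the logarithm of a product with a point of the slit plane is the sum. -/
private theorem QScale_log {w : ℂ} (hw : w ∈ Complex.slitPlane) :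
    ∀ᶠ u in 𝓝 (1 : ℂ), Complex.log (u * w) = Complex.log u + Complex.log w := by
  have h1 : ContinuousAt (fun u : ℂ => u.arg + w.arg) 1 :=
    (Complex.continuousAt_arg (by simp)).add continuousAt_const
  have h2 : ∀ᶠ u in 𝓝 (1 : ℂ), u.arg + w.arg ∈ Set.Ioo (-Real.pi) Real.pi := by
    refine h1.eventually_mem (isOpen_Ioo.mem_nhds ?_)
    rw [Complex.arg_one, zero_add]
    exact ⟨Complex.neg_pi_lt_arg w, lt_of_le_of_ne (Complex.arg_le_pi w) (Complex.mem_slitPlane_iff_arg.1 hw).1⟩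
  filter_upwards [h2, isOpen_ne.mem_nhds (one_ne_zero : (1 : ℂ) ≠ 0)] with u hu hu0
  exact Complex.log_mul hu0 (Complex.slitPlane_ne_zero hw) (Set.Ioo_subset_Ioc_self hu)

private theorem QScale_lg {y : Fin k → ℂ} (hy : y ∈ XX k) :
    ∀ᶠ u in 𝓝 (1 : ℂ), lg (fun i => u * y i) = (NN k : ℂ) * Complex.log u + lg y := by
  have h1 : ∀ᶠ u in 𝓝 (1 : ℂ), ∀ p : Pr k, Complex.log (u * (y p.1.2 - y p.1.1)) =
      Complex.log u + Complex.log (y p.1.2 - y p.1.1) := by
    rw [Filter.eventually_all]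
    exact fun p => QScale_log (hy _ _ p.2)
  filter_upwards [h1] with u hu
  unfold lg
  have h2 : ∀ p : Pr k, Complex.log (u * y p.1.2 - u * y p.1.1) = Complex.log u + Complex.log (y p.1.2 - y p.1.1) := by
    intro p
    rw [← mul_sub]
    exact hu p
  rw [Finset.sum_congr rfl fun p _ => h2 p, Finset.sum_add_distrib, Finset.sum_const, Finset.card_univ, nsmul_eq_mul]

private theorem QScale_GG (hk : 2 ≤ k) {y : Fin k → ℂ} (hy : y ∈ XX k) :
    ∀ᶠ u in 𝓝 (1 : ℂ), ∀ a : ℤ, GG a (fun i => u * y i) = GG a y := by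
  have hN : ((NN k : ℕ) : ℂ) ≠ 0 := by
    have h := (Pool.Agent.H60.OC.NN_pos hk).ne'
    exact_mod_cast h
  filter_upwards [QScale_lg hy, isOpen_ne.mem_nhds (one_ne_zero : (1 : ℂ) ≠ 0)] with u hu hu0 a
  unfold GG nrm
  rw [hu]
  have h1 : Complex.exp (((NN k : ℂ) * Complex.log u + lg y + (Real.pi : ℂ) * Complex.I * (a : ℂ)) / (NN k : ℂ)) =
      u * Complex.exp ((lg y + (Real.pi : ℂ) * Complex.I * (a : ℂ)) / (NN k : ℂ)) := by
    rw [add_assoc, add_div, mul_div_cancel_left₀ _ hN, Complex.exp_add, Complex.exp_log hu0]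
  rw [h1, Pool.Agent.H60.OC.nm_smul _ hu0]

/-- A continuous choice among the rearrangements of one list is locally constant. -/
private theorem QScale_loc {r : ℂ → (Fin n → ℂ)} {c₀ : ℂ} (hc : ContinuousAt r c₀)
    (hr : ∀ᶠ c in 𝓝 c₀, ∃ σ : Equiv.Perm (Fin n), r c = fun i => r c₀ (σ i)) : ∀ᶠ c in 𝓝 c₀, r c = r c₀ := by
  have hfin : (Set.range fun σ : Equiv.Perm (Fin n) => fun i => r c₀ (σ i)).Finite := Set.finite_range _
  have h1 : ((Set.range fun σ : Equiv.Perm (Fin n) => fun i => r c₀ (σ i)) \ {r c₀})ᶜ ∈ 𝓝 (r c₀) := by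
    refine (hfin.subset Set.sdiff_subset).isClosed.isOpen_compl.mem_nhds ?_
    simp
  filter_upwards [hr, hc.eventually_mem h1] with c h2 h3
  by_contra hne
  obtain ⟨σ, hσ⟩ := h2
  exact h3 ⟨⟨σ, hσ.symm⟩, hne⟩

private theorem QScale_rho (h : Ctx k n f ρ θ T blk) (a : ℤ) {y : Fin k → ℂ} (hy : y ∈ XX k) :
    ∀ᶠ u in 𝓝 (1 : ℂ), ρ a (fun i => u * y i) = ρ a y := by
  have hk := h.hk
  have hcomp : Continuous fun u : ℂ => fun i : Fin k => u * y i := by fun_prop
  have h1 : (fun i => (1 : ℂ) * y i) = y := by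
    funext i
    rw [one_mul]
  have hXX : ∀ᶠ u in 𝓝 (1 : ℂ), (fun i => u * y i) ∈ XX k := by
    refine hcomp.continuousAt.eventually_mem ((XX_open k).mem_nhds ?_)
    rw [h1]
    exact hy
  have hct : ContinuousAt (fun u : ℂ => ρ a (fun i => u * y i)) 1 := by
    refine ContinuousAt.comp_of_eq (g := ρ a) ?_ hcomp.continuousAt h1
    exact (h.cont a).continuousAt ((XX_open k).mem_nhds hy)
  have h2 := QScale_loc (r := fun u : ℂ => ρ a (fun i => u * y i)) hct ?_
  · filter_upwards [h2] with u hu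
    rw [hu, h1]
  · filter_upwards [hXX, QScale_GG (by omega : 2 ≤ k) hy] with u hu hG
    have e1 := h.root a _ hu
    rw [hG a] at e1
    obtain ⟨σ, hσ⟩ := Pool.Agent.H60.OC.exists_perm (h.root a y hy) e1 (h.inj a hu)
    refine ⟨σ, ?_⟩
    rw [h1]
    exact hσ

theorem Ctx.G_scale (h : Ctx k n f ρ θ T blk) (t : ℂ) {x : Fin k → ℂ} (hx : Function.Injective x) {c : ℂ} (hc : c ≠ 0) :
    Gt ρ T t (fun i => c * x i) = Gt ρ T t x := by
  have key : ∀ c₀ : ℂ, c₀ ≠ 0 → ∀ᶠ c in 𝓝 c₀, Gt ρ T t (fun i => c * x i) = Gt ρ T t (fun i => c₀ * x i) := by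
    intro c₀ hc₀
    have hinj : Function.Injective fun i => c₀ * x i := fun i j hij => hx (mul_left_cancel₀ hc₀ hij)
    have hlex := srt_spec hinj
    obtain ⟨π, hπ⟩ : ∃ π, π = srt (fun i => c₀ * x i) := ⟨_, rfl⟩
    rw [← hπ] at hlex
    have hy := lex_mem_XX hlex
    have hcomp : Continuous fun c : ℂ => fun i : Fin k => c * x i := by fun_prop
    have hW : ∀ᶠ c in 𝓝 c₀, (fun i => c * x (π i)) ∈ WW (π⁻¹ * srt (fun i => c * x i)) :=
      hcomp.continuousAt.eventually (lex_mem_WW hinj hlex)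
    have hG : ∀ᶠ c in 𝓝 c₀, Gt ρ T t (fun i => c * x i) =
        ∏ a ∈ Finset.range (2 * NN k), ∏ p : Tr n, (t - vq ρ T (a : ℤ) p (fun i => c * x (π i))) := by
      filter_upwards [hW] with c hc
      exact h.G_of t (fun i => c * x i) π hc
    have hdiv : Tendsto (fun c : ℂ => c / c₀) (𝓝 c₀) (𝓝 1) := by
      have h1 : ContinuousAt (fun c : ℂ => c / c₀) c₀ := continuousAt_id.div_const c₀
      rw [ContinuousAt, div_self hc₀] at h1
      exact h1
    have hR : ∀ᶠ c in 𝓝 c₀, ∀ a ∈ Finset.range (2 * NN k),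
        ρ (a : ℤ) (fun i => c * x (π i)) = ρ (a : ℤ) (fun i => c₀ * x (π i)) := by
      rw [Filter.eventually_all_finset]
      intro a _
      filter_upwards [hdiv.eventually (QScale_rho h (a : ℤ) hy)] with c hc
      rw [← hc]
      congr 1
      funext i
      field_simp
    filter_upwards [hG, hR] with c h1 h2
    rw [h1, hG.self_of_nhds]
    refine Finset.prod_congr rfl fun a ha => Finset.prod_congr rfl fun p _ => ?_
    unfold vq
    rw [h2 a ha]
  have h1 := QScale_const (g := fun c => Gt ρ T t (fun i => c * x i)) key hc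
  have h2 : (fun i => (1 : ℂ) * x i) = x := by
    funext i
    rw [one_mul]
  rw [h1, h2]

end Pool.Agent.LR
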