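import Pool.Agent.LR.QPunct
import Pool.Agent.LR.QScale
import Pool.Agent.H60.OC.Expo

/-!
# LR QLine: `Gt` is bounded near the punctures of a good line

`OC.Good p y` (`H60/OC/GoodLine.lean`): `y` injective and the parameters `s_H = -(p_l - p_m) / (y_l - y_m)` of the coincidences are different.
At `z = s_H`, `H = (l, m)`, the point `x⁰ = p + s_H y` has exactly the coincidence `x⁰_l = x⁰_m`.

(1) Choose `c₁ = 1 + i τ` such that the real parts of the `k - 1` different values `c₁ x⁰_i` are different (all but finitely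
many `τ`), and replace `p`, `y` by `c₁ p`, `c₁ y` (`G_scale`).  (2) Choose a permutation `π` with
`Re x⁰_(π i) < Re x⁰_(π i')` for `i < i'` except for the pair of neighbouring positions `j`, `j + 1` where `{π j, π (j+1)} = {l, m}`
(sort by the real part, `Tuple.sort`).  (3) With `κ = y_(π (j+1)) - y_(π j) ≠ 0`, `u = κ (z - s_H)`:
`(p + z y) ∘ π = x⁰ ∘ π + u (y ∘ π / κ)`.  `vq_bdd` bounds `vq a q` at this point for `u` in the slit plane, and with the permutation `π * sw j` and
`- κ` in the same way for `- u` in the slit plane, for all `a` in `range (2 N)` and all `q` (finitely many).  (4) For small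
`u ≠ 0`: if `Re u > 0` or `Im u > 0` the point `Y = (p + z y) ∘ π` is in `WW (π⁻¹ * srt x)` (`x = p + z y`): if `Re u > 0` or (`Re u = 0`, `Im u > 0`) then `Y` is
`Lex`, `srt x = π`, and `Y ∈ WW 1`; otherwise `Re u < 0`, `Im u > 0`, `Y ∘ sw j` is `Lex`, `srt x = π * sw j`, `Y ∈ WW (sw j)`.  If not, then `- u` satisfies
the same condition for the permutation `π * sw j`.  So by `G_of` `Gt t x` is a product of `2 N * card` bounded factors.
-/

set_option autoImplicit false

open Topology Filter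

noncomputable section

namespace Pool.Agent.LR

open Pool.Agent.H60.OC (Pr NN nm zc SG MF IsRoots vd poly HoloOn Good ell ell_line)

variable {k n : ℕ} {f : (Fin k → ℂ) → (Fin n → ℂ)} {ρ : ℤ → (Fin k → ℂ) → (Fin n → ℂ)}
  {θ : ℕ → Equiv.Perm (Fin n)} {T : Equiv.Perm (Fin n)} {blk : Fin n → Option (Fin k)}

theorem QLine_sw {j : ℕ} (hj : j + 1 < k) : (sw j : Equiv.Perm (Fin k)) = Equiv.swap ⟨j, by omega⟩ ⟨j + 1, hj⟩ := by
  unfold sw
  rw [dif_pos hj]

theorem QLine_sw_x {j : ℕ} (hj : j + 1 < k) {x₀ : Fin k → ℂ} (h2 : x₀ ⟨j, by omega⟩ = x₀ ⟨j + 1, hj⟩) (i : Fin k) :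
    x₀ ((sw j : Equiv.Perm (Fin k)) i) = x₀ i := by
  rw [QLine_sw hj, Equiv.swap_apply_def]
  split_ifs with h3 h4
  · rw [h3, h2]
  · rw [h4, h2]
  · rfl

/-- The half `0 < Re u` or `0 < Im u`. -/
theorem QLine_side (h : Ctx k n f ρ θ T blk) (t : ℂ) {j : ℕ} (hj : j + 1 < k) {x₀ y : Fin k → ℂ}
    (h1 : ∀ i i' : Fin k, i < i' → ¬ ((i : ℕ) = j ∧ (i' : ℕ) = j + 1) → (x₀ i).re < (x₀ i').re)
    (h2 : x₀ ⟨j, by omega⟩ = x₀ ⟨j + 1, hj⟩) (h3 : y ⟨j + 1, hj⟩ - y ⟨j, by omega⟩ = 1) (π : Equiv.Perm (Fin k)) :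
    ∃ B : ℝ, ∀ᶠ u in 𝓝 (0 : ℂ), u ≠ 0 → (0 < u.re ∨ 0 < u.im) → ∀ x : Fin k → ℂ,
      (∀ i, x (π i) = x₀ i + u * y i) → ‖Gt ρ T t x‖ ≤ B := by
  have hj0 : j < k := by omega
  have hb : ∀ (a : ℤ) (q : Tr n), ∃ B : ℝ, ∀ᶠ u in 𝓝 (0 : ℂ), u ≠ 0 → u ∈ Complex.slitPlane →
      ‖vq ρ T a q (fun i => x₀ i + u * y i)‖ ≤ B := by
    intro a q
    obtain ⟨δ, hδ, B, hB⟩ := h.vq_bdd a q hj h1 h2 h3
    refine ⟨B, ?_⟩
    filter_upwards [Metric.ball_mem_nhds (0 : ℂ) hδ] with u hu hu0 hus
    exact (hB u (norm_pos_iff.2 hu0) (mem_ball_zero_iff.1 hu) hus).2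
  choose Bd hBd using hb
  have hev : ∀ᶠ u in 𝓝 (0 : ℂ), ∀ a ∈ Finset.range (2 * NN k), ∀ q : Tr n, u ≠ 0 → u ∈ Complex.slitPlane →
      ‖vq ρ T (a : ℤ) q (fun i => x₀ i + u * y i)‖ ≤ Bd (a : ℤ) q := by
    rw [Filter.eventually_all_finset]
    intro a _
    rw [Filter.eventually_all]
    exact fun q => hBd a q
  have hord : ∀ᶠ u in 𝓝 (0 : ℂ), ∀ i i' : Fin k, (x₀ i).re < (x₀ i').re →
      (x₀ i + u * y i).re < (x₀ i' + u * y i').re := by
    rw [Filter.eventually_all]
    intro i
    rw [Filter.eventually_all]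
    intro i'
    by_cases hc : (x₀ i).re < (x₀ i').re
    · have hc1 : Continuous fun u : ℂ => (x₀ i + u * y i).re := by fun_prop
      have hc2 : Continuous fun u : ℂ => (x₀ i' + u * y i').re := by fun_prop
      have h0 : (0 : ℂ) ∈ {u : ℂ | (x₀ i + u * y i).re < (x₀ i' + u * y i').re} := by
        show (x₀ i + 0 * y i).re < (x₀ i' + 0 * y i').re
        simpa using hc
      filter_upwards [(isOpen_lt hc1 hc2).mem_nhds h0] with u hu _
      exact hu
    · exact Eventually.of_forall fun u hh => absurd hh hc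
  refine ⟨∏ a ∈ Finset.range (2 * NN k), ∏ q : Tr n, (‖t‖ + Bd (a : ℤ) q), ?_⟩
  filter_upwards [hev, hord] with u hu1 hu2 hu0 hP x hx
  have hus : u ∈ Complex.slitPlane := by
    rw [Complex.mem_slitPlane_iff]
    rcases hP with hP | hP
    · exact Or.inl hP
    · exact Or.inr hP.ne'
  have hxe : (fun i => x (π i)) = fun i => x₀ i + u * y i := funext hx
  -- the difference at the special pair
  have hd : ∀ i i' : Fin k, (i : ℕ) = j → (i' : ℕ) = j + 1 → x (π i') - x (π i) = u := by
    intro i i' hi hi'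
    have e1 : i = ⟨j, hj0⟩ := Fin.ext hi
    have e2 : i' = ⟨j + 1, hj⟩ := Fin.ext hi'
    have e3 : x₀ i' = x₀ i := by
      rw [e1, e2]
      exact h2.symm
    have e4 : y i' - y i = 1 := by
      rw [e1, e2]
      exact h3
    rw [hx, hx, e3]
    linear_combination u * e4
  have hre : ∀ i i' : Fin k, (i : ℕ) = j → (i' : ℕ) = j + 1 → (x (π i')).re - (x (π i)).re = u.re := by
    intro i i' hi hi'
    rw [← Complex.sub_re, hd i i' hi hi']
  have him : ∀ i i' : Fin k, (i : ℕ) = j → (i' : ℕ) = j + 1 → (x (π i')).im - (x (π i)).im = u.im := by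
    intro i i' hi hi'
    rw [← Complex.sub_im, hd i i' hi hi']
  have hlt : ∀ i i' : Fin k, (x₀ i).re < (x₀ i').re → (x (π i)).re < (x (π i')).re := by
    intro i i' hii
    rw [hx, hx]
    exact hu2 i i' hii
  have hW : (fun i => x (π i)) ∈ WW (π⁻¹ * srt x) := by
    by_cases hc : 0 < u.re ∨ (u.re = 0 ∧ 0 < u.im)
    · have hlex : Lex (fun i => x (π i)) := by
        intro i i' hii
        by_cases hs : (i : ℕ) = j ∧ (i' : ℕ) = j + 1
        · have e1 := hre i i' hs.1 hs.2
          have e2 := him i i' hs.1 hs.2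
          rcases hc with hc | ⟨hc, hc'⟩
          · left
            show (x (π i)).re < (x (π i')).re
            linarith
          · right
            show (x (π i)).re = (x (π i')).re ∧ (x (π i)).im < (x (π i')).im
            constructor <;> linarith
        · exact Or.inl (hlt i i' (h1 i i' hii hs))
      rw [srt_unique hlex, inv_mul_cancel]
      intro i i' hii
      refine ⟨?_, fun hcon => ?_⟩
      · rcases hlex i i' hii with h4 | h4
        · exact Or.inl h4
        · exact Or.inr h4.2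
      · exact absurd hcon (not_lt.2 hii.le)
    · have hre0 : u.re < 0 := by
        rcases lt_trichotomy u.re 0 with h4 | h4 | h4
        · exact h4
        · exfalso
          rcases hP with hP | hP
          · linarith
          · exact hc (Or.inr ⟨h4, hP⟩)
        · exact absurd (Or.inl h4) hc
      have him0 : 0 < u.im := by
        rcases hP with hP | hP
        · linarith
        · exact hP
      have hlex : Lex (fun i => x ((π * sw j : Equiv.Perm (Fin k)) i)) := by
        intro i i' hii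
        show ((x (π ((sw j : Equiv.Perm (Fin k)) i))).re < (x (π ((sw j : Equiv.Perm (Fin k)) i'))).re ∨ _)
        by_cases hs : (i : ℕ) = j ∧ (i' : ℕ) = j + 1
        · left
          have e1 : i = ⟨j, hj0⟩ := Fin.ext hs.1
          have e2 : i' = ⟨j + 1, hj⟩ := Fin.ext hs.2
          have e3 := hre i i' hs.1 hs.2
          have e4 : (sw j : Equiv.Perm (Fin k)) i = i' := by
            rw [QLine_sw hj, e1, e2, Equiv.swap_apply_left]
          have e5 : (sw j : Equiv.Perm (Fin k)) i' = i := by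
            rw [QLine_sw hj, e1, e2, Equiv.swap_apply_right]
          rw [e4, e5]
          linarith
        · left
          apply hlt
          rw [QLine_sw_x hj h2, QLine_sw_x hj h2]
          exact h1 i i' hii hs
      rw [srt_unique hlex, inv_mul_cancel_left]
      intro i i' hii
      by_cases hs : (i : ℕ) = j ∧ (i' : ℕ) = j + 1
      · have e2 := him i i' hs.1 hs.2
        have e3 : (x (π i)).im < (x (π i')).im := by linarith
        exact ⟨Or.inr e3, fun _ => e3⟩
      · refine ⟨Or.inl (hlt i i' (h1 i i' hii hs)), fun hcon => ?_⟩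
        exfalso
        apply hs
        have e4 : (sw j : Equiv.Perm (Fin k)).symm = sw j := by
          rw [QLine_sw hj, Equiv.symm_swap]
        rw [e4] at hcon
        obtain ⟨e5, e6⟩ := sw_inv j hj hii hcon
        exact ⟨congrArg Fin.val e5, congrArg Fin.val e6⟩
  rw [h.G_of t x π hW, norm_prod]
  refine Finset.prod_le_prod (fun a _ => norm_nonneg _) fun a ha => ?_
  rw [norm_prod]
  refine Finset.prod_le_prod (fun q _ => norm_nonneg _) fun q _ => ?_
  refine (norm_sub_le _ _).trans ?_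
  rw [hxe]
  exact add_le_add le_rfl (hu1 a ha q hu0 hus)

theorem QLine_tau (x : Fin k → ℂ) : ∃ c : ℂ, c ≠ 0 ∧ ∀ a b, x a ≠ x b → (c * x a).re ≠ (c * x b).re := by
  have hfin : (Set.range fun q : Fin k × Fin k => (x q.1 - x q.2).re / (x q.1 - x q.2).im).Finite := Set.finite_range _
  obtain ⟨τ, hτ⟩ := hfin.infinite_compl.nonempty
  refine ⟨1 + (τ : ℂ) * Complex.I, ?_, ?_⟩
  · intro h0
    have := congrArg Complex.re h0
    simp at this
  · intro a b hab hre
    have e1 : (x a - x b).re = τ * (x a - x b).im := by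
      simp only [Complex.mul_re, Complex.add_re, Complex.one_re, Complex.ofReal_re, Complex.I_re, mul_zero,
        Complex.ofReal_im, Complex.I_im, mul_one, sub_self, add_zero, one_mul, Complex.add_im, Complex.one_im,
        Complex.mul_im, zero_add] at hre
      rw [Complex.sub_re, Complex.sub_im]
      linarith
    have e2 : (x a - x b).im ≠ 0 := by
      intro h0
      rw [h0, mul_zero] at e1
      apply hab
      exact sub_eq_zero.1 (Complex.ext e1 h0)
    apply hτ
    exact ⟨(a, b), by show (x a - x b).re / (x a - x b).im = τ; rw [e1]; field_simp⟩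

theorem Ctx.G_punct (h : Ctx k n f ρ θ T blk) (t : ℂ) {p y : Fin k → ℂ} (hg : Good p y) {s : ℂ}
    (hs : ¬ Function.Injective (fun i => p i + s * y i)) :
    ∃ B : ℝ, ∀ᶠ z in 𝓝[≠] s, ‖Gt ρ T t (fun i => p i + z * y i)‖ ≤ B := by
  classical
  obtain ⟨hy, hinj⟩ := hg
  set xs : Fin k → ℂ := fun i => p i + s * y i with hx0
  -- coincidences
  have hell : ∀ (H : Pr k) (z : ℂ), p H.1.1 + z * y H.1.1 = p H.1.2 + z * y H.1.2 → z = -ell H p / ell H y := by
    intro H z hz
    rw [eq_div_iff (hy H)]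
    unfold ell
    linear_combination hz
  have huniq : ∀ a b c d : Fin k, a < b → c < d → xs a = xs b → xs c = xs d → a = c ∧ b = d := by
    intro a b c d hab hcd h1 h2
    have e1 := hell ⟨(a, b), hab⟩ s h1
    have e2 := hell ⟨(c, d), hcd⟩ s h2
    have e3 := hinj (e1.symm.trans e2)
    have e4 := congrArg Subtype.val e3
    exact ⟨congrArg Prod.fst e4, congrArg Prod.snd e4⟩
  obtain ⟨c, hc0, hc⟩ := QLine_tau xs
  set r : Fin k → ℝ := fun i => (c * xs i).re with hr
  set σ : Equiv.Perm (Fin k) := Tuple.sort r with hσ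
  have hmono : Monotone (r ∘ σ) := Tuple.monotone_sort r
  obtain ⟨l₀, m₀, hlm, hne⟩ : ∃ a b, xs a = xs b ∧ a ≠ b := by
    unfold Function.Injective at hs
    push Not at hs
    exact hs
  obtain ⟨l, m, hlm, hlt⟩ : ∃ l m, xs l = xs m ∧ σ.symm l < σ.symm m := by
    rcases lt_or_gt_of_ne (fun hh => hne (σ.symm.injective hh) : σ.symm l₀ ≠ σ.symm m₀) with h1 | h1
    · exact ⟨l₀, m₀, hlm, h1⟩
    · exact ⟨m₀, l₀, hlm.symm, h1⟩
  have hlm' : l ≠ m := fun hh => by
    rw [hh] at hlt
    exact lt_irrefl _ hlt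
  have huniq' : ∀ a b : Fin k, a ≠ b → xs a = xs b → (a = l ∧ b = m) ∨ (a = m ∧ b = l) := by
    intro a b hab hxab
    rcases lt_or_gt_of_ne hab with h1 | h1 <;> rcases lt_or_gt_of_ne hlm' with h2 | h2
    · exact Or.inl (huniq a b l m h1 h2 hxab hlm)
    · exact Or.inr (huniq a b m l h1 h2 hxab hlm.symm)
    · have := huniq b a l m h1 h2 hxab.symm hlm
      exact Or.inr ⟨this.2, this.1⟩
    · have := huniq b a m l h1 h2 hxab.symm hlm.symm
      exact Or.inl ⟨this.2, this.1⟩
  have hrr : ∀ a b : Fin k, a ≠ b → r a = r b → (a = l ∧ b = m) ∨ (a = m ∧ b = l) := by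
    intro a b hab hrab
    apply huniq' a b hab
    by_contra hcon
    exact hc a b hcon hrab
  have hadj : ((σ.symm m : Fin k) : ℕ) = ((σ.symm l : Fin k) : ℕ) + 1 := by
    by_contra hcon
    have h0 : ((σ.symm l : Fin k) : ℕ) < ((σ.symm m : Fin k) : ℕ) := hlt
    have hmk := (σ.symm m).2
    set q : Fin k := ⟨((σ.symm l : Fin k) : ℕ) + 1, by omega⟩ with hq
    have h1 : σ.symm l < q := by
      rw [Fin.lt_def]
      show ((σ.symm l : Fin k) : ℕ) < ((σ.symm l : Fin k) : ℕ) + 1
      omega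
    have h2 : q < σ.symm m := by
      rw [Fin.lt_def]
      show ((σ.symm l : Fin k) : ℕ) + 1 < ((σ.symm m : Fin k) : ℕ)
      omega
    have h3 : r l ≤ r (σ q) := by
      have := hmono h1.le
      simpa using this
    have h4 : r (σ q) ≤ r m := by
      have := hmono h2.le
      simpa using this
    have h5 : r l = r m := by
      show (c * xs l).re = (c * xs m).re
      rw [hlm]
    have h6 : r l = r (σ q) := le_antisymm h3 (h4.trans h5.symm.le)
    have h7 : l ≠ σ q := fun hh => by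
      rw [hh, Equiv.symm_apply_apply] at h1
      exact lt_irrefl _ h1
    rcases hrr l (σ q) h7 h6 with h8 | h8
    · rw [← h8.2, Equiv.symm_apply_apply] at h2
      exact lt_irrefl _ h2
    · exact hlm' h8.1
  set j : ℕ := ((σ.symm l : Fin k) : ℕ) with hjd
  have hj : j + 1 < k := by
    rw [← hadj]
    exact (σ.symm m).2
  have hσj : σ ⟨j, by omega⟩ = l := by
    have : (⟨j, by omega⟩ : Fin k) = σ.symm l := Fin.ext rfl
    rw [this, Equiv.apply_symm_apply]
  have hσj1 : σ ⟨j + 1, hj⟩ = m := by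
    have : (⟨j + 1, hj⟩ : Fin k) = σ.symm m := Fin.ext hadj.symm
    rw [this, Equiv.apply_symm_apply]
  have hyne : y m - y l ≠ 0 := by
    rcases lt_or_gt_of_ne hlm' with h1 | h1
    · have := hy ⟨(l, m), h1⟩
      unfold ell at this
      intro h0
      apply this
      show y l - y m = 0
      linear_combination -h0
    · have := hy ⟨(m, l), h1⟩
      unfold ell at this
      exact this
  set x₀ : Fin k → ℂ := fun i => c * xs (σ i) with hx₀
  set y₁ : Fin k → ℂ := fun i => y (σ i) / (y m - y l) with hy₁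
  set y₂ : Fin k → ℂ := fun i => -y₁ ((sw j : Equiv.Perm (Fin k)) i) with hy₂
  have h1 : ∀ i i' : Fin k, i < i' → ¬ ((i : ℕ) = j ∧ (i' : ℕ) = j + 1) → (x₀ i).re < (x₀ i').re := by
    intro i i' hii hns
    have h5 : r (σ i) ≤ r (σ i') := hmono hii.le
    refine lt_of_le_of_ne h5 fun h6 => ?_
    rcases hrr (σ i) (σ i') (fun hh => hii.ne (σ.injective hh)) h6 with h8 | h8
    · apply hns
      constructor
      · rw [hjd, ← h8.1, Equiv.symm_apply_apply]
      · rw [← hadj, ← h8.2, Equiv.symm_apply_apply]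
    · have e1 : i = σ.symm m := by rw [← h8.1, Equiv.symm_apply_apply]
      have e2 : i' = σ.symm l := by rw [← h8.2, Equiv.symm_apply_apply]
      rw [e1, e2] at hii
      exact lt_asymm hii hlt
  have h2 : x₀ ⟨j, by omega⟩ = x₀ ⟨j + 1, hj⟩ := by
    show c * xs (σ ⟨j, _⟩) = c * xs (σ ⟨j + 1, _⟩)
    rw [hσj, hσj1, hlm]
  have h3 : y₁ ⟨j + 1, hj⟩ - y₁ ⟨j, by omega⟩ = 1 := by
    show y (σ ⟨j + 1, _⟩) / (y m - y l) - y (σ ⟨j, _⟩) / (y m - y l) = 1
    rw [hσj, hσj1, ← sub_div, div_self hyne]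
  have h3' : y₂ ⟨j + 1, hj⟩ - y₂ ⟨j, by omega⟩ = 1 := by
    show -y₁ ((sw j : Equiv.Perm (Fin k)) ⟨j + 1, hj⟩) - -y₁ ((sw j : Equiv.Perm (Fin k)) ⟨j, by omega⟩) = 1
    rw [QLine_sw hj, Equiv.swap_apply_left, Equiv.swap_apply_right]
    linear_combination h3
  obtain ⟨B1, hB1⟩ := QLine_side h t hj h1 h2 h3 σ
  obtain ⟨B2, hB2⟩ := QLine_side h t hj h1 h2 h3' (σ * sw j)
  refine ⟨max B1 B2, ?_⟩
  have hcont : Continuous fun z : ℂ => c * (y m - y l) * (z - s) := by fun_prop
  have ht1 : Tendsto (fun z : ℂ => c * (y m - y l) * (z - s)) (𝓝 s) (𝓝 0) := by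
    have := hcont.tendsto s
    simpa using this
  have ht2 : Tendsto (fun z : ℂ => -(c * (y m - y l) * (z - s))) (𝓝 s) (𝓝 0) := by
    have := ht1.neg
    simpa using this
  have hev1 := (ht1.eventually hB1).filter_mono (nhdsWithin_le_nhds (s := {s}ᶜ))
  have hev2 := (ht2.eventually hB2).filter_mono (nhdsWithin_le_nhds (s := {s}ᶜ))
  have hpun : ∀ᶠ z in 𝓝[≠] s, ∀ H : Pr k, z ≠ -ell H p / ell H y := by
    rw [Filter.eventually_all]
    intro H
    by_cases hh : s = -ell H p / ell H y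
    · rw [← hh]
      exact eventually_mem_nhdsWithin
    · exact eventually_ne_nhdsWithin hh
  filter_upwards [hev1, hev2, hpun, eventually_mem_nhdsWithin] with z hz1 hz2 hz3 hz4
  have hzs : z - s ≠ 0 := sub_ne_zero.2 hz4
  have hinjz : Function.Injective (fun i => p i + z * y i) := by
    intro a b hab
    by_contra hne'
    rcases lt_or_gt_of_ne hne' with h5 | h5
    · exact hz3 ⟨(a, b), h5⟩ (hell ⟨(a, b), h5⟩ z hab)
    · exact hz3 ⟨(b, a), h5⟩ (hell ⟨(b, a), h5⟩ z hab.symm)
  rw [← h.G_scale t hinjz hc0]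
  set u : ℂ := c * (y m - y l) * (z - s) with hu
  have hu0 : u ≠ 0 := mul_ne_zero (mul_ne_zero hc0 hyne) hzs
  have hx1 : ∀ i, c * (p (σ i) + z * y (σ i)) = x₀ i + u * y₁ i := by
    intro i
    show c * (p (σ i) + z * y (σ i)) = c * (p (σ i) + s * y (σ i)) + u * (y (σ i) / (y m - y l))
    rw [hu]
    field_simp
    ring
  by_cases hP : 0 < u.re ∨ 0 < u.im
  · exact (hz1 hu0 hP (fun i => c * (p i + z * y i)) hx1).trans (le_max_left _ _)
  · have hP' : 0 < (-u).re ∨ 0 < (-u).im := by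
      push Not at hP
      rw [Complex.neg_re, Complex.neg_im]
      by_contra hcon
      push Not at hcon
      apply hu0
      apply Complex.ext
      · show u.re = 0
        linarith [hP.1, hcon.1]
      · show u.im = 0
        linarith [hP.2, hcon.2]
    refine (hz2 (neg_ne_zero.2 hu0) hP' (fun i => c * (p i + z * y i)) fun i => ?_).trans (le_max_right _ _)
    show c * (p (σ ((sw j : Equiv.Perm (Fin k)) i)) + z * y (σ ((sw j : Equiv.Perm (Fin k)) i))) = x₀ i + -u * y₂ i
    rw [hx1, QLine_sw_x hj h2]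
    show x₀ i + u * y₁ ((sw j : Equiv.Perm (Fin k)) i) = x₀ i + -u * -y₁ ((sw j : Equiv.Perm (Fin k)) i)
    ring

end Pool.Agent.LR
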