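import Pool.Agent.LR.QPer

/-!
# LR QLog: logarithms of the quotients

`exists_log`: a continuous function without zeros on an open star-convex set has a continuous logarithm (cover: `exists_roots`
style lift with `Complex.exp` as covering map `ℂ → {z ≠ 0}`; or: `g (x₀ + s (x - x₀))` and integration; or
`IsCoveringMap.existsUnique_continuousMap_lifts`, `Complex.isCoveringMap_exp`).  `XX k` is open and star-convex.

`Sh`: for the logarithms `L a p` of `VV (ρ a x) p` choose for every `σ` the integers `c σ a p` with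
`L (a + inv σ) (ta (Θ σ) p) (x ∘ σ) = L a p x + 2 π i c σ a p` on `WW σ` (both sides are continuous in `x` on the preconnected set `WW σ`, with the
same exponential).  For the period: `L (a + 2 N) (ta z p) x = L a p x + 2 π i m a p` on `XX k`.
-/

set_option autoImplicit false

open Topology Filter

noncomputable section

namespace Pool.Agent.LR

open Pool.Agent.H60.OC (Pr NN nm zc SG MF IsRoots vd poly HoloOn)

variable {k n : ℕ} {f : (Fin k → ℂ) → (Fin n → ℂ)} {ρ : ℤ → (Fin k → ℂ) → (Fin n → ℂ)}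
  {θ : ℕ → Equiv.Perm (Fin n)} {T : Equiv.Perm (Fin n)} {blk : Fin n → Option (Fin k)}

theorem exists_log {U : Set (Fin k → ℂ)} (hU : IsOpen U) {x₀ : Fin k → ℂ} (hx₀ : x₀ ∈ U) (hs : StarConvex ℝ x₀ U)
    {g : (Fin k → ℂ) → ℂ} (hg : ContinuousOn g U) (h0 : ∀ x ∈ U, g x ≠ 0) :
    ∃ L : (Fin k → ℂ) → ℂ, ContinuousOn L U ∧ ∀ x ∈ U, Complex.exp (L x) = g x := by
  have hct : ContractibleSpace U := hs.contractibleSpace ⟨x₀, hx₀⟩
  have hsc : IsSimplyConnected U := by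
    have : SimplyConnectedSpace U := inferInstance
    exact this
  obtain ⟨L, hL, hE⟩ := Complex.exists_continuousOn_eqOn_exp_comp hsc hU hg (by
    rintro ⟨x, hx, hx0⟩
    exact h0 x hx hx0)
  exact ⟨L, hL, fun x hx => hE hx⟩

theorem log_const {W : Set (Fin k → ℂ)} (hW : IsPreconnected W) {L L' : (Fin k → ℂ) → ℂ} (hc : ContinuousOn L W)
    (hc' : ContinuousOn L' W) (he : ∀ x ∈ W, Complex.exp (L x) = Complex.exp (L' x)) :
    ∃ m : ℤ, ∀ x ∈ W, L x = L' x + 2 * (Real.pi : ℂ) * Complex.I * (m : ℂ) := by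
  rcases W.eq_empty_or_nonempty with rfl | ⟨x₀, hx₀⟩
  · exact ⟨0, fun x hx => absurd hx (Set.notMem_empty x)⟩
  have hch : ∀ x ∈ W, ∃ m : ℤ, L x = L' x + 2 * (Real.pi : ℂ) * Complex.I * (m : ℂ) := by
    intro x hx
    obtain ⟨m, hm⟩ := Complex.exp_eq_exp_iff_exists_int.1 (he x hx)
    exact ⟨m, by rw [hm]; ring⟩
  have hpi : (2 * (Real.pi : ℂ) * Complex.I) ≠ 0 := Complex.two_pi_I_ne_zero
  set F : (Fin k → ℂ) → ℝ := fun x => ((L x - L' x) / (2 * (Real.pi : ℂ) * Complex.I)).re with hF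
  have hFc : ContinuousOn F W :=
    Complex.continuous_re.comp_continuousOn ((hc.sub hc').div_const _)
  have hFv : ∀ x ∈ W, ∀ m : ℤ, L x = L' x + 2 * (Real.pi : ℂ) * Complex.I * (m : ℂ) → F x = (m : ℝ) := by
    intro x _ m hm
    have h1 : (L x - L' x) / (2 * (Real.pi : ℂ) * Complex.I) = ((m : ℝ) : ℂ) := by
      rw [div_eq_iff hpi, hm]
      push_cast
      ring
    rw [hF]
    show ((L x - L' x) / (2 * (Real.pi : ℂ) * Complex.I)).re = (m : ℝ)
    rw [h1, Complex.ofReal_re]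
  obtain ⟨m, hm⟩ := hch x₀ hx₀
  refine ⟨m, fun x hx => ?_⟩
  obtain ⟨m', hm'⟩ := hch x hx
  have hmm : m' = m := by
    by_contra hne
    have hpre : IsPreconnected (F '' W) := hW.image F hFc
    have h1 : F x₀ = (m : ℝ) := hFv x₀ hx₀ m hm
    have h2 : F x = (m' : ℝ) := hFv x hx m' hm'
    have hord : Set.OrdConnected (F '' W) := hpre.ordConnected
    have key : ∀ u v : ℤ, (u : ℝ) ∈ F '' W → (v : ℝ) ∈ F '' W → u < v → False := by
      intro u v hu hv huv
      have h3 : (u : ℝ) + 1 / 2 ∈ F '' W := by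
        refine hord.out hu hv ⟨by linarith, ?_⟩
        have : (u : ℝ) + 1 ≤ (v : ℝ) := by exact_mod_cast huv
        linarith
      obtain ⟨y, hy, hyF⟩ := h3
      obtain ⟨w, hw⟩ := hch y hy
      rw [hFv y hy w hw] at hyF
      have h4 : (2 * w : ℤ) = 2 * u + 1 := by
        have : (2 * (w : ℝ)) = 2 * (u : ℝ) + 1 := by rw [hyF]; ring
        exact_mod_cast this
      omega
    have m1 : (m : ℝ) ∈ F '' W := ⟨x₀, hx₀, h1⟩
    have m2 : (m' : ℝ) ∈ F '' W := ⟨x, hx, h2⟩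
    rcases lt_or_gt_of_ne hne with h | h
    · exact key _ _ m2 m1 h
    · exact key _ _ m1 m2 h
  rw [hm', hmm]

theorem Ctx.logs (h : Ctx k n f ρ θ T blk) {Θ : Equiv.Perm (Fin k) → Equiv.Perm (Fin n)}
    (hΘ : ∀ (σ : Equiv.Perm (Fin k)) (a : ℤ), ∀ x ∈ WW σ, ∀ α, ρ (a + inv σ) (fun l => x (σ l)) (Θ σ α) = ρ a x α)
    {z : Equiv.Perm (Fin n)} (hz : ∀ a, ∀ x ∈ XX k, ∀ α, ρ (a + 2 * (NN k : ℤ)) x (z α) = ρ a x α) :
    ∃ (L : ℤ → Tr n → (Fin k → ℂ) → ℂ) (c : Equiv.Perm (Fin k) → ℤ → Tr n → ℤ) (m : ℤ → Tr n → ℤ),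
      (∀ a p, ContinuousOn (L a p) (XX k)) ∧ (∀ a p, ∀ x ∈ XX k, Complex.exp (L a p x) = VV (ρ a x) p) ∧
      (∀ σ a p, ∀ x ∈ WW σ, L (a + inv σ) (ta (Θ σ) p) (fun l => x (σ l)) =
        L a p x + 2 * (Real.pi : ℂ) * Complex.I * (c σ a p : ℂ)) ∧
      (∀ a p, ∀ x ∈ XX k, L (a + 2 * (NN k : ℤ)) (ta z p) x = L a p x + 2 * (Real.pi : ℂ) * Complex.I * (m a p : ℂ)) := by
  have hex : ∀ (a : ℤ) (p : Tr n), ∃ L : (Fin k → ℂ) → ℂ, ContinuousOn L (XX k) ∧
      ∀ x ∈ XX k, Complex.exp (L x) = VV (ρ a x) p := by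
    intro a p
    refine exists_log (XX_open k) (XX_base k) (XX_star k) ?_ fun x hx => (VV_ne (h.inj a hx) p).1
    have hj : ∀ α, ContinuousOn (fun x => ρ a x α) (XX k) := fun α => continuousOn_pi.1 (h.cont a) α
    unfold VV
    refine ((hj p.1.1).sub (hj p.1.2.1)).div ((hj p.1.1).sub (hj p.1.2.2)) fun x hx => ?_
    exact sub_ne_zero.2 ((h.inj a hx).ne p.2.2.1)
  choose L hL hE using hex
  have hco : ∀ σ : Equiv.Perm (Fin k), Continuous fun x : Fin k → ℂ => (fun l => x (σ l)) :=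
    fun σ => continuous_pi fun l => continuous_apply (σ l)
  have hc : ∀ (σ : Equiv.Perm (Fin k)) (a : ℤ) (p : Tr n), ∃ c : ℤ, ∀ x ∈ WW σ,
      L (a + inv σ) (ta (Θ σ) p) (fun l => x (σ l)) = L a p x + 2 * (Real.pi : ℂ) * Complex.I * (c : ℂ) := by
    intro σ a p
    refine log_const (L := fun x => L (a + inv σ) (ta (Θ σ) p) (fun l => x (σ l))) (L' := L a p) (WW_conn σ) ?_ ?_ ?_
    · exact (hL _ _).comp (hco σ).continuousOn fun x hx => WW_comp σ hx
    · exact (hL _ _).mono (WW_sub σ)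
    · intro x hx
      show Complex.exp (L (a + inv σ) (ta (Θ σ) p) (fun l => x (σ l))) = Complex.exp (L a p x)
      rw [hE _ _ _ (WW_comp σ hx), hE _ _ _ (WW_sub σ hx), VV_ta]
      congr 1
      funext α
      exact hΘ σ a x hx α
  have hm : ∀ (a : ℤ) (p : Tr n), ∃ m : ℤ, ∀ x ∈ XX k,
      L (a + 2 * (NN k : ℤ)) (ta z p) x = L a p x + 2 * (Real.pi : ℂ) * Complex.I * (m : ℂ) := by
    intro a p
    refine log_const ((XX_star k).isPathConnected (XX_base k)).isConnected.isPreconnected (hL _ _) (hL _ _) ?_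
    intro x hx
    rw [hE _ _ _ hx, hE _ _ _ hx, VV_ta]
    congr 1
    funext α
    exact hz a x hx α
  choose c hc using hc
  choose m hm using hm
  exact ⟨L, c, m, hL, hE, hc, hm⟩

end Pool.Agent.LR
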