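import Pool.Agent.LR.QBase
import Pool.Agent.LR.Glue
import Pool.Agent.H60.OC.Main

/-!
# LR QT1: the case `T = 1`

`θ i * θ i = 1` for all `i + 1 < k` (`sq` on the blocks `i`, `i + 1`, `fix` outside).  `S σ a = Θ σ` (`Ctx.trans`) is a system
(`sys_of_roots`, `S (sw i) a = θ i` as `Θ (1 * sw i) = θ i * Θ 1`), so `Sys.split` (`LR/Lam.lean`), `glue` (`LR/Glue.lean`) and `OC.main_theorem`.
-/

set_option autoImplicit false

open Topology Filter

noncomputable section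

namespace Pool.Agent.LR

open Pool.Agent.H60.OC (Pr NN nm zc SG MF IsRoots vd poly HoloOn)

variable {k n : ℕ} {f : (Fin k → ℂ) → (Fin n → ℂ)} {ρ : ℤ → (Fin k → ℂ) → (Fin n → ℂ)}
  {θ : ℕ → Equiv.Perm (Fin n)} {T : Equiv.Perm (Fin n)} {blk : Fin n → Option (Fin k)}

theorem Ctx.fin0 (h : Ctx k n f ρ θ T blk) (hkn : k < n) (hT : T = 1) : ∀ z ∈ SG k, ∀ z' ∈ SG k, f z = f z' := by
  have hk := h.hk
  have hsq : ∀ i, i + 1 < k → θ i * θ i = 1 := by
    intro i hi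
    ext α
    rw [Equiv.Perm.mul_apply, Equiv.Perm.one_apply]
    by_cases hα : ∃ j : Fin k, blk α = some j ∧ ((j : ℕ) = i ∨ (j : ℕ) = i + 1)
    · obtain ⟨j, hj, hj'⟩ := hα
      rw [h.blkS.sq i hi α j hj hj', hT, Equiv.Perm.one_apply]
    · have h1 : θ i α = α := h.blkS.fix i hi α fun j hj => by
        refine ⟨fun h2 => hα ⟨j, hj, Or.inl h2⟩, fun h2 => hα ⟨j, hj, Or.inr h2⟩⟩
      rw [h1, h1]
  obtain ⟨Θ, h1, h2, h3⟩ := h.trans
  have hinj : ∀ a, ∀ x ∈ XX k, Function.Injective (ρ a x) := fun a x hx => h.inj a hx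
  have hsys : Sys (G := Equiv.Perm (Fin n)) inv (fun σ (_ : ℤ) => Θ σ) := sys_of_roots hinj h3
  have hsw : ∀ i, i + 1 < k → Θ (sw i) = θ i := by
    intro i hi
    have h4 := h2 1 i hi (by
      rw [Equiv.Perm.one_apply, Equiv.Perm.one_apply, Fin.lt_def]
      exact Nat.lt_succ_self i)
    rw [one_mul, h1, mul_one] at h4
    exact h4
  obtain ⟨L, hL⟩ := hsys.split (by omega) (fun a i j hi hj => by
    show Θ (sw i) * Θ (sw i) = Θ (sw j) * Θ (sw j)
    rw [hsw i hi, hsw j hj, hsq i hi, hsq j hj])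
  obtain ⟨μ, hμc, hμ⟩ := glue h.cont h.root h3 hL
  exact Pool.Agent.H60.OC.main_theorem (by omega) hkn h.map h.hol hμc hμ

end Pool.Agent.LR
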