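import Pool.Agent.LR.QConst
import Pool.Agent.LR.QAlg
import Pool.Agent.LR.QFin1
import Pool.Agent.LR.QFin2
import Pool.Agent.LR.QT1

/-!
# LR QMain: maps with block data are constant
-/

set_option autoImplicit false

open Topology Filter

noncomputable section

namespace Pool.Agent.LR

open Pool.Agent.H60.OC (Pr NN nm zc SG MF IsRoots vd poly HoloOn)

variable {k n : ℕ} {f : (Fin k → ℂ) → (Fin n → ℂ)} {ρ : ℤ → (Fin k → ℂ) → (Fin n → ℂ)}
  {θ : ℕ → Equiv.Perm (Fin n)} {T : Equiv.Perm (Fin n)} {blk : Fin n → Option (Fin k)}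

theorem Ctx.alt (h : Ctx k n f ρ θ T blk) (a : ℤ) : (∀ p : Tr n, ∃ c, ∀ x ∈ XX k, VV (ρ a x) p = c) ∨
    ∀ p : Tr n, ∀ x ∈ XX k, VV (ρ a x) (ta T p) = VV (ρ a x) p := by
  choose l hl using h.vq_const a
  rcases alt_abs (X := XX k) (r := fun x => ρ a x) (fun x => h.inj a x.2) (T := T) (l := l) (fun p x => by
    have h1 := hl p x x.2
    rw [vq, div_eq_iff (VV_ne (h.inj a x.2) p).1] at h1
    exact h1) with h1 | h1
  · left
    intro p
    obtain ⟨c, hc⟩ := h1 p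
    exact ⟨c, fun x hx => hc ⟨x, hx⟩⟩
  · right
    exact fun p x hx => h1 p ⟨x, hx⟩

theorem Ctx.main (h : Ctx k n f ρ θ T blk) (hkn : k < n) : ∀ z ∈ SG k, ∀ z' ∈ SG k, f z = f z' := by
  by_cases hT : T = 1
  · exact h.fin0 hkn hT
  · by_cases h1 : ∃ a : ℤ, ∀ p : Tr n, ∃ c, ∀ x ∈ XX k, VV (ρ a x) p = c
    · obtain ⟨a, ha⟩ := h1
      exact h.fin1 ha
    · obtain ⟨a, ha⟩ := h.fin2 hT fun a p x hx => (h.alt a).resolve_left (fun h2 => h1 ⟨a, h2⟩) p x hx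
      exact h.fin1 ha

end Pool.Agent.LR
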