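import Pool.Agent.LR.QNuA

/-!
# LR QNu: the winding numbers are invariant under `T`

Combine `Ctx.trans`, `Ctx.per`, `Ctx.logs`, `Ctx.sig`, `lv_braid` (`Θ (sw i) = θ i`, `inv (sw i) = 1`), `Ctx.lv_per`, `nu_abs` with `N = NN k`,
`F = n !` (`g ^ n ! = 1` for a permutation of `Fin n`: `pow_card_eq_one'`, `Fintype.card_perm`), `κ i a p = - c (sw i) a p`,
`μ a p = - m a p`.
-/

set_option autoImplicit false

open Topology Filter

noncomputable section

namespace Pool.Agent.LR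

open Pool.Agent.H60.OC (Pr NN nm zc SG MF IsRoots vd poly HoloOn)

/-- The winding number of the quotient `p` around the branch of the level `a` over `x_j = x_(j+1)`. -/
def nu {n : ℕ} (k : ℕ) (θ : ℕ → Equiv.Perm (Fin n)) (z : Equiv.Perm (Fin n)) (c : ℕ → ℤ → Tr n → ℤ) (m : ℤ → Tr n → ℤ) (j : ℕ) (a : ℤ)
    (p : Tr n) : ℤ :=
  (∑ r ∈ Finset.range (2 * (NN k * n.factorial)), c j (a + r) (ta (θ j ^ r) p)) -
    ∑ s ∈ Finset.range n.factorial, m (a + 2 * NN k * s) (ta (z ^ s) p)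

variable {k n : ℕ} {f : (Fin k → ℂ) → (Fin n → ℂ)} {ρ : ℤ → (Fin k → ℂ) → (Fin n → ℂ)}
  {θ : ℕ → Equiv.Perm (Fin n)} {T : Equiv.Perm (Fin n)} {blk : Fin n → Option (Fin k)}

theorem Ctx.nu_eq (h : Ctx k n f ρ θ T blk) : ∃ (z : Equiv.Perm (Fin n)) (L : ℤ → Tr n → (Fin k → ℂ) → ℂ)
    (c : ℕ → ℤ → Tr n → ℤ) (m : ℤ → Tr n → ℤ),
      (∀ a, ∀ x ∈ XX k, ∀ α, ρ (a + 2 * (NN k : ℤ)) x (z α) = ρ a x α) ∧
      (∀ a p, ContinuousOn (L a p) (XX k)) ∧ (∀ a p, ∀ x ∈ XX k, Complex.exp (L a p x) = VV (ρ a x) p) ∧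
      (∀ i, i + 1 < k → ∀ a p, ∀ x ∈ WW (sw i),
        L (a + 1) (ta (θ i) p) (fun l => x ((sw i : Equiv.Perm (Fin k)) l)) =
          L a p x + 2 * (Real.pi : ℂ) * Complex.I * (c i a p : ℂ)) ∧
      (∀ a p, ∀ x ∈ XX k, L (a + 2 * (NN k : ℤ)) (ta z p) x = L a p x + 2 * (Real.pi : ℂ) * Complex.I * (m a p : ℂ)) ∧
      ∀ j, j + 1 < k → ∀ a p, nu k θ z c m j a (ta T p) = nu k θ z c m j a p := by
  obtain ⟨Θ, hΘ1, hΘ2, hΘ3⟩ := h.trans
  obtain ⟨z, hzθ, -, hz⟩ := h.per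
  obtain ⟨L, c, m, hLc, hLe, hLs, hLm⟩ := h.logs hΘ3 hz
  have hsw : ∀ i, i + 1 < k → Θ (sw i) = θ i := by
    intro i hi
    have h1 := hΘ2 1 i hi (by
      rw [Fin.lt_def]
      exact Nat.lt_succ_self i)
    rwa [one_mul, hΘ1, mul_one] at h1
  have hLi : ∀ i, i + 1 < k → ∀ a p, ∀ x ∈ WW (sw i),
      L (a + 1) (ta (θ i) p) (fun l => x ((sw i : Equiv.Perm (Fin k)) l)) =
        L a p x + 2 * (Real.pi : ℂ) * Complex.I * (c (sw i) a p : ℂ) := by
    intro i hi a p x hx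
    have h1 := hLs (sw i) a p x hx
    rwa [inv_sw i hi, hsw i hi] at h1
  refine ⟨z, L, fun i => c (sw i), m, hz, hLc, hLe, hLi, hLm, ?_⟩
  intro j hj a p
  have hB := lv_braid (h.sig hΘ3 hLs)
  have hS : BraidRel k (fun i => lv 1 (fun a => sh (θ i) (fun p => - c (sw i) a p))) := by
    constructor
    · intro i j hij hj
      have h1 := hB.far i j hij hj
      simp only [hsw i (by omega), hsw j hj] at h1
      exact h1
    · intro i hi
      have h1 := hB.br i hi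
      simp only [hsw i (by omega), hsw (i + 1) (by omega)] at h1
      exact h1
  have hP : ∀ i, i + 1 < k → lv (2 * (NN k : ℤ)) (fun a => sh z (fun p => - m a p)) *
      lv 1 (fun a => sh (θ i) (fun p => - c (sw i) a p)) =
      lv 1 (fun a => sh (θ i) (fun p => - c (sw i) a p)) *
        lv (2 * (NN k : ℤ)) (fun a => sh z (fun p => - m a p)) := by
    intro i hi
    exact h.lv_per hi (hzθ i hi) (hLi i hi) hLm
  have hF : ∀ g : Equiv.Perm (Fin n), g ^ n.factorial = 1 := by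
    intro g
    have h1 : g ^ Fintype.card (Equiv.Perm (Fin n)) = 1 := pow_card_eq_one
    rwa [Fintype.card_perm, Fintype.card_fin] at h1
  have hmain := nu_abs (N := NN k) (F := n.factorial) h.hk h.blkS (hF z)
    (fun j _ => by
      rw [← mul_assoc, mul_comm, pow_mul, hF, one_pow]) hS hP hj a p
  simp only [Finset.sum_neg_distrib] at hmain
  simp only [nu]
  linarith

end Pool.Agent.LR
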