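import Pool.Agent.LR.QBase

/-!
# LR QPer: periodicity in the level

`GG (a + 2 N) x = GG a x` (the exponential changes by `exp (2 π i) = 1`), `N = NN k`.  So (`exists_perm_on` on `XX k`, which is
star-convex, so preconnected) there is `z a` with `ρ (a + 2 N) x (z a α) = ρ a x α` on `XX k`.  Comparing on `WW (sw i)` (not empty,
`wit_mem`): `θ i * z a = z (a + 1) * θ i` for all `i`.  So `z a` commutes with `(θ j)⁻¹ * θ i` for all `i`, `j`.

`zfix`: a permutation `z` which commutes with all `(θ j)⁻¹ * θ i` (`i + 2 ≤ j`) commutes with all `θ i` and with `T`: the set of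
the points moved by `(θ j)⁻¹ * θ i` (`|i - j| ≥ 2`) is the union of the blocks `i`, `i+1`, `j`, `j+1` (`fix`, `mv`: a point of block `i` goes
to block `i + 1` under `θ i` and `θ j` does not touch the blocks `i`, `i + 1`), and `z` preserves it; with two different `j`, `j'`
(`k ≥ 12`) `z` preserves the union `B` of the blocks `i`, `i + 1`; on `B`, `(θ j)⁻¹ * θ i = θ i`, so `z (θ i α) = θ i (z α)` for `α ∈ B`,
and outside `B` both sides are `z α` (`z` preserves the complement of `B`).  `T`: on `B`, `T = θ i ∘ θ i`; a point in no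
block: `T α = α`, and `z α` is in no block (it is in no `B`).

Then `z (a + 1) = θ i * z a * (θ i)⁻¹ = z a`, so `z a = z 0` for all `a`.
-/

set_option autoImplicit false

open Topology Filter

noncomputable section

namespace Pool.Agent.LR

open Pool.Agent.H60.OC (Pr NN nm zc SG MF IsRoots vd poly HoloOn)

variable {k n : ℕ} {f : (Fin k → ℂ) → (Fin n → ℂ)} {ρ : ℤ → (Fin k → ℂ) → (Fin n → ℂ)}
  {θ : ℕ → Equiv.Perm (Fin n)} {T : Equiv.Perm (Fin n)} {blk : Fin n → Option (Fin k)}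

/-- Membership in the blocks `i`, `i + 1`. -/
private def QPer_in (blk : Fin n → Option (Fin k)) (i : ℕ) (α : Fin n) : Prop :=
  ∃ j : Fin k, blk α = some j ∧ ((j : ℕ) = i ∨ (j : ℕ) = i + 1)

private theorem QPer_sw_in {i : ℕ} (hi : i + 1 < k) {j : Fin k} (h : (j : ℕ) = i ∨ (j : ℕ) = i + 1) :
    (((sw i : Equiv.Perm (Fin k)) j : ℕ) = i ∨ ((sw i : Equiv.Perm (Fin k)) j : ℕ) = i + 1) ∧
      (sw i : Equiv.Perm (Fin k)) j ≠ j := by
  rw [sw, dif_pos hi]
  rcases h with h | h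
  · have h1 : j = ⟨i, by omega⟩ := Fin.ext h
    rw [h1, Equiv.swap_apply_left]
    exact ⟨Or.inr rfl, by simp [Fin.ext_iff]⟩
  · have h1 : j = ⟨i + 1, hi⟩ := Fin.ext h
    rw [h1, Equiv.swap_apply_right]
    exact ⟨Or.inl rfl, by simp [Fin.ext_iff]⟩

private theorem QPer_in_mv (hb : Blk k n θ T blk) {i : ℕ} (hi : i + 1 < k) {α : Fin n} (h : QPer_in blk i α) :
    QPer_in blk i (θ i α) ∧ θ i α ≠ α := by
  obtain ⟨j, hj, h1⟩ := h
  have h2 := hb.mv i hi α j hj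
  refine ⟨⟨_, h2, (QPer_sw_in hi h1).1⟩, fun h3 => ?_⟩
  rw [h3, hj] at h2
  exact (QPer_sw_in hi h1).2 (Option.some.inj h2).symm

private theorem QPer_in_fix (hb : Blk k n θ T blk) {i : ℕ} (hi : i + 1 < k) {α : Fin n} (h : ¬ QPer_in blk i α) :
    θ i α = α := by
  refine hb.fix i hi α fun j hj => ⟨fun h1 => h ⟨j, hj, Or.inl h1⟩, fun h1 => h ⟨j, hj, Or.inr h1⟩⟩

private theorem QPer_in_disj {i j : ℕ} (hij : i + 2 ≤ j ∨ j + 2 ≤ i) {α : Fin n} (h : QPer_in blk i α) :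
    ¬ QPer_in blk j α := by
  rintro ⟨l, hl, h1⟩
  obtain ⟨l', hl', h2⟩ := h
  rw [hl] at hl'
  have h3 := congrArg Fin.val (Option.some.inj hl')
  omega

/-- The value of `(θ j)⁻¹ * θ i` on the blocks `i`, `i + 1`. -/
private theorem QPer_g_in (hb : Blk k n θ T blk) {i j : ℕ} (hi : i + 1 < k) (hj : j + 1 < k)
    (hij : i + 2 ≤ j ∨ j + 2 ≤ i) {α : Fin n} (h : QPer_in blk i α) : ((θ j)⁻¹ * θ i) α = θ i α := by
  have h1 : θ j (θ i α) = θ i α := QPer_in_fix hb hj (QPer_in_disj hij (QPer_in_mv hb hi h).1)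
  rw [Equiv.Perm.mul_apply, Equiv.Perm.inv_eq_iff_eq, h1]

/-- The points moved by `(θ j)⁻¹ * θ i`. -/
private theorem QPer_g_mv (hb : Blk k n θ T blk) {i j : ℕ} (hi : i + 1 < k) (hj : j + 1 < k)
    (hij : i + 2 ≤ j ∨ j + 2 ≤ i) (α : Fin n) : ((θ j)⁻¹ * θ i) α ≠ α ↔ (QPer_in blk i α ∨ QPer_in blk j α) := by
  constructor
  · intro h
    by_contra hc
    rw [not_or] at hc
    apply h
    rw [Equiv.Perm.mul_apply, Equiv.Perm.inv_eq_iff_eq, QPer_in_fix hb hi hc.1, QPer_in_fix hb hj hc.2]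
  · rintro (h | h)
    · rw [QPer_g_in hb hi hj hij h]
      exact (QPer_in_mv hb hi h).2
    · have h1 : θ i α = α := QPer_in_fix hb hi (QPer_in_disj hij.symm h)
      rw [Equiv.Perm.mul_apply, h1, Ne, Equiv.Perm.inv_eq_iff_eq]
      exact fun h2 => (QPer_in_mv hb hj h).2 h2.symm

private theorem QPer_g_pres (hb : Blk k n θ T blk) {i j : ℕ} (hi : i + 1 < k) (hj : j + 1 < k)
    (hij : i + 2 ≤ j ∨ j + 2 ≤ i) {z : Equiv.Perm (Fin n)}
    (hz : z * ((θ j)⁻¹ * θ i) = (θ j)⁻¹ * θ i * z) (α : Fin n) :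
    (QPer_in blk i (z α) ∨ QPer_in blk j (z α)) ↔ (QPer_in blk i α ∨ QPer_in blk j α) := by
  rw [← QPer_g_mv hb hi hj hij, ← QPer_g_mv hb hi hj hij, not_iff_not, ← Equiv.Perm.mul_apply, ← hz,
    Equiv.Perm.mul_apply, z.injective.eq_iff]

private theorem QPer_pres (hb : Blk k n θ T blk) (hk : 12 ≤ k) {z : Equiv.Perm (Fin n)}
    (hz : ∀ i j, i + 1 < k → j + 1 < k → (i + 2 ≤ j ∨ j + 2 ≤ i) → z * ((θ j)⁻¹ * θ i) = (θ j)⁻¹ * θ i * z)
    {i : ℕ} (hi : i + 1 < k) (α : Fin n) : QPer_in blk i (z α) ↔ QPer_in blk i α := by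
  obtain ⟨j, j', hj, hj', h1, h2, h3⟩ : ∃ j j', j + 1 < k ∧ j' + 1 < k ∧ (i + 2 ≤ j ∨ j + 2 ≤ i) ∧
      (i + 2 ≤ j' ∨ j' + 2 ≤ i) ∧ (j + 2 ≤ j' ∨ j' + 2 ≤ j) := by
    by_cases h : 4 ≤ i
    · exact ⟨0, 2, by omega, by omega, by omega, by omega, by omega⟩
    · exact ⟨6, 8, by omega, by omega, by omega, by omega, by omega⟩
  have e1 := QPer_g_pres hb hi hj h1 (hz i j hi hj h1) α
  have e2 := QPer_g_pres hb hi hj' h2 (hz i j' hi hj' h2) α
  constructor
  · intro h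
    rcases e1.1 (Or.inl h) with h4 | h4
    · exact h4
    · rcases e2.1 (Or.inl h) with h5 | h5
      · exact h5
      · exact absurd h5 (QPer_in_disj h3 h4)
  · intro h
    rcases e1.2 (Or.inl h) with h4 | h4
    · exact h4
    · rcases e2.2 (Or.inl h) with h5 | h5
      · exact h5
      · exact absurd h5 (QPer_in_disj h3 h4)

theorem Blk.zfix (hb : Blk k n θ T blk) (hk : 12 ≤ k) {z : Equiv.Perm (Fin n)}
    (hz : ∀ i j, i + 1 < k → j + 1 < k → (i + 2 ≤ j ∨ j + 2 ≤ i) → z * ((θ j)⁻¹ * θ i) = (θ j)⁻¹ * θ i * z) :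
    (∀ i, i + 1 < k → z * θ i = θ i * z) ∧ z * T = T * z := by
  have hp := fun (i : ℕ) (hi : i + 1 < k) (α : Fin n) => QPer_pres hb hk hz hi α
  have hθ : ∀ i, i + 1 < k → z * θ i = θ i * z := by
    intro i hi
    apply Equiv.ext
    intro α
    show z (θ i α) = θ i (z α)
    by_cases h : QPer_in blk i α
    · obtain ⟨j, hj, h1⟩ : ∃ j, j + 1 < k ∧ (i + 2 ≤ j ∨ j + 2 ≤ i) := by
        by_cases h : 4 ≤ i
        · exact ⟨0, by omega, by omega⟩
        · exact ⟨6, by omega, by omega⟩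
      rw [← QPer_g_in hb hi hj h1 h, ← QPer_g_in hb hi hj h1 ((hp i hi α).2 h)]
      exact congrArg (fun g : Equiv.Perm (Fin n) => g α) (hz i j hi hj h1)
    · rw [QPer_in_fix hb hi h, QPer_in_fix hb hi fun h1 => h ((hp i hi α).1 h1)]
  refine ⟨hθ, ?_⟩
  apply Equiv.ext
  intro α
  show z (T α) = T (z α)
  rcases h0 : blk α with _ | j
  · rw [hb.T_none α h0, hb.T_none (z α)]
    rcases h1 : blk (z α) with _ | j
    · rfl
    · exfalso
      obtain ⟨i, hi, h2⟩ : ∃ i, i + 1 < k ∧ ((j : ℕ) = i ∨ (j : ℕ) = i + 1) := by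
        have := j.isLt
        by_cases h : (j : ℕ) + 1 < k
        · exact ⟨j, h, Or.inl rfl⟩
        · exact ⟨(j : ℕ) - 1, by omega, by omega⟩
      obtain ⟨j', hj', -⟩ := (hp i hi α).1 ⟨j, h1, h2⟩
      rw [h0] at hj'
      exact absurd hj' (by simp)
  · obtain ⟨i, hi, h2⟩ : ∃ i, i + 1 < k ∧ ((j : ℕ) = i ∨ (j : ℕ) = i + 1) := by
      have := j.isLt
      by_cases h : (j : ℕ) + 1 < k
      · exact ⟨j, h, Or.inl rfl⟩
      · exact ⟨(j : ℕ) - 1, by omega, by omega⟩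
    obtain ⟨j', hj', h3⟩ := (hp i hi α).2 ⟨j, h0, h2⟩
    have hc : ∀ β, z (θ i β) = θ i (z β) := fun β => congrArg (fun g : Equiv.Perm (Fin n) => g β) (hθ i hi)
    rw [← hb.sq i hi α j h0 h2, ← hb.sq i hi (z α) j' hj' h3, hc, hc]

theorem GG_per (a : ℤ) (x : Fin k → ℂ) (hk : 2 ≤ k) : GG (a + 2 * (NN k : ℤ)) x = GG a x := by
  have hN : ((NN k : ℕ) : ℂ) ≠ 0 := Nat.cast_ne_zero.2 (Pool.Agent.H60.OC.NN_pos hk).ne'
  have h1 : Complex.exp ((lg x + (Real.pi : ℂ) * Complex.I * ((a + 2 * (NN k : ℤ) : ℤ) : ℂ)) / (NN k : ℂ)) =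
      Complex.exp ((lg x + (Real.pi : ℂ) * Complex.I * (a : ℂ)) / (NN k : ℂ)) := by
    have h2 : (lg x + (Real.pi : ℂ) * Complex.I * ((a + 2 * (NN k : ℤ) : ℤ) : ℂ)) / (NN k : ℂ) =
        (lg x + (Real.pi : ℂ) * Complex.I * (a : ℂ)) / (NN k : ℂ) + 2 * (Real.pi : ℂ) * Complex.I := by
      push_cast
      field_simp
      ring
    rw [h2, Complex.exp_add, Complex.exp_two_pi_mul_I, mul_one]
  unfold GG nrm
  rw [h1]

theorem Ctx.per (h : Ctx k n f ρ θ T blk) : ∃ z : Equiv.Perm (Fin n), (∀ i, i + 1 < k → z * θ i = θ i * z) ∧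
    z * T = T * z ∧ ∀ a, ∀ x ∈ XX k, ∀ α, ρ (a + 2 * (NN k : ℤ)) x (z α) = ρ a x α := by
  have hk := h.hk
  have hconn : IsPreconnected (XX k) :=
    ((XX_star k).isPathConnected (XX_base k)).isConnected.isPreconnected
  have h2 : ∀ a : ℤ, ∃ s : Equiv.Perm (Fin n), ∀ x ∈ XX k, ∀ j, ρ (a + 2 * (NN k : ℤ)) x (s j) = ρ a x j := by
    intro a
    refine exists_perm_on hconn (ρ := ρ a) (ρ' := ρ (a + 2 * (NN k : ℤ))) (H := fun x => f (GG a x))
      (h.cont a) (h.cont _) (fun x hx => h.root a x hx) ?_ (fun x hx => h.inj a hx)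
    intro x hx
    show IsRoots (ρ (a + 2 * (NN k : ℤ)) x) (f (GG a x))
    rw [← GG_per a x (by omega)]
    exact h.root _ x hx
  choose z hz using h2
  have hs : ∀ i, i + 1 < k → ∀ a, z (a + 1) * θ i = θ i * z a := by
    intro i hi a
    have hw := wit_mem (1 : Equiv.Perm (Fin k)) (sw i)
    generalize (fun i => (_ : ℂ)) = x at hw
    apply Equiv.ext
    intro α
    have e1 := h.tr i hi a _ hw α
    have e2 := h.tr i hi (a + 2 * (NN k : ℤ)) _ hw (z a α)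
    have e3 := hz a _ (WW_sub _ hw) α
    have e4 := hz (a + 1) _ (WW_comp _ hw) (θ i α)
    rw [show a + 1 + 2 * (NN k : ℤ) = a + 2 * (NN k : ℤ) + 1 by ring] at e4
    exact h.inj _ (WW_comp _ hw) (e4.trans (e1.trans (e3.symm.trans e2.symm)))
  have hfix := fun a : ℤ => h.blkS.zfix hk (z := z a) (by
    intro i j hi hj _
    have e1 : z (a + 1) = θ i * z a * (θ i)⁻¹ := by rw [← hs i hi a, mul_inv_cancel_right]
    have e2 : z (a + 1) = θ j * z a * (θ j)⁻¹ := by rw [← hs j hj a, mul_inv_cancel_right]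
    have e3 : θ i * z a * (θ i)⁻¹ = θ j * z a * (θ j)⁻¹ := e1.symm.trans e2
    have e4 : θ i * z a = θ j * z a * (θ j)⁻¹ * θ i := by rw [← e3, inv_mul_cancel_right]
    rw [mul_assoc, e4]
    group)
  have hstep : ∀ a, z (a + 1) = z a := by
    intro a
    have e1 := hs 0 (by omega) a
    rw [← (hfix a).1 0 (by omega)] at e1
    exact mul_right_cancel e1
  have hall : ∀ a, z a = z 0 := by
    intro a
    induction a using Int.induction_on with
    | zero => rfl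
    | succ i ih => rw [hstep, ih]
    | pred i ih =>
      have := hstep (-(i : ℤ) - 1)
      rw [sub_add_cancel] at this
      rw [← this, ih]
  refine ⟨z 0, (hfix 0).1, (hfix 0).2, fun a x hx α => ?_⟩
  rw [← hall a]
  exact hz a x hx α

end Pool.Agent.LR
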