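import Pool.Agent.LR.QNu
import Pool.Agent.LR.QPA

/-!
# LR QPunct: `vq` is bounded near the coincidence of two neighbouring points

`y u = x₀ + u y` has `y_(j+1) - y_j = u` and all other differences have positive real part for small `u` (for pairs which
contain exactly one of `j`, `j + 1` too).  Chart `r`: `Y r u = (y u) ∘ (sw j)^r`; for `(-1)^r u` in the slit plane and `|u| < ε` it is in `XX k`
(the difference of the positions `j`, `j + 1` is `(-1)^r u`), and for `Im ((-1)^r u) > 0` it is in `WW (sw j)`, with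
`Y r u ∘ sw j = Y (r + 1) u`.  Put (`a`, `p` fixed, `θ = θ j`, `r ∈ ℤ`)
`v r u = VV (ρ (a + r) (Y r u)) (ta (θ ^ r) p)`, `v' r u = VV (ρ (a + r) (Y r u)) (ta (θ ^ r) (ta T p))` (`θ ^ r * T = T * θ ^ r`),
`q r u = L (a + r) (ta (θ ^ r) (ta T p)) (Y r u) - L (a + r) (ta (θ ^ r) p) (Y r u)`,
`d r = c j (a + r) (ta (θ ^ r) (ta T p)) - c j (a + r) (ta (θ ^ r) p)`.  Glueing: `h.tr` (for `v`) and the property of `c`.  Period:
`M = NN k * n !`, `(sw j)^(2M) = 1`, `θ ^ (2 M) = 1`, `z ^ n ! = 1`, and `n !` applications of `ρ (b + 2 N) x (z α) = ρ b x α`, of the property of `m`: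
`e r = ∑_{s < n !} (m (a + r + 2 N s) (ta (z ^ s * θ ^ r) (ta T p)) - m (a + r + 2 N s) (ta (z ^ s * θ ^ r) p))`.  Total: `nu_eq`.  Then
`punct_abs` at `r = 0`: `v' 0 u / v 0 u = vq ρ T a p (y u)`.
-/

set_option autoImplicit false

open Topology Filter

noncomputable section

namespace Pool.Agent.LR

open Pool.Agent.H60.OC (Pr NN nm zc SG MF IsRoots vd poly HoloOn)

variable {k n : ℕ} {f : (Fin k → ℂ) → (Fin n → ℂ)} {ρ : ℤ → (Fin k → ℂ) → (Fin n → ℂ)}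
  {θ : ℕ → Equiv.Perm (Fin n)} {T : Equiv.Perm (Fin n)} {blk : Fin n → Option (Fin k)}

/-- The line through `x₀` in the direction `y`, permuted. -/
def QPunct_Y (x₀ y : Fin k → ℂ) (g : Equiv.Perm (Fin k)) (u : ℂ) : Fin k → ℂ := fun i => x₀ (g i) + u * y (g i)

/-- `(sw j)^r` for even and odd `r`. -/
theorem QPunct_sw (j : ℕ) (r : ℤ) :
    (((sw j : Equiv.Perm (Fin k)) ^ r = 1 ∧ (-1 : ℂ) ^ r = 1) ∨
      ((sw j : Equiv.Perm (Fin k)) ^ r = sw j ∧ (-1 : ℂ) ^ r = -1)) := by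
  have hs2 : (sw j : Equiv.Perm (Fin k)) * sw j = 1 := by
    unfold sw
    split_ifs with h
    · exact Equiv.swap_mul_self _ _
    · exact one_mul 1
  rcases Int.even_or_odd r with h | h
  · left
    obtain ⟨s, hs⟩ := h
    refine ⟨?_, Even.neg_one_zpow ⟨s, hs⟩⟩
    rw [hs, ← two_mul, zpow_mul, zpow_two, hs2, one_zpow]
  · right
    refine ⟨?_, Odd.neg_one_zpow h⟩
    obtain ⟨s, hs⟩ := h
    rw [hs, zpow_add_one, zpow_mul, zpow_two, hs2, one_zpow, one_mul]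

/-- A radius below which all the other differences have positive real part. -/
theorem QPunct_eps {j : ℕ} (hj : j + 1 < k) {x₀ y : Fin k → ℂ}
    (h1 : ∀ i i' : Fin k, i < i' → ¬ ((i : ℕ) = j ∧ (i' : ℕ) = j + 1) → (x₀ i).re < (x₀ i').re)
    (h2 : x₀ ⟨j, by omega⟩ = x₀ ⟨j + 1, hj⟩) :
    ∃ ε > 0, ∀ r : ℤ, ∀ u : ℂ, ‖u‖ < ε → ∀ i i' : Fin k, i < i' → ¬ ((i : ℕ) = j ∧ (i' : ℕ) = j + 1) →
      (QPunct_Y x₀ y ((sw j : Equiv.Perm (Fin k)) ^ r) u i).re <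
        (QPunct_Y x₀ y ((sw j : Equiv.Perm (Fin k)) ^ r) u i').re := by
  classical
  -- bound for `y`
  obtain ⟨C, hC⟩ : ∃ C : ℝ, ∀ i, ‖y i‖ ≤ C := by
    refine ⟨∑ i, ‖y i‖, fun i => ?_⟩
    exact Finset.single_le_sum (f := fun i => ‖y i‖) (fun i _ => norm_nonneg _) (Finset.mem_univ i)
  have hC0 : 0 ≤ C := (norm_nonneg _).trans (hC ⟨j, by omega⟩)
  -- the smallest gap
  obtain ⟨d, hd0, hd⟩ : ∃ d > 0, ∀ i i' : Fin k, i < i' → ¬ ((i : ℕ) = j ∧ (i' : ℕ) = j + 1) →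
      d ≤ (x₀ i').re - (x₀ i).re := by
    set S : Finset (Fin k × Fin k) := Finset.univ.filter
      (fun p => p.1 < p.2 ∧ ¬ ((p.1 : ℕ) = j ∧ (p.2 : ℕ) = j + 1)) with hS
    by_cases hne : S.Nonempty
    · obtain ⟨p, hp, hpm⟩ := S.exists_min_image (fun p => (x₀ p.2).re - (x₀ p.1).re) hne
      have hp' := (Finset.mem_filter.1 hp).2
      refine ⟨(x₀ p.2).re - (x₀ p.1).re, ?_, ?_⟩
      · have := h1 p.1 p.2 hp'.1 hp'.2
        simpa using this
      · intro i i' hii hn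
        exact hpm (i, i') (Finset.mem_filter.2 ⟨Finset.mem_univ _, hii, hn⟩)
    · refine ⟨1, one_pos, fun i i' hii hn => ?_⟩
      exact absurd ⟨(i, i'), Finset.mem_filter.2 ⟨Finset.mem_univ _, hii, hn⟩⟩ hne
  refine ⟨d / (2 * C + 1), by positivity, ?_⟩
  intro r u hu i i' hii hn
  -- `x₀` is invariant
  have hx : ∀ l : Fin k, x₀ (((sw j : Equiv.Perm (Fin k)) ^ r) l) = x₀ l := by
    intro l
    rcases QPunct_sw (k := k) j r with ⟨h, -⟩ | ⟨h, -⟩
    · rw [h]; rfl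
    · rw [h, sw, dif_pos hj]
      rcases eq_or_ne l ⟨j, by omega⟩ with hl | hl
      · rw [hl, Equiv.swap_apply_left, h2]
      · rcases eq_or_ne l ⟨j + 1, hj⟩ with hl' | hl'
        · rw [hl', Equiv.swap_apply_right, h2]
        · rw [Equiv.swap_apply_of_ne_of_ne hl hl']
  simp only [QPunct_Y, hx, Complex.add_re]
  have hgap := hd i i' hii hn
  have hb : ∀ l : Fin k, |(u * y (((sw j : Equiv.Perm (Fin k)) ^ r) l)).re| ≤ ‖u‖ * C := by
    intro l
    refine (Complex.abs_re_le_norm _).trans ?_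
    rw [norm_mul]
    exact mul_le_mul_of_nonneg_left (hC _) (norm_nonneg _)
  have hb1 := abs_le.1 (hb i)
  have hb2 := abs_le.1 (hb i')
  have hu' : ‖u‖ * (2 * C + 1) < d := by
    rwa [lt_div_iff₀ (by positivity)] at hu
  have hu0 := norm_nonneg u
  nlinarith [hb1.2, hb2.1]

/-- The difference of the positions `j`, `j + 1`. -/
theorem QPunct_diff {j : ℕ} (hj : j + 1 < k) {x₀ y : Fin k → ℂ}
    (h2 : x₀ ⟨j, by omega⟩ = x₀ ⟨j + 1, hj⟩) (h3 : y ⟨j + 1, hj⟩ - y ⟨j, by omega⟩ = 1) (r : ℤ) (u : ℂ) :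
    QPunct_Y x₀ y ((sw j : Equiv.Perm (Fin k)) ^ r) u ⟨j + 1, hj⟩ -
      QPunct_Y x₀ y ((sw j : Equiv.Perm (Fin k)) ^ r) u ⟨j, by omega⟩ = (-1 : ℂ) ^ r * u := by
  rcases QPunct_sw (k := k) j r with ⟨h, h'⟩ | ⟨h, h'⟩
  · rw [h, h']
    simp only [QPunct_Y, Equiv.Perm.coe_one, id_eq]
    linear_combination u * h3 - h2
  · rw [h, h']
    simp only [QPunct_Y, sw, dif_pos hj, Equiv.swap_apply_left, Equiv.swap_apply_right]
    linear_combination h2 - u * h3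

theorem QPunct_XX {j : ℕ} (hj : j + 1 < k) {x : Fin k → ℂ}
    (h1 : ∀ i i' : Fin k, i < i' → ¬ ((i : ℕ) = j ∧ (i' : ℕ) = j + 1) → (x i).re < (x i').re)
    (h2 : x ⟨j + 1, hj⟩ - x ⟨j, by omega⟩ ∈ Complex.slitPlane) : x ∈ XX k := by
  intro i i' hii
  by_cases h : (i : ℕ) = j ∧ (i' : ℕ) = j + 1
  · have e1 : x i = x ⟨j, by omega⟩ := congrArg x (Fin.ext h.1)
    have e2 : x i' = x ⟨j + 1, hj⟩ := congrArg x (Fin.ext h.2)
    rw [e1, e2]; exact h2
  · have h3 := h1 i i' hii h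
    left
    rw [Complex.sub_re]
    linarith

theorem QPunct_WW {j : ℕ} (hj : j + 1 < k) {x : Fin k → ℂ}
    (h1 : ∀ i i' : Fin k, i < i' → ¬ ((i : ℕ) = j ∧ (i' : ℕ) = j + 1) → (x i).re < (x i').re)
    (h2 : 0 < (x ⟨j + 1, hj⟩ - x ⟨j, by omega⟩).im) : x ∈ WW (sw j : Equiv.Perm (Fin k)) := by
  intro i i' hii
  rw [Complex.sub_im] at h2
  by_cases h : (i : ℕ) = j ∧ (i' : ℕ) = j + 1
  · have e1 : x i = x ⟨j, by omega⟩ := congrArg x (Fin.ext h.1)
    have e2 : x i' = x ⟨j + 1, hj⟩ := congrArg x (Fin.ext h.2)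
    rw [e1, e2]
    exact ⟨Or.inr (by linarith), fun _ => by linarith⟩
  · refine ⟨Or.inl (h1 i i' hii h), fun h4 => ?_⟩
    have hs : (sw j : Equiv.Perm (Fin k)).symm = sw j := by
      rw [sw, dif_pos hj, Equiv.symm_swap]
    rw [hs] at h4
    obtain ⟨e1, e2⟩ := sw_inv j hj hii h4
    exact absurd ⟨by rw [e1], by rw [e2]⟩ h

theorem QPunct_VV_an (h : Ctx k n f ρ θ T blk) (a : ℤ) (p : Tr n) {γ : ℂ → (Fin k → ℂ)} {w₀ : ℂ}
    (hγ : AnalyticAt ℂ γ w₀) (hx : γ w₀ ∈ XX k) : AnalyticAt ℂ (fun w => VV (ρ a (γ w)) p) w₀ := by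
  unfold VV
  exact ((h.an a hγ hx p.1.1).fun_sub (h.an a hγ hx p.1.2.1)).fun_div
    ((h.an a hγ hx p.1.1).fun_sub (h.an a hγ hx p.1.2.2)) (sub_ne_zero.2 ((h.inj a hx).ne p.2.2.1))

theorem Ctx.vq_bdd (h : Ctx k n f ρ θ T blk) (a : ℤ) (p : Tr n) {j : ℕ} (hj : j + 1 < k) {x₀ y : Fin k → ℂ}
    (h1 : ∀ i i' : Fin k, i < i' → ¬ ((i : ℕ) = j ∧ (i' : ℕ) = j + 1) → (x₀ i).re < (x₀ i').re)
    (h2 : x₀ ⟨j, by omega⟩ = x₀ ⟨j + 1, hj⟩) (h3 : y ⟨j + 1, hj⟩ - y ⟨j, by omega⟩ = 1) :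
    ∃ δ > 0, ∃ B : ℝ, ∀ u : ℂ, 0 < ‖u‖ → ‖u‖ < δ → u ∈ Complex.slitPlane →
      (fun i => x₀ i + u * y i) ∈ XX k ∧ ‖vq ρ T a p (fun i => x₀ i + u * y i)‖ ≤ B := by
  obtain ⟨z, L, c, m, hz, hLc, hLe, hLs, hLm, hnu⟩ := h.nu_eq
  obtain ⟨ε, hε, hεY⟩ := QPunct_eps (y := y) hj h1 h2
  set M : ℕ := NN k * n.factorial with hM
  have hN : 0 < NN k := Pool.Agent.H60.OC.NN_pos (by have := h.hk; omega)
  have hM0 : 0 < M := Nat.mul_pos hN (Nat.factorial_pos n)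
  set Y : ℤ → ℂ → (Fin k → ℂ) := fun r u => QPunct_Y x₀ y ((sw j : Equiv.Perm (Fin k)) ^ r) u with hY
  -- the charts
  have hYX : ∀ r, ∀ u ∈ Dm ε r, Y r u ∈ XX k := by
    intro r u hu
    refine QPunct_XX hj (hεY r u hu.2.1) ?_
    have := QPunct_diff hj h2 h3 r u
    simp only [hY]
    rw [this]
    exact hu.2.2
  have hYW : ∀ r, ∀ u ∈ Dm ε r, 0 < ((-1 : ℂ) ^ r * u).im → Y r u ∈ WW (sw j : Equiv.Perm (Fin k)) := by
    intro r u hu him
    refine QPunct_WW hj (hεY r u hu.2.1) ?_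
    have := QPunct_diff hj h2 h3 r u
    simp only [hY]
    rw [this]
    exact him
  have hYs : ∀ r u, (fun l => Y r u ((sw j : Equiv.Perm (Fin k)) l)) = Y (r + 1) u := by
    intro r u
    funext l
    simp only [hY, QPunct_Y, zpow_add_one, Equiv.Perm.coe_mul, Function.comp_apply]
  have hYan : ∀ r u, AnalyticAt ℂ (Y r) u := by
    intro r u
    rw [analyticAt_pi_iff]
    intro i
    simp only [QPunct_Y]
    exact analyticAt_const.fun_add (analyticAt_id.fun_mul analyticAt_const)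
  -- periods
  have hF : ∀ g : Equiv.Perm (Fin n), g ^ n.factorial = 1 := by
    intro g
    have h1 : g ^ Fintype.card (Equiv.Perm (Fin n)) = 1 := pow_card_eq_one
    rwa [Fintype.card_perm, Fintype.card_fin] at h1
  have hθM : (θ j) ^ ((2 * M : ℕ) : ℤ) = 1 := by
    rw [zpow_natCast, hM, ← mul_assoc, mul_comm, pow_mul, hF, one_pow]
  have hYM : ∀ r u, Y (r + 2 * (M : ℤ)) u = Y r u := by
    intro r u
    have e1 : (sw j : Equiv.Perm (Fin k)) ^ (r + 2 * (M : ℤ)) = (sw j : Equiv.Perm (Fin k)) ^ r := by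
      have hs2 : (sw j : Equiv.Perm (Fin k)) * sw j = 1 := by
        rw [sw, dif_pos hj]
        exact Equiv.swap_mul_self _ _
      rw [zpow_add, zpow_mul, zpow_two, hs2, one_zpow, mul_one]
    simp only [hY]
    rw [e1]
  have hρM : ∀ (b : ℤ) (x : Fin k → ℂ), x ∈ XX k → ∀ (s : ℕ) (α : Fin n),
      ρ (b + 2 * (NN k : ℤ) * s) x ((z ^ s) α) = ρ b x α := by
    intro b x hx s
    induction s with
    | zero => intro α; simp
    | succ s ih =>
      intro α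
      have e1 : b + 2 * (NN k : ℤ) * ((s + 1 : ℕ) : ℤ) = (b + 2 * (NN k : ℤ) * s) + 2 * (NN k : ℤ) := by
        push_cast; ring
      have e2 : (z ^ (s + 1)) α = z ((z ^ s) α) := by
        rw [pow_succ']; rfl
      rw [e1, e2, hz _ x hx, ih]
  have hLM : ∀ (b : ℤ) (x : Fin k → ℂ), x ∈ XX k → ∀ (s : ℕ) (p' : Tr n),
      L (b + 2 * (NN k : ℤ) * s) (ta (z ^ s) p') x = L b p' x + 2 * (Real.pi : ℂ) * Complex.I *
        ((∑ s' ∈ Finset.range s, m (b + 2 * (NN k : ℤ) * s') (ta (z ^ s') p') : ℤ) : ℂ) := by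
    intro b x hx s
    induction s with
    | zero => intro p'; simp [ta_one]
    | succ s ih =>
      intro p'
      have e1 : b + 2 * (NN k : ℤ) * ((s + 1 : ℕ) : ℤ) = (b + 2 * (NN k : ℤ) * s) + 2 * (NN k : ℤ) := by
        push_cast; ring
      have e2 : ta (z ^ (s + 1)) p' = ta z (ta (z ^ s) p') := by
        rw [pow_succ', ta_mul]; rfl
      rw [e1, e2, hLm _ _ x hx, ih, Finset.sum_range_succ]
      push_cast
      ring
  have hMn : ∀ b : ℤ, b + 2 * (M : ℤ) = b + 2 * (NN k : ℤ) * ((n.factorial : ℕ) : ℤ) := by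
    intro b
    rw [hM]; push_cast; ring
  have hρM' : ∀ (b : ℤ) (x : Fin k → ℂ), x ∈ XX k → ρ (b + 2 * (M : ℤ)) x = ρ b x := by
    intro b x hx
    funext α
    have := hρM b x hx n.factorial α
    rw [hF] at this
    rw [hMn]
    simpa using this
  have hLM' : ∀ (b : ℤ) (x : Fin k → ℂ), x ∈ XX k → ∀ p' : Tr n,
      L (b + 2 * (M : ℤ)) p' x = L b p' x + 2 * (Real.pi : ℂ) * Complex.I *
        ((∑ s' ∈ Finset.range n.factorial, m (b + 2 * (NN k : ℤ) * s') (ta (z ^ s') p') : ℤ) : ℂ) := by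
    intro b x hx p'
    have := hLM b x hx n.factorial p'
    rw [hF, ta_one] at this
    rw [hMn]
    simpa using this
  -- the data of the puncture lemma
  set v : ℤ → ℂ → ℂ := fun r u => VV (ρ (a + r) (Y r u)) (ta (θ j ^ r) p) with hv
  set v' : ℤ → ℂ → ℂ := fun r u => VV (ρ (a + r) (Y r u)) (ta (θ j ^ r) (ta T p)) with hv'
  set q : ℤ → ℂ → ℂ := fun r u => L (a + r) (ta (θ j ^ r) (ta T p)) (Y r u) -
    L (a + r) (ta (θ j ^ r) p) (Y r u) with hq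
  set d : ℤ → ℤ := fun r => c j (a + r) (ta (θ j ^ r) (ta T p)) - c j (a + r) (ta (θ j ^ r) p) with hd
  set e : ℤ → ℤ := fun r =>
    (∑ s ∈ Finset.range n.factorial, m (a + r + 2 * (NN k : ℤ) * s) (ta (z ^ s) (ta (θ j ^ r) (ta T p)))) -
    ∑ s ∈ Finset.range n.factorial, m (a + r + 2 * (NN k : ℤ) * s) (ta (z ^ s) (ta (θ j ^ r) p)) with he
  have hstep : ∀ (r : ℤ) (p' : Tr n), ta (θ j ^ (r + 1)) p' = ta (θ j) (ta (θ j ^ r) p') := by
    intro r p'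
    rw [add_comm r 1, zpow_add, zpow_one, ta_mul]; rfl
  have hperθ : ∀ r : ℤ, θ j ^ (r + 2 * (M : ℤ)) = θ j ^ r := by
    intro r
    have : ((2 * M : ℕ) : ℤ) = 2 * (M : ℤ) := by push_cast; ring
    rw [zpow_add, ← this, hθM, mul_one]
  have hVglue : ∀ (r : ℤ) (u : ℂ), u ∈ Dm ε r → 0 < ((-1 : ℂ) ^ r * u).im → ∀ p' : Tr n,
      VV (ρ (a + (r + 1)) (Y (r + 1) u)) (ta (θ j ^ (r + 1)) p') =
        VV (ρ (a + r) (Y r u)) (ta (θ j ^ r) p') := by
    intro r u hu him p'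
    rw [hstep, VV_ta, ← hYs, ← add_assoc]
    congr 1
    funext α
    exact h.tr j hj (a + r) (Y r u) (hYW r u hu him) α
  have hmain := punct_abs hε hM0 (v := v) (v' := v') (q := q) (d := d) (e := e)
    (fun r u hu => QPunct_VV_an h (a + r) _ (hYan r u) (hYX r u hu))
    (fun r u hu => QPunct_VV_an h (a + r) _ (hYan r u) (hYX r u hu))
    (fun r u hu => VV_ne (h.inj (a + r) (hYX r u hu)) _)
    (fun r u hu => VV_ne (h.inj (a + r) (hYX r u hu)) _)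
    (by
      intro r
      have hYc : ContinuousOn (Y r) (Dm ε r) := fun u _ => (hYan r u).continuousAt.continuousWithinAt
      exact ((hLc (a + r) _).comp hYc (hYX r)).sub ((hLc (a + r) _).comp hYc (hYX r)))
    (by
      intro r u hu
      simp only [hq, hv, hv']
      rw [Complex.exp_sub, hLe _ _ _ (hYX r u hu), hLe _ _ _ (hYX r u hu)])
    (by
      intro r u hu him
      refine ⟨hVglue r u hu him p, hVglue r u hu him (ta T p), ?_⟩
      simp only [hq, hd]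
      have g1 := hLs j hj (a + r) (ta (θ j ^ r) (ta T p)) (Y r u) (hYW r u hu him)
      have g2 := hLs j hj (a + r) (ta (θ j ^ r) p) (Y r u) (hYW r u hu him)
      rw [hYs] at g1 g2
      rw [hstep, hstep, ← add_assoc, g1, g2]
      push_cast
      ring)
    (by
      intro r u hu
      have hx := hYX r u hu
      have e1 : a + (r + 2 * (M : ℤ)) = (a + r) + 2 * (M : ℤ) := by ring
      refine ⟨?_, ?_, ?_⟩
      · simp only [hv]
        rw [hYM, hperθ, e1, hρM' _ _ hx]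
      · simp only [hv']
        rw [hYM, hperθ, e1, hρM' _ _ hx]
      · simp only [hq, he]
        rw [hYM, hperθ, e1, hLM' _ _ hx, hLM' _ _ hx]
        push_cast
        ring)
    (by
      have h4 := hnu j hj a p
      simp only [nu] at h4
      simp only [hd, he]
      rw [Finset.sum_sub_distrib]
      simp only [zpow_natCast, zpow_zero, ta_one, Equiv.Perm.coe_one, id_eq, add_zero]
      rw [← hM] at h4
      linarith)
  obtain ⟨δ, hδ, B, hB⟩ := hmain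
  refine ⟨min δ ε, lt_min hδ hε, B, ?_⟩
  intro u hu0 huδ hus
  have hD : ∀ η : ℝ, ‖u‖ < η → u ∈ Dm η 0 := fun η hη => ⟨hu0, hη, by simpa using hus⟩
  have hY0 : Y 0 u = fun i => x₀ i + u * y i := by
    funext i
    simp [hY, QPunct_Y]
  have hX := hYX 0 u (hD ε (huδ.trans_le (min_le_right _ _)))
  have hBu := hB u (hD δ (huδ.trans_le (min_le_left _ _)))
  rw [hY0] at hX
  refine ⟨hX, ?_⟩
  simp only [hv, hv', zpow_zero, ta_one, Equiv.Perm.coe_one, id_eq, add_zero] at hBu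
  rw [hY0] at hBu
  exact hBu

end Pool.Agent.LR
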