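import Pool.Agent.LR.QBase

/-!
# LR QSeq: one point in every block

`seq`: `γ 0 = (θ (j₀ - 1) * ... * θ 0)⁻¹ α₀`, `β 0 = γ 0`, `β (j + 1) = θ j (β j)`; `mv` gives the blocks, `sq`: `θ i (β (i+1)) = θ i (θ i (β i)) = T (β i)`.

`seq_Θ`: by `perm_ind` (`Θ (π * sw i) = θ i * Θ π`, `θ i` commutes with `T`): `Θ σ (β j) = (T ^ m) (β (σ⁻¹ j))` for some `m : ℕ`.
-/

set_option autoImplicit false

noncomputable section

namespace Pool.Agent.LR

variable {k n : ℕ} {θ : ℕ → Equiv.Perm (Fin n)} {T : Equiv.Perm (Fin n)} {blk : Fin n → Option (Fin k)}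

/-- One point in every block, compatible with the generators. -/
structure Seq (k n : ℕ) (θ : ℕ → Equiv.Perm (Fin n)) (T : Equiv.Perm (Fin n)) (blk : Fin n → Option (Fin k))
    (β : Fin k → Fin n) : Prop where
  blk : ∀ j, blk (β j) = some j
  nxt : ∀ (i : ℕ) (hi : i + 1 < k), θ i (β ⟨i, by omega⟩) = β ⟨i + 1, hi⟩
  prv : ∀ (i : ℕ) (hi : i + 1 < k), θ i (β ⟨i + 1, hi⟩) = T (β ⟨i, by omega⟩)

private theorem QSeq_swl {i : ℕ} (hi : i + 1 < k) : (sw i : Equiv.Perm (Fin k)) ⟨i, by omega⟩ = ⟨i + 1, hi⟩ := by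
  rw [sw, dif_pos hi, Equiv.swap_apply_left]

private theorem QSeq_swr {i : ℕ} (hi : i + 1 < k) : (sw i : Equiv.Perm (Fin k)) ⟨i + 1, hi⟩ = ⟨i, by omega⟩ := by
  rw [sw, dif_pos hi, Equiv.swap_apply_right]

private theorem QSeq_swn {i : ℕ} (hi : i + 1 < k) {j : Fin k} (h1 : (j : ℕ) ≠ i) (h2 : (j : ℕ) ≠ i + 1) :
    (sw i : Equiv.Perm (Fin k)) j = j := by
  rw [sw, dif_pos hi, Equiv.swap_apply_of_ne_of_ne]
  · exact fun h => h1 (congrArg Fin.val h)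
  · exact fun h => h2 (congrArg Fin.val h)

private theorem QSeq_swinv {i : ℕ} (hi : i + 1 < k) (π : Equiv.Perm (Fin k)) (j : Fin k) :
    (π * sw i : Equiv.Perm (Fin k)).symm j = (sw i : Equiv.Perm (Fin k)) (π.symm j) := by
  have hs : (sw i : Equiv.Perm (Fin k)).symm = sw i := by
    rw [sw, dif_pos hi, Equiv.symm_swap]
  have h3 : (π * sw i : Equiv.Perm (Fin k)).symm j = (sw i : Equiv.Perm (Fin k)).symm (π.symm j) := rfl
  rw [h3, hs]

/-- `θ i` acts on the blocks by `sw i`. -/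
private theorem Blk.QSeq_mv_iff (hb : Blk k n θ T blk) {i : ℕ} (hi : i + 1 < k) (α : Fin n) (j : Fin k) :
    blk (θ i α) = some (sw i j) ↔ blk α = some j := by
  refine ⟨fun h => ?_, fun h => hb.mv i hi α j h⟩
  rcases h0 : blk α with _ | j'
  · have h1 : θ i α = α := by
      refine hb.fix i hi α fun l hl => ?_
      rw [h0] at hl
      exact absurd hl (by simp)
    rw [h1, h0] at h
    exact absurd h (by simp)
  · have h1 := hb.mv i hi α j' h0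
    rw [h] at h1
    have h2 := (sw i : Equiv.Perm (Fin k)).injective (Option.some.inj h1)
    rw [h2]

/-- The partial products `θ (m - 1) * ... * θ 0`. -/
private def QSeq_pr (θ : ℕ → Equiv.Perm (Fin n)) : ℕ → Equiv.Perm (Fin n)
  | 0 => 1
  | m + 1 => θ m * QSeq_pr θ m

private theorem QSeq_pr_blk (hb : Blk k n θ T blk) (γ : Fin n) (m : ℕ) (hm : m < k) :
    blk (QSeq_pr θ m γ) = some ⟨m, hm⟩ ↔ blk γ = some ⟨0, by omega⟩ := by
  induction m with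
  | zero => exact Iff.rfl
  | succ m ih =>
    have h1 := hb.QSeq_mv_iff hm (QSeq_pr θ m γ) ⟨m, by omega⟩
    rw [QSeq_swl hm] at h1
    exact h1.trans (ih (by omega))

theorem Blk.seq (hb : Blk k n θ T blk) (α₀ : Fin n) (j₀ : Fin k) (h : blk α₀ = some j₀) :
    ∃ β : Fin k → Fin n, β j₀ = α₀ ∧ Seq k n θ T blk β := by
  have e0 : QSeq_pr θ (j₀ : ℕ) ((QSeq_pr θ (j₀ : ℕ))⁻¹ α₀) = α₀ := (QSeq_pr θ (j₀ : ℕ)).apply_symm_apply α₀
  set γ : Fin n := (QSeq_pr θ (j₀ : ℕ))⁻¹ α₀ with hγ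
  have hγ0 : blk γ = some ⟨0, by have := j₀.isLt; omega⟩ := by
    rw [← QSeq_pr_blk hb γ j₀ j₀.isLt, e0, h]
  have hblk : ∀ j : Fin k, blk (QSeq_pr θ (j : ℕ) γ) = some j := fun j => (QSeq_pr_blk hb γ j j.isLt).2 hγ0
  refine ⟨fun j => QSeq_pr θ (j : ℕ) γ, e0, hblk, fun i hi => rfl, fun i hi => ?_⟩
  exact hb.sq i hi (QSeq_pr θ i γ) ⟨i, by omega⟩ (hblk ⟨i, by omega⟩) (Or.inl rfl)

theorem Blk.seq_Θ (hb : Blk k n θ T blk) {β : Fin k → Fin n} (hβ : Seq k n θ T blk β)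
    {Θ : Equiv.Perm (Fin k) → Equiv.Perm (Fin n)} (h1 : Θ 1 = 1)
    (h2 : ∀ (π : Equiv.Perm (Fin k)) (i : ℕ) (hi : i + 1 < k), π ⟨i, by omega⟩ < π ⟨i + 1, hi⟩ → Θ (π * sw i) = θ i * Θ π)
    (σ : Equiv.Perm (Fin k)) (j : Fin k) : ∃ m : ℕ, Θ σ (β j) = (T ^ m) (β (σ.symm j)) := by
  refine perm_ind (P := fun σ => ∃ m : ℕ, Θ σ (β j) = (T ^ m) (β (σ.symm j))) ?_ ?_ σ
  · exact ⟨0, by rw [h1]; rfl⟩
  · intro π i hi hlt ih
    obtain ⟨m, hm⟩ := ih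
    have hc : θ i * T ^ m = T ^ m * θ i := (show Commute (θ i) T from hb.com i hi).pow_right m
    have e1 : Θ (π * sw i) (β j) = (T ^ m) (θ i (β (π.symm j))) := by
      rw [h2 π i hi hlt, Equiv.Perm.mul_apply, hm, ← Equiv.Perm.mul_apply, hc, Equiv.Perm.mul_apply]
    rw [e1, QSeq_swinv hi]
    generalize π.symm j = j'
    by_cases hj1 : (j' : ℕ) = i
    · have hj2 : j' = ⟨i, by omega⟩ := Fin.ext hj1
      exact ⟨m, by rw [hj2, QSeq_swl hi, hβ.nxt i hi]⟩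
    · by_cases hj3 : (j' : ℕ) = i + 1
      · have hj2 : j' = ⟨i + 1, hi⟩ := Fin.ext hj3
        exact ⟨m + 1, by rw [hj2, QSeq_swr hi, hβ.prv i hi, pow_succ]; rfl⟩
      · refine ⟨m, ?_⟩
        rw [QSeq_swn hi hj1 hj3, hb.fix i hi (β j') fun l hl => ?_]
        rw [hβ.blk j'] at hl
        have := Option.some.inj hl
        subst this
        exact ⟨hj1, hj3⟩

end Pool.Agent.LR
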