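import Pool.Agent.LR.QLog

/-!
# LR QSys: the action on triples, logarithm branches and levels

`sh g κ (p, m) = (ta g p, m + κ p)`; `lv e S (q, a) = (S a q, a + e)`.

`sys_of_maps`: the proof of `sys_of_roots` (`LR/Main.lean`) with values in an arbitrary type.

`Ctx.sig`: apply it to `R a x (p, m) = (ρ a x p.1, ρ a x p.2.1, ρ a x p.2.2, L a p x + 2 π i m)` (injective in `(p, m)`: the first three
components determine `p` as `ρ a x` is injective, then `m`), `S σ a = sh (Θ σ) (- c σ a)`.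

`lv_braid`: `Sys.far`, `Sys.braid` (`LR/SysRel.lean`) give the braid relations for `lv 1 (S (sw i))`; and `Θ (sw i) = θ i`
(`Θ (1 * sw i) = θ i * Θ 1`).

`lv_per`: `Π = lv (2 N) (sh z (- m a))` commutes with `lv 1 (sh (θ i) (- c (sw i) a))`: first components: `z * θ i = θ i * z`; second: evaluate
`L (a + 2 N + 1) (ta (z * θ i) p) (x ∘ sw i)` in two ways at a point `x ∈ WW (sw i)` (`wit_mem`).
-/

set_option autoImplicit false

open Topology Filter

noncomputable section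

namespace Pool.Agent.LR

open Pool.Agent.H60.OC (Pr NN nm zc SG MF IsRoots vd poly HoloOn)

/-- `(p, m) ↦ (g p, m + κ p)`. -/
def sh {n : ℕ} (g : Equiv.Perm (Fin n)) (κ : Tr n → ℤ) : Equiv.Perm (Tr n × ℤ) where
  toFun q := (ta g q.1, q.2 + κ q.1)
  invFun q := ((ta g).symm q.1, q.2 - κ ((ta g).symm q.1))
  left_inv q := by simp
  right_inv q := by simp

/-- `(q, a) ↦ (S a q, a + e)`. -/
def lv {Q : Type} (e : ℤ) (S : ℤ → Equiv.Perm Q) : Equiv.Perm (Q × ℤ) where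
  toFun q := (S q.2 q.1, q.2 + e)
  invFun q := ((S (q.2 - e)).symm q.1, q.2 - e)
  left_inv q := by simp
  right_inv q := by simp

theorem sys_of_maps {k : ℕ} {Q V : Type} {R : ℤ → (Fin k → ℂ) → Q → V}
    (hi : ∀ a, ∀ x ∈ XX k, Function.Injective (R a x)) {S : Equiv.Perm (Fin k) → ℤ → Equiv.Perm Q}
    (hS : ∀ (σ : Equiv.Perm (Fin k)) (a : ℤ), ∀ x ∈ WW σ, ∀ q, R (a + inv σ) (fun i => x (σ i)) (S σ a q) = R a x q) :
    Sys (G := Equiv.Perm Q) inv S := by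
  refine ⟨inv_one, ?_, inv_sw, inv_mul_sw, ?_⟩
  · intro a
    apply Equiv.ext
    intro j
    have h1 := wit_mem (1 : Equiv.Perm (Fin k)) 1
    have h2 := hS 1 a _ h1 j
    rw [inv_one, add_zero] at h2
    exact hi a _ (WW_sub _ h1) h2
  · intro π i hik hlt a
    apply Equiv.ext
    intro j
    have h1 := wit_mem π (π * sw i)
    have h2 := hS (π * sw i) a _ h1 j
    have h3 := wit_mem π π
    have h4 := hS π a _ h3 j
    have h5 := wit_mem_sw π i hik hlt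
    have h6 := hS (sw i) (a + inv π) _ h5 (S π a j)
    have h7 := WW_comp (sw i) h5
    have e1 : (fun l : Fin k => (((π.symm (π l) : Fin k) : ℕ) : ℂ) + Complex.I * (((π l : Fin k) : ℕ) : ℂ)) =
        (fun l : Fin k => ((l : ℕ) : ℂ) + Complex.I * (((π l : Fin k) : ℕ) : ℂ)) := by
      funext l
      rw [Equiv.symm_apply_apply]
    rw [e1] at h4
    have e2 : (fun l : Fin k => (((π.symm ((π * sw i : Equiv.Perm (Fin k)) l) : Fin k) : ℕ) : ℂ) +
          Complex.I * ((((π * sw i : Equiv.Perm (Fin k)) l : Fin k) : ℕ) : ℂ)) =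
        (fun l : Fin k => (((sw i : Equiv.Perm (Fin k)) l : ℕ) : ℂ) +
          Complex.I * (((π ((sw i : Equiv.Perm (Fin k)) l) : Fin k) : ℕ) : ℂ)) := by
      funext l
      rw [Equiv.Perm.mul_apply, Equiv.symm_apply_apply]
    rw [e2, inv_mul_sw π i hik hlt, ← h4, ← h6, inv_sw i hik, ← add_assoc] at h2
    exact hi _ _ h7 h2

theorem QSys_lv_apply {Q : Type} (e : ℤ) (S : ℤ → Equiv.Perm Q) (q : Q) (a : ℤ) : lv e S (q, a) = (S a q, a + e) := rfl

theorem QSys_sh_apply {n : ℕ} (g : Equiv.Perm (Fin n)) (κ : Tr n → ℤ) (p : Tr n) (t : ℤ) :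
    sh g κ (p, t) = (ta g p, t + κ p) := rfl

theorem lv_braid {k : ℕ} {Q : Type} {S : Equiv.Perm (Fin k) → ℤ → Equiv.Perm Q} (h : Sys (G := Equiv.Perm Q) inv S) :
    BraidRel k (fun i => lv 1 (S (sw i))) := by
  constructor
  · intro i j hij hj
    apply Equiv.ext
    rintro ⟨q, a⟩
    simp only [Equiv.Perm.mul_apply, QSys_lv_apply]
    have h1 := h.far hij hj a
    have h2 := congrArg (fun g : Equiv.Perm Q => g q) h1
    simp only [Equiv.Perm.mul_apply] at h2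
    rw [h2]
  · intro i hi
    apply Equiv.ext
    rintro ⟨q, a⟩
    simp only [Equiv.Perm.mul_apply, QSys_lv_apply]
    have h1 := h.braid hi a
    have h2 := congrArg (fun g : Equiv.Perm Q => g q) h1
    simp only [Equiv.Perm.mul_apply] at h2
    rw [show a + 1 + 1 = a + 2 by ring, h2]

variable {k n : ℕ} {f : (Fin k → ℂ) → (Fin n → ℂ)} {ρ : ℤ → (Fin k → ℂ) → (Fin n → ℂ)}
  {θ : ℕ → Equiv.Perm (Fin n)} {T : Equiv.Perm (Fin n)} {blk : Fin n → Option (Fin k)}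

theorem Ctx.sig (h : Ctx k n f ρ θ T blk) {Θ : Equiv.Perm (Fin k) → Equiv.Perm (Fin n)}
    (hΘ : ∀ (σ : Equiv.Perm (Fin k)) (a : ℤ), ∀ x ∈ WW σ, ∀ α, ρ (a + inv σ) (fun l => x (σ l)) (Θ σ α) = ρ a x α)
    {L : ℤ → Tr n → (Fin k → ℂ) → ℂ} {c : Equiv.Perm (Fin k) → ℤ → Tr n → ℤ}
    (hc : ∀ σ a p, ∀ x ∈ WW σ, L (a + inv σ) (ta (Θ σ) p) (fun l => x (σ l)) =
        L a p x + 2 * (Real.pi : ℂ) * Complex.I * (c σ a p : ℂ)) :
    Sys (G := Equiv.Perm (Tr n × ℤ)) inv (fun σ a => sh (Θ σ) (fun p => - c σ a p)) := by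
  refine sys_of_maps (V := ℂ × ℂ × ℂ × ℂ) (R := fun a x q => (ρ a x q.1.1.1, ρ a x q.1.1.2.1, ρ a x q.1.1.2.2,
    L a q.1 x + 2 * (Real.pi : ℂ) * Complex.I * (q.2 : ℂ))) ?_ ?_
  · rintro a x hx ⟨p, t⟩ ⟨p', t'⟩ he
    have hinj := h.inj a hx
    simp only [Prod.mk.injEq] at he
    obtain ⟨e1, e2, e3, e4⟩ := he
    have hp : p = p' := by
      apply Subtype.ext
      exact Prod.ext (hinj e1) (Prod.ext (hinj e2) (hinj e3))
    subst hp
    have h1 : (2 * (Real.pi : ℂ) * Complex.I) ≠ 0 := Complex.two_pi_I_ne_zero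
    have h2 : (2 * (Real.pi : ℂ) * Complex.I) * (t : ℂ) = (2 * (Real.pi : ℂ) * Complex.I) * (t' : ℂ) := add_left_cancel e4
    have h3 : (t : ℂ) = (t' : ℂ) := mul_left_cancel₀ h1 h2
    have h4 : t = t' := by exact_mod_cast h3
    rw [h4]
  · rintro σ a x hx ⟨p, t⟩
    rw [QSys_sh_apply]
    simp only [Prod.mk.injEq]
    refine ⟨hΘ σ a x hx _, hΘ σ a x hx _, hΘ σ a x hx _, ?_⟩
    rw [hc σ a p x hx]
    push_cast
    ring

theorem Ctx.lv_per (h : Ctx k n f ρ θ T blk) {z : Equiv.Perm (Fin n)} {i : ℕ} (hi : i + 1 < k) (hz : z * θ i = θ i * z)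
    {L : ℤ → Tr n → (Fin k → ℂ) → ℂ} {c m : ℤ → Tr n → ℤ}
    (hc : ∀ a p, ∀ x ∈ WW (sw i), L (a + 1) (ta (θ i) p) (fun l => x ((sw i : Equiv.Perm (Fin k)) l)) =
        L a p x + 2 * (Real.pi : ℂ) * Complex.I * (c a p : ℂ))
    (hm : ∀ a p, ∀ x ∈ XX k, L (a + 2 * (NN k : ℤ)) (ta z p) x = L a p x + 2 * (Real.pi : ℂ) * Complex.I * (m a p : ℂ)) :
    lv (2 * (NN k : ℤ)) (fun a => sh z (fun p => - m a p)) * lv 1 (fun a => sh (θ i) (fun p => - c a p)) =
      lv 1 (fun a => sh (θ i) (fun p => - c a p)) * lv (2 * (NN k : ℤ)) (fun a => sh z (fun p => - m a p)) := by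
  apply Equiv.ext
  rintro ⟨⟨p, t⟩, a⟩
  simp only [Equiv.Perm.mul_apply, QSys_lv_apply, QSys_sh_apply]
  have hta : ta z (ta (θ i) p) = ta (θ i) (ta z p) := by
    have h1 : ta (z * θ i) p = ta (θ i * z) p := by rw [hz]
    rwa [ta_mul, ta_mul] at h1
  have hx := wit_mem (1 : Equiv.Perm (Fin k)) (sw i)
  have hx0 := WW_sub _ hx
  have hy := WW_comp (sw i) hx
  set x : Fin k → ℂ := (fun l : Fin k => ((((1 : Equiv.Perm (Fin k)).symm l : Fin k) : ℕ) : ℂ) + Complex.I * ((l : ℕ) : ℂ))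
    with hxdef
  have e1 := hm (a + 1) (ta (θ i) p) _ hy
  rw [hc a p x hx, hta] at e1
  have e2 := hc (a + 2 * (NN k : ℤ)) (ta z p) x hx
  rw [hm a p x hx0] at e2
  rw [show a + 1 + 2 * (NN k : ℤ) = a + 2 * (NN k : ℤ) + 1 by ring] at e1 ⊢
  rw [e1] at e2
  have h1 : (2 * (Real.pi : ℂ) * Complex.I) ≠ 0 := Complex.two_pi_I_ne_zero
  have h2 : (2 * (Real.pi : ℂ) * Complex.I) * ((c a p : ℂ) + (m (a + 1) (ta (θ i) p) : ℂ)) =
      (2 * (Real.pi : ℂ) * Complex.I) * ((m a p : ℂ) + (c (a + 2 * (NN k : ℤ)) (ta z p) : ℂ)) := by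
    linear_combination e2
  have h3 := mul_left_cancel₀ h1 h2
  have h4 : c a p + m (a + 1) (ta (θ i) p) = m a p + c (a + 2 * (NN k : ℤ)) (ta z p) := by exact_mod_cast h3
  have h5 : t + - c a p + - m (a + 1) (ta (θ i) p) = t + - m a p + - c (a + 2 * (NN k : ℤ)) (ta z p) := by
    linarith
  rw [hta, h5]

end Pool.Agent.LR
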