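import Pool.Agent.LR.Fac
import Pool.Agent.LR.QGrp
import Pool.Agent.LR.QMain

/-!
# LR QTop: the quadratic range
-/

set_option autoImplicit false

open Topology Filter Polynomial

noncomputable section

namespace Pool.Agent.LR

open Pool.Agent.H60.OC (Pr NN nm zc SG MF IsRoots vd poly HoloOn)

/-- Root functions with constant transitions and block data for one continuous factor. -/
theorem blkfam {k n : ℕ} (hk : 14 ≤ k) (hn : n < (k / 2 - 1).choose 2) {f : (Fin k → ℂ) → (Fin n → ℂ)}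
    (hcf : ContinuousOn f (SG k)) (hd : ∀ z ∈ SG k, ∃ r, IsRoots r (f z) ∧ Function.Injective r) :
    ∃ (ρ : ℤ → (Fin k → ℂ) → (Fin n → ℂ)) (θ : ℕ → Equiv.Perm (Fin n)) (T : Equiv.Perm (Fin n))
      (blk : Fin n → Option (Fin k)),
      (∀ a, ContinuousOn (ρ a) (XX k)) ∧ (∀ a, ∀ x ∈ XX k, IsRoots (ρ a x) (f (GG a x))) ∧
      (∀ i, i + 1 < k → ∀ a, ∀ x ∈ WW (sw i), ∀ α,
        ρ (a + 1) (fun l => x ((sw i : Equiv.Perm (Fin k)) l)) (θ i α) = ρ a x α) ∧
      Blk k n θ T blk := by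
  -- the root functions
  have h1 : ∀ a : ℤ, ∃ ρ : (Fin k → ℂ) → (Fin n → ℂ), ContinuousOn ρ (XX k) ∧ ∀ x ∈ XX k, IsRoots (ρ x) (f (GG a x)) := by
    intro a
    refine exists_roots_on (XX_open k) (XX_base k) (XX_star k) (H := fun x => f (GG a x)) ?_ ?_
    · exact hcf.comp (GG_cont k a) fun x hx => GG_mem (by omega) a hx
    · exact fun x hx => hd _ (GG_mem (by omega) a hx)
  choose ρ hρc hρ using h1
  have hinj : ∀ a, ∀ x ∈ XX k, Function.Injective (ρ a x) := by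
    intro a x hx
    obtain ⟨r, hr, hri⟩ := hd _ (GG_mem (by omega) a hx)
    obtain ⟨σ, hσ⟩ := Pool.Agent.H60.OC.exists_perm (hρ a x hx) hr hri
    have h2 : ρ a x = fun i => r (σ.symm i) := by
      funext i
      rw [hσ]
      simp
    rw [h2]
    exact hri.comp σ.symm.injective
  -- the system
  have h2 : ∀ (σ : Equiv.Perm (Fin k)) (a : ℤ), ∃ s : Equiv.Perm (Fin n), ∀ x ∈ WW σ, ∀ j,
      ρ (a + inv σ) (fun i => x (σ i)) (s j) = ρ a x j := by
    intro σ a
    refine exists_perm_on (WW_conn σ) (ρ := ρ a) (ρ' := fun x => ρ (a + inv σ) (fun i => x (σ i)))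
      (H := fun x => f (GG a x)) ?_ ?_ ?_ ?_ ?_
    · exact (hρc a).mono (WW_sub σ)
    · refine (hρc (a + inv σ)).comp ?_ fun x hx => WW_comp σ hx
      exact (continuous_pi fun i => continuous_apply (σ i)).continuousOn
    · exact fun x hx => hρ a x (WW_sub σ hx)
    · intro x hx
      rw [← GG_comp σ a hx]
      exact hρ _ _ (WW_comp σ hx)
    · exact fun x hx => hinj a x (WW_sub σ hx)
  choose S hS using h2
  have hsys : Sys (G := Equiv.Perm (Fin n)) inv S := sys_of_roots hinj hS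
  obtain ⟨K, θ, T, blk, hB, hK⟩ := hsys.blk hk hn
  refine ⟨fun a x α => ρ a x (K a α), θ, T, blk, ?_, ?_, ?_, hB⟩
  · intro a
    refine continuousOn_pi.2 fun α => ?_
    exact continuousOn_pi.1 (hρc a) (K a α)
  · intro a x hx
    have h3 := hρ a x hx
    unfold IsRoots at h3 ⊢
    rw [h3]
    exact (Equiv.prod_comp (K a) fun i => (X - C (ρ a x i))).symm
  · intro i hi a x hx α
    have h3 := hS (sw i) a x hx (K a α)
    rw [inv_sw i hi, hK i hi a] at h3
    show ρ (a + 1) (fun l => x ((sw i : Equiv.Perm (Fin k)) l)) (K (a + 1) (θ i α)) = ρ a x (K a α)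
    rw [← h3]
    simp

/-- A holomorphic map with small continuous factors has root functions with constant transitions and block data. -/
theorem ctx_exists {k n r : ℕ} (hk : 14 ≤ k) (hkn : k < n) {f : (Fin k → ℂ) → (Fin n → ℂ)}
    (hmap : Set.MapsTo f (SG k) (SG n)) (hf : HoloOn (SG k) f) (m : Fin r → ℕ)
    (hm : ∀ t, m t < (k / 2 - 1).choose 2)
    (h : (t : Fin r) → (Fin k → ℂ) → (Fin (m t) → ℂ)) (hc : ∀ t, ContinuousOn (h t) (SG k))
    (hp : ∀ z ∈ SG k, poly (f z) = ∏ t, poly (h t z)) :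
    ∃ (ρ : ℤ → (Fin k → ℂ) → (Fin n → ℂ)) (θ : ℕ → Equiv.Perm (Fin n)) (T : Equiv.Perm (Fin n))
      (blk : Fin n → Option (Fin k)), Ctx k n f ρ θ T blk := by
  have hd : ∀ z ∈ SG k, ∃ x, IsRoots x (f z) ∧ Function.Injective x := by
    intro z hz
    obtain ⟨-, x, hr, hv⟩ := hmap hz
    refine ⟨x, hr, Pool.Agent.H60.OC.vd_ne_iff.1 fun h0 => ?_⟩
    rw [h0] at hv
    norm_num at hv
  obtain ⟨x₀, hx₀⟩ := Pool.Agent.H60.OC.MF_nonempty (show 2 ≤ k by omega)
  have hz₀ : zc x₀ ∈ SG k := Pool.Agent.H60.OC.zc_mem hx₀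
  -- the degrees
  have hcard : Fintype.card (Fin n) = Fintype.card (Σ t : Fin r, Fin (m t)) := by
    have h1 := congrArg natDegree (hp _ hz₀)
    rw [poly_natDegree, natDegree_prod_of_monic _ _ fun t _ => poly_monic _] at h1
    simp only [poly_natDegree] at h1
    rw [Fintype.card_sigma, Fintype.card_fin, h1]
    simp
  obtain ⟨e⟩ := Fintype.card_eq.1 hcard
  -- a root list of the product
  have key : ∀ z ∈ SG k, ∀ y : (t : Fin r) → (Fin (m t) → ℂ), (∀ t, IsRoots (y t) (h t z)) →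
      IsRoots (fun j => y (e j).1 (e j).2) (f z) := by
    intro z hz y hy
    unfold IsRoots
    rw [hp z hz, Equiv.prod_comp e (fun p : Σ t : Fin r, Fin (m t) => X - C (y p.1 p.2)), Fintype.prod_sigma]
    exact Finset.prod_congr rfl fun t _ => hy t
  -- the factors have distinct roots
  have hdt : ∀ t, ∀ z ∈ SG k, ∃ x, IsRoots x (h t z) ∧ Function.Injective x := by
    intro t z hz
    choose y hy using fun t => exists_rootlist (h t z)
    obtain ⟨x', hx', hxi⟩ := hd z hz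
    obtain ⟨σ, hσ⟩ := Pool.Agent.H60.OC.exists_perm (key z hz y hy) hx' hxi
    refine ⟨y t, hy t, fun i j hij => ?_⟩
    have h1 : x' (σ.symm (e.symm ⟨t, i⟩)) = x' (σ.symm (e.symm ⟨t, j⟩)) := by
      rw [hσ]
      show y (e (σ (σ.symm (e.symm ⟨t, i⟩)))).1 (e (σ (σ.symm (e.symm ⟨t, i⟩)))).2 =
        y (e (σ (σ.symm (e.symm ⟨t, j⟩)))).1 (e (σ (σ.symm (e.symm ⟨t, j⟩)))).2
      rw [σ.apply_symm_apply, σ.apply_symm_apply, e.apply_symm_apply, e.apply_symm_apply]
      exact hij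
    have h2 := e.symm.injective (σ.symm.injective (hxi h1))
    simpa using h2
  choose ρ θ T blk hρc hρ htr hB using fun t => blkfam hk (hm t) (hc t) (hdt t)
  -- the combined permutations
  obtain ⟨Θ, hΘ⟩ : ∃ Θ : ((t : Fin r) → Equiv.Perm (Fin (m t))) → Equiv.Perm (Fin n),
      ∀ g α, Θ g α = e.symm ⟨(e α).1, g (e α).1 (e α).2⟩ :=
    ⟨fun g => (e.trans (Equiv.sigmaCongrRight g)).trans e.symm, fun g α => rfl⟩
  have hΘe : ∀ g α, e (Θ g α) = ⟨(e α).1, g (e α).1 (e α).2⟩ := by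
    intro g α
    rw [hΘ, e.apply_symm_apply]
  have hΘb : ∀ g α, (e (Θ g α)).1 = (e α).1 := fun g α => by rw [hΘe]
  have hΘm : ∀ g g' α, Θ g (Θ g' α) = Θ (fun t => g t * g' t) α := by
    intro g g' α
    rw [hΘ g, hΘe g' α, hΘ]
    rfl
  have hval : ∀ (F : (t : Fin r) → Fin (m t) → ℂ) g α, F (e (Θ g α)).1 (e (Θ g α)).2 =
      F (e α).1 (g (e α).1 (e α).2) := by
    intro F g α
    rw [hΘe]
  have hvalb : ∀ (F : (t : Fin r) → Fin (m t) → Option (Fin k)) g α, F (e (Θ g α)).1 (e (Θ g α)).2 =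
      F (e α).1 (g (e α).1 (e α).2) := by
    intro F g α
    rw [hΘe]
  have hid : ∀ g α, g (e α).1 (e α).2 = (e α).2 → Θ g α = α := by
    intro g α hg
    rw [hΘ, hg]
    exact e.symm_apply_apply α
  refine ⟨fun a x α => ρ (e α).1 a x (e α).2, fun i => Θ (fun t => θ t i), Θ T, fun α => blk (e α).1 (e α).2, ?_⟩
  refine ⟨by omega, by omega, hmap, hf, ?_, ?_, ?_, ?_, ?_, ?_, ?_, ?_, ?_⟩
  · intro a
    refine continuousOn_pi.2 fun α => ?_
    exact continuousOn_pi.1 (hρc (e α).1 a) (e α).2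
  · intro a x hx
    exact key _ (GG_mem (by omega) a hx) (fun t => ρ t a x) fun t => hρ t a x hx
  · intro i hi a x hx α
    show ρ (e (Θ (fun t => θ t i) α)).1 (a + 1) (fun l => x ((sw i : Equiv.Perm (Fin k)) l)) (e (Θ (fun t => θ t i) α)).2 = _
    rw [hval (fun t => ρ t (a + 1) (fun l => x ((sw i : Equiv.Perm (Fin k)) l)))]
    exact htr (e α).1 i hi a x hx (e α).2
  · intro i hi
    ext α
    rw [Equiv.Perm.mul_apply, Equiv.Perm.mul_apply, hΘm, hΘm]
    congr 3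
    funext t
    exact (hB t).com i hi
  · intro α hα
    exact hid _ _ ((hB _).T_none _ hα)
  · intro α
    rw [hvalb blk]
    exact (hB _).blk_T _
  · intro i hi α hα
    exact hid _ _ ((hB _).fix i hi _ hα)
  · intro i hi α j hj
    show blk (e (Θ (fun t => θ t i) α)).1 (e (Θ (fun t => θ t i) α)).2 = _
    rw [hvalb blk]
    exact (hB _).mv i hi _ j hj
  · intro i hi α j hj hji
    rw [hΘm, hΘ, hΘ]
    have h1 := (hB _).sq i hi _ j hj hji
    show e.symm ⟨(e α).1, θ (e α).1 i (θ (e α).1 i (e α).2)⟩ = _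
    rw [h1]

/-- The quadratic range. -/
theorem quad_factors {k n r : ℕ} (hk : 14 ≤ k) (hkn : k < n) {f : (Fin k → ℂ) → (Fin n → ℂ)}
    (hmap : Set.MapsTo f (SG k) (SG n)) (hf : HoloOn (SG k) f) (m : Fin r → ℕ)
    (hm : ∀ t, m t < (k / 2 - 1).choose 2)
    (h : (t : Fin r) → (Fin k → ℂ) → (Fin (m t) → ℂ)) (hc : ∀ t, ContinuousOn (h t) (SG k))
    (hp : ∀ z ∈ SG k, poly (f z) = ∏ t, poly (h t z)) : ∀ z ∈ SG k, ∀ z' ∈ SG k, f z = f z' := by
  obtain ⟨ρ, θ, T, blk, hC⟩ := ctx_exists hk hkn hmap hf m hm h hc hp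
  exact hC.main hkn

/-- Both ranges. -/
theorem max_factors {k n r : ℕ} (hk : 11 ≤ k) (hkn : k < n) {f : (Fin k → ℂ) → (Fin n → ℂ)}
    (hmap : Set.MapsTo f (SG k) (SG n)) (hf : HoloOn (SG k) f) (m : Fin r → ℕ)
    (hm : ∀ t, m t < max (2 * k - 8) ((k / 2 - 1).choose 2))
    (h : (t : Fin r) → (Fin k → ℂ) → (Fin (m t) → ℂ)) (hc : ∀ t, ContinuousOn (h t) (SG k))
    (hp : ∀ z ∈ SG k, poly (f z) = ∏ t, poly (h t z)) : ∀ z ∈ SG k, ∀ z' ∈ SG k, f z = f z' := by
  rcases le_total ((k / 2 - 1).choose 2) (2 * k - 8) with h1 | h1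
  · rw [max_eq_left h1] at hm
    exact lin_factors hk hkn hmap hf m hm h hc hp
  · rw [max_eq_right h1] at hm
    refine quad_factors ?_ hkn hmap hf m hm h hc hp
    by_contra hk'
    have h2 : k = 11 ∨ k = 12 ∨ k = 13 := by omega
    rcases h2 with rfl | rfl | rfl
    · norm_num [Nat.choose] at h1
    · norm_num [Nat.choose] at h1
    · norm_num [Nat.choose] at h1

end Pool.Agent.LR
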