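import Pool.Agent.LR.QSeq
import Pool.Agent.LR.QG
import Pool.Agent.LR.QDS

/-!
# LR QU: the powers of the roots as functions on `MF k`

`lvl y` is an integer `a` with `lg y = - π i a` (unique, if it exists).  `Uf β C i x = (ρ a y (β (π⁻¹ i))) ^ C`, `π = srt x`, `y = x ∘ π`,
`a = lvl y`.  `P`, `C` with `ρ a x (T α) = P * ρ a x α` and `P ^ C = 1`.

`U_near`: for `x₀ ∈ MF k`, `π₀ = srt x₀`, `a₀ = lvl (x₀ ∘ π₀)` and `x ∈ MF k` near `x₀`: `x ∘ π₀ ∈ XX k`, `Uf β C i x = (ρ a₀ (x ∘ π₀) (β (π₀⁻¹ i))) ^ C`: as in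
`LR/Glue.lean`: `lg (x ∘ π₀) = - π i a₀`, `x ∘ π₀ ∈ WW σ` with `σ = π₀⁻¹ * srt x` (`lex_mem_WW`), `lvl (x ∘ srt x) = a₀ + inv σ` (`lg_comp`),
`ρ (a₀ + inv σ) (x ∘ π₀ ∘ σ) (Θ σ (β j)) = ρ a₀ (x ∘ π₀) (β j)`, `Θ σ (β j) = T ^ m (β (σ⁻¹ j))` (`seq_Θ`), and the `C`-th power does not see `T ^ m`; `j = π₀⁻¹ i`,
`σ⁻¹ j = (srt x)⁻¹ i`.

`U_cont`, `U_hol` (`OC.CHol`: along a disc `γ` with values in `MF k`: locally `Uf = (ρ a₀ (γ w ∘ π₀) ..)^C`, `Ctx.an`), `U_sym`: for an even `ς` (so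
`x ∘ ς ∈ MF k`): `srt (x ∘ ς) = ς⁻¹ * srt x` (`srt_unique`), the same `y` and level.

`U_ne`: `ρ a y α ≠ 0` if `T α ≠ α` (if it is `0` then `ρ (T α) = P * 0 = ρ α`, injectivity).  `U_eq`: if `C` is such that every `C`-th root of
unity is a power of `P` (`IsPrimitiveRoot P C`), `Uf β C i x = Uf β' C j x` gives `ρ (β i') = P ^ m ρ (β' j')` (with the positions `i' = π⁻¹ i`, `j' = π⁻¹ j`), so
`β i' = T ^ m (β' j')` and `i' = j'` (`blk`).
-/

set_option autoImplicit false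

open Topology Filter

noncomputable section

namespace Pool.Agent.LR

open Pool.Agent.H60.OC (Pr NN nm zc SG MF IsRoots vd poly HoloOn Hy CHol)

open Classical in
/-- The level of a point with `lg y = - π i a`. -/
def lvl {k : ℕ} (y : Fin k → ℂ) : ℤ :=
  if h : ∃ a : ℤ, lg y = -((Real.pi : ℂ) * Complex.I * (a : ℂ)) then h.choose else 0

/-- The powers of the roots, as functions of the ordered configuration. -/
def Uf {k n : ℕ} (ρ : ℤ → (Fin k → ℂ) → (Fin n → ℂ)) (β : Fin k → Fin n) (C : ℕ) (i : Fin k) (x : Fin k → ℂ) : ℂ :=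
  ρ (lvl (fun l => x (srt x l))) (fun l => x (srt x l)) (β ((srt x).symm i)) ^ C

variable {k n : ℕ} {f : (Fin k → ℂ) → (Fin n → ℂ)} {ρ : ℤ → (Fin k → ℂ) → (Fin n → ℂ)}
  {θ : ℕ → Equiv.Perm (Fin n)} {T : Equiv.Perm (Fin n)} {blk : Fin n → Option (Fin k)}

theorem QU_vd {x : Fin k → ℂ} (hx : x ∈ MF k) (τ : Equiv.Perm (Fin k)) : vd (fun i => x (τ i)) ^ 2 = 1 := by
  rw [Pool.Agent.H60.OC.vd_perm, hx.2, mul_one]
  rcases Int.units_eq_one_or (Equiv.Perm.sign τ) with h2 | h2 <;> rw [h2] <;> simp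

theorem QU_srt_XX {x : Fin k → ℂ} (hx : x ∈ MF k) : (fun l => x (srt x l)) ∈ XX k :=
  lex_mem_XX (srt_spec (Pool.Agent.H60.OC.inj_of_mem hx))

theorem lvl_spec {x : Fin k → ℂ} (hx : x ∈ MF k) :
    lg (fun l => x (srt x l)) = -((Real.pi : ℂ) * Complex.I * (lvl (fun l => x (srt x l)) : ℂ)) := by
  have h := lg_int (QU_srt_XX hx) (QU_vd hx (srt x))
  unfold lvl
  rw [dif_pos h]
  exact h.choose_spec

theorem QU_lvl_unique {y : Fin k → ℂ} {a : ℤ} (ha : lg y = -((Real.pi : ℂ) * Complex.I * (a : ℂ))) : lvl y = a := by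
  have h : ∃ a : ℤ, lg y = -((Real.pi : ℂ) * Complex.I * (a : ℂ)) := ⟨a, ha⟩
  have h1 : lg y = -((Real.pi : ℂ) * Complex.I * (lvl y : ℂ)) := by
    unfold lvl
    rw [dif_pos h]
    exact h.choose_spec
  rw [ha] at h1
  have h6 : ((Real.pi : ℂ) * Complex.I) * ((lvl y : ℂ)) = ((Real.pi : ℂ) * Complex.I) * (a : ℂ) := by
    linear_combination h1
  have h7 : (Real.pi : ℂ) * Complex.I ≠ 0 :=
    mul_ne_zero (Complex.ofReal_ne_zero.mpr Real.pi_ne_zero) Complex.I_ne_zero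
  exact_mod_cast mul_left_cancel₀ h7 h6

theorem QU_pow {P : ℂ} (hP : ∀ a, ∀ x ∈ XX k, ∀ α, ρ a x (T α) = P * ρ a x α) (a : ℤ) {x : Fin k → ℂ}
    (hx : x ∈ XX k) (m : ℕ) (α : Fin n) : ρ a x ((T ^ m) α) = P ^ m * ρ a x α := by
  induction m generalizing α with
  | zero => simp
  | succ m ih =>
    rw [pow_succ, Equiv.Perm.mul_apply, ih, hP a x hx, pow_succ]
    ring

theorem Ctx.U_near (h : Ctx k n f ρ θ T blk) {P : ℂ} {C : ℕ} (hC : P ^ C = 1)
    (hP : ∀ a, ∀ x ∈ XX k, ∀ α, ρ a x (T α) = P * ρ a x α) {β : Fin k → Fin n} (hβ : Seq k n θ T blk β)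
    {x₀ : Fin k → ℂ} (hx₀ : x₀ ∈ MF k) (i : Fin k) :
    ∀ᶠ x in 𝓝[MF k] x₀, (fun l => x (srt x₀ l)) ∈ XX k ∧
      Uf ρ β C i x = ρ (lvl (fun l => x₀ (srt x₀ l))) (fun l => x (srt x₀ l)) (β ((srt x₀).symm i)) ^ C := by
  obtain ⟨Θ, hΘ1, hΘ2, hΘ⟩ := h.trans
  have hinj := Pool.Agent.H60.OC.inj_of_mem hx₀
  have hxX := QU_srt_XX hx₀
  have hlg₀ := lvl_spec hx₀
  have hcomp : Continuous fun y : Fin k → ℂ => fun i => y (srt x₀ i) := by fun_prop
  have hXXn : ∀ᶠ y in 𝓝 x₀, (fun i => y (srt x₀ i)) ∈ XX k :=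
    hcomp.continuousAt.eventually_mem ((XX_open k).mem_nhds hxX)
  have hlgc : ContinuousAt (fun y : Fin k → ℂ => lg fun i => y (srt x₀ i)) x₀ :=
    ((lg_cont k).continuousAt ((XX_open k).mem_nhds hxX)).comp_of_eq hcomp.continuousAt rfl
  have hlgn : ∀ᶠ y in 𝓝 x₀, ‖lg (fun i => y (srt x₀ i)) - lg (fun i => x₀ (srt x₀ i))‖ < Real.pi := by
    have h1 : ContinuousAt (fun y : Fin k → ℂ => ‖lg (fun i => y (srt x₀ i)) - lg (fun i => x₀ (srt x₀ i))‖) x₀ :=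
      (hlgc.sub continuousAt_const).norm
    refine h1.eventually_lt continuousAt_const ?_
    rw [sub_self, norm_zero]
    exact Real.pi_pos
  have hW := lex_mem_WW hinj (srt_spec hinj)
  filter_upwards [hXXn.filter_mono nhdsWithin_le_nhds, hlgn.filter_mono nhdsWithin_le_nhds,
    hW.filter_mono nhdsWithin_le_nhds, self_mem_nhdsWithin] with x h1 h2 h3 hx
  refine ⟨h1, ?_⟩
  obtain ⟨a₀, ha₀⟩ : ∃ a₀, a₀ = lvl (fun l => x₀ (srt x₀ l)) := ⟨_, rfl⟩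
  rw [← ha₀] at hlg₀ ⊢
  have hlgx : lg (fun i => x (srt x₀ i)) = -((Real.pi : ℂ) * Complex.I * (a₀ : ℂ)) := by
    obtain ⟨b, hb⟩ := lg_int h1 (QU_vd hx (srt x₀))
    have h5 : b = a₀ := by
      rw [hb, hlg₀] at h2
      have e1 : -((Real.pi : ℂ) * Complex.I * (b : ℂ)) - -((Real.pi : ℂ) * Complex.I * (a₀ : ℂ)) =
          (Real.pi : ℂ) * Complex.I * (((a₀ - b : ℤ)) : ℂ) := by
        push_cast
        ring
      rw [e1, norm_mul, norm_mul, Complex.norm_I, mul_one, Complex.norm_real, Real.norm_eq_abs,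
        abs_of_pos Real.pi_pos, Complex.norm_intCast] at h2
      have h6 : |((a₀ - b : ℤ) : ℝ)| < 1 := by
        by_contra hcon
        push Not at hcon
        have := mul_le_mul_of_nonneg_left hcon Real.pi_pos.le
        linarith
      have h7 : |a₀ - b| < 1 := by exact_mod_cast h6
      have h8 := Int.abs_lt_one_iff.mp h7
      omega
    rw [hb, h5]
  obtain ⟨σ, hσ⟩ : ∃ σ : Equiv.Perm (Fin k), σ = (srt x₀)⁻¹ * srt x := ⟨_, rfl⟩
  rw [← hσ] at h3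
  have hπσ : srt x = srt x₀ * σ := by rw [hσ, mul_inv_cancel_left]
  have hxσ : (fun i => x (srt x₀ (σ i))) = fun i => x (srt x i) := by
    funext l
    rw [hπσ, Equiv.Perm.mul_apply]
  have hlv : lvl (fun l => x (srt x l)) = a₀ + inv σ := by
    apply QU_lvl_unique
    have h5 := lg_comp σ h3
    rw [hxσ, hlgx] at h5
    rw [h5]
    push_cast
    ring
  have hXσ : (fun l => x (srt x l)) ∈ XX k := by
    rw [← hxσ]
    exact WW_comp σ h3
  obtain ⟨m, hm⟩ := h.blkS.seq_Θ hβ hΘ1 hΘ2 σ ((srt x₀).symm i)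
  have hsy : σ.symm ((srt x₀).symm i) = (srt x).symm i := by
    rw [hπσ]
    rfl
  rw [hsy] at hm
  have h8 := hΘ σ a₀ _ h3 (β ((srt x₀).symm i))
  rw [hm, hxσ, QU_pow hP _ hXσ] at h8
  unfold Uf
  rw [hlv, ← h8, mul_pow, ← pow_mul, mul_comm m C, pow_mul, hC, one_pow, one_mul]

theorem Ctx.U_cont (h : Ctx k n f ρ θ T blk) {P : ℂ} {C : ℕ} (hC : P ^ C = 1)
    (hP : ∀ a, ∀ x ∈ XX k, ∀ α, ρ a x (T α) = P * ρ a x α) {β : Fin k → Fin n} (hβ : Seq k n θ T blk β) (i : Fin k) :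
    ContinuousOn (Uf ρ β C i) (MF k) := by
  intro x₀ hx₀
  have hnear := h.U_near hC hP hβ hx₀ i
  have heq : Uf ρ β C i =ᶠ[𝓝[MF k] x₀] fun x =>
      ρ (lvl (fun l => x₀ (srt x₀ l))) (fun l => x (srt x₀ l)) (β ((srt x₀).symm i)) ^ C := by
    filter_upwards [hnear] with x hx
    exact hx.2
  have hcomp : Continuous fun y : Fin k → ℂ => fun i => y (srt x₀ i) := by fun_prop
  have hcont : ContinuousWithinAt (fun x : Fin k → ℂ =>
      ρ (lvl (fun l => x₀ (srt x₀ l))) (fun l => x (srt x₀ l)) (β ((srt x₀).symm i)) ^ C) (MF k) x₀ := by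
    refine ContinuousAt.continuousWithinAt ?_
    have h1 : ContinuousAt (fun y : Fin k → ℂ => ρ (lvl (fun l => x₀ (srt x₀ l))) (fun i => y (srt x₀ i))) x₀ :=
      ((h.cont _).continuousAt ((XX_open k).mem_nhds (QU_srt_XX hx₀))).comp_of_eq hcomp.continuousAt rfl
    exact ((continuousAt_pi.mp h1) _).pow C
  exact hcont.congr_of_eventuallyEq heq (heq.self_of_nhdsWithin hx₀)

theorem Ctx.U_hol (h : Ctx k n f ρ θ T blk) {P : ℂ} {C : ℕ} (hC : P ^ C = 1)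
    (hP : ∀ a, ∀ x ∈ XX k, ∀ α, ρ a x (T α) = P * ρ a x α) {β : Fin k → Fin n} (hβ : Seq k n θ T blk β) (i : Fin k) :
    CHol (MF k) (Uf ρ β C i) := by
  intro γ w₀ hγ hγm
  have hx₀ : γ w₀ ∈ MF k := hγm.self_of_nhds
  have hnear := h.U_near hC hP hβ hx₀ i
  have htend : Tendsto γ (𝓝 w₀) (𝓝[MF k] (γ w₀)) :=
    tendsto_nhdsWithin_of_tendsto_nhds_of_eventually_within _ hγ.continuousAt hγm
  have hev := htend.eventually hnear
  have hlin : AnalyticAt ℂ (fun w => fun l => γ w (srt (γ w₀) l)) w₀ := by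
    have h1 : (fun w => fun l => γ w (srt (γ w₀) l)) =
        (ContinuousLinearMap.pi fun l => (ContinuousLinearMap.proj (srt (γ w₀) l) : (Fin k → ℂ) →L[ℂ] ℂ)) ∘ γ := by
      funext w l
      rfl
    rw [h1]
    exact (ContinuousLinearMap.analyticAt _ _).comp hγ
  have han := (h.an (lvl (fun l => γ w₀ (srt (γ w₀) l))) hlin (QU_srt_XX hx₀)
    (β ((srt (γ w₀)).symm i))).pow C
  refine han.congr ?_
  filter_upwards [hev] with w hw
  exact hw.2.symm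

theorem Uf_sym {C : ℕ} {β : Fin k → Fin n} {x : Fin k → ℂ} (hx : x ∈ MF k) (ς : Equiv.Perm (Fin k)) (i : Fin k) :
    Uf ρ β C i (fun l => x (ς l)) = Uf ρ β C (ς i) x := by
  have hlex := srt_spec (Pool.Agent.H60.OC.inj_of_mem hx)
  have hl2 : Lex (fun l => (fun l => x (ς l)) ((ς⁻¹ * srt x) l)) := by
    have e : (fun l => (fun l => x (ς l)) ((ς⁻¹ * srt x) l)) = fun l => x (srt x l) := by
      funext l
      exact congrArg x (ς.apply_symm_apply (srt x l))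
    rw [e]
    exact hlex
  have hs : srt (fun l => x (ς l)) = ς⁻¹ * srt x := srt_unique (x := fun l => x (ς l)) (π := ς⁻¹ * srt x) hl2
  have e2 : (fun l => (fun l => x (ς l)) (srt (fun l => x (ς l)) l)) = fun l => x (srt x l) := by
    funext l
    rw [hs]
    exact congrArg x (ς.apply_symm_apply (srt x l))
  have e3 : (srt (fun l => x (ς l))).symm i = (srt x).symm (ς i) := by
    rw [hs, Equiv.symm_apply_eq]
    change i = ς.symm (srt x ((srt x).symm (ς i)))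
    rw [Equiv.apply_symm_apply, Equiv.symm_apply_apply]
  unfold Uf
  rw [e2, e3]

theorem Ctx.U_ne (h : Ctx k n f ρ θ T blk) {P : ℂ} {C : ℕ}
    (hP : ∀ a, ∀ x ∈ XX k, ∀ α, ρ a x (T α) = P * ρ a x α) {β : Fin k → Fin n} (hT : ∀ j, T (β j) ≠ β j)
    {x : Fin k → ℂ} (hx : x ∈ MF k) (i : Fin k) : Uf ρ β C i x ≠ 0 := by
  have hX := QU_srt_XX hx
  unfold Uf
  refine pow_ne_zero _ fun h0 => ?_
  have h1 := hP (lvl (fun l => x (srt x l))) _ hX (β ((srt x).symm i))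
  rw [h0, mul_zero] at h1
  exact hT _ (h.inj (lvl (fun l => x (srt x l))) hX (h1.trans h0.symm))

theorem Ctx.U_eq (h : Ctx k n f ρ θ T blk) {P : ℂ} {C : ℕ} (hC : IsPrimitiveRoot P C) (hC0 : 0 < C)
    (hP : ∀ a, ∀ x ∈ XX k, ∀ α, ρ a x (T α) = P * ρ a x α) {β β' : Fin k → Fin n} (hβ : Seq k n θ T blk β)
    (hβ' : Seq k n θ T blk β') {x : Fin k → ℂ} (hx : x ∈ MF k) (i j : Fin k) (he : Uf ρ β C i x = Uf ρ β' C j x) :
    i = j ∧ ∃ m : ℕ, β ((srt x).symm i) = (T ^ m) (β' ((srt x).symm j)) := by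
  have hX := QU_srt_XX hx
  have key : ∃ m : ℕ, β ((srt x).symm i) = (T ^ m) (β' ((srt x).symm j)) := by
    unfold Uf at he
    by_cases h0 : ρ (lvl (fun l => x (srt x l))) (fun l => x (srt x l)) (β' ((srt x).symm j)) = 0
    · rw [h0, zero_pow hC0.ne'] at he
      have h1 := (pow_eq_zero_iff hC0.ne').1 he
      refine ⟨0, ?_⟩
      rw [pow_zero]
      refine h.inj (lvl (fun l => x (srt x l))) hX ?_
      rw [h1, Equiv.Perm.one_apply, h0]
    · have h1 : (ρ (lvl (fun l => x (srt x l))) (fun l => x (srt x l)) (β ((srt x).symm i)) /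
          ρ (lvl (fun l => x (srt x l))) (fun l => x (srt x l)) (β' ((srt x).symm j))) ^ C = 1 := by
        rw [div_pow, he, div_self (pow_ne_zero _ h0)]
      have : NeZero C := ⟨hC0.ne'⟩
      obtain ⟨m, _, hm⟩ := hC.eq_pow_of_pow_eq_one h1
      refine ⟨m, h.inj (lvl (fun l => x (srt x l))) hX ?_⟩
      rw [QU_pow hP _ hX, hm, div_mul_cancel₀ _ h0]
  obtain ⟨m, hm⟩ := key
  refine ⟨?_, m, hm⟩
  have hb : ∀ (m : ℕ) (α : Fin n), blk ((T ^ m) α) = blk α := by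
    intro m
    induction m with
    | zero => intro α; rfl
    | succ m ih =>
      intro α
      rw [pow_succ, Equiv.Perm.mul_apply, ih, h.blkS.blk_T]
  have h1 := hβ.blk ((srt x).symm i)
  rw [hm, hb, hβ'.blk] at h1
  have h2 := Option.some.inj h1
  exact ((srt x).symm.injective h2).symm

/-- The quotients of the powers are constant on `MF k`. -/
theorem Ctx.U_const (h : Ctx k n f ρ θ T blk) {P : ℂ} {C : ℕ} (hC : IsPrimitiveRoot P C) (hC0 : 0 < C)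
    (hP : ∀ a, ∀ x ∈ XX k, ∀ α, ρ a x (T α) = P * ρ a x α) {β β' : Fin k → Fin n} (hβ : Seq k n θ T blk β)
    (hβ' : Seq k n θ T blk β') (hT : ∀ j, T (β j) ≠ β j) (hT' : ∀ j, T (β' j) ≠ β' j) (i j : Fin k)
    (hne : i ≠ j ∨ ∀ l (m : ℕ), β l ≠ (T ^ m) (β' l)) :
    ∃ c, ∀ x ∈ MF k, Uf ρ β C i x = c * Uf ρ β' C j x := by
  have hne' : ∀ x ∈ MF k, Uf ρ β' C j x ≠ 0 := fun x hx => h.U_ne hP hT' hx j
  have hHy : Hy (fun x => Uf ρ β C i x / Uf ρ β' C j x) := by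
    refine ⟨?_, ?_, ?_⟩
    · intro γ w₀ h1 h2
      exact (h.U_hol hC.pow_eq_one hP hβ i γ w₀ h1 h2).div (h.U_hol hC.pow_eq_one hP hβ' j γ w₀ h1 h2)
        (hne' _ h2.self_of_nhds)
    · exact (h.U_cont hC.pow_eq_one hP hβ i).div (h.U_cont hC.pow_eq_one hP hβ' j) hne'
    · intro x hx
      refine ⟨div_ne_zero (h.U_ne hP hT hx i) (hne' x hx), fun h1 => ?_⟩
      rw [div_eq_one_iff_eq (hne' x hx)] at h1
      obtain ⟨hij, m, hm⟩ := h.U_eq hC hC0 hP hβ hβ' hx i j h1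
      rcases hne with h2 | h2
      · exact h2 hij
      · rw [← hij] at hm
        exact h2 _ m hm
  obtain ⟨c, hc⟩ := dich_sym (by have := h.hk; omega) hHy i j (by
    intro ς _ hi hj x hx
    rw [Uf_sym hx, Uf_sym hx, hi, hj])
  refine ⟨c, fun x hx => ?_⟩
  rw [← hc x hx, div_mul_cancel₀ _ (hne' x hx)]

end Pool.Agent.LR
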