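import Pool.Agent.LR.Defs

/-!
# LR RootLoc: continuous choice of the roots, local form

`roots_local`.  Let `r` be the (distinct) roots at `y₀`, `δ > 0` with `2 δ ≤ |r_i - r_j|` for `i ≠ j`.  `z ↦ (poly z).eval w`
is continuous in `z` (for fixed `w`), and `(poly (H y)).eval (r i) = ∏_j (r i - r'_j)` for every root list `r'` of `H y`,
so `|(poly (H y)).eval (r i)| < ε^n` forces some `|r i - r'_j| < ε`.  So for `y` near `y₀` every disc
`ball (r i) δ` contains a root `r'_j` of `H y`; the discs are disjoint, there are `n` of them, so each contains exactly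
one root; `ρ y i` = the root in the disc with centre `r i` (choose).  `V` = the set of `y` with
`|(poly (H y)).eval (r i)| < δ^n` for all `i` (open, contains `y₀`).  Continuity of `ρ` at a point `y₁` of `V`: the roots
of `H y₁` are `ρ y₁ i` (distinct); for small `ε` with `ball (ρ y₁ i) ε ⊆ ball (r i) δ` and `y` near `y₁` there is a root of
`H y` in `ball (ρ y₁ i) ε`, it is in `ball (r i) δ`, so it is `ρ y i`.  (For `n = 0` everything is trivial.)
-/

set_option autoImplicit false

open Topology Filter Polynomial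

noncomputable section

namespace Pool.Agent.LR

open Pool.Agent.H60.OC (poly IsRoots)

theorem rl_eval {n : ℕ} {r z : Fin n → ℂ} (h : IsRoots r z) (w : ℂ) :
    (poly z).eval w = ∏ j, (w - r j) := by
  rw [h, eval_prod]
  exact Finset.prod_congr rfl fun j _ => by simp

theorem rl_near {n : ℕ} {r z : Fin n → ℂ} (h : IsRoots r z) (w : ℂ) {ε : ℝ} (hε : 0 < ε)
    (hw : ‖(poly z).eval w‖ < ε ^ n) : ∃ j, ‖w - r j‖ < ε := by
  by_contra hcon
  push Not at hcon
  rw [rl_eval h, norm_prod] at hw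
  have h1 : ε ^ n = ∏ _j : Fin n, ε := by simp
  rw [h1] at hw
  exact absurd hw (not_lt.mpr (Finset.prod_le_prod (fun _ _ => hε.le) fun j _ => hcon j))

theorem rl_cont {n : ℕ} (w : ℂ) : Continuous fun z : Fin n → ℂ => (poly z).eval w := by
  unfold poly
  simp only [eval_add, eval_pow, eval_X, eval_finsetSum, eval_mul, eval_C]
  fun_prop

theorem rl_delta {n : ℕ} {r : Fin n → ℂ} (hr : Function.Injective r) :
    ∃ δ : ℝ, 0 < δ ∧ ∀ i j, ‖r i - r j‖ < 2 * δ → i = j := by
  classical
  rcases ((Finset.univ : Finset (Fin n × Fin n)).filter fun p => p.1 ≠ p.2).eq_empty_or_nonempty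
    with h | h
  · refine ⟨1, one_pos, fun i j _ => ?_⟩
    by_contra hne
    have : (i, j) ∈ ((Finset.univ : Finset (Fin n × Fin n)).filter fun p => p.1 ≠ p.2) := by
      rw [Finset.mem_filter]
      exact ⟨Finset.mem_univ _, hne⟩
    rw [h] at this
    exact absurd this (Finset.notMem_empty _)
  · obtain ⟨p, hp, hmin⟩ := Finset.exists_min_image _ (fun p : Fin n × Fin n => ‖r p.1 - r p.2‖) h
    rw [Finset.mem_filter] at hp
    have hpos : 0 < ‖r p.1 - r p.2‖ := norm_pos_iff.mpr (sub_ne_zero.mpr fun h => hp.2 (hr h))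
    refine ⟨‖r p.1 - r p.2‖ / 2, by positivity, fun i j hij => ?_⟩
    by_contra hne
    have h1 := hmin (i, j) (by
      rw [Finset.mem_filter]
      exact ⟨Finset.mem_univ _, hne⟩)
    simp only at h1
    linarith

theorem roots_local {Y : Type} [TopologicalSpace Y] {n : ℕ} {H : Y → (Fin n → ℂ)} (hH : Continuous H)
    (hd : ∀ y, ∃ r, IsRoots r (H y) ∧ Function.Injective r) (y₀ : Y) :
    ∃ (V : Set Y) (ρ : Y → (Fin n → ℂ)), IsOpen V ∧ y₀ ∈ V ∧ ContinuousOn ρ V ∧ ∀ y ∈ V, IsRoots (ρ y) (H y) := by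
  classical
  choose r' hr' hri' using hd
  obtain ⟨δ, hδ, hsep⟩ := rl_delta (hri' y₀)
  obtain ⟨r, hr⟩ : ∃ r, r = r' y₀ := ⟨_, rfl⟩
  rw [← hr] at hsep
  have hev : ∀ w, Continuous fun y => ‖(poly (H y)).eval w‖ := fun w => ((rl_cont w).comp hH).norm
  have hτ : ∀ y, ∃ τ : Fin n → Fin n, (∀ i, ‖(poly (H y)).eval (r i)‖ < δ ^ n) →
      ∀ i, ‖r i - r' y (τ i)‖ < δ := by
    intro y
    by_cases hy : ∀ i, ‖(poly (H y)).eval (r i)‖ < δ ^ n
    · have h1 : ∀ i, ∃ j, ‖r i - r' y j‖ < δ := fun i => rl_near (hr' y) (r i) hδ (hy i)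
      choose τ hτ using h1
      exact ⟨τ, fun _ => hτ⟩
    · exact ⟨id, fun h => absurd h hy⟩
  choose τ hτ using hτ
  have hinj : ∀ y, (∀ i, ‖(poly (H y)).eval (r i)‖ < δ ^ n) → Function.Injective (τ y) := by
    intro y hy i j hij
    apply hsep
    have h1 := hτ y hy i
    have h2 := hτ y hy j
    rw [hij] at h1
    have h3 : r i - r j = (r i - r' y (τ y j)) - (r j - r' y (τ y j)) := by ring
    rw [h3]
    refine lt_of_le_of_lt (norm_sub_le _ _) ?_
    linarith
  refine ⟨{y | ∀ i, ‖(poly (H y)).eval (r i)‖ < δ ^ n}, fun y i => r' y (τ y i), ?_, ?_, ?_, ?_⟩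
  · rw [Set.ofPred_forall]
    exact isOpen_iInter_of_finite fun i => isOpen_lt (hev (r i)) continuous_const
  · intro i
    rw [hr, Pool.Agent.H60.OC.roots_eval (hr' y₀) i, norm_zero]
    positivity
  · intro y₁ hy₁
    have hy₁' : ∀ i, ‖(poly (H y₁)).eval (r i)‖ < δ ^ n := hy₁
    refine ContinuousAt.continuousWithinAt ?_
    refine continuousAt_pi.mpr fun i => ?_
    rw [Metric.continuousAt_iff']
    intro ε hε
    obtain ⟨e, he⟩ : ∃ e, e = min ε (δ - ‖r i - r' y₁ (τ y₁ i)‖) := ⟨_, rfl⟩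
    have he0 : 0 < e := by
      rw [he]
      exact lt_min hε (by linarith [hτ y₁ hy₁' i])
    have h1 : ∀ᶠ y in 𝓝 y₁, ‖(poly (H y)).eval (r' y₁ (τ y₁ i))‖ < e ^ n := by
      refine (hev _).continuousAt.eventually_lt continuousAt_const ?_
      rw [Pool.Agent.H60.OC.roots_eval (hr' y₁) _, norm_zero]
      positivity
    have h2 : ∀ᶠ y in 𝓝 y₁, ∀ i, ‖(poly (H y)).eval (r i)‖ < δ ^ n := by
      rw [Filter.eventually_all]
      intro i
      exact (hev _).continuousAt.eventually_lt continuousAt_const (hy₁' i)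
    filter_upwards [h1, h2] with y hy1 hy2
    obtain ⟨j, hj⟩ := rl_near (hr' y) _ he0 hy1
    obtain ⟨i', hi'⟩ := (Finite.injective_iff_surjective.mp (hinj y hy2)) j
    have h3 : ‖r i - r' y j‖ < δ := by
      have e1 : r i - r' y j = (r i - r' y₁ (τ y₁ i)) + (r' y₁ (τ y₁ i) - r' y j) := by ring
      rw [e1]
      refine lt_of_le_of_lt (norm_add_le _ _) ?_
      have h4 : e ≤ δ - ‖r i - r' y₁ (τ y₁ i)‖ := by rw [he]; exact min_le_right _ _
      linarith
    have h5 := hτ y hy2 i'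
    rw [hi'] at h5
    have h6 : i = i' := by
      apply hsep
      have e1 : r i - r i' = (r i - r' y j) - (r i' - r' y j) := by ring
      rw [e1]
      refine lt_of_le_of_lt (norm_sub_le _ _) ?_
      linarith
    rw [dist_eq_norm, h6, hi', ← h6, norm_sub_rev]
    exact lt_of_lt_of_le hj (by rw [he]; exact min_le_left _ _)
  · intro y hy
    have hb : Function.Bijective (τ y) := Finite.injective_iff_bijective.mp (hinj y hy)
    have h1 := hr' y
    unfold IsRoots at h1 ⊢
    rw [h1]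
    exact (Function.Bijective.prod_comp hb fun j => (X - C (r' y j) : ℂ[X])).symm

end Pool.Agent.LR
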