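import Pool.Agent.LR.Pat

/-!
# LR Sharp: braid groups on `m` strands act cyclically on fewer than `m` points

`EqAll.sharp`: let `|α| < 2 N` and `|α| ≤ m + 1`, `T = TT φ m 0`; suppose that `φ` is not constant.

(1) If `T = ∅` then `φ 0 = φ 2`: for a point `x` with `φ 0 x ≠ x`: not all of `φ (2s) x = x` (`s ≥ 1`), by `pat 0` they are all
equal to `φ 2 x`, so `φ 2 x ≠ x`, by `pat 1` `φ 0 x = φ 4 x = φ 2 x`.  So `φ 0 x = φ 2 x` for all `x` moved by `φ 0`; and if `φ 0 x = x`
but `φ 2 x ≠ x` then `pat 1` gives `φ (2s) x = φ 0 x = x` for all `s ≠ 1`, `x ∈ TT φ m 1`, which is the image of `T` under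
`φ 1 * φ 0 * φ 2 * φ 1` (see `TT_card`), so empty, contradiction.  Then `φ 3` commutes with `φ 0 = φ 2`, `φ 2 = φ 3`
(`eq_of_comm_braid`), `BraidRel.all_eq`.

(2) So `T ≠ ∅`, then `|T| ≥ 2` (`x` and `φ 0 x` are in `T`: `φ 0` commutes with the `φ (2s)`), and `TT_card` gives
`2 (m / 2 + 1) ≤ (m/2+1) |T| ≤ |α| ≤ m + 1`.  So `m` is odd, `|α| = m + 1`, `|T| = 2`, and the sets `TT φ m r`, `r ≤ m / 2`, cover
`α` (disjoint, two points each; count as in `TT_card`).  So the support of `φ (2 r)` is `TT φ m r` (a point of `TT s`, `s ≠ r`,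
is fixed by `φ (2r)`), every point of `α` is moved by exactly one even generator `φ (2r)`, `2 r ≤ m - 1`.

(3) The product `D = dl φ m = φ 0 * ... * φ m` satisfies `D φ i = φ (i+1) D` for `i + 1 ≤ m` (`dl_shift`), so every point of `α` is
moved by exactly one of the odd generators `φ (2r+1)`, `2 r + 1 ≤ m`, and the support of `φ 1` is `D T`, two points.

(4) `supp φ 0 = T = {y, y'}`.  `supp φ 1` is not disjoint from it (else `φ 1` fixes `T` pointwise, the braid relation at
`x ∈ T` gives `φ 0 x = x`), and not equal to it (else `φ 0 = φ 1` as both are the transposition of the same two points, then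
`all_eq`).  So exactly one of the two, say `y'`, is in `supp φ 1`, and `φ 1 y = y`.  For `j ≥ 3`: `φ j` commutes with `φ 0` and
`φ 1`, so it maps `supp φ 0 ∩ supp φ 1 = {y'}` to itself, and `supp φ 0` to itself, so `φ j y = y`.  So `y` is fixed by all odd
generators, contradiction to (3).

`eqAll_self`: `m ≥ 12`: `eqAll_weak (m - 2)`, `N = max 2 (m - 6) = m - 6`, `2 N = 2 m - 12 ≥ m`; so `sharp` gives
`EqAll m (min (2 m - 12) m) = EqAll m m`.
-/

set_option autoImplicit false

open Equiv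

namespace Pool.Agent.LR

/-- The element which carries `TT r` to `TT (r + 1)`. -/
private theorem tt_step {m : ℕ} {α : Type} {φ : ℕ → Perm α} (hφ : BraidRel (m + 2) φ) {r : ℕ}
    (hr : 2 * (r + 1) + 1 < m + 2) (x : α) :
    x ∈ TT φ m r ↔ (φ (2 * r + 1) * φ (2 * r) * φ (2 * r + 2) * φ (2 * r + 1)) x ∈ TT φ m (r + 1) := by
  set τ := φ (2 * r + 1) * φ (2 * r) * φ (2 * r + 2) * φ (2 * r + 1) with hτ
  have hlo : ∀ z, τ (φ (2 * r) z) = φ (2 * r + 2) (τ z) := fun z =>
    congrArg (fun e : Perm α => e z) (hφ.tau_lo (i := 2 * r) (by omega))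
  have hhi : ∀ z, τ (φ (2 * r + 2) z) = φ (2 * r) (τ z) := fun z =>
    congrArg (fun e : Perm α => e z) (hφ.tau_hi (i := 2 * r) (by omega))
  have hfar : ∀ j, j + 1 < m + 2 → (j + 2 ≤ 2 * r ∨ 2 * r + 4 ≤ j) → ∀ z, τ (φ j z) = φ j (τ z) := fun j hj hij z =>
    congrArg (fun e : Perm α => e z) (hφ.tau_far (i := 2 * r) (by omega) hj hij)
  have h2 : 2 * (r + 1) = 2 * r + 2 := by ring
  constructor
  · rintro ⟨h0, h1⟩
    refine ⟨?_, ?_⟩
    · rw [h2, ← hlo]
      exact fun h => h0 (τ.injective h)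
    · intro s hs hsm
      rcases lt_trichotomy s r with hsr | hsr | hsr
      · rw [← hfar (2 * s) hsm (Or.inl (by omega)), h1 s (by omega) hsm]
      · rw [hsr, ← hhi, ← h2, h1 (r + 1) (by omega) hr]
      · rw [← hfar (2 * s) hsm (Or.inr (by omega)), h1 s (by omega) hsm]
  · rintro ⟨h0, h1⟩
    refine ⟨?_, ?_⟩
    · intro h
      apply h0
      rw [h2, ← hlo, h]
    · intro s hs hsm
      rcases Nat.lt_or_ge s r with hsr | hsr
      · apply τ.injective
        rw [hfar (2 * s) hsm (Or.inl (by omega)), h1 s (by omega) hsm]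
      · rcases eq_or_ne s (r + 1) with hsr' | hsr'
        · apply τ.injective
          rw [hsr', h2, hhi, h1 r (by omega) (by omega)]
        · apply τ.injective
          rw [hfar (2 * s) hsm (Or.inr (by omega)), h1 s hsr' hsm]

private theorem tt_img {m : ℕ} {α : Type} {φ : ℕ → Perm α} (hφ : BraidRel (m + 2) φ) {r : ℕ}
    (hr : 2 * r + 1 < m + 2) {x : α} (hx : x ∈ TT φ m r) : φ (2 * r) x ∈ TT φ m r := by
  refine ⟨fun h => hx.1 ((φ (2 * r)).injective h), fun s hs hsm => ?_⟩
  have hc : φ (2 * s) * φ (2 * r) = φ (2 * r) * φ (2 * s) := hφ.comm hsm hr (by omega)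
  have h1 : φ (2 * s) (φ (2 * r) x) = φ (2 * r) (φ (2 * s) x) := congrArg (fun e : Perm α => e x) hc
  rw [h1, hx.2 s hs hsm]

private theorem tt_ne {m : ℕ} {α : Type} {φ : ℕ → Perm α} (hφ : BraidRel (m + 2) φ) {x : α} (hx : x ∈ TT φ m 0) :
    ∀ r, 2 * r + 1 < m + 2 → ∃ y, y ∈ TT φ m r := by
  intro r
  induction r with
  | zero => intro _; exact ⟨x, hx⟩
  | succ r ih =>
    intro hr
    obtain ⟨y, hy⟩ := ih (by omega)
    exact ⟨_, (tt_step hφ hr y).1 hy⟩

/-- Case (1): no point is moved by `φ 0` only. -/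
private theorem sharp_one {m N : ℕ} (h : EqAll m N) (hm : 5 ≤ m) {α : Type} [Finite α] {φ : ℕ → Perm α}
    (hφ : BraidRel (m + 2) φ) (hc : Nat.card α < 2 * N) (hT : ∀ x, x ∉ TT φ m 0) :
    ∀ i, i + 1 < m + 2 → φ i = φ 0 := by
  have hp := h.pat hm hφ hc
  have h1T : ∀ x, x ∉ TT φ m 1 := by
    intro x hx
    set τ := φ (2 * 0 + 1) * φ (2 * 0) * φ (2 * 0 + 2) * φ (2 * 0 + 1) with hτ
    have h1 := (tt_step hφ (r := 0) (by omega) (τ⁻¹ x)).2 (by
      rw [← hτ, pinv]
      exact hx)
    exact hT _ h1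
  have h02 : φ 0 = φ 2 := by
    ext x
    by_cases h0 : φ 0 x = x
    · by_cases h2 : φ 2 x = x
      · rw [h0, h2]
      · exfalso
        apply h1T x
        refine ⟨h2, fun s hs hsm => ?_⟩
        rw [hp 1 (by omega) x h2 s 0 hs (by omega) hsm (by omega)]
        exact h0
    · have h3 : ∃ s, s ≠ 0 ∧ 2 * s + 1 < m + 2 ∧ φ (2 * s) x ≠ x := by
        by_contra hcon
        push Not at hcon
        exact hT x ⟨h0, fun s hs hsm => hcon s hs hsm⟩
      obtain ⟨s, hs, hsm, hsx⟩ := h3
      have h4 : φ (2 * s) x = φ 2 x := hp 0 (by omega) x h0 s 1 hs (by omega) hsm (by omega)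
      have h5 : φ (2 * 1) x ≠ x := by
        intro h6
        exact hsx (h4.trans h6)
      have h6 : φ 0 x = φ 4 x := hp 1 (by omega) x h5 0 2 (by omega) (by omega) (by omega) (by omega)
      have h7 : φ 4 x = φ 2 x := hp 0 (by omega) x h0 2 1 (by omega) (by omega) (by omega) (by omega)
      rw [h6, h7]
  have h23 : φ 2 = φ 3 := by
    refine eq_of_comm_braid ?_ (hφ.br 2 (by omega))
    rw [← h02]
    exact hφ.far 0 3 (by omega) (by omega)
  exact hφ.all_eq (i := 2) (by omega) h23

/-- Case (2): the sets `TT r` cover. -/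
private theorem sharp_two {m : ℕ} {α : Type} [Finite α] {φ : ℕ → Perm α}
    (hφ : BraidRel (m + 2) φ) (hc : Nat.card α < m + 2) {x : α} (hx : x ∈ TT φ m 0) :
    m % 2 = 1 ∧ ∃ y : ℕ → α, (∀ r, 2 * r + 1 < m + 2 → y r ∈ TT φ m r) ∧
      ∀ z : α, ∃ r, 2 * r + 1 < m + 2 ∧ (z = y r ∨ z = φ (2 * r) (y r)) := by
  classical
  have h1 := tt_ne hφ hx
  have : Nonempty α := ⟨x⟩
  choose! y hy using h1
  let f : Fin (m / 2 + 1) × Bool → α := fun w => if w.2 then φ (2 * w.1.1) (y w.1.1) else y w.1.1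
  have hlt : ∀ r : Fin (m / 2 + 1), 2 * r.1 + 1 < m + 2 := fun r => by have := r.2; omega
  have hfT : ∀ w, f w ∈ TT φ m w.1.1 := by
    rintro ⟨r, b⟩
    cases b
    · exact hy r.1 (hlt r)
    · exact tt_img hφ (hlt r) (hy r.1 (hlt r))
  have hinj : Function.Injective f := by
    rintro w w' hww
    have h2 := hfT w
    have h3 := hfT w'
    have h4 : w.1 = w'.1 := by
      by_contra hne
      have h5 : (w.1 : ℕ) ≠ w'.1 := fun h6 => hne (Fin.ext h6)
      have h7 := h3.2 w.1.1 h5 (hlt _)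
      rw [← hww] at h7
      exact h2.1 h7
    obtain ⟨r, b⟩ := w
    obtain ⟨r', b'⟩ := w'
    obtain rfl : r = r' := h4
    have h5 := (hy r.1 (hlt r)).1
    cases b <;> cases b'
    · rfl
    · exact absurd hww.symm h5
    · exact absurd hww h5
    · rfl
  have hcard : Nat.card (Fin (m / 2 + 1) × Bool) = 2 * (m / 2 + 1) := by
    rw [Nat.card_prod]
    simp [mul_comm]
  have hle := Nat.card_le_card_of_injective f hinj
  rw [hcard] at hle
  have hodd : m % 2 = 1 := by omega
  have hsurj : Function.Surjective f := by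
    have h2 : Nat.card (Fin (m / 2 + 1) × Bool) = Nat.card α := by
      rw [hcard]
      omega
    exact ((Nat.bijective_iff_injective_and_card f).2 ⟨hinj, h2⟩).2
  refine ⟨hodd, y, hy, fun z => ?_⟩
  obtain ⟨⟨r, b⟩, hz⟩ := hsurj z
  refine ⟨r.1, hlt r, ?_⟩
  cases b
  · exact Or.inl hz.symm
  · exact Or.inr hz.symm

/-- Case (4): two transpositions. -/
private theorem sharp_four {m : ℕ} (hm : 5 ≤ m) {α : Type} {φ : ℕ → Perm α} (hφ : BraidRel (m + 2) φ) {a b : α}
    (hab : a ≠ b) (h0a : φ 0 a = b) (h0b : φ 0 b = a) (h0 : ∀ z, φ 0 z ≠ z → z = a ∨ z = b)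
    (hodd : ∀ z, ∃ r, 2 * r + 1 ≤ m ∧ φ (2 * r + 1) z ≠ z) {y y' : α} (hy : y = a ∨ y = b) (hy' : y' = a ∨ y' = b)
    (hyy : y ≠ y') (h1y : φ 1 y = y) (h1y' : φ 1 y' ≠ y') : False := by
  have hmv : ∀ z, (z = a ∨ z = b) → φ 0 z ≠ z := by
    rintro z (rfl | rfl)
    · rw [h0a]; exact hab.symm
    · rw [h0b]; exact hab
  have hj : ∀ j, 3 ≤ j → j ≤ m → φ j y = y := by
    intro j hj hjm
    have hc0 : φ j * φ 0 = φ 0 * φ j := hφ.comm (by omega) (by omega) (Or.inr (by omega))
    have hc1 : φ j * φ 1 = φ 1 * φ j := hφ.comm (by omega) (by omega) (Or.inr (by omega))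
    have h1 : φ j y' = a ∨ φ j y' = b := h0 _ ((mv_iff hc0 y').2 (hmv _ hy'))
    have h2 : φ 1 (φ j y') ≠ φ j y' := (mv_iff hc1 y').2 h1y'
    have h3 : φ j y' ≠ y := by
      intro h4
      rw [h4] at h2
      exact h2 h1y
    have h4 : φ j y' = y' := by
      rcases hy with rfl | rfl <;> rcases hy' with rfl | rfl <;> rcases h1 with h1 | h1
      · exact absurd rfl hyy
      · exact absurd rfl hyy
      · exact absurd h1 h3
      · exact h1
      · exact h1
      · exact absurd h1 h3
      · exact absurd rfl hyy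
      · exact absurd rfl hyy
    have h5 : φ j y = a ∨ φ j y = b := h0 _ ((mv_iff hc0 y).2 (hmv _ hy))
    have h6 : φ j y ≠ y' := by
      intro h7
      rw [← h4] at h7
      exact hyy ((φ j).injective h7)
    rcases hy with rfl | rfl <;> rcases hy' with rfl | rfl <;> rcases h5 with h5 | h5
    · exact h5
    · exact absurd rfl hyy
    · exact h5
    · exact absurd h5 h6
    · exact absurd h5 h6
    · exact h5
    · exact absurd rfl hyy
    · exact h5
  obtain ⟨r, hr, hrz⟩ := hodd y
  rcases Nat.eq_zero_or_pos r with rfl | hr0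
  · exact hrz h1y
  · exact hrz (hj _ (by omega) hr)

theorem EqAll.sharp {m N : ℕ} (h : EqAll m N) (hm : 5 ≤ m) : EqAll (m + 2) (min (2 * N) (m + 2)) := by
  intro α _ φ hφ hc
  have hc1 : Nat.card α < 2 * N := lt_of_lt_of_le hc (min_le_left _ _)
  have hc2 : Nat.card α < m + 2 := lt_of_lt_of_le hc (min_le_right _ _)
  by_cases hT : ∃ x, x ∈ TT φ m 0
  · obtain ⟨x, hx⟩ := hT
    obtain ⟨hmo, y, hy, hcov⟩ := sharp_two hφ hc2 hx
    -- the points moved by an even generator
    have hsup : ∀ r, 2 * r + 1 < m + 2 → ∀ z, φ (2 * r) z ≠ z → z = y r ∨ z = φ (2 * r) (y r) := by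
      intro r hr z hz
      obtain ⟨s, hs, hzs⟩ := hcov z
      have h1 : z ∈ TT φ m s := by
        rcases hzs with rfl | rfl
        · exact hy s hs
        · exact tt_img hφ hs (hy s hs)
      rcases eq_or_ne s r with rfl | hne
      · exact hzs
      · exact absurd (h1.2 r hne.symm hr) hz
    set a := y 0 with ha
    set b := φ 0 a with hb
    have haT : a ∈ TT φ m 0 := hy 0 (by omega)
    have hab : a ≠ b := fun h1 => haT.1 h1.symm
    have h0 : ∀ z, φ 0 z ≠ z → z = a ∨ z = b := fun z hz => hsup 0 (by omega) z hz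
    have h0b : φ 0 b = a := by
      have h1 : φ 0 b ≠ b := fun h1 => haT.1 ((φ 0).injective h1)
      have h2 : φ 0 (φ 0 b) ≠ φ 0 b := fun h2 => h1 ((φ 0).injective h2)
      rcases h0 _ h2 with h3 | h3
      · exact h3
      · exact absurd h3 h1
    set D := dl φ m with hD
    have hDs : ∀ i, i + 1 ≤ m → ∀ z, D (φ i z) = φ (i + 1) (D z) := fun i hi z =>
      congrArg (fun e : Perm α => e z) (dl_shift hφ m (by omega) i hi)
    have hodd : ∀ z, ∃ r, 2 * r + 1 ≤ m ∧ φ (2 * r + 1) z ≠ z := by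
      intro z
      obtain ⟨r, hr, hzr⟩ := hcov (D⁻¹ z)
      have hrm : 2 * r + 1 ≤ m := by omega
      refine ⟨r, hrm, fun h1 => ?_⟩
      have h2 : D⁻¹ z ∈ TT φ m r := by
        rcases hzr with h3 | h3
        · rw [h3]; exact hy r hr
        · rw [h3]; exact tt_img hφ hr (hy r hr)
      apply h2.1
      apply D.injective
      rw [hDs _ hrm, pinv, h1]
    have h1sup : ∀ z, φ 1 z ≠ z → z = D a ∨ z = D b := by
      intro z hz
      have h1 : φ 0 (D⁻¹ z) ≠ D⁻¹ z := by
        intro h2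
        apply hz
        have h3 := hDs 0 (by omega) (D⁻¹ z)
        rw [h2, pinv] at h3
        exact h3.symm
      rcases h0 _ h1 with h2 | h2
      · left; rw [← h2, pinv]
      · right; rw [← h2, pinv]
    have hpw : ∀ z, φ 0 (φ 1 (φ 0 z)) = φ 1 (φ 0 (φ 1 z)) := fun z =>
      congrArg (fun e : Perm α => e z) (hφ.br 0 (by omega))
    by_cases h1a : φ 1 a = a
    · by_cases h1b : φ 1 b = b
      · exfalso
        have h2 := hpw a
        rw [← hb, h1b, h0b, h1a, ← hb, h1b] at h2
        exact hab h2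
      · exact (sharp_four hm hφ hab hb.symm h0b h0 hodd (y := a) (y' := b) (Or.inl rfl) (Or.inr rfl) hab h1a h1b).elim
    · by_cases h1b : φ 1 b = b
      · exact (sharp_four hm hφ hab hb.symm h0b h0 hodd (y := b) (y' := a) (Or.inr rfl) (Or.inl rfl) hab.symm h1b
          h1a).elim
      · -- both are moved: `φ 0 = φ 1`
        have h2 : ∀ z, φ 1 z ≠ z → z = a ∨ z = b := by
          intro z hz
          rcases h1sup a h1a with ha1 | ha1 <;> rcases h1sup b h1b with hb1 | hb1 <;> rcases h1sup z hz with hz1 | hz1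
          · exact absurd (ha1.trans hb1.symm) hab
          · exact absurd (ha1.trans hb1.symm) hab
          · exact Or.inl (hz1.trans ha1.symm)
          · exact Or.inr (hz1.trans hb1.symm)
          · exact Or.inr (hz1.trans hb1.symm)
          · exact Or.inl (hz1.trans ha1.symm)
          · exact absurd (ha1.trans hb1.symm) hab
          · exact absurd (ha1.trans hb1.symm) hab
        have h3 : φ 1 a = b := by
          have h4 : φ 1 (φ 1 a) ≠ φ 1 a := fun h4 => h1a ((φ 1).injective h4)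
          rcases h2 _ h4 with h5 | h5
          · exact absurd h5 h1a
          · exact h5
        have h4 : φ 1 b = a := by
          have h4 : φ 1 (φ 1 b) ≠ φ 1 b := fun h4 => h1b ((φ 1).injective h4)
          rcases h2 _ h4 with h5 | h5
          · exact h5
          · exact absurd h5 h1b
        refine hφ.all_eq (i := 0) (by omega) ?_
        ext z
        by_cases hza : z = a
        · rw [hza, h3]
        · by_cases hzb : z = b
          · rw [hzb, h4, h0b]
          · have h5 : φ 0 z = z := by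
              by_contra h5
              rcases h0 z h5 with h6 | h6
              · exact hza h6
              · exact hzb h6
            have h6 : φ 1 z = z := by
              by_contra h6
              rcases h2 z h6 with h7 | h7
              · exact hza h7
              · exact hzb h7
            rw [h5, h6]
  · push Not at hT
    exact sharp_one h hm hφ hc1 hT

theorem eqAll_self {m : ℕ} (hm : 12 ≤ m) : EqAll m m := by
  have h1 := (eqAll_weak (m - 2) (by omega)).sharp (by omega)
  rw [show m - 2 + 2 = m by omega] at h1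
  exact h1.mono (by omega)

end Pool.Agent.LR
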