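import Pool.Agent.LR.EqAll

/-!
# LR Sq: supports of the generators of a braid group acting on few points
-/

set_option autoImplicit false

open Equiv

namespace Pool.Agent.LR

section grp

variable {G : Type*} [Group G]

theorem tau_l {a b c : G} (hab : a * b * a = b * a * b) (hbc : b * c * b = c * b * c) (hac : a * c = c * a) :
    b * a * c * b * a = c * (b * a * c * b) := by
  calc b * a * c * b * a = b * (a * c) * b * a := by simp only [mul_assoc]
    _ = b * (c * a) * b * a := by rw [hac]
    _ = b * c * (a * b * a) := by simp only [mul_assoc]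
    _ = b * c * (b * a * b) := by rw [hab]
    _ = (b * c * b) * a * b := by simp only [mul_assoc]
    _ = (c * b * c) * a * b := by rw [hbc]
    _ = c * b * (c * a) * b := by simp only [mul_assoc]
    _ = c * b * (a * c) * b := by rw [hac]
    _ = c * (b * a * c * b) := by simp only [mul_assoc]

theorem tau_r {a b c : G} (hab : a * b * a = b * a * b) (hbc : b * c * b = c * b * c) :
    b * a * c * b * c = a * (b * a * c * b) := by
  calc b * a * c * b * c = b * a * (c * b * c) := by simp only [mul_assoc]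
    _ = b * a * (b * c * b) := by rw [hbc]
    _ = (b * a * b) * c * b := by simp only [mul_assoc]
    _ = (a * b * a) * c * b := by rw [hab]
    _ = a * (b * a * c * b) := by simp only [mul_assoc]

theorem comm_mul {a b c : G} (h1 : a * c = c * a) (h2 : b * c = c * b) : a * b * c = c * (a * b) := by
  rw [mul_assoc, h2, ← mul_assoc, h1, mul_assoc]

variable {m : ℕ} {φ : ℕ → G}

theorem BraidRel.tau_lo (h : BraidRel m φ) {i : ℕ} (hi : i + 3 < m) :
    φ (i + 1) * φ i * φ (i + 2) * φ (i + 1) * φ i = φ (i + 2) * (φ (i + 1) * φ i * φ (i + 2) * φ (i + 1)) :=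
  tau_l (h.br i (by omega)) (h.br (i + 1) (by omega)) (h.far i (i + 2) le_rfl (by omega))

theorem BraidRel.tau_hi (h : BraidRel m φ) {i : ℕ} (hi : i + 3 < m) :
    φ (i + 1) * φ i * φ (i + 2) * φ (i + 1) * φ (i + 2) = φ i * (φ (i + 1) * φ i * φ (i + 2) * φ (i + 1)) :=
  tau_r (h.br i (by omega)) (h.br (i + 1) (by omega))

theorem BraidRel.tau_far (h : BraidRel m φ) {i j : ℕ} (hi : i + 3 < m) (hj : j + 1 < m) (hij : j + 2 ≤ i ∨ i + 4 ≤ j) :
    φ (i + 1) * φ i * φ (i + 2) * φ (i + 1) * φ j = φ j * (φ (i + 1) * φ i * φ (i + 2) * φ (i + 1)) := by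
  have h0 := h.comm (i := i) (j := j) (by omega) hj (by omega)
  have h1 := h.comm (i := i + 1) (j := j) (by omega) hj (by omega)
  have h2 := h.comm (i := i + 2) (j := j) (by omega) hj (by omega)
  exact comm_mul (comm_mul (comm_mul h1 h0) h2) h1

theorem BraidRel.conj (h : BraidRel m φ) {i : ℕ} (hi : i + 2 < m) :
    φ i * φ (i + 1) * φ i = φ (i + 1) * (φ i * φ (i + 1)) := by
  rw [h.br i hi, mul_assoc]

/-- The product `φ 0 * ... * φ p`. -/
def dl (φ : ℕ → G) : ℕ → G
  | 0 => φ 0
  | p + 1 => dl φ p * φ (p + 1)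

theorem dl_comm (h : BraidRel m φ) {j : ℕ} (hj : j + 1 < m) : ∀ p, p + 2 ≤ j → dl φ p * φ j = φ j * dl φ p
  | 0, hp => h.far 0 j hp hj
  | p + 1, hp => comm_mul (dl_comm h hj p (by omega)) (h.far (p + 1) j hp hj)

theorem dl_shift (h : BraidRel m φ) : ∀ p, p + 1 < m → ∀ i, i + 1 ≤ p → dl φ p * φ i = φ (i + 1) * dl φ p := by
  intro p
  induction p with
  | zero => intro _ i hi; omega
  | succ p ih =>
    intro hp i hi
    show dl φ p * φ (p + 1) * φ i = φ (i + 1) * (dl φ p * φ (p + 1))
    rcases Nat.lt_or_ge i p with hip | hip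
    · rw [mul_assoc, ← h.far i (p + 1) (by omega) hp, ← mul_assoc, ih (by omega) i (by omega), mul_assoc]
    · have hip' : i = p := by omega
      subst hip'
      rcases i with _ | i
      · show φ 0 * φ 1 * φ 0 = φ 1 * (φ 0 * φ 1)
        exact h.conj (by omega)
      · show dl φ i * φ (i + 1) * φ (i + 2) * φ (i + 1) = φ (i + 2) * (dl φ i * φ (i + 1) * φ (i + 2))
        have h1 := h.br (i + 1) (by omega)
        have h2 := dl_comm h (j := i + 2) (by omega) i le_rfl
        calc dl φ i * φ (i + 1) * φ (i + 2) * φ (i + 1) = dl φ i * (φ (i + 1) * φ (i + 2) * φ (i + 1)) := by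
              simp only [mul_assoc]
          _ = dl φ i * (φ (i + 2) * φ (i + 1) * φ (i + 2)) := by rw [h1]
          _ = (dl φ i * φ (i + 2)) * φ (i + 1) * φ (i + 2) := by simp only [mul_assoc]
          _ = (φ (i + 2) * dl φ i) * φ (i + 1) * φ (i + 2) := by rw [h2]
          _ = φ (i + 2) * (dl φ i * φ (i + 1) * φ (i + 2)) := by simp only [mul_assoc]

end grp

section sets

variable {α : Type} [DecidableEq α]

theorem inv_of_card_two {a : Perm α} {A : Finset α} (hA : A.card ≤ 2) (ha : ∀ x ∈ A, a x ∈ A ∧ a x ≠ x) {x : α}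
    (hx : x ∈ A) : a (a x) = x := by
  obtain ⟨h1, h2⟩ := ha x hx
  obtain ⟨h3, h4⟩ := ha _ h1
  have h5 : ({x, a x} : Finset α) ⊆ A := by
    intro y hy
    simp only [Finset.mem_insert, Finset.mem_singleton] at hy
    rcases hy with rfl | rfl
    · exact hx
    · exact h1
  have h6 : ({x, a x} : Finset α).card = 2 := Finset.card_pair (Ne.symm h2)
  have h7 : ({x, a x} : Finset α) = A := Finset.eq_of_subset_of_card_le h5 (by omega)
  rw [← h7] at h3
  simp only [Finset.mem_insert, Finset.mem_singleton] at h3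
  rcases h3 with h3 | h3
  · exact h3
  · exact absurd h3 h4

theorem card_triple {x y z : α} (hxy : x ≠ y) (hxz : x ≠ z) (hyz : y ≠ z) : ({x, y, z} : Finset α).card = 3 :=
  Finset.card_eq_three.2 ⟨x, y, z, hxy, hxz, hyz, rfl⟩

theorem cube_of_card_three {a : Perm α} {A : Finset α} (hA : A.card = 3) (ha : ∀ x ∈ A, a x ∈ A ∧ a x ≠ x) {y : α}
    (hy : y ∈ A) : a (a y) ≠ y ∧ a (a (a y)) = y := by
  obtain ⟨hu, huy⟩ := ha y hy
  obtain ⟨hv, hvu⟩ := ha _ hu
  have hvy : a (a y) ≠ y := by
    intro hvy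
    -- a third element
    have h1 : ({y, a y} : Finset α).card = 2 := Finset.card_pair (Ne.symm huy)
    have h2 : ∃ w ∈ A, w ∉ ({y, a y} : Finset α) := by
      by_contra hcon
      push Not at hcon
      have := Finset.card_le_card (show A ⊆ ({y, a y} : Finset α) from hcon)
      omega
    obtain ⟨w, hw, hw'⟩ := h2
    simp only [Finset.mem_insert, Finset.mem_singleton, not_or] at hw'
    obtain ⟨hw1, hw2⟩ := ha w hw
    have h3 : ({y, a y, w} : Finset α) = A := by
      refine Finset.eq_of_subset_of_card_le ?_ ?_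
      · intro z hz
        simp only [Finset.mem_insert, Finset.mem_singleton] at hz
        rcases hz with rfl | rfl | rfl
        · exact hy
        · exact hu
        · exact hw
      · rw [card_triple (Ne.symm huy) (Ne.symm hw'.1) (Ne.symm hw'.2), hA]
    rw [← h3] at hw1
    simp only [Finset.mem_insert, Finset.mem_singleton] at hw1
    rcases hw1 with h4 | h4 | h4
    · exact hw'.2 (a.injective (h4.trans hvy.symm))
    · exact hw'.1 (a.injective h4)
    · exact hw2 h4
  refine ⟨hvy, ?_⟩
  have h3 : ({y, a y, a (a y)} : Finset α) = A := by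
    refine Finset.eq_of_subset_of_card_le ?_ ?_
    · intro z hz
      simp only [Finset.mem_insert, Finset.mem_singleton] at hz
      rcases hz with rfl | rfl | rfl
      · exact hy
      · exact hu
      · exact hv
    · rw [card_triple (Ne.symm huy) (Ne.symm hvy) (Ne.symm hvu), hA]
  obtain ⟨h4, h5⟩ := ha _ hv
  rw [← h3] at h4
  simp only [Finset.mem_insert, Finset.mem_singleton] at h4
  rcases h4 with h4 | h4 | h4
  · exact h4
  · exact absurd (a.injective h4) hvy
  · exact absurd h4 h5

theorem no_three {a b : Perm α} (hab : a * b * a = b * a * b) {A : Finset α} (hA : A.card = 3)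
    (ha : ∀ x ∈ A, a x ∈ A ∧ a x ≠ x) {y : α} (hy : y ∈ A) (hb : ∀ x ∈ A, x ≠ y → b x = x) : False := by
  obtain ⟨h1, h2⟩ := cube_of_card_three hA ha hy
  obtain ⟨hu, huy⟩ := ha y hy
  obtain ⟨hv, -⟩ := ha _ hu
  have h3 := congrArg (fun e : Perm α => e (a y)) hab
  simp only [Perm.mul_apply] at h3
  rw [hb _ hu huy, hb _ hv h1, h2] at h3
  exact h1 h3.symm

end sets

end Pool.Agent.LR
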